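import Mathlib.CategoryTheory.Category.Init
import Mathlib.Analysis.SpecialFunctions.Log.Basic
import Mathlib.RingTheory.PowerSeries.Basic
import Mathlib.RingTheory.MvPowerSeries.Inverse
import Mathlib.RingTheory.Binomial

/-! Project DQ (finitely many `D(n)`-quintuples for non-square `n`): definitions, row statements. -/

set_option autoImplicit false

noncomputable section

namespace Pool.Agent.MP_2339ce_nt.DQ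

open PowerSeries Real

/-! ### residues -/

/-- Taylor series at `α` of `(1 + α x) ^ (ρ + 1 / 2)`, divided by `√(1 + α x)` -/
def gs (ρ : ℕ) (x α : ℝ) : ℝ⟦X⟧ :=
  PowerSeries.mk fun h => Ring.choose ((ρ : ℝ) + 1 / 2) h * x ^ h * (1 + α * x) ^ ((ρ : ℤ) - h)

def iv (c : ℝ) : ℝ⟦X⟧ := (C c + X)⁻¹

/-- the residue at the node `α` of multiplicity `k`; the other nodes are `β`, `γ` -/
def rs (ρ : ℕ) (x α β γ : ℝ) (k l m : ℕ) : ℝ :=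
  coeff (k - 1) (gs ρ x α * iv (α - β) ^ l * iv (α - γ) ^ m)

/-- the weighted sum of the three residues -/
def SS (ρ : ℕ) (x α β γ : ℝ) (k l m : ℕ) (u v w : ℝ) : ℝ :=
  u * (√(1 + α * x) * rs ρ x α β γ k l m) + v * (√(1 + β * x) * rs ρ x β α γ l k m) +
    w * (√(1 + γ * x) * rs ρ x γ α β m k l)

def be (ρ σ : ℕ) : ℝ := |Ring.choose ((ρ : ℝ) + 1 / 2) σ|

/-- ordered nodes close to zero -/
structure Nod (ε x α β γ : ℝ) : Prop where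
  x0 : 0 < x
  ab : β < α
  bc : γ < β
  e4 : ε ≤ 1 / 4
  ha : |α * x| ≤ ε
  hb : |β * x| ≤ ε
  hc : |γ * x| ≤ ε

/-- the main term -/
def S_MAIN : Prop := ∀ (ρ k l m σ : ℕ) (ε x α β γ : ℝ), Nod ε x α β γ → 1 ≤ k → 1 ≤ l → 1 ≤ m →
  σ + 1 = k + l + m → ρ + 1 ≤ σ → 0 < be ρ σ ∧ be ρ σ ≤ 1 ∧
    be ρ σ * x ^ σ / (1 + ε) ^ σ ≤ (-1) ^ (σ + ρ + 1) * SS ρ x α β γ k l m 1 1 1 ∧
    (-1) ^ (σ + ρ + 1) * SS ρ x α β γ k l m 1 1 1 ≤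
      be ρ σ * x ^ σ * (1 + ε) ^ (ρ + 2) / (1 - ε) ^ (σ + 1)

/-- the signs of the residues at the extreme nodes -/
def S_SGN : Prop := ∀ (ρ k l m : ℕ) (ε x α β γ : ℝ), Nod ε x α β γ → 1 ≤ k → 1 ≤ m →
  (ρ + 1 ≤ l + m → 0 ≤ (-1) ^ (k + 1) * rs ρ x α β γ k l m) ∧
    (m ≤ ρ + 1 → 0 ≤ (-1) ^ (k + l) * rs ρ x γ α β m k l)

/-- the size of a residue -/
def S_BND : Prop := ∀ (ρ k l m : ℕ) (x α β γ lam : ℝ), 1 ≤ k → k ≤ ρ + 1 → 0 < x → |α * x| ≤ 1 / 4 →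
  x ≤ lam → 1 ≤ lam * |α - β| → 1 ≤ lam * |α - γ| →
    |rs ρ x α β γ k l m| ≤ 4 ^ (ρ + 1) * 2 ^ (k + l + m) * lam ^ (k - 1) / (|α - β| ^ l * |α - γ| ^ m)

/-- the scale that clears the denominators -/
def sc (ρ kp kq : ℕ) (p q d np nq : ℝ) : ℝ :=
  4 ^ ρ * d ^ ρ * np ^ (kp + ρ) * nq ^ (kq + ρ) * (np * q - nq * p) ^ (kp + kq - 1) / (p ^ kp * q ^ kq)

structure Adm (ρ kp kq : ℕ) : Prop where
  p1 : 1 ≤ kp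
  p2 : kp ≤ ρ + 1
  q1 : 1 ≤ kq
  q2 : kq ≤ ρ + 1

/-- integrality -/
def S_INT : Prop := ∀ (ρ kp kq : ℕ) (p q d np nq : ℤ), Adm ρ kp kq → 0 < p → 0 < q → 0 < d →
  np ≠ 0 → nq ≠ 0 → np * q - nq * p ≠ 0 →
    (∃ i : ℤ, sc ρ kp kq p q d np nq * rs ρ (1 / d) 0 (nq / q) (np / p) (ρ + 1) kq kp = i) ∧
    (∃ i : ℤ, sc ρ kp kq p q d np nq * rs ρ (1 / d) (nq / q) 0 (np / p) kq (ρ + 1) kp / q = i) ∧
    (∃ i : ℤ, sc ρ kp kq p q d np nq * rs ρ (1 / d) (np / p) 0 (nq / q) kp (ρ + 1) kq / p = i)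

/-- two small elements `p < q`, an anchor `d` and a target `e` -/
structure Cfg (N p q d e np nq n0 : ℤ) : Prop where
  p0 : 0 < p
  pq : p < q
  hd : 4 * N ≤ d
  de : d ≤ e
  hp : |np| ≤ N
  hq : |nq| ≤ N
  ord : (np * q < nq * p ∧ nq * d < n0 * q ∧ n0 ≤ 0) ∨ (nq * p < np * q ∧ n0 * q < nq * d ∧ 0 ≤ n0)
  pd : IsSquare (p * d + np)
  pe : IsSquare (p * e + np)
  qd : IsSquare (q * d + nq)
  qe : IsSquare (q * e + nq)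
  sq : IsSquare (d * e + n0)

/-- the linear form -/
def ww (ρ kp kq : ℕ) (p q d e np nq n0 : ℝ) : ℝ :=
  SS ρ (1 / d) 0 (nq / q) (np / p) (ρ + 1) kq kp √(1 + n0 / (d * e)) √(1 + nq / (q * e))
    √(1 + np / (p * e))

/-- the excluded interval, in logarithms -/
def Di (L P Q D E : ℝ) (ρ kp kq : ℕ) : Prop :=
  E ≤ (2 * ρ + 1) * D + (2 * (ρ + kp + kq) - 4) * Q + (ρ + kp + kq) * L ∨
    (2 * (kp + kq) - 1) * D + 2 * kp * P - (2 * kp - 2) * Q - (ρ + kp + kq) * L ≤ E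

/-- the size of the linear form -/
def S_SIZE : Prop := ∀ N : ℤ, ∃ K : ℝ, 1 ≤ K ∧ ∀ (ρ kp kq : ℕ) (p q d e np nq n0 : ℤ),
  Adm ρ kp kq → Cfg N p q d e np nq n0 →
    |sc ρ kp kq p q d np nq * ww ρ kp kq p q d e np nq n0| ≤ K ^ (ρ + kp + kq) * d ^ ρ *
      (q ^ (kp - 1) / (p ^ kp * d ^ (ρ + kp + kq)) + q ^ (ρ + kp + kq - 2) / e)

def S_DICH : Prop := ∀ N : ℤ, ∃ L : ℝ, 0 ≤ L ∧ ∀ (ρ kp kq : ℕ) (p q d e np nq n0 : ℤ),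
  Adm ρ kp kq → Cfg N p q d e np nq n0 → ww ρ kp kq p q d e np nq n0 ≠ 0 →
    Di L (log p) (log q) (log d) (log e) ρ kp kq

/-- forms with three terms of one sign -/
structure Good (ρ kp kq : ℕ) : Prop extends Adm ρ kp kq where
  ev : Even kq
  od : Odd (kp + ρ)
  big : ρ + 1 ≤ kp + kq

def S_NZ : Prop := ∀ (ρ kp kq : ℕ) (N p q d e np nq n0 : ℤ), Good ρ kp kq →
  Cfg N p q d e np nq n0 → ww ρ kp kq p q d e np nq n0 ≠ 0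

/-- the form with three triple nodes: one pair -/
def S_NZ3 : Prop := ∀ n p q d e : ℤ, 0 < p → p < q → 100 * q ≤ d → 1000 * |n| ≤ d → d ≤ e →
  (n < 0 ∧ 10 * q ≤ 19 * p) ∨ (0 < n ∧ 3 * p ≤ q) → ww 2 3 3 p q d e n n n ≠ 0

/-- the form with three triple nodes: two pairs -/
def S_NZ4 : Prop := ∀ n a b c d e : ℤ, n < 0 → 0 < a → 19 * a ≤ 10 * b → 19 * b ≤ 10 * c →
  100 * c ≤ d → 1000 * |n| ≤ d → d ≤ e → ww 2 3 3 a b d e n n n ≠ 0 ∨ ww 2 3 3 a c d e n n n ≠ 0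

/-! ### chains -/

def S_CH1 : Prop := ∀ L A B D E : ℝ, 0 ≤ L → 0 ≤ A → A ≤ B → 9 * B + 8 * L < D →
  (∀ ρ kp kq, Good ρ kp kq → Di L A B D E ρ kp kq) → E ≤ 3 * D + 6 * B + 5 * L

def S_CH2 : Prop := ∀ L A B C D E : ℝ, 0 ≤ L → 0 ≤ A → A ≤ B → B ≤ C → 2 * C ≤ 5 * B →
  200 * L < C → 2 * B + 3 * C - L ≤ D → (∀ ρ kp kq, Good ρ kp kq → Di L A B D E ρ kp kq) →
  (∀ ρ kp kq, Good ρ kp kq → Di L B C D E ρ kp kq) →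
  (E ≤ 5 * D + 12 * C + 8 * L ∨ 11 * D - 4 * C - 8 * L ≤ E) → E ≤ 3 * D + 6 * B + 5 * L

/-! ### the gap for five elements -/

def S_G5 : Prop := ∀ n : ℤ, n ≠ 0 → ∃ K : ℤ, 0 < K ∧ ∀ a b c d e : ℤ, 0 < a → a < b → b < c →
  c < d → K ≤ d → K * c ^ 3 * d ^ 2 ≤ e → IsSquare (a * d + n) → IsSquare (b * d + n) →
  IsSquare (c * d + n) → IsSquare (a * e + n) → IsSquare (b * e + n) → IsSquare (c * e + n) →
  IsSquare (d * e + n) → d ^ 5 ≤ K * c ^ 2 * e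

/-! ### triples and quadruples with the property `D(-N)` -/

structure Tr (N : ℤ) where
  (a b c r s t : ℤ)
  a0 : 0 < a
  ab : a < b
  bc : b < c
  r0 : 0 ≤ r
  s0 : 0 ≤ s
  t0 : 0 ≤ t
  hr : r ^ 2 = a * b - N
  hs : s ^ 2 = a * c - N
  ht : t ^ 2 = b * c - N

structure Qd (N : ℤ) extends Tr N where
  (d x y z : ℤ)
  cd : c < d
  x0 : 0 ≤ x
  y0 : 0 ≤ y
  z0 : 0 ≤ z
  hx : x ^ 2 = a * d - N
  hy : y ^ 2 = b * d - N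
  hz : z ^ 2 = c * d - N

variable {N : ℤ}

def Tr.w (T : Tr N) : ℤ := T.a * T.t - T.r * T.s

namespace Qd

variable (q : Qd N)

def P : ℤ := q.a * q.z - q.s * q.x

def Q : ℤ := q.b * q.z - q.t * q.y

def m0 : ℤ := q.P - q.Q

def g : ℤ := 8 * q.a * q.c * q.P - 2 * N * q.P - 4 * q.a * N * q.z

def m1 : ℤ := q.g - 2 * N * q.m0

def D : ℤ := N * q.P - 4 * q.a * q.c * q.m0

def h : ℤ := N ^ 3 - 2 * q.m0 * q.m1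

/-- the window -/
structure Win (K : ℤ) : Prop where
  m : 1 ≤ q.m0
  low : q.a * q.c ≤ 4 * |N| * |q.P|
  up : |q.P| ≤ K * q.a * q.c

end Qd

/-- quantification over the non-squares `-N` -/
def NS (F : ℤ → Prop) : Prop := ∀ N : ℤ, ¬ IsSquare (-N) → F N

def S_TRI : Prop := NS fun N => ∃ K : ℤ, ∀ T : Tr N, K ≤ T.c → 3 * T.a ≤ T.c

def S_LINE : Prop := NS fun N => ∀ K0 : ℤ, ∃ K : ℤ, ∀ (T : Tr N) (M L j : ℤ), T.a ≤ K0 →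
  |T.w| ≤ K0 → M ≠ 0 → |M| ≤ K0 → |L| ≤ K0 → |j| ≤ K0 → M * T.c = L * T.b + j → T.c ≤ K

/-- the last three elements are not a regular triple -/
def S_REG : Prop := NS fun N => ∀ K0 : ℤ, ∃ K : ℤ, ∀ q : Qd N, |q.Q| ≤ K0 → q.c ≤ K0 * q.b →
  q.c ≤ K

def S_Q1 : Prop := NS fun N => ∃ K : ℤ, ∀ q : Qd N, K ≤ q.c →
  1 ≤ q.m0 ∧ q.a * q.c ≤ 4 * |N| * |q.P|

def S_Q2 : Prop := NS fun N => ∃ K : ℤ, 0 < K ∧ ∀ q : Qd N, K ≤ q.c → 1 ≤ q.m0 →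
  K * q.a * q.c ≤ |q.P| → K * |q.P| ≤ q.b * q.c → q.m1 = 0

def S_Q3 : Prop := NS fun N => ∀ K0 : ℤ, ∃ K : ℤ, 0 < K ∧ ∀ q : Qd N, K ≤ q.c → K * q.a ≤ q.b →
  q.Win K0 → q.h = 0 ∧ q.m0 ≤ K ∧ |q.g| ≤ K

def S_Q4 : Prop := NS fun N => ∃ K : ℤ, ∀ q : Qd N, K ≤ q.c → K * q.a ≤ q.b → q.h = 0 →
  2 * q.m0 ≠ |N|

def S_Q5 : Prop := NS fun N => ∀ K0 : ℤ, ∃ K : ℤ, ∀ q : Qd N, K ≤ q.c → K * q.a ≤ q.b →
  q.Win K0 → q.h = 0 → q.m0 ≤ K0 → |q.g| ≤ K0 → 2 * q.m0 ≠ |N| →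
    |q.D| ≤ K * q.a ^ 2 ∧ q.c ≤ K * q.b

def S_Q6 : Prop := NS fun N => ∀ K0 : ℤ, ∃ K : ℤ, ∀ q : Qd N, K * q.a ≤ q.b → q.Win K0 →
  q.h = 0 → q.m0 ≤ K0 → |q.g| ≤ K0 → |q.D| ≤ K0 * q.a ^ 2 → q.c ≤ K0 * q.b → q.a ≤ K

def S_Q7 : Prop := NS fun N => ∀ K0 : ℤ, ∃ K : ℤ, ∀ q : Qd N, q.a ≤ K0 → |q.m0| ≤ K0 →
  |q.g| ≤ K0 → |q.D| ≤ K0 → q.c ≤ K0 * q.b → q.c ≤ K

/-- the second iterate of `z` for the pair `b`, `c` -/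
def Qd.Z (q : Qd N) : ℤ := 2 * q.c * q.Q - N * q.z

def S_Q8 : Prop := NS fun N => N < 0 → ∃ K : ℤ, ∀ q : Qd N, K ≤ q.c → 1 ≤ q.m0 →
  K * q.a * q.c ≤ |q.P| → q.m1 = 0 → q.a ≤ K ∧ q.c ≤ K * q.b ∧ q.Z ^ 2 ≤ K * q.c

def S_Q9 : Prop := NS fun N => N < 0 → ∀ K0 : ℤ, ∃ K : ℤ, ∀ q : Qd N, q.m1 = 0 → q.a ≤ K0 →
  q.c ≤ K0 * q.b → q.Z ^ 2 ≤ K0 * q.c → q.c ≤ K

/-- the gap for four elements -/
def S_LQ : Prop := NS fun N => ∃ K : ℤ, 0 < K ∧ ∀ q : Qd N, K ≤ q.c → q.b ^ 2 * q.c ^ 3 ≤ K * q.d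

/-! ### finiteness -/

/-- a fixed triple has finitely many extensions -/
def S_TS : Prop := ∀ n a b c : ℤ, n ≠ 0 → 0 < a → a < b → b < c →
  {e : ℤ | 0 < e ∧ IsSquare (a * e + n) ∧ IsSquare (b * e + n) ∧ IsSquare (c * e + n)}.Finite

/-- five positive elements in increasing order -/
structure Qt (n a b c d e : ℤ) : Prop where
  a0 : 0 < a
  ab : a < b
  bc : b < c
  cd : c < d
  de : d < e
  s1 : IsSquare (a * b + n)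
  s2 : IsSquare (a * c + n)
  s3 : IsSquare (a * d + n)
  s4 : IsSquare (a * e + n)
  s5 : IsSquare (b * c + n)
  s6 : IsSquare (b * d + n)
  s7 : IsSquare (b * e + n)
  s8 : IsSquare (c * d + n)
  s9 : IsSquare (c * e + n)
  s10 : IsSquare (d * e + n)

/-- the third element is bounded -/
def S_BD : Prop := ∀ n : ℤ, ¬ IsSquare n → ∃ K : ℤ, ∀ a b c d e, Qt n a b c d e → c ≤ K

def S_FIN : Prop := ∀ n : ℤ, ¬ IsSquare n → {s : Finset ℤ | s.card = 5 ∧ (∀ a ∈ s, a ≠ 0) ∧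
  ∀ a ∈ s, ∀ b ∈ s, a ≠ b → IsSquare (a * b + n)}.Finite

end Pool.Agent.MP_2339ce_nt.DQ

end
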