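import Mathlib.Data.Int.Star
import Mathlib.Algebra.Order.Ring.Star
import Pool.Agent.MP_2339ce_nt.DQ.Spec

/-! Project DQ: identities and signs for triples and quadruples. -/

set_option autoImplicit false

namespace Pool.Agent.MP_2339ce_nt.DQ

theorem rs_comm (ρ : ℕ) (x α β γ : ℝ) (k l m : ℕ) : rs ρ x α β γ k l m = rs ρ x α γ β k m l := by
  unfold rs; rw [mul_right_comm]

theorem ne_zero_of_ns {N : ℤ} (h : ¬ IsSquare (-N)) : N ≠ 0 := by
  rintro rfl; exact h ⟨0, by simp⟩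

/-- the identity `T` for three elements in any order -/
theorem idT {N a b c r s t : ℤ} (hr : r ^ 2 = a * b - N) (hs : s ^ 2 = a * c - N)
    (ht : t ^ 2 = b * c - N) :
    2 * a * (a * t - r * s) * t = a * N * (b + c - a) + (a * t - r * s) ^ 2 - N ^ 2 := by
  linear_combination a ^ 2 * ht - s ^ 2 * hr - (a * b - N) * hs

theorem idT' {N a b c r s t : ℤ} (hr : r ^ 2 = a * b - N) (hs : s ^ 2 = a * c - N)
    (ht : t ^ 2 = b * c - N) : (a * t - r * s) * (a * t + r * s) = N * (r ^ 2 + a * (c - a)) := by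
  linear_combination a ^ 2 * ht - (s ^ 2 + N) * hr - (a * b - N) * hs

theorem pos_of_mul_eq {N u v k : ℤ} (hN : N ≠ 0) (hv : 0 ≤ v) (hk : 0 < k) (h : u * v = N * k) :
    0 < N * u := by
  have h1 : 0 < N * u * v := by
    have : N * u * v = N ^ 2 * k := by linear_combination N * h
    rw [this]; positivity
  by_contra hc
  push Not at hc
  nlinarith [mul_nonneg (neg_nonneg.2 hc) hv]

variable {N : ℤ}

namespace Tr

variable (T : Tr N)

theorem b0 : 0 < T.b := T.a0.trans T.ab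

theorem c0 : 0 < T.c := T.b0.trans T.bc

theorem ac : T.a < T.c := T.ab.trans T.bc

theorem eT : 2 * T.a * T.w * T.t = T.a * N * (T.b + T.c - T.a) + T.w ^ 2 - N ^ 2 :=
  idT T.hr T.hs T.ht

theorem eT' : T.w * (T.a * T.t + T.r * T.s) = N * (T.r ^ 2 + T.a * (T.c - T.a)) :=
  idT' T.hr T.hs T.ht

theorem w_sign (hN : N ≠ 0) : 0 < N * T.w := by
  have := T.a0; have := T.t0; have := T.r0; have := T.s0; have := sub_pos.2 T.ac
  exact pos_of_mul_eq hN (by positivity) (by positivity) T.eT'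

end Tr

namespace Qd

variable (q : Qd N)

theorem d0 : 0 < q.d := q.c0.trans q.cd

/-- the triple `a, c, d`; its `w` is `P` -/
def acd : Tr N :=
  ⟨q.a, q.c, q.d, q.s, q.x, q.z, q.a0, q.ac, q.cd, q.s0, q.x0, q.z0, q.hs, q.hx, q.hz⟩

/-- the triple `b, c, d`; its `w` is `Q` -/
def bcd : Tr N :=
  ⟨q.b, q.c, q.d, q.t, q.y, q.z, q.b0, q.bc, q.cd, q.t0, q.y0, q.z0, q.ht, q.hy, q.hz⟩

theorem eP : q.P * (q.a * q.z + q.s * q.x) = N * (q.s ^ 2 + q.a * (q.d - q.a)) := q.acd.eT'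

theorem eQ : q.Q * (q.b * q.z + q.t * q.y) = N * (q.t ^ 2 + q.b * (q.d - q.b)) := q.bcd.eT'

theorem eA : 2 * q.a * q.P * q.z = q.a * N * (q.c + q.d - q.a) + q.P ^ 2 - N ^ 2 := q.acd.eT

theorem eB : 2 * q.b * q.Q * q.z = q.b * N * (q.c + q.d - q.b) + q.Q ^ 2 - N ^ 2 := q.bcd.eT

theorem P_sign (hN : N ≠ 0) : 0 < N * q.P := q.acd.w_sign hN

theorem Q_sign (hN : N ≠ 0) : 0 < N * q.Q := q.bcd.w_sign hN

theorem cA : q.c * q.P ^ 2 - 2 * q.a * q.c * q.P * q.z + N * q.a * q.z ^ 2 +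
    N * (q.c - q.a) * q.s ^ 2 = 0 := by
  linear_combination (-q.c) * q.eA + N * q.a * q.hz + N * (q.c - q.a) * q.hs

theorem cB : q.c * q.Q ^ 2 - 2 * q.b * q.c * q.Q * q.z + N * q.b * q.z ^ 2 +
    N * (q.c - q.b) * q.t ^ 2 = 0 := by
  linear_combination (-q.c) * q.eB + N * q.b * q.hz + N * (q.c - q.b) * q.ht

theorem e1 : 2 * q.a * q.b * q.z * q.m0 =
    q.b * q.P ^ 2 - q.a * q.Q ^ 2 + N * (q.b - q.a) * q.r ^ 2 := by
  unfold m0
  linear_combination q.b * q.eA - q.a * q.eB - N * (q.b - q.a) * q.hr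

theorem e1' : q.a * q.m0 * ((q.b - q.a) * q.z + q.s * q.x + q.t * q.y) =
    (q.b - q.a) * (q.P ^ 2 + N * q.r ^ 2) := by
  have h := q.e1
  unfold m0 at *
  have hP : q.s * q.x = q.a * q.z - q.P := by unfold P; ring
  have hQ : q.t * q.y = q.b * q.z - q.Q := by unfold Q; ring
  rw [hP, hQ]
  linear_combination h

theorem eG : q.g * (q.a * q.z + q.s * q.x) =
    2 * N * q.P ^ 2 + 8 * q.a * N * q.s ^ 2 * (q.c - q.a) := by
  have hP : q.s * q.x = q.a * q.z - q.P := by unfold P; ring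
  rw [hP]; unfold g
  linear_combination (-8 * q.a) * q.cA

theorem e2 : 8 * q.a * q.c * q.P * q.g =
    (2 * N * q.P + q.g) ^ 2 + 16 * q.a * N ^ 2 * q.s ^ 2 * (q.c - q.a) := by
  unfold g
  linear_combination (-16 * q.a * N) * q.cA

theorem e3 : 2 * q.a * q.b * q.z * q.m1 = 2 * N * q.a * q.Q ^ 2 + q.b * q.P * q.g +
    8 * q.a * q.b * N * q.s ^ 2 * (q.c - q.a) - 2 * N ^ 2 * q.r ^ 2 * (q.b - q.a) := by
  unfold m1 g
  linear_combination (-2 * N) * q.e1 - 8 * q.a * q.b * q.cA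

theorem e4 : 2 * q.b * q.P * q.D = 2 * N * q.a * q.Q ^ 2 - 2 * N ^ 2 * q.r ^ 2 * (q.b - q.a) -
    q.b * q.m0 * (2 * N * q.P + q.g) := by
  unfold D g
  linear_combination (-2 * N) * q.e1

theorem e5 : 4 * N * q.D * (q.m0 * q.P - q.a * q.c * N) =
    q.m0 * (16 * q.a * N ^ 2 * (N * q.c + q.a ^ 2 * q.c - N * q.a) - 4 * N * q.P * q.g - q.g ^ 2) -
      4 * q.a * q.c * q.P * q.h := by
  unfold D h m1
  linear_combination (-q.m0) * q.e2 - 16 * q.m0 * q.a * N ^ 2 * (q.c - q.a) * q.hs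

theorem e6 : N * (q.m0 * q.P - q.a * q.c * N) =
    q.m0 * q.D + q.a * q.c * (4 * q.m0 ^ 2 - N ^ 2) := by
  unfold D; ring

theorem z_pos (h : |N| < q.c) : 0 < q.z := by
  have h1 := q.hz
  have := q.c0; have := q.d0; have := le_abs_self N
  rcases q.z0.lt_or_eq with h2 | h2
  · exact h2
  · rw [← h2] at h1; nlinarith

theorem s_pos (h : |N| < q.c) : 0 < q.s := by
  have h1 := q.hs
  have := q.c0; have := q.a0; have := le_abs_self N
  rcases q.s0.lt_or_eq with h2 | h2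
  · exact h2
  · rw [← h2] at h1; nlinarith

theorem g_sign (hN : N ≠ 0) : 0 < N * q.g := by
  have := q.a0; have := q.z0; have := q.s0; have := q.x0; have := sub_pos.2 q.ac
  have hP : q.P ≠ 0 := by
    have := q.P_sign hN
    rintro h; rw [h] at this; simp at this
  exact pos_of_mul_eq (v := q.a * q.z + q.s * q.x)
    (k := 2 * q.P ^ 2 + 8 * q.a * q.s ^ 2 * (q.c - q.a)) hN (by positivity) (by positivity)
    (by linear_combination q.eG)

end Qd

/-- the size of `w` -/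
theorem Tr.w_le (T : Tr N) (h : 2 * |N| ≤ T.b) : T.b * |T.w| ≤ 4 * |N| * T.t := by
  have ha := T.a0; have hb := T.b0; have hc := T.c0; have hbc := T.bc
  have hr := T.r0; have hs := T.s0; have h1 := T.hr; have h3 := T.ht
  have hN := abs_nonneg N; have hl := le_abs_self N; have hl' := neg_abs_le N
  have ht : 0 < T.t := by
    rcases T.t0.lt_or_eq with h2 | h2
    · exact h2
    · rw [← h2] at h3; nlinarith
  have hk : 0 ≤ T.r ^ 2 + T.a * (T.c - T.a) := by have := sub_pos.2 T.ac; positivity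
  have e : |T.w| * (T.a * T.t + T.r * T.s) = |N| * (T.r ^ 2 + T.a * (T.c - T.a)) := by
    have := congrArg abs T.eT'
    rwa [abs_mul, abs_mul, abs_of_nonneg hk,
      abs_of_nonneg (by positivity : 0 ≤ T.a * T.t + T.r * T.s)] at this
  have hw := abs_nonneg T.w
  have k1 : T.b * (T.r ^ 2 + T.a * (T.c - T.a)) ≤ 4 * T.a * T.t ^ 2 := by
    rw [h1, h3]
    have p1 : T.a * T.b * T.b ≤ T.a * T.b * T.c := by gcongr
    have p2 : T.b * |N| ≤ T.a * T.b * T.c := by
      have : T.b * |N| ≤ T.b * (T.a * T.c) := by gcongr; nlinarith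
      linarith
    have p3 : 4 * T.a * |N| ≤ T.a * T.b * T.c := by
      have p4 : T.b * 2 ≤ T.b * T.c := by gcongr; omega
      have : T.a * (4 * |N|) ≤ T.a * (T.b * T.c) :=
        mul_le_mul_of_nonneg_left (by linarith) ha.le
      linarith
    nlinarith [mul_pos hb (mul_pos ha ha), mul_le_mul_of_nonneg_left hl ha.le,
      mul_le_mul_of_nonneg_left hl' hb.le]
  have k2 : T.b * |T.w| * (T.a * T.t) ≤ 4 * |N| * T.t * (T.a * T.t) := by
    calc T.b * |T.w| * (T.a * T.t) ≤ T.b * (|T.w| * (T.a * T.t + T.r * T.s)) := by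
          nlinarith [mul_nonneg (mul_nonneg hb.le hw) (mul_nonneg hr hs)]
      _ = |N| * (T.b * (T.r ^ 2 + T.a * (T.c - T.a))) := by rw [e]; ring
      _ ≤ |N| * (4 * T.a * T.t ^ 2) := by gcongr
      _ = _ := by ring
  exact le_of_mul_le_mul_right k2 (by positivity)

namespace Qd

variable (q : Qd N)

theorem P_le (h : 2 * |N| ≤ q.c) : q.c * |q.P| ≤ 4 * |N| * q.z := q.acd.w_le h

theorem Q_le (h : 2 * |N| ≤ q.c) : q.c * |q.Q| ≤ 4 * |N| * q.z := q.bcd.w_le h

/-- the size of `g` -/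
theorem g_abs : |q.g| * (q.a * q.z + q.s * q.x) =
    |N| * (2 * q.P ^ 2 + 8 * q.a * q.s ^ 2 * (q.c - q.a)) := by
  have := q.a0; have := q.z0; have := q.s0; have := q.x0; have := sub_pos.2 q.ac
  have e : q.g * (q.a * q.z + q.s * q.x) =
      N * (2 * q.P ^ 2 + 8 * q.a * q.s ^ 2 * (q.c - q.a)) := by linear_combination q.eG
  have h := congrArg abs e
  rwa [abs_mul, abs_mul, abs_of_nonneg (by positivity : 0 ≤ q.a * q.z + q.s * q.x),
    abs_of_nonneg (by positivity : 0 ≤ 2 * q.P ^ 2 + 8 * q.a * q.s ^ 2 * (q.c - q.a))] at h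

/-- the size of `m0` -/
theorem m0_le (h : 0 ≤ q.m0) : q.a * q.m0 * q.z ≤ q.P ^ 2 + |N| * q.r ^ 2 := by
  have e := q.e1'
  have := q.a0; have := q.z0; have := q.s0; have := q.x0; have := q.t0; have := q.y0
  have hab := sub_pos.2 q.ab
  have h1 : 0 ≤ q.a * q.m0 * (q.s * q.x + q.t * q.y) := by positivity
  have h2 : (q.b - q.a) * (N * q.r ^ 2) ≤ (q.b - q.a) * (|N| * q.r ^ 2) := by
    gcongr; exact le_abs_self N
  refine le_of_mul_le_mul_left ?_ hab
  linarith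

theorem m0_pos (hN : 0 < N) : 1 ≤ q.m0 := by
  have h := q.e1'
  have := q.a0; have := q.z0; have := q.s0; have := q.x0; have := q.t0; have := q.y0
  have := sub_pos.2 q.ab
  have hP : 0 < q.P := pos_of_mul_pos_left' (q.P_sign hN.ne') hN
  have h2 : 0 < (q.b - q.a) * (q.P ^ 2 + N * q.r ^ 2) := by positivity
  by_contra hc
  have h3 : 0 ≤ -q.m0 := by omega
  have : 0 ≤ q.a * -q.m0 * ((q.b - q.a) * q.z + q.s * q.x + q.t * q.y) := by positivity
  linarith
where
  pos_of_mul_pos_left' {u v : ℤ} (h : 0 < u * v) (hu : 0 < u) : 0 < v := by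
    by_contra hc; push Not at hc; nlinarith

theorem m1_pos (hN : 0 < N) (h : 2 * N ≤ q.c) : 1 ≤ q.m1 := by
  have e := q.e3
  have ha := q.a0; have hb := q.b0; have := q.z0; have hab := sub_pos.2 q.ab; have hbc := q.bc
  have hP : 0 < q.P := m0_pos.pos_of_mul_pos_left' (q.P_sign hN.ne') hN
  have hg : 0 < q.g := m0_pos.pos_of_mul_pos_left' (q.g_sign hN.ne') hN
  have k1 : N ≤ q.s ^ 2 := by have := q.hs; have := q.c0; nlinarith
  have k2 : q.r ^ 2 ≤ q.a * q.b := by have := q.hr; linarith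
  have k3 : N * q.r ^ 2 * (q.b - q.a) ≤ q.s ^ 2 * (q.a * q.b) * (q.c - q.a) := by
    gcongr
  have k4 : 0 < 2 * N * q.a * q.Q ^ 2 + q.b * q.P * q.g := by positivity
  have k5 : 0 ≤ N * (q.s ^ 2 * (q.a * q.b) * (q.c - q.a)) := by
    have := sub_pos.2 q.ac; positivity
  have k6 := mul_le_mul_of_nonneg_left k3 hN.le
  by_contra hc
  have h3 : 0 ≤ -q.m1 := by omega
  have : 0 ≤ 2 * q.a * q.b * q.z * -q.m1 := by positivity
  nlinarith

end Qd

end Pool.Agent.MP_2339ce_nt.DQ
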