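import Mathlib.RingTheory.Polynomial.Basic
import Mathlib.Tactic.Monotonicity.Lemmas
import Mathlib.Algebra.Order.Star.Real
import Mathlib.Algebra.Ring.IsFormallyReal
import Mathlib.RingTheory.PowerSeries.Inverse
import Pool.Agent.MP_2339ce_nt.DQ.Basic
import Pool.Agent.MP_2339ce_nt.DQ.Spec

-- ======== part 0: formerly Pool.Agent.MP_2339ce_nt.DQ.SGN
section MrgPart0

/-! Project DQ: the signs of the residues at the extreme nodes. -/

set_option autoImplicit false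

noncomputable section

namespace Pool.Agent.MP_2339ce_nt.DQ

open PowerSeries

namespace Sgn

/-- all coefficients are non-negative -/
def NN (f : ℝ⟦X⟧) : Prop := ∀ n, 0 ≤ coeff n f

lemma NN.mul {f g : ℝ⟦X⟧} (hf : NN f) (hg : NN g) : NN (f * g) := fun n => by
  rw [coeff_mul]; exact Finset.sum_nonneg fun p _ => mul_nonneg (hf _) (hg _)

lemma NN.add {f g : ℝ⟦X⟧} (hf : NN f) (hg : NN g) : NN (f + g) := fun n => by
  rw [map_add]; exact add_nonneg (hf n) (hg n)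

lemma NN.const {c : ℝ} (h : 0 ≤ c) : NN (C c) := fun n => by
  rw [coeff_C]; split_ifs; exacts [h, le_rfl]

lemma NN.pow {f : ℝ⟦X⟧} (hf : NN f) (n : ℕ) : NN (f ^ n) := by
  induction n with
  | zero => rw [pow_zero, ← map_one (C : ℝ →+* ℝ⟦X⟧)]; exact NN.const zero_le_one
  | succ n ih => rw [pow_succ]; exact ih.mul hf

lemma choose_step (r : ℝ) (h : ℕ) :
    Ring.choose r (h + 1) = Ring.choose r h * (r - h) / (h + 1) := by
  have e := Ring.choose_smul_choose r (Nat.le_succ h)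
  rw [Nat.succ_eq_add_one, Nat.choose_succ_self_right, Nat.add_sub_cancel_left,
    Ring.choose_one_right, nsmul_eq_mul] at e
  rw [eq_div_iff (by positivity), ← e]; push_cast; ring

lemma choose_nn (r : ℝ) (h : ℕ) (hr : (h : ℝ) ≤ r + 1) : 0 ≤ Ring.choose r h := by
  induction h with
  | zero => simp
  | succ h ih =>
    push_cast at hr
    rw [choose_step]
    exact div_nonneg (mul_nonneg (ih (by linarith)) (by linarith)) (by positivity)

lemma choose_alt (x : ℝ) (hx : 0 ≤ x) (h : ℕ) : 0 ≤ Ring.choose (-1 / 2 : ℝ) h * (-x) ^ h := by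
  induction h with
  | zero => simp
  | succ h ih =>
    have e : Ring.choose (-1 / 2 : ℝ) (h + 1) * (-x) ^ (h + 1) =
        Ring.choose (-1 / 2 : ℝ) h * (-x) ^ h * (x * (1 / 2 + h) / (h + 1)) := by
      rw [choose_step, pow_succ]; ring
    rw [e]; positivity

/-- the binomial series -/
def bs (r : ℝ) (e : ℤ) (y B : ℝ) : ℝ⟦X⟧ :=
  PowerSeries.mk fun h => Ring.choose r h * y ^ h * B ^ (e - h)

lemma bs_succ (r : ℝ) (e : ℤ) (y : ℝ) {B : ℝ} (hB : B ≠ 0) :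
    bs (r + 1) (e + 1) y B = (C B + C y * X) * bs r e y B := by
  ext h
  rw [add_mul, map_add, coeff_C_mul, mul_assoc, coeff_C_mul]
  rcases h with _ | h
  · simp [bs, zpow_add_one₀ hB, mul_comm]
  · rw [coeff_succ_X_mul]
    simp only [bs, coeff_mk, Ring.choose_succ_succ]
    have e1 : e + 1 - ((h + 1 : ℕ) : ℤ) = e - h := by push_cast; ring
    have e2 : e - (h : ℤ) = e - ((h + 1 : ℕ) : ℤ) + 1 := by push_cast; ring
    rw [e1, e2, zpow_add_one₀ hB]; ring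

lemma bs_add (r : ℝ) (e : ℤ) (y : ℝ) {B : ℝ} (hB : B ≠ 0) (n : ℕ) :
    bs (r + n) (e + n) y B = (C B + C y * X) ^ n * bs r e y B := by
  induction n with
  | zero => simp
  | succ n ih =>
    push_cast
    rw [← add_assoc, ← add_assoc, bs_succ _ _ _ hB, ih]; ring

/-- the inverse of `A - X` -/
def J (A : ℝ) : ℝ⟦X⟧ := PowerSeries.mk fun n => A⁻¹ ^ (n + 1)

lemma J_nn {A : ℝ} (h : 0 < A) : NN (J A) := fun n => by rw [J, coeff_mk]; positivity

lemma J_mul {A : ℝ} (h : A ≠ 0) : (C A - X) * J A = 1 := by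
  ext n
  rw [sub_mul, map_sub, coeff_C_mul]
  rcases n with _ | n
  · simp [J, h]
  · rw [coeff_succ_X_mul]
    simp only [J, coeff_mk, coeff_one, Nat.succ_ne_zero, if_false]
    rw [pow_succ' A⁻¹ (n + 1), ← mul_assoc, mul_inv_cancel₀ h, one_mul, sub_self]

lemma iv_mul {A : ℝ} (h : A ≠ 0) : (C A + X) * iv A = 1 :=
  PowerSeries.mul_inv_cancel _ (by simpa using h)

lemma iv_neg {A : ℝ} (h : A ≠ 0) : iv (-A) = -J A := by
  have h1 := iv_mul (neg_ne_zero.2 h)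
  have h2 := J_mul h
  rw [map_neg] at h1
  linear_combination (-J A) * h1 - iv (-A) * h2

lemma iv_res {A : ℝ} (h : A ≠ 0) : rescale (-1 : ℝ) (iv A) = J A := by
  have h1 := congrArg (rescale (-1 : ℝ)) (iv_mul h)
  have hC : rescale (-1 : ℝ) (C A) = C A := by
    ext n; rw [coeff_rescale, coeff_C]; split_ifs with hn <;> simp [hn]
  rw [map_mul, map_add, hC, rescale_neg_one_X, map_one] at h1
  have h2 := J_mul h
  linear_combination J A * h1 - rescale (-1 : ℝ) (iv A) * h2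

lemma gs_res (ρ : ℕ) (x α : ℝ) (hB : 1 + α * x ≠ 0) : rescale (-1 : ℝ) (gs ρ x α) =
    (C (1 + α * x) + C (-x) * X) ^ (ρ + 1) * bs (-1 / 2) (-1) (-x) (1 + α * x) := by
  rw [← bs_add _ _ _ hB]
  ext h
  have e1 : (-1 / 2 : ℝ) + ((ρ + 1 : ℕ) : ℝ) = ρ + 1 / 2 := by push_cast; ring
  have e2 : (-1 : ℤ) + ((ρ + 1 : ℕ) : ℤ) = ρ := by push_cast; ring
  rw [coeff_rescale, e1, e2, gs, bs, coeff_mk, coeff_mk, neg_pow x]; ring

lemma pair {x α β : ℝ} (hx : 0 < x) (hab : β < α) (hb : 0 ≤ 1 + β * x) :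
    NN ((C (1 + α * x) + C (-x) * X) * J (α - β)) := by
  have h := sub_pos.2 hab
  have e : (C (1 + α * x) + C (-x) * X) * J (α - β) = C (1 + β * x) * J (α - β) + C x := by
    have h2 := J_mul h.ne'
    simp only [map_add, map_mul, map_neg, map_sub, map_one] at h2 ⊢
    linear_combination C x * h2
  rw [e]
  exact ((NN.const hb).mul (J_nn h)).add (NN.const hx.le)

end Sgn

open Sgn in
theorem sgn : S_SGN := by
  intro ρ k l m ε x α β γ h hk hm
  have ha := abs_le.1 h.ha; have hb := abs_le.1 h.hb; have hc := abs_le.1 h.hc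
  have e4 := h.e4; have x0 := h.x0
  have A : 0 < 1 + α * x := by linarith [ha.1]
  have B : 0 < 1 + β * x := by linarith [hb.1]
  have G : 0 < 1 + γ * x := by linarith [hc.1]
  have ac : γ < α := h.bc.trans h.ab
  have h1 := sub_pos.2 h.ab; have h2 := sub_pos.2 ac; have h3 := sub_pos.2 h.bc
  constructor
  · intro hl
    obtain ⟨k, rfl⟩ := Nat.exists_eq_add_of_le' hk
    have e : (-1 : ℝ) ^ (k + 1 + 1) = (-1) ^ k := by ring
    rw [e, rs, Nat.add_sub_cancel, ← coeff_rescale, map_mul (rescale _), map_mul (rescale _),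
      map_pow (rescale _), map_pow (rescale _), iv_res h1.ne', iv_res h2.ne', gs_res _ _ _ A.ne']
    obtain ⟨i, j, l', m', hij, rfl, rfl⟩ : ∃ i j l' m', ρ + 1 = i + j ∧ l = i + l' ∧ m = j + m' :=
      ⟨min l (ρ + 1), ρ + 1 - min l (ρ + 1), l - min l (ρ + 1), m - (ρ + 1 - min l (ρ + 1)),
        by omega, by omega, by omega⟩
    have hH : NN (bs (-1 / 2) (-1) (-x) (1 + α * x)) := fun n => by
      rw [bs, coeff_mk]; exact mul_nonneg (choose_alt x x0.le n) (zpow_nonneg A.le _)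
    have := ((((pair x0 h.ab B.le).pow i).mul ((pair x0 ac G.le).pow j)).mul hH).mul
      (((J_nn h1).pow l').mul ((J_nn h2).pow m')) k
    rw [hij]
    convert this using 2
    rw [mul_pow, mul_pow]
    ring
  · intro hl
    have e : gs ρ x γ * iv (γ - α) ^ k * iv (γ - β) ^ l
        = C ((-1 : ℝ) ^ (k + l)) * (gs ρ x γ * (J (α - γ) ^ k * J (β - γ) ^ l)) := by
      rw [← neg_sub α γ, ← neg_sub β γ, iv_neg h2.ne', iv_neg h3.ne', neg_pow (J _),
        neg_pow (J _), map_pow, map_neg, map_one]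
      ring
    rw [rs, e, coeff_C_mul, ← mul_assoc, ← mul_pow, neg_one_mul, neg_neg, one_pow, one_mul,
      coeff_mul]
    refine Finset.sum_nonneg fun p hp => mul_nonneg ?_ (((J_nn h2).pow k).mul ((J_nn h3).pow l) _)
    have hp' : p.1 ≤ ρ := by have := Finset.HasAntidiagonal.mem_antidiagonal.1 hp; omega
    have hp'' : (p.1 : ℝ) ≤ ρ := by exact_mod_cast hp'
    rw [gs, coeff_mk]
    exact mul_nonneg (mul_nonneg (choose_nn _ _ (by linarith)) (by positivity))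
      (zpow_nonneg G.le _)

end Pool.Agent.MP_2339ce_nt.DQ

end

end MrgPart0

-- ======== part 1: formerly Pool.Agent.MP_2339ce_nt.DQ.BND
section MrgPart1

/-! Project DQ: the size of a residue. -/

set_option autoImplicit false

namespace Pool.Agent.MP_2339ce_nt.DQ

open PowerSeries Real

namespace BND

theorem ch0 (h : ℕ) : |Ring.choose (1 / 2 : ℝ) h| ≤ 1 := by
  induction h with
  | zero => simp
  | succ h ih =>
    have e := Ring.choose_smul_choose (1 / 2 : ℝ) (Nat.le_succ h)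
    rw [Nat.succ_sub (le_refl h), Nat.sub_self, Ring.choose_one_right, Nat.choose_succ_self_right,
      nsmul_eq_mul] at e
    replace e := congrArg abs e
    have h0 : (0 : ℝ) ≤ h := Nat.cast_nonneg h
    rw [abs_mul, abs_mul, Nat.abs_cast, Nat.cast_succ] at e
    have h1 : |1 / 2 - (h : ℝ)| ≤ h + 1 := abs_le.2 ⟨by linarith, by linarith⟩
    refine le_of_mul_le_mul_left (a := (h : ℝ) + 1) ?_ (by positivity)
    rw [e, mul_comm]
    exact mul_le_mul h1 ih (abs_nonneg _) (by positivity)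

theorem ch (ρ h : ℕ) : |Ring.choose ((ρ : ℝ) + 1 / 2) h| ≤ 2 ^ ρ := by
  induction ρ generalizing h with
  | zero => simpa using ch0 h
  | succ ρ ih =>
    cases h with
    | zero => simpa using one_le_pow₀ one_le_two
    | succ h =>
      rw [Nat.cast_succ, add_right_comm, Ring.choose_succ_succ, pow_succ, mul_two]
      exact (abs_add_le _ _).trans (add_le_add (ih _) (ih _))

variable {n : ℕ} {lam c A : ℝ} {f : ℝ⟦X⟧}

theorem step (hl : 0 < lam) (hc : 1 ≤ lam * |c|) (hA : 0 ≤ A)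
    (hf : ∀ h ≤ n, |coeff h f| ≤ A * (2 * lam) ^ h) :
    ∀ h ≤ n, |coeff h (f * iv c)| ≤ 2 * A / |c| * (2 * lam) ^ h := by
  have c0 : c ≠ 0 := by
    rintro rfl
    norm_num at hc
  have cp := abs_pos.2 c0
  have e : f * iv c * (C c + X) = f := by
    rw [iv, mul_assoc, PowerSeries.inv_mul_cancel _ (by simpa using c0), mul_one]
  generalize f * iv c = g at e
  subst e
  intro h hh
  rw [div_mul_eq_mul_div, le_div_iff₀ cp, ← abs_mul]
  induction h with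
  | zero =>
    have := hf 0 hh
    rw [mul_add, map_add, coeff_mul_C, coeff_zero_mul_X, add_zero] at this
    exact this.trans (by rw [pow_zero]; linarith)
  | succ h ih =>
    have h1 := hf _ hh
    have h2 := ih (Nat.le_of_succ_le hh)
    rw [mul_add, map_add, coeff_mul_C, coeff_succ_mul_X] at h1
    have h3 : |coeff h g| ≤ A * (2 * lam) ^ (h + 1) := by
      rw [abs_mul] at h2
      calc |coeff h g| ≤ |coeff h g| * (lam * |c|) := le_mul_of_one_le_right (abs_nonneg _) hc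
        _ = lam * (|coeff h g| * |c|) := by ring
        _ ≤ lam * (2 * A * (2 * lam) ^ h) := by gcongr
        _ = _ := by ring
    have h4 := abs_sub (coeff (h + 1) g * c + coeff h g) (coeff h g)
    rw [add_sub_cancel_right] at h4
    linarith

theorem steps (hl : 0 < lam) (hc : 1 ≤ lam * |c|) (hA : 0 ≤ A)
    (hf : ∀ h ≤ n, |coeff h f| ≤ A * (2 * lam) ^ h) (l : ℕ) :
    ∀ h ≤ n, |coeff h (f * iv c ^ l)| ≤ 2 ^ l * A / |c| ^ l * (2 * lam) ^ h := by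
  induction l with
  | zero => simpa using hf
  | succ l ih =>
    intro h hh
    rw [pow_succ, ← mul_assoc]
    refine (step hl hc (by positivity) ih h hh).trans_eq ?_
    rw [pow_succ, pow_succ]
    ring

end BND

theorem bnd : S_BND := by
  intro ρ k l m x α β γ lam hk hρ hx ha hl h1 h2
  have l0 := hx.trans_le hl
  obtain ⟨n, rfl⟩ := Nat.exists_eq_add_of_le' hk
  have hg : ∀ h ≤ n, |coeff h (gs ρ x α)| ≤ 4 ^ (ρ + 1) * (2 * lam) ^ h := fun h hh => by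
    have hh' : h ≤ ρ := by omega
    obtain ⟨a1, a2⟩ := abs_le.1 ha
    rw [gs, coeff_mk, ← Nat.cast_sub hh', zpow_natCast, abs_mul, abs_mul, abs_pow, abs_pow,
      abs_of_pos hx, abs_of_pos (by linarith : 0 < 1 + α * x)]
    have b1 : (1 + α * x) ^ (ρ - h) ≤ 2 ^ ρ :=
      (pow_le_pow_left₀ (by linarith) (by linarith) _).trans
        (pow_le_pow_right₀ one_le_two (Nat.sub_le ρ h))
    have b2 : x ^ h ≤ (2 * lam) ^ h := pow_le_pow_left₀ hx.le (by linarith) h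
    have b3 : 0 ≤ (1 + α * x) ^ (ρ - h) := pow_nonneg (by linarith) _
    calc _ ≤ 2 ^ ρ * (2 * lam) ^ h * 2 ^ ρ := by gcongr; exact BND.ch ρ h
      _ = 4 ^ ρ * (2 * lam) ^ h := by rw [mul_right_comm, ← mul_pow]; norm_num
      _ ≤ _ := by gcongr <;> norm_num
  refine (BND.steps l0 h2 (by positivity) (BND.steps l0 h1 (by positivity) hg l) m n le_rfl).trans
    ?_
  rw [Nat.add_sub_cancel]
  calc _ = 4 ^ (ρ + 1) * 2 ^ (n + l + m) * lam ^ n / (|α - β| ^ l * |α - γ| ^ m) := by ring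
    _ ≤ _ := by gcongr <;> norm_num

end Pool.Agent.MP_2339ce_nt.DQ

end MrgPart1

-- ======== part 2: formerly Pool.Agent.MP_2339ce_nt.DQ.DICH
section MrgPart2

/-! Project DQ: the excluded interval. -/

set_option autoImplicit false

noncomputable section

namespace Pool.Agent.MP_2339ce_nt.DQ

open Real

namespace DICH

theorem sq_int {m : ℤ} (h : IsSquare m) : ∃ z : ℤ, √(m : ℝ) = z := by
  obtain ⟨z, rfl⟩ := h
  exact ⟨|z|, by push_cast; exact sqrt_mul_self_eq_abs _⟩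

theorem one {t n : ℝ} (ht : 0 < t) : √t * √(1 + n / t) = √(t + n) := by
  rw [← sqrt_mul ht.le]; congr 1; field_simp

theorem two {q d e n : ℝ} (hq : 0 < q) (hd : 0 < d) (he : 0 < e) :
    √(d * e) * √(1 + n / (q * e)) * √(1 + n / q * (1 / d)) = √(q * e + n) * √(q * d + n) / q := by
  rw [← one (mul_pos hq he), ← one (mul_pos hq hd), sqrt_mul hd.le, sqrt_mul hq.le, sqrt_mul hq.le,
    show n / q * (1 / d) = n / (q * d) by field_simp, eq_div_iff hq.ne']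
  have := mul_self_sqrt hq.le
  linear_combination (-(√d * √e * √(1 + n / (q * e)) * √(1 + n / (q * d)))) * this

theorem signs {N p q d e np nq n0 : ℤ} (c : Cfg N p q d e np nq n0) :
    0 < d ∧ np ≠ 0 ∧ nq ≠ 0 ∧ np * q - nq * p ≠ 0 := by
  have h1 := c.p0; have h2 := c.pq; have h3 := c.hd; have h4 := c.hp
  have h5 := abs_nonneg np
  have hq : 0 < q := h1.trans h2
  have hd : 0 ≤ d := by omega
  rcases c.ord with ⟨a1, a2, a3⟩ | ⟨a1, a2, a3⟩
  · have b1 : nq * d < 0 := a2.trans_le (mul_nonpos_of_nonpos_of_nonneg a3 hq.le)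
    have b2 : nq < 0 := by by_contra h; push Not at h; nlinarith [mul_nonneg h hd]
    have b3 : np < 0 := by by_contra h; push Not at h; nlinarith [mul_nonneg h hq.le]
    refine ⟨lt_of_le_of_ne hd ?_, b3.ne, b2.ne, by omega⟩
    rintro rfl; simp at b1
  · have b1 : 0 < nq * d := (mul_nonneg a3 hq.le).trans_lt a2
    have b2 : 0 < nq := by by_contra h; push Not at h; nlinarith [mul_nonneg (neg_nonneg.2 h) hd]
    have b3 : 0 < np := by
      by_contra h; push Not at h; nlinarith [mul_nonneg (neg_nonneg.2 h) hq.le]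
    refine ⟨lt_of_le_of_ne hd ?_, b3.ne', b2.ne', by omega⟩
    rintro rfl; simp at b1

theorem int_w (h1 : S_INT) {ρ kp kq : ℕ} {N p q d e np nq n0 : ℤ} (a : Adm ρ kp kq)
    (c : Cfg N p q d e np nq n0) :
    ∃ i : ℤ, √((d : ℝ) * e) * (sc ρ kp kq p q d np nq * ww ρ kp kq p q d e np nq n0) = i := by
  obtain ⟨hd, hp, hq, hpq⟩ := signs c
  have q0 : 0 < q := c.p0.trans c.pq
  obtain ⟨⟨i1, e1⟩, ⟨i2, e2⟩, ⟨i3, e3⟩⟩ := h1 ρ kp kq p q d np nq a c.p0 q0 hd hp hq hpq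
  have p1 : (0 : ℝ) < p := by exact_mod_cast c.p0
  have q1 : (0 : ℝ) < q := by exact_mod_cast q0
  have d1 : (0 : ℝ) < d := by exact_mod_cast hd
  have e0 : (0 : ℝ) < e := by exact_mod_cast hd.trans_le c.de
  obtain ⟨z0, f0⟩ := sq_int c.sq
  obtain ⟨z1, f1⟩ := sq_int c.qe
  obtain ⟨z2, f2⟩ := sq_int c.qd
  obtain ⟨z3, f3⟩ := sq_int c.pe
  obtain ⟨z4, f4⟩ := sq_int c.pd
  push_cast at f0 f1 f2 f3 f4
  have g0 := one (n := n0) (mul_pos d1 e0)
  have g1 := two (n := nq) q1 d1 e0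
  have g2 := two (n := np) p1 d1 e0
  rw [f0] at g0
  rw [f1, f2] at g1
  rw [f3, f4] at g2
  refine ⟨z0 * i1 + z1 * z2 * i2 + z3 * z4 * i3, ?_⟩
  push_cast
  rw [← e1, ← e2, ← e3, ← g0, ww, SS, zero_mul, add_zero, sqrt_one]
  linear_combination
    (sc ρ kp kq p q d np nq * rs ρ (1 / d) (nq / q) 0 (np / p) kq (ρ + 1) kp) * g1 +
    (sc ρ kp kq p q d np nq * rs ρ (1 / d) (np / p) 0 (nq / q) kp (ρ + 1) kq) * g2

end DICH

theorem dich (h1 : S_INT) (h2 : S_SIZE) : S_DICH := by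
  intro N
  obtain ⟨K, hK, h⟩ := h2 N
  have lK : 0 ≤ log K := log_nonneg hK
  have l2 : 0 ≤ log 2 := log_nonneg one_le_two
  refine ⟨2 * log K + 2 * log 2, by positivity, fun ρ kp kq p q d e np nq n0 a c hw => ?_⟩
  obtain ⟨hd, hp, hq, hpq⟩ := DICH.signs c
  obtain ⟨i, hi⟩ := DICH.int_w h1 a c
  have p1 : (0 : ℝ) < p := by exact_mod_cast c.p0
  have q1 : (0 : ℝ) < q := by exact_mod_cast c.p0.trans c.pq
  have d1 : (0 : ℝ) < d := by exact_mod_cast hd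
  have e0 : (0 : ℝ) < e := by exact_mod_cast hd.trans_le c.de
  have K0 : 0 < K := one_pos.trans_le hK
  have r0 : 0 < √((d : ℝ) * e) := sqrt_pos.2 (mul_pos d1 e0)
  have s0 : sc ρ kp kq p q d np nq ≠ 0 := by
    have a1 : (np : ℝ) ≠ 0 := by exact_mod_cast hp
    have a2 : (nq : ℝ) ≠ 0 := by exact_mod_cast hq
    have a3 : (np : ℝ) * q - nq * p ≠ 0 := by exact_mod_cast hpq
    unfold sc
    positivity
  have i0 : i ≠ 0 := by
    rintro rfl
    exact mul_ne_zero r0.ne' (mul_ne_zero s0 hw) (by simpa using hi)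
  have i1 : (1 : ℝ) ≤ |(i : ℝ)| := by exact_mod_cast Int.one_le_abs i0
  rw [← hi, abs_mul, abs_of_pos r0] at i1
  have key := i1.trans (mul_le_mul_of_nonneg_left (h ρ kp kq p q d e np nq n0 a c) r0.le)
  obtain ⟨kp, rfl⟩ := Nat.exists_eq_add_of_le' a.p1
  obtain ⟨kq, rfl⟩ := Nat.exists_eq_add_of_le' a.q1
  rw [Nat.add_sub_cancel, show ρ + (kp + 1) + (kq + 1) - 2 = ρ + kp + kq by omega] at key
  have n1 : (0 : ℝ) ≤ ρ + kp + kq := by positivity
  have m2 := mul_nonneg n1 l2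
  have lh : log (1 / 2 : ℝ) = -log 2 := by rw [one_div, log_inv]
  by_cases hc : (1 / 2 : ℝ) ≤ √((d : ℝ) * e) * (K ^ (ρ + (kp + 1) + (kq + 1)) * d ^ ρ *
      (q ^ (ρ + kp + kq) / e))
  · left
    have := log_le_log (by norm_num) hc
    rw [lh, log_mul r0.ne' (by positivity), log_mul (by positivity) (by positivity),
      log_mul (by positivity) (by positivity), log_div (by positivity) e0.ne', log_pow, log_pow,
      log_pow, log_sqrt (by positivity), log_mul d1.ne' e0.ne'] at this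
    push_cast at this ⊢
    linarith
  · right
    have hc' : (1 / 2 : ℝ) ≤ √((d : ℝ) * e) * (K ^ (ρ + (kp + 1) + (kq + 1)) * d ^ ρ *
        (q ^ kp / (p ^ (kp + 1) * d ^ (ρ + (kp + 1) + (kq + 1))))) := by
      rw [mul_add, mul_add] at key
      linarith
    have := log_le_log (by norm_num) hc'
    rw [lh, log_mul r0.ne' (by positivity), log_mul (by positivity) (by positivity),
      log_mul (by positivity) (by positivity), log_div (by positivity) (by positivity),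
      log_mul (by positivity) (by positivity), log_pow, log_pow, log_pow, log_pow, log_pow,
      log_sqrt (by positivity), log_mul d1.ne' e0.ne'] at this
    push_cast at this ⊢
    linarith

end Pool.Agent.MP_2339ce_nt.DQ

end

end MrgPart2

-- ======== part 3: formerly Pool.Agent.MP_2339ce_nt.DQ.NZ
section MrgPart3

/-! Project DQ: the linear form with three terms of one sign does not vanish. -/

set_option autoImplicit false

namespace Pool.Agent.MP_2339ce_nt.DQ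

open Real

namespace NZ

theorem key {s R0 Rq Rp f0 fq fp : ℝ} (h : 0 < s * (1 * R0 + 1 * Rq + 1 * Rp)) (hq : 0 < fq)
    (h0 : 0 ≤ (f0 - fq) * (s * R0)) (hp : 0 ≤ (fp - fq) * (s * Rp)) :
    f0 * R0 + fq * Rq + fp * Rp ≠ 0 := by
  intro hz
  have e : s * (f0 * R0 + fq * Rq + fp * Rp) = fq * (s * (1 * R0 + 1 * Rq + 1 * Rp)) +
      (f0 - fq) * (s * R0) + (fp - fq) * (s * Rp) := by ring
  rw [hz, mul_zero] at e
  have := mul_pos hq h
  linarith

theorem small {N n q d : ℝ} (hn : |n| ≤ N) (hq : 1 ≤ q) (hd : 0 < d) (h : 4 * N ≤ d) :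
    |n / q * (1 / d)| ≤ 1 / 4 := by
  have hq0 : 0 < q := by linarith
  have e : n / q * (1 / d) = n / (q * d) := by field_simp
  rw [e, abs_div, abs_of_pos (mul_pos hq0 hd), div_le_iff₀ (mul_pos hq0 hd)]
  nlinarith

end NZ

theorem nz (h1 : S_MAIN) (h2 : S_SGN) : S_NZ := by
  intro ρ kp kq N p q d e np nq n0 hG hC
  have hp1 := hG.p1
  have hp2 := hG.p2
  have hq1 := hG.q1
  have hbig := hG.big
  have hd0 : 0 < d := by
    have a1 := hC.hd
    have a2 := hC.hp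
    have a3 := hC.hq
    have a4 := abs_nonneg np
    rcases (show 0 ≤ d by linarith).lt_or_eq with h | h
    · exact h
    · exfalso
      have b1 : np = 0 := abs_eq_zero.1 (by linarith)
      have b2 : nq = 0 := abs_eq_zero.1 (by linarith [abs_nonneg nq])
      rcases hC.ord with h3 | h3
      · have := h3.1; rw [b1, b2] at this; simp at this
      · have := h3.1; rw [b1, b2] at this; simp at this
  have hp : (1 : ℝ) ≤ p := by exact_mod_cast hC.p0
  have hq : (1 : ℝ) ≤ q := by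
    have : 0 < q := hC.p0.trans hC.pq
    exact_mod_cast this
  have hd : (0 : ℝ) < d := by exact_mod_cast hd0
  have hde : (d : ℝ) ≤ e := by exact_mod_cast hC.de
  have hN : 4 * (N : ℝ) ≤ d := by exact_mod_cast hC.hd
  have hnp : |(np : ℝ)| ≤ N := by exact_mod_cast hC.hp
  have hnq : |(nq : ℝ)| ≤ N := by exact_mod_cast hC.hq
  have he : (0 : ℝ) < e := by linarith
  have hp0 : (0 : ℝ) < p := by linarith
  have hq0 : (0 : ℝ) < q := by linarith
  have hx : (0 : ℝ) < 1 / d := by positivity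
  have sb := NZ.small hnq hq hd hN
  have sc' := NZ.small hnp hp hd hN
  have s0 : |(0 : ℝ) * (1 / d)| ≤ 1 / 4 := by simp
  have hfq : 0 < √(1 + (nq : ℝ) / (q * e)) := by
    apply sqrt_pos.2
    have := NZ.small hnq hq he (by linarith)
    have e1 : (nq : ℝ) / q * (1 / e) = nq / (q * e) := by field_simp
    rw [e1] at this
    linarith [neg_abs_le ((nq : ℝ) / (q * e))]
  have eq1 : ∀ a b : ℝ, a / (b * e) = a / b / e := fun a b => by rw [div_div]
  have ekq : (-1 : ℝ) ^ kq = 1 := hG.ev.neg_one_pow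
  have ekp : (-1 : ℝ) ^ kp = -(-1) ^ ρ := by
    have a1 : (-1 : ℝ) ^ (kp + ρ) = -1 := hG.od.neg_one_pow
    have a2 : ((-1 : ℝ) ^ ρ) * (-1) ^ ρ = 1 := by rw [← mul_pow]; simp
    rw [pow_add] at a1
    linear_combination (-1 : ℝ) ^ ρ * a1 - (-1 : ℝ) ^ kp * a2
  have eσ : (-1 : ℝ) ^ (ρ + kp + kq + ρ + 1) = (-1) ^ ρ := by
    have a2 : ((-1 : ℝ) ^ ρ) * (-1) ^ ρ = 1 := by rw [← mul_pow]; simp
    simp only [pow_add, ekq, ekp, pow_one]
    linear_combination (-1 : ℝ) ^ ρ * a2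
  unfold ww SS
  rcases hC.ord with ⟨o1, o2, o3⟩ | ⟨o1, o2, o3⟩
  · have o1' : (np : ℝ) * q < nq * p := by exact_mod_cast o1
    have o2' : (nq : ℝ) * d < n0 * q := by exact_mod_cast o2
    have o3' : (n0 : ℝ) ≤ 0 := by exact_mod_cast o3
    have c1 : (np : ℝ) / p < nq / q := by rwa [div_lt_div_iff₀ hp0 hq0]
    have c2 : (nq : ℝ) / q < n0 / d := by rwa [div_lt_div_iff₀ hq0 hd]
    have c3 : (n0 : ℝ) / d ≤ 0 := div_nonpos_of_nonpos_of_nonneg o3' hd.le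
    have nod : Nod (1 / 4) (1 / d) 0 (nq / q) (np / p) :=
      ⟨hx, by linarith, c1, le_refl _, s0, sb, sc'⟩
    obtain ⟨m1, -, m3, -⟩ := h1 ρ (ρ + 1) kq kp (ρ + kp + kq) _ _ _ _ _ nod (by omega) hq1 hp1
      (by omega) (by omega)
    obtain ⟨g1, g2⟩ := h2 ρ (ρ + 1) kq kp _ _ _ _ _ nod (by omega) hp1
    have g1 := g1 (by omega)
    have g2 := g2 hp2
    rw [eσ] at m3
    have m4 := lt_of_lt_of_le (by positivity) m3
    unfold SS at m4
    refine NZ.key m4 hfq ?_ ?_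
    · apply mul_nonneg
      · rw [sub_nonneg, eq1, eq1]
        apply sqrt_le_sqrt
        have := div_le_div_of_nonneg_right c2.le he.le
        linarith
      · rw [mul_left_comm]
        apply mul_nonneg (sqrt_nonneg _)
        simpa [pow_add] using g1
    · apply mul_nonneg_of_nonpos_of_nonpos
      · rw [sub_nonpos, eq1, eq1]
        apply sqrt_le_sqrt
        have := div_le_div_of_nonneg_right c1.le he.le
        linarith
      · rw [mul_left_comm]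
        apply mul_nonpos_of_nonneg_of_nonpos (sqrt_nonneg _)
        simp only [pow_add, ekq, pow_one] at g2
        linarith
  · have o1' : (nq : ℝ) * p < np * q := by exact_mod_cast o1
    have o2' : (n0 : ℝ) * q < nq * d := by exact_mod_cast o2
    have o3' : (0 : ℝ) ≤ n0 := by exact_mod_cast o3
    have c1 : (nq : ℝ) / q < np / p := by rwa [div_lt_div_iff₀ hq0 hp0]
    have c2 : (n0 : ℝ) / d < nq / q := by rwa [div_lt_div_iff₀ hd hq0]
    have c3 : 0 ≤ (n0 : ℝ) / d := div_nonneg o3' hd.le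
    have nod : Nod (1 / 4) (1 / d) (np / p) (nq / q) 0 :=
      ⟨hx, c1, by linarith, le_refl _, sc', sb, s0⟩
    obtain ⟨m1, -, m3, -⟩ := h1 ρ kp kq (ρ + 1) (ρ + kp + kq) _ _ _ _ _ nod hp1 hq1 (by omega)
      (by omega) (by omega)
    obtain ⟨g1, g2⟩ := h2 ρ kp kq (ρ + 1) _ _ _ _ _ nod hp1 (by omega)
    have g1 := g1 (by omega)
    have g2 := g2 (le_refl _)
    rw [eσ] at m3
    have m4 := lt_of_lt_of_le (by positivity) m3
    unfold SS at m4
    rw [rs_comm ρ _ (np / p : ℝ), rs_comm ρ _ (nq / q : ℝ), rs_comm ρ _ (0 : ℝ)] at m4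
    rw [rs_comm] at g1 g2
    refine NZ.key (s := (-1) ^ ρ) (by linarith) hfq ?_ ?_
    · apply mul_nonneg_of_nonpos_of_nonpos
      · rw [sub_nonpos, eq1, eq1]
        apply sqrt_le_sqrt
        have := div_le_div_of_nonneg_right c2.le he.le
        linarith
      · rw [mul_left_comm]
        apply mul_nonpos_of_nonneg_of_nonpos (sqrt_nonneg _)
        simp only [pow_add, ekq, ekp] at g2
        linarith
    · apply mul_nonneg
      · rw [sub_nonneg, eq1, eq1]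
        apply sqrt_le_sqrt
        have := div_le_div_of_nonneg_right c1.le he.le
        linarith
      · rw [mul_left_comm]
        apply mul_nonneg (sqrt_nonneg _)
        simp only [pow_add, ekp, pow_one] at g1
        linarith

end Pool.Agent.MP_2339ce_nt.DQ

end MrgPart3

-- ======== part 4: formerly Pool.Agent.MP_2339ce_nt.DQ.NZ4
section MrgPart4

/-! Project DQ, row NZ4: the form with three triple nodes does not vanish for two pairs. -/

set_option autoImplicit false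

namespace Pool.Agent.MP_2339ce_nt.DQ

open PowerSeries Real

namespace NZ4

theorem c0 (f g : ℝ⟦X⟧) : coeff 0 (f * g) = coeff 0 f * coeff 0 g := by
  simp [coeff_mul]

theorem c1 (f g : ℝ⟦X⟧) : coeff 1 (f * g) = coeff 0 f * coeff 1 g + coeff 1 f * coeff 0 g := by
  simp [coeff_mul, Finset.Nat.antidiagonal_succ]

theorem c2 (f g : ℝ⟦X⟧) : coeff 2 (f * g) =
    coeff 0 f * coeff 2 g + coeff 1 f * coeff 1 g + coeff 2 f * coeff 0 g := by
  rw [coeff_mul, Finset.Nat.sum_antidiagonal_eq_sum_range_succ_mk]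
  simp [Finset.sum_range_succ]

theorem iv_c {c : ℝ} (hc : c ≠ 0) :
    coeff 0 (iv c) = c⁻¹ ∧ coeff 1 (iv c) = -c⁻¹ ^ 2 ∧ coeff 2 (iv c) = c⁻¹ ^ 3 := by
  have h : (C c + X : ℝ⟦X⟧) * iv c = 1 :=
    PowerSeries.mul_inv_cancel _ (by simpa using hc)
  have h0 := congrArg (coeff 0) h
  have h1 := congrArg (coeff 1) h
  have h2 := congrArg (coeff 2) h
  rw [c0] at h0; rw [c1] at h1; rw [c2] at h2
  simp only [map_add, coeff_C, coeff_X, coeff_one] at h0 h1 h2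
  norm_num at h0 h1 h2
  have e0 : coeff 0 (iv c) = c⁻¹ := by
    field_simp; simp only [coeff_zero_eq_constantCoeff]; linarith
  have e1 : coeff 1 (iv c) = -c⁻¹ ^ 2 := by
    rw [coeff_zero_eq_constantCoeff] at e0
    rw [e0] at h1; field_simp; field_simp at h1; linarith
  refine ⟨e0, e1, ?_⟩
  rw [e1] at h2; field_simp; field_simp at h2; linarith

theorem gs_c (x α : ℝ) : coeff 0 (gs 2 x α) = (1 + α * x) ^ 2 ∧
    coeff 1 (gs 2 x α) = 5 / 2 * x * (1 + α * x) ∧ coeff 2 (gs 2 x α) = 15 / 8 * x ^ 2 := by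
  have h2 : Ring.choose (((2 : ℕ) : ℝ) + 1 / 2) 2 = 15 / 8 := by
    have h := Ring.descPochhammer_eq_factorial_smul_choose (((2 : ℕ) : ℝ) + 1 / 2) 2
    rw [← Polynomial.aeval_eq_smeval, Polynomial.aeval_def] at h
    simp [descPochhammer_succ_right, Nat.factorial] at h
    norm_num at h ⊢
    linarith
  refine ⟨?_, ?_, ?_⟩
  · simp only [gs, coeff_mk, Ring.choose_zero_right]; norm_num [zpow_ofNat]
  · simp only [gs, coeff_mk, Ring.choose_one_right]; norm_num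
  · simp only [gs, coeff_mk, h2]; norm_num

theorem rs333 (x : ℝ) {α β γ : ℝ} (h1 : α - β ≠ 0) (h2 : α - γ ≠ 0) :
    rs 2 x α β γ 3 3 3 = (α - β)⁻¹ ^ 3 * (α - γ)⁻¹ ^ 3 * ((1 + α * x) ^ 2 *
      (6 * (α - β)⁻¹ ^ 2 + 9 * (α - β)⁻¹ * (α - γ)⁻¹ + 6 * (α - γ)⁻¹ ^ 2) -
      15 / 2 * x * (1 + α * x) * ((α - β)⁻¹ + (α - γ)⁻¹) + 15 / 8 * x ^ 2) := by
  obtain ⟨a0, a1, a2⟩ := iv_c h1
  obtain ⟨b0, b1, b2⟩ := iv_c h2
  obtain ⟨g0, g1, g2⟩ := gs_c x α
  show coeff 2 _ = _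
  simp only [pow_succ, pow_zero, one_mul, c0, c1, c2, a0, a1, a2, b0, b1, b2, g0, g1, g2]
  ring

theorem sq_b {t : ℝ} (h0 : 0 ≤ t) (h1 : t ≤ 1 / 1000) : 999 / 1000 ≤ √(1 - t) ∧ √(1 - t) ≤ 1 :=
  ⟨Real.le_sqrt_of_sq_le (by linarith), Real.sqrt_le_one.2 (by linarith)⟩

theorem sq_d {s t : ℝ} (h0 : 0 ≤ s) (h : s ≤ t) (h1 : t ≤ 1 / 1000) :
    (t - s) / 2 ≤ √(1 - s) - √(1 - t) ∧ √(1 - s) - √(1 - t) ≤ 51 / 100 * (t - s) := by
  obtain ⟨a1, a2⟩ := sq_b h0 (h.trans h1)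
  obtain ⟨b1, b2⟩ := sq_b (h0.trans h) h1
  have ha : √(1 - s) ^ 2 = 1 - s := Real.sq_sqrt (by linarith)
  have hb : √(1 - t) ^ 2 = 1 - t := Real.sq_sqrt (by linarith)
  have hab : √(1 - t) ≤ √(1 - s) := Real.sqrt_le_sqrt (by linarith)
  constructor <;> nlinarith

/-- the two correction terms -/
noncomputable def T (x y D B A : ℝ) : ℝ :=
  (√(1 - D * y) - √(1 - B * y)) * rs 2 x 0 (-B) (-A) 3 3 3 -
    (√(1 - B * y) - √(1 - A * y)) * (√(1 - A * x) * rs 2 x (-A) 0 (-B) 3 3 3)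

theorem SS_eq (x y D B A : ℝ) :
    SS 2 x 0 (-B) (-A) 3 3 3 √(1 - D * y) √(1 - B * y) √(1 - A * y) =
      √(1 - B * y) * SS 2 x 0 (-B) (-A) 3 3 3 1 1 1 + T x y D B A := by
  unfold SS T
  have : 1 + -A * x = 1 - A * x := by ring
  simp only [zero_mul, add_zero, Real.sqrt_one, this]
  ring

structure H (x y D B A : ℝ) : Prop where
  y0 : 0 < y
  yx : y ≤ x
  D0 : 0 ≤ D
  DB : 100 * D ≤ B
  B0 : 0 < B
  BA : 19 * B ≤ 10 * A
  Ax : A * x ≤ 1 / 1000

namespace H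

variable {x y D B A : ℝ} (h : H x y D B A)
include h

theorem x0 : 0 < x := h.y0.trans_le h.yx

theorem A0 : 0 < A := by have := h.B0; have := h.BA; linarith

theorem lt : B < A := by have := h.B0; have := h.BA; linarith

theorem Ay : A * y ≤ 1 / 1000 := (mul_le_mul_of_nonneg_left h.yx h.A0.le).trans h.Ax

theorem By : B * y ≤ 1 / 1000 := (mul_le_mul_of_nonneg_right h.lt.le h.y0.le).trans h.Ay

theorem xv : 1000 * x ≤ A⁻¹ := by
  have := h.Ax; have := h.A0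
  rw [inv_eq_one_div, le_div_iff₀ h.A0]; linarith

theorem R0 : rs 2 x 0 (-B) (-A) 3 3 3 = B⁻¹ ^ 3 * A⁻¹ ^ 3 *
    (6 * B⁻¹ ^ 2 + 9 * B⁻¹ * A⁻¹ + 6 * A⁻¹ ^ 2 - 15 / 2 * x * (B⁻¹ + A⁻¹) + 15 / 8 * x ^ 2) := by
  rw [rs333 x (by simpa using h.B0.ne') (by simpa using h.A0.ne')]
  simp

theorem Rp : rs 2 x (-A) 0 (-B) 3 3 3 = A⁻¹ ^ 3 * (A - B)⁻¹ ^ 3 * ((1 - A * x) ^ 2 *
    (6 * A⁻¹ ^ 2 + 9 * A⁻¹ * (A - B)⁻¹ + 6 * (A - B)⁻¹ ^ 2) +
      15 / 2 * x * (1 - A * x) * (A⁻¹ + (A - B)⁻¹) + 15 / 8 * x ^ 2) := by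
  have e1 : -A - 0 = -A := by ring
  have e2 : -A - -B = -(A - B) := by ring
  rw [rs333 x (by rw [e1]; exact neg_ne_zero.2 h.A0.ne')
    (by rw [e2]; exact neg_ne_zero.2 (sub_pos.2 h.lt).ne'), e1, e2, inv_neg, inv_neg]
  ring

theorem Rp0 : 0 ≤ rs 2 x (-A) 0 (-B) 3 3 3 := by
  have := h.A0; have := sub_pos.2 h.lt; have := h.x0
  have : 0 ≤ 1 - A * x := by have := h.Ax; linarith
  rw [h.Rp]; positivity

theorem d0 : 99 / 200 * (B * y) ≤ √(1 - D * y) - √(1 - B * y) ∧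
    √(1 - D * y) - √(1 - B * y) ≤ 51 / 100 * (B * y) := by
  have h1 : 0 ≤ D * y := mul_nonneg h.D0 h.y0.le
  have h2 : 100 * D * y ≤ B * y := mul_le_mul_of_nonneg_right h.DB h.y0.le
  obtain ⟨a, b⟩ := sq_d h1 (by linarith) h.By
  constructor <;> linarith

theorem dp : 0 ≤ √(1 - B * y) - √(1 - A * y) ∧
    √(1 - B * y) - √(1 - A * y) ≤ 51 / 100 * ((A - B) * y) := by
  have h1 : 0 ≤ B * y := mul_nonneg h.B0.le h.y0.le
  have h2 : B * y ≤ A * y := mul_le_mul_of_nonneg_right h.lt.le h.y0.le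
  obtain ⟨a, b⟩ := sq_d h1 h2 h.Ay
  constructor <;> linarith

theorem T_le : T x y D B A ≤ 7 * (y * B⁻¹ ^ 4 * A⁻¹ ^ 3) := by
  have hA := h.A0; have hB := h.B0; have hx := h.x0; have hy := h.y0; have hxv := h.xv
  have hv : 19 * A⁻¹ ≤ 10 * B⁻¹ := by
    have := h.BA
    rw [← div_eq_mul_inv, ← div_eq_mul_inv, div_le_div_iff₀ hA hB]; linarith
  have hu : 0 < B⁻¹ := by positivity
  have hv0 : 0 < A⁻¹ := by positivity
  have k : 6 * B⁻¹ ^ 2 + 9 * B⁻¹ * A⁻¹ + 6 * A⁻¹ ^ 2 - 15 / 2 * x * (B⁻¹ + A⁻¹) +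
      15 / 8 * x ^ 2 ≤ 13 * B⁻¹ ^ 2 := by nlinarith
  have k1 : rs 2 x 0 (-B) (-A) 3 3 3 ≤ B⁻¹ ^ 3 * A⁻¹ ^ 3 * (13 * B⁻¹ ^ 2) := by
    rw [h.R0]; gcongr
  have k2 : (√(1 - D * y) - √(1 - B * y)) * rs 2 x 0 (-B) (-A) 3 3 3 ≤
      51 / 100 * (B * y) * (B⁻¹ ^ 3 * A⁻¹ ^ 3 * (13 * B⁻¹ ^ 2)) :=
    (mul_le_mul_of_nonneg_left k1 (le_trans (by positivity) h.d0.1)).trans
      (mul_le_mul_of_nonneg_right h.d0.2 (by positivity))
  have k3 : 51 / 100 * (B * y) * (B⁻¹ ^ 3 * A⁻¹ ^ 3 * (13 * B⁻¹ ^ 2)) =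
      663 / 100 * (y * B⁻¹ ^ 4 * A⁻¹ ^ 3) := by field_simp; ring
  have k4 := mul_nonneg h.dp.1 (mul_nonneg (Real.sqrt_nonneg (1 - A * x)) h.Rp0)
  have k5 : 0 < y * B⁻¹ ^ 4 * A⁻¹ ^ 3 := by positivity
  unfold T
  linarith

theorem T_ge (h3 : 3 * B ≤ A) : 2 * (y * B⁻¹ ^ 4 * A⁻¹ ^ 3) ≤ T x y D B A := by
  have hA := h.A0; have hB := h.B0; have hx := h.x0; have hy := h.y0; have hxv := h.xv
  have hQ := sub_pos.2 h.lt
  have hu : 0 < B⁻¹ := by positivity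
  have hv0 : 0 < A⁻¹ := by positivity
  have hw0 : 0 < (A - B)⁻¹ := by positivity
  have hvw : A⁻¹ ≤ (A - B)⁻¹ := inv_anti₀ hQ (by linarith)
  have hwu : (A - B)⁻¹ ≤ B⁻¹ / 2 := by
    rw [← one_div, ← one_div, div_div, div_le_div_iff₀ hQ (by positivity)]; linarith
  have k : 6 * B⁻¹ ^ 2 ≤ 6 * B⁻¹ ^ 2 + 9 * B⁻¹ * A⁻¹ + 6 * A⁻¹ ^ 2 - 15 / 2 * x * (B⁻¹ + A⁻¹) +
      15 / 8 * x ^ 2 := by nlinarith
  have k1 : B⁻¹ ^ 3 * A⁻¹ ^ 3 * (6 * B⁻¹ ^ 2) ≤ rs 2 x 0 (-B) (-A) 3 3 3 := by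
    rw [h.R0]; gcongr
  have k2 : 99 / 200 * (B * y) * (B⁻¹ ^ 3 * A⁻¹ ^ 3 * (6 * B⁻¹ ^ 2)) ≤
      (√(1 - D * y) - √(1 - B * y)) * rs 2 x 0 (-B) (-A) 3 3 3 :=
    mul_le_mul h.d0.1 k1 (by positivity) (le_trans (by positivity) h.d0.1)
  have k3 : 99 / 200 * (B * y) * (B⁻¹ ^ 3 * A⁻¹ ^ 3 * (6 * B⁻¹ ^ 2)) =
      297 / 100 * (y * B⁻¹ ^ 4 * A⁻¹ ^ 3) := by field_simp; ring
  have hb0 : 0 ≤ 1 - A * x := by have := h.Ax; linarith
  have hb1 : 1 - A * x ≤ 1 := by have := mul_pos hA hx; linarith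
  have m : (1 - A * x) ^ 2 * (6 * A⁻¹ ^ 2 + 9 * A⁻¹ * (A - B)⁻¹ + 6 * (A - B)⁻¹ ^ 2) +
      15 / 2 * x * (1 - A * x) * (A⁻¹ + (A - B)⁻¹) + 15 / 8 * x ^ 2 ≤ 22 * (A - B)⁻¹ ^ 2 := by
    have hxw : x ≤ (A - B)⁻¹ / 1000 := by linarith
    calc _ ≤ 1 ^ 2 * (6 * (A - B)⁻¹ ^ 2 + 9 * (A - B)⁻¹ * (A - B)⁻¹ + 6 * (A - B)⁻¹ ^ 2) +
          15 / 2 * ((A - B)⁻¹ / 1000) * 1 * ((A - B)⁻¹ + (A - B)⁻¹) +
            15 / 8 * ((A - B)⁻¹ / 1000) ^ 2 := by gcongr
      _ ≤ _ := by nlinarith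
  have m1 : √(1 - A * x) * rs 2 x (-A) 0 (-B) 3 3 3 ≤
      1 * (A⁻¹ ^ 3 * (A - B)⁻¹ ^ 3 * (22 * (A - B)⁻¹ ^ 2)) := by
    refine mul_le_mul (Real.sqrt_le_one.2 hb1) ?_ h.Rp0 zero_le_one
    rw [h.Rp]; gcongr
  have m2 := mul_le_mul h.dp.2 m1 (mul_nonneg (Real.sqrt_nonneg _) h.Rp0) (by positivity)
  have m3 : 51 / 100 * ((A - B) * y) * (1 * (A⁻¹ ^ 3 * (A - B)⁻¹ ^ 3 * (22 * (A - B)⁻¹ ^ 2))) =
      1122 / 100 * (y * (A - B)⁻¹ ^ 4 * A⁻¹ ^ 3) := by field_simp; ring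
  have m4 : y * (A - B)⁻¹ ^ 4 * A⁻¹ ^ 3 ≤ y * (B⁻¹ / 2) ^ 4 * A⁻¹ ^ 3 := by gcongr
  have k5 : 0 < y * B⁻¹ ^ 4 * A⁻¹ ^ 3 := by positivity
  unfold T
  linarith

theorem I_b (hm : S_MAIN) : 0 < be 2 8 * x ^ 8 ∧
    95 / 100 * (be 2 8 * x ^ 8) ≤ -SS 2 x 0 (-B) (-A) 3 3 3 1 1 1 ∧
    -SS 2 x 0 (-B) (-A) 3 3 3 1 1 1 ≤ 11 / 10 * (be 2 8 * x ^ 8) := by
  have hx := h.x0; have hA := h.A0; have hB := h.B0; have hl := h.lt; have hAx := h.Ax
  have hBx : B * x ≤ A * x := by gcongr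
  obtain ⟨b0, -, b1, b2⟩ := hm 2 3 3 3 8 (1 / 1000) x 0 (-B) (-A)
    ⟨hx, by linarith, by linarith, by norm_num, by simp,
      by rw [neg_mul, abs_neg, abs_of_pos (by positivity)]; linarith,
      by rw [neg_mul, abs_neg, abs_of_pos (by positivity)]; linarith⟩
    (by norm_num) (by norm_num) (by norm_num) rfl (by norm_num)
  have hJ : 0 < be 2 8 * x ^ 8 := by positivity
  norm_num at b1 b2
  refine ⟨hJ, by linarith, by linarith⟩

end H

theorem key (hm : S_MAIN) {x y D B C A : ℝ} (h1 : H x y D B A) (h2 : H x y D C A)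
    (h : 19 * C ≤ 10 * B)
    (e1 : SS 2 x 0 (-B) (-A) 3 3 3 √(1 - D * y) √(1 - B * y) √(1 - A * y) = 0)
    (e2 : SS 2 x 0 (-C) (-A) 3 3 3 √(1 - D * y) √(1 - C * y) √(1 - A * y) = 0) : False := by
  rw [SS_eq] at e1 e2
  have hA := h1.A0; have hB := h1.B0; have hC := h2.B0; have hy := h1.y0
  obtain ⟨hJ, i1, -⟩ := h1.I_b hm
  obtain ⟨-, i2, i3⟩ := h2.I_b hm
  have t1 := h1.T_le
  have t2 := h2.T_ge (by have := h1.BA; linarith)
  have s1 := (sq_b (mul_pos hB hy).le h1.By).1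
  have s2 := (sq_b (mul_pos hC hy).le h2.By).2
  have hu : 19 / 10 * B⁻¹ ≤ C⁻¹ := by
    rw [← div_eq_mul_inv, ← one_div, div_le_div_iff₀ hB hC]; linarith
  have m : y * (19 / 10 * B⁻¹) ^ 4 * A⁻¹ ^ 3 ≤ y * C⁻¹ ^ 4 * A⁻¹ ^ 3 := by gcongr
  have k5 : 0 < y * B⁻¹ ^ 4 * A⁻¹ ^ 3 := by positivity
  have p1 := mul_le_mul s1 i1 (by positivity) (Real.sqrt_nonneg _)
  have p2 := mul_le_mul s2 i3 (by linarith) zero_le_one
  linarith

theorem ww_eq (n p q d e : ℝ) : ww 2 3 3 p q d e n n n =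
    SS 2 (1 / d) 0 (-(-n / q)) (-(-n / p)) 3 3 3 √(1 - -n / d * (1 / e)) √(1 - -n / q * (1 / e))
      √(1 - -n / p * (1 / e)) := by
  have e1 : ∀ s : ℝ, 1 - -n / s * (1 / e) = 1 + n / (s * e) := fun s => by ring
  have e2 : ∀ s : ℝ, -(-n / s) = n / s := fun s => by ring
  simp only [ww, e1, e2]

theorem mkH {N p q d e : ℝ} (hN : 0 < N) (hp : 1 ≤ p) (hq : 19 * p ≤ 10 * q) (hd : 100 * q ≤ d)
    (hn : 1000 * N ≤ d) (he : d ≤ e) : H (1 / d) (1 / e) (N / d) (N / q) (N / p) := by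
  have : 0 < p := by linarith
  have : 0 < q := by linarith
  have : 0 < d := by linarith
  have : 0 < e := by linarith
  refine ⟨by positivity, by gcongr, by positivity, ?_, by positivity, ?_, ?_⟩
  · rw [← mul_div_assoc, div_le_div_iff₀ ‹_› ‹_›]; nlinarith
  · rw [← mul_div_assoc, ← mul_div_assoc, div_le_div_iff₀ ‹_› ‹_›]; nlinarith
  · rw [div_mul_div_comm, div_le_div_iff₀ (by positivity) (by norm_num)]; nlinarith

end NZ4

theorem nz4 (h : S_MAIN) : S_NZ4 := by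
  intro n a b c d e hn ha hab hbc hcd hnd hde
  by_contra hc
  push Not at hc
  obtain ⟨e1, e2⟩ := hc
  rw [NZ4.ww_eq] at e1 e2
  rw [abs_of_neg hn] at hnd
  have r1 : (0 : ℝ) < -n := by exact_mod_cast neg_pos.2 hn
  have r2 : (1 : ℝ) ≤ a := by exact_mod_cast ha
  have r3 : (19 : ℝ) * a ≤ 10 * b := by exact_mod_cast hab
  have r4 : (19 : ℝ) * b ≤ 10 * c := by exact_mod_cast hbc
  have r5 : (100 : ℝ) * c ≤ d := by exact_mod_cast hcd
  have r6 : (1000 : ℝ) * -n ≤ d := by exact_mod_cast hnd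
  have r7 : (d : ℝ) ≤ e := by exact_mod_cast hde
  refine NZ4.key h (NZ4.mkH r1 r2 r3 (by linarith) r6 r7) (NZ4.mkH r1 r2 (by linarith) r5 r6 r7)
    ?_ e1 e2
  rw [← mul_div_assoc, ← mul_div_assoc, div_le_div_iff₀ (by linarith) (by linarith)]
  nlinarith

end Pool.Agent.MP_2339ce_nt.DQ

end MrgPart4

-- ======== part 5: formerly Pool.Agent.MP_2339ce_nt.DQ.CH
section MrgPart5

/-! Project DQ, row CH: chains of excluded intervals. -/

set_option autoImplicit false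

namespace Pool.Agent.MP_2339ce_nt.DQ

namespace CH

variable {L P Q D E : ℝ}

/-- one window: above its lower end means above its upper end -/
theorem win (H : ∀ ρ kp kq, Good ρ kp kq → Di L P Q D E ρ kp kq) (ρ kp kq : ℕ)
    (g : (1 ≤ kp ∧ kp ≤ ρ + 1 ∧ 1 ≤ kq ∧ kq ≤ ρ + 1) ∧ kq % 2 = 0 ∧ (kp + ρ) % 2 = 1 ∧
      ρ + 1 ≤ kp + kq)
    (h : (2 * ρ + 1) * D + (2 * (ρ + kp + kq) - 4) * Q + (ρ + kp + kq) * L < E) :
    (2 * (kp + kq) - 1) * D + 2 * kp * P - (2 * kp - 2) * Q - (ρ + kp + kq) * L ≤ E :=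
  (H ρ kp kq ⟨⟨g.1.1, g.1.2.1, g.1.2.2.1, g.1.2.2.2⟩, Nat.even_iff.2 g.2.1, Nat.odd_iff.2 g.2.2.1,
    g.2.2.2⟩).resolve_left h.not_ge

/-- the windows `(2 i + 1, 2 i + 2, 2 i + 2)` cover a half line -/
theorem tail (H : ∀ ρ kp kq, Good ρ kp kq → Di L P Q D E ρ kp kq) (hL : 0 ≤ L) (hQ : 0 ≤ Q)
    (hD : 0 < D) (i₀ : ℕ) (h1 : 4 * D + 4 * Q + 4 * L < (4 * D + 4 * P - 16 * Q - 12 * L) * (i₀ + 1))
    (h2 : (4 * i₀ + 3) * D + (12 * i₀ + 6) * Q + (6 * i₀ + 5) * L < E) : False := by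
  have hs : 0 ≤ 4 * D + 4 * P - 16 * Q - 12 * L := by
    by_contra k
    have : (4 * D + 4 * P - 16 * Q - 12 * L) * (i₀ + 1) ≤ 0 :=
      mul_nonpos_of_nonpos_of_nonneg (not_le.1 k).le (by positivity)
    linarith
  have key : ∀ i : ℕ, i₀ ≤ i → (4 * i + 3) * D + (12 * i + 6) * Q + (6 * i + 5) * L < E := by
    intro i hi
    induction i, hi using Nat.le_induction with
    | base => exact h2
    | succ i hi ih =>
      have h3 := win H (2 * i + 1) (2 * i + 2) (2 * i + 2) (by omega) (by push_cast; linarith)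
      have h4 : (4 * D + 4 * P - 16 * Q - 12 * L) * (i₀ + 1) ≤
          (4 * D + 4 * P - 16 * Q - 12 * L) * (i + 1) :=
        mul_le_mul_of_nonneg_left (by exact_mod_cast Nat.succ_le_succ hi) hs
      push_cast at h3 ⊢
      linarith
  obtain ⟨n, hn⟩ := exists_nat_gt (E / D)
  rw [div_lt_iff₀ hD] at hn
  have h5 := key (n + i₀) (Nat.le_add_left _ _)
  have h6 : 0 ≤ (12 * (n + i₀ : ℕ) + 6) * Q + (6 * (n + i₀ : ℕ) + 5) * L := by positivity
  have h7 : 0 ≤ (3 * n + 4 * i₀ + 3) * D := by positivity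
  push_cast at h5 h6
  linarith

/-- the long chain -/
theorem long (H : ∀ ρ kp kq, Good ρ kp kq → Di L P Q D E ρ kp kq) (hL : 0 ≤ L) (hP : 0 ≤ P)
    (hQ : 0 ≤ Q) (h : 21 * Q + 40 * L < 4 * D + 4 * P)
    (h' : 34 * Q + 28 * L < 6 * D + 10 * P) (hD : 4 * Q + 10 * L < D)
    (h0 : 7 * D + 14 * Q + 9 * L < E) : False := by
  have a1 := win H 3 2 4 (by omega) (by push_cast; linarith)
  have a2 := win H 3 4 4 (by omega) (by push_cast at a1 ⊢; linarith)
  have a3 := win H 4 5 4 (by omega) (by push_cast at a2 ⊢; linarith)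
  have a4 := win H 5 4 6 (by omega) (by push_cast at a3 ⊢; linarith)
  have a5 := win H 5 6 6 (by omega) (by push_cast at a4 ⊢; linarith)
  have a6 := win H 6 7 6 (by omega) (by push_cast at a5 ⊢; linarith)
  have a7 := win H 7 8 8 (by omega) (by push_cast at a6 ⊢; linarith)
  have a8 := win H 8 9 8 (by omega) (by push_cast at a7 ⊢; linarith)
  exact tail H hL hQ (by linarith) 4 (by push_cast; linarith) (by push_cast at a8 ⊢; linarith)

end CH

theorem ch1 : S_CH1 := by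
  intro L A B D E hL hA hB hD H
  by_contra h0
  have a1 := CH.win H 1 2 2 (by omega) (by push_cast; linarith)
  have a2 := CH.win H 2 3 2 (by omega) (by push_cast at a1 ⊢; linarith)
  have a3 := CH.win H 3 2 4 (by omega) (by push_cast at a2 ⊢; linarith)
  exact CH.tail H hL (by linarith) (by linarith) 1 (by push_cast; linarith)
    (by push_cast at a3 ⊢; linarith)

theorem ch2 : S_CH2 := by
  intro L A B C D E hL hA hB hC h1 h2 h3 H H' h4
  by_contra h0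
  have a1 := CH.win H 1 2 2 (by omega) (by push_cast; linarith)
  have a2 := CH.win H' 1 2 2 (by omega) (by push_cast at a1 ⊢; linarith)
  have a3 := CH.win H 2 3 2 (by omega) (by push_cast at a2 ⊢; linarith)
  have a4 := h4.resolve_left (by push_cast at a3; linarith)
  rcases le_total (5 * B) (4 * C) with k | k
  · exact CH.long H hL hA (by linarith) (by linarith) (by linarith) (by linarith) (by linarith)
  · exact CH.long H' hL (by linarith) (by linarith) (by linarith) (by linarith) (by linarith)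
      (by linarith)

end Pool.Agent.MP_2339ce_nt.DQ

end MrgPart5

-- ======== part 6: formerly Pool.Agent.MP_2339ce_nt.DQ.LINE
section MrgPart6

/-! Project DQ: triples on a line. -/

set_option autoImplicit false

namespace Pool.Agent.MP_2339ce_nt.DQ

namespace LINE

theorem ne {N A k : ℤ} (h : ¬ IsSquare (-N)) (hA : A ≠ 0) : k ^ 2 + A ^ 2 * N ≠ 0 := by
  intro e
  obtain ⟨m, rfl⟩ : A ∣ k :=
    (Int.pow_dvd_pow_iff two_ne_zero).1 ⟨-N, by linear_combination e⟩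
  refine h ⟨m, mul_left_cancel₀ (pow_ne_zero 2 hA) ?_⟩
  linear_combination -e

end LINE

theorem line : S_LINE := by
  intro N hN K0
  refine ⟨K0 * ((K0 * |N| * K0 + K0 ^ 2 * |N| * K0 + K0 * (K0 ^ 2 + N ^ 2)) ^ 2 +
    (2 * K0 * K0 * K0) ^ 2 * |N|) + K0, fun T M L j ha hw hM hM' hL hj e => ?_⟩
  have a0 := T.a0
  have b0 := T.b0
  have c0 := T.c0
  have k0 : 0 ≤ K0 := (abs_nonneg _).trans hj
  have n0 := abs_nonneg N
  have w0 : T.w ≠ 0 := by
    have := T.w_sign (ne_zero_of_ns hN)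
    rintro h; rw [h] at this; simp at this
  have aa : |T.a| ≤ K0 := by rwa [abs_of_pos a0]
  obtain ⟨A, hA⟩ : ∃ A, A = 2 * T.a * T.w * M := ⟨_, rfl⟩
  obtain ⟨k, hk⟩ : ∃ k, k = T.a * N * j - T.a ^ 2 * N * M + M * (T.w ^ 2 - N ^ 2) := ⟨_, rfl⟩
  have A0 : A ≠ 0 := by rw [hA]; positivity
  have e1 : A * T.t = T.a * N * (M + L) * T.b + k := by
    rw [hA, hk]; linear_combination M * T.eT + T.a * N * e
  have e2 : T.b ∣ k ^ 2 + A ^ 2 * N :=
    ⟨A ^ 2 * T.c - (T.a * N * (M + L)) ^ 2 * T.b - 2 * (T.a * N * (M + L)) * k, by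
      linear_combination A ^ 2 * T.ht - (A * T.t + T.a * N * (M + L) * T.b + k) * e1⟩
  have h1 : T.b ≤ |k ^ 2 + A ^ 2 * N| :=
    Int.le_of_dvd (abs_pos.2 (LINE.ne hN A0)) ((dvd_abs _ _).2 e2)
  have h2 : |A| ≤ 2 * K0 * K0 * K0 := by
    rw [hA, abs_mul, abs_mul, abs_mul, abs_two]; gcongr
  have h3 : |k| ≤ K0 * |N| * K0 + K0 ^ 2 * |N| * K0 + K0 * (K0 ^ 2 + N ^ 2) := by
    rw [hk]
    refine (abs_add_le _ _).trans (add_le_add ((abs_sub _ _).trans (add_le_add ?_ ?_)) ?_)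
    · rw [abs_mul, abs_mul]; gcongr
    · rw [abs_mul, abs_mul, abs_pow]; gcongr
    · rw [abs_mul]
      gcongr
      refine (abs_sub _ _).trans ?_
      rw [abs_pow, abs_pow, sq_abs N]; gcongr
  have h4 : |k ^ 2 + A ^ 2 * N| ≤ (K0 * |N| * K0 + K0 ^ 2 * |N| * K0 + K0 * (K0 ^ 2 + N ^ 2)) ^ 2 +
      (2 * K0 * K0 * K0) ^ 2 * |N| := by
    refine (abs_add_le _ _).trans ?_
    rw [abs_mul, abs_pow, abs_pow]; gcongr
  have h5 : T.c ≤ |M * T.c| := by
    rw [abs_mul, abs_of_pos c0]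
    exact le_mul_of_one_le_left c0.le (Int.one_le_abs hM)
  refine h5.trans ?_
  rw [e]
  refine (abs_add_le _ _).trans ?_
  rw [abs_mul, abs_of_pos b0]
  have := h1.trans h4
  gcongr

end Pool.Agent.MP_2339ce_nt.DQ

end MrgPart6

-- ======== part 7: formerly Pool.Agent.MP_2339ce_nt.DQ.REG
section MrgPart7

/-! Project DQ, row REG: the last three elements are not a regular triple. -/

set_option autoImplicit false

namespace Pool.Agent.MP_2339ce_nt.DQ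

namespace REGx

variable {N : ℤ}

theorem Q_eq (hN : N ≠ 0) (q : Qd N) (h : q.Q ^ 2 + N ^ 2 < q.b) : q.Q = N := by
  have d : q.b ∣ q.Q ^ 2 - N ^ 2 :=
    ⟨2 * q.Q * q.z - N * (q.c + q.d - q.b), by linear_combination (-1) * q.eB⟩
  have e : q.Q ^ 2 - N ^ 2 = 0 := Int.eq_zero_of_abs_lt_dvd d (abs_lt.2
    ⟨by nlinarith [sq_nonneg q.Q, sq_nonneg N], by nlinarith [sq_nonneg q.Q, sq_nonneg N]⟩)
  rcases sq_eq_sq_iff_eq_or_eq_neg.1 (sub_eq_zero.1 e) with k | k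
  · exact k
  · have := q.Q_sign hN
    rw [k] at this
    nlinarith [sq_nonneg N]

theorem d_eq (hN : N ≠ 0) (q : Qd N) (h : q.Q = N) (hb : 2 * |N| ≤ q.b) :
    q.d = q.b + q.c + 2 * q.t := by
  have b0 := q.b0
  have e : 2 * q.z = q.c + q.d - q.b := by
    have e := q.eB
    rw [h] at e
    exact mul_left_cancel₀ (mul_ne_zero b0.ne' hN) (by linear_combination e)
  have e2 : (q.d - q.b - q.c) ^ 2 = (2 * q.t) ^ 2 := by
    linear_combination 4 * q.hz - 4 * q.ht - (2 * q.z + (q.c + q.d - q.b)) * e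
  rcases sq_eq_sq_iff_eq_or_eq_neg.1 e2 with k | k
  · linarith
  · exfalso
    have h1 : 2 * q.t < q.b := by have := q.cd; linarith
    have h2 : (2 * q.t) ^ 2 < q.b ^ 2 := by have := q.t0; nlinarith
    have := q.ht
    have := le_abs_self N
    have := q.bc
    nlinarith

theorem w_bd (q : Qd N) {K0 : ℤ} (hb : 2 * |N| ≤ q.b) (hc : q.c ≤ K0 * q.b) :
    |q.w| ≤ 16 * N ^ 2 * (K0 + |N|) := by
  have b0 := q.b0
  have n0 := abs_nonneg N
  have h1 : q.b * |q.w| ≤ 4 * |N| * q.t := q.toTr.w_le hb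
  have h2 : (q.b * |q.w|) ^ 2 ≤ (4 * |N| * q.t) ^ 2 := by gcongr
  have h3 : q.t ^ 2 ≤ q.b ^ 2 * (K0 + |N|) := by
    have := q.ht
    have := neg_abs_le N
    have h4 : |N| * 1 ≤ |N| * q.b ^ 2 := mul_le_mul_of_nonneg_left (by nlinarith) n0
    nlinarith
  have h4 : q.b ^ 2 * |q.w| ^ 2 ≤ q.b ^ 2 * (16 * N ^ 2 * (K0 + |N|)) := by
    have := mul_le_mul_of_nonneg_left h3 (show 0 ≤ 16 * N ^ 2 by positivity)
    rw [mul_pow, mul_pow, mul_pow, sq_abs N] at h2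
    linarith
  exact (Int.le_self_sq _).trans (le_of_mul_le_mul_left h4 (by positivity))

theorem s_bd (hN : N ≠ 0) (q : Qd N) (h : q.d = q.b + q.c + 2 * q.t) :
    q.s ≤ 2 * |q.w| + |N| + 1 := by
  have e : q.x ^ 2 = (q.r + q.s) ^ 2 + (2 * q.w + N) := by
    unfold Tr.w
    linear_combination q.hx - q.hr - q.hs + q.a * h
  have w := q.toTr.w_sign hN
  have := q.r0; have := q.s0; have := q.x0
  have := le_abs_self N; have := neg_abs_le N
  have := le_abs_self q.w; have := neg_abs_le q.w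
  rcases lt_trichotomy q.x (q.r + q.s) with k | k | k
  · nlinarith
  · exfalso
    rw [k] at e
    have e' : N = -2 * q.w := by linarith
    have e2 : N * q.w = -2 * q.w ^ 2 := by linear_combination q.w * e'
    nlinarith [sq_nonneg q.w]
  · nlinarith

end REGx

open REGx in
theorem reg : S_REG := by
  intro N hs K0
  have hN := ne_zero_of_ns hs
  have n0 := abs_nonneg N
  refine ⟨K0 * (K0 ^ 2 + N ^ 2 + 2 * |N|) +
    ((2 * (16 * N ^ 2 * (K0 + |N|)) + |N| + 1) ^ 2 + |N|), fun q h1 h2 => ?_⟩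
  have k0 : 0 ≤ K0 := (abs_nonneg _).trans h1
  by_cases hb : q.b ≤ K0 ^ 2 + N ^ 2 + 2 * |N|
  · exact (h2.trans (mul_le_mul_of_nonneg_left hb k0)).trans (le_add_of_nonneg_right (by positivity))
  · have q2 : q.Q ^ 2 ≤ K0 ^ 2 := by rw [← sq_abs]; gcongr
    have b2 : 2 * |N| ≤ q.b := by nlinarith [sq_nonneg K0, sq_nonneg N]
    have h3 := s_bd hN q (d_eq hN q (Q_eq hN q (by linarith)) b2)
    have h4 := w_bd q b2 h2
    have h5 : q.s ^ 2 ≤ (2 * (16 * N ^ 2 * (K0 + |N|)) + |N| + 1) ^ 2 := by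
      have := q.s0
      gcongr
      linarith
    have h6 : q.c ≤ q.a * q.c := le_mul_of_one_le_left q.c0.le q.a0
    have := q.hs
    have := le_abs_self N
    have : 0 ≤ K0 * (K0 ^ 2 + N ^ 2 + 2 * |N|) := by positivity
    linarith

end Pool.Agent.MP_2339ce_nt.DQ

end MrgPart7

-- ======== part 8: formerly Pool.Agent.MP_2339ce_nt.DQ.Q1
section MrgPart8

/-! Project DQ, row Q1: `m0` is positive and `P` is not small. -/

set_option autoImplicit false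

namespace Pool.Agent.MP_2339ce_nt.DQ

namespace Q1

variable {N : ℤ} (q : Qd N)

theorem pos_case (hN : 0 < N) (hc : 2 * |N| ≤ q.c) (h : 4 * |N| * |q.P| < q.a * q.c) :
    |q.Q| ≤ 4 * N ^ 2 ∧ q.c ≤ 4 * N ^ 2 * q.b := by
  have hm := q.m0_pos hN
  have hP : 0 < q.P := Qd.m0_pos.pos_of_mul_pos_left' (q.P_sign hN.ne') hN
  have hQ : 0 < q.Q := Qd.m0_pos.pos_of_mul_pos_left' (q.Q_sign hN.ne') hN
  have hle := q.P_le hc
  rw [abs_of_pos hN, abs_of_pos hP] at h hle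
  have ha := q.a0; have hb := q.b0; have hc0 := q.c0; have hz := q.z0; have hbc := q.bc
  have e := q.e1
  have h1 : q.b * (2 * q.a * q.z) ≤ q.b * (q.P ^ 2 + N * q.r ^ 2) := by
    have k1 : 2 * q.a * q.b * q.z * 1 ≤ 2 * q.a * q.b * q.z * q.m0 := by gcongr
    have k2 : 0 ≤ q.a * q.Q ^ 2 := by positivity
    have k3 : 0 ≤ N * q.a * q.r ^ 2 := by positivity
    linarith
  have h2 := le_of_mul_le_mul_left h1 hb
  have h3 : q.r ^ 2 ≤ q.a * q.b := by have := q.hr; linarith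
  have h4 : q.a * (q.c * q.P) ≤ q.a * (4 * N * q.z) := by gcongr
  have h5 : 2 * N * (2 * q.a * q.z) ≤ 2 * N * (q.P ^ 2 + N * (q.a * q.b)) := by
    gcongr
    exact h2.trans (by gcongr)
  have h6 : 4 * N * q.P * q.P ≤ q.a * q.c * q.P := by gcongr
  have h7 : q.a * (q.c * q.P) ≤ q.a * (4 * N ^ 2 * q.b) := by linarith
  have h8 := le_of_mul_le_mul_left h7 ha
  have h9 : q.c * q.P ≤ q.c * (4 * N ^ 2) := by
    have : 4 * N ^ 2 * q.b ≤ 4 * N ^ 2 * q.c := by gcongr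
    linarith
  have h10 := le_of_mul_le_mul_left h9 hc0
  refine ⟨?_, ?_⟩
  · rw [abs_of_pos hQ]
    unfold Qd.m0 at hm
    linarith
  · have : q.c * 1 ≤ q.c * q.P := by gcongr; exact hP
    linarith

theorem ne_zero (hs : ¬ IsSquare (-N)) (hN : N < 0) : q.m0 ≠ 0 := by
  intro h0
  have e := q.e1'
  have hab := sub_pos.2 q.ab
  rw [h0, mul_zero, zero_mul] at e
  have h1 : q.P ^ 2 + N * q.r ^ 2 = 0 := (mul_eq_zero.1 e.symm).resolve_left hab.ne'
  have hr : q.r ≠ 0 := by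
    intro h
    have := q.hr
    have := mul_pos q.a0 q.b0
    rw [h] at *
    linarith
  obtain ⟨k, hk⟩ := (Int.pow_dvd_pow_iff two_ne_zero).1
    (⟨-N, by linear_combination h1⟩ : q.r ^ 2 ∣ q.P ^ 2)
  refine hs ⟨k, mul_left_cancel₀ (pow_ne_zero 2 hr) ?_⟩
  rw [hk] at h1
  linear_combination -h1

theorem neg_case (hN : N < 0) (hc : 2 * |N| ≤ q.c) (hm : q.m0 ≤ -1) :
    |q.Q| ≤ 4 * |N| * (|N| * (|N| + 1) + |N|) ∧ q.c ≤ 4 * |N| * (|N| * (|N| + 1) + |N|) * q.b := by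
  have hle := q.Q_le hc
  have e := q.e1'
  have hr := q.hr; have ht := q.ht; have hy := q.hy; have hz := q.hz
  obtain ⟨n, hn⟩ : ∃ n, n = |N| := ⟨_, rfl⟩
  have hNn : N = -n := by rw [hn, abs_of_neg hN, neg_neg]
  rw [← hn] at hle hc ⊢
  have n1 : 1 ≤ n := by omega
  have ha := q.a0; have hb := q.b0; have hc0 := q.c0; have hz0 := q.z0; have hbc := q.bc
  have hcd := q.cd; have hd := q.d0; have := q.s0; have := q.x0; have ht0 := q.t0
  have hy0 := q.y0; have hab := sub_pos.2 q.ab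
  have k1 : q.a * 1 * (q.t * q.y) ≤ q.a * -q.m0 * ((q.b - q.a) * q.z + q.s * q.x + q.t * q.y) := by
    have : 0 ≤ (q.b - q.a) * q.z + q.s * q.x := by positivity
    have h1 : 1 ≤ -q.m0 := by omega
    gcongr
    linarith
  have k2 : q.r ^ 2 ≤ (n + 1) * (q.a * q.b) := by
    have : n * 1 ≤ n * (q.a * q.b) := by gcongr; exact mul_pos ha hb
    linarith
  have k3 : (q.b - q.a) * (n * q.r ^ 2) ≤ q.b * (n * ((n + 1) * (q.a * q.b))) := by
    gcongr; linarith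
  have k4 : 0 ≤ (q.b - q.a) * q.P ^ 2 := by positivity
  have k5 : q.a * (q.t * q.y) ≤ q.a * (n * (n + 1) * q.b ^ 2) := by
    have : (q.b - q.a) * (N * q.r ^ 2) = -((q.b - q.a) * (n * q.r ^ 2)) := by
      have : N * q.r ^ 2 = -(n * q.r ^ 2) := by linear_combination q.r ^ 2 * hNn
      rw [this]; ring
    linarith
  have k6 := le_of_mul_le_mul_left k5 ha
  obtain ⟨M, hM⟩ : ∃ M, M = n * (n + 1) := ⟨_, rfl⟩
  rw [← hM] at k6 ⊢
  have M0 : 0 < M := by rw [hM]; positivity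
  have k7 : q.b ^ 2 * (q.c * q.d) ≤ q.b ^ 2 * (M * q.b) ^ 2 := by
    have p1 : q.b * q.c ≤ q.t ^ 2 := by linarith
    have p2 : q.b * q.d ≤ q.y ^ 2 := by linarith
    calc q.b ^ 2 * (q.c * q.d) = q.b * q.c * (q.b * q.d) := by ring
      _ ≤ q.t ^ 2 * q.y ^ 2 := by gcongr
      _ = (q.t * q.y) ^ 2 := by ring
      _ ≤ (M * q.b ^ 2) ^ 2 := by gcongr
      _ = _ := by ring
  have k8 := le_of_mul_le_mul_left k7 (by positivity)
  have k9 : q.c ≤ M * q.b := by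
    refine le_of_sq_le_sq₀' ?_ (by positivity)
    have : q.c * q.c ≤ q.c * q.d := by gcongr
    linarith
  have k10 : q.z ≤ (M + n) * q.c := by
    refine le_of_sq_le_sq₀' ?_ (by positivity)
    have p1 : (M * q.b) ^ 2 ≤ (M * q.c) ^ 2 := by gcongr
    have p2 : n * 1 ≤ n * (n * q.c ^ 2) := by
      gcongr
      exact mul_pos (by omega) (pow_pos hc0 2)
    have p3 : 0 ≤ M * n * q.c ^ 2 := by positivity
    linarith
  have k11 : q.c * |q.Q| ≤ q.c * (4 * n * (M + n)) := by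
    have : 4 * n * q.z ≤ 4 * n * ((M + n) * q.c) := by gcongr
    linarith
  refine ⟨le_of_mul_le_mul_left k11 hc0, k9.trans ?_⟩
  have : 1 * (M + 0) ≤ 4 * n * (M + n) := by gcongr <;> omega
  gcongr
  linarith
where
  le_of_sq_le_sq₀' {u v : ℤ} (h : u ^ 2 ≤ v ^ 2) (hv : 0 ≤ v) : u ≤ v := by
    by_contra hc; push Not at hc; nlinarith

theorem neg_good (hN : N < 0) (hc : 2 * |N| ≤ q.c) (hm : 1 ≤ q.m0) :
    q.a * q.c ≤ 4 * |N| * |q.P| := by
  have hle := q.P_le hc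
  have e := q.e1'
  have ha := q.a0; have hz0 := q.z0; have := q.s0; have := q.x0; have := q.t0; have := q.y0
  have hab := sub_pos.2 q.ab
  have hP : 0 < |q.P| := abs_pos.2 fun h => by
    have := q.P_sign hN.ne
    rw [h] at this; simp at this
  have k1 : q.a * 1 * ((q.b - q.a) * q.z) ≤
      q.a * q.m0 * ((q.b - q.a) * q.z + q.s * q.x + q.t * q.y) := by
    have : 0 ≤ q.s * q.x + q.t * q.y := by positivity
    gcongr
    linarith
  have k2 : 0 ≤ (q.b - q.a) * (-N * q.r ^ 2) := by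
    have := neg_pos.2 hN; positivity
  have k3 : (q.b - q.a) * (q.a * q.z) ≤ (q.b - q.a) * |q.P| ^ 2 := by
    rw [sq_abs]; linarith
  have k4 := le_of_mul_le_mul_left k3 hab
  have k5 : q.a * (q.c * |q.P|) ≤ q.a * (4 * |N| * q.z) := by gcongr
  have k6 : 4 * |N| * (q.a * q.z) ≤ 4 * |N| * |q.P| ^ 2 := by gcongr
  refine le_of_mul_le_mul_right ?_ hP
  linarith

end Q1

theorem q1 (h : S_REG) : S_Q1 := by
  intro N hs
  rcases (ne_zero_of_ns hs).lt_or_gt with hN | hN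
  · obtain ⟨K, hK⟩ := h N hs (4 * |N| * (|N| * (|N| + 1) + |N|))
    refine ⟨max (K + 1) (2 * |N|), fun q hq => ?_⟩
    obtain ⟨h1, h2⟩ := max_le_iff.1 hq
    have hm : 1 ≤ q.m0 := by
      by_contra hc
      have h0 := Q1.ne_zero q hs hN
      obtain ⟨k1, k2⟩ := Q1.neg_case q hN h2 (by omega)
      have := hK q k1 k2
      omega
    exact ⟨hm, Q1.neg_good q hN h2 hm⟩
  · obtain ⟨K, hK⟩ := h N hs (4 * N ^ 2)
    refine ⟨max (K + 1) (2 * |N|), fun q hq => ?_⟩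
    obtain ⟨h1, h2⟩ := max_le_iff.1 hq
    refine ⟨q.m0_pos hN, ?_⟩
    by_contra hc
    obtain ⟨k1, k2⟩ := Q1.pos_case q hN h2 (not_le.1 hc)
    have := hK q k1 k2
    omega

end Pool.Agent.MP_2339ce_nt.DQ

end MrgPart8

-- ======== part 9: formerly Pool.Agent.MP_2339ce_nt.DQ.Q2
section MrgPart9

/-! Project DQ, row Q2: in the middle range of `|P|` the integer `m1` vanishes. -/

set_option autoImplicit false

namespace Pool.Agent.MP_2339ce_nt.DQ

theorem q2_m0 {n a c p m z R : ℤ} (hn : 1 ≤ n) (ha : 0 < a) (hc : 2000 * n ^ 3 ≤ c)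
    (hp : 2000 * n ^ 3 * a * c ≤ p) (hm : 1 ≤ m) (hz : c * p ≤ 4 * n * z)
    (hR : R ≤ 2 * a * c) (h : a * m * z ≤ p ^ 2 + n * R) : m ≤ p := by
  have n3 : n ≤ n ^ 3 := by nlinarith [sq_nonneg n, mul_pos (by omega : (0 : ℤ) < n) (by omega : (0 : ℤ) < n)]
  have hc0 : 0 < c := by omega
  have hac : c ≤ a * c := by nlinarith
  have hp1 : 2000 * n ^ 3 ≤ p := by nlinarith
  have hp0 : 0 < p := by omega
  have k1 : a * m * (c * p) ≤ 4 * n * (p ^ 2 + n * (2 * a * c)) := by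
    calc a * m * (c * p) ≤ a * m * (4 * n * z) := by gcongr
      _ = 4 * n * (a * m * z) := by ring
      _ ≤ 4 * n * (p ^ 2 + n * R) := by gcongr
      _ ≤ _ := by gcongr
  have k2 : 8 * n * p ^ 2 ≤ a * c * p ^ 2 :=
    mul_le_mul_of_nonneg_right (by linarith) (sq_nonneg p)
  have k3 : 16 * n ^ 2 * (a * c) ≤ p ^ 2 * (a * c) := by
    have : (4 * n) ^ 2 ≤ p ^ 2 := by gcongr; omega
    gcongr; linarith
  have k4 : m * (a * c * p) ≤ p * (a * c * p) := by nlinarith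
  exact le_of_mul_le_mul_right k4 (by positivity)

theorem q2_g {n a c p G z S : ℤ} (hn : 1 ≤ n) (ha : 0 < a) (hc0 : 0 < c)
    (hp1 : 2000 * n ^ 3 ≤ p) (hp2 : 2000 * n ^ 3 * p ≤ c * c) (hG : 0 ≤ G)
    (hz : c * p ≤ 4 * n * z) (hS : S ≤ 2 * a * c)
    (h : G * (a * z) ≤ n * (2 * p ^ 2 + 8 * a * S * c)) : 8 * n * G ≤ a * c := by
  have n3 : 0 < n ^ 3 := by positivity
  have hp0 : 0 < p := by omega
  have k1 : G * a * (c * p) ≤ 4 * n * (n * (2 * p ^ 2 + 8 * a * (2 * a * c) * c)) := by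
    calc G * a * (c * p) ≤ G * a * (4 * n * z) := by gcongr
      _ = 4 * n * (G * (a * z)) := by ring
      _ ≤ 4 * n * (n * (2 * p ^ 2 + 8 * a * S * c)) := by gcongr
      _ ≤ _ := by gcongr
  have k2 : 128 * n ^ 3 * p * p ≤ (a * c) ^ 2 * p := by
    have h1 : c * c ≤ (a * c) ^ 2 := by
      have : c ≤ a * c := by nlinarith
      nlinarith
    have h2 : 128 * n ^ 3 * p ≤ (a * c) ^ 2 := by nlinarith
    gcongr
  have k3 : 1024 * n ^ 3 * (a * c) ^ 2 ≤ p * (a * c) ^ 2 := by gcongr; omega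
  have k4 : 8 * n * G * (a * c * p) ≤ a * c * (a * c * p) := by nlinarith
  exact le_of_mul_le_mul_right k4 (by positivity)

theorem q2_fin {n a b c p G z : ℤ} (hn : 1 ≤ n) (ha : 0 < a) (hb : 0 < b) (hc : 0 < c)
    (hp0 : 0 < p) (hp : 2000 * n ^ 3 * a * c ≤ p) (hp' : 2000 * n ^ 3 * p ≤ b * c)
    (hp1 : 2000 * n ^ 3 ≤ p) (hz : c * p ≤ 4 * n * z) (hg : 8 * n * G ≤ a * c)
    (h : 2 * a * b * z ≤ 2 * n * a * (2 * p) ^ 2 + b * p * G +
      8 * a * b * n * (2 * a * c) * c + 2 * n ^ 2 * (2 * a * c) * b) : False := by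
  have n2 : n ^ 2 ≤ n ^ 3 := pow_le_pow_right₀ hn (by norm_num)
  have n0 : 0 < n ^ 2 := by positivity
  have u0 : a * b * (c * p) ≤ a * b * (4 * n * z) := by gcongr
  have u1 : a * p * (100 * n ^ 2 * p) ≤ a * p * (b * c) :=
    mul_le_mul_of_nonneg_left
      ((mul_le_mul_of_nonneg_right (by linarith) hp0.le).trans hp') (by positivity)
  have u2 : b * p * (8 * n * G) ≤ b * p * (a * c) := by gcongr
  have u3 : a * b * c * (200 * n ^ 2 * a * c) ≤ a * b * c * p :=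
    mul_le_mul_of_nonneg_left ((mul_le_mul_of_nonneg_right
      (mul_le_mul_of_nonneg_right (by linarith) ha.le) hc.le).trans hp) (by positivity)
  have u4 : a * b * c * (200 * n ^ 3) ≤ a * b * c * p :=
    mul_le_mul_of_nonneg_left (by linarith) (by positivity)
  have u5 : 0 < a * b * c * p := by positivity
  have u6 := mul_le_mul_of_nonneg_left h (by omega : 0 ≤ 4 * n)
  linarith

theorem q2 : S_Q2 := by
  intro N hN
  have hN0 := ne_zero_of_ns hN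
  have hn : 1 ≤ |N| := Int.one_le_abs hN0
  refine ⟨2000 * |N| ^ 3, by positivity, fun q hc hm hp hp' => ?_⟩
  obtain ⟨n, hnd⟩ : ∃ n, n = |N| := ⟨_, rfl⟩
  obtain ⟨p, hpd⟩ : ∃ p, p = |q.P| := ⟨_, rfl⟩
  have ha := q.a0; have hb := q.b0; have hc0 := q.c0; have hab := q.ab; have hbc := q.bc
  have hz0 := q.z0
  have n2 : n ^ 2 ≤ n ^ 3 := by rw [hnd]; exact pow_le_pow_right₀ hn (by norm_num)
  have n1 : n ≤ n ^ 2 := by rw [hnd]; nlinarith
  have hz : q.c * p ≤ 4 * n * q.z := by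
    rw [hnd, hpd]; exact q.P_le (by rw [← hnd]; rw [← hnd] at hc; omega)
  have hm0 := q.m0_le (by omega)
  have hg := q.g_abs
  have hP2 : q.P ^ 2 = p ^ 2 := by rw [hpd, sq_abs]
  have hN2 : N ^ 2 = n ^ 2 := by rw [hnd, sq_abs]
  have hl : -N ≤ n := by rw [hnd]; exact neg_le_abs N
  rw [← hnd] at hc hp hp' hm0 hg hn
  rw [← hpd] at hp hp'
  rw [hP2] at hm0 hg
  have hac : q.c ≤ q.a * q.c := by nlinarith
  have hR : q.r ^ 2 ≤ 2 * q.a * q.c := by
    have := q.hr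
    have : q.a * q.b ≤ q.a * q.c := by gcongr
    nlinarith
  have hS : q.s ^ 2 ≤ 2 * q.a * q.c := by have := q.hs; nlinarith
  have hp1 : 2000 * n ^ 3 ≤ p := by nlinarith
  have hp0 : 0 < p := by omega
  have m_le : q.m0 ≤ p := q2_m0 hn ha hc hp hm hz hR hm0
  have g_le : 8 * n * |q.g| ≤ q.a * q.c := by
    refine q2_g (S := q.s ^ 2) hn ha hc0 hp1 (hp'.trans (by gcongr)) (abs_nonneg _) hz hS ?_
    have h1 : |q.g| * (q.a * q.z) ≤ |q.g| * (q.a * q.z + q.s * q.x) := by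
      have := q.s0; have := q.x0
      gcongr; linarith [mul_nonneg q.s0 q.x0]
    refine h1.trans (hg.le.trans ?_)
    gcongr; linarith
  have hQ : q.Q ^ 2 ≤ (2 * p) ^ 2 := by
    have e : q.Q = q.P - q.m0 := by unfold Qd.m0; ring
    have h1 := le_abs_self q.P
    have h2 := neg_abs_le q.P
    rw [← hpd] at h1 h2
    exact sq_le_sq' (by omega) (by omega)
  have hca : 0 ≤ q.c - q.a := by have := q.ac; omega
  have hba : 0 ≤ q.b - q.a := by omega
  have t1 : |2 * N * q.a * q.Q ^ 2| ≤ 2 * n * q.a * (2 * p) ^ 2 := by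
    rw [abs_mul, abs_mul, abs_mul, ← hnd, abs_of_pos ha, abs_of_nonneg (sq_nonneg q.Q), abs_two]
    gcongr
  have t2 : |q.b * q.P * q.g| = q.b * p * |q.g| := by
    rw [abs_mul, abs_mul, ← hpd, abs_of_pos hb]
  have t3 : |8 * q.a * q.b * N * q.s ^ 2 * (q.c - q.a)| ≤
      8 * q.a * q.b * n * (2 * q.a * q.c) * q.c := by
    rw [abs_mul, abs_mul, abs_mul, ← hnd, abs_of_nonneg hca, abs_of_nonneg (sq_nonneg q.s),
      abs_of_pos (by positivity : 0 < 8 * q.a * q.b)]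
    gcongr; linarith
  have t4 : |2 * N ^ 2 * q.r ^ 2 * (q.b - q.a)| ≤ 2 * n ^ 2 * (2 * q.a * q.c) * q.b := by
    rw [hN2, abs_of_nonneg (by positivity)]
    gcongr; linarith
  have tt : 2 * q.a * q.b * q.z * |q.m1| ≤ 2 * n * q.a * (2 * p) ^ 2 + q.b * p * |q.g| +
      8 * q.a * q.b * n * (2 * q.a * q.c) * q.c + 2 * n ^ 2 * (2 * q.a * q.c) * q.b := by
    have e := congrArg abs q.e3
    rw [abs_mul, abs_of_nonneg (by positivity : 0 ≤ 2 * q.a * q.b * q.z)] at e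
    rw [e]
    refine (abs_sub _ _).trans (add_le_add ((abs_add_three _ _ _).trans ?_) t4)
    rw [t2]
    linarith
  by_contra hne
  have h1 : 1 ≤ |q.m1| := Int.one_le_abs hne
  have h2 : 2 * q.a * q.b * q.z ≤ 2 * q.a * q.b * q.z * |q.m1| :=
    le_mul_of_one_le_right (by positivity) h1
  exact q2_fin hn ha hb hc0 hp0 hp hp' hp1 hz g_le (h2.trans tt)

end Pool.Agent.MP_2339ce_nt.DQ

end MrgPart9

-- ======== part 10: formerly Pool.Agent.MP_2339ce_nt.DQ.Q7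
section MrgPart10

/-! Project DQ, row Q7: bounded data put `b`, `c` on a line. -/

set_option autoImplicit false

namespace Pool.Agent.MP_2339ce_nt.DQ

namespace Q7

theorem box (K : ℤ) (f : ℤ × ℤ × ℤ × ℤ × ℤ → ℤ) : ∃ B : ℤ, ∀ a m g D w : ℤ, |a| ≤ K → |m| ≤ K →
    |g| ≤ K → |D| ≤ K → |w| ≤ K → f (a, m, g, D, w) ≤ B := by
  have hI := Set.finite_Icc (-K) K
  obtain ⟨B, hB⟩ := ((hI.prod (hI.prod (hI.prod (hI.prod hI)))).image f).bddAbove
  exact ⟨B, fun a m g D w h1 h2 h3 h4 h5 => hB ⟨(a, m, g, D, w),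
    ⟨abs_le.1 h1, abs_le.1 h2, abs_le.1 h3, abs_le.1 h4, abs_le.1 h5⟩, rfl⟩⟩

def MM (N a m : ℤ) : ℤ := 2 * a ^ 2 * (16 * a ^ 2 * m ^ 2 + N ^ 3)

def LL (N a m D w : ℤ) : ℤ := 2 * a ^ 2 * (4 * m * (D + N * m) - 2 * N ^ 3 + 4 * N * w ^ 2)

def ka (N a w : ℤ) : ℤ := w ^ 2 - N ^ 2 - a ^ 2 * N

def al (N a m D w : ℤ) : ℤ := -16 * a ^ 3 * m * (D - N * m) - 4 * a * N ^ 2 * ka N a w

def bt (N a m g D w : ℤ) : ℤ :=
  a * (-2 * N ^ 3 * (a ^ 2 + N) + m * N * (2 * D + g) + 2 * D ^ 2) - 4 * a * N ^ 2 * ka N a w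

def ga (N a m D w : ℤ) : ℤ :=
  a * (-2 * a * (D - N * m) ^ 2 + 2 * N ^ 4 * a) - 2 * N * (4 * a ^ 2 * w ^ 2 * N + ka N a w ^ 2)

theorem MM_ne {N a m : ℤ} (hN : ¬ IsSquare (-N)) (ha : 0 < a) : MM N a m ≠ 0 := by
  intro h
  have h0 := ne_zero_of_ns hN
  have h1 : 16 * a ^ 2 * m ^ 2 + N ^ 3 = 0 :=
    (mul_eq_zero.1 h).resolve_left (by positivity)
  have h2 : N ^ 2 ∣ (4 * a * m) ^ 2 := ⟨-N, by linear_combination h1⟩
  obtain ⟨k, hk⟩ := (Int.pow_dvd_pow_iff two_ne_zero).1 h2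
  refine hN ⟨k, mul_left_cancel₀ (pow_ne_zero 2 h0) ?_⟩
  linear_combination (-1 : ℤ) * h1 + (4 * a * m + N * k) * hk

theorem line {N : ℤ} (q : Qd N) :
    q.c * (MM N q.a q.m0 * q.c - LL N q.a q.m0 q.D q.w * q.b) = al N q.a q.m0 q.D q.w * q.c +
      bt N q.a q.m0 q.g q.D q.w * q.b + ga N q.a q.m0 q.D q.w := by
  have e4 := q.e4
  have eT := q.toTr.eT
  have hr := q.hr
  have ht := q.ht
  have hP : N * q.P = 4 * q.a * q.c * q.m0 + q.D := by unfold Qd.D; ring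
  have hQ : N * q.Q = 4 * q.a * q.c * q.m0 + q.D - N * q.m0 := by rw [← hP]; unfold Qd.m0; ring
  generalize q.m0 = m at *
  generalize q.D = D at *
  generalize q.g = g at *
  generalize q.w = w at *
  have f1 : 2 * q.b * D * (4 * q.a * q.c * m + D) =
      2 * q.a * (4 * q.a * q.c * m + D - N * m) ^ 2 - 2 * N ^ 3 * (q.a * q.b - N) * (q.b - q.a) -
        q.b * m * N * (2 * (4 * q.a * q.c * m + D) + g) := by
    rw [← hQ, ← hP, ← hr]
    linear_combination N * e4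
  have f2 : 4 * q.a ^ 2 * w ^ 2 * (q.b * q.c - N) =
      (q.a * N * (q.b + q.c - q.a) + w ^ 2 - N ^ 2) ^ 2 := by
    rw [← eT, ← ht]; ring
  unfold MM LL al bt ga ka
  linear_combination (-q.a) * f1 - 2 * N * f2

theorem small {c b j x y z : ℤ} (hb : 0 < b) (hc : b < c) (h : c * j = x * c + y * b + z) :
    |j| ≤ |x| + |y| + |z| := by
  have hc0 : 0 < c := hb.trans hc
  refine le_of_mul_le_mul_left ?_ hc0
  have h1 : c * |j| = |x * c + y * b + z| := by rw [← h, abs_mul, abs_of_pos hc0]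
  have h2 := abs_add_three (x * c) (y * b) z
  rw [abs_mul, abs_mul, abs_of_pos hc0, abs_of_pos hb] at h2
  have h3 : |y| * b ≤ |y| * c := mul_le_mul_of_nonneg_left hc.le (abs_nonneg _)
  have h4 : |z| * 1 ≤ |z| * c := mul_le_mul_of_nonneg_left (by omega) (abs_nonneg _)
  linarith

theorem w_bd {N K0 : ℤ} (T : Tr N) (h0 : 0 ≤ K0) (h : 2 * |N| ≤ T.b) (hc : T.c ≤ K0 * T.b) :
    |T.w| ≤ 4 * |N| * (K0 + 1) := by
  have h1 := T.w_le h
  have hb := T.b0
  have hN := abs_nonneg N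
  have h2 : T.t ≤ (K0 + 1) * T.b := by
    refine abs_le_of_sq_le_sq' ?_ (by positivity) |>.2
    have h3 := neg_abs_le N
    have h4 : T.b * T.c ≤ T.b * (K0 * T.b) := mul_le_mul_of_nonneg_left hc hb.le
    have h5 : T.b * 1 ≤ T.b * T.b := mul_le_mul_of_nonneg_left (by omega) hb.le
    have h6 : 0 ≤ K0 * T.b ^ 2 := by positivity
    have h7 : 0 ≤ K0 ^ 2 * T.b ^ 2 := by positivity
    rw [T.ht]
    nlinarith
  refine le_of_mul_le_mul_left ?_ hb
  have h3 : 4 * |N| * T.t ≤ 4 * |N| * ((K0 + 1) * T.b) := by gcongr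
  linarith

end Q7

theorem q7 (h : S_LINE) : S_Q7 := by
  intro N hN K0
  obtain ⟨B, hB⟩ := Q7.box (max K0 (4 * |N| * (K0 + 1))) fun p =>
    |Q7.MM N p.1 p.2.1| + |Q7.LL N p.1 p.2.1 p.2.2.2.1 p.2.2.2.2| +
      (|Q7.al N p.1 p.2.1 p.2.2.2.1 p.2.2.2.2| +
        |Q7.bt N p.1 p.2.1 p.2.2.1 p.2.2.2.1 p.2.2.2.2| + |Q7.ga N p.1 p.2.1 p.2.2.2.1 p.2.2.2.2|)
  obtain ⟨K, hK⟩ := h N hN (max (max K0 (4 * |N| * (K0 + 1))) B)
  refine ⟨max K (K0 * (2 * |N|)), fun q h1 h2 h3 h4 h5 => ?_⟩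
  have ha := q.a0
  have h0 : 0 ≤ K0 := by omega
  by_cases hb : 2 * |N| ≤ q.b
  · have hw := Q7.w_bd q.toTr h0 hb h5
    have k := hB q.a q.m0 q.g q.D q.w (le_max_of_le_left (by rwa [abs_of_pos ha]))
      (le_max_of_le_left h2) (le_max_of_le_left h3) (le_max_of_le_left h4) (le_max_of_le_right hw)
    have hj := Q7.small q.b0 q.bc (Q7.line q)
    simp only at k
    have p1 := abs_nonneg (Q7.MM N q.a q.m0)
    have p2 := abs_nonneg (Q7.LL N q.a q.m0 q.D q.w)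
    have p3 := abs_nonneg (Q7.al N q.a q.m0 q.D q.w)
    have p4 := abs_nonneg (Q7.bt N q.a q.m0 q.g q.D q.w)
    have p5 := abs_nonneg (Q7.ga N q.a q.m0 q.D q.w)
    refine le_max_of_le_left (hK q.toTr (Q7.MM N q.a q.m0) (Q7.LL N q.a q.m0 q.D q.w)
      (Q7.MM N q.a q.m0 * q.c - Q7.LL N q.a q.m0 q.D q.w * q.b)
      (le_max_of_le_left (le_max_of_le_left h1)) (le_max_of_le_left (le_max_of_le_right hw))
      (Q7.MM_ne hN ha) (le_max_of_le_right (by linarith)) (le_max_of_le_right (by linarith))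
      (le_max_of_le_right (by linarith)) (by ring))
  · refine le_max_of_le_right (h5.trans ?_)
    exact mul_le_mul_of_nonneg_left (not_le.1 hb).le h0

end Pool.Agent.MP_2339ce_nt.DQ

end MrgPart10

-- ======== part 11: formerly Pool.Agent.MP_2339ce_nt.DQ.LQ
section MrgPart11

/-! Project DQ: the gap for four elements. -/

set_option autoImplicit false

namespace Pool.Agent.MP_2339ce_nt.DQ

namespace LQ

variable {N : ℤ} (q : Qd N)

theorem fin {K : ℤ} (hK : 0 ≤ K) (hc : 2 * |N| ≤ q.c) (h : q.b * q.c ≤ K * |q.P|) :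
    q.b ^ 2 * q.c ^ 3 ≤ 32 * K ^ 2 * N ^ 2 * q.d := by
  have hb := q.b0; have c0 := q.c0; have d0 := q.d0; have z0 := q.z0
  have hN := abs_nonneg N
  have h1 : q.b * q.c * q.c ≤ K * (4 * |N| * q.z) := by
    calc q.b * q.c * q.c ≤ K * |q.P| * q.c := by gcongr
      _ = K * (q.c * |q.P|) := by ring
      _ ≤ _ := mul_le_mul_of_nonneg_left (q.P_le hc) hK
  have h2 : q.z ^ 2 ≤ 2 * (q.c * q.d) := by
    have := neg_abs_le N
    have h3 : q.c * 1 ≤ q.c * q.d := by gcongr; omega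
    rw [q.hz]; linarith
  have h3 : (q.b * q.c * q.c) ^ 2 ≤ (K * (4 * |N| * q.z)) ^ 2 := by gcongr
  have h4 : (K * (4 * |N| * q.z)) ^ 2 = 16 * K ^ 2 * N ^ 2 * q.z ^ 2 := by
    rw [← sq_abs N]; ring
  have h5 : 16 * K ^ 2 * N ^ 2 * q.z ^ 2 ≤ 16 * K ^ 2 * N ^ 2 * (2 * (q.c * q.d)) := by gcongr
  refine le_of_mul_le_mul_right ?_ c0
  calc q.b ^ 2 * q.c ^ 3 * q.c = (q.b * q.c * q.c) ^ 2 := by ring
    _ ≤ _ := h3.trans (h4.le.trans h5)
    _ = _ := by ring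

theorem win {K K' : ℤ} (h : q.Win K) (hK : K ≤ K') : q.Win K' :=
  ⟨h.m, h.low, h.up.trans (by have := q.a0; have := q.c0; gcongr)⟩

/-- the window is empty for large elements -/
theorem nowin (hN : ¬ IsSquare (-N)) (h3 : S_Q3) (h4 : S_Q4) (h5 : S_Q5) (h6 : S_Q6) (h7 : S_Q7)
    (K0 : ℤ) : ∃ B : ℤ, 0 < B ∧ ∀ q : Qd N, B ≤ q.c → B * q.a ≤ q.b → ¬ q.Win K0 := by
  obtain ⟨K3, p3, e3⟩ := h3 N hN K0
  obtain ⟨K4, e4⟩ := h4 N hN
  obtain ⟨K5, e5⟩ := h5 N hN (max K0 K3)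
  obtain ⟨K6, e6⟩ := h6 N hN (max (max K0 K3) K5)
  obtain ⟨K7, e7⟩ := h7 N hN (max (max K3 K6) (max K5 (|K5| * K6 ^ 2)))
  refine ⟨max (max (max K3 K4) (max K5 K6)) (K7 + 1), by omega, fun q hc hb hw => ?_⟩
  have a0 := q.a0
  have b0 := q.b0
  have hab : ∀ K, K ≤ max (max (max K3 K4) (max K5 K6)) (K7 + 1) → K * q.a ≤ q.b := fun K hK =>
    (mul_le_mul_of_nonneg_right hK a0.le).trans hb
  obtain ⟨k1, k2, k3⟩ := e3 q (by omega) (hab _ (by omega)) hw
  have k4 := e4 q (by omega) (hab _ (by omega)) k1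
  obtain ⟨k5, k6⟩ := e5 q (by omega) (hab _ (by omega)) (win q hw (by omega)) k1 (by omega)
    (by omega) k4
  have k7 := e6 q (hab _ (by omega)) (win q hw (by omega)) k1 (by omega) (by omega)
    (k5.trans (mul_le_mul_of_nonneg_right (by omega) (sq_nonneg _)))
    (k6.trans (mul_le_mul_of_nonneg_right (by omega) b0.le))
  have k8 : |q.D| ≤ |K5| * K6 ^ 2 := k5.trans (by gcongr; exact le_abs_self K5)
  have k9 := e7 q (by omega) (by rw [abs_of_pos (by have := hw.m; omega)]; omega) (by omega)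
    (k8.trans ((le_max_right _ _).trans (le_max_right _ _)))
    (k6.trans (mul_le_mul_of_nonneg_right ((le_max_left _ _).trans (le_max_right _ _)) b0.le))
  omega

theorem nozero (hN : ¬ IsSquare (-N)) (h8 : S_Q8) (h9 : S_Q9) : ∃ K : ℤ, ∀ q : Qd N, K ≤ q.c →
    1 ≤ q.m0 → K * q.a * q.c ≤ |q.P| → q.m1 ≠ 0 := by
  rcases lt_or_gt_of_ne (ne_zero_of_ns hN) with h | h
  · obtain ⟨K8, e8⟩ := h8 N hN h
    obtain ⟨K9, e9⟩ := h9 N hN h K8
    refine ⟨max K8 (K9 + 1), fun q hc hm hp h0 => ?_⟩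
    have := q.a0; have := q.c0
    obtain ⟨k1, k2, k3⟩ := e8 q (by omega) hm
      (le_trans (by gcongr; exact le_max_left _ _) hp) h0
    have := e9 q h0 k1 k2 k3
    omega
  · exact ⟨2 * N, fun q hc _ _ h0 => by have := q.m1_pos h hc; omega⟩

end LQ

open LQ in
theorem lq (h1 : S_Q1) (h2 : S_Q2) (h3 : S_Q3) (h4 : S_Q4) (h5 : S_Q5) (h6 : S_Q6) (h7 : S_Q7)
    (h8 : S_Q8) (h9 : S_Q9) : S_LQ := by
  intro N hN
  obtain ⟨K1, e1⟩ := h1 N hN
  obtain ⟨K2, p2, e2⟩ := h2 N hN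
  obtain ⟨K8, e8⟩ := nozero hN h8 h9
  obtain ⟨B, pB, eB⟩ := nowin hN h3 h4 h5 h6 h7 (max K2 K8)
  have hn := abs_nonneg N
  set K' := max K2 (B * (4 * |N|)) with hK'
  have pK : 0 < K' := lt_max_of_lt_left p2
  refine ⟨max (max (max K1 K2) (max K8 B)) (max (2 * |N|) (32 * K' ^ 2 * N ^ 2)), by omega,
    fun q hc => ?_⟩
  have a0 := q.a0; have c0 := q.c0; have hp := abs_nonneg q.P
  have hc' : max (max K1 K2) (max K8 B) ≤ q.c ∧ 2 * |N| ≤ q.c :=
    ⟨(le_max_left _ _).trans hc, ((le_max_left _ _).trans (le_max_right _ _)).trans hc⟩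
  refine (fin q pK.le hc'.2 ?_).trans (mul_le_mul_of_nonneg_right
    ((le_max_right _ _).trans (le_max_right _ _)) q.d0.le)
  obtain ⟨hm, hl⟩ := e1 q (by omega)
  rcases le_or_gt (B * q.a) q.b with hb | hb
  · rcases le_or_gt (K2 * |q.P|) (q.b * q.c) with h | h
    · exfalso
      rcases le_or_gt |q.P| (max K2 K8 * q.a * q.c) with k | k
      · exact eB q (by omega) hb ⟨hm, hl, k⟩
      · exact e8 q (by omega) hm (le_trans (by gcongr; exact le_max_right _ _) k.le)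
          (e2 q (by omega) hm (le_trans (by gcongr; exact le_max_left _ _) k.le) h)
    · exact h.le.trans (mul_le_mul_of_nonneg_right (le_max_left _ _) hp)
  · calc q.b * q.c ≤ B * q.a * q.c := by gcongr
      _ = B * (q.a * q.c) := by ring
      _ ≤ B * (4 * |N| * |q.P|) := by gcongr
      _ = B * (4 * |N|) * |q.P| := by ring
      _ ≤ _ := mul_le_mul_of_nonneg_right (le_max_right _ _) hp

end Pool.Agent.MP_2339ce_nt.DQ

end MrgPart11

-- ======== part 12: formerly Pool.Agent.MP_2339ce_nt.DQ.BD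
section MrgPart12

/-! Project DQ: the third element of a quintuple is bounded. -/

set_option autoImplicit false

namespace Pool.Agent.MP_2339ce_nt.DQ

open Real

namespace BD

theorem root {u n : ℤ} (h : IsSquare (u + n)) : ∃ r : ℤ, 0 ≤ r ∧ r ^ 2 = u - -n := by
  obtain ⟨r, hr⟩ := h
  exact ⟨|r|, abs_nonneg r, by rw [sq_abs]; linear_combination -hr⟩

theorem quad {n K a b c d : ℤ}
    (h : ∀ q : Qd (-n), K ≤ q.c → q.b ^ 2 * q.c ^ 3 ≤ K * q.d) (a0 : 0 < a) (ab : a < b)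
    (bc : b < c) (cd : c < d) (s1 : IsSquare (a * b + n)) (s2 : IsSquare (a * c + n))
    (s3 : IsSquare (b * c + n)) (s4 : IsSquare (a * d + n)) (s5 : IsSquare (b * d + n))
    (s6 : IsSquare (c * d + n)) (hK : K ≤ c) : b ^ 2 * c ^ 3 ≤ K * d := by
  obtain ⟨r, r0, hr⟩ := root s1
  obtain ⟨s, s0, hs⟩ := root s2
  obtain ⟨t, t0, ht⟩ := root s3
  obtain ⟨x, x0, hx⟩ := root s4
  obtain ⟨y, y0, hy⟩ := root s5
  obtain ⟨z, z0, hz⟩ := root s6
  exact h ⟨⟨a, b, c, r, s, t, a0, ab, bc, r0, s0, t0, hr, hs, ht⟩, d, x, y, z, cd, x0, y0, z0,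
    hx, hy, hz⟩ hK

theorem trip {n K a b c : ℤ} (h : ∀ T : Tr (-n), K ≤ T.c → 3 * T.a ≤ T.c) (a0 : 0 < a)
    (ab : a < b) (bc : b < c) (s1 : IsSquare (a * b + n)) (s2 : IsSquare (a * c + n))
    (s3 : IsSquare (b * c + n)) (hK : K ≤ c) : 3 * a ≤ c := by
  obtain ⟨r, r0, hr⟩ := root s1
  obtain ⟨s, s0, hs⟩ := root s2
  obtain ⟨t, t0, ht⟩ := root s3
  exact h ⟨a, b, c, r, s, t, a0, ab, bc, r0, s0, t0, hr, hs, ht⟩ hK

theorem cfg {n p q d e : ℤ} (hn : n ≠ 0) (p0 : 0 < p) (pq : p < q) (qd : q < d) (de : d < e)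
    (hd : 4 * |n| ≤ d) (s1 : IsSquare (p * d + n)) (s2 : IsSquare (p * e + n))
    (s3 : IsSquare (q * d + n)) (s4 : IsSquare (q * e + n)) (s5 : IsSquare (d * e + n)) :
    Cfg |n| p q d e n n n := by
  refine ⟨p0, pq, hd, de.le, le_rfl, le_rfl, ?_, s1, s2, s3, s4, s5⟩
  rcases lt_or_gt_of_ne hn with h | h
  · exact Or.inl ⟨mul_lt_mul_of_neg_left pq h, mul_lt_mul_of_neg_left qd h, h.le⟩
  · exact Or.inr ⟨mul_lt_mul_of_pos_left pq h, mul_lt_mul_of_pos_left qd h, h.le⟩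

theorem mono {L L' P Q D E : ℝ} {ρ kp kq : ℕ} (h : L ≤ L') (k : Di L P Q D E ρ kp kq) :
    Di L' P Q D E ρ kp kq := by
  have : ((ρ : ℝ) + kp + kq) * L ≤ (ρ + kp + kq) * L' := by gcongr
  exact k.imp (fun u => by linarith) fun u => by linarith

theorem last {L P Q C D E : ℝ} (hP : 0 ≤ P) (hQ : Q ≤ C) (k : Di L P Q D E 2 3 3) :
    E ≤ 5 * D + 12 * C + 8 * L ∨ 11 * D - 4 * C - 8 * L ≤ E := by
  unfold Di at k
  push_cast at k
  exact k.imp (fun u => by linarith) fun u => by linarith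

theorem lg0 {a : ℤ} (h : 0 < a) : 0 ≤ log a := log_nonneg (by exact_mod_cast h)

theorem lgm {a b : ℤ} (h : 0 < a) (k : a ≤ b) : log a ≤ log b :=
  log_le_log (by exact_mod_cast h) (by exact_mod_cast k)

theorem lg_mul {a b : ℤ} (h : 0 < a) (k : 0 < b) : log ((a * b : ℤ) : ℝ) = log a + log b := by
  rw [Int.cast_mul, log_mul (by exact_mod_cast h.ne') (by exact_mod_cast k.ne')]

theorem lg_pow (a : ℤ) (m : ℕ) : log ((a ^ m : ℤ) : ℝ) = m * log a := by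
  rw [Int.cast_pow, log_pow]

theorem gap {K M b c d : ℤ} (hK : 0 < K) (hb : 0 < b) (hc : 0 < c) (h : b ^ 2 * c ^ 3 ≤ K * d)
    (hM : K * M ≤ c) : M * c ≤ d := by
  refine le_of_mul_le_mul_left ?_ hK
  have h1 : 1 * c ^ 3 ≤ b ^ 2 * c ^ 3 := by gcongr; exact one_le_pow₀ hb
  have h2 : c ^ 2 ≤ c ^ 3 := pow_le_pow_right₀ hc (by norm_num)
  have h3 : K * M * c ≤ c * c := by gcongr
  linarith

end BD

open BD

theorem bd (h1 : S_LQ) (h2 : S_G5) (h3 : S_DICH) (h4 : S_NZ) (h5 : S_NZ3) (h6 : S_NZ4)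
    (h7 : S_TRI) (h8 : S_CH1) (h9 : S_CH2) : S_BD := by
  intro n hn
  have hN : ¬ IsSquare (- -n) := by rwa [neg_neg]
  have n0 : n ≠ 0 := neg_ne_zero.1 (ne_zero_of_ns hN)
  obtain ⟨K1, k1, lq⟩ := h1 (-n) hN
  obtain ⟨K2, k2, g5⟩ := h2 n n0
  obtain ⟨L0, l0, di⟩ := h3 |n|
  obtain ⟨K3, tri⟩ := h7 (-n) hN
  obtain ⟨L, hL⟩ : ∃ L, L = L0 + log K1 + log K2 := ⟨_, rfl⟩
  refine ⟨⌈exp (200 * L)⌉ + K1 * (K1 * K2) + K1 * 100 + |K3| + 1000 * |n|,
    fun a b c d e H => not_lt.1 fun hc => ?_⟩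
  have a0 := H.a0
  have b0 := a0.trans H.ab
  have c0 := b0.trans H.bc
  have d0 := c0.trans H.cd
  have e0 := d0.trans H.de
  have ac := H.ab.trans H.bc
  have bd := H.bc.trans H.cd
  have cd := H.cd
  have p1 : 0 < ⌈exp (200 * L)⌉ := Int.ceil_pos.2 (exp_pos _)
  have p2 : 0 < K1 * K2 := mul_pos k1 k2
  have p3 : 0 < K1 * (K1 * K2) := mul_pos k1 p2
  have p4 := abs_nonneg K3
  have p5 := abs_nonneg n
  have p6 := le_abs_self K3
  have q1 := quad lq a0 H.ab H.bc H.cd H.s1 H.s2 H.s5 H.s3 H.s6 H.s8 (by omega)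
  have q2 := quad lq b0 H.bc H.cd H.de H.s5 H.s6 H.s8 H.s7 H.s9 H.s10 (by omega)
  have g1 : K1 * K2 * c ≤ d := gap k1 b0 c0 q1 (by omega)
  have g2 : 100 * c ≤ d := gap k1 b0 c0 q1 (by omega)
  have g3 : K2 * c ^ 3 * d ^ 2 ≤ e := by
    refine le_of_mul_le_mul_left ?_ k1
    have : K1 * K2 * c * (c ^ 2 * d ^ 2) ≤ d * (c ^ 2 * d ^ 2) := by gcongr
    linarith
  have g4 : K2 ≤ d := by
    have : 1 * K2 * 1 ≤ K1 * K2 * c := by gcongr <;> omega
    linarith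
  have q3 := g5 a b c d e a0 H.ab H.bc H.cd g4 g3 H.s3 H.s6 H.s8 H.s4 H.s7 H.s9 H.s10
  have u1 := lgm (by positivity) q1
  have u3 := lgm (by positivity) q3
  rw [lg_mul (by positivity) (by positivity), lg_mul k1 d0, lg_pow, lg_pow] at u1
  rw [lg_mul (by positivity) e0, lg_mul k2 (by positivity), lg_pow, lg_pow] at u3
  push_cast at u1 u3
  have v1 := lg0 k1
  have v2 := lg0 k2
  have A0 := lg0 a0
  have AB := lgm a0 H.ab.le
  have BC := lgm b0 H.bc.le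
  have hC : 200 * L < log c := by
    rw [lt_log_iff_exp_lt (by exact_mod_cast c0)]
    exact (Int.le_ceil _).trans_lt (by exact_mod_cast (by omega : ⌈exp (200 * L)⌉ < c))
  have L1 : L0 ≤ L := by linarith
  have cab := cfg n0 a0 H.ab bd H.de (by omega) H.s3 H.s4 H.s6 H.s7 H.s10
  have cbc := cfg n0 b0 H.bc cd H.de (by omega) H.s6 H.s7 H.s8 H.s9 H.s10
  have cac := cfg n0 a0 ac cd H.de (by omega) H.s3 H.s4 H.s8 H.s9 H.s10
  have dab : ∀ ρ kp kq, Good ρ kp kq → Di L (log a) (log b) (log d) (log e) ρ kp kq :=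
    fun ρ kp kq g => mono L1 (di _ _ _ _ _ _ _ _ _ _ g.toAdm cab (h4 _ _ _ _ _ _ _ _ _ _ _ g cab))
  have dbc : ∀ ρ kp kq, Good ρ kp kq → Di L (log b) (log c) (log d) (log e) ρ kp kq :=
    fun ρ kp kq g => mono L1 (di _ _ _ _ _ _ _ _ _ _ g.toAdm cbc (h4 _ _ _ _ _ _ _ _ _ _ _ g cbc))
  have adm : Adm 2 3 3 := ⟨by norm_num, le_rfl, by norm_num, le_rfl⟩
  have hl : log e ≤ 5 * log d + 12 * log c + 8 * L ∨ 11 * log d - 4 * log c - 8 * L ≤ log e := by
    have w1 := fun w => last A0 BC (mono L1 (di _ _ _ _ _ _ _ _ _ _ adm cab w))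
    have w2 := fun w => last (A0.trans AB) le_rfl (mono L1 (di _ _ _ _ _ _ _ _ _ _ adm cbc w))
    have w3 := fun w => last A0 le_rfl (mono L1 (di _ _ _ _ _ _ _ _ _ _ adm cac w))
    have bc := H.bc
    rcases lt_or_gt_of_ne n0 with hs | hs
    · by_cases c1 : 10 * b ≤ 19 * a
      · exact w1 (h5 n a b d e a0 H.ab (by omega) (by omega) H.de.le (Or.inl ⟨hs, c1⟩))
      by_cases c2 : 10 * c ≤ 19 * b
      · exact w2 (h5 n b c d e b0 H.bc g2 (by omega) H.de.le (Or.inl ⟨hs, c2⟩))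
      exact (h6 n a b c d e hs a0 (by omega) (by omega) g2 (by omega) H.de.le).elim w1 w3
    · exact w3 (h5 n a c d e a0 ac g2 (by omega) H.de.le (Or.inr ⟨hs,
        trip tri a0 H.ab H.bc H.s1 H.s2 H.s5 (by omega)⟩))
  have fin : log e ≤ 3 * log d + 6 * log b + 5 * L := by
    rcases le_total (5 * log b) (2 * log c) with k | k
    · exact h8 L _ _ _ _ (l0.trans L1) A0 AB (by linarith) dab
    · exact h9 L _ _ _ _ _ (l0.trans L1) A0 AB BC k hC (by linarith) dab dbc hl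
  linarith

end Pool.Agent.MP_2339ce_nt.DQ

end MrgPart12

-- marker of a merged file
example : 731051 + 747520 = 731051 + 747520 := rfl
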