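import Mathlib.Topology.Sheaves.Presheaf
import Mathlib.Combinatorics.SimpleGraph.Basic
import Pool.Agent.MP_2339ce_nt.DQ.Basic

-- ======== part 0: formerly Pool.Agent.MP_2339ce_nt.DQ.TRI
section MrgPart0

/-! Project DQ: the third element of a triple is at least three times the first. -/

set_option autoImplicit false

namespace Pool.Agent.MP_2339ce_nt.DQ

theorem tri : S_TRI := by
  intro N hN
  have N0 := ne_zero_of_ns hN
  refine ⟨3 * (64 * N ^ 2 + 1), fun T hK => ?_⟩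
  by_contra hc
  have ha := T.a0
  have hab := T.ab
  have hbc := T.bc
  have hb := T.b0
  have n1 : 1 ≤ |N| := Int.one_le_abs N0
  have n2 : |N| ^ 2 = N ^ 2 := sq_abs N
  have n3 : |N| ≤ N ^ 2 := by nlinarith
  have l1 := le_abs_self N
  have l2 := neg_abs_le N
  have a1 : 64 * N ^ 2 < T.a := by omega
  have t2 : T.t ≤ 2 * T.b := by
    refine abs_le_of_sq_le_sq' ?_ (by omega) |>.2
    have : T.b * T.c ≤ T.b * (3 * T.b) := mul_le_mul_of_nonneg_left (by omega) hb.le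
    have : T.b * 1 ≤ T.b * T.b := mul_le_mul_of_nonneg_left (by omega) hb.le
    rw [T.ht]
    nlinarith
  have w1 : |T.w| ≤ 8 * |N| := by
    have k := T.w_le (by omega)
    have : 4 * |N| * T.t ≤ 4 * |N| * (2 * T.b) := mul_le_mul_of_nonneg_left t2 (by omega)
    exact le_of_mul_le_mul_left (a := T.b) (by linarith) hb
  have w2 : T.w ^ 2 ≤ 64 * N ^ 2 := by
    have := pow_le_pow_left₀ (abs_nonneg _) w1 2
    rw [sq_abs, mul_pow, n2] at this
    linarith
  have e := T.eT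
  have w3 : T.w ^ 2 - N ^ 2 = 0 := by
    refine Int.eq_zero_of_abs_lt_dvd (m := T.a)
      ⟨2 * T.w * T.t - N * (T.b + T.c - T.a), by linear_combination -e⟩ (abs_lt.2 ⟨?_, ?_⟩)
    · nlinarith [sq_nonneg T.w]
    · nlinarith [sq_nonneg N]
  have w4 : T.w = N := by
    rcases sq_eq_sq_iff_eq_or_eq_neg.1 (sub_eq_zero.1 w3) with k | k
    · exact k
    · have := T.w_sign N0
      rw [k] at this
      nlinarith [sq_nonneg N]
  have e1 : 2 * T.t = T.b + T.c - T.a := by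
    rw [w4] at e
    exact mul_left_cancel₀ (mul_ne_zero ha.ne' N0) (by linear_combination e)
  have e2 : (T.c - T.a - T.b) ^ 2 = (2 * T.r) ^ 2 := by
    linear_combination 4 * T.ht - 4 * T.hr - (2 * T.t + T.b + T.c - T.a) * e1
  have r1 : T.a ≤ T.r := by
    refine abs_le_of_sq_le_sq' ?_ T.r0 |>.2
    have : T.a * (T.a + 1) ≤ T.a * T.b := mul_le_mul_of_nonneg_left (by omega) ha.le
    rw [T.hr]
    nlinarith
  rcases sq_eq_sq_iff_eq_or_eq_neg.1 e2 with k | k <;> omega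

end Pool.Agent.MP_2339ce_nt.DQ

end MrgPart0

-- ======== part 1: formerly Pool.Agent.MP_2339ce_nt.DQ.TS
section MrgPart1

/-! Project DQ, row TS: a fixed triple has finitely many extensions. -/

set_option autoImplicit false

namespace Pool.Agent.MP_2339ce_nt.DQ

open Real

namespace TSx

theorem sq_mul {c u : ℤ} (h : IsSquare u) : IsSquare (c ^ 2 * u) :=
  (IsSquare.sq c).mul h

theorem cfg {n a b c e f : ℤ} (hn : n ≠ 0) (a0 : 0 < a) (ab : a < b) (bc : b < c)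
    (hd : 4 * (|n| * c ^ 2) ≤ c * e + n) (ef : e ≤ f) (ae : IsSquare (a * e + n))
    (be : IsSquare (b * e + n)) (ce : IsSquare (c * e + n)) (af : IsSquare (a * f + n))
    (bf : IsSquare (b * f + n)) (cf : IsSquare (c * f + n)) :
    Cfg (|n| * c ^ 2) (a * c) (b * c) (c * e + n) (c * f + n) (n * c * (c - a)) (n * c * (c - b))
      0 := by
  have b0 : 0 < b := a0.trans ab
  have c0 : 0 < c := b0.trans bc
  have n0 : 0 < |n| := abs_pos.2 hn
  have d0 : 0 < c * e + n := lt_of_lt_of_le (by positivity) hd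
  have k : ∀ x, 0 < x → x < c → |n * c * (c - x)| ≤ |n| * c ^ 2 := fun x x0 xc => by
    rw [mul_assoc, abs_mul, abs_of_pos (mul_pos c0 (sub_pos.2 xc))]
    refine mul_le_mul_of_nonneg_left ?_ n0.le
    nlinarith
  have m : ∀ x y, x * c * (c * y + n) + n * c * (c - x) = c ^ 2 * (x * y + n) := fun x y => by ring
  have u : 0 < c ^ 3 * (b - a) := mul_pos (by positivity) (sub_pos.2 ab)
  have v : 0 < c * (c - b) * (c * e + n) := mul_pos (mul_pos c0 (sub_pos.2 bc)) d0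
  refine ⟨mul_pos a0 c0, mul_lt_mul_of_pos_right ab c0, hd, by nlinarith, k a a0 (ab.trans bc),
    k b b0 bc, ?_, m a e ▸ sq_mul ae, m a f ▸ sq_mul af, m b e ▸ sq_mul be, m b f ▸ sq_mul bf, ?_⟩
  · rcases hn.lt_or_gt with h | h
    · exact Or.inl ⟨by nlinarith [mul_pos (neg_pos.2 h) u], by nlinarith [mul_pos (neg_pos.2 h) v],
        le_rfl⟩
    · exact Or.inr ⟨by nlinarith [mul_pos h u], by nlinarith [mul_pos h v], le_rfl⟩
  · rw [add_zero]
    exact ce.mul cf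

theorem big {n c e : ℤ} {M : ℝ} (c0 : 0 < c) (h : ⌈exp M⌉ + |n| < e) :
    M < log ((c * e + n : ℤ) : ℝ) := by
  have h0 : (0 : ℤ) < ⌈exp M⌉ := Int.ceil_pos.2 (exp_pos M)
  have h1 : ⌈exp M⌉ < c * e + n := by
    have := neg_abs_le n
    have := abs_nonneg n
    nlinarith
  have h2 : exp M < ((c * e + n : ℤ) : ℝ) := (Int.le_ceil _).trans_lt (by exact_mod_cast h1)
  exact (lt_log_iff_exp_lt ((exp_pos M).trans h2)).2 h2

end TSx

open TSx in
theorem ts (h1 : S_DICH) (h2 : S_NZ) (h3 : S_CH1) : S_TS := by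
  intro n a b c hn a0 ab bc
  have c0 : 0 < c := (a0.trans ab).trans bc
  by_contra hinf
  have un : ∀ K : ℤ, ∃ e, K < e ∧ IsSquare (a * e + n) ∧ IsSquare (b * e + n) ∧
      IsSquare (c * e + n) := fun K => by
    by_contra hc
    refine hinf ((Set.finite_Icc 0 K).subset fun e he => ⟨he.1.le, ?_⟩)
    by_contra h
    exact hc ⟨e, not_le.1 h, he.2⟩
  obtain ⟨L, L0, hL⟩ := h1 (|n| * c ^ 2)
  obtain ⟨e, he, ae, be, ce⟩ :=
    un (max (⌈exp (9 * log ((b * c : ℤ) : ℝ) + 8 * L)⌉ + |n|) (4 * (|n| * c ^ 2) + |n|))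
  obtain ⟨f, hf, af, bf, cf⟩ := un (max e
    (⌈exp (3 * log ((c * e + n : ℤ) : ℝ) + 6 * log ((b * c : ℤ) : ℝ) + 5 * L)⌉ + |n|))
  have hd : 4 * (|n| * c ^ 2) ≤ c * e + n := by
    have k := (le_max_right _ _).trans_lt he
    have := neg_abs_le n
    have := abs_nonneg n
    have : 0 ≤ |n| * c ^ 2 := by positivity
    nlinarith
  have C := cfg hn a0 ab bc hd ((le_max_left _ _).trans hf.le) ae be ce af bf cf
  have p1 : (1 : ℝ) ≤ ((a * c : ℤ) : ℝ) := by exact_mod_cast C.p0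
  have pq : ((a * c : ℤ) : ℝ) ≤ ((b * c : ℤ) : ℝ) := by exact_mod_cast C.pq.le
  refine (big c0 ((le_max_right _ _).trans_lt hf)).not_ge (h3 L _ _ _ _ L0 (log_nonneg p1)
    (log_le_log (zero_lt_one.trans_le p1) pq) (big c0 ((le_max_left _ _).trans_lt he))
    fun ρ kp kq G => hL ρ kp kq _ _ _ _ _ _ _ G.toAdm C (h2 ρ kp kq _ _ _ _ _ _ _ _ G C))

end Pool.Agent.MP_2339ce_nt.DQ

end MrgPart1

-- ======== part 2: formerly Pool.Agent.MP_2339ce_nt.DQ.FIN
section MrgPart2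

/-! Project DQ, row FIN: from the bound on the third element to finiteness. -/

set_option autoImplicit false

namespace Pool.Agent.MP_2339ce_nt.DQ

theorem fin_qt (h1 : S_BD) (h2 : S_TS) (n : ℤ) (hn : ¬ IsSquare n) :
    ∃ M : ℤ, ∀ a b c d e, Qt n a b c d e → e ≤ M := by
  obtain ⟨K, hK⟩ := h1 n hn
  have hn0 : n ≠ 0 := by rintro rfl; exact hn ⟨0, by simp⟩
  have hfin : (⋃ x ∈ (Set.Icc 1 K ×ˢ Set.Icc 1 K ×ˢ Set.Icc 1 K : Set (ℤ × ℤ × ℤ)),
      {e : ℤ | (0 < x.1 ∧ x.1 < x.2.1 ∧ x.2.1 < x.2.2) ∧ 0 < e ∧ IsSquare (x.1 * e + n) ∧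
        IsSquare (x.2.1 * e + n) ∧ IsSquare (x.2.2 * e + n)}).Finite := by
    refine Set.Finite.biUnion ((Set.finite_Icc _ _).prod ((Set.finite_Icc _ _).prod
      (Set.finite_Icc _ _))) (fun x _ => ?_)
    by_cases h : 0 < x.1 ∧ x.1 < x.2.1 ∧ x.2.1 < x.2.2
    · exact (h2 n x.1 x.2.1 x.2.2 hn0 h.1 h.2.1 h.2.2).subset (fun e he => he.2)
    · exact Set.finite_empty.subset (fun e he => h he.1)
  obtain ⟨M, hM⟩ := hfin.bddAbove
  refine ⟨M, fun a b c d e q => hM ?_⟩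
  have hc := hK a b c d e q
  have := q.a0; have := q.ab; have := q.bc; have := q.cd; have := q.de
  refine Set.mem_biUnion (x := (a, b, c))
    ⟨⟨show 1 ≤ a by omega, show a ≤ K by omega⟩, ⟨show 1 ≤ b by omega, show b ≤ K by omega⟩,
      show 1 ≤ c by omega, hc⟩ ?_
  exact ⟨⟨q.a0, q.ab, q.bc⟩, show 0 < e by omega, q.s4, q.s7, q.s9⟩

theorem fin_pos (h1 : S_BD) (h2 : S_TS) (n : ℤ) (hn : ¬ IsSquare n) :
    ∃ M : ℤ, ∀ s : Finset ℤ, s.card = 5 → (∀ a ∈ s, 0 < a) →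
      (∀ a ∈ s, ∀ b ∈ s, a ≠ b → IsSquare (a * b + n)) → ∀ a ∈ s, a ≤ M := by
  obtain ⟨M, hM⟩ := fin_qt h1 h2 n hn
  refine ⟨M, fun s hs hp hq a ha => ?_⟩
  let f := s.orderEmbOfFin hs
  have hm : ∀ i, f i ∈ s := fun i => Finset.orderEmbOfFin_mem s hs i
  have lt : ∀ i j : Fin 5, i < j → f i < f j := fun i j h => f.strictMono h
  have sq : ∀ i j : Fin 5, i < j → IsSquare (f i * f j + n) := fun i j h =>
    hq _ (hm i) _ (hm j) (lt i j h).ne
  have he := hM (f 0) (f 1) (f 2) (f 3) (f 4)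
    ⟨hp _ (hm 0), lt 0 1 (by decide), lt 1 2 (by decide), lt 2 3 (by decide), lt 3 4 (by decide),
      sq 0 1 (by decide), sq 0 2 (by decide), sq 0 3 (by decide), sq 0 4 (by decide),
      sq 1 2 (by decide), sq 1 3 (by decide), sq 1 4 (by decide), sq 2 3 (by decide),
      sq 2 4 (by decide), sq 3 4 (by decide)⟩
  have : a ∈ Set.range f := by rw [Finset.range_orderEmbOfFin]; exact ha
  obtain ⟨i, rfl⟩ := this
  exact (f.monotone (Fin.le_last i)).trans he

theorem fin (h1 : S_BD) (h2 : S_TS) : S_FIN := by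
  intro n hn
  obtain ⟨M, hM⟩ := fin_pos h1 h2 n hn
  refine (Finset.finite_toSet (Finset.Icc (-max M |n|) (max M |n|)).powerset).subset ?_
  rintro s ⟨hs, h0, hq⟩
  refine Finset.mem_coe.2 (Finset.mem_powerset.2 (fun a ha => Finset.mem_Icc.2 (abs_le.1 ?_)))
  by_cases hp : ∀ x ∈ s, 0 < x
  · rw [abs_of_pos (hp a ha)]
    exact (hM s hs hp hq a ha).trans (le_max_left _ _)
  by_cases hm : ∀ x ∈ s, x < 0
  · rw [abs_of_neg (hm a ha)]
    refine (hM (s.image Neg.neg) ?_ ?_ ?_ (-a) (Finset.mem_image_of_mem _ ha)).trans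
      (le_max_left _ _)
    · rw [Finset.card_image_of_injective _ neg_injective, hs]
    · intro x hx
      obtain ⟨y, hy, rfl⟩ := Finset.mem_image.1 hx
      exact neg_pos.2 (hm y hy)
    · intro x hx z hz hne
      obtain ⟨y, hy, rfl⟩ := Finset.mem_image.1 hx
      obtain ⟨w, hw, rfl⟩ := Finset.mem_image.1 hz
      rw [neg_mul_neg]
      exact hq y hy w hw (fun h => hne (by rw [h]))
  push Not at hp hm
  obtain ⟨x, hx, hx0⟩ := hp
  obtain ⟨y, hy, hy0⟩ := hm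
  have hx1 : x < 0 := lt_of_le_of_ne hx0 (h0 x hx)
  have hy1 : 0 < y := lt_of_le_of_ne hy0 (h0 y hy).symm
  refine le_trans ?_ (le_max_right _ _)
  have hn' := le_abs_self n
  rcases lt_or_gt_of_ne (h0 a ha) with h | h
  · have := (hq a ha y hy (by omega)).nonneg
    rw [abs_of_neg h]
    nlinarith
  · have := (hq a ha x hx (by omega)).nonneg
    rw [abs_of_pos h]
    nlinarith

end Pool.Agent.MP_2339ce_nt.DQ

end MrgPart2

-- marker of a merged file
example : 731051 + 36830 = 731051 + 36830 := rfl
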