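import Mathlib.Data.Int.SuccPred
import Mathlib.Topology.Sheaves.Presheaf
import Mathlib.Algebra.Ring.IsFormallyReal
import Mathlib.NumberTheory.Real.Irrational
import Pool.Agent.MP_2339ce_nt.DQ.Basic

-- ======== part 0: formerly Pool.Agent.MP_2339ce_nt.DQ.Q6
section MrgPart0

/-! Project DQ: in the window the first element is bounded. -/

set_option autoImplicit false

namespace Pool.Agent.MP_2339ce_nt.DQ

namespace Q6

variable {N : ℤ}

theorem not_two {m N : ℤ} (hN : N ≠ 0) : 2 * m ^ 2 ≠ N ^ 2 := fun h => by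
  have hm : (m : ℝ) ≠ 0 := by
    rintro h0
    rw [Int.cast_eq_zero.1 h0] at h
    exact hN (pow_eq_zero_iff two_ne_zero |>.1 (by linarith))
  refine irrational_sqrt_two ⟨|(N : ℚ) / m|, ?_⟩
  push_cast
  rw [← Real.sqrt_sq_eq_abs]
  congr 1
  have : (2 : ℝ) * m ^ 2 = N ^ 2 := by exact_mod_cast h
  field_simp
  linarith

/-- the triple is regular -/
theorem close (T : Tr N) (hN : N ≠ 0) {M : ℤ} (hM : 1 ≤ M) (hn : |N| ≤ M) (hc : T.c ≤ M * T.b)
    (ha : 70 * M ^ 4 ≤ T.a) : (T.c - T.b) ^ 2 ≤ 18 * (T.a * T.b) := by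
  have a0 := T.a0; have b0 := T.b0; have ab := T.ab; have t0 := T.t0
  have n0 := abs_nonneg N; have n1 := neg_abs_le N
  have M4 : M ≤ M ^ 4 := le_self_pow₀ hM (by norm_num)
  have M2 : M ≤ M ^ 2 := le_self_pow₀ hM (by norm_num)
  have h1 : T.t ≤ 2 * M * T.b := by
    refine le_of_sq_le_sq_int (by positivity) ?_
    have k1 : T.b * T.c ≤ T.b * (M * T.b) := by gcongr
    have k2 : M * T.b ^ 2 ≤ M ^ 2 * T.b ^ 2 := by gcongr
    have k3 : M ^ 2 * 1 ≤ M ^ 2 * T.b ^ 2 := by gcongr; exact one_le_pow₀ b0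
    have k4 : 0 ≤ M ^ 2 * T.b ^ 2 := by positivity
    rw [T.ht]; linarith
  have h2 : |T.w| ≤ 8 * M ^ 2 := by
    refine le_of_mul_le_mul_left ((T.w_le (by linarith)).trans ?_) b0
    calc 4 * |N| * T.t ≤ 4 * M * (2 * M * T.b) := by gcongr
      _ = _ := by ring
  have h3 : T.w ^ 2 ≤ 64 * M ^ 4 := by
    rw [← sq_abs]
    calc |T.w| ^ 2 ≤ (8 * M ^ 2) ^ 2 := by gcongr
      _ = _ := by ring
  have h4 : N ^ 2 ≤ M ^ 4 := by
    rw [← sq_abs]
    calc |N| ^ 2 ≤ (M ^ 2) ^ 2 := by gcongr; linarith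
      _ = _ := by ring
  have h5 : T.w ^ 2 - N ^ 2 = 0 :=
    Int.eq_zero_of_abs_lt_dvd (m := T.a) ⟨2 * T.w * T.t - N * (T.b + T.c - T.a), by
      linear_combination -T.eT⟩ (abs_lt.2 ⟨by nlinarith [sq_nonneg T.w], by nlinarith [sq_nonneg N]⟩)
  have h6 : T.w = N := by
    rcases sq_eq_sq_iff_eq_or_eq_neg.1 (sub_eq_zero.1 h5) with e | e
    · exact e
    · have := T.w_sign hN
      rw [e] at this
      nlinarith [sq_nonneg N]
  have h7 : 2 * T.t = T.b + T.c - T.a := by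
    have e := T.eT
    rw [h6] at e
    exact mul_left_cancel₀ (mul_ne_zero a0.ne' hN) (by linear_combination e)
  have h8 : (T.c - T.a - T.b) ^ 2 = 4 * (T.a * T.b - N) := by
    linear_combination 4 * T.ht - (2 * T.t + T.b + T.c - T.a) * h7
  have k1 : T.a * T.a ≤ T.a * T.b := by gcongr
  have k2 : T.a * 1 ≤ T.a * T.b := by gcongr; omega
  nlinarith [sq_nonneg (T.c - T.b - 2 * T.a)]
where
  le_of_sq_le_sq_int {u v : ℤ} (hv : 0 ≤ v) (h : u ^ 2 ≤ v ^ 2) : u ≤ v :=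
    (le_abs_self u).trans (abs_le_of_sq_le_sq' h hv |> fun k => abs_le.2 k)

variable (q : Qd N) {M : ℤ}

theorem stepB (hM : 1 ≤ M) (hn : |N| ≤ M) (m1 : 1 ≤ q.m0) (m2 : q.m0 ≤ M)
    (hP : |q.P| ≤ M * q.a * q.c) (hg : |q.g| ≤ M) (hD : |q.D| ≤ M * q.a ^ 2) (hh : q.h = 0) :
    q.a * q.c * |4 * q.D * (4 * q.m0 ^ 2 - N ^ 2) - 16 * q.m0 * N ^ 2 * q.a ^ 2| ≤
      37 * M ^ 4 * (q.a * q.c) + 4 * M ^ 3 * q.a ^ 4 := by
  have a0 := q.a0; have c0 := q.c0; have ac := q.ac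
  have e : q.a * q.c * (4 * q.D * (4 * q.m0 ^ 2 - N ^ 2) - 16 * q.m0 * N ^ 2 * q.a ^ 2) =
      16 * q.m0 * N ^ 3 * (q.a * (q.c - q.a)) - 4 * q.m0 * N * q.P * q.g - q.m0 * q.g ^ 2 -
        4 * q.m0 * q.D ^ 2 := by
    have e5 := q.e5
    rw [hh] at e5
    linear_combination e5 - 4 * q.D * q.e6
  have p0 : 0 < q.a * q.c := by positivity
  have mm : |q.m0| ≤ M := by rwa [abs_of_nonneg (by omega)]
  have t1 : |16 * q.m0 * N ^ 3 * (q.a * (q.c - q.a))| ≤ 16 * M * M ^ 3 * (q.a * q.c) := by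
    have : |q.a * (q.c - q.a)| ≤ q.a * q.c := by
      rw [abs_of_nonneg (mul_nonneg a0.le (by omega))]; gcongr; omega
    rw [abs_mul, abs_mul, abs_mul, abs_pow, abs_of_pos (by norm_num : (0 : ℤ) < 16)]; gcongr
  have t2 : |4 * q.m0 * N * q.P * q.g| ≤ 4 * M * M * (M * q.a * q.c) * M := by
    rw [abs_mul, abs_mul, abs_mul, abs_mul, abs_of_pos (by norm_num : (0 : ℤ) < 4)]; gcongr
  have t3 : |q.m0 * q.g ^ 2| ≤ M ^ 4 * (q.a * q.c) := by
    rw [abs_mul, abs_pow]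
    calc |q.m0| * |q.g| ^ 2 ≤ M * M ^ 2 := by gcongr
      _ = M ^ 3 * 1 * 1 := by ring
      _ ≤ M ^ 3 * M * (q.a * q.c) := by gcongr; omega
      _ = _ := by ring
  have t4 : |4 * q.m0 * q.D ^ 2| ≤ 4 * M * (M * q.a ^ 2) ^ 2 := by
    rw [abs_mul, abs_mul, abs_pow, abs_of_pos (by norm_num : (0 : ℤ) < 4)]; gcongr
  have p1 : 0 ≤ M ^ 4 * (q.a * q.c) := by positivity
  rw [← abs_of_pos p0, ← abs_mul, e, abs_of_pos p0]
  rw [abs_le] at t1 t2 t3 t4 ⊢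
  constructor <;> linarith [t1.1, t1.2, t2.1, t2.2, t3.1, t3.2, t4.1, t4.2]

theorem stepC (hM : 1 ≤ M) (hn : |N| ≤ M) (m1 : 1 ≤ q.m0) (m2 : q.m0 ≤ M)
    (hP : q.a * q.c ≤ 4 * |N| * |q.P|) (hg : |q.g| ≤ M) (ha : M ≤ q.a) :
    |q.b * q.D - q.a * (4 * q.a * q.c * q.m0 + q.D)| ≤ 13 * M ^ 4 * q.b := by
  have a0 := q.a0; have b0 := q.b0; have c0 := q.c0; have ab := q.ab; have bc := q.bc
  obtain ⟨X, hX⟩ : ∃ X, X = N * q.P := ⟨_, rfl⟩
  have e0 : 4 * q.a * q.c * q.m0 + q.D = X := by rw [hX, Qd.D]; ring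
  have e : 2 * X * (q.b * q.D - q.a * X) = -(4 * q.a * X * N * q.m0) + 2 * q.a * N ^ 2 * q.m0 ^ 2 -
      2 * N ^ 3 * q.r ^ 2 * (q.b - q.a) - q.b * q.m0 * N * (2 * X) - q.b * q.m0 * N * q.g := by
    have hQ : q.Q = q.P - q.m0 := by rw [Qd.m0]; ring
    have e4 := q.e4
    rw [hQ] at e4
    rw [hX]
    linear_combination N * e4
  have x1 : q.a * q.c ≤ 4 * |X| := by rw [hX, abs_mul]; linarith
  have x0 : 1 ≤ |X| := by
    have : 0 < q.a * q.c := by positivity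
    omega
  have mm : |q.m0| ≤ M := by rwa [abs_of_nonneg (by omega)]
  have M2 : M ^ 2 ≤ M ^ 4 := pow_le_pow_right₀ hM (by norm_num)
  have M3 : M ^ 3 ≤ M ^ 4 := pow_le_pow_right₀ hM (by norm_num)
  have t1 : |4 * q.a * X * N * q.m0| ≤ 4 * (M ^ 4 * q.b * |X|) := by
    rw [abs_mul, abs_mul, abs_mul, abs_of_pos (by positivity : 0 < 4 * q.a)]
    calc 4 * q.a * |X| * |N| * |q.m0| ≤ 4 * q.b * |X| * M * M := by gcongr
      _ = 4 * (M ^ 2 * q.b * |X|) := by ring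
      _ ≤ _ := by gcongr
  have t2 : |2 * q.a * N ^ 2 * q.m0 ^ 2| ≤ 2 * (M ^ 4 * q.b * |X|) := by
    rw [abs_mul, abs_mul, abs_pow, abs_pow, abs_of_pos (by positivity : 0 < 2 * q.a)]
    calc 2 * q.a * |N| ^ 2 * |q.m0| ^ 2 ≤ 2 * q.b * M ^ 2 * M ^ 2 := by gcongr
      _ = 2 * (M ^ 4 * q.b * 1) := by ring
      _ ≤ _ := by gcongr
  have t3 : |2 * N ^ 3 * q.r ^ 2 * (q.b - q.a)| ≤ 16 * (M ^ 4 * q.b * |X|) := by
    have k1 : q.a * q.b ≤ q.a * q.c := by gcongr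
    have k2 : q.a * 1 ≤ q.a * q.c := by gcongr; omega
    have k3 : q.r ^ 2 ≤ 8 * |X| := by have := neg_abs_le N; rw [q.hr]; linarith
    rw [abs_mul, abs_mul, abs_mul, abs_pow, abs_of_nonneg (sq_nonneg q.r),
      abs_of_pos (sub_pos.2 ab), abs_two]
    calc 2 * |N| ^ 3 * q.r ^ 2 * (q.b - q.a) ≤ 2 * M ^ 3 * (8 * |X|) * q.b := by
          gcongr; omega
      _ = 16 * (M ^ 3 * q.b * |X|) := by ring
      _ ≤ _ := by gcongr
  have t4 : |q.b * q.m0 * N * (2 * X)| ≤ 2 * (M ^ 4 * q.b * |X|) := by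
    rw [abs_mul, abs_mul, abs_mul, abs_mul, abs_of_pos b0, abs_two]
    calc q.b * |q.m0| * |N| * (2 * |X|) ≤ q.b * M * M * (2 * |X|) := by gcongr
      _ = 2 * (M ^ 2 * q.b * |X|) := by ring
      _ ≤ _ := by gcongr
  have t5 : |q.b * q.m0 * N * q.g| ≤ M ^ 4 * q.b * |X| := by
    rw [abs_mul, abs_mul, abs_mul, abs_of_pos b0]
    calc q.b * |q.m0| * |N| * |q.g| ≤ q.b * M * M * M := by gcongr
      _ = M ^ 3 * q.b * 1 := by ring
      _ ≤ _ := by gcongr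
  have p1 : 0 ≤ M ^ 4 * q.b * |X| := by positivity
  have k : |2 * X * (q.b * q.D - q.a * X)| ≤ 26 * (M ^ 4 * q.b * |X|) := by
    rw [e]
    rw [abs_le] at t1 t2 t3 t4 t5 ⊢
    constructor <;> linarith [t1.1, t1.2, t2.1, t2.2, t3.1, t3.2, t4.1, t4.2, t5.1, t5.2]
  rw [abs_mul, abs_mul, abs_two] at k
  rw [e0]
  exact le_of_mul_le_mul_left (a := 2 * |X|) (by linarith) (by omega)

end Q6

theorem q6 : S_Q6 := by
  intro N hN K0
  have N0 := ne_zero_of_ns hN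
  obtain ⟨M, hM⟩ : ∃ M, M = |K0| + |N| + 1 := ⟨_, rfl⟩
  have k0 := abs_nonneg K0; have k1 := le_abs_self K0; have n0 := abs_nonneg N
  have M1 : 1 ≤ M := by omega
  have hn : |N| ≤ M := by omega
  have hK : K0 ≤ M := by omega
  obtain ⟨L, hL⟩ : ∃ L, L = 125 * M ^ 4 := ⟨_, rfl⟩
  have M4 : M ≤ M ^ 4 := le_self_pow₀ M1 (by norm_num)
  have M3 : M ^ 3 ≤ M ^ 4 := pow_le_pow_right₀ M1 (by norm_num)
  have L1 : 1 ≤ L := by omega
  have L2 : L ≤ L ^ 2 := le_self_pow₀ L1 (by norm_num)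
  refine ⟨18 * L ^ 2, fun q hb hW hh hm hg hD hc => ?_⟩
  by_contra ha
  push Not at ha
  have a0 := q.a0; have b0 := q.b0; have c0 := q.c0; have bc := q.bc; have m1 := hW.m
  have hD' : |q.D| ≤ M * q.a ^ 2 := hD.trans (by gcongr)
  have A := Q6.close q.toTr N0 M1 hn (hc.trans (by gcongr)) (by omega)
  have B := Q6.stepB q M1 hn m1 (hm.trans hK) (hW.up.trans (by gcongr)) (hg.trans hK) hD' hh
  have C := Q6.stepC q M1 hn m1 (hm.trans hK) hW.low (hg.trans hK) (by omega)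
  have A1 : L * (q.c - q.b) ≤ q.b := by
    refine Q6.close.le_of_sq_le_sq_int b0.le ?_
    calc (L * (q.c - q.b)) ^ 2 = L ^ 2 * (q.c - q.b) ^ 2 := by ring
      _ ≤ L ^ 2 * (18 * (q.a * q.b)) := by gcongr
      _ = 18 * L ^ 2 * q.a * q.b := by ring
      _ ≤ q.b * q.b := by gcongr
      _ = _ := by ring
  have La : L * q.a ≤ q.b := le_trans (by gcongr; omega) hb
  have LL : L * L ≤ q.a ^ 2 := by rw [sq]; gcongr <;> omega
  obtain ⟨δ, hδ⟩ : ∃ δ, δ = q.D - 4 * q.a ^ 2 * q.m0 := ⟨_, rfl⟩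
  have C1 : L * |δ| ≤ 6 * M * q.a ^ 2 := by
    have e : q.b * δ = (q.b * q.D - q.a * (4 * q.a * q.c * q.m0 + q.D)) +
        4 * q.a ^ 2 * q.m0 * (q.c - q.b) + q.a * q.D := by rw [hδ]; ring
    have t1 : q.b * |δ| ≤ 13 * M ^ 4 * q.b + 4 * q.a ^ 2 * M * (q.c - q.b) + q.a * (M * q.a ^ 2) := by
      rw [← abs_of_pos b0, ← abs_mul, e, abs_of_pos b0]
      refine (abs_add_three _ _ _).trans (add_le_add (add_le_add C ?_) ?_)
      · have := sub_pos.2 bc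
        rw [abs_of_nonneg (by positivity)]; gcongr; omega
      · rw [abs_mul, abs_of_pos a0]; gcongr
    have t2 : L * (13 * M ^ 4) ≤ M * q.a ^ 2 := by
      calc L * (13 * M ^ 4) ≤ L * L := by gcongr; omega
        _ ≤ 1 * q.a ^ 2 := by linarith
        _ ≤ _ := by gcongr
    refine le_of_mul_le_mul_left ?_ b0
    calc q.b * (L * |δ|) = L * (q.b * |δ|) := by ring
      _ ≤ L * (13 * M ^ 4 * q.b + 4 * q.a ^ 2 * M * (q.c - q.b) + q.a * (M * q.a ^ 2)) := by gcongr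
      _ = L * (13 * M ^ 4) * q.b + 4 * q.a ^ 2 * M * (L * (q.c - q.b)) + L * q.a * (M * q.a ^ 2) := by
          ring
      _ ≤ M * q.a ^ 2 * q.b + 4 * q.a ^ 2 * M * q.b + q.b * (M * q.a ^ 2) := by gcongr
      _ = _ := by ring
  obtain ⟨Y, hY⟩ : ∃ Y, Y = 4 * q.D * (4 * q.m0 ^ 2 - N ^ 2) - 16 * q.m0 * N ^ 2 * q.a ^ 2 := ⟨_, rfl⟩
  rw [← hY] at B
  have B1 : L * |Y| ≤ 5 * M ^ 3 * q.a ^ 2 := by
    have t2 : L * (37 * M ^ 4) ≤ M ^ 3 * q.a ^ 2 := by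
      calc L * (37 * M ^ 4) ≤ L * L := by gcongr; omega
        _ ≤ 1 * q.a ^ 2 := by linarith
        _ ≤ _ := by gcongr; exact one_le_pow₀ M1
    have t3 : L * q.a ≤ q.c := by omega
    refine le_of_mul_le_mul_left (a := q.a * q.c) ?_ (by positivity)
    calc q.a * q.c * (L * |Y|) = L * (q.a * q.c * |Y|) := by ring
      _ ≤ L * (37 * M ^ 4 * (q.a * q.c) + 4 * M ^ 3 * q.a ^ 4) := by gcongr
      _ = L * (37 * M ^ 4) * (q.a * q.c) + 4 * M ^ 3 * q.a ^ 3 * (L * q.a) := by ring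
      _ ≤ M ^ 3 * q.a ^ 2 * (q.a * q.c) + 4 * M ^ 3 * q.a ^ 3 * q.c := by gcongr
      _ = _ := by ring
  have hE : |4 * q.m0 ^ 2 - N ^ 2| ≤ 4 * M ^ 2 := by
    have u1 : q.m0 ^ 2 ≤ M ^ 2 := by gcongr; omega
    have u2 : N ^ 2 ≤ M ^ 2 := by rw [← sq_abs]; gcongr
    exact abs_le.2 ⟨by nlinarith [sq_nonneg q.m0, sq_nonneg M], by nlinarith [sq_nonneg N]⟩
  have hF : 1 ≤ |2 * q.m0 ^ 2 - N ^ 2| := Int.one_le_abs (sub_ne_zero.2 (Q6.not_two N0))
  have e : 32 * q.a ^ 2 * q.m0 * (2 * q.m0 ^ 2 - N ^ 2) = Y - 4 * δ * (4 * q.m0 ^ 2 - N ^ 2) := by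
    rw [hY, hδ]; ring
  have f1 : 32 * q.a ^ 2 ≤ |Y| + 4 * |δ| * (4 * M ^ 2) := by
    calc 32 * q.a ^ 2 = 32 * q.a ^ 2 * 1 * 1 := by ring
      _ ≤ 32 * q.a ^ 2 * q.m0 * |2 * q.m0 ^ 2 - N ^ 2| := by gcongr
      _ = |Y - 4 * δ * (4 * q.m0 ^ 2 - N ^ 2)| := by
          rw [← e, abs_mul, abs_of_pos (by positivity : 0 < 32 * q.a ^ 2 * q.m0)]
      _ ≤ |Y| + |4 * δ * (4 * q.m0 ^ 2 - N ^ 2)| := abs_sub _ _
      _ ≤ _ := by rw [abs_mul, abs_mul, abs_of_pos (by norm_num : (0 : ℤ) < 4)]; gcongr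
  have f2 : L * (32 * q.a ^ 2) ≤ 101 * M ^ 3 * q.a ^ 2 := by
    calc L * (32 * q.a ^ 2) ≤ L * (|Y| + 4 * |δ| * (4 * M ^ 2)) := by gcongr
      _ = L * |Y| + 16 * M ^ 2 * (L * |δ|) := by ring
      _ ≤ 5 * M ^ 3 * q.a ^ 2 + 16 * M ^ 2 * (6 * M * q.a ^ 2) := by gcongr
      _ = _ := by ring
  have f3 : L * 32 ≤ 101 * M ^ 3 := le_of_mul_le_mul_right (a := q.a ^ 2) (by linarith) (by positivity)
  omega

end Pool.Agent.MP_2339ce_nt.DQ

end MrgPart0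

-- ======== part 1: formerly Pool.Agent.MP_2339ce_nt.DQ.Q8
section MrgPart1

/-! Project DQ, row Q8: the case `m1 = 0` of a negative `N`. -/

set_option autoImplicit false

namespace Pool.Agent.MP_2339ce_nt.DQ

theorem q8_ns {n u v : ℤ} (h : ¬ IsSquare n) (hv : v ≠ 0) : u ^ 2 - n * v ^ 2 ≠ 0 := by
  intro e
  have h1 : v ^ 2 ∣ u ^ 2 := ⟨n, by linear_combination e⟩
  obtain ⟨k, rfl⟩ := (Int.pow_dvd_pow_iff two_ne_zero).1 h1
  refine h ⟨k, mul_left_cancel₀ (pow_ne_zero 2 hv) ?_⟩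
  linear_combination -e

/-- the lower bound for `δ` -/
theorem q8_delta {n a c W δ κ B : ℤ} (hn : 1 ≤ n) (ha : 1 ≤ a) (han : a ^ 2 ≤ n) (hc : 1 ≤ c)
    (hW0 : 0 ≤ W) (hW : W ≤ 32 * n ^ 3) (hκ : κ = n ^ 2 - W - a ^ 2 * n) (hδ : 1 ≤ δ)
    (hδ' : δ ≤ n * c) (hB : B ≠ 0)
    (e : a ^ 2 * c ^ 2 * B = 2 * n * a * c * (4 * a ^ 2 + n) * (a * δ + κ) +
      n * (a * δ + κ) ^ 2 - 4 * a ^ 2 * W * c * δ - 4 * a ^ 2 * W * n ^ 2) :
    c ≤ 2000 * n ^ 7 * δ := by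
  have a1 : a ≤ n := by nlinarith
  have n0 : 0 ≤ n := by omega
  have n23 : n ^ 2 ≤ n ^ 3 := pow_le_pow_right₀ hn (by norm_num)
  have n13 : n ≤ n ^ 3 := by nlinarith
  have k0 : |κ| ≤ 34 * n ^ 3 := by
    have : a ^ 2 * n ≤ n ^ 2 := by nlinarith
    have : 0 ≤ a ^ 2 * n := by positivity
    have : 0 ≤ n ^ 2 := by positivity
    rw [abs_le]; constructor <;> linarith
  obtain ⟨E, hE⟩ : ∃ E, E = |a * δ + κ| := ⟨_, rfl⟩
  have E0 : 0 ≤ E := hE ▸ abs_nonneg _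
  have E1 : E ≤ a * δ + 34 * n ^ 3 := by
    have := abs_add_le (a * δ) κ
    rw [abs_of_nonneg (by positivity : 0 ≤ a * δ)] at this
    linarith
  have E2 : E ≤ 35 * n ^ 3 * δ := by
    have p1 : a * δ ≤ n ^ 3 * δ := by gcongr; linarith
    have p2 : n ^ 3 * 1 ≤ n ^ 3 * δ := by gcongr
    linarith
  have E3 : E ≤ 35 * n ^ 3 * c := by
    have p1 : a * δ ≤ n * (n * c) := by gcongr
    have p2 : n ^ 3 * 1 ≤ n ^ 3 * c := by gcongr
    have p3 : n ^ 2 * c ≤ n ^ 3 * c := by gcongr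
    linarith
  have cd : 1 ≤ c * δ := by nlinarith
  have cd0 : 0 ≤ c * δ := by omega
  have t1 : |2 * n * a * c * (4 * a ^ 2 + n) * (a * δ + κ)| ≤ 350 * n ^ 7 * (c * δ) := by
    rw [abs_mul, ← hE, abs_of_nonneg (by positivity)]
    have p : n ^ 6 ≤ n ^ 7 := pow_le_pow_right₀ hn (by norm_num)
    calc 2 * n * a * c * (4 * a ^ 2 + n) * E
        ≤ 2 * n * n * c * (4 * n + n) * (35 * n ^ 3 * δ) := by gcongr
      _ = 350 * n ^ 6 * (c * δ) := by ring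
      _ ≤ _ := by gcongr
  have t2 : n * (a * δ + κ) ^ 2 ≤ 1225 * n ^ 7 * (c * δ) := by
    rw [← sq_abs, ← hE]
    calc n * E ^ 2 = n * (E * E) := by ring
      _ ≤ n * ((35 * n ^ 3 * δ) * (35 * n ^ 3 * c)) := by gcongr
      _ = _ := by ring
  have t2' : 0 ≤ n * (a * δ + κ) ^ 2 := by positivity
  have t3 : 4 * a ^ 2 * W * c * δ ≤ 128 * n ^ 7 * (c * δ) := by
    have p : n ^ 4 ≤ n ^ 7 := pow_le_pow_right₀ hn (by norm_num)
    calc 4 * a ^ 2 * W * c * δ ≤ 4 * n * (32 * n ^ 3) * c * δ := by gcongr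
      _ = 128 * n ^ 4 * (c * δ) := by ring
      _ ≤ _ := by gcongr
  have t3' : 0 ≤ 4 * a ^ 2 * W * c * δ := by positivity
  have t4 : 4 * a ^ 2 * W * n ^ 2 ≤ 128 * n ^ 7 * (c * δ) := by
    have p : n ^ 6 ≤ n ^ 7 := pow_le_pow_right₀ hn (by norm_num)
    calc 4 * a ^ 2 * W * n ^ 2 ≤ 4 * n * (32 * n ^ 3) * n ^ 2 := by gcongr
      _ = 128 * n ^ 6 * 1 := by ring
      _ ≤ _ := by gcongr
  have t4' : 0 ≤ 4 * a ^ 2 * W * n ^ 2 := by positivity
  have t5 : 0 ≤ n ^ 7 * (c * δ) := by positivity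
  have t6 : |a ^ 2 * c ^ 2 * B| ≤ 2000 * n ^ 7 * (c * δ) := by
    rw [e, abs_le]
    have := abs_le.1 t1
    constructor <;> linarith [this.1, this.2]
  have t7 : c ^ 2 ≤ |a ^ 2 * c ^ 2 * B| := by
    rw [abs_mul, abs_of_nonneg (by positivity : 0 ≤ a ^ 2 * c ^ 2)]
    have p1 : 1 ≤ |B| := Int.one_le_abs hB
    have p2 : 1 ≤ a ^ 2 := one_le_pow₀ ha
    calc c ^ 2 = 1 * c ^ 2 * 1 := by ring
      _ ≤ _ := by gcongr
  refine le_of_mul_le_mul_left (a := c) ?_ (by omega)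
  linarith

/-- the first two bounds -/
theorem q8_first {n a b c p μ S R z : ℤ} (hn : 1 ≤ n) (ha : 1 ≤ a) (hab : a < b) (hbc : b < c)
    (hc : 4 * n ≤ c) (hμ : 1 ≤ μ) (hp : 3 * a * c ≤ p) (hS : S = a * c + n) (hR : 0 ≤ R)
    (h1 : a * μ * z ≤ p ^ 2) (h2 : c * p ≤ 4 * n * z)
    (e1 : b * μ * p = a * (p + μ) ^ 2 + n * (b - a) * R + 4 * a * b * S * (c - a))
    (e2 : 4 * a * c * μ * p = n * (p - μ) ^ 2 + 4 * a * n * S * (c - a)) :
    μ ≤ p ∧ a * p ≤ b * μ ∧ 2 * a ^ 2 * c ≤ n * b := by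
  have c0 : 0 < c := by omega
  have a0 : 0 < a := by omega
  have μ0 : 0 < μ := by omega
  have ac : c ≤ a * c := by nlinarith
  have p0 : 0 < p := by linarith
  have S0 : 0 ≤ S := by rw [hS]; positivity
  have k1 : μ * (a * c) ≤ 4 * n * p := by
    refine le_of_mul_le_mul_right (a := p) ?_ p0
    calc μ * (a * c) * p = a * μ * (c * p) := by ring
      _ ≤ a * μ * (4 * n * z) := by gcongr
      _ = 4 * n * (a * μ * z) := by ring
      _ ≤ 4 * n * p ^ 2 := by gcongr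
      _ = _ := by ring
  have k2 : μ ≤ p := by
    refine le_of_mul_le_mul_right (a := 4 * n) ?_ (by omega)
    calc μ * (4 * n) ≤ μ * (a * c) := mul_le_mul_of_nonneg_left (by linarith) μ0.le
      _ ≤ _ := by linarith
  have k3 : a * p ≤ b * μ := by
    refine le_of_mul_le_mul_right (a := p) ?_ p0
    have u1 : 0 ≤ n * (b - a) * R := by have := sub_pos.2 hab; positivity
    have u2 : 0 ≤ 4 * a * b * S * (c - a) := by
      have := sub_pos.2 (hab.trans hbc); have : 0 < b := by omega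
      positivity
    have u3 : 0 ≤ a * (2 * p * μ + μ ^ 2) := by positivity
    linarith
  have k4 : 2 * a * c * μ ≤ n * p := by
    refine le_of_mul_le_mul_right (a := 2 * p) ?_ (by omega)
    have u1 : n * (p - μ) ^ 2 ≤ n * p ^ 2 := by
      have := sub_nonneg.2 k2
      gcongr; omega
    have u2 : 4 * a * n * S * (c - a) ≤ n * p ^ 2 := by
      have v1 : S ≤ 2 * (a * c) := by linarith
      have v2 : (3 * a * c) ^ 2 ≤ p ^ 2 := by gcongr
      have v3 : 0 ≤ n * (a * c) ^ 2 := by positivity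
      calc 4 * a * n * S * (c - a) ≤ 4 * a * n * (2 * (a * c)) * c := by gcongr <;> omega
        _ ≤ n * (3 * a * c) ^ 2 := by linarith
        _ ≤ _ := by gcongr
    linarith
  refine ⟨k2, k3, le_of_mul_le_mul_right (a := μ) ?_ μ0⟩
  calc 2 * a ^ 2 * c * μ = a * (2 * a * c * μ) := by ring
    _ ≤ a * (n * p) := by gcongr
    _ = n * (a * p) := by ring
    _ ≤ n * (b * μ) := by gcongr
    _ = _ := by ring

/-- the size of `p` -/
theorem q8_p {n a b c p μ δ : ℤ} (hn : 1 ≤ n) (ha : 1 ≤ a) (han : a ≤ n) (hab : a < b)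
    (hbc : b < c) (hμ : 1 ≤ μ) (hp : 1 ≤ p) (h1 : a * p ≤ b * μ) (hδ : 1 ≤ δ)
    (h2 : c ≤ 2000 * n ^ 7 * (δ + 4 * a * n))
    (e : μ * p * δ = n * (b - a) * (n * (a * b + n) + 4 * a * (a * c + n) * (c - a))) :
    p ^ 2 ≤ 100000 * n ^ 12 * c ^ 3 := by
  have c1 : 1 ≤ c := by omega
  have n0 : 0 ≤ n := by omega
  have b0 : 0 ≤ b := by omega
  have nc : n * 1 ≤ n * c := by gcongr
  have k1 : δ + 4 * a * n ≤ 5 * n ^ 2 * δ := by
    have u1 : a * n ≤ n * n := by gcongr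
    have u2 : n ^ 2 * 1 ≤ n ^ 2 * δ := by gcongr
    have u3 : 1 * δ ≤ n ^ 2 * δ := by gcongr; exact one_le_pow₀ hn
    linarith
  have k2 : c ≤ 10000 * n ^ 9 * δ := by
    calc c ≤ _ := h2
      _ ≤ 2000 * n ^ 7 * (5 * n ^ 2 * δ) := by gcongr
      _ = _ := by ring
  have k3 : μ * p * δ ≤ 10 * n ^ 3 * c ^ 3 := by
    have u1 : a * b + n ≤ 2 * n * c * c := by
      have v1 : a * b ≤ n * c := by gcongr
      have v2 : n * c * 1 ≤ n * c * c := by gcongr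
      linarith
    have u2 : a * c + n ≤ 2 * n * c := by
      have v1 : a * c ≤ n * c := by gcongr
      linarith
    have u3 := sub_pos.2 (hab.trans hbc)
    rw [e]
    calc n * (b - a) * (n * (a * b + n) + 4 * a * (a * c + n) * (c - a))
        ≤ n * c * (n * (2 * n * c * c) + 4 * n * (2 * n * c) * c) := by
          gcongr <;> omega
      _ = _ := by ring
  have k4 : μ * p ≤ 100000 * n ^ 12 * c ^ 2 := by
    refine le_of_mul_le_mul_right (a := c) ?_ (by omega)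
    calc μ * p * c ≤ μ * p * (10000 * n ^ 9 * δ) := by gcongr
      _ = 10000 * n ^ 9 * (μ * p * δ) := by ring
      _ ≤ 10000 * n ^ 9 * (10 * n ^ 3 * c ^ 3) := by gcongr
      _ = _ := by ring
  calc p ^ 2 = 1 * p * p := by ring
    _ ≤ a * p * p := by gcongr
    _ ≤ b * μ * p := by gcongr
    _ = b * (μ * p) := by ring
    _ ≤ c * (100000 * n ^ 12 * c ^ 2) := by gcongr
    _ = _ := by ring

/-- the size of `Z` -/
theorem q8_Z {n b c p Q z Z : ℤ} (hn : 1 ≤ n) (hb : 1 ≤ b) (hbc : b < c) (hcb : c ≤ n * b)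
    (hnc : n ≤ c) (hp : c ≤ p) (hz : 0 < z) (hQ0 : 0 ≤ Q) (hQ : Q ≤ 2 * p)
    (h1 : c * p ≤ 4 * n * z) (h2 : c * Q ≤ 4 * n * z) (h3 : p ^ 2 ≤ 100000 * n ^ 12 * c ^ 3)
    (e : b * z * Z = c * Q ^ 2 - n * (c - b) * (b * c + n)) :
    Z ^ 2 ≤ 20000000 * n ^ 16 * c := by
  have c1 : 1 ≤ c := by omega
  have n0 : 0 ≤ n := by omega
  have p0 : 0 ≤ p := by omega
  have u0 := sub_pos.2 hbc
  have k1 : c * Q ^ 2 ≤ z * (8 * n * p) := by
    calc c * Q ^ 2 = c * Q * Q := by ring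
      _ ≤ 4 * n * z * (2 * p) := by gcongr
      _ = _ := by ring
  have k2 : n * (c - b) * (b * c + n) ≤ z * (8 * n ^ 2 * b) := by
    have v1 : n ≤ b * c := by nlinarith
    have v2 : c * c ≤ c * p := by gcongr
    calc n * (c - b) * (b * c + n) ≤ n * c * (b * c + b * c) := by gcongr; omega
      _ = 2 * n * b * (c * c) := by ring
      _ ≤ 2 * n * b * (4 * n * z) := mul_le_mul_of_nonneg_left (by linarith) (by positivity)
      _ = _ := by ring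
  have k3 : 0 ≤ c * Q ^ 2 := by positivity
  have k4 : 0 ≤ n * (c - b) * (b * c + n) := by positivity
  have k5 : 0 ≤ z * (8 * n * p) := by positivity
  have k6 : 0 ≤ z * (8 * n ^ 2 * b) := by positivity
  have l1 : b * Z ≤ 8 * n * p := le_of_mul_le_mul_left (a := z) (by linarith) hz
  have l2 : -(b * Z) ≤ 8 * n ^ 2 * b := le_of_mul_le_mul_left (a := z) (by linarith) hz
  have l3 : (b * Z) ^ 2 ≤ (8 * n * p) ^ 2 + (8 * n ^ 2 * b) ^ 2 := by
    have w1 : 0 ≤ (8 * n * p) ^ 2 := by positivity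
    have w2 : 0 ≤ (8 * n ^ 2 * b) ^ 2 := by positivity
    rcases le_total 0 (b * Z) with h | h
    · have : (b * Z) ^ 2 ≤ (8 * n * p) ^ 2 := by gcongr
      linarith
    · have h' : 0 ≤ -(b * Z) := by omega
      have : (-(b * Z)) ^ 2 ≤ (8 * n ^ 2 * b) ^ 2 := by gcongr
      linarith
  refine le_of_mul_le_mul_left (a := c ^ 2) ?_ (by positivity)
  have m1 : n ^ 6 ≤ n ^ 16 := pow_le_pow_right₀ hn (by norm_num)
  have m2 : b ^ 2 ≤ c ^ 3 := by
    calc b ^ 2 ≤ c ^ 2 := by gcongr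
      _ ≤ c ^ 3 := pow_le_pow_right₀ c1 (by norm_num)
  have m3 : 0 ≤ n ^ 16 * c ^ 3 := by positivity
  calc c ^ 2 * Z ^ 2 ≤ (n * b) ^ 2 * Z ^ 2 := by gcongr
    _ = n ^ 2 * (b * Z) ^ 2 := by ring
    _ ≤ n ^ 2 * ((8 * n * p) ^ 2 + (8 * n ^ 2 * b) ^ 2) := by gcongr
    _ = 64 * n ^ 4 * p ^ 2 + 64 * n ^ 6 * b ^ 2 := by ring
    _ ≤ 64 * n ^ 4 * (100000 * n ^ 12 * c ^ 3) + 64 * n ^ 16 * c ^ 3 := by gcongr
    _ ≤ _ := by linarith

theorem q8 : S_Q8 := by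
  intro N hs hN
  obtain ⟨n, rfl⟩ : ∃ n, N = -n := ⟨-N, by ring⟩
  rw [neg_neg] at hs
  have hn : 1 ≤ n := by omega
  have n0 : 0 ≤ n := by omega
  have habs : |(-n)| = n := by rw [abs_neg, abs_of_nonneg n0]
  have n2 : n ≤ n ^ 2 := by nlinarith
  have n16 : n ^ 2 ≤ n ^ 16 := pow_le_pow_right₀ hn (by norm_num)
  refine ⟨20000000 * n ^ 16, fun q hK hμ hp hm => ?_⟩
  have ha : 1 ≤ q.a := q.a0
  have hab := q.ab; have hbc := q.bc; have hc := q.c0; have hb := q.b0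
  have hP : q.P < 0 := by
    have := q.P_sign hN.ne
    by_contra h; push Not at h; nlinarith
  obtain ⟨p, hpe⟩ : ∃ p, q.P = -p := ⟨-q.P, by ring⟩
  obtain ⟨μ, hμe⟩ : ∃ μ, q.m0 = μ := ⟨_, rfl⟩
  have p0 : 0 < p := by omega
  have hQe : q.Q = -(p + μ) := by rw [← hμe]; unfold Qd.m0; linarith
  have hg : q.g = -2 * n * μ := by rw [← hμe]; unfold Qd.m1 at hm; linarith
  have hr : q.r ^ 2 = q.a * q.b + n := by linarith [q.hr]
  have hs' : q.s ^ 2 = q.a * q.c + n := by linarith [q.hs]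
  have ht : q.t ^ 2 = q.b * q.c + n := by linarith [q.ht]
  rw [hμe] at hμ
  rw [hpe, abs_neg, abs_of_pos p0] at hp
  have ac : q.c ≤ q.a * q.c := by nlinarith
  have hp3 : 3 * q.a * q.c ≤ p := by
    refine le_trans ?_ hp
    gcongr; linarith
  have hz : 0 < q.z := q.z_pos (by rw [habs]; linarith)
  have hPl := q.P_le (by rw [habs]; linarith)
  have hQl := q.Q_le (by rw [habs]; linarith)
  rw [habs, hpe, abs_neg, abs_of_pos p0] at hPl
  rw [habs, hQe, abs_neg, abs_of_pos (by omega)] at hQl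
  have h1 : q.a * μ * q.z ≤ p ^ 2 := by
    have e := q.e1'
    rw [hμe, hpe] at e
    have := q.s0; have := q.x0; have := q.t0; have := q.y0
    have hba := sub_pos.2 hab
    have u1 : 0 ≤ q.a * μ * (q.s * q.x + q.t * q.y) := by positivity
    have u2 : 0 ≤ (q.b - q.a) * (n * q.r ^ 2) := by positivity
    refine le_of_mul_le_mul_left ?_ hba
    linarith
  have e1 : q.b * μ * p = q.a * (p + μ) ^ 2 + n * (q.b - q.a) * q.r ^ 2 +
      4 * q.a * q.b * q.s ^ 2 * (q.c - q.a) := by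
    have e := q.e3
    rw [hm, hg, hpe, hQe] at e
    refine mul_left_cancel₀ (a := 2 * n) (by omega) ?_
    linear_combination -e
  have e2 : 4 * q.a * q.c * μ * p = n * (p - μ) ^ 2 + 4 * q.a * n * q.s ^ 2 * (q.c - q.a) := by
    have e := q.e2
    rw [hg, hpe] at e
    refine mul_left_cancel₀ (a := 4 * n) (by omega) ?_
    linear_combination e
  obtain ⟨f1, f2, f3⟩ := q8_first hn ha hab hbc (by linarith) hμ hp3 hs' (sq_nonneg q.r) h1 hPl e1 e2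
  have a2 : q.a ^ 2 ≤ n := by
    refine le_of_mul_le_mul_right (a := q.c) ?_ hc
    have u1 : n * q.b ≤ n * q.c := by gcongr
    have u2 : 0 ≤ q.a ^ 2 * q.c := by positivity
    linarith
  have an : q.a ≤ n := by nlinarith
  have cb : q.c ≤ n * q.b := by
    have u1 : 1 * q.c ≤ q.a ^ 2 * q.c := by gcongr; exact one_le_pow₀ ha
    linarith
  have b2 : 2 * n ≤ q.b := by
    refine le_of_mul_le_mul_left (a := n) ?_ (by omega)
    linarith
  obtain ⟨δ, hδ⟩ : ∃ δ, δ = n * q.b - 4 * q.a ^ 2 * q.c - 4 * q.a * n := ⟨_, rfl⟩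
  have e3 : μ * p * δ = n * (q.b - q.a) *
      (n * (q.a * q.b + n) + 4 * q.a * (q.a * q.c + n) * (q.c - q.a)) := by
    rw [hδ, ← hr, ← hs']
    linear_combination n * e1 - q.a * e2
  have δ1 : 1 ≤ δ := by
    have u1 := sub_pos.2 hab; have u2 := sub_pos.2 q.ac
    have u3 : 0 < μ * p * δ := by rw [e3]; positivity
    have u4 : 0 < μ * p := by positivity
    exact pos_of_mul_pos_of_pos_left' u3 u4
  have hw := q.toTr.w_le (by rw [habs]; exact b2)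
  rw [habs] at hw
  have hW : q.w ^ 2 ≤ 32 * n ^ 3 := by
    refine le_of_mul_le_mul_left (a := q.b ^ 2) ?_ (by positivity)
    have u1 : (q.b * |q.w|) ^ 2 ≤ (4 * n * q.t) ^ 2 := by gcongr
    have u2 : q.t ^ 2 ≤ 2 * n * q.b ^ 2 := by
      have v1 : q.b * q.c ≤ q.b * (n * q.b) := by gcongr
      have v2 : n * 1 ≤ n * q.b ^ 2 := by gcongr; exact one_le_pow₀ hb
      linarith
    calc q.b ^ 2 * q.w ^ 2 = (q.b * |q.w|) ^ 2 := by rw [mul_pow, sq_abs]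
      _ ≤ (4 * n * q.t) ^ 2 := u1
      _ = 16 * n ^ 2 * q.t ^ 2 := by ring
      _ ≤ 16 * n ^ 2 * (2 * n * q.b ^ 2) := by gcongr
      _ = _ := by ring
  have an0 : 0 ≤ q.a * n := by positivity
  have hd := q8_delta (δ := δ + 4 * q.a * n) (c := q.c) hn ha a2 hc (sq_nonneg q.w) hW rfl
    (by linarith)
    (by
      have u1 : n * q.b ≤ n * q.c := by gcongr
      have u2 : 0 ≤ q.a ^ 2 * q.c := by positivity
      linarith)
    (q8_ns (u := 4 * q.a * q.w) (v := 4 * q.a ^ 2 + n) hs (by positivity))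
    (by
      have e := q.toTr.eT
      have e' : (2 * q.a * q.w) ^ 2 * (q.b * q.c + n) =
          (q.a * n * (q.b + q.c - q.a) - q.w ^ 2 + n ^ 2) ^ 2 := by
        rw [← ht]
        linear_combination (2 * q.a * q.w * q.t -
          (q.a * n * (q.b + q.c - q.a) - q.w ^ 2 + n ^ 2)) * e
      rw [hδ]
      linear_combination n * e')
  have hp2 := q8_p hn ha an hab hbc hμ p0 f2 δ1 hd e3
  refine ⟨by linarith, ?_, ?_⟩
  · refine cb.trans ?_
    gcongr; linarith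
  · refine q8_Z (Q := p + μ) hn hb hbc cb (by linarith) (by linarith) hz (by omega) (by omega)
      hPl hQl hp2 ?_
    have e := q.cB
    unfold Qd.Z
    rw [hQe] at e ⊢
    rw [← ht]
    linear_combination -e
where
  pos_of_mul_pos_of_pos_left' {u v : ℤ} (h : 0 < u * v) (hu : 0 < u) : 0 < v := by
    by_contra hc; push Not at hc; nlinarith

end Pool.Agent.MP_2339ce_nt.DQ

end MrgPart1

-- ======== part 2: formerly Pool.Agent.MP_2339ce_nt.DQ.Q9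
section MrgPart2

/-! Project DQ, row Q9: the degenerate case `m1 = 0`. -/

set_option autoImplicit false

namespace Pool.Agent.MP_2339ce_nt.DQ

namespace Q9

theorem sqn {n m X : ℤ} (hm : m ≠ 0) (h : n * m ^ 2 = X ^ 2) : IsSquare n := by
  have h1 : m ∣ X := (Int.pow_dvd_pow_iff two_ne_zero).1 ⟨n, by linarith⟩
  obtain ⟨e, rfl⟩ := h1
  exact ⟨e, mul_right_cancel₀ (pow_ne_zero 2 hm) (by linear_combination h)⟩

theorem bdd (f : ℤ → ℤ → ℤ → ℤ → ℤ) (B : ℤ) :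
    ∃ C, ∀ a b c d, |a| ≤ B → |b| ≤ B → |c| ≤ B → |d| ≤ B → f a b c d ≤ C := by
  obtain ⟨C, hC⟩ := Finset.exists_le ((Finset.Icc (-B) B ×ˢ Finset.Icc (-B) B ×ˢ
    Finset.Icc (-B) B ×ˢ Finset.Icc (-B) B).image fun p => f p.1 p.2.1 p.2.2.1 p.2.2.2)
  refine ⟨C, fun a b c d ha hb hc hd => hC _ (Finset.mem_image.2 ⟨(a, b, c, d), ?_, rfl⟩)⟩
  simp only [Finset.mem_product, Finset.mem_Icc, ← abs_le]
  exact ⟨ha, hb, hc, hd⟩

variable {n : ℤ}

/-- the two Pell equations after the descent -/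
theorem pell (q : Qd (-n)) (hm : q.m1 = 0) : ∃ Y X : ℤ,
    q.b * q.Z ^ 2 - q.c * Y ^ 2 = n ^ 3 * (q.b - q.c) ∧
    q.a * n ^ 2 * q.Z ^ 2 - q.c * X ^ 2 = n ^ 5 * (q.a - q.c) ∧
    n ^ 2 * q.z = q.Z * (2 * q.b * q.c + n) + 2 * q.c * q.t * Y ∧
    n ^ 4 * q.z = n * q.Z * (8 * q.a ^ 2 * q.c ^ 2 + 8 * q.a * q.c * n + n ^ 2) +
      4 * q.s * (2 * q.a * q.c + n) * q.c * X := by
  have hZ : q.Z = q.z * (2 * q.b * q.c + n) - 2 * q.c * q.t * q.y := by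
    unfold Qd.Z Qd.Q; ring
  have h4 : n * q.Z = q.z * (8 * q.a ^ 2 * q.c ^ 2 + 8 * q.a * q.c * n + n ^ 2) -
      4 * q.s * (2 * q.a * q.c + n) * q.c * q.x := by
    unfold Qd.m1 Qd.g Qd.m0 Qd.P Qd.Q at hm
    rw [hZ]
    linear_combination (-q.c) * hm
  refine ⟨q.y * (2 * q.b * q.c + n) - 2 * q.t * q.b * q.z,
    q.x * (8 * q.a ^ 2 * q.c ^ 2 + 8 * q.a * q.c * n + n ^ 2) -
      4 * q.s * (2 * q.a * q.c + n) * q.a * q.z, ?_, ?_, ?_, ?_⟩
  · rw [hZ]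
    linear_combination ((2 * q.b * q.c + n) ^ 2 - 4 * q.t ^ 2 * q.b * q.c) *
      (q.b * q.hz - q.c * q.hy) - 4 * q.b * q.c * n * (q.b - q.c) * q.ht
  · rw [show q.a * n ^ 2 * q.Z ^ 2 = q.a * (n * q.Z) ^ 2 by ring, h4]
    linear_combination ((8 * q.a ^ 2 * q.c ^ 2 + 8 * q.a * q.c * n + n ^ 2) ^ 2 -
      (4 * q.s * (2 * q.a * q.c + n)) ^ 2 * q.a * q.c) * (q.a * q.hz - q.c * q.hx) -
      16 * (2 * q.a * q.c + n) ^ 2 * q.a * q.c * n * (q.a - q.c) * q.hs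
  · rw [hZ]
    linear_combination 4 * q.b * q.c * q.z * q.ht
  · rw [h4]
    linear_combination 16 * (2 * q.a * q.c + n) ^ 2 * q.a * q.c * q.z * q.hs

theorem b_le_t (T : Tr (-n)) (hn : 0 < n) : T.b ≤ T.t := by
  have := T.ht; have := T.b0; have := T.bc
  exact abs_le_abs_of_sq_le T.t0 (by nlinarith)
where
  abs_le_abs_of_sq_le {u v : ℤ} (hv : 0 ≤ v) (h : u ^ 2 ≤ v ^ 2) : u ≤ v :=
    (le_abs_self u).trans (abs_le_of_sq_le_sq' h hv |> abs_le.2)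

/-- the size of `w` -/
theorem w_bd (T : Tr (-n)) (hn : 0 < n) {K : ℤ} (hb : 2 * n ≤ T.b) (hc : T.c ≤ K * T.b) :
    |T.w| ≤ 4 * n * (K + 1) := by
  have h1 := T.w_le (by rwa [abs_neg, abs_of_pos hn])
  rw [abs_neg, abs_of_pos hn] at h1
  have hb0 := T.b0; have hbc := T.bc; have ht := T.ht
  have hK : 1 ≤ K := by nlinarith
  have h2 : T.t ≤ (K + 1) * T.b := by
    refine b_le_t.abs_le_abs_of_sq_le (by positivity) ?_
    have k1 : T.b * T.c ≤ T.b * (K * T.b) := by gcongr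
    have k2 : n ≤ T.b * T.b := by nlinarith
    have k3 : 0 ≤ (K ^ 2 + K) * (T.b * T.b) := by positivity
    nlinarith
  have h3 : T.b * |T.w| ≤ T.b * (4 * n * (K + 1)) := by
    have : 4 * n * T.t ≤ 4 * n * ((K + 1) * T.b) := by gcongr
    linarith
  exact le_of_mul_le_mul_left h3 hb0

/-- the size of `b s - r t` -/
theorem u_bd (T : Tr (-n)) (hn : 0 < n) : |T.b * T.s - T.r * T.t| ≤ 3 * n * T.s := by
  have ha := T.a0; have hb := T.b0; have hc := T.c0; have hbc := T.bc; have hac := T.ac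
  have hr := T.r0; have ht := T.t0; have hs := T.hs
  have hs0 : 0 < T.s := by
    rcases T.s0.lt_or_eq with h | h
    · exact h
    · rw [← h] at hs; nlinarith
  have e : (T.r * T.t - T.b * T.s) * (T.b * T.s + T.r * T.t) =
      n * (T.a * T.b + n + T.b * (T.c - T.b)) := by
    linear_combination T.t ^ 2 * T.hr + (T.a * T.b + n) * T.ht - T.b ^ 2 * T.hs
  have h1 : 0 < n * (T.a * T.b + n + T.b * (T.c - T.b)) := by
    have := sub_pos.2 hbc; positivity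
  have h2 : 0 ≤ T.r * T.t - T.b * T.s := by
    by_contra h
    have : 0 ≤ -(T.r * T.t - T.b * T.s) * (T.b * T.s + T.r * T.t) :=
      mul_nonneg (by linarith) (by positivity)
    linarith
  rw [abs_sub_comm, abs_of_nonneg h2]
  have k1 : T.c ≤ T.a * T.c := by nlinarith
  have k2 : T.a + n + T.c ≤ 3 * T.s ^ 2 := by linarith
  have k3 : T.a * T.b + n + T.b * (T.c - T.b) ≤ T.b * (3 * T.s ^ 2) := by
    have : T.b * (T.a + n + T.c) ≤ T.b * (3 * T.s ^ 2) := by gcongr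
    nlinarith
  have k4 := mul_le_mul_of_nonneg_left k3 hn.le
  have k5 : 0 ≤ (T.r * T.t - T.b * T.s) * (T.r * T.t) := by positivity
  refine le_of_mul_le_mul_right (a := T.b * T.s) ?_ (by positivity)
  linarith

/-- the line in the last case -/
theorem last (T : Tr (-n)) (hn : 0 < n) {ρ J : ℤ} (hρ : ρ ^ 2 = T.r ^ 2)
    (h : n * (T.b * T.s + T.t * ρ) = T.s * J) :
    |J - 2 * n * T.b| ≤ 3 * n ^ 2 ∨ |J| ≤ 3 * n ^ 2 := by
  have hu := u_bd T hn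
  have hs0 : 0 < T.s := by
    have hs := T.hs; have := T.a0; have := T.c0
    rcases T.s0.lt_or_eq with h | h
    · exact h
    · rw [← h] at hs; nlinarith
  have key : ∀ j : ℤ, |T.s * j| = |n * (T.b * T.s - T.r * T.t)| → |j| ≤ 3 * n ^ 2 := by
    intro j hj
    rw [abs_mul, abs_mul, abs_of_pos hs0, abs_of_pos hn] at hj
    have := mul_le_mul_of_nonneg_left hu hn.le
    exact le_of_mul_le_mul_left (by linarith) hs0
  rcases sq_eq_sq_iff_eq_or_eq_neg.1 hρ with rfl | rfl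
  · refine Or.inl (key _ ?_)
    rw [← abs_neg]; congr 1; linear_combination h
  · refine Or.inr (key _ ?_)
    congr 1; linear_combination -h

/-- comparing the triple with the rational triple -/
theorem comp (T : Tr (-n)) (hn : 0 < n) {K k u v : ℤ} (hk : 1 ≤ k) (hu : 0 ≤ u) (hv : 0 ≤ v)
    (hc : T.c ≤ K * T.b) (h1 : T.a * n ^ 2 * v ^ 2 = T.c * k + T.a * n ^ 5)
    (h2 : T.a * n ^ 2 * u ^ 2 = T.b * k + T.a * n ^ 5) : ∃ W : ℤ,
      |W| ≤ T.a * n ^ 5 * (K + 1) + T.a ^ 2 * n ^ 10 + k * n ∧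
      2 * T.a * k * T.t * (T.a * n ^ 4 * T.w - W) = T.a ^ 3 * k * n ^ 5 - T.a * k ^ 2 * n +
        k * T.a * n ^ 4 * (T.w ^ 2 - n ^ 2) - T.a * W ^ 2 + T.a ^ 3 * n ^ 10 := by
  have ha := T.a0; have hb := T.b0; have hc0 := T.c0; have hbt := b_le_t T hn
  have ht : 1 ≤ T.t := by omega
  have hK : 0 ≤ K := by nlinarith
  have e : (k * T.t - T.a * n ^ 2 * u * v) * (k * T.t + T.a * n ^ 2 * u * v) =
      k ^ 2 * n - (T.a * n ^ 5 * k * (T.b + T.c) + T.a ^ 2 * n ^ 10) := by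
    linear_combination k ^ 2 * T.ht - (T.a * n ^ 2 * u ^ 2) * h1 - (T.c * k + T.a * n ^ 5) * h2
  refine ⟨k * T.t - T.a * n ^ 2 * u * v, ?_, ?_⟩
  · have h3 := congrArg abs e
    rw [abs_mul, abs_of_nonneg (by positivity : 0 ≤ k * T.t + T.a * n ^ 2 * u * v)] at h3
    have h4 : |k ^ 2 * n - (T.a * n ^ 5 * k * (T.b + T.c) + T.a ^ 2 * n ^ 10)| ≤
        k ^ 2 * n + (T.a * n ^ 5 * k * (T.b + T.c) + T.a ^ 2 * n ^ 10) := by
      refine (abs_sub _ _).trans (le_of_eq ?_)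
      rw [abs_of_nonneg (by positivity), abs_of_nonneg (by positivity)]
    have k0 : 1 ≤ k * T.t := by nlinarith
    have k1 : k ^ 2 * n * 1 ≤ k ^ 2 * n * T.t := by gcongr
    have k2 : T.a ^ 2 * n ^ 10 * 1 ≤ T.a ^ 2 * n ^ 10 * (k * T.t) := by gcongr
    have k3 : T.b + T.c ≤ (K + 1) * T.t := by
      have : (K + 1) * T.b ≤ (K + 1) * T.t := by gcongr
      linarith
    have k4 : T.a * n ^ 5 * k * (T.b + T.c) ≤ T.a * n ^ 5 * k * ((K + 1) * T.t) := by gcongr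
    have k5 : 0 ≤ |k * T.t - T.a * n ^ 2 * u * v| * (T.a * n ^ 2 * u * v) := by positivity
    refine le_of_mul_le_mul_right (a := k * T.t) ?_ (by positivity)
    linarith
  · linear_combination k * T.a * n ^ 4 * T.eT - T.a * e

end Q9

open Q9 in
theorem q9 (h : S_LINE) : S_Q9 := by
  intro N hN hN0 K0
  obtain ⟨n, rfl⟩ : ∃ n, N = -n := ⟨-N, by ring⟩
  have hn : 0 < n := by omega
  have hsq : ¬ IsSquare n := by simpa using hN
  set A := |K0| with hA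
  have hA0 : 0 ≤ A := abs_nonneg _
  set k0 := A * n ^ 2 * (A + n ^ 3) with hk0
  set B := A + k0 + 4 * n * (A + 1) + (A * n ^ 5 * (A + 1) + A ^ 2 * n ^ 10 + k0 * n) with hB
  obtain ⟨C, hC⟩ := bdd (fun a k w W => |a ^ 3 * k * n ^ 5 - a * k ^ 2 * n +
    k * a * n ^ 4 * (w ^ 2 - n ^ 2) - a * W ^ 2 + a ^ 3 * n ^ 10|) B
  set l0 := A ^ 2 + n with hl0
  set B' := A + 4 * n * (A + 1) + 4 * A * (A + l0) + 2 * n + (3 * n ^ 2 + (4 * A * n + 2 * n * l0))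
    with hB'
  obtain ⟨K1, hK1⟩ := h _ hN B'
  refine ⟨A * (2 * n + A * n ^ 5 + |C|) + |K1|, fun q hm ha hc hZ => ?_⟩
  have a0 := q.a0; have b0 := q.b0; have c0 := q.c0
  have ha' : q.a ≤ A := ha.trans (le_abs_self _)
  have hc' : q.c ≤ A * q.b := hc.trans (by gcongr; exact le_abs_self _)
  have hZ' : q.Z ^ 2 ≤ A * q.c := hZ.trans (by gcongr; exact le_abs_self _)
  have p1 : 0 ≤ A * n ^ 5 := by positivity
  have p2 := abs_nonneg C
  have fin1 : q.b ≤ 2 * n + A * n ^ 5 + |C| → q.c ≤ A * (2 * n + A * n ^ 5 + |C|) + |K1| :=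
    fun hb => (hc'.trans (mul_le_mul_of_nonneg_left hb hA0)).trans
      (le_add_of_nonneg_right (abs_nonneg _))
  by_cases hb : 2 * n ≤ q.b
  swap
  · exact fin1 (by linarith)
  have hw := w_bd q.toTr hn hb hc'
  obtain ⟨Y, X, e1, e2, e3, e4⟩ := pell q hm
  obtain ⟨k, hk⟩ : ∃ k, k = X ^ 2 - n ^ 5 := ⟨_, rfl⟩
  have f1 : q.a * n ^ 2 * q.Z ^ 2 = q.c * k + q.a * n ^ 5 := by rw [hk]; linear_combination e2
  have f2 : q.a * n ^ 2 * Y ^ 2 = q.b * k + q.a * n ^ 5 :=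
    mul_left_cancel₀ c0.ne' (by linear_combination q.b * f1 - q.a * n ^ 2 * e1)
  rcases lt_trichotomy k 0 with k1 | k1 | k1
  · refine fin1 ?_
    have t1 : 0 ≤ q.a * n ^ 2 * Y ^ 2 := by positivity
    have t2 : q.a * n ^ 5 ≤ A * n ^ 5 := by gcongr
    have t3 : q.b * 1 ≤ q.b * -k := by gcongr; omega
    linarith
  · exact absurd (sqn (m := n ^ 2) (X := X) (by positivity) (by linear_combination hk - k1)) hsq
  have k2 : k ≤ k0 := by
    have t1 : q.a * n ^ 2 * q.Z ^ 2 ≤ A * n ^ 2 * (A * q.c) := by gcongr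
    have t2 : 0 ≤ q.a * n ^ 5 := by positivity
    have t3 : 0 ≤ q.c * (A * n ^ 5) := by positivity
    refine le_of_mul_le_mul_left ?_ c0
    rw [hk0]; linarith
  obtain ⟨W, hW, e5⟩ := comp q.toTr hn k1 (abs_nonneg Y) (abs_nonneg q.Z) hc'
    (by rw [sq_abs]; exact f1) (by rw [sq_abs]; exact f2)
  have p3 : 0 ≤ k0 := by positivity
  have p4 : 0 ≤ 4 * n * (A + 1) := by positivity
  by_cases hW0 : q.a * n ^ 4 * q.w - W = 0
  swap
  · refine fin1 ?_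
    have p5 : 0 ≤ A * n ^ 5 * (A + 1) + A ^ 2 * n ^ 10 + k0 * n := by positivity
    have t0 : q.a * n ^ 5 * (A + 1) + q.a ^ 2 * n ^ 10 + k * n ≤
      A * n ^ 5 * (A + 1) + A ^ 2 * n ^ 10 + k0 * n := by gcongr
    have t1 := hC q.a k q.w W (by rw [abs_of_pos a0]; linarith) (by rw [abs_of_pos k1]; linarith)
      (by linarith) (by linarith)
    have t2 := b_le_t q.toTr hn
    have t3 : 0 < q.t := by omega
    rw [← e5, abs_mul, abs_of_pos (by positivity : 0 < 2 * q.a * k * q.t)] at t1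
    have t4 : 2 * 1 * 1 * q.t * 1 ≤ 2 * q.a * k * q.t * |q.a * n ^ 4 * q.w - W| := by
      gcongr
      · exact a0
      · exact k1
      · exact abs_pos.2 hW0
    have := le_abs_self C
    linarith
  obtain rfl : W = q.a * n ^ 4 * q.w := by linarith
  have e6 : q.a * (n * ((q.a ^ 2 * n ^ 4 - k) * (k - n ^ 3 * (q.w ^ 2 - n ^ 2)))) = 0 := by
    linear_combination -e5
  rcases mul_eq_zero.1 ((mul_eq_zero.1 ((mul_eq_zero.1 e6).resolve_left a0.ne')).resolve_left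
    hn.ne') with e7 | e7
  swap
  · have w0 : q.w ≠ 0 := fun h0 => by
      have := q.toTr.w_sign (neg_ne_zero.2 hn.ne')
      rw [h0] at this; simp at this
    exact absurd (sqn (m := n * q.w) (X := X) (mul_ne_zero hn.ne' w0)
      (by linear_combination hk - e7)) hsq
  have n2 : n ^ 2 ≠ 0 := by positivity
  obtain ⟨l, rfl⟩ : n ^ 2 ∣ X := (Int.pow_dvd_pow_iff two_ne_zero).1
    ⟨q.a ^ 2 + n, by linear_combination -hk - e7⟩
  have hl : l ^ 2 = q.a ^ 2 + n :=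
    mul_left_cancel₀ (pow_ne_zero 4 hn.ne') (by linear_combination -hk - e7)
  have an : q.a * n ^ 2 ≠ 0 := by positivity
  have g1 : q.Z ^ 2 = (n * q.s) ^ 2 :=
    mul_left_cancel₀ an (by linear_combination f1 - q.c * e7 - q.a * n ^ 4 * q.hs)
  have g2 : Y ^ 2 = (n * q.r) ^ 2 :=
    mul_left_cancel₀ an (by linear_combination f2 - q.b * e7 - q.a * n ^ 4 * q.hr)
  obtain ⟨ε, hε, hZε⟩ : ∃ ε : ℤ, ε ^ 2 = 1 ∧ q.Z = ε * (n * q.s) := by
    rcases sq_eq_sq_iff_eq_or_eq_neg.1 g1 with g | g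
    exacts [⟨1, by norm_num, by linarith⟩, ⟨-1, by norm_num, by linarith⟩]
  obtain ⟨ρ, hρ, rfl⟩ : ∃ ρ : ℤ, ρ ^ 2 = q.r ^ 2 ∧ Y = n * ρ := by
    rcases sq_eq_sq_iff_eq_or_eq_neg.1 g2 with g | g
    exacts [⟨q.r, rfl, g⟩, ⟨-q.r, by ring, by linarith⟩]
  rw [hZε] at e3 e4
  have e8 : n * (q.b * q.s + q.t * (ε * ρ)) =
      q.s * (4 * q.a * (q.a + ε * l) * q.c + (4 * q.a * n + 2 * n * (ε * l))) := by
    refine mul_left_cancel₀ (show 2 * q.c * n ^ 2 ≠ 0 by positivity) ?_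
    linear_combination ε * e4 - ε * n ^ 2 * e3 + n ^ 2 * q.s *
      (8 * q.a ^ 2 * q.c ^ 2 + 8 * q.a * q.c * n - 2 * n * q.b * q.c) * hε
  obtain ⟨m, hm2, e9⟩ : ∃ m : ℤ, m ^ 2 = q.a ^ 2 + n ∧ n * (q.b * q.s + q.t * (ε * ρ)) =
      q.s * (4 * q.a * (q.a + m) * q.c + (4 * q.a * n + 2 * n * m)) :=
    ⟨ε * l, by linear_combination l ^ 2 * hε + hl, e8⟩
  have m1 : |m| ≤ l0 := by
    have t1 := Int.le_self_sq |m|
    have t2 : q.a ^ 2 ≤ A ^ 2 := by gcongr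
    rw [sq_abs] at t1
    linarith
  have m0 : 4 * q.a * (q.a + m) ≠ 0 := by
    refine mul_ne_zero (by positivity) fun h0 => ?_
    obtain rfl : m = -q.a := by linarith
    exact hn.ne' (by linear_combination -hm2)
  have p6 : 0 ≤ l0 := by positivity
  have m2 : |4 * q.a * (q.a + m)| ≤ 4 * A * (A + l0) := by
    rw [abs_mul, abs_of_pos (by positivity : 0 < 4 * q.a)]
    have : |q.a + m| ≤ A + l0 := (abs_add_le _ _).trans (by rw [abs_of_pos a0]; linarith)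
    gcongr
  have m3 : |4 * q.a * n + 2 * n * m| ≤ 4 * A * n + 2 * n * l0 := by
    refine (abs_add_le _ _).trans ?_
    rw [abs_of_pos (by positivity : 0 < 4 * q.a * n), abs_mul,
      abs_of_pos (by positivity : 0 < 2 * n)]
    gcongr
  have p7 : 0 ≤ 4 * A * (A + l0) := by positivity
  have p8 : 0 ≤ 3 * n ^ 2 + (4 * A * n + 2 * n * l0) := by positivity
  have fin2 : ∀ L : ℤ, |L| ≤ 2 * n →
      |4 * q.a * (q.a + m) * q.c + (4 * q.a * n + 2 * n * m) - L * q.b| ≤ 3 * n ^ 2 →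
      q.c ≤ A * (2 * n + A * n ^ 5 + |C|) + |K1| := by
    intro L hL hj
    have t1 := (abs_sub (4 * q.a * (q.a + m) * q.c + (4 * q.a * n + 2 * n * m) - L * q.b)
      (4 * q.a * n + 2 * n * m)).trans (add_le_add hj m3)
    have t2 := hK1 q.toTr _ L _ (by linarith) (by linarith) m0 (by linarith) (by linarith)
      (t1.trans (by linarith)) (by ring)
    have t3 : 0 ≤ A * (2 * n + A * n ^ 5 + |C|) := by positivity
    have := le_abs_self K1
    linarith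
  rcases last q.toTr hn (by linear_combination ρ ^ 2 * hε + hρ) e9 with g | g
  · exact fin2 (2 * n) (abs_of_pos (by positivity)).le g
  · exact fin2 0 (by simpa using hn.le) (by simpa using g)

end Pool.Agent.MP_2339ce_nt.DQ

end MrgPart2

-- marker of a merged file
example : 731051 + 731278 = 731051 + 731278 := rfl
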