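import Mathlib.Algebra.Order.Star.Real
import Mathlib.Tactic.Polynomial.Basic
import Pool.Agent.MP_2339ce_nt.DQ.Spec
import Pool.Agent.MP_2339ce_nt.DQ.Basic

-- ======== part 0: formerly Pool.Agent.MP_2339ce_nt.DQ.G5
section MrgPart0

/-! Project DQ: the gap for five elements. -/

set_option autoImplicit false

noncomputable section

namespace Pool.Agent.MP_2339ce_nt.DQ

namespace G5

/-- Taylor polynomial of degree four -/
def T (s t : ℝ) : ℝ := 1 - s / 2 - t ^ 2 / 8 - s * t ^ 2 / 16 - (s ^ 2 * t ^ 2 / 32 + t ^ 4 / 128)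

theorem tay {s t r F : ℝ} (hs : |s| ≤ 2 * r) (ht : |t| ≤ 2 * r) (hr : r ≤ 1 / 4) (hF : 0 ≤ F)
    (h : F ^ 2 = (1 - s / 2) ^ 2 - t ^ 2 / 4) : |F - T s t| ≤ 8 * r ^ 5 := by
  have r0 : 0 ≤ r := by linarith [abs_nonneg s]
  have s2 : s ^ 2 ≤ (2 * r) ^ 2 := by rw [← sq_abs]; gcongr
  have t2 : t ^ 2 ≤ (2 * r) ^ 2 := by rw [← sq_abs]; gcongr
  have t4 : t ^ 4 ≤ (2 * r) ^ 4 := by
    calc t ^ 4 = (t ^ 2) ^ 2 := by ring
      _ ≤ ((2 * r) ^ 2) ^ 2 := by gcongr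
      _ = _ := by ring
  have rr : r ^ 2 ≤ r / 4 := by nlinarith
  obtain ⟨κ, hκ⟩ : ∃ κ, κ = s / 16 + s ^ 2 / 32 + t ^ 2 / 128 := ⟨_, rfl⟩
  have hs' := abs_le.1 hs
  have k1 : |κ| ≤ r / 4 := by
    rw [abs_le, hκ]
    constructor <;> nlinarith [sq_nonneg s, sq_nonneg t]
  have k1' := abs_le.1 k1
  have hT : T s t = 1 - s / 2 - t ^ 2 * (1 / 8 + κ) := by rw [T, hκ]; ring
  have T1 : 1 / 2 ≤ T s t := by
    have : t ^ 2 * (1 / 8 + κ) ≤ (2 * r) ^ 2 * (1 / 4) :=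
      mul_le_mul t2 (by linarith) (by linarith) (by positivity)
    rw [hT]; nlinarith
  have e : (F - T s t) * (F + T s t) =
      -(s * (s ^ 2 * t ^ 2) / 32) - s * t ^ 4 / 128 - t ^ 4 * (κ * (1 / 4 + κ)) := by
    rw [hT]
    have : (F - (1 - s / 2 - t ^ 2 * (1 / 8 + κ))) * (F + (1 - s / 2 - t ^ 2 * (1 / 8 + κ))) =
        F ^ 2 - (1 - s / 2 - t ^ 2 * (1 / 8 + κ)) ^ 2 := by ring
    rw [this, h, hκ]; ring
  have b1 : |s * (s ^ 2 * t ^ 2) / 32| ≤ r ^ 5 := by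
    rw [abs_div, abs_mul, abs_of_nonneg (by positivity : 0 ≤ s ^ 2 * t ^ 2),
      abs_of_pos (by norm_num : (0 : ℝ) < 32)]
    calc _ ≤ 2 * r * ((2 * r) ^ 2 * (2 * r) ^ 2) / 32 := by gcongr
      _ = _ := by ring
  have b2 : |s * t ^ 4 / 128| ≤ r ^ 5 / 4 := by
    rw [abs_div, abs_mul, abs_of_nonneg (by positivity : 0 ≤ t ^ 4),
      abs_of_pos (by norm_num : (0 : ℝ) < 128)]
    calc _ ≤ 2 * r * (2 * r) ^ 4 / 128 := by gcongr
      _ = _ := by ring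
  have b3 : |t ^ 4 * (κ * (1 / 4 + κ))| ≤ 2 * r ^ 5 := by
    rw [abs_mul, abs_mul, abs_of_nonneg (by positivity : 0 ≤ t ^ 4),
      abs_of_nonneg (by linarith : 0 ≤ 1 / 4 + κ)]
    have k2 : 0 ≤ 1 / 4 + κ := by linarith
    have k3 : 1 / 4 + κ ≤ 1 / 2 := by linarith
    calc _ ≤ (2 * r) ^ 4 * (r / 4 * (1 / 2)) := by gcongr
      _ = _ := by ring
  have b4 : |F - T s t| * (F + T s t) ≤ 4 * r ^ 5 := by
    rw [← abs_of_nonneg (by linarith : 0 ≤ F + T s t), ← abs_mul, e]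
    have := abs_le.1 b1
    have := abs_le.1 b2
    have := abs_le.1 b3
    have : 0 ≤ r ^ 5 := by positivity
    rw [abs_le]
    constructor <;> linarith
  have b5 : |F - T s t| * (1 / 2) ≤ |F - T s t| * (F + T s t) :=
    mul_le_mul_of_nonneg_left (by linarith) (abs_nonneg _)
  linarith

/-- the expansion at one small element -/
theorem one {i d e N ρ y : ℝ} (hi : 1 ≤ i) (hd : 0 < d) (hde : d ≤ e) (hN : 4 * |N| ≤ d)
    (hρ : 0 < ρ) (hρ2 : ρ ^ 2 = d * e) (hy : 0 ≤ y) (hy2 : y ^ 2 = (i * d - N) * (i * e - N)) :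
    ∃ η, y = i * ρ * (T (N / i * (1 / d + 1 / e)) (N / i * (1 / d - 1 / e)) + η) ∧
      |η| ≤ 8 * (|N| / d) ^ 5 / i ^ 5 := by
  have he : 0 < e := hd.trans_le hde
  have i0 : 0 < i := by linarith
  have hw : 1 / e ≤ 1 / d := one_div_le_one_div_of_le hd hde
  have hw0 : 0 < 1 / e := by positivity
  have hx0 : 0 < 1 / d := by positivity
  refine ⟨y / (i * ρ) - T (N / i * (1 / d + 1 / e)) (N / i * (1 / d - 1 / e)), by field_simp; ring, ?_⟩
  have e1 : 2 * (|N| / d / i) = |N| / i * (2 * (1 / d)) := by ring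
  refine (tay (r := |N| / d / i) ?_ ?_ ?_ (by positivity) ?_).trans (le_of_eq (by ring))
  · rw [abs_mul, abs_div, abs_of_pos i0, abs_of_pos (by positivity : 0 < 1 / d + 1 / e), e1]
    gcongr; linarith
  · rw [abs_mul, abs_div, abs_of_pos i0, abs_of_nonneg (by linarith : 0 ≤ 1 / d - 1 / e), e1]
    gcongr; linarith
  · refine (div_le_self (by positivity) hi).trans ?_
    rw [div_le_iff₀ hd]; linarith
  · rw [div_pow, mul_pow, hρ2, hy2]; field_simp; ring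

theorem weights {a b c ea eb ec B : ℝ} (ha : 1 ≤ a) (hb : a + 1 ≤ b) (hc : b + 1 ≤ c) (hB : 0 ≤ B)
    (h1 : |ea| ≤ B / a ^ 5) (h2 : |eb| ≤ B / b ^ 5) (h3 : |ec| ≤ B / c ^ 5) :
    |(a ^ 2 * (c - b) * ea - b ^ 2 * (c - a) * eb + c ^ 2 * (b - a) * ec) * (a * b * c) /
      ((b - a) * (c - a) * (c - b))| ≤ 7 * B := by
  have a0 : 0 < a := by linarith
  have b0 : 0 < b := by linarith
  have c0 : 0 < c := by linarith
  have ab : 0 < b - a := by linarith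
  have ac : 0 < c - a := by linarith
  have bc : 0 < c - b := by linarith
  have e : (a ^ 2 * (c - b) * ea - b ^ 2 * (c - a) * eb + c ^ 2 * (b - a) * ec) * (a * b * c) /
      ((b - a) * (c - a) * (c - b)) = ea * a ^ 5 * (b * c / (a ^ 2 * (b - a) * (c - a))) -
        eb * b ^ 5 * (a * c / (b ^ 2 * (b - a) * (c - b))) +
        ec * c ^ 5 * (a * b / (c ^ 2 * (c - a) * (c - b))) := by field_simp
  have key : ∀ u i v k : ℝ, 0 < i → |u| ≤ B / i ^ 5 → 0 ≤ v → v ≤ k → |u * i ^ 5 * v| ≤ k * B := by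
    intro u i v k hi hu hv hk
    rw [abs_mul, abs_mul, abs_of_pos (pow_pos hi 5), abs_of_nonneg hv, mul_comm k]
    exact mul_le_mul ((le_div_iff₀ (pow_pos hi 5)).1 hu) hk hv hB
  have k1 := key ea a (b * c / (a ^ 2 * (b - a) * (c - a))) 4 a0 h1 (by positivity) (by
    rw [div_le_iff₀ (by positivity)]
    calc b * c ≤ (2 * a * (b - a)) * (2 * a * (c - a)) := by gcongr <;> nlinarith
      _ = _ := by ring)
  have k2 := key eb b (a * c / (b ^ 2 * (b - a) * (c - b))) 2 b0 h2 (by positivity) (by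
    rw [div_le_iff₀ (by positivity)]
    calc a * c ≤ (b * (b - a)) * (2 * b * (c - b)) := by gcongr <;> nlinarith
      _ = _ := by ring)
  have k3 := key ec c (a * b / (c ^ 2 * (c - a) * (c - b))) 1 c0 h3 (by positivity) (by
    rw [div_le_iff₀ (by positivity)]
    calc a * b ≤ (c * (c - a)) * (c * (c - b)) := by gcongr <;> nlinarith
      _ = _ := by ring)
  rw [e]
  have := abs_le.1 k1
  have := abs_le.1 k2
  have := abs_le.1 k3
  rw [abs_le]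
  constructor <;> linarith

theorem core {a b c d e N z ya yb yc : ℝ} (ha : 1 ≤ a) (hb : a + 1 ≤ b) (hc : b + 1 ≤ c)
    (hM : 1 ≤ |N|) (hd : 10000 * |N| ^ 6 ≤ d) (he : 10000 * |N| ^ 6 * c ^ 3 * d ^ 2 ≤ e)
    (hz : 0 ≤ z) (hz2 : z ^ 2 = d * e - N)
    (ya0 : 0 ≤ ya) (ya2 : ya ^ 2 = (a * d - N) * (a * e - N))
    (yb0 : 0 ≤ yb) (yb2 : yb ^ 2 = (b * d - N) * (b * e - N))
    (yc0 : 0 ≤ yc) (yc2 : yc ^ 2 = (c * d - N) * (c * e - N)) {W : ℝ}
    (hW : W = (b - a) * (c - a) * (c - b) * z -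
      (a * (c - b) * ya - b * (c - a) * yb + c * (b - a) * yc)) :
    W ≠ 0 ∧ W ^ 2 * d ^ 5 ≤ 10000 * |N| ^ 6 * c ^ 2 * e := by
  obtain ⟨M, hMN⟩ : ∃ M, M = |N| := ⟨_, rfl⟩
  rw [← hMN] at hM hd he ⊢
  have a0 : 0 < a := by linarith
  have b0 : 0 < b := by linarith
  have c0 : 0 < c := by linarith
  have c1 : 1 ≤ c := by linarith
  have ab : 0 < b - a := by linarith
  have ac : 0 < c - a := by linarith
  have bc : 0 < c - b := by linarith
  have M0 : 0 < M := by linarith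
  have M6 : M ≤ M ^ 6 := le_self_pow₀ hM (by norm_num)
  have d1 : 1 ≤ d := by linarith
  have d0 : 0 < d := by linarith
  have de2 : 2 * d ≤ e := by
    refine le_trans ?_ he
    have h1 : 1 ≤ c ^ 3 := one_le_pow₀ c1
    have h2 : d ≤ d ^ 2 := le_self_pow₀ d1 (by norm_num)
    calc 2 * d = 2 * 1 * d := by ring
      _ ≤ _ := by gcongr; linarith
  have de : d ≤ e := by linarith
  have e0 : 0 < e := by linarith
  have hN4 : 4 * |N| ≤ d := by rw [← hMN]; linarith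
  obtain ⟨ρ, ρ0, hρ⟩ : ∃ ρ : ℝ, 0 < ρ ∧ ρ ^ 2 = d * e :=
    ⟨√(d * e), Real.sqrt_pos.2 (by positivity), Real.sq_sqrt (by positivity)⟩
  obtain ⟨ea, ha1, ha2⟩ := one ha d0 de hN4 ρ0 hρ ya0 ya2
  obtain ⟨eb, hb1, hb2⟩ := one (by linarith : 1 ≤ b) d0 de hN4 ρ0 hρ yb0 yb2
  obtain ⟨ec, hc1, hc2⟩ := one c1 d0 de hN4 ρ0 hρ yc0 yc2
  have hE := weights ha hb hc (by positivity) ha2 hb2 hc2
  rw [← hMN] at hE
  obtain ⟨x, hx⟩ : ∃ x, x = 1 / d := ⟨_, rfl⟩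
  obtain ⟨w, hw⟩ : ∃ w, w = 1 / e := ⟨_, rfl⟩
  rw [← hx, ← hw] at ha1 hb1 hc1
  have x0 : 0 < x := by rw [hx]; positivity
  have w0 : 0 < w := by rw [hw]; positivity
  have xd : x * d = 1 := by rw [hx]; field_simp
  have we : w * e = 1 := by rw [hw]; field_simp
  have wx : w ≤ x / 2 := by
    rw [hw, hx, div_div]; exact one_div_le_one_div_of_le (by positivity) (by linarith)
  have xK : 10000 * M ^ 6 * x ≤ 1 := by rw [← xd, mul_comm x]; gcongr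
  have wK : 10000 * M ^ 6 * (c ^ 3 * w) ≤ x ^ 2 := by
    calc _ = 10000 * M ^ 6 * c ^ 3 * d ^ 2 * (w * x ^ 2) := by
          have : d ^ 2 * x ^ 2 = 1 := by rw [← mul_pow, mul_comm, xd, one_pow]
          linear_combination (-(10000 * M ^ 6 * c ^ 3 * w)) * this
      _ ≤ e * (w * x ^ 2) := by gcongr
      _ = _ := by linear_combination x ^ 2 * we
  rw [show M / d = M * x by rw [hx]; ring] at hE
  obtain ⟨E, hEd⟩ : ∃ E, E = (a ^ 2 * (c - b) * ea - b ^ 2 * (c - a) * eb + c ^ 2 * (b - a) * ec) *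
    (a * b * c) / ((b - a) * (c - a) * (c - b)) := ⟨_, rfl⟩
  rw [← hEd] at hE
  obtain ⟨Λ, hΛ⟩ : ∃ Λ, Λ = (b - a) * (c - a) * (c - b) / (a * b * c) := ⟨_, rfl⟩
  have Λ0 : 0 < Λ := by rw [hΛ]; positivity
  have Λc : Λ ≤ c := by
    rw [hΛ, div_le_iff₀ (by positivity)]
    calc _ ≤ b * c * c := by gcongr <;> linarith
      _ = c * (1 * b * c) := by ring
      _ ≤ _ := by gcongr
  obtain ⟨m, hm⟩ : ∃ m, m = N ^ 3 * ((x + w) * (x - w) ^ 2) / 16 := ⟨_, rfl⟩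
  obtain ⟨g1, hg1⟩ : ∃ g, g = a * b * c * ((z - ρ) / ρ) := ⟨_, rfl⟩
  obtain ⟨g2, hg2⟩ : ∃ g, g = N ^ 4 * (((x + w) ^ 2 * (x - w) ^ 2 / 32 + (x - w) ^ 4 / 128) *
    (1 / a + 1 / b + 1 / c)) := ⟨_, rfl⟩
  have id : W = ρ * Λ * (m + (g1 + g2 - E)) := by
    rw [hW, ha1, hb1, hc1, hΛ, hm, hg1, hg2, hEd, T, T, T]; field_simp; ring
  have δ1 : x / 2 ≤ x - w := by linarith
  have δ0 : 0 ≤ x - w := by linarith
  have δ2 : x - w ≤ x := by linarith
  have σ1 : x ≤ x + w := by linarith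
  have σ2 : x + w ≤ 2 * x := by linarith
  have am : |m| = M ^ 3 * ((x + w) * (x - w) ^ 2) / 16 := by
    rw [hm, abs_div, abs_mul, abs_pow, ← hMN, abs_of_nonneg (by positivity : 0 ≤ (x + w) * (x - w) ^ 2),
      abs_of_pos (by norm_num : (0 : ℝ) < 16)]
  have m1 : M ^ 3 * x ^ 3 / 64 ≤ |m| := by
    rw [am]
    calc _ = M ^ 3 * (x * (x / 2) ^ 2) / 16 := by ring
      _ ≤ _ := by gcongr
  have m2 : |m| ≤ M ^ 3 * x ^ 3 / 8 := by
    rw [am]
    calc _ ≤ M ^ 3 * (2 * x * x ^ 2) / 16 := by gcongr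
      _ = _ := by ring
  have M56 : M ^ 5 ≤ M ^ 6 := pow_le_pow_right₀ hM (by norm_num)
  have M46 : M ^ 4 ≤ M ^ 6 := pow_le_pow_right₀ hM (by norm_num)
  have x1 : x ≤ 1 := by rw [hx, div_le_one d0]; exact d1
  have b1 : |g1| ≤ x ^ 3 / 10000 := by
    have h1 : |(z - ρ) / ρ| ≤ M * (x * w) := by
      have h2 : |z - ρ| * (z + ρ) = M := by
        rw [← abs_of_pos (by positivity : 0 < z + ρ), ← abs_mul, hMN, ← abs_neg N]
        congr 1; linear_combination hz2 - hρ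
      have h3 : |z - ρ| * ρ ≤ M := by
        rw [← h2]; exact mul_le_mul_of_nonneg_left (by linarith) (abs_nonneg _)
      have h4 : ρ ^ 2 * (x * w) = 1 := by rw [hρ]; linear_combination w * e * xd + we
      rw [abs_div, abs_of_pos ρ0, div_le_iff₀ ρ0]
      calc |z - ρ| = |z - ρ| * ρ * (x * w) * ρ := by linear_combination (-|z - ρ|) * h4
        _ ≤ M * (x * w) * ρ := by gcongr
    rw [hg1, abs_mul, abs_of_pos (by positivity : 0 < a * b * c)]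
    calc _ ≤ c * c * c * (M ^ 6 * (x * w)) := by
          refine mul_le_mul (by gcongr <;> linarith) (h1.trans (by gcongr)) (abs_nonneg _)
            (by positivity)
      _ = 10000 * M ^ 6 * (c ^ 3 * w) * x / 10000 := by ring
      _ ≤ x ^ 2 * x / 10000 := by gcongr
      _ = _ := by ring
  have b2 : |g2| ≤ x ^ 3 / 10000 := by
    have h1 : 1 / a ≤ 1 := by rw [div_le_one a0]; exact ha
    have h2 : 1 / b ≤ 1 := by rw [div_le_one b0]; linarith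
    have h3 : 1 / c ≤ 1 := by rw [div_le_one c0]; exact c1
    rw [hg2, abs_mul, abs_pow, ← hMN, abs_of_nonneg (by positivity)]
    calc _ ≤ M ^ 6 * (((2 * x) ^ 2 * x ^ 2 / 32 + x ^ 4 / 128) * (1 + 1 + 1)) := by gcongr
      _ = 10000 * M ^ 6 * x * (x ^ 3 * (51 / 128) / 10000) := by ring
      _ ≤ 1 * (x ^ 3 * 1 / 10000) := by gcongr; norm_num
      _ = _ := by ring
  have b3 : |E| ≤ 56 * x ^ 3 / 10000 := by
    refine hE.trans ?_
    calc _ = 10000 * M ^ 5 * x * (56 * x ^ 3 * x / 10000) := by ring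
      _ ≤ 10000 * M ^ 6 * x * (56 * x ^ 3 * 1 / 10000) := by gcongr
      _ ≤ 1 * (56 * x ^ 3 * 1 / 10000) := by gcongr
      _ = _ := by ring
  have x3 : 0 < x ^ 3 := by positivity
  have M3 : x ^ 3 ≤ M ^ 3 * x ^ 3 := le_mul_of_one_le_left x3.le (one_le_pow₀ hM)
  have b4 : |g1 + g2 - E| ≤ M ^ 3 * x ^ 3 / 128 := by
    have := abs_le.1 b1
    have := abs_le.1 b2
    have := abs_le.1 b3
    rw [abs_le]
    constructor <;> linarith
  have lo : 0 < |m + (g1 + g2 - E)| := by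
    have := abs_sub_abs_le_abs_sub m (-(g1 + g2 - E))
    rw [abs_neg, sub_neg_eq_add] at this
    linarith
  have up : |m + (g1 + g2 - E)| ≤ M ^ 3 * x ^ 3 := by
    have := abs_add_le m (g1 + g2 - E)
    linarith
  refine ⟨by rw [id]; exact mul_ne_zero (by positivity) (abs_pos.1 lo), ?_⟩
  have x5 : x ^ 6 * d ^ 6 = 1 := by rw [← mul_pow, xd, one_pow]
  calc W ^ 2 * d ^ 5 = ρ ^ 2 * Λ ^ 2 * |m + (g1 + g2 - E)| ^ 2 * d ^ 5 := by
        rw [id, sq_abs]; ring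
    _ ≤ ρ ^ 2 * c ^ 2 * (M ^ 3 * x ^ 3) ^ 2 * d ^ 5 := by gcongr
    _ = 1 * M ^ 6 * c ^ 2 * e := by rw [hρ]; linear_combination (M ^ 6 * c ^ 2 * e) * x5
    _ ≤ _ := by gcongr; norm_num

theorem root {k : ℤ} (h : IsSquare k) : ∃ s : ℤ, 0 ≤ s ∧ s ^ 2 = k := by
  obtain ⟨r, rfl⟩ := h
  exact ⟨|r|, abs_nonneg r, by rw [sq_abs, sq]⟩

end G5

theorem g5 : S_G5 := by
  intro n hn
  have n1 : 1 ≤ |n| := Int.one_le_abs hn
  refine ⟨10000 * |n| ^ 6, by positivity, fun a b c d e ha hab hbc _ hd he h1 h2 h3 h4 h5 h6 h7 => ?_⟩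
  obtain ⟨sa, sa0, sa2⟩ := G5.root h1
  obtain ⟨sb, sb0, sb2⟩ := G5.root h2
  obtain ⟨sc, sc0, sc2⟩ := G5.root h3
  obtain ⟨xa, xa0, xa2⟩ := G5.root h4
  obtain ⟨xb, xb0, xb2⟩ := G5.root h5
  obtain ⟨xc, xc0, xc2⟩ := G5.root h6
  obtain ⟨z, z0, z2⟩ := G5.root h7
  have pr : ∀ {i s x : ℤ}, s ^ 2 = i * d + n → x ^ 2 = i * e + n →
      ((s * x : ℤ) : ℝ) ^ 2 = (i * d - -n) * (i * e - -n) := fun {i s x} hs hx => by
    have : (s * x) ^ 2 = (i * d - -n) * (i * e - -n) := by rw [mul_pow, hs, hx]; ring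
    exact_mod_cast this
  obtain ⟨W, hW⟩ : ∃ W : ℤ, W = (b - a) * (c - a) * (c - b) * z -
    (a * (c - b) * (sa * xa) - b * (c - a) * (sb * xb) + c * (b - a) * (sc * xc)) := ⟨_, rfl⟩
  obtain ⟨k1, k2⟩ := G5.core (a := a) (b := b) (c := c) (d := d) (e := e) (N := -n) (z := z)
    (ya := (sa * xa : ℤ)) (yb := (sb * xb : ℤ)) (yc := (sc * xc : ℤ)) (W := W)
    (by exact_mod_cast ha) (by exact_mod_cast hab) (by exact_mod_cast hbc)
    (by rw [abs_neg]; exact_mod_cast n1) (by rw [abs_neg]; exact_mod_cast hd)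
    (by rw [abs_neg]; exact_mod_cast he) (by exact_mod_cast z0)
    (by rw [sub_neg_eq_add]; exact_mod_cast z2)
    (by exact_mod_cast mul_nonneg sa0 xa0) (pr sa2 xa2)
    (by exact_mod_cast mul_nonneg sb0 xb0) (pr sb2 xb2)
    (by exact_mod_cast mul_nonneg sc0 xc0) (pr sc2 xc2) (by exact_mod_cast hW)
  rw [abs_neg] at k2
  have k3 : W ≠ 0 := by exact_mod_cast k1
  have k4 : W ^ 2 * d ^ 5 ≤ 10000 * |n| ^ 6 * c ^ 2 * e := by exact_mod_cast k2
  have k5 : 1 ≤ W ^ 2 := (one_le_sq_iff_one_le_abs W).2 (Int.one_le_abs k3)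
  have d0 : 0 < d := lt_of_lt_of_le (by positivity) hd
  exact (le_mul_of_one_le_left (by positivity) k5).trans k4

end Pool.Agent.MP_2339ce_nt.DQ

end
end MrgPart0

-- ======== part 1: formerly Pool.Agent.MP_2339ce_nt.DQ.Q3
section MrgPart1

/-! Project DQ, row Q3: inside the window the integer `h` vanishes. -/

set_option autoImplicit false

namespace Pool.Agent.MP_2339ce_nt.DQ

namespace Q3

variable {N K0 : ℤ} (q : Qd N)

theorem p_pos (W : q.Win K0) : 1 ≤ |q.P| := by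
  have h := W.low
  have := mul_pos q.a0 q.c0
  by_contra hc
  have h0 : |q.P| = 0 := by have := abs_nonneg q.P; omega
  rw [h0] at h; omega

theorem sq_le {u v : ℤ} (hc : |N| ≤ q.c) (hv : v ≤ q.c) (h : u ^ 2 = q.a * v - N) :
    u ^ 2 ≤ 2 * (q.a * q.c) := by
  have h1 : q.a * v ≤ q.a * q.c := mul_le_mul_of_nonneg_left hv q.a0.le
  have h2 : q.c ≤ q.a * q.c := le_mul_of_one_le_left q.c0.le q.a0
  have := neg_abs_le N
  linarith

theorem m_le (W : q.Win K0) (hc : 2 * |N| ≤ q.c) : q.m0 ≤ 4 * |N| * (K0 + 2 * |N|) := by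
  have hp := p_pos q W
  have hn := abs_nonneg N
  have hm : 0 ≤ q.m0 := by have := W.m; omega
  have ha := q.a0; have hc0 := q.c0
  have h1 := q.m0_le hm
  have h2 := q.P_le hc
  have h3 := sq_le q (by omega) q.bc.le q.hr
  rw [← sq_abs q.P] at h1
  have h4 := W.up
  generalize |q.P| = p at *
  generalize |N| = n at *
  have h5 : p ^ 2 ≤ K0 * (q.a * q.c * p) := by
    rw [sq]; linarith [mul_le_mul_of_nonneg_right h4 (by omega : 0 ≤ p)]
  have h6 : n * q.r ^ 2 ≤ 2 * n * (q.a * q.c * p) := by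
    have : q.a * q.c ≤ q.a * q.c * p := le_mul_of_one_le_right (by positivity) hp
    linarith [mul_le_mul_of_nonneg_left (h3.trans (by linarith : _ ≤ 2 * (q.a * q.c * p))) hn]
  refine le_of_mul_le_mul_right ?_ (by positivity : 0 < q.a * q.c * p)
  calc q.m0 * (q.a * q.c * p) = q.a * q.m0 * (q.c * p) := by ring
    _ ≤ q.a * q.m0 * (4 * n * q.z) := by gcongr
    _ = 4 * n * (q.a * q.m0 * q.z) := by ring
    _ ≤ 4 * n * (K0 * (q.a * q.c * p) + 2 * n * (q.a * q.c * p)) := by gcongr; linarith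
    _ = _ := by ring

theorem g_le (W : q.Win K0) (hc : 2 * |N| ≤ q.c) :
    |q.g| ≤ 4 * |N| ^ 2 * (2 * K0 + 64 * |N|) := by
  have hp := p_pos q W
  have hn := abs_nonneg N
  have hg := abs_nonneg q.g
  have ha := q.a0; have hc0 := q.c0; have := q.s0; have := q.x0
  have h1 := q.g_abs
  have h2 := q.P_le hc
  have h3 := sq_le q (by omega) le_rfl q.hs
  rw [← sq_abs q.P] at h1
  have h4 := W.up
  have h7 := W.low
  generalize |q.P| = p at *
  generalize |N| = n at *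
  generalize |q.g| = G at *
  have h5 : p ^ 2 ≤ K0 * (q.a * q.c * p) := by
    rw [sq]; linarith [mul_le_mul_of_nonneg_right h4 (by omega : 0 ≤ p)]
  have hca : 0 ≤ q.c - q.a := (sub_pos.2 q.ac).le
  have hca' : q.c - q.a ≤ q.c := by omega
  have := q.z0
  have h6 : 8 * q.a * q.s ^ 2 * (q.c - q.a) ≤ 64 * n * (q.a * q.c * p) :=
    calc 8 * q.a * q.s ^ 2 * (q.c - q.a) ≤ 8 * q.a * (2 * (q.a * q.c)) * q.c := by gcongr
      _ = 16 * (q.a * q.c) * (q.a * q.c) := by ring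
      _ ≤ 16 * (q.a * q.c) * (4 * n * p) := by gcongr
      _ = _ := by ring
  have h8 : G * (q.a * q.z) ≤ n * (2 * p ^ 2 + 8 * q.a * q.s ^ 2 * (q.c - q.a)) := by
    rw [← h1]; gcongr; exact le_add_of_nonneg_right (by positivity)
  refine le_of_mul_le_mul_right ?_ (by positivity : 0 < q.a * q.c * p)
  calc G * (q.a * q.c * p) = G * q.a * (q.c * p) := by ring
    _ ≤ G * q.a * (4 * n * q.z) := by gcongr
    _ = 4 * n * (G * (q.a * q.z)) := by ring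
    _ ≤ 4 * n * (n * (2 * p ^ 2 + 8 * q.a * q.s ^ 2 * (q.c - q.a))) := by gcongr
    _ ≤ 4 * n * (n * (2 * (K0 * (q.a * q.c * p)) + 64 * n * (q.a * q.c * p))) := by gcongr
    _ = _ := by ring

theorem D_le (W : q.Win K0) (hc : |N| ≤ q.c) {M G : ℤ} (hM : q.m0 ≤ M) (hG : |q.g| ≤ G) :
    q.b * |q.D| ≤ |N| * (1 + M) ^ 2 * (q.a * |q.P|) + (8 * |N| ^ 3 + M * (|N| + G)) * q.b := by
  have hp := p_pos q W
  have hn := abs_nonneg N
  have hm := W.m
  have ha := q.a0; have hb := q.b0; have hab := q.ab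
  have hG0 := (abs_nonneg _).trans hG
  have hM0 : 0 ≤ M := by omega
  have h3 := (sq_le q hc q.bc.le q.hr).trans (mul_le_mul_of_nonneg_left W.low zero_le_two)
  have hQ : |q.Q| ≤ (1 + M) * |q.P| := by
    have e : q.Q = q.P - q.m0 := by unfold Qd.m0; ring
    have := abs_sub q.P q.m0
    rw [← e, abs_of_pos (by omega : 0 < q.m0)] at this
    have : M ≤ M * |q.P| := le_mul_of_one_le_right hM0 hp
    linarith
  have k0 : |2 * q.b * q.P * q.D| = 2 * (q.b * |q.D|) * |q.P| := by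
    simp only [abs_mul, abs_of_pos hb, abs_two]; ring
  have k1 : |2 * N * q.a * q.Q ^ 2| ≤ 2 * (|N| * (1 + M) ^ 2 * (q.a * |q.P|)) * |q.P| := by
    simp only [abs_mul, abs_of_pos ha, abs_two, abs_pow]
    calc _ ≤ 2 * |N| * q.a * ((1 + M) * |q.P|) ^ 2 := by gcongr
      _ = _ := by ring
  have k2 : |2 * N ^ 2 * q.r ^ 2 * (q.b - q.a)| ≤ 2 * (8 * |N| ^ 3 * q.b) * |q.P| := by
    rw [abs_of_nonneg (by have := sub_pos.2 hab; positivity), ← sq_abs N]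
    calc _ ≤ 2 * |N| ^ 2 * (2 * (4 * |N| * |q.P|)) * q.b := by gcongr; omega
      _ = _ := by ring
  have k3 : |q.b * q.m0 * (2 * N * q.P + q.g)| ≤ 2 * (M * (|N| + G) * q.b) * |q.P| := by
    have t1 : |2 * N * q.P + q.g| ≤ 2 * (|N| + G) * |q.P| := by
      have := abs_add_le (2 * N * q.P) q.g
      rw [abs_mul, abs_mul, abs_two] at this
      have : G ≤ G * |q.P| := le_mul_of_one_le_right hG0 hp
      linarith
    rw [abs_mul, abs_mul, abs_of_pos hb, abs_of_pos (by omega : 0 < q.m0)]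
    calc _ ≤ q.b * M * (2 * (|N| + G) * |q.P|) := by gcongr
      _ = _ := by ring
  have k4 := abs_sub (2 * N * q.a * q.Q ^ 2 - 2 * N ^ 2 * q.r ^ 2 * (q.b - q.a))
    (q.b * q.m0 * (2 * N * q.P + q.g))
  have k5 := abs_sub (2 * N * q.a * q.Q ^ 2) (2 * N ^ 2 * q.r ^ 2 * (q.b - q.a))
  rw [← q.e4, k0] at k4
  refine le_of_mul_le_mul_right ?_ (by omega : 0 < 2 * |q.P|)
  linarith

theorem h_le (W : q.Win K0) {M G : ℤ} (hM : q.m0 ≤ M) (hG : |q.g| ≤ G) :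
    4 * (q.a * q.c) * |q.h| ≤ M * (64 * |N| ^ 3 * (2 * |N| + 1)) * q.a ^ 2 +
      M * (4 * |N| * G + G ^ 2) + 4 * |N| * (M + 4 * |N| ^ 2) * |q.D| := by
  have hp := p_pos q W
  have hn := abs_nonneg N
  have hm := W.m
  have ha := q.a0; have hc := q.c0; have hac := q.ac
  have hG0 := (abs_nonneg _).trans hG
  have hM0 : 0 ≤ M := by omega
  have hl := W.low
  have k0 : |4 * q.a * q.c * q.P * q.h| = 4 * (q.a * q.c) * |q.h| * |q.P| := by
    simp only [abs_mul, abs_of_pos ha, abs_of_pos hc, Nat.abs_ofNat]; ring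
  have t1 : |q.m0 * q.P - q.a * q.c * N| ≤ (M + 4 * |N| ^ 2) * |q.P| := by
    have := abs_sub (q.m0 * q.P) (q.a * q.c * N)
    rw [abs_mul, abs_mul, abs_of_pos (by omega : 0 < q.m0), abs_of_pos (mul_pos ha hc)] at this
    have u1 : q.m0 * |q.P| ≤ M * |q.P| := by gcongr
    have u2 : q.a * q.c * |N| ≤ 4 * |N| * |q.P| * |N| := by gcongr
    linarith
  have k1 : |4 * N * q.D * (q.m0 * q.P - q.a * q.c * N)| ≤
      4 * |N| * (M + 4 * |N| ^ 2) * |q.D| * |q.P| := by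
    rw [abs_mul, abs_mul, abs_mul, Nat.abs_ofNat]
    calc _ ≤ 4 * |N| * |q.D| * ((M + 4 * |N| ^ 2) * |q.P|) := by gcongr
      _ = _ := by ring
  have t2 : |N * q.c + q.a ^ 2 * q.c - N * q.a| ≤ (2 * |N| + 1) * (q.a ^ 2 * q.c) := by
    have u0 : q.c ≤ q.a ^ 2 * q.c := le_mul_of_one_le_left hc.le (one_le_pow₀ ha)
    have u1 : |N * (q.c - q.a)| ≤ |N| * (q.a ^ 2 * q.c) := by
      rw [abs_mul, abs_of_pos (sub_pos.2 hac)]; gcongr; omega
    have u2 := abs_add_le (N * (q.c - q.a)) (q.a ^ 2 * q.c)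
    rw [abs_of_pos (by positivity : 0 < q.a ^ 2 * q.c)] at u2
    have u3 : 0 ≤ |N| * (q.a ^ 2 * q.c) := by positivity
    rw [show N * q.c + q.a ^ 2 * q.c - N * q.a = N * (q.c - q.a) + q.a ^ 2 * q.c by ring]
    linarith
  have t3 : |16 * q.a * N ^ 2 * (N * q.c + q.a ^ 2 * q.c - N * q.a)| ≤
      64 * |N| ^ 3 * (2 * |N| + 1) * q.a ^ 2 * |q.P| := by
    rw [abs_mul, abs_of_nonneg (by positivity : 0 ≤ 16 * q.a * N ^ 2), ← sq_abs N]
    calc _ ≤ 16 * q.a * |N| ^ 2 * ((2 * |N| + 1) * (q.a ^ 2 * q.c)) := by gcongr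
      _ = 16 * |N| ^ 2 * (2 * |N| + 1) * q.a ^ 2 * (q.a * q.c) := by ring
      _ ≤ 16 * |N| ^ 2 * (2 * |N| + 1) * q.a ^ 2 * (4 * |N| * |q.P|) := by gcongr
      _ = _ := by ring
  have t4 : |4 * N * q.P * q.g| ≤ 4 * |N| * G * |q.P| := by
    simp only [abs_mul, Nat.abs_ofNat]
    calc _ ≤ 4 * |N| * |q.P| * G := by gcongr
      _ = _ := by ring
  have t5 : |q.g ^ 2| ≤ G ^ 2 * |q.P| := by
    rw [abs_pow]
    exact (pow_le_pow_left₀ (abs_nonneg _) hG 2).trans (le_mul_of_one_le_right (by positivity) hp)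
  have k2 : |q.m0 * (16 * q.a * N ^ 2 * (N * q.c + q.a ^ 2 * q.c - N * q.a) -
      4 * N * q.P * q.g - q.g ^ 2)| ≤ M * ((64 * |N| ^ 3 * (2 * |N| + 1) * q.a ^ 2 +
        (4 * |N| * G + G ^ 2)) * |q.P|) := by
    rw [abs_mul, abs_of_pos (by omega : 0 < q.m0)]
    gcongr
    have u1 := abs_sub (16 * q.a * N ^ 2 * (N * q.c + q.a ^ 2 * q.c - N * q.a) - 4 * N * q.P * q.g)
      (q.g ^ 2)
    have u2 := abs_sub (16 * q.a * N ^ 2 * (N * q.c + q.a ^ 2 * q.c - N * q.a)) (4 * N * q.P * q.g)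
    linarith
  have k3 := abs_sub (q.m0 * (16 * q.a * N ^ 2 * (N * q.c + q.a ^ 2 * q.c - N * q.a) -
      4 * N * q.P * q.g - q.g ^ 2)) (4 * N * q.D * (q.m0 * q.P - q.a * q.c * N))
  rw [q.e5, sub_sub_cancel, k0, ← q.e5] at k3
  refine le_of_mul_le_mul_right ?_ (by omega : 0 < |q.P|)
  linarith

theorem fin {a b c p D h K k0 k1 k2 k3 k4 k5 : ℤ} (ha : 0 < a) (hb : 0 < b) (hbc : b < c)
    (h1 : 0 ≤ k1) (h5 : 0 ≤ k5) (hp : p ≤ k0 * a * c) (hD : b * D ≤ k1 * (a * p) + k2 * b)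
    (hh : 4 * (a * c) * h ≤ k3 * a ^ 2 + k4 + k5 * D) (hc : K ≤ c) (hK : K * a ≤ b)
    (c1 : k3 ≤ K) (c2 : k4 + k5 * k2 ≤ K) (c3 : k5 * k1 * k0 ≤ K) : h < 1 := by
  by_contra h0
  have hc0 := hb.trans hbc
  have u0 : 4 * (a * c) * 1 ≤ 4 * (a * c) * h := by gcongr; omega
  have u1 := mul_le_mul_of_nonneg_left (u0.trans hh) hb.le
  have u2 := mul_le_mul_of_nonneg_left hD h5
  have u3 : k5 * k1 * a * p ≤ k5 * k1 * a * (k0 * a * c) := by gcongr
  have v1 : k3 * a * (a * b) ≤ c * (a * b) := by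
    gcongr; exact (mul_le_mul_of_nonneg_right c1 ha.le).trans (hK.trans hbc.le)
  have v2 : (k4 + k5 * k2) * b ≤ a * c * b := by
    gcongr; exact (c2.trans hc).trans (le_mul_of_one_le_left hc0.le ha)
  have v3 : k5 * k1 * k0 * a * (a * c) ≤ b * (a * c) := by
    gcongr; exact (mul_le_mul_of_nonneg_right c3 ha.le).trans hK
  have : 0 < a * b * c := by positivity
  linarith

end Q3

open Q3 in
theorem q3 : S_Q3 := by
  intro N _ K0
  obtain ⟨M, hM⟩ : ∃ M, M = 4 * |N| * (K0 + 2 * |N|) := ⟨_, rfl⟩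
  obtain ⟨G, hG⟩ : ∃ G, G = 4 * |N| ^ 2 * (2 * K0 + 64 * |N|) := ⟨_, rfl⟩
  refine ⟨max (max (max 1 (2 * |N|)) (max M G)) (max (M * (64 * |N| ^ 3 * (2 * |N| + 1)))
    (max (M * (4 * |N| * G + G ^ 2) + 4 * |N| * (M + 4 * |N| ^ 2) * (8 * |N| ^ 3 + M * (|N| + G)))
      (4 * |N| * (M + 4 * |N| ^ 2) * (|N| * (1 + M) ^ 2) * K0))), by omega, fun q hc hK W => ?_⟩
  have h2 : 2 * |N| ≤ q.c := by omega
  have hn := abs_nonneg N
  have hm := m_le q W h2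
  have hg := g_le q W h2
  rw [← hM] at hm
  rw [← hG] at hg
  have hM0 : 0 ≤ M := by have := W.m; omega
  refine ⟨?_, by omega, by omega⟩
  have := fin q.a0 q.b0 q.bc (by positivity) (by positivity) W.up (D_le q W (by omega) hm hg)
    (h_le q W hm hg) hc hK (by omega) (by omega) (by omega)
  exact Int.abs_lt_one_iff.1 this

end Pool.Agent.MP_2339ce_nt.DQ

end MrgPart1

-- ======== part 2: formerly Pool.Agent.MP_2339ce_nt.DQ.SpecX
section MrgPart2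

/-! Project DQ, explicit constants: row statements. -/

set_option autoImplicit false

noncomputable section

namespace Pool.Agent.MP_2339ce_nt.DQ

open Real

/-- quantification over the non-squares `-N` and the bounds `M` -/
def NX (F : ℤ → ℤ → Prop) : Prop := ∀ N M : ℤ, ¬ IsSquare (-N) → |N| < M → F N M

def X_SIZE : Prop := ∀ N M : ℤ, |N| < M → 2 ≤ M → ∀ (ρ kp kq : ℕ) (p q d e np nq n0 : ℤ),
  Adm ρ kp kq → Cfg N p q d e np nq n0 →
    |sc ρ kp kq p q d np nq * ww ρ kp kq p q d e np nq n0| ≤ ((M : ℝ) ^ 20) ^ (ρ + kp + kq) *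
      d ^ ρ * (q ^ (kp - 1) / (p ^ kp * d ^ (ρ + kp + kq)) + q ^ (ρ + kp + kq - 2) / e)

def X_DICH : Prop := ∀ N M : ℤ, |N| < M → 2 ≤ M → ∀ (ρ kp kq : ℕ) (p q d e np nq n0 : ℤ),
  Adm ρ kp kq → Cfg N p q d e np nq n0 → ww ρ kp kq p q d e np nq n0 ≠ 0 →
    Di (50 * log M) (log p) (log q) (log d) (log e) ρ kp kq

def X_G5 : Prop := ∀ n M : ℤ, n ≠ 0 → |n| < M → ∀ a b c d e : ℤ, 0 < a → a < b → b < c →
  c < d → M ^ 50 ≤ d → M ^ 50 * c ^ 3 * d ^ 2 ≤ e → IsSquare (a * d + n) → IsSquare (b * d + n) →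
  IsSquare (c * d + n) → IsSquare (a * e + n) → IsSquare (b * e + n) → IsSquare (c * e + n) →
  IsSquare (d * e + n) → d ^ 5 ≤ M ^ 50 * c ^ 2 * e

def X_TRI : Prop := NX fun N M => ∀ T : Tr N, M ^ 50 ≤ T.c → 3 * T.a ≤ T.c

def X_LINE : Prop := NX fun N M => ∀ (T : Tr N) (A L j : ℤ), T.a ≤ M →
  |T.w| ≤ M → A ≠ 0 → |A| ≤ M → |L| ≤ M → |j| ≤ M → A * T.c = L * T.b + j → T.c ≤ M ^ 50

def X_REG : Prop := NX fun N M => ∀ q : Qd N, |q.Q| ≤ M → q.c ≤ M * q.b → q.c ≤ M ^ 50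

def X_Q1 : Prop := NX fun N M => ∀ q : Qd N, M ^ 2500 ≤ q.c →
  1 ≤ q.m0 ∧ q.a * q.c ≤ 4 * |N| * |q.P|

def X_Q2 : Prop := NX fun N M => ∀ q : Qd N, M ^ 50 ≤ q.c → 1 ≤ q.m0 →
  M ^ 50 * q.a * q.c ≤ |q.P| → M ^ 50 * |q.P| ≤ q.b * q.c → q.m1 = 0

def X_Q3 : Prop := NX fun N M => ∀ q : Qd N, M ^ 50 ≤ q.c → M ^ 50 * q.a ≤ q.b →
  q.Win M → q.h = 0 ∧ q.m0 ≤ M ^ 50 ∧ |q.g| ≤ M ^ 50

def X_Q4 : Prop := NX fun N M => ∀ q : Qd N, M ^ 50 ≤ q.c → M ^ 50 * q.a ≤ q.b → q.h = 0 →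
  2 * q.m0 ≠ |N|

def X_Q5 : Prop := NX fun N M => ∀ q : Qd N, M ^ 50 ≤ q.c → M ^ 50 * q.a ≤ q.b →
  q.Win M → q.h = 0 → q.m0 ≤ M → |q.g| ≤ M → 2 * q.m0 ≠ |N| →
    |q.D| ≤ M ^ 50 * q.a ^ 2 ∧ q.c ≤ M ^ 50 * q.b

def X_Q6 : Prop := NX fun N M => ∀ q : Qd N, M ^ 50 * q.a ≤ q.b → q.Win M →
  q.h = 0 → q.m0 ≤ M → |q.g| ≤ M → |q.D| ≤ M * q.a ^ 2 → q.c ≤ M * q.b → q.a ≤ M ^ 50

def X_Q7 : Prop := NX fun N M => ∀ q : Qd N, q.a ≤ M → |q.m0| ≤ M →
  |q.g| ≤ M → |q.D| ≤ M → q.c ≤ M * q.b → q.c ≤ M ^ 2500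

def X_Q8 : Prop := NX fun N M => N < 0 → ∀ q : Qd N, M ^ 100 ≤ q.c → 1 ≤ q.m0 →
  M ^ 100 * q.a * q.c ≤ |q.P| → q.m1 = 0 →
    q.a ≤ M ^ 100 ∧ q.c ≤ M ^ 100 * q.b ∧ q.Z ^ 2 ≤ M ^ 100 * q.c

def X_Q9 : Prop := NX fun N M => N < 0 → ∀ q : Qd N, q.m1 = 0 → q.a ≤ M →
  q.c ≤ M * q.b → q.Z ^ 2 ≤ M * q.c → q.c ≤ M ^ 5000

/-- the gap for four elements -/
def X_LQ : Prop := NX fun N M => ∀ q : Qd N, M ^ 10 ^ 11 ≤ q.c →
  q.b ^ 2 * q.c ^ 3 ≤ M ^ 10 ^ 11 * q.d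

/-- the third element -/
def X_BD : Prop := ∀ n M : ℤ, ¬ IsSquare n → |n| < M → ∀ a b c d e, Qt n a b c d e →
  c ≤ M ^ 10 ^ 14

/-- the fourth element -/
def X_BD4 : Prop := ∀ n M : ℤ, ¬ IsSquare n → |n| < M → ∀ a b c d e, Qt n a b c d e →
  d ≤ M ^ 10 ^ 15

def X_FIN : Prop := ∀ n : ℤ, ¬ IsSquare n → ∀ s : Finset ℤ, s.card = 5 → (∀ a ∈ s, a ≠ 0) →
  (∀ a ∈ s, ∀ b ∈ s, a ≠ b → IsSquare (a * b + n)) →
    ∀ a ∈ s, ∀ b ∈ s, a ≠ b → min |a| |b| ≤ (|n| + 1) ^ 10 ^ 15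

theorem two_le {N M : ℤ} (h : ¬ IsSquare (-N)) (hM : |N| < M) : 2 ≤ M := by
  have := Int.one_le_abs (ne_zero_of_ns h)
  omega

/-- a monomial with a small coefficient is a power -/
theorem mon_le {M c : ℤ} (hM : 2 ≤ M) (i j k : ℕ) (hc : c ≤ 2 ^ i) (h : i + j ≤ k) :
    c * M ^ j ≤ M ^ k :=
  calc c * M ^ j ≤ M ^ i * M ^ j := by
        have : (2 : ℤ) ^ i ≤ M ^ i := by gcongr
        have : 0 ≤ M ^ j := by positivity
        exact mul_le_mul_of_nonneg_right (by omega) this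
    _ = M ^ (i + j) := (pow_add M i j).symm
    _ ≤ M ^ k := pow_le_pow_right₀ (by omega) h

theorem lt_pow {N M : ℤ} (hM : 2 ≤ M) (h : |N| < M) {k : ℕ} (hk : k ≠ 0) : |N| < M ^ k :=
  h.trans_le (le_self_pow₀ (by omega) hk)

end Pool.Agent.MP_2339ce_nt.DQ

end

end MrgPart2

-- ======== part 3: formerly Pool.Agent.MP_2339ce_nt.DQ.XQ5
section MrgPart3

/-! Project DQ, row Q5 with explicit constants. -/

set_option autoImplicit false

namespace Pool.Agent.MP_2339ce_nt.DQ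

theorem xq5 : X_Q5 := by
  intro N M hs hN q hc hb W hh hm hg hne
  have M2 := two_le hs hN
  have a0 := q.a0; have b0 := q.b0; have c0 := q.c0; have bc := q.bc; have ac := q.ac
  have ab := q.ab
  have m1 := W.m
  have n0 := abs_nonneg N
  have n1 := Int.one_le_abs (ne_zero_of_ns hs)
  have k1 := mon_le (c := 32) M2 5 5 50 (by norm_num) (by norm_num)
  have k2 := mon_le (c := 80) M2 7 4 50 (by norm_num) (by norm_num)
  have k3 := mon_le (c := 13) M2 4 4 50 (by norm_num) (by norm_num)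
  have k4 := mon_le (c := 1056) M2 11 7 50 (by norm_num) (by norm_num)
  have k5 := mon_le (c := 8) M2 3 2 50 (by norm_num) (by norm_num)
  have k6 : M ≤ M ^ 50 := le_self_pow₀ (by omega) (by norm_num)
  have hD := Q3.D_le q W (by omega) hm hg
  have up := W.up
  have low := W.low
  have e4 := q.e4
  have e5 := q.e5
  have hr := q.hr
  have u1 : 1 ≤ |4 * q.m0 ^ 2 - N ^ 2| := Int.one_le_abs fun h => hne (by
    rcases sq_eq_sq_iff_eq_or_eq_neg.1 (show (2 * q.m0) ^ 2 = |N| ^ 2 by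
      rw [sq_abs]; linarith) with k | k <;> omega)
  have e : q.a * q.c * (4 * q.D * (4 * q.m0 ^ 2 - N ^ 2)) = 16 * q.m0 * N ^ 2 * (q.a ^ 3 * q.c) +
      16 * q.m0 * N ^ 3 * (q.a * (q.c - q.a)) - 4 * q.m0 * N * q.P * q.g - q.m0 * q.g ^ 2 -
        4 * q.m0 * q.D ^ 2 := by
    rw [hh] at e5
    linear_combination e5 - 4 * q.D * q.e6
  have hQ : |q.P| ≤ |q.Q| + q.m0 := by
    have := abs_add_le q.Q q.m0
    rwa [abs_of_pos (by omega : 0 < q.m0), show q.Q + q.m0 = q.P by unfold Qd.m0; ring] at this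
  have x1 : q.a * q.c * (4 * |q.D| * |4 * q.m0 ^ 2 - N ^ 2|) ≤
      16 * q.m0 * |N| ^ 2 * (q.a ^ 3 * q.c) +
      16 * q.m0 * |N| ^ 3 * (q.a * (q.c - q.a)) + 4 * q.m0 * |N| * |q.P| * |q.g| +
      q.m0 * |q.g| ^ 2 + 4 * q.m0 * |q.D| ^ 2 := by
    have h := congrArg abs e
    have s0 := sub_pos.2 ac
    have m0 : 0 < q.m0 := by omega
    simp only [abs_mul, abs_of_pos a0, abs_of_pos c0, Nat.abs_ofNat] at h
    rw [h]
    refine (abs_sub _ _).trans (add_le_add ((abs_sub _ _).trans (add_le_add ((abs_sub _ _).trans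
      (add_le_add ((abs_add_le _ _).trans (add_le_add ?_ ?_)) ?_)) ?_)) ?_) <;>
      simp only [abs_mul, abs_pow, abs_of_pos a0, abs_of_pos c0, abs_of_pos s0, abs_of_pos m0,
        Nat.abs_ofNat, le_refl]
  have x2 : 2 * |N| * q.a * |q.Q| ^ 2 ≤ 2 * q.b * |q.P| * |q.D| + 2 * |N| ^ 2 * q.r ^ 2 * (q.b - q.a) +
      q.b * q.m0 * (2 * |N| * |q.P| + |q.g|) := by
    have h := congrArg abs (show 2 * N * q.a * q.Q ^ 2 = 2 * q.b * q.P * q.D +
      2 * N ^ 2 * q.r ^ 2 * (q.b - q.a) + q.b * q.m0 * (2 * N * q.P + q.g) by linarith)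
    have s0 := sub_pos.2 ab
    have m0 : 0 < q.m0 := by omega
    simp only [abs_mul, abs_pow, abs_of_pos a0, Nat.abs_ofNat] at h
    rw [h]
    refine (abs_add_le _ _).trans (add_le_add ((abs_add_le _ _).trans (add_le_add ?_ ?_)) ?_)
    · simp only [abs_mul, abs_of_pos b0, Nat.abs_ofNat, le_refl]
    · simp only [abs_mul, abs_pow, sq_abs, abs_of_pos s0, Nat.abs_ofNat, le_refl]
    · rw [abs_mul, abs_mul, abs_of_pos b0, abs_of_pos m0]
      gcongr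
      refine (abs_add_le _ _).trans ?_
      simp only [abs_mul, Nat.abs_ofNat, le_refl]
  have hr' : q.r ^ 2 ≤ 2 * M * (q.a * q.b) := by
    have := neg_abs_le N
    have h1 : M * 1 ≤ M * (q.a * q.b) := by gcongr; exact mul_pos a0 b0
    have h2 : 1 * (q.a * q.b) ≤ M * (q.a * q.b) := by gcongr; omega
    linarith
  have p0 := abs_nonneg q.P
  have g0 := abs_nonneg q.g
  have d0 := abs_nonneg q.D
  have q0 := abs_nonneg q.Q
  have r0 := sq_nonneg q.r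
  clear e e4 e5 hr
  generalize |4 * q.m0 ^ 2 - N ^ 2| = u at *
  generalize |q.P| = p, |q.g| = g, |q.D| = D, |q.Q| = Q, |N| = n,
    q.r ^ 2 = R, q.m0 = m, q.a = a, q.b = b, q.c = c, M ^ 50 = K at *
  have M0 : 0 < M := by omega
  have a1 : c ≤ a * c := le_mul_of_one_le_left c0.le a0
  have y1 : 4 * M * D ≤ a * c := by
    have h1 : n * (1 + M) ^ 2 * (a * p) ≤ M * (M + M) ^ 2 * (a * (M * a * c)) := by
      gcongr; omega
    have h2 : (8 * n ^ 3 + M * (n + M)) * b ≤ (8 * M ^ 3 + M * (M ^ 2 + M ^ 2)) * b := by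
      have : M ≤ M ^ 2 := le_self_pow₀ (by omega) (by norm_num)
      gcongr; omega
    have h3 : 32 * M ^ 5 * a * (a * c) ≤ b * (a * c) := by
      gcongr; exact le_trans (by gcongr) hb
    have h4 : 80 * M ^ 4 * b ≤ a * c * b := mul_le_mul_of_nonneg_right (by omega) b0.le
    have h5 := mul_le_mul_of_nonneg_left ((hD.trans (add_le_add h1 h2))) (by omega : 0 ≤ 8 * M)
    refine le_of_mul_le_mul_left ?_ (by omega : 0 < 2 * b)
    linarith
  have y2 : D ≤ 13 * M ^ 4 * a ^ 2 := by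
    have a2 : a * c ≤ a ^ 3 * c := by gcongr; exact le_self_pow₀ a0 (by norm_num)
    have h0 : a * c * (4 * D * 1) ≤ a * c * (4 * D * u) := by gcongr
    have h1 : 16 * m * n ^ 2 * (a ^ 3 * c) ≤ 16 * M * M ^ 3 * (a ^ 3 * c) := by
      have : M ^ 2 ≤ M ^ 3 := pow_le_pow_right₀ (by omega) (by norm_num)
      gcongr; exact le_trans (by gcongr) this
    have h2 : 16 * m * n ^ 3 * (a * (c - a)) ≤ 16 * M * M ^ 3 * (a ^ 3 * c) := by
      have := mul_nonneg a0.le (sub_pos.2 ac).le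
      have h : a * (c - a) ≤ a ^ 3 * c := le_trans (by gcongr; omega) a2
      exact mul_le_mul (by gcongr) h this (by positivity)
    have h3 : 4 * m * n * p * g ≤ 4 * M * M * (M * (a ^ 3 * c)) * M := by
      gcongr; exact up.trans (by rw [mul_assoc]; gcongr)
    have h4 : m * g ^ 2 * 1 ≤ M * M ^ 3 * (a ^ 3 * c) := by
      have : M ^ 2 ≤ M ^ 3 := pow_le_pow_right₀ (by omega) (by norm_num)
      gcongr
      · exact le_trans (by gcongr) this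
      · omega
    have h5 : 4 * m * D * D ≤ a * c * D :=
      mul_le_mul_of_nonneg_right (le_trans (by gcongr) y1) d0
    have h6 : 0 ≤ M ^ 4 * (a ^ 3 * c) := by positivity
    refine le_of_mul_le_mul_left ?_ (by positivity : 0 < 3 * (a * c))
    linarith
  refine ⟨y2.trans (by gcongr), le_trans ?_ (by gcongr : 1056 * M ^ 7 * b ≤ K * b)⟩
  have z1 : a * c ≤ 8 * M * Q := by
    have h1 : 4 * n * p ≤ 4 * M * (Q + M) := by gcongr; omega
    nlinarith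
  have a3 : a ≤ a ^ 3 := le_self_pow₀ a0 (by norm_num)
  have h1 : 2 * 1 * a * Q ^ 2 ≤ 2 * n * a * Q ^ 2 := by gcongr
  have h2 : 2 * b * p * D ≤ 2 * b * (M * a * c) * (13 * M ^ 4 * a ^ 2) := by gcongr
  have M3 : M ^ 3 ≤ M ^ 5 := pow_le_pow_right₀ (by omega) (by norm_num)
  have h3 : 2 * n ^ 2 * R * (b - a) ≤ 2 * M ^ 2 * (2 * M * (a * b)) * c :=
    mul_le_mul (by gcongr) (by omega) (by omega) (by positivity)
  have h4 : b * m * (2 * n * p + g) ≤ b * M * (2 * M * (M * a * c) + M * M * (a * c)) := by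
    gcongr
    refine hg.trans ?_
    have : M * 1 * 1 ≤ M * M * (a * c) := by gcongr <;> omega
    linarith
  have h5 : M ^ 3 * (a * (b * c)) ≤ M ^ 5 * (a ^ 3 * (b * c)) := by gcongr
  have h6 : (a * c) ^ 2 ≤ (8 * M * Q) ^ 2 := by gcongr
  have h7 : 2 * a * Q ^ 2 ≤ 33 * (M ^ 5 * (a ^ 3 * (b * c))) := by linarith
  have h8 := mul_le_mul_of_nonneg_left h7 (by positivity : 0 ≤ 32 * M ^ 2)
  have h9 := mul_le_mul_of_nonneg_left h6 a0.le
  refine le_of_mul_le_mul_left ?_ (by positivity : 0 < a ^ 3 * c)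
  linarith

theorem q5_of_x : S_Q5 := by
  intro N hs K0
  have := abs_nonneg N; have := abs_nonneg K0; have := le_abs_self K0
  refine ⟨(|N| + |K0| + 1) ^ 50, fun q hc hb W hh hm hg hne =>
    xq5 N _ hs (by omega) q hc hb ⟨W.m, W.low, W.up.trans ?_⟩ hh (by omega) (by omega) hne⟩
  have := q.a0; have := q.c0
  gcongr; omega

end Pool.Agent.MP_2339ce_nt.DQ

end MrgPart3

-- marker of a merged file
example : 731051 + 22469 = 731051 + 22469 := rfl
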