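import Pool.Agent.MP_2339ce_nt.DQ.Q4
import Pool.Agent.MP_2339ce_nt.DQ.BD
import Pool.Agent.MP_2339ce_nt.DQ.XQ5
import Pool.Agent.MP_2339ce_nt.DQ.FIN
import Pool.Agent.MP_2339ce_nt.DQ.Q9

/-! Project DQ: assembly. -/

set_option autoImplicit false

namespace Pool.Agent.MP_2339ce_nt.DQ

theorem all_dich : S_DICH := dich int_ (size main bnd)

theorem all_nz : S_NZ := nz main sgn

theorem all_lq : S_LQ := lq (q1 reg) q2 q3 q4 q5_of_x q6 (q7 line) q8 (q9 line)

theorem all_fin : S_FIN :=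
  fin (bd all_lq g5 all_dich all_nz (nz3 main) (nz4 main) tri ch1 ch2) (ts all_dich all_nz ch1)

end Pool.Agent.MP_2339ce_nt.DQ
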