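import Pool.Agent.MP_2339ce_nt.DQ.Spec3

/-! Project DQ3: chains of excluded intervals. -/

set_option autoImplicit false
set_option linter.unusedVariables false

namespace Pool.Agent.MP_2339ce_nt.DQ

namespace TCH

variable {P Q δ D E : ℝ}

theorem win (H : W3 P Q δ D E) (ρ kp kq s m1 m2 : ℕ)
    (g : (1 ≤ kp ∧ kp ≤ ρ + 1 ∧ 2 ≤ kq ∧ kq ≤ ρ + 1) ∧ (kq % 2 = 0 ∧ (kp + ρ) % 2 = 1 ∧
      ρ + 1 ≤ kp + kq) ∧ (s + 2 ≤ 2 * (kp + kq) ∧ s + 1 ≤ 2 * ρ + kp ∧ s + 1 ≤ 2 * ρ + kq) ∧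
      4 * ep ρ kp kq s ^ 2 ≤ 2 ^ m1 ∧ 4 * mu ρ kp kq s ^ 2 ≤ 2 ^ m2) :
    D3 P Q δ D E ρ kp kq m1 m2 :=
  have a : Adm ρ kp kq := ⟨g.1.1, g.1.2.1, by omega, g.1.2.2.2⟩
  H ρ kp kq s m1 m2 ⟨a, Nat.even_iff.2 g.2.1.1, Nat.odd_iff.2 g.2.1.2.1, g.2.1.2.2⟩
    ⟨⟨a, g.1.2.2.1, g.2.2.1.1, g.2.2.1.2.1, g.2.2.1.2.2⟩, g.2.2.2.1, g.2.2.2.2⟩

theorem w1_2_2 (H : W3 P Q δ D E) (h : 3 * D + 4 * Q + 2 * δ + 6 < E) :
    7 * D + 4 * P + 4 * Q - 6 * δ - 4 ≤ E := by
  rcases win H 1 2 2 3 6 4 (by decide +kernel) with k | k <;> push_cast at k <;> linarith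

theorem w2_3_2 (H : W3 P Q δ D E) (h : 5 * D + 8 * Q + 2 * δ + 7 < E) :
    9 * D + 6 * P + 4 * Q - 8 * δ - 5 ≤ E := by
  rcases win H 2 3 2 5 7 5 (by decide +kernel) with k | k <;> push_cast at k <;> linarith

theorem w3_2_4 (H : W3 P Q δ D E) (h : 7 * D + 12 * Q + 2 * δ + 12 < E) :
    11 * D + 4 * P + 8 * Q - 10 * δ - 7 ≤ E := by
  rcases win H 3 2 4 7 12 7 (by decide +kernel) with k | k <;> push_cast at k <;> linarith

theorem w3_4_2 (H : W3 P Q δ D E) (h : 7 * D + 12 * Q + 2 * δ + 8 < E) :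
    11 * D + 8 * P + 4 * Q - 10 * δ - 7 ≤ E := by
  rcases win H 3 4 2 7 8 7 (by decide +kernel) with k | k <;> push_cast at k <;> linarith

theorem w3_4_4 (H : W3 P Q δ D E) (h : 7 * D + 16 * Q + 2 * δ + 8 < E) :
    15 * D + 8 * P + 8 * Q - 14 * δ - 6 ≤ E := by
  rcases win H 3 4 4 9 8 6 (by decide +kernel) with k | k <;> push_cast at k <;> linarith

theorem w4_5_4 (H : W3 P Q δ D E) (h : 9 * D + 20 * Q + 2 * δ + 10 < E) :
    17 * D + 10 * P + 8 * Q - 16 * δ - 8 ≤ E := by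
  rcases win H 4 5 4 11 10 8 (by decide +kernel) with k | k <;> push_cast at k <;> linarith

theorem w5_4_6 (H : W3 P Q δ D E) (h : 11 * D + 24 * Q + 2 * δ + 16 < E) :
    19 * D + 8 * P + 12 * Q - 18 * δ - 10 ≤ E := by
  rcases win H 5 4 6 13 16 10 (by decide +kernel) with k | k <;> push_cast at k <;> linarith

theorem w5_6_6 (H : W3 P Q δ D E) (h : 11 * D + 28 * Q + 2 * δ + 12 < E) :
    23 * D + 12 * P + 12 * Q - 22 * δ - 10 ≤ E := by
  rcases win H 5 6 6 15 12 10 (by decide +kernel) with k | k <;> push_cast at k <;> linarith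

theorem w6_7_6 (H : W3 P Q δ D E) (h : 13 * D + 32 * Q + 2 * δ + 13 < E) :
    25 * D + 14 * P + 12 * Q - 24 * δ - 12 ≤ E := by
  rcases win H 6 7 6 17 13 12 (by decide +kernel) with k | k <;> push_cast at k <;> linarith

theorem w7_6_8 (H : W3 P Q δ D E) (h : 15 * D + 36 * Q + 2 * δ + 19 < E) :
    27 * D + 12 * P + 16 * Q - 26 * δ - 14 ≤ E := by
  rcases win H 7 6 8 19 19 14 (by decide +kernel) with k | k <;> push_cast at k <;> linarith

theorem w7_8_8 (H : W3 P Q δ D E) (h : 15 * D + 40 * Q + 2 * δ + 15 < E) :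
    31 * D + 16 * P + 16 * Q - 30 * δ - 13 ≤ E := by
  rcases win H 7 8 8 21 15 13 (by decide +kernel) with k | k <;> push_cast at k <;> linarith

theorem w8_9_8 (H : W3 P Q δ D E) (h : 17 * D + 44 * Q + 2 * δ + 17 < E) :
    33 * D + 18 * P + 16 * Q - 32 * δ - 15 ≤ E := by
  rcases win H 8 9 8 23 17 15 (by decide +kernel) with k | k <;> push_cast at k <;> linarith

theorem w9_8_10 (H : W3 P Q δ D E) (h : 19 * D + 48 * Q + 2 * δ + 23 < E) :
    35 * D + 16 * P + 20 * Q - 34 * δ - 17 ≤ E := by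
  rcases win H 9 8 10 25 23 17 (by decide +kernel) with k | k <;> push_cast at k <;> linarith

theorem w9_10_10 (H : W3 P Q δ D E) (h : 19 * D + 52 * Q + 2 * δ + 19 < E) :
    39 * D + 20 * P + 20 * Q - 38 * δ - 17 ≤ E := by
  rcases win H 9 10 10 27 19 17 (by decide +kernel) with k | k <;> push_cast at k <;> linarith

theorem w10_11_10 (H : W3 P Q δ D E) (h : 21 * D + 56 * Q + 2 * δ + 21 < E) :
    41 * D + 22 * P + 20 * Q - 40 * δ - 19 ≤ E := by
  rcases win H 10 11 10 29 21 19 (by decide +kernel) with k | k <;> push_cast at k <;> linarith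

theorem w11_12_12 (H : W3 P Q δ D E) (h : 23 * D + 64 * Q + 2 * δ + 23 < E) :
    47 * D + 24 * P + 24 * Q - 46 * δ - 21 ≤ E := by
  rcases win H 11 12 12 33 23 21 (by decide +kernel) with k | k <;> push_cast at k <;> linarith

theorem w13_12_14 (H : W3 P Q δ D E) (h : 27 * D + 72 * Q + 2 * δ + 30 < E) :
    51 * D + 24 * P + 28 * Q - 50 * δ - 25 ≤ E := by
  rcases win H 13 12 14 37 30 25 (by decide +kernel) with k | k <;> push_cast at k <;> linarith

theorem w13_14_14 (H : W3 P Q δ D E) (h : 27 * D + 76 * Q + 2 * δ + 26 < E) :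
    55 * D + 28 * P + 28 * Q - 54 * δ - 25 ≤ E := by
  rcases win H 13 14 14 39 26 25 (by decide +kernel) with k | k <;> push_cast at k <;> linarith

theorem w15_14_16 (H : W3 P Q δ D E) (h : 31 * D + 84 * Q + 2 * δ + 34 < E) :
    59 * D + 28 * P + 32 * Q - 58 * δ - 29 ≤ E := by
  rcases win H 15 14 16 43 34 29 (by decide +kernel) with k | k <;> push_cast at k <;> linarith

theorem w15_16_16 (H : W3 P Q δ D E) (h : 31 * D + 88 * Q + 2 * δ + 30 < E) :
    63 * D + 32 * P + 32 * Q - 62 * δ - 28 ≤ E := by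
  rcases win H 15 16 16 45 30 28 (by decide +kernel) with k | k <;> push_cast at k <;> linarith

/-- the windows `(2 i + 1, 2 i + 2, 2 i + 2)` cover a half line -/
theorem tail (hT : S_TAIL) (H : W3 P Q δ D E) (hD : 0 < 4 * D + 12 * Q + 5) (i₀ : ℕ)
    (h0 : 0 ≤ 4 * D + 4 * P - 8 * Q - 8 * δ - 21)
    (h1 : 34 + 12 * Q + 8 * δ - 4 * P < (4 * D + 4 * P - 8 * Q - 8 * δ - 21) * i₀)
    (h2 : (4 * i₀ + 3) * D + (12 * i₀ + 4) * Q + 2 * δ + (5 * i₀ + 9) < E) : False := by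
  have key : ∀ i : ℕ, i₀ ≤ i → (4 * i + 3) * D + (12 * i + 4) * Q + 2 * δ + (5 * i + 9) < E := by
    intro i hi
    induction i, hi using Nat.le_induction with
    | base => exact h2
    | succ i hi ih =>
      have h4 : (4 * D + 4 * P - 8 * Q - 8 * δ - 21) * i₀ ≤
          (4 * D + 4 * P - 8 * Q - 8 * δ - 21) * i :=
        mul_le_mul_of_nonneg_left (by exact_mod_cast hi) h0
      rcases H _ _ _ _ _ _ ⟨(hT i).toAdm, ⟨i + 1, by ring⟩, ⟨2 * i + 1, by ring⟩, by omega⟩ (hT i)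
        with k | k <;> push_cast at k ⊢ <;> linarith
  obtain ⟨n, hn⟩ := exists_nat_gt ((E - 3 * D - 4 * Q - 2 * δ - 9) / (4 * D + 12 * Q + 5))
  rw [div_lt_iff₀ hD] at hn
  have h5 := key (n + i₀) (Nat.le_add_left _ _)
  have h6 : 0 ≤ (i₀ : ℝ) * (4 * D + 12 * Q + 5) := by positivity
  push_cast at h5
  linarith

variable {A B C η : ℝ}

theorem cN1 (hT : S_TAIL) (h1 : 1 ≤ A) (h2 : A ≤ B) (h3 : B ≤ C) (h4 : δ ≤ B) (h6 : 15 ≤ B)
    (h7 : 3 * C + 2 * B - 733 / 100 ≤ D) (h8 : 5 * D + 2 * A - 2 * η - 2 ≤ E)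
    (hH : E ≤ 5 * D + 12 * C + 7 ∨ 11 * D + 6 * A - 4 * C - 5 ≤ E) (H : W3 A B δ D E)
    (K : W3 B C η D E)
    (k0 : η ≤ C) (k1 : A + B + 3 / 4 ≤ C) (k2 : 5 * B ≤ 4 * C) : False := by
  have a0 := w1_2_2 H (by linarith)
  have a1 := w1_2_2 K (by linarith)
  clear a0
  have a2 := w2_3_2 H (by linarith)
  clear a1
  have a3 := hH.resolve_left (by linarith)
  clear a2
  have a4 := w3_2_4 H (by linarith)
  clear a3
  have a5 := w3_4_4 H (by linarith)
  clear a4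
  have a6 := w4_5_4 H (by linarith)
  clear a5
  have a7 := w4_5_4 K (by linarith)
  clear a6
  have a8 := w5_6_6 H (by linarith)
  clear a7
  have a9 := w6_7_6 H (by linarith)
  clear a8
  have a10 := w7_6_8 H (by linarith)
  clear a9
  have a11 := w7_8_8 H (by linarith)
  clear a10
  have a12 := w8_9_8 H (by linarith)
  clear a11
  have a13 := w9_8_10 H (by linarith)
  clear a12
  have a14 := w10_11_10 H (by linarith)
  clear a13
  have a15 := w11_12_12 H (by linarith)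
  clear a14
  have a16 := w13_14_14 H (by linarith)
  clear a15
  have a17 := w15_16_16 H (by linarith)
  clear a16
  exact tail hT H (by linarith) 8 (by linarith) (by push_cast; linarith)
    (by push_cast; linarith)

theorem cN2 (hT : S_TAIL) (h1 : 1 ≤ A) (h2 : A ≤ B) (h3 : B ≤ C) (h4 : δ ≤ B) (h6 : 15 ≤ B)
    (h7 : 3 * C + 2 * B - 733 / 100 ≤ D) (h8 : 5 * D + 2 * A - 2 * η - 2 ≤ E)
    (hH : E ≤ 5 * D + 12 * C + 7 ∨ 11 * D + 6 * A - 4 * C - 5 ≤ E) (H : W3 A B δ D E)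
    (K : W3 B C η D E)
    (k0 : η ≤ C) (k1 : A + B + 3 / 4 ≤ C) (k2 : 4 * C ≤ 5 * B) : False := by
  have a0 := w1_2_2 K (by linarith)
  have a1 := w2_3_2 H (by linarith)
  clear a0
  have a2 := hH.resolve_left (by linarith)
  clear a1
  have a3 := w3_2_4 H (by linarith)
  clear a2
  have a4 := w3_2_4 K (by linarith)
  clear a3
  have a5 := w3_4_4 H (by linarith)
  clear a4
  have a6 := w4_5_4 H (by linarith)
  clear a5
  have a7 := w4_5_4 K (by linarith)
  clear a6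
  have a8 := w5_4_6 H (by linarith)
  clear a7
  have a9 := w5_6_6 H (by linarith)
  clear a8
  have a10 := w6_7_6 H (by linarith)
  clear a9
  have a11 := w6_7_6 K (by linarith)
  clear a10
  have a12 := w7_8_8 H (by linarith)
  clear a11
  have a13 := w7_8_8 K (by linarith)
  clear a12
  have a14 := w9_10_10 H (by linarith)
  clear a13
  have a15 := w10_11_10 K (by linarith)
  clear a14
  have a16 := w11_12_12 K (by linarith)
  clear a15
  have a17 := w13_14_14 K (by linarith)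
  clear a16
  have a18 := w15_16_16 K (by linarith)
  clear a17
  exact tail hT K (by linarith) 8 (by linarith) (by push_cast; linarith)
    (by push_cast; linarith)

theorem cR1 (hT : S_TAIL) (h1 : 1 ≤ A) (h2 : A ≤ B) (h3 : B ≤ C) (h4 : δ ≤ B) (h6 : 15 ≤ B)
    (h7 : 3 * C + 2 * B - 733 / 100 ≤ D) (h8 : 5 * D + 2 * A - 2 * η - 2 ≤ E)
    (hH : E ≤ 5 * D + 12 * C + 7 ∨ 11 * D + 6 * A - 4 * C - 5 ≤ E) (H : W3 A B δ D E)
    (K : W3 B C η D E)
    (k1 : C ≤ B + 1) (k2 : η ≤ (A + B) / 2 + 8 / 5) (k3 : 4 * A ≤ 3 * B) : False := by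
  have a0 := w1_2_2 K (by linarith)
  have a1 := w2_3_2 H (by linarith)
  clear a0
  have a2 := hH.resolve_left (by linarith)
  clear a1
  have a3 := w3_4_2 K (by linarith)
  clear a2
  have a4 := w3_4_4 K (by linarith)
  clear a3
  have a5 := w4_5_4 K (by linarith)
  clear a4
  have a6 := w5_4_6 K (by linarith)
  clear a5
  have a7 := w5_6_6 H (by linarith)
  clear a6
  have a8 := w6_7_6 K (by linarith)
  clear a7
  have a9 := w7_8_8 K (by linarith)
  clear a8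
  have a10 := w9_10_10 K (by linarith)
  clear a9
  have a11 := w11_12_12 K (by linarith)
  clear a10
  have a12 := w13_12_14 K (by linarith)
  clear a11
  have a13 := w15_14_16 K (by linarith)
  clear a12
  exact tail hT K (by linarith) 8 (by linarith) (by push_cast; linarith)
    (by push_cast; linarith)

theorem cR2 (hT : S_TAIL) (h1 : 1 ≤ A) (h2 : A ≤ B) (h3 : B ≤ C) (h4 : δ ≤ B) (h6 : 15 ≤ B)
    (h7 : 3 * C + 2 * B - 733 / 100 ≤ D) (h8 : 5 * D + 2 * A - 2 * η - 2 ≤ E)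
    (hH : E ≤ 5 * D + 12 * C + 7 ∨ 11 * D + 6 * A - 4 * C - 5 ≤ E) (H : W3 A B δ D E)
    (K : W3 B C η D E)
    (k1 : C ≤ B + 2) (k2 : η ≤ (A + B) / 2 + 8 / 5) (k3 : B + 1 ≤ C) (k4 : B ≤ η) : False := by
  have a0 := w1_2_2 K (by linarith)
  have a1 := w2_3_2 H (by linarith)
  clear a0
  have a2 := hH.resolve_left (by linarith)
  clear a1
  have a3 := w3_4_4 H (by linarith)
  clear a2
  have a4 := w4_5_4 H (by linarith)
  clear a3
  have a5 := w5_4_6 H (by linarith)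
  clear a4
  have a6 := w5_6_6 H (by linarith)
  clear a5
  have a7 := w6_7_6 K (by linarith)
  clear a6
  have a8 := w7_8_8 K (by linarith)
  clear a7
  have a9 := w9_10_10 H (by linarith)
  clear a8
  have a10 := w11_12_12 H (by linarith)
  clear a9
  have a11 := w13_12_14 H (by linarith)
  clear a10
  have a12 := w15_14_16 H (by linarith)
  clear a11
  exact tail hT H (by linarith) 8 (by linarith) (by push_cast; linarith)
    (by push_cast; linarith)

theorem cR3 (hT : S_TAIL) (h1 : 1 ≤ A) (h2 : A ≤ B) (h3 : B ≤ C) (h4 : δ ≤ B) (h6 : 15 ≤ B)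
    (h7 : 3 * C + 2 * B - 733 / 100 ≤ D) (h8 : 5 * D + 2 * A - 2 * η - 2 ≤ E)
    (hH : E ≤ 5 * D + 12 * C + 7 ∨ 11 * D + 6 * A - 4 * C - 5 ≤ E) (H : W3 A B δ D E)
    (K : W3 B C η D E)
    (k1 : C ≤ B + 1) (k2 : η ≤ B) (k3 : 3 * B ≤ 4 * A) : False := by
  have a0 := w1_2_2 K (by linarith)
  have a1 := w2_3_2 H (by linarith)
  clear a0
  have a2 := hH.resolve_left (by linarith)
  clear a1
  have a3 := w3_2_4 H (by linarith)
  clear a2
  have a4 := w3_4_4 H (by linarith)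
  clear a3
  have a5 := w4_5_4 K (by linarith)
  clear a4
  have a6 := w5_4_6 H (by linarith)
  clear a5
  have a7 := w5_6_6 H (by linarith)
  clear a6
  have a8 := w6_7_6 K (by linarith)
  clear a7
  have a9 := w7_8_8 K (by linarith)
  clear a8
  have a10 := w9_10_10 H (by linarith)
  clear a9
  have a11 := w11_12_12 H (by linarith)
  clear a10
  have a12 := w13_14_14 H (by linarith)
  clear a11
  have a13 := w15_16_16 H (by linarith)
  clear a12
  exact tail hT H (by linarith) 8 (by linarith) (by push_cast; linarith)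
    (by push_cast; linarith)

end TCH

theorem cs3 (hT : S_TAIL) : S_CS := by
  intro A B C D E δ h1 h2 h3 h4 h5 h6 h7 h8 H
  have a0 := TCH.w1_2_2 H (by linarith)
  have a1 := TCH.w2_3_2 H (by linarith)
  clear a0
  have a2 := TCH.w3_4_2 H (by linarith)
  clear a1
  have a3 := TCH.w3_4_4 H (by linarith)
  clear a2
  have a4 := TCH.w5_4_6 H (by linarith)
  clear a3
  have a5 := TCH.w6_7_6 H (by linarith)
  clear a4
  have a6 := TCH.w8_9_8 H (by linarith)
  clear a5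
  exact TCH.tail hT H (by linarith) 5 (by linarith) (by push_cast; linarith)
    (by push_cast; linarith)

theorem cl3 (hT : S_TAIL) : S_CL := by
  intro A B C D E δ η h1 h2 h3 h4 h5 h6 h7 h8 h9 hH H K
  rcases h9 with k | ⟨k1, k2, ⟨k3, k4⟩ | ⟨k3, k4⟩⟩
  · rcases le_total (5 * B) (4 * C) with j | j
    · exact TCH.cN1 hT h1 h2 h3 h4 h6 h7 h8 hH H K h5 k j
    · exact TCH.cN2 hT h1 h2 h3 h4 h6 h7 h8 hH H K h5 k j
  · rcases le_total (4 * A) (3 * B) with j | j
    · exact TCH.cR1 hT h1 h2 h3 h4 h6 h7 h8 hH H K k3 k2 j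
    · exact TCH.cR3 hT h1 h2 h3 h4 h6 h7 h8 hH H K k3 k4 j
  · exact TCH.cR2 hT h1 h2 h3 h4 h6 h7 h8 hH H K k1 k2 k3 k4

end Pool.Agent.MP_2339ce_nt.DQ
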