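import Pool.Agent.MP_2339ce_nt.DQ.Spec3
import Pool.Agent.MP_2339ce_nt.DQ.XQ5

/-! Project DQ3: the sharp gap for five elements. -/

set_option autoImplicit false

namespace Pool.Agent.MP_2339ce_nt.DQ

namespace TG53

open G5

theorem core {a b c d e z ya yb yc : ℝ} (ha : 1 ≤ a) (hb : a + 1 ≤ b) (hc : b + 1 ≤ c)
    (hd : 30000 ≤ d) (he : a * b * c * d ^ 2 ≤ e) (hz : 0 ≤ z) (hz2 : z ^ 2 = d * e - 3)
    (ya0 : 0 ≤ ya) (ya2 : ya ^ 2 = (a * d - 3) * (a * e - 3))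
    (yb0 : 0 ≤ yb) (yb2 : yb ^ 2 = (b * d - 3) * (b * e - 3))
    (yc0 : 0 ≤ yc) (yc2 : yc ^ 2 = (c * d - 3) * (c * e - 3)) {W : ℝ}
    (hW : W = (b - a) * (c - a) * (c - b) * z -
      (a * (c - b) * ya - b * (c - a) * yb + c * (b - a) * yc)) :
    0 < W ∧ W ^ 2 * (a ^ 2 * d ^ 5) ≤ 4 * (c - b) ^ 2 * e := by
  have a0 : 0 < a := by linarith
  have b0 : 0 < b := by linarith
  have c0 : 0 < c := by linarith
  have b1 : 1 ≤ b := by linarith
  have c1 : 1 ≤ c := by linarith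
  have ab : 0 < b - a := by linarith
  have ac : 0 < c - a := by linarith
  have bc : 0 < c - b := by linarith
  have d0 : 0 < d := by linarith
  have abc : 1 ≤ a * b * c := one_le_mul_of_one_le_of_one_le (one_le_mul_of_one_le_of_one_le ha b1) c1
  have de2 : 30000 * d ≤ e :=
    calc 30000 * d ≤ 1 * d ^ 2 := by nlinarith
      _ ≤ a * b * c * d ^ 2 := by gcongr
      _ ≤ e := he
  have de : d ≤ e := by linarith
  have e0 : 0 < e := by linarith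
  have h3 : |(3 : ℝ)| = 3 := abs_of_pos (by norm_num)
  have hN4 : 4 * |(3 : ℝ)| ≤ d := by rw [h3]; linarith
  obtain ⟨ρ, ρ0, hρ⟩ : ∃ ρ : ℝ, 0 < ρ ∧ ρ ^ 2 = d * e :=
    ⟨√(d * e), Real.sqrt_pos.2 (by positivity), Real.sq_sqrt (by positivity)⟩
  obtain ⟨ea, ha1, ha2⟩ := one ha d0 de hN4 ρ0 hρ ya0 ya2
  obtain ⟨eb, hb1, hb2⟩ := one b1 d0 de hN4 ρ0 hρ yb0 yb2
  obtain ⟨ec, hc1, hc2⟩ := one c1 d0 de hN4 ρ0 hρ yc0 yc2
  have hE := weights ha hb hc (by positivity) ha2 hb2 hc2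
  rw [h3] at hE
  obtain ⟨x, hx⟩ : ∃ x, x = 1 / d := ⟨_, rfl⟩
  obtain ⟨w, hw⟩ : ∃ w, w = 1 / e := ⟨_, rfl⟩
  rw [← hx, ← hw] at ha1 hb1 hc1
  have x0 : 0 < x := by rw [hx]; positivity
  have w0 : 0 < w := by rw [hw]; positivity
  have xd : x * d = 1 := by rw [hx]; field_simp
  have we : w * e = 1 := by rw [hw]; field_simp
  have wx : w ≤ x / 30000 := by
    rw [hw, hx, div_div]; exact one_div_le_one_div_of_le (by positivity) (by linarith)
  have xK : x ≤ 1 / 30000 := by rw [hx]; exact one_div_le_one_div_of_le (by norm_num) hd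
  have wK : a * b * c * w ≤ x ^ 2 := by
    calc _ = a * b * c * d ^ 2 * (w * x ^ 2) := by
          have : d ^ 2 * x ^ 2 = 1 := by rw [← mul_pow, mul_comm, xd, one_pow]
          linear_combination (-(a * b * c * w)) * this
      _ ≤ e * (w * x ^ 2) := by gcongr
      _ = _ := by linear_combination x ^ 2 * we
  rw [show 3 / d = 3 * x by rw [hx]; ring] at hE
  obtain ⟨E, hEd⟩ : ∃ E, E = (a ^ 2 * (c - b) * ea - b ^ 2 * (c - a) * eb + c ^ 2 * (b - a) * ec) *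
    (a * b * c) / ((b - a) * (c - a) * (c - b)) := ⟨_, rfl⟩
  rw [← hEd] at hE
  obtain ⟨Λ, hΛ⟩ : ∃ Λ, Λ = (b - a) * (c - a) * (c - b) / (a * b * c) := ⟨_, rfl⟩
  have Λ0 : 0 < Λ := by rw [hΛ]; positivity
  have Λc : Λ * a ≤ c - b := by
    rw [hΛ, div_mul_eq_mul_div, div_le_iff₀ (by positivity)]
    calc _ ≤ b * c * (c - b) * a := by gcongr <;> linarith
      _ = _ := by ring
  obtain ⟨m, hm⟩ : ∃ m, m = 27 * ((x + w) * (x - w) ^ 2) / 16 := ⟨_, rfl⟩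
  obtain ⟨g1, hg1⟩ : ∃ g, g = a * b * c * ((ρ - z) / ρ) := ⟨_, rfl⟩
  obtain ⟨g2, hg2⟩ : ∃ g, g = 81 * (((x + w) ^ 2 * (x - w) ^ 2 / 32 + (x - w) ^ 4 / 128) *
    (1 / a + 1 / b + 1 / c)) := ⟨_, rfl⟩
  have id : W = ρ * Λ * (m - g1 + g2 - E) := by
    rw [hW, ha1, hb1, hc1, hΛ, hm, hg1, hg2, hEd, T, T, T]; field_simp; ring
  have δ1 : 999 / 1000 * x ≤ x - w := by linarith
  have δ0 : 0 ≤ x - w := by linarith
  have δ2 : x - w ≤ x := by linarith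
  have σ1 : x ≤ x + w := by linarith
  have σ2 : x + w ≤ 1001 / 1000 * x := by linarith
  have σ3 : x + w ≤ 2 * x := by linarith
  have x3 : 0 < x ^ 3 := by positivity
  have m1 : 168 / 100 * x ^ 3 ≤ m := by
    have : 27 * (x * (999 / 1000 * x) ^ 2) / 16 ≤ m := by rw [hm]; gcongr
    linarith
  have m2 : m ≤ 17 / 10 * x ^ 3 := by
    have : m ≤ 27 * (1001 / 1000 * x * x ^ 2) / 16 := by rw [hm]; gcongr
    linarith
  have ρ1 : 30000 * 30000 ≤ ρ ^ 2 := by rw [hρ]; gcongr; linarith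
  have zρ : z ≤ ρ := abs_le_of_sq_le_sq' (by linarith) ρ0.le |>.2
  have zρ' : 99 / 100 * ρ ≤ z := abs_le_of_sq_le_sq' (by rw [mul_pow]; linarith) hz |>.2
  have k0 : 0 ≤ g1 := by rw [hg1]; have := sub_nonneg.2 zρ; positivity
  have k1 : g1 ≤ 151 / 100 * x ^ 3 := by
    have h2 : (ρ - z) * (199 / 100 * ρ) ≤ 3 :=
      calc _ ≤ (ρ - z) * (ρ + z) := mul_le_mul_of_nonneg_left (by linarith) (by linarith)
        _ = 3 := by linear_combination hρ - hz2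
    have h4 : ρ ^ 2 * (x * w) = 1 := by rw [hρ]; linear_combination w * e * xd + we
    have h1 : (ρ - z) / ρ ≤ 151 / 100 * (x * w) := by
      rw [div_le_iff₀ ρ0]
      calc ρ - z = (ρ - z) * ρ * (x * w) * ρ := by linear_combination (z - ρ) * h4
        _ ≤ 151 / 100 * (x * w) * ρ := by gcongr; linarith
    calc g1 ≤ a * b * c * (151 / 100 * (x * w)) := by rw [hg1]; gcongr
      _ = 151 / 100 * (a * b * c * w) * x := by ring
      _ ≤ 151 / 100 * x ^ 2 * x := by gcongr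
      _ = _ := by ring
  have k2 : 0 ≤ g2 := by rw [hg2]; positivity
  have k3 : g2 ≤ x ^ 3 / 100 := by
    have h1 : 1 / a ≤ 1 := by rw [div_le_one a0]; exact ha
    have h2 : 1 / b ≤ 1 := by rw [div_le_one b0]; exact b1
    have h3 : 1 / c ≤ 1 := by rw [div_le_one c0]; exact c1
    calc g2 ≤ 81 * (((2 * x) ^ 2 * x ^ 2 / 32 + x ^ 4 / 128) * (1 + 1 + 1)) := by
          rw [hg2]; gcongr
      _ = x * (x ^ 3 * (81 * 51 / 128)) := by ring
      _ ≤ 1 / 30000 * (x ^ 3 * (81 * 51 / 128)) := by gcongr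
      _ ≤ _ := by linarith
  have k4 : |E| ≤ x ^ 3 / 100 := by
    refine hE.trans ?_
    calc _ = x * x * (13608 * x ^ 3) := by ring
      _ ≤ 1 / 30000 * (1 / 30000) * (13608 * x ^ 3) := by gcongr
      _ ≤ _ := by linarith
  have k5 := abs_le.1 k4
  have lo : 0 < m - g1 + g2 - E := by linarith
  have up : m - g1 + g2 - E ≤ 2 * x ^ 3 := by linarith
  refine ⟨by rw [id]; positivity, ?_⟩
  have x5 : x ^ 6 * d ^ 6 = 1 := by rw [← mul_pow, xd, one_pow]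
  calc W ^ 2 * (a ^ 2 * d ^ 5) = ρ ^ 2 * (Λ * a) ^ 2 * (m - g1 + g2 - E) ^ 2 * d ^ 5 := by
        rw [id]; ring
    _ ≤ ρ ^ 2 * (c - b) ^ 2 * (2 * x ^ 3) ^ 2 * d ^ 5 := by gcongr
    _ = _ := by rw [hρ]; linear_combination (4 * (c - b) ^ 2 * e) * x5

end TG53

theorem g53 : S_G53 := by
  intro a b c d e ha hab hbc _ hd he h1 h2 h3 h4 h5 h6 h7
  obtain ⟨sa, sa0, sa2⟩ := G5.root h1
  obtain ⟨sb, sb0, sb2⟩ := G5.root h2
  obtain ⟨sc, sc0, sc2⟩ := G5.root h3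
  obtain ⟨xa, xa0, xa2⟩ := G5.root h4
  obtain ⟨xb, xb0, xb2⟩ := G5.root h5
  obtain ⟨xc, xc0, xc2⟩ := G5.root h6
  obtain ⟨z, z0, z2⟩ := G5.root h7
  have pr : ∀ {i s x : ℤ}, s ^ 2 = i * d + -3 → x ^ 2 = i * e + -3 →
      ((s * x : ℤ) : ℝ) ^ 2 = (i * d - 3) * (i * e - 3) := fun {i s x} hs hx => by
    have : (s * x) ^ 2 = (i * d - 3) * (i * e - 3) := by rw [mul_pow, hs, hx]; ring
    exact_mod_cast this
  obtain ⟨W, hW⟩ : ∃ W : ℤ, W = (b - a) * (c - a) * (c - b) * z -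
    (a * (c - b) * (sa * xa) - b * (c - a) * (sb * xb) + c * (b - a) * (sc * xc)) := ⟨_, rfl⟩
  have z3 : z ^ 2 = d * e - 3 := by rw [z2]; ring
  obtain ⟨k1, k2⟩ := TG53.core (a := a) (b := b) (c := c) (d := d) (e := e) (z := z)
    (ya := (sa * xa : ℤ)) (yb := (sb * xb : ℤ)) (yc := (sc * xc : ℤ)) (W := W)
    (by exact_mod_cast ha) (by exact_mod_cast hab) (by exact_mod_cast hbc)
    (by exact_mod_cast hd) (by exact_mod_cast he) (by exact_mod_cast z0) (by exact_mod_cast z3)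
    (by exact_mod_cast mul_nonneg sa0 xa0) (pr sa2 xa2)
    (by exact_mod_cast mul_nonneg sb0 xb0) (pr sb2 xb2)
    (by exact_mod_cast mul_nonneg sc0 xc0) (pr sc2 xc2) (by exact_mod_cast hW)
  have k3 : 0 < W := by exact_mod_cast k1
  have k4 : W ^ 2 * (a ^ 2 * d ^ 5) ≤ 4 * (c - b) ^ 2 * e := by exact_mod_cast k2
  have d0 : 0 < d := by omega
  exact (le_mul_of_one_le_left (by positivity) (one_le_pow₀ k3)).trans k4

end Pool.Agent.MP_2339ce_nt.DQ
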