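import Mathlib.Topology.Sheaves.Presheaf
import Mathlib.Algebra.Order.Star.Real
import Mathlib.RingTheory.PowerSeries.Inverse
import Mathlib.Analysis.Analytic.Binomial
import Mathlib.Combinatorics.SimpleGraph.Basic
import Mathlib.RingTheory.PiTensorProduct
import Pool.Agent.MP_2339ce_nt.DQ.Basic

-- ======== part 0: formerly Pool.Agent.MP_2339ce_nt.DQ.MAIN
section MrgPart0

/-! Project DQ: the main term. -/

set_option autoImplicit false
set_option linter.unusedSectionVars false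

noncomputable section

namespace Pool.Agent.MP_2339ce_nt.DQ

open PowerSeries

namespace Main

def cf (k : ℕ) (U : ℝ⟦X⟧) : ℝ := coeff k (X * U)

theorem cf_succ (k : ℕ) (U : ℝ⟦X⟧) : cf (k + 1) U = coeff k U := coeff_succ_X_mul k U

theorem cf_zero (U : ℝ⟦X⟧) : cf 0 U = 0 := by simp [cf]

theorem cf_lin (k : ℕ) (u : ℝ) (U V : ℝ⟦X⟧) : cf k (C u * U + V) = u * cf k U + cf k V := by
  unfold cf
  rw [mul_add, map_add, mul_left_comm, coeff_C_mul]

theorem iv_mul {c : ℝ} (hc : c ≠ 0) : (C c + X) * iv c = 1 :=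
  PowerSeries.mul_inv_cancel _ (by simpa using hc)

/-- the sum of the residues of `T ^ j` -/
def DD (u v w : ℝ) (j k l m : ℕ) : ℝ :=
  cf k ((C u + X) ^ j * iv (u - v) ^ l * iv (u - w) ^ m) +
    cf l ((C v + X) ^ j * iv (v - u) ^ k * iv (v - w) ^ m) +
    cf m ((C w + X) ^ j * iv (w - u) ^ k * iv (w - v) ^ l)

theorem step (u v : ℝ) (h : v ≠ u) (j k : ℕ) (G : ℝ⟦X⟧) :
    (C v + X) ^ (j + 1) * iv (v - u) ^ (k + 1) * G =
      C u * ((C v + X) ^ j * iv (v - u) ^ (k + 1) * G) + (C v + X) ^ j * iv (v - u) ^ k * G := by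
  have e := iv_mul (sub_ne_zero.2 h)
  rw [map_sub] at e
  linear_combination (C v + X) ^ j * iv (v - u) ^ k * G * e

theorem rec1 {u v w : ℝ} (h1 : v ≠ u) (h2 : w ≠ u) (j k l m : ℕ) :
    DD u v w (j + 1) (k + 1) l m = u * DD u v w j (k + 1) l m + DD u v w j k l m := by
  unfold DD
  rw [step u v h1, step u w h2, cf_lin, cf_lin]
  have : (C u + X) ^ (j + 1) * iv (u - v) ^ l * iv (u - w) ^ m =
      C u * ((C u + X) ^ j * iv (u - v) ^ l * iv (u - w) ^ m) +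
        X * ((C u + X) ^ j * iv (u - v) ^ l * iv (u - w) ^ m) := by ring
  rw [this, cf_lin, cf_succ k (X * _)]
  unfold cf
  ring

theorem sw12 (u v w : ℝ) (j k l m : ℕ) : DD u v w j k l m = DD v u w j l k m := by
  unfold DD
  rw [mul_right_comm ((C w + X) ^ j)]; ring

theorem sw13 (u v w : ℝ) (j k l m : ℕ) : DD u v w j k l m = DD w v u j m l k := by
  unfold DD
  rw [mul_right_comm ((C w + X) ^ j), mul_right_comm ((C v + X) ^ j),
    mul_right_comm ((C u + X) ^ j)]; ring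

section

variable {u v w : ℝ} (h1 : v ≠ u) (h2 : w ≠ u) (h3 : w ≠ v)

include h1 h2 h3

theorem rec2 (j k l m : ℕ) :
    DD u v w (j + 1) k (l + 1) m = v * DD u v w j k (l + 1) m + DD u v w j k l m := by
  rw [sw12, rec1 h1.symm h3, ← sw12 u v, ← sw12 u v]

theorem rec3 (j k l m : ℕ) :
    DD u v w (j + 1) k l (m + 1) = w * DD u v w j k l (m + 1) + DD u v w j k l m := by
  rw [sw13, rec1 h3.symm h2.symm, ← sw13 u v, ← sw13 u v]

theorem base (n : ℕ) : ∀ k l m, k + l + m = n → DD u v w 0 k l m = if n = 1 then 1 else 0 := by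
  induction n with
  | zero =>
    intro k l m h
    obtain ⟨rfl, rfl, rfl⟩ : k = 0 ∧ l = 0 ∧ m = 0 := by omega
    simp [DD, cf_zero]
  | succ n ih =>
    intro k l m h
    have two : ∀ {a b x y z t : ℝ}, b ≠ a → t = a * x + y → t = b * x + z → y = z → x = 0 := by
      intro a b x y z t hab e1 e2 e3
      have : (b - a) * x = 0 := by linarith
      exact (mul_eq_zero.1 this).resolve_left (sub_ne_zero.2 hab)
    rcases k with _ | k <;> rcases l with _ | l <;> rcases m with _ | m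
    · omega
    · obtain rfl : m = n := by omega
      simp [DD, cf_zero, cf_succ, coeff_one]
    · obtain rfl : l = n := by omega
      simp [DD, cf_zero, cf_succ, coeff_one]
    · rw [if_neg (by omega)]
      exact two h3 (rec2 h1 h2 h3 0 _ _ _) (rec3 h1 h2 h3 0 _ _ _)
        ((ih _ _ _ (by omega)).trans (ih _ _ _ (by omega)).symm)
    · obtain rfl : k = n := by omega
      simp [DD, cf_zero, cf_succ, coeff_one]
    · rw [if_neg (by omega)]
      exact two h2 (rec1 h1 h2 0 _ _ _) (rec3 h1 h2 h3 0 _ _ _)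
        ((ih _ _ _ (by omega)).trans (ih _ _ _ (by omega)).symm)
    · rw [if_neg (by omega)]
      exact two h1 (rec1 h1 h2 0 _ _ _) (rec2 h1 h2 h3 0 _ _ _)
        ((ih _ _ _ (by omega)).trans (ih _ _ _ (by omega)).symm)
    · rw [if_neg (by omega)]
      exact two h1 (rec1 h1 h2 0 _ _ _) (rec2 h1 h2 h3 0 _ _ _)
        ((ih _ _ _ (by omega)).trans (ih _ _ _ (by omega)).symm)

/-- one step of the recurrence at some node -/
theorem rec0 {A : ℝ} (hu : -A ≤ u ∧ u ≤ 0) (hv : -A ≤ v ∧ v ≤ 0) (hw : -A ≤ w ∧ w ≤ 0)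
    (j k l m σ : ℕ) (h : k + l + m = σ + 1) : ∃ (a : ℝ) (k' l' m' : ℕ), -A ≤ a ∧ a ≤ 0 ∧
      k' + l' + m' = σ ∧ DD u v w (j + 1) k l m = a * DD u v w j k l m + DD u v w j k' l' m' := by
  rcases k with _ | k
  · rcases l with _ | l
    · rcases m with _ | m
      · omega
      · exact ⟨w, _, _, _, hw.1, hw.2, by omega, rec3 h1 h2 h3 _ _ _ _⟩
    · exact ⟨v, _, _, _, hv.1, hv.2, by omega, rec2 h1 h2 h3 _ _ _ _⟩
  · exact ⟨u, _, _, _, hu.1, hu.2, by omega, rec1 h1 h2 _ _ _ _⟩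

theorem bound {A : ℝ} (hu : -A ≤ u ∧ u ≤ 0) (hv : -A ≤ v ∧ v ≤ 0) (hw : -A ≤ w ∧ w ≤ 0) (j : ℕ) :
    ∀ k l m σ, k + l + m = σ + 1 → 0 ≤ (-1) ^ (j + σ) * DD u v w j k l m ∧
      (-1) ^ (j + σ) * DD u v w j k l m ≤ j.choose σ * A ^ (j - σ) ∧
      (j = σ → DD u v w j k l m = 1) := by
  have hA : 0 ≤ A := by linarith [hu.1, hu.2]
  induction j with
  | zero =>
    intro k l m σ h
    rw [base h1 h2 h3 _ k l m h]
    rcases σ with _ | σ <;> simp
  | succ j ih =>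
    intro k l m σ h
    obtain ⟨a, k', l', m', a1, a2, h', e⟩ := rec0 h1 h2 h3 hu hv hw j k l m σ h
    obtain ⟨p1, p2, -⟩ := ih k l m σ h
    have p3 := mul_nonneg (neg_nonneg.2 a2) p1
    have p4 : -a * ((-1) ^ (j + σ) * DD u v w j k l m) ≤ A * (j.choose σ * A ^ (j - σ)) :=
      mul_le_mul (by linarith) p2 p1 hA
    rcases σ with _ | σ
    · obtain ⟨rfl, rfl, rfl⟩ : k' = 0 ∧ l' = 0 ∧ m' = 0 := by omega
      have z : DD u v w j 0 0 0 = 0 := by simp [DD, cf_zero]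
      rw [e, z]
      simp only [add_zero, Nat.choose_zero_right, Nat.cast_one, one_mul, tsub_zero] at *
      refine ⟨?_, ?_, fun hh => by omega⟩
      · rw [pow_succ]; linarith
      · rw [pow_succ, pow_succ]; linarith
    · obtain ⟨q1, q2, q3⟩ := ih k' l' m' σ h'
      have s1 : (-1 : ℝ) ^ (j + 1 + (σ + 1)) = (-1) ^ (j + σ) := by
        rw [show j + 1 + (σ + 1) = j + σ + 2 by ring, pow_add]; norm_num
      have s2 : (-1 : ℝ) ^ (j + (σ + 1)) = -(-1) ^ (j + σ) := by rw [← add_assoc, pow_succ]; ring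
      have s3 : A * (j.choose (σ + 1) * A ^ (j - (σ + 1))) = j.choose (σ + 1) * A ^ (j - σ) := by
        rcases le_or_gt (σ + 1) j with hh | hh
        · rw [show j - σ = j - (σ + 1) + 1 by omega, pow_succ]; ring
        · simp [Nat.choose_eq_zero_of_lt hh]
      rw [s3] at p4
      rw [s2] at p1 p2 p3 p4
      rw [e, s1, Nat.choose_succ_succ', Nat.add_sub_add_right]
      push_cast
      refine ⟨by linarith, by linarith, fun hh => ?_⟩
      obtain rfl : j = σ := by omega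
      rw [Nat.choose_eq_zero_of_lt (Nat.lt_succ_self j)] at p2
      have s4 : (-1 : ℝ) ^ (j + j) = 1 := by rw [← two_mul, pow_mul]; norm_num
      rw [s4] at p1 p2
      have : DD u v w j k l m = 0 := by push_cast at p2; linarith
      rw [this, q3 rfl]; ring

end

/-! ### the binomial series -/

theorem hs_binom (s y : ℝ) (hy : |y| < 1) :
    HasSum (fun i => Ring.choose s i * y ^ i) ((1 + y) ^ s) := by
  have := (Real.one_add_rpow_hasFPowerSeriesOnBall_zero (a := s)).hasSum (y := y)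
    (by simpa [edist_dist, ← ENNReal.ofReal_one, ENNReal.ofReal_lt_ofReal_iff] using hy)
  simpa [_root_.binomialSeries, mul_comm] using this

theorem coeff_pow (v : ℝ) (j h : ℕ) :
    coeff h ((C v + X : ℝ⟦X⟧) ^ j) = j.choose h * v ^ (j - h) := by
  have : (C v + X : ℝ⟦X⟧) ^ j =
      ((Polynomial.X + Polynomial.C v : Polynomial ℝ) ^ j : Polynomial ℝ) := by
    simp [add_comm]
  rw [this, Polynomial.coeff_coe, Polynomial.coeff_X_add_C_pow, mul_comm]

theorem HasSum.congr' {f g : ℕ → ℝ} {a b : ℝ} (h1 : ∀ i, g i = f i) (h2 : b = a) (h : HasSum f a) :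
    HasSum g b := by
  rw [funext h1, h2]; exact h

/-- the coefficients of the expansion at `α` -/
def aa (ρ : ℕ) (x α : ℝ) (j : ℕ) : ℝ :=
  Ring.choose ((ρ : ℝ) + 1 / 2) j * x ^ j * (1 + α * x) ^ ((ρ : ℝ) + 1 / 2 - j)

theorem hs_coeff (ρ : ℕ) {x α β : ℝ} (hB : 0 < 1 + α * x) (hy : |(β - α) * x| < 1 + α * x) (h : ℕ) :
    HasSum (fun j => aa ρ x α j * coeff h ((C (β - α) + X : ℝ⟦X⟧) ^ j))
      (√(1 + β * x) * coeff h (gs ρ x β)) := by
  set s : ℝ := (ρ : ℝ) + 1 / 2 with hs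
  have hB' : 0 < 1 + β * x := by have := (abs_lt.1 hy).1; linarith
  have h0 := (hs_binom (s - h) ((β - α) * x / (1 + α * x))
    (by rw [abs_div, abs_of_pos hB, div_lt_one hB]; exact hy)).mul_left
      (Ring.choose s h * x ^ h * (1 + α * x) ^ (s - h))
  rw [← hasSum_nat_add_iff' h]
  have z : ∑ i ∈ Finset.range h, aa ρ x α i * coeff h ((C (β - α) + X : ℝ⟦X⟧) ^ i) = 0 := by
    refine Finset.sum_eq_zero fun i hi => ?_
    rw [coeff_pow, Nat.choose_eq_zero_of_lt (Finset.mem_range.1 hi)]; simp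
  rw [z, sub_zero]
  refine HasSum.congr' ?_ ?_ h0
  · intro i
    have e := Ring.choose_smul_choose s (Nat.le_add_left h i)
    rw [Nat.add_sub_cancel, nsmul_eq_mul] at e
    rw [coeff_pow, Nat.add_sub_cancel, aa, ← hs, div_pow, mul_pow]
    have e2 : (1 + α * x) ^ (s - ((i + h : ℕ) : ℝ)) = (1 + α * x) ^ (s - h) / (1 + α * x) ^ i := by
      rw [← Real.rpow_natCast (1 + α * x) i, ← Real.rpow_sub hB]; congr 1; push_cast; ring
    rw [e2]
    rw [pow_add]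
    linear_combination x ^ i * x ^ h * (1 + α * x) ^ (s - h) * (β - α) ^ i / (1 + α * x) ^ i * e
  · rw [gs, coeff_mk, ← hs, mul_assoc (Ring.choose s h * x ^ h),
      ← Real.mul_rpow hB.le (by
        have : 1 + (β - α) * x / (1 + α * x) = (1 + β * x) / (1 + α * x) := by field_simp; ring
        rw [this]; positivity)]
    have e1 : (1 + α * x) * (1 + (β - α) * x / (1 + α * x)) = 1 + β * x := by field_simp; ring
    have e2 : (1 + β * x) ^ (s - h) = √(1 + β * x) * (1 + β * x) ^ ((ρ : ℤ) - h) := by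
      rw [Real.sqrt_eq_rpow, ← Real.rpow_intCast, ← Real.rpow_add hB']; congr 1; push_cast; ring
    rw [e1, e2]; ring

theorem hs_cf {a : ℕ → ℝ} {F : ℕ → ℝ⟦X⟧} {r : ℝ} {Φ : ℝ⟦X⟧}
    (h : ∀ i, HasSum (fun j => a j * coeff i (F j)) (r * coeff i Φ)) (k : ℕ) (G H : ℝ⟦X⟧) :
    HasSum (fun j => a j * coeff k (F j * G * H)) (r * coeff k (Φ * G * H)) := by
  simp only [mul_assoc, coeff_mul k (F _), coeff_mul k Φ, Finset.mul_sum]
  refine hasSum_sum fun p _ => ?_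
  simpa only [mul_assoc] using (h p.1).mul_right (coeff p.2 (G * H))

theorem hs_SS (ρ k l m : ℕ) {x α β γ : ℝ} (hB : 0 < 1 + α * x) (h1 : |(β - α) * x| < 1 + α * x)
    (h2 : |(γ - α) * x| < 1 + α * x) :
    HasSum (fun j => aa ρ x α j * DD (α - α) (β - α) (γ - α) j (k + 1) (l + 1) (m + 1))
      (SS ρ x α β γ (k + 1) (l + 1) (m + 1) 1 1 1) := by
  have h0 : |(α - α) * x| < 1 + α * x := by simpa using hB
  refine HasSum.congr' (fun j => ?_) ?_
    (((hs_cf (hs_coeff ρ hB h0) k (iv (α - β) ^ (l + 1)) (iv (α - γ) ^ (m + 1))).add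
      (hs_cf (hs_coeff ρ hB h1) l (iv (β - α) ^ (k + 1)) (iv (β - γ) ^ (m + 1)))).add
      (hs_cf (hs_coeff ρ hB h2) m (iv (γ - α) ^ (k + 1)) (iv (γ - β) ^ (l + 1))))
  · simp only [DD, cf_succ, sub_sub_sub_cancel_right]; ring
  · simp only [SS, rs, Nat.add_sub_cancel, one_mul]

/-! ### binomial coefficients of half-integers -/

theorem ch_succ (s : ℝ) (j : ℕ) : Ring.choose s (j + 1) * (j + 1) = Ring.choose s j * (s - j) := by
  have e := Ring.choose_smul_choose s (Nat.le_succ j)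
  simp only [Nat.succ_eq_add_one, Nat.choose_succ_self_right, Nat.add_sub_cancel_left,
    Ring.choose_one_right, nsmul_eq_mul] at e
  push_cast at e
  linarith

theorem ch_diag (ρ : ℕ) : 0 < Ring.choose ((ρ : ℝ) + 1 / 2) (ρ + 1) ∧
    Ring.choose ((ρ : ℝ) + 1 / 2) (ρ + 1) ≤ 1 := by
  induction ρ with
  | zero => norm_num
  | succ ρ ih =>
    have e := Ring.choose_smul_choose (((ρ + 1 : ℕ) : ℝ) + 1 / 2) (Nat.le_add_left 1 (ρ + 1))
    simp only [Nat.choose_one_right, Nat.add_sub_cancel, Ring.choose_one_right, nsmul_eq_mul] at e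
    rw [show (((ρ + 1 : ℕ) : ℝ) + 1 / 2 - ((1 : ℕ) : ℝ)) = ρ + 1 / 2 by push_cast; ring] at e
    have h0 : (0 : ℝ) ≤ ρ := by positivity
    generalize Ring.choose (((ρ + 1 : ℕ) : ℝ) + 1 / 2) (ρ + 1 + 1) = y at *
    push_cast at e
    constructor <;> nlinarith [ih.1, ih.2]

/-- the absolute values, from the index `ρ + 1` on -/
def cc (ρ j : ℕ) : ℝ := (-1) ^ (j + ρ + 1) * Ring.choose ((ρ : ℝ) + 1 / 2) j

theorem cc_step {ρ j : ℕ} (h : ρ + 1 ≤ j) (h0 : 0 < cc ρ j) :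
    0 < cc ρ (j + 1) ∧ cc ρ (j + 1) ≤ cc ρ j := by
  have e := ch_succ ((ρ : ℝ) + 1 / 2) j
  have e2 : cc ρ (j + 1) * (j + 1) = cc ρ j * (j - ρ - 1 / 2) := by
    unfold cc
    rw [show j + 1 + ρ + 1 = j + ρ + 1 + 1 by ring, pow_succ _ (j + ρ + 1)]
    linear_combination (-(-1) ^ (j + ρ + 1)) * e
  have h1 : (ρ : ℝ) + 1 ≤ j := by exact_mod_cast h
  have h2 : (0 : ℝ) ≤ ρ := by positivity
  constructor <;> nlinarith

theorem cc_mono {ρ σ : ℕ} (h : ρ + 1 ≤ σ) (h0 : 0 < cc ρ σ) (j : ℕ) (hj : σ ≤ j) :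
    0 < cc ρ j ∧ cc ρ j ≤ cc ρ σ := by
  induction j, hj using Nat.le_induction with
  | base => exact ⟨h0, le_rfl⟩
  | succ j hj ih => exact ⟨(cc_step (h.trans hj) ih.1).1, (cc_step (h.trans hj) ih.1).2.trans ih.2⟩

theorem cc_base {ρ σ : ℕ} (h : ρ + 1 ≤ σ) : 0 < cc ρ σ ∧ cc ρ σ ≤ 1 := by
  have e : cc ρ (ρ + 1) = Ring.choose ((ρ : ℝ) + 1 / 2) (ρ + 1) := by
    unfold cc
    rw [show ρ + 1 + ρ + 1 = 2 * (ρ + 1) by ring, pow_mul]; norm_num
  have := cc_mono le_rfl (e ▸ (ch_diag ρ).1) σ h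
  exact ⟨this.1, this.2.trans (e ▸ (ch_diag ρ).2)⟩

theorem be_eq {ρ σ : ℕ} (h : ρ + 1 ≤ σ) : be ρ σ = cc ρ σ := by
  rw [← abs_of_pos (cc_base h).1, be, cc, abs_mul, abs_pow]; simp

end Main

open Main in
theorem main : S_MAIN := by
  intro ρ k l m σ ε x α β γ N hk hl hm hσ hρ
  obtain ⟨k, rfl⟩ := Nat.exists_eq_add_of_le' hk
  obtain ⟨l, rfl⟩ := Nat.exists_eq_add_of_le' hl
  obtain ⟨m, rfl⟩ := Nat.exists_eq_add_of_le' hm
  obtain ⟨x0, ab, bc, e4, ha, hb, hc⟩ := N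
  rw [be_eq hρ]
  obtain ⟨c0, c1⟩ := cc_base hρ
  obtain ⟨ha1, ha2⟩ := abs_le.1 ha
  obtain ⟨hb1, hb2⟩ := abs_le.1 hb
  obtain ⟨hc1, hc2⟩ := abs_le.1 hc
  have e0 : 0 ≤ ε := by linarith
  have hB : 0 < 1 + α * x := by linarith
  have H := (hs_SS ρ k l m hB (β := β) (γ := γ) (by rw [abs_lt]; constructor <;> linarith)
    (by rw [abs_lt]; constructor <;> linarith)).mul_left ((-1) ^ (σ + ρ + 1))
  have bd := fun j => bound (u := α - α) (v := β - α) (w := γ - α) (A := α - γ) (by linarith)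
    (by linarith) (by linarith) (by constructor <;> linarith) (by constructor <;> linarith)
    (by constructor <;> linarith) j (k + 1) (l + 1) (m + 1) σ hσ.symm
  set B := 1 + α * x with hBe
  set s : ℝ := (ρ : ℝ) + 1 / 2 with hs
  have tm : ∀ j, (-1) ^ (σ + ρ + 1) *
      (aa ρ x α j * DD (α - α) (β - α) (γ - α) j (k + 1) (l + 1) (m + 1)) =
      cc ρ j * (x ^ j * B ^ (s - j)) *
        ((-1) ^ (j + σ) * DD (α - α) (β - α) (γ - α) j (k + 1) (l + 1) (m + 1)) := by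
    intro j
    have : (-1 : ℝ) ^ (σ + ρ + 1) = (-1) ^ (j + ρ + 1) * (-1) ^ (j + σ) := by
      rw [← pow_add, show j + ρ + 1 + (j + σ) = 2 * j + (σ + ρ + 1) by ring, pow_add (-1) (2 * j),
        pow_mul]; norm_num
    rw [this, aa, cc]; ring
  simp only [tm] at H
  set y := (α - γ) * x / B with hy
  have y0 : 0 ≤ y := by have := sub_pos.2 (bc.trans ab); positivity
  have y1 : 1 - y = (1 + γ * x) / B := by rw [hy]; field_simp; ring
  have hC : 0 < 1 + γ * x := by linarith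
  have y2 : y < 1 := by have : 0 < 1 - y := by rw [y1]; positivity
                        linarith
  have G := (hasSum_choose_mul_geometric_of_norm_lt_one σ (r := y)
    (by rw [Real.norm_eq_abs, abs_of_nonneg y0]; exact y2)).mul_left (cc ρ σ * (x ^ σ * B ^ (s - σ)))
  have z : ∀ j < σ, (-1) ^ (j + σ) * DD (α - α) (β - α) (γ - α) j (k + 1) (l + 1) (m + 1) = 0 := by
    intro j hj
    have := bd j
    rw [Nat.choose_eq_zero_of_lt hj] at this
    exact le_antisymm (by simpa using this.2.1) this.1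
  rw [← hasSum_nat_add_iff' σ,
    Finset.sum_eq_zero fun i hi => by rw [z i (Finset.mem_range.1 hi), mul_zero], sub_zero] at H
  have hs1 : (ρ : ℝ) + 1 ≤ σ := by exact_mod_cast hρ
  have hr0 : (0 : ℝ) ≤ ρ := by positivity
  refine ⟨c0, c1, le_trans ?_ (le_hasSum H 0 fun j _ => ?_), (hasSum_le (fun j => ?_) H G).trans ?_⟩
  · rw [zero_add, (bd σ).2.2 rfl, ← two_mul, pow_mul]
    have : 1 / (1 + ε) ^ σ ≤ B ^ (s - σ) := by
      rw [show s - σ = -(σ - s) by ring, Real.rpow_neg hB.le, one_div]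
      refine inv_anti₀ (by positivity) ?_
      rw [← Real.rpow_natCast]
      exact (Real.rpow_le_rpow hB.le (by linarith : B ≤ 1 + ε) (by linarith)).trans
        (Real.rpow_le_rpow_of_exponent_le (by linarith) (by linarith))
    calc _ = cc ρ σ * (x ^ σ * (1 / (1 + ε) ^ σ)) := by ring
      _ ≤ cc ρ σ * (x ^ σ * B ^ (s - σ)) := by gcongr
      _ = _ := by norm_num
  · have := (cc_mono hρ c0 (j + σ) (by omega)).1
    have := (bd (j + σ)).1
    positivity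
  · have p1 := cc_mono hρ c0 (j + σ) (by omega)
    have p2 := bd (j + σ)
    rw [Nat.add_sub_cancel] at p2
    have e2 : B ^ (s - ((j + σ : ℕ) : ℝ)) = B ^ (s - σ) / B ^ j := by
      rw [← Real.rpow_natCast B j, ← Real.rpow_sub hB]; congr 1; push_cast; ring
    calc _ ≤ cc ρ σ * (x ^ (j + σ) * B ^ (s - ((j + σ : ℕ) : ℝ))) *
          ((j + σ).choose σ * (α - γ) ^ j) :=
          mul_le_mul (by gcongr; exact p1.2) p2.2.1 p2.1 (by positivity)
      _ = _ := by rw [e2, hy, div_pow, mul_pow, pow_add]; ring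
  · have e3 : B ^ (s - σ) * B ^ (σ + 1) ≤ (1 + ε) ^ (ρ + 2) := by
      rw [← Real.rpow_natCast, ← Real.rpow_natCast, ← Real.rpow_add hB]
      push_cast
      exact (Real.rpow_le_rpow hB.le (by linarith : B ≤ 1 + ε) (by linarith)).trans
        (Real.rpow_le_rpow_of_exponent_le (by linarith) (by linarith))
    have e5 : 0 < 1 - ε := by linarith
    calc _ = cc ρ σ * x ^ σ * (B ^ (s - σ) * B ^ (σ + 1)) / (1 + γ * x) ^ (σ + 1) := by
          rw [y1, div_pow]; field_simp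
      _ ≤ _ := by gcongr; linarith

end Pool.Agent.MP_2339ce_nt.DQ

end

end MrgPart0

-- ======== part 1: formerly Pool.Agent.MP_2339ce_nt.DQ.INT
section MrgPart1

/-! Project DQ: integrality of the scaled residues. -/

set_option autoImplicit false

noncomputable section

namespace Pool.Agent.MP_2339ce_nt.DQ

open PowerSeries

namespace INT

/-- the integers inside the reals -/
abbrev ZR : Subring ℝ := (Int.castRingHom ℝ).range

theorem int_mem (i : ℤ) : (i : ℝ) ∈ ZR := ⟨i, rfl⟩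

theorem choose_step (r : ℝ) (n : ℕ) :
    ((n : ℝ) + 1) * Ring.choose r (n + 1) = (r - n) * Ring.choose r n := by
  have h := Ring.choose_smul_choose r (Nat.le_succ n)
  rw [Nat.succ_eq_add_one, Nat.add_sub_cancel_left, Ring.choose_one_right, Nat.choose_succ_self_right,
    nsmul_eq_mul] at h
  push_cast at h
  rw [h, mul_comm]

theorem choose_base (n : ℕ) :
    4 ^ n * Ring.choose (-1 / 2 : ℝ) n = (-1) ^ n * (n.centralBinom : ℝ) := by
  induction n with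
  | zero => simp
  | succ n ih =>
    have h1 := choose_step (-1 / 2) n
    have h2 : ((n : ℝ) + 1) * ((n + 1).centralBinom : ℝ) = 2 * (2 * n + 1) * n.centralBinom := by
      exact_mod_cast Nat.succ_mul_centralBinom_succ n
    have h3 : (n : ℝ) + 1 ≠ 0 := by positivity
    refine mul_left_cancel₀ h3 ?_
    rw [pow_succ, pow_succ]
    linear_combination (4 ^ n * 4) * h1 + (4 * (-1 / 2 - (n : ℝ))) * ih + (-1) ^ n * h2

theorem choose_mem (k n : ℕ) : 4 ^ n * Ring.choose (-1 / 2 + (k : ℝ)) n ∈ ZR := by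
  induction k generalizing n with
  | zero =>
    rw [Nat.cast_zero, add_zero, choose_base]
    exact mul_mem (pow_mem (neg_mem (one_mem _)) _) (natCast_mem _ _)
  | succ k ih =>
    cases n with
    | zero => rw [Ring.choose_zero_right, pow_zero, one_mul]; exact one_mem _
    | succ n =>
      rw [Nat.cast_succ, ← add_assoc, Ring.choose_succ_succ, mul_add, pow_succ', mul_assoc,
        ← pow_succ']
      exact add_mem (mul_mem (ofNat_mem _ 4) (ih n)) (ih (n + 1))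

/-- the first coefficients become integers after scaling the variable by `w` -/
def IW (w : ℝ) (n : ℕ) (f : ℝ⟦X⟧) : Prop := ∀ h ≤ n, coeff h f * w ^ h ∈ ZR

theorem IW.mul {w : ℝ} {n : ℕ} {f g : ℝ⟦X⟧} (hf : IW w n f) (hg : IW w n g) : IW w n (f * g) := by
  intro h hh
  rw [coeff_mul, Finset.sum_mul]
  refine sum_mem fun p hp => ?_
  have e := Finset.HasAntidiagonal.mem_antidiagonal.1 hp
  have : coeff p.1 f * coeff p.2 g * w ^ h = coeff p.1 f * w ^ p.1 * (coeff p.2 g * w ^ p.2) := by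
    rw [← e, pow_add]; ring
  rw [this]
  exact mul_mem (hf _ (by omega)) (hg _ (by omega))

theorem IW.one (w : ℝ) (n : ℕ) : IW w n 1 := by
  intro h _
  rw [coeff_one]
  split_ifs with h0
  · rw [h0, pow_zero, one_mul]; exact one_mem _
  · rw [zero_mul]; exact zero_mem _

theorem IW.pow {w : ℝ} {n : ℕ} {f : ℝ⟦X⟧} (hf : IW w n f) (k : ℕ) : IW w n (f ^ k) := by
  induction k with
  | zero => rw [pow_zero]; exact IW.one w n
  | succ k ih => rw [pow_succ]; exact ih.mul hf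

theorem iv_eq {c : ℝ} (hc : c ≠ 0) : iv c = PowerSeries.mk fun h => (-c⁻¹) ^ h * c⁻¹ := by
  rw [iv, PowerSeries.inv_eq_iff_mul_eq_one (by simpa using hc), mul_add]
  ext h
  cases h with
  | zero => simp [hc]
  | succ h =>
    rw [map_add, coeff_mul_C, coeff_succ_mul_X, coeff_mk, coeff_mk, coeff_one,
      if_neg (Nat.succ_ne_zero h), pow_succ]
    field_simp
    ring

theorem iw_iv {c w : ℝ} (hc : c ≠ 0) (u : ℤ) (hw : w = u * c) (n : ℕ) : IW w n (C c * iv c) := by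
  intro h _
  rw [coeff_C_mul, iv_eq hc, coeff_mk, hw]
  have : c * ((-c⁻¹) ^ h * c⁻¹) * (u * c) ^ h = (-(u : ℝ)) ^ h := by
    rw [mul_comm ((-c⁻¹) ^ h), ← mul_assoc, mul_inv_cancel₀ hc, one_mul, ← mul_pow]
    congr 1
    field_simp
  rw [this]
  exact pow_mem (neg_mem (int_mem u)) _

theorem iw_gs (ρ : ℕ) {r d : ℤ} (a m : ℤ) (hr : 0 < r) (hd : 0 < d) {w : ℝ}
    (hw : w = 4 * m / r) : IW w ρ (C (((r : ℝ) * d) ^ ρ) * gs ρ (1 / d) (a / r)) := by
  intro h hh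
  have h1 : (r : ℝ) ≠ 0 := by exact_mod_cast hr.ne'
  have h2 : (d : ℝ) ≠ 0 := by exact_mod_cast hd.ne'
  obtain ⟨j, rfl⟩ := Nat.exists_eq_add_of_le hh
  rw [coeff_C_mul, gs, coeff_mk, hw]
  have e1 : ((h + j : ℕ) : ℤ) - h = (j : ℕ) := by push_cast; ring
  have e2 : ((h + j : ℕ) : ℝ) + 1 / 2 = -1 / 2 + ((h + j + 1 : ℕ) : ℝ) := by push_cast; ring
  have e3 : (1 + (a : ℝ) / r * (1 / d)) = (r * d + a) / (r * d) := by field_simp
  rw [e1, e2, zpow_natCast, e3]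
  generalize hch : Ring.choose (-1 / 2 + ((h + j + 1 : ℕ) : ℝ)) h = ch
  have e4 : ((r : ℝ) * d) ^ (h + j) * (ch * (1 / d) ^ h * ((r * d + a) / (r * d)) ^ j) *
      (4 * m / r) ^ h = 4 ^ h * ch * ((r * d + a) ^ j * m ^ h) := by
    simp only [div_pow, mul_pow, pow_add, one_pow]
    field_simp
  rw [e4, ← hch]
  exact mul_mem (choose_mem _ _) (mul_mem (pow_mem (add_mem (mul_mem (int_mem r) (int_mem d))
    (int_mem a)) _) (pow_mem (int_mem m) _))

theorem gen (ρ k l m : ℕ) (hk : k ≤ ρ) {r d : ℤ} (a m0 u1 u2 : ℤ) (hr : 0 < r) (hd : 0 < d)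
    {w β γ : ℝ} (h1 : (a : ℝ) / r - β ≠ 0) (h2 : (a : ℝ) / r - γ ≠ 0) (hw : w = 4 * m0 / r)
    (hw1 : w = u1 * (a / r - β)) (hw2 : w = u2 * (a / r - γ)) :
    ((r : ℝ) * d) ^ ρ * (a / r - β) ^ l * (a / r - γ) ^ m *
      rs ρ (1 / d) (a / r) β γ (k + 1) l m * w ^ k ∈ ZR := by
  have h := ((iw_gs ρ a m0 hr hd hw).mul ((iw_iv h1 u1 hw1 ρ).pow l)).mul
    ((iw_iv h2 u2 hw2 ρ).pow m) k hk
  have e : C (((r : ℝ) * d) ^ ρ) * gs ρ (1 / d) (a / r) *
      (C ((a : ℝ) / r - β) * iv (a / r - β)) ^ l * (C ((a : ℝ) / r - γ) * iv (a / r - γ)) ^ m =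
      C (((r : ℝ) * d) ^ ρ * (a / r - β) ^ l * (a / r - γ) ^ m) *
        (gs ρ (1 / d) (a / r) * iv (a / r - β) ^ l * iv (a / r - γ) ^ m) := by
    rw [map_mul, map_mul, map_pow C ((a : ℝ) / r - β), map_pow C ((a : ℝ) / r - γ), mul_pow, mul_pow]
    ring
  rw [e, coeff_C_mul] at h
  exact h

theorem side (ρ kp kq : ℕ) (p q d np nq : ℤ) (h1 : 1 ≤ kp) (h2 : 1 ≤ kq) (h3 : kq ≤ ρ + 1)
    (hp : 0 < p) (hq : 0 < q) (hd : 0 < d) (hnq : nq ≠ 0) (hD : np * q - nq * p ≠ 0) :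
    sc ρ kp kq p q d np nq * rs ρ (1 / d) (nq / q) 0 (np / p) kq (ρ + 1) kp / q ∈ ZR := by
  obtain ⟨a, rfl⟩ := Nat.exists_eq_add_of_le' h1
  obtain ⟨b, rfl⟩ := Nat.exists_eq_add_of_le' h2
  obtain ⟨j, rfl⟩ := Nat.exists_eq_add_of_le (Nat.le_of_succ_le_succ h3)
  have p0 : (p : ℝ) ≠ 0 := by exact_mod_cast hp.ne'
  have q0 : (q : ℝ) ≠ 0 := by exact_mod_cast hq.ne'
  have n0 : (nq : ℝ) ≠ 0 := by exact_mod_cast hnq
  obtain ⟨D, hDD⟩ : ∃ D : ℤ, D = np * q - nq * p := ⟨_, rfl⟩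
  have D0 : (D : ℝ) ≠ 0 := by exact_mod_cast hDD ▸ hD
  have eD : (np : ℝ) * q - nq * p = D := by rw [hDD]; push_cast; ring
  have e1 : (nq : ℝ) / q - np / p = -D / (p * q) := by rw [← eD]; field_simp; ring
  have h := gen (b + j) b (b + j + 1) (a + 1) (Nat.le_add_right _ _) nq (nq * D) (4 * D)
    (-4 * nq * p) hq hd (w := 4 * (nq * D : ℤ) / q) (β := 0) (γ := np / p)
    (by rw [sub_zero]; exact div_ne_zero n0 q0)
    (by rw [e1]; exact div_ne_zero (neg_ne_zero.2 D0) (mul_ne_zero p0 q0)) rfl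
    (by push_cast; field_simp; ring) (by rw [e1]; push_cast; field_simp)
  rw [e1, sub_zero] at h
  generalize rs (b + j) (1 / d) (nq / q) 0 (np / p) (b + 1) (b + j + 1) (a + 1) = R at h ⊢
  have e2 : sc (b + j) (a + 1) (b + 1) p q d np nq * R / q =
      ((q : ℝ) * d) ^ (b + j) * (nq / q) ^ (b + j + 1) * (-D / (p * q)) ^ (a + 1) * R *
        (4 * (nq * D : ℤ) / q) ^ b * ((-1) ^ (a + 1) * 4 ^ j * np ^ (a + 1 + (b + j)) * q ^ a) := by
    have e3 : a + 1 + (b + 1) - 1 = a + b + 1 := by omega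
    have e4 : ((-1 : ℝ)) ^ (a + 1) * (-1) ^ (a + 1) = 1 := by rw [← mul_pow]; simp
    rw [sc, eD, e3, neg_div, neg_pow (D / (p * q) : ℝ)]
    push_cast
    generalize ((-1 : ℝ)) ^ (a + 1) = s at e4 ⊢
    have e5 : ∀ t u : ℝ, t = u → t = u * (s * s) := fun t u h => by rw [e4, mul_one, h]
    simp only [div_pow, mul_pow, pow_add, pow_one]
    refine (e5 _ _ rfl).trans ?_
    field_simp
  rw [e2]
  exact mul_mem h (mul_mem (mul_mem (mul_mem (pow_mem (neg_mem (one_mem _)) _)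
    (pow_mem (ofNat_mem _ 4) _)) (pow_mem (int_mem np) _)) (pow_mem (int_mem q) _))

theorem zero (ρ kp kq : ℕ) (p q d np nq : ℤ) (hp : 0 < p) (hq : 0 < q) (hd : 0 < d)
    (hnp : np ≠ 0) (hnq : nq ≠ 0) :
    sc ρ kp kq p q d np nq * rs ρ (1 / d) 0 (nq / q) (np / p) (ρ + 1) kq kp ∈ ZR := by
  have p0 : (p : ℝ) ≠ 0 := by exact_mod_cast hp.ne'
  have q0 : (q : ℝ) ≠ 0 := by exact_mod_cast hq.ne'
  have n0 : (nq : ℝ) ≠ 0 := by exact_mod_cast hnq
  have m0 : (np : ℝ) ≠ 0 := by exact_mod_cast hnp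
  have z : ((0 : ℤ) : ℝ) / ((1 : ℤ) : ℝ) = 0 := by simp
  have h := gen ρ ρ kq kp le_rfl 0 (np * nq) (-4 * np * q) (-4 * nq * p) one_pos hd
    (w := 4 * np * nq) (β := nq / q) (γ := np / p)
    (by rw [z, zero_sub]; exact neg_ne_zero.2 (div_ne_zero n0 q0))
    (by rw [z, zero_sub]; exact neg_ne_zero.2 (div_ne_zero m0 p0)) (by push_cast; ring)
    (by rw [z]; push_cast; field_simp; ring) (by rw [z]; push_cast; field_simp; ring)
  rw [z, zero_sub, zero_sub, Int.cast_one, one_mul] at h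
  generalize rs ρ (1 / d) 0 (nq / q) (np / p) (ρ + 1) kq kp = R at h ⊢
  have e2 : sc ρ kp kq p q d np nq * R =
      (d : ℝ) ^ ρ * (-(nq / q)) ^ kq * (-(np / p)) ^ kp * R * (4 * np * nq) ^ ρ *
        ((-1) ^ kq * (-1) ^ kp * (np * q - nq * p) ^ (kp + kq - 1)) := by
    have e4 : ∀ n : ℕ, ((-1 : ℝ)) ^ n * (-1) ^ n = 1 := fun n => by rw [← mul_pow]; simp
    have e5 := e4 kq
    have e6 := e4 kp
    rw [sc, neg_pow (nq / q : ℝ), neg_pow (np / p : ℝ)]
    generalize ((-1 : ℝ)) ^ kq = s at e5 ⊢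
    generalize ((-1 : ℝ)) ^ kp = t at e6 ⊢
    generalize ((np : ℝ) * q - nq * p) ^ (kp + kq - 1) = E
    have e7 : ∀ v : ℝ, v = v * (s * s) * (t * t) := fun v => by rw [e5, e6, mul_one, mul_one]
    simp only [div_pow, mul_pow, pow_add]
    refine (e7 _).trans ?_
    field_simp
  rw [e2]
  exact mul_mem h (mul_mem (mul_mem (pow_mem (neg_mem (one_mem _)) _)
    (pow_mem (neg_mem (one_mem _)) _)) (pow_mem (sub_mem (mul_mem (int_mem np) (int_mem q))
      (mul_mem (int_mem nq) (int_mem p))) _))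

theorem sc_swap (ρ kp kq : ℕ) (p q d np nq : ℝ) :
    sc ρ kp kq p q d np nq = (-1) ^ (kp + kq - 1) * sc ρ kq kp q p d nq np := by
  rw [sc, sc, ← neg_sub (nq * p) (np * q), neg_pow, add_comm kq kp]
  ring

end INT

theorem int_ : S_INT := by
  intro ρ kp kq p q d np nq hA hp hq hd hnp hnq hD
  refine ⟨?_, ?_, ?_⟩
  · obtain ⟨i, hi⟩ := INT.zero ρ kp kq p q d np nq hp hq hd hnp hnq
    exact ⟨i, hi.symm⟩
  · obtain ⟨i, hi⟩ := INT.side ρ kp kq p q d np nq hA.p1 hA.q1 hA.q2 hp hq hd hnq hD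
    exact ⟨i, hi.symm⟩
  · have h := INT.side ρ kq kp q p d nq np hA.q1 hA.p1 hA.p2 hq hp hd hnp
      (by rw [← neg_sub]; exact neg_ne_zero.2 hD)
    obtain ⟨i, hi⟩ := mul_mem (pow_mem (neg_mem (one_mem INT.ZR)) (kp + kq - 1)) h
    refine ⟨i, ?_⟩
    rw [INT.sc_swap, mul_assoc, mul_div_assoc]
    exact hi.symm

end Pool.Agent.MP_2339ce_nt.DQ

end

end MrgPart1

-- ======== part 2: formerly Pool.Agent.MP_2339ce_nt.DQ.SIZE
section MrgPart2

/-! Project DQ: the size of the linear form. -/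

set_option autoImplicit false

namespace Pool.Agent.MP_2339ce_nt.DQ

open Real

namespace SIZE

theorem pw {a b : ℝ} {m n : ℕ} (h0 : 0 ≤ a) (h : a ≤ b) (h1 : 1 ≤ b) (hm : m ≤ n) :
    a ^ m ≤ b ^ n := (pow_le_pow_left₀ h0 h m).trans (pow_le_pow_right₀ h1 hm)

theorem SS_rev (ρ : ℕ) (x α β γ : ℝ) (k l m : ℕ) :
    SS ρ x α β γ k l m 1 1 1 = SS ρ x γ β α m l k 1 1 1 := by
  unfold SS
  rw [rs_comm ρ x α β γ, rs_comm ρ x β α γ, rs_comm ρ x γ α β]
  ring

theorem main_abs (h1 : S_MAIN) {ρ k l m σ : ℕ} {x α β γ : ℝ} (hn : Nod (1 / 4) x α β γ)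
    (hk : 1 ≤ k) (hl : 1 ≤ l) (hm : 1 ≤ m) (hσ : σ + 1 = k + l + m) (hρ : ρ + 2 ≤ σ) :
    |SS ρ x α β γ k l m 1 1 1| ≤ x ^ σ * 3 ^ σ := by
  obtain ⟨b0, b1, lo, up⟩ := h1 ρ k l m σ _ x α β γ hn hk hl hm hσ (by omega)
  have x0 := hn.x0
  have e : |SS ρ x α β γ k l m 1 1 1| = (-1) ^ (σ + ρ + 1) * SS ρ x α β γ k l m 1 1 1 := by
    rw [← abs_of_nonneg (le_trans (by positivity) lo), abs_mul, abs_neg_one_pow, one_mul]
  rw [e]
  refine up.trans ?_
  have a1 : (1 + 1 / 4 : ℝ) ^ (ρ + 2) ≤ (3 / 2) ^ σ :=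
    pw (by norm_num) (by norm_num) (by norm_num) hρ
  have a2 : (4 / 3 : ℝ) ^ (σ + 1) ≤ 2 ^ σ := by
    refine (pow_le_pow_right₀ (by norm_num) (by omega : σ + 1 ≤ 2 * σ)).trans ?_
    rw [pow_mul]
    exact pow_le_pow_left₀ (by norm_num) (by norm_num) σ
  have e2 : be ρ σ * x ^ σ * (1 + 1 / 4) ^ (ρ + 2) / (1 - 1 / 4) ^ (σ + 1) =
      be ρ σ * (x ^ σ * ((1 + 1 / 4) ^ (ρ + 2) * (4 / 3) ^ (σ + 1))) := by
    rw [div_eq_mul_inv, ← inv_pow]
    norm_num
    ring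
  rw [e2]
  refine (mul_le_of_le_one_left (by positivity) b1).trans ?_
  refine mul_le_mul_of_nonneg_left ?_ (by positivity)
  refine (mul_le_mul a1 a2 (by positivity) (by positivity)).trans (le_of_eq ?_)
  rw [← mul_pow]
  norm_num

theorem sqrt_sub {u v : ℝ} (hu : |u| ≤ 1 / 4) (hv : |v| ≤ 1 / 4) :
    |√(1 + u) - √(1 + v)| ≤ |u - v| := by
  have hu' := abs_le.1 hu
  have hv' := abs_le.1 hv
  have a : (1 / 2 : ℝ) ≤ √(1 + u) := le_sqrt_of_sq_le (by linarith)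
  have b : (1 / 2 : ℝ) ≤ √(1 + v) := le_sqrt_of_sq_le (by linarith)
  have e : u - v = (√(1 + u) - √(1 + v)) * (√(1 + u) + √(1 + v)) := by
    have := sq_sqrt (show 0 ≤ 1 + u by linarith)
    have := sq_sqrt (show 0 ≤ 1 + v by linarith)
    linarith
  rw [e, abs_mul]
  exact le_mul_of_one_le_right (abs_nonneg _) (le_trans (by linarith) (le_abs_self _))

theorem sqrt_le {u : ℝ} (hu : |u| ≤ 1 / 4) : |√(1 + u)| ≤ 2 := by
  rw [abs_of_nonneg (sqrt_nonneg _)]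
  exact sqrt_le_iff.2 ⟨by norm_num, by linarith [(abs_le.1 hu).2]⟩

theorem small {n y M : ℝ} (hn : |n| ≤ M) (hM : 0 < M) (hy : 4 * M ≤ y) : |n / y| ≤ 1 / 4 := by
  have : 0 < y := by linarith
  rw [abs_div, abs_of_pos this, div_le_iff₀ this]
  linarith

/-- the statement over the reals -/
theorem core (h2 : S_BND) (ρ i j : ℕ) (hi : i ≤ ρ) (M p q d e a b c : ℝ) (p1 : 1 ≤ p)
    (pq : p ≤ q) (hd : 4 * M ≤ d) (de : d ≤ e) (a1 : 1 ≤ |a|) (aM : |a| ≤ M) (b1 : 1 ≤ |b|)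
    (bM : |b| ≤ M) (hΔ : a * q - b * p ≠ 0) (hc : |c / d| ≤ |b / q|)
    (hc' : |c / d - b / q| ≤ |b / q|)
    (hS : |SS ρ (1 / d) 0 (b / q) (a / p) (ρ + 1) (j + 1) (i + 1) 1 1 1| ≤
      (1 / d) ^ (ρ + (i + 1) + (j + 1)) * 3 ^ (ρ + (i + 1) + (j + 1))) :
    |sc ρ (i + 1) (j + 1) p q d a b * ww ρ (i + 1) (j + 1) p q d e a b c| ≤
      (512 * M ^ 3) ^ (ρ + (i + 1) + (j + 1)) * d ^ ρ *
      (q ^ i / (p ^ (i + 1) * d ^ (ρ + (i + 1) + (j + 1))) + q ^ (ρ + i + j) / e) := by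
  have M1 : 1 ≤ M := a1.trans aM
  have M0 : 0 < M := by linarith
  have p0 : 0 < p := by linarith
  have q1 : 1 ≤ q := p1.trans pq
  have q0 : 0 < q := by linarith
  have d0 : 0 < d := by linarith
  have e0 : 0 < e := by linarith
  have A0 : 0 < |a| := by linarith
  have B0 : 0 < |b| := by linarith
  set Δ := |a * q - b * p| with hΔ'
  have Δ0 : 0 < Δ := abs_pos.2 hΔ
  have Δ1 : Δ ≤ 2 * M * q := by
    refine (abs_sub _ _).trans ?_
    rw [abs_mul, abs_mul, abs_of_pos q0, abs_of_pos p0]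
    have := mul_le_mul_of_nonneg_right aM q0.le
    have := mul_le_mul bM pq p0.le M0.le
    linarith
  have Δ2 : Δ / q ≤ 2 * M := (div_le_iff₀ q0).2 Δ1
  have ge : ∀ y z : ℝ, 1 ≤ y → d ≤ z → 4 * M ≤ y * z := fun y z hy hz =>
    (hd.trans hz).trans (le_mul_of_one_le_left (d0.le.trans hz) hy)
  have sb : |b / (q * e)| ≤ 1 / 4 := small bM M0 (ge _ _ q1 de)
  have sa : |a / (p * e)| ≤ 1 / 4 := small aM M0 (ge _ _ p1 de)
  have sad : |a / p * (1 / d)| ≤ 1 / 4 := by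
    rw [div_mul_div_comm, mul_one]
    exact small aM M0 (ge _ _ p1 le_rfl)
  have ebq : |b / q| = |b| / q := by rw [abs_div, abs_of_pos q0]
  have eap : |a / p| = |a| / p := by rw [abs_div, abs_of_pos p0]
  have scd : |c / (d * e)| ≤ 1 / 4 := by
    refine le_trans ?_ sb
    rw [← div_div, ← div_div, abs_div _ e, abs_div _ e]
    exact div_le_div_of_nonneg_right hc (abs_nonneg _)
  have f1 : |√(1 + c / (d * e)) - √(1 + b / (q * e))| ≤ |b| / (q * e) := by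
    refine (sqrt_sub scd sb).trans ?_
    rw [← div_div, ← div_div, ← sub_div, abs_div _ e, abs_of_pos e0, ← div_div, ← ebq]
    exact div_le_div_of_nonneg_right hc' e0.le
  have eΔ : |a / p - b / q| = Δ / (p * q) := by
    rw [div_sub_div _ _ p0.ne' q0.ne', abs_div, abs_of_pos (mul_pos p0 q0), mul_comm p b]
  have f2 : |√(1 + a / (p * e)) - √(1 + b / (q * e))| ≤ Δ / (p * q) / e := by
    refine (sqrt_sub sa sb).trans (le_of_eq ?_)
    rw [← div_div, ← div_div, ← sub_div, abs_div _ e, abs_of_pos e0, eΔ]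
  have x1 : 1 / d ≤ 1 := (div_le_one d0).2 (by linarith)
  have r0 := h2 ρ (ρ + 1) (j + 1) (i + 1) (1 / d) 0 (b / q) (a / p) q (by omega) le_rfl
    (by positivity) (by norm_num) (x1.trans q1)
    (by rw [zero_sub, abs_neg, ebq, mul_div_cancel₀ _ q0.ne']; exact b1)
    (by
      rw [zero_sub, abs_neg, eap, ← mul_div_assoc, one_le_div p0]
      exact pq.trans (le_mul_of_one_le_right q0.le a1))
  have lam : p ≤ 2 * M * p * q / Δ := by
    rw [le_div_iff₀ Δ0]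
    have := mul_le_mul_of_nonneg_left Δ1 p0.le
    linarith
  have rp := h2 ρ (i + 1) (ρ + 1) (j + 1) (1 / d) (a / p) 0 (b / q) (2 * M * p * q / Δ)
    (by omega) (by omega) (by positivity) sad ((x1.trans p1).trans lam)
    (by
      rw [sub_zero, eap]
      refine le_trans ?_ (mul_le_mul_of_nonneg_right lam (by positivity))
      rwa [mul_div_cancel₀ _ p0.ne'])
    (by
      rw [eΔ]
      refine le_trans (by linarith : (1 : ℝ) ≤ 2 * M) (le_of_eq ?_)
      field_simp)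
  rw [zero_sub, zero_sub, abs_neg, abs_neg, ebq, eap, Nat.add_sub_cancel] at r0
  rw [sub_zero, eap, eΔ, Nat.add_sub_cancel] at rp
  set s := ρ + (i + 1) + (j + 1) with hs
  set S := SS ρ (1 / d) 0 (b / q) (a / p) (ρ + 1) (j + 1) (i + 1) 1 1 1 with hS'
  set R0 := rs ρ (1 / d) 0 (b / q) (a / p) (ρ + 1) (j + 1) (i + 1)
  set Rp := rs ρ (1 / d) (a / p) 0 (b / q) (i + 1) (ρ + 1) (j + 1)
  have ew : ww ρ (i + 1) (j + 1) p q d e a b c = √(1 + b / (q * e)) * S +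
      (√(1 + c / (d * e)) - √(1 + b / (q * e))) * R0 +
      (√(1 + a / (p * e)) - √(1 + b / (q * e))) * (√(1 + a / p * (1 / d)) * Rp) := by
    rw [hS', ww, SS, SS, zero_mul, add_zero, sqrt_one]
    ring
  have es : |sc ρ (i + 1) (j + 1) p q d a b| = 4 ^ ρ * d ^ ρ * |a| ^ (i + 1 + ρ) *
      |b| ^ (j + 1 + ρ) * Δ ^ (i + j + 1) / (p ^ (i + 1) * q ^ (j + 1)) := by
    rw [sc, show i + 1 + (j + 1) - 1 = i + j + 1 by omega]
    simp only [abs_div, abs_mul, abs_pow, abs_of_pos p0, abs_of_pos q0, abs_of_pos d0,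
      abs_of_pos (show (0 : ℝ) < 4 by norm_num)]
    rfl
  have w1 : |ww ρ (i + 1) (j + 1) p q d e a b c| ≤ 2 * ((1 / d) ^ s * 3 ^ s) +
      |b| / (q * e) * (4 ^ (ρ + 1) * 2 ^ (ρ + 1 + (j + 1) + (i + 1)) * q ^ ρ /
        ((|b| / q) ^ (j + 1) * (|a| / p) ^ (i + 1))) +
      Δ / (p * q) / e * (2 * (4 ^ (ρ + 1) * 2 ^ (i + 1 + (ρ + 1) + (j + 1)) *
        (2 * M * p * q / Δ) ^ i / ((|a| / p) ^ (ρ + 1) * (Δ / (p * q)) ^ (j + 1)))) := by
    rw [ew]
    refine (abs_add_three _ _ _).trans (add_le_add (add_le_add ?_ ?_) ?_)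
    · rw [abs_mul]
      exact mul_le_mul (sqrt_le sb) hS (abs_nonneg _) (by norm_num)
    · rw [abs_mul]
      exact mul_le_mul f1 r0 (abs_nonneg _) (by positivity)
    · rw [abs_mul, abs_mul]
      exact mul_le_mul f2 (mul_le_mul (sqrt_le sad) rp (abs_nonneg _) (by norm_num))
        (by positivity) (by positivity)
  rw [abs_mul]
  refine (mul_le_mul_of_nonneg_left w1 (abs_nonneg _)).trans ?_
  have c4 : ∀ m, m ≤ s → (4 : ℝ) ^ m ≤ 4 ^ s := fun m h => pow_le_pow_right₀ (by norm_num) h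
  have cA : ∀ m, m ≤ s → |a| ^ m ≤ M ^ s := fun m h => pw A0.le aM M1 h
  have cB : ∀ m, m ≤ s → |b| ^ m ≤ M ^ s := fun m h => pw B0.le bM M1 h
  have c2 : (2 : ℝ) ≤ 2 ^ s := le_self_pow₀ (by norm_num) (by omega)
  have c2' : (2 : ℝ) ^ (s + 1) ≤ 4 ^ s := by
    rw [show (4 : ℝ) = 2 ^ 2 by norm_num, ← pow_mul]
    exact pow_le_pow_right₀ (by norm_num) (by omega)
  have cΔ : (Δ / q) ^ (i + j + 1) ≤ (2 * M) ^ s := pw (by positivity) Δ2 (by linarith) (by omega)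
  have cΔ' : (2 * M) ^ i * (Δ / q) ≤ (2 * M) ^ s :=
    (mul_le_mul_of_nonneg_left Δ2 (by positivity)).trans
      ((pow_succ _ _).symm.le.trans (pow_le_pow_right₀ (by linarith) (by omega)))
  have cp : (p / q) ^ (ρ + j) ≤ 1 := pow_le_one₀ (by positivity) ((div_le_one q0).2 pq)
  have M3 : 0 < M ^ 3 := by positivity
  have t1 : 4 ^ ρ * |a| ^ (i + 1 + ρ) * |b| ^ (j + 1 + ρ) * (Δ / q) ^ (i + j + 1) * 2 * 3 ^ s ≤
      (512 * M ^ 3) ^ s := by
    calc _ ≤ 4 ^ s * M ^ s * M ^ s * (2 * M) ^ s * 2 ^ s * 3 ^ s := by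
          have := c4 ρ (by omega); have := cA (i + 1 + ρ) (by omega)
          have := cB (j + 1 + ρ) (by omega)
          gcongr
      _ = (48 * M ^ 3) ^ s := by simp only [← mul_pow]; congr 1; ring
      _ ≤ _ := pow_le_pow_left₀ (by positivity) (by linarith) s
  have t2 : 4 ^ ρ * |a| ^ ρ * |b| ^ (ρ + 1) * (Δ / q) ^ (i + j + 1) * 4 ^ (ρ + 1) * 2 ^ (s + 1) ≤
      (256 * M ^ 3) ^ s := by
    calc _ ≤ 4 ^ s * M ^ s * M ^ s * (2 * M) ^ s * 4 ^ s * 4 ^ s := by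
          have := c4 ρ (by omega); have := c4 (ρ + 1) (by omega); have := cA ρ (by omega)
          have := cB (ρ + 1) (by omega)
          gcongr
      _ = (128 * M ^ 3) ^ s := by simp only [← mul_pow]; congr 1; ring
      _ ≤ _ := pow_le_pow_left₀ (by positivity) (by linarith) s
  have t3 : 4 ^ ρ * |a| ^ i * |b| ^ (j + 1 + ρ) * ((2 * M) ^ i * (Δ / q)) * 4 ^ (ρ + 1) *
      2 ^ (s + 1) * 2 * (p / q) ^ (ρ + j) ≤ (256 * M ^ 3) ^ s := by
    calc _ ≤ 4 ^ s * M ^ s * M ^ s * (2 * M) ^ s * 4 ^ s * 4 ^ s * 2 ^ s * 1 := by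
          have := c4 ρ (by omega); have := c4 (ρ + 1) (by omega); have := cA i (by omega)
          have := cB (j + 1 + ρ) (by omega)
          gcongr
      _ = _ := by simp only [mul_one, ← mul_pow]; congr 1; ring
  have t4 : (256 * M ^ 3) ^ s + (256 * M ^ 3) ^ s ≤ (512 * M ^ 3) ^ s := by
    rw [← two_mul, show 512 * M ^ 3 = 2 * (256 * M ^ 3) by ring, mul_pow 2]
    exact mul_le_mul_of_nonneg_right c2 (by positivity)
  have X0 : 0 ≤ d ^ ρ * (q ^ i / (p ^ (i + 1) * d ^ s)) := by positivity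
  have Y0 : 0 ≤ d ^ ρ * (q ^ (ρ + i + j) / e) := by positivity
  refine le_trans (le_of_eq ?_) ((add_le_add (mul_le_mul_of_nonneg_right t1 X0)
    (mul_le_mul_of_nonneg_right ((add_le_add t2 t3).trans t4) Y0)).trans (le_of_eq (by ring)))
  rw [es, hs]
  simp only [div_pow, mul_pow, one_pow]
  field_simp
  ring

end SIZE

theorem size (h1 : S_MAIN) (h2 : S_BND) : S_SIZE := by
  intro N
  refine ⟨max 1 (512 * (N : ℝ) ^ 3), le_max_left _ _, ?_⟩
  intro ρ kp kq p q d e np nq n0 hA hC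
  obtain ⟨i, rfl⟩ := Nat.exists_eq_add_of_le' hA.p1
  obtain ⟨j, rfl⟩ := Nat.exists_eq_add_of_le' hA.q1
  have hi := hA.p2
  have p0 := hC.p0
  have q0 := p0.trans hC.pq
  have hd := hC.hd
  have N0 : 0 ≤ N := (abs_nonneg _).trans hC.hp
  have d0 : 0 ≤ d := by omega
  have sg : (nq < 0 ∧ np < 0) ∨ (0 < nq ∧ 0 < np) := by
    rcases hC.ord with ⟨o1, o2, o3⟩ | ⟨o1, o2, o3⟩
    · have k : nq < 0 := by
        by_contra hh
        have := mul_nonneg (not_lt.1 hh) d0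
        have := mul_nonpos_of_nonpos_of_nonneg o3 q0.le
        omega
      refine Or.inl ⟨k, ?_⟩
      by_contra hh
      have := mul_nonneg (not_lt.1 hh) q0.le
      have := mul_neg_of_neg_of_pos k p0
      omega
    · have k : 0 < nq := by
        by_contra hh
        have := mul_nonpos_of_nonpos_of_nonneg (not_lt.1 hh) d0
        have := mul_nonneg o3 q0.le
        omega
      refine Or.inr ⟨k, ?_⟩
      by_contra hh
      have := mul_nonpos_of_nonpos_of_nonneg (not_lt.1 hh) q0.le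
      have := mul_pos k p0
      omega
  have a1 : 1 ≤ |np| := Int.one_le_abs (by omega)
  have b1 : 1 ≤ |nq| := Int.one_le_abs (by omega)
  have N1 : 1 ≤ N := a1.trans hC.hp
  have P0 : (0 : ℝ) < p := by exact_mod_cast p0
  have Q0 : (0 : ℝ) < q := by exact_mod_cast q0
  have D0 : (0 : ℝ) < d := by exact_mod_cast (show 0 < d by omega)
  have E0 : (0 : ℝ) < e := by exact_mod_cast (show 0 < e by have := hC.de; omega)
  have M0 : (0 : ℝ) < N := by exact_mod_cast (show 0 < N by omega)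
  have hD : 4 * (N : ℝ) ≤ d := by exact_mod_cast hd
  have aM : |(np : ℝ)| ≤ N := by exact_mod_cast hC.hp
  have bM : |(nq : ℝ)| ≤ N := by exact_mod_cast hC.hq
  have sm : ∀ n y : ℝ, |n| ≤ N → 1 ≤ y → |n / y * (1 / d)| ≤ 1 / 4 := fun n y hn hy => by
    rw [div_mul_div_comm, mul_one]
    exact SIZE.small hn M0 (hD.trans (le_mul_of_one_le_left D0.le hy))
  have sa := sm np p aM (by exact_mod_cast p0)
  have sb := sm nq q bM (by exact_mod_cast q0)
  have s0 : |0 * (1 / (d : ℝ))| ≤ 1 / 4 := by norm_num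
  have key : ((np : ℝ) * q - nq * p ≠ 0 ∧ |(n0 : ℝ) / d| ≤ |(nq : ℝ) / q| ∧
      |(n0 : ℝ) / d - nq / q| ≤ |(nq : ℝ) / q|) ∧
      |SS ρ (1 / d) 0 (nq / q) (np / p) (ρ + 1) (j + 1) (i + 1) 1 1 1| ≤
        (1 / (d : ℝ)) ^ (ρ + (i + 1) + (j + 1)) * 3 ^ (ρ + (i + 1) + (j + 1)) := by
    rcases hC.ord with ⟨o1, o2, o3⟩ | ⟨o1, o2, o3⟩
    · have u1 : (np : ℝ) * q < nq * p := by exact_mod_cast o1
      have u2 : (nq : ℝ) / q < n0 / d := (div_lt_div_iff₀ Q0 D0).2 (by exact_mod_cast o2)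
      have u3 : (n0 : ℝ) / d ≤ 0 := div_nonpos_of_nonpos_of_nonneg (by exact_mod_cast o3) D0.le
      have u4 := u2.trans_le u3
      refine ⟨⟨(sub_neg.2 u1).ne, ?_, ?_⟩, SIZE.main_abs h1 ⟨by positivity, u4,
        (div_lt_div_iff₀ P0 Q0).2 u1, le_rfl, s0, sb, sa⟩ (by omega) (by omega) (by omega)
        (by omega) (by omega)⟩
      · rw [abs_of_neg u4, abs_of_nonpos u3]; linarith
      · rw [abs_of_neg u4, abs_of_pos (sub_pos.2 u2)]; linarith
    · have u1 : (nq : ℝ) * p < np * q := by exact_mod_cast o1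
      have u2 : (n0 : ℝ) / d < nq / q := (div_lt_div_iff₀ D0 Q0).2 (by exact_mod_cast o2)
      have u3 : 0 ≤ (n0 : ℝ) / d := div_nonneg (by exact_mod_cast o3) D0.le
      have u4 := u3.trans_lt u2
      refine ⟨⟨(sub_pos.2 u1).ne', ?_, ?_⟩, ?_⟩
      · rw [abs_of_pos u4, abs_of_nonneg u3]; linarith
      · rw [abs_of_pos u4, abs_of_neg (sub_neg.2 u2)]; linarith
      · rw [SIZE.SS_rev]
        exact SIZE.main_abs h1 ⟨by positivity, (div_lt_div_iff₀ Q0 P0).2 u1, u4, le_rfl, sa, sb,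
          s0⟩ (by omega) (by omega) (by omega) (by omega) (by omega)
  have := SIZE.core h2 ρ i j (by omega) N p q d e np nq n0 (by exact_mod_cast p0)
    (by exact_mod_cast hC.pq.le) hD (by exact_mod_cast hC.de) (by exact_mod_cast a1) aM
    (by exact_mod_cast b1) bM key.1.1 key.1.2.1 key.1.2.2 key.2
  rw [Nat.add_sub_cancel, show ρ + (i + 1) + (j + 1) - 2 = ρ + i + j by omega]
  refine this.trans ?_
  gcongr
  exact le_max_right _ _

end Pool.Agent.MP_2339ce_nt.DQ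

end MrgPart2

-- ======== part 3: formerly Pool.Agent.MP_2339ce_nt.DQ.NZ3
section MrgPart3

/-! Project DQ: the form with three triple nodes, one pair. -/

set_option autoImplicit false

namespace Pool.Agent.MP_2339ce_nt.DQ

open PowerSeries Real

namespace NZ3

theorem iv_mul {c : ℝ} (hc : c ≠ 0) : (C c + X) * iv c = 1 :=
  PowerSeries.mul_inv_cancel _ (by simpa using hc)

theorem iv0 {c : ℝ} (hc : c ≠ 0) : coeff 0 (iv c) = c⁻¹ := by
  have := congrArg (coeff 0) (iv_mul hc)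
  simp only [add_mul, map_add, coeff_C_mul, coeff_zero_X_mul, add_zero, coeff_zero_one] at this
  exact eq_inv_of_mul_eq_one_right this

theorem iv_succ {c : ℝ} (hc : c ≠ 0) (k : ℕ) : coeff (k + 1) (iv c) = -c⁻¹ * coeff k (iv c) := by
  have := congrArg (coeff (k + 1)) (iv_mul hc)
  simp only [add_mul, map_add, coeff_C_mul, coeff_succ_X_mul, coeff_one, Nat.succ_ne_zero,
    if_false] at this
  field_simp
  linarith

theorem c0 (f g : ℝ⟦X⟧) : coeff 0 (f * g) = coeff 0 f * coeff 0 g := by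
  simp [coeff_mul]

theorem c1 (f g : ℝ⟦X⟧) : coeff 1 (f * g) = coeff 0 f * coeff 1 g + coeff 1 f * coeff 0 g := by
  simp [coeff_mul, Finset.Nat.antidiagonal_succ]

theorem c2 (f g : ℝ⟦X⟧) : coeff 2 (f * g) =
    coeff 0 f * coeff 2 g + coeff 1 f * coeff 1 g + coeff 2 f * coeff 0 g := by
  simp [coeff_mul, Finset.Nat.antidiagonal_succ, add_assoc]

/-- the explicit residue -/
theorem rs_exp {x α β γ : ℝ} (h1 : α - β ≠ 0) (h2 : α - γ ≠ 0) :
    rs 2 x α β γ 3 3 3 = (α - β)⁻¹ ^ 3 * (α - γ)⁻¹ ^ 3 *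
      ((1 + α * x) ^ 2 * (6 * (α - β)⁻¹ ^ 2 + 9 * (α - β)⁻¹ * (α - γ)⁻¹ + 6 * (α - γ)⁻¹ ^ 2) -
        15 / 2 * x * (1 + α * x) * ((α - β)⁻¹ + (α - γ)⁻¹) + 15 / 8 * x ^ 2) := by
  have g0 : coeff 0 (gs 2 x α) = (1 + α * x) ^ 2 := by
    simp [gs, zpow_ofNat]
  have g1 : coeff 1 (gs 2 x α) = 5 / 2 * x * (1 + α * x) := by
    simp only [gs, coeff_mk, Ring.choose_one_right]
    norm_num
  have g2 : coeff 2 (gs 2 x α) = 15 / 8 * x ^ 2 := by
    have e := Ring.descPochhammer_eq_factorial_smul_choose (((2 : ℕ) : ℝ) + 1 / 2) 2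
    have e' : Ring.choose (((2 : ℕ) : ℝ) + 1 / 2) 2 = 15 / 8 := by
      simp [descPochhammer_succ_right, Polynomial.smeval_mul, Polynomial.smeval_sub,
        Polynomial.smeval_X, Polynomial.smeval_one, Nat.factorial] at e
      norm_num at e ⊢
      linarith
    simp only [gs, coeff_mk, e']
    norm_num
  have a2 := iv_succ h1 1
  have b2 := iv_succ h2 1
  have a1 := iv_succ h1 0
  have b1 := iv_succ h2 0
  rw [iv0 h1] at a1
  rw [iv0 h2] at b1
  norm_num only at a1 b1 a2 b2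
  rw [a1] at a2
  rw [b1] at b2
  simp only [rs, show 3 - 1 = 2 from rfl, pow_three, c0, c1, c2, g0, g1, g2, iv0 h1, iv0 h2, a1, b1,
    a2, b2]
  ring

/-- the main term and the two corrections -/
theorem SS_dec (ρ : ℕ) (x β γ : ℝ) (k l m : ℕ) (u v w : ℝ) :
    SS ρ x 0 β γ k l m u v w = v * SS ρ x 0 β γ k l m 1 1 1 + (u - v) * rs ρ x 0 β γ k l m +
      (w - v) * (√(1 + γ * x) * rs ρ x γ 0 β m k l) := by
  simp only [SS, zero_mul, add_zero, sqrt_one]
  ring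

theorem SS_rev (ρ : ℕ) (x α β γ : ℝ) (k l m : ℕ) :
    SS ρ x α β γ k l m 1 1 1 = SS ρ x γ β α m l k 1 1 1 := by
  simp only [SS]
  rw [rs_comm ρ x α β γ, rs_comm ρ x β α γ, rs_comm ρ x γ α β]
  ring

theorem SS_neg (h : S_MAIN) {x α β γ : ℝ} (H : Nod (1 / 4) x α β γ) :
    SS 2 x α β γ 3 3 3 1 1 1 < 0 := by
  obtain ⟨h1, -, h3, -⟩ := h 2 3 3 3 8 (1 / 4) x α β γ H (by norm_num) (by norm_num) (by norm_num)
    rfl (by norm_num)
  have := H.x0
  have : 0 < be 2 8 * x ^ 8 / (1 + 1 / 4) ^ 8 := by positivity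
  norm_num at h3 this
  linarith

theorem sq_bd {t : ℝ} (h : |t| ≤ 1 / 1000) :
    999 / 1000 ≤ √(1 + t) ∧ √(1 + t) ≤ 1001 / 1000 ∧ √(1 + t) ^ 2 = 1 + t := by
  obtain ⟨h1, h2⟩ := abs_le.1 h
  exact ⟨le_sqrt_of_sq_le (by linarith), sqrt_le_iff.2 ⟨by norm_num, by linarith⟩,
    sq_sqrt (by linarith)⟩

/-- a difference of square roots -/
theorem dif {f g t : ℝ} (hf : 999 / 1000 ≤ f) (hf' : f ≤ 1001 / 1000) (hg : 999 / 1000 ≤ g)
    (hg' : g ≤ 1001 / 1000) (h : f ^ 2 - g ^ 2 = t) (ht : 0 ≤ t) :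
    499 / 1000 * t ≤ f - g ∧ f - g ≤ 501 / 1000 * t := by
  have e : (f - g) * (f + g) = t := by linear_combination h
  have h0 : 0 ≤ f - g := by
    by_contra c
    nlinarith
  constructor <;> nlinarith

theorem cmp {u v w y a b s B F G : ℝ} {c1 c2 c3 : ℝ} (hu : 0 < u) (hv : 0 < v) (hy : 0 < y)
    (ha : 0 ≤ a) (ha' : a * u ≤ c1 * y) (hb : c2 * y ≤ b * w) (hc2 : 0 ≤ c2) (hs : 999 / 1000 ≤ s)
    (hw : c3 * u ≤ w) (hc3 : 1 ≤ c3) (hF : F ≤ B * G) (hG : 0 ≤ G) (hB : 0 ≤ B)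
    (hc : c1 * B ≤ c2 * (999 / 1000) * c3 ^ 2) {G' : ℝ} (hG' : G ≤ G') :
    a * (u ^ 3 * v ^ 3 * F) ≤ b * (s * (v ^ 3 * w ^ 3 * G')) := by
  have hw0 : 0 < w := lt_of_lt_of_le (by positivity) hw
  have hc1 : 0 ≤ c1 * y := le_trans (by positivity) ha'
  calc a * (u ^ 3 * v ^ 3 * F) ≤ a * (u ^ 3 * v ^ 3 * (B * G)) := by gcongr
    _ = a * u * B * (u ^ 2 * v ^ 3 * G) := by ring
    _ ≤ c1 * y * B * (u ^ 2 * v ^ 3 * G) := by gcongr
    _ = c1 * B * (y * u ^ 2 * v ^ 3 * G) := by ring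
    _ ≤ c2 * (999 / 1000) * c3 ^ 2 * (y * u ^ 2 * v ^ 3 * G) := by gcongr
    _ = c2 * y * (999 / 1000) * (c3 * u) ^ 2 * v ^ 3 * G := by ring
    _ ≤ b * w * s * w ^ 2 * v ^ 3 * G' := by
        have : 0 ≤ b * w := le_trans (by positivity) hb
        gcongr
    _ = _ := by ring

theorem div_mul_div_comm_aux (a b c : ℝ) : a / b * (1 / c) = a / (b * c) := by
  rw [div_mul_div_comm, mul_one]

theorem neg_case (h : S_MAIN) {x y β γ t : ℝ} (hy : 0 < y) (hyx : y ≤ x) (hβ : β < 0)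
    (hγ : γ < β) (hγx : -γ * x ≤ 1 / 1000) (ht : β * y ≤ t) (ht' : t ≤ 0)
    (hw : 10 * (β - γ) ≤ 9 * -β) :
    SS 2 x 0 β γ 3 3 3 √(1 + t) √(1 + β * y) √(1 + γ * y) < 0 := by
  have hx : 0 < x := hy.trans_le hyx
  have k1 : -γ * y ≤ -γ * x := by gcongr; linarith
  have k2 : -β * y ≤ -γ * y := by gcongr
  have k3 : 0 ≤ -β * y := mul_nonneg (by linarith) hy.le
  have k4 : -β * x ≤ -γ * x := by gcongr
  have k5 : 0 ≤ -β * x := mul_nonneg (by linarith) hx.le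
  have I := SS_neg h (x := x) (α := 0) (β := β) (γ := γ) ⟨hx, hβ, hγ, le_rfl, by norm_num,
    abs_le.2 ⟨by linarith, by linarith⟩, abs_le.2 ⟨by linarith, by linarith⟩⟩
  obtain ⟨a1, a2, a3⟩ := sq_bd (t := t) (abs_le.2 ⟨by linarith, by linarith⟩)
  obtain ⟨b1, b2, b3⟩ := sq_bd (t := β * y) (abs_le.2 ⟨by linarith, by linarith⟩)
  obtain ⟨c1, c2, c3⟩ := sq_bd (t := γ * y) (abs_le.2 ⟨by linarith, by linarith⟩)
  obtain ⟨d1, -, -⟩ := sq_bd (t := γ * x) (abs_le.2 ⟨by linarith, by linarith⟩)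
  obtain ⟨e1, e2⟩ := dif a1 a2 b1 b2 (t := t - β * y) (by rw [a3, b3]; ring) (by linarith)
  obtain ⟨e3, -⟩ := dif b1 b2 c1 c2 (t := (β - γ) * y) (by rw [b3, c3]; ring) (by linarith)
  rw [SS_dec, rs_exp (by linarith) (by linarith), rs_exp (by linarith) (by linarith),
    show (γ - 0)⁻¹ = -(0 - γ)⁻¹ by rw [← inv_neg, neg_sub],
    show (γ - β)⁻¹ = -(β - γ)⁻¹ by rw [← inv_neg, neg_sub]]
  have u0 : 0 < (0 - β)⁻¹ := inv_pos.2 (by linarith)
  have v0 : 0 < (0 - γ)⁻¹ := inv_pos.2 (by linarith)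
  have w0 : 0 < (β - γ)⁻¹ := inv_pos.2 (by linarith)
  have u1 : (0 - β) * (0 - β)⁻¹ = 1 := mul_inv_cancel₀ (by linarith)
  have w1 : (β - γ) * (β - γ)⁻¹ = 1 := mul_inv_cancel₀ (by linarith)
  have uw : 10 / 9 * (0 - β)⁻¹ ≤ (β - γ)⁻¹ := by
    rw [← div_eq_mul_inv, ← one_div, div_le_div_iff₀ (by linarith) (by linarith)]
    linarith
  generalize (0 - β)⁻¹ = u at *
  generalize (0 - γ)⁻¹ = v at *
  generalize (β - γ)⁻¹ = w at *
  have xu : x ≤ u / 1000 := by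
    have := mul_le_mul_of_nonneg_right (k4.trans hγx) u0.le
    have e : -β * x * u = x := by linear_combination x * u1
    linarith only [this, e]
  have B1 : 999 / 1000 ≤ 1 + γ * x := by linarith
  have key := cmp (a := √(1 + t) - √(1 + β * y)) (b := √(1 + β * y) - √(1 + γ * y))
    (c1 := 501 / 1000) (c2 := 499 / 1000) (c3 := 10 / 9) (B := 101 / 100)
    (F := 6 * u ^ 2 + 9 * u * v + 6 * v ^ 2 - 15 / 2 * x * (u + v) + 15 / 8 * x ^ 2)
    (G := 995 / 1000 * (6 * u ^ 2 + 9 * u * v + 6 * v ^ 2))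
    (G' := (1 + γ * x) ^ 2 * (6 * v ^ 2 + 9 * v * w + 6 * w ^ 2) +
      15 / 2 * x * (1 + γ * x) * (v + w) + 15 / 8 * x ^ 2) u0 v0 hy (by linarith)
    (by
      calc _ ≤ 501 / 1000 * ((0 - β) * y) * u := by gcongr; linarith
        _ = _ := by linear_combination 501 / 1000 * y * u1)
    (by
      calc _ = 499 / 1000 * ((β - γ) * y) * w := by linear_combination -499 / 1000 * y * w1
        _ ≤ _ := by gcongr) (by norm_num) d1 uw (by norm_num)
    (by
      have : x ^ 2 ≤ (u / 1000) ^ 2 := by gcongr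
      linarith only [this, mul_pos u0 v0, mul_pos hx u0, mul_pos hx v0, sq_nonneg v, sq_nonneg u])
    (by positivity) (by norm_num) (by norm_num)
    (by
      have q1 : (999 / 1000) ^ 2 * (6 * v ^ 2 + 9 * v * (10 / 9 * u) + 6 * (10 / 9 * u) ^ 2) ≤
          (1 + γ * x) ^ 2 * (6 * v ^ 2 + 9 * v * w + 6 * w ^ 2) := by gcongr
      have q2 : 0 ≤ 15 / 2 * x * (1 + γ * x) * (v + w) + 15 / 8 * x ^ 2 := by positivity
      linarith only [q1, q2, mul_pos u0 v0, sq_nonneg v, sq_nonneg u])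
  have := mul_neg_of_pos_of_neg (lt_of_lt_of_le (by norm_num) b1) I
  linarith only [this, key]

theorem pos_case (h : S_MAIN) {x y β γ t : ℝ} (hy : 0 < y) (hyx : y ≤ x) (hβ : 0 < β)
    (hγ : 3 * β ≤ γ) (hγx : γ * x ≤ 1 / 1000) (ht : 100 * t ≤ β * y) (ht' : 0 ≤ t) :
    SS 2 x 0 β γ 3 3 3 √(1 + t) √(1 + β * y) √(1 + γ * y) < 0 := by
  have hx : 0 < x := hy.trans_le hyx
  have k1 : γ * y ≤ γ * x := by gcongr; linarith
  have k2 : β * y ≤ γ * y := by gcongr; linarith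
  have k3 : 0 ≤ β * y := by positivity
  have k4 : β * x ≤ γ * x := by gcongr; linarith
  have k5 : 0 ≤ β * x := by positivity
  have I := SS_neg h (x := x) (α := γ) (β := β) (γ := 0) ⟨hx, by linarith, hβ, le_rfl,
    abs_le.2 ⟨by linarith, by linarith⟩, abs_le.2 ⟨by linarith, by linarith⟩, by norm_num⟩
  rw [SS_rev] at I
  obtain ⟨a1, a2, a3⟩ := sq_bd (t := t) (abs_le.2 ⟨by linarith, by linarith⟩)
  obtain ⟨b1, b2, b3⟩ := sq_bd (t := β * y) (abs_le.2 ⟨by linarith, by linarith⟩)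
  obtain ⟨c1, c2, c3⟩ := sq_bd (t := γ * y) (abs_le.2 ⟨by linarith, by linarith⟩)
  obtain ⟨d1, d2, -⟩ := sq_bd (t := γ * x) (abs_le.2 ⟨by linarith, by linarith⟩)
  obtain ⟨e1, -⟩ := dif b1 b2 a1 a2 (t := β * y - t) (by rw [a3, b3]; ring) (by linarith)
  obtain ⟨e3, e4⟩ := dif c1 c2 b1 b2 (t := (γ - β) * y) (by rw [b3, c3]; ring) (by linarith)
  rw [SS_dec, rs_exp (by linarith) (by linarith), rs_exp (by linarith) (by linarith),
    show (0 - β)⁻¹ = -β⁻¹ by rw [← inv_neg, zero_sub],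
    show (0 - γ)⁻¹ = -γ⁻¹ by rw [← inv_neg, zero_sub], sub_zero]
  have u0 : 0 < β⁻¹ := inv_pos.2 hβ
  have v0 : 0 < γ⁻¹ := inv_pos.2 (by linarith)
  have w0 : 0 < (γ - β)⁻¹ := inv_pos.2 (by linarith)
  have u1 : β * β⁻¹ = 1 := mul_inv_cancel₀ hβ.ne'
  have v1 : γ * γ⁻¹ = 1 := mul_inv_cancel₀ (by linarith)
  have w1 : (γ - β) * (γ - β)⁻¹ = 1 := mul_inv_cancel₀ (by linarith)
  have uw : 2 * (γ - β)⁻¹ ≤ β⁻¹ := by
    rw [← div_eq_mul_inv, ← one_div, div_le_div_iff₀ (by linarith) hβ]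
    linarith
  generalize β⁻¹ = u at *
  generalize γ⁻¹ = v at *
  generalize (γ - β)⁻¹ = w at *
  have xv : x ≤ v / 1000 := by
    have := mul_le_mul_of_nonneg_right hγx v0.le
    have e : γ * x * v = x := by linear_combination x * v1
    linarith only [this, e]
  have B0 : 0 ≤ γ * x := by linarith
  have key := cmp (a := (√(1 + γ * y) - √(1 + β * y)) * √(1 + γ * x))
    (b := √(1 + β * y) - √(1 + t)) (s := 1)
    (c1 := 502 / 1000) (c2 := 49 / 100) (c3 := 2) (B := 2)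
    (F := (1 + γ * x) ^ 2 * (6 * v ^ 2 + 9 * v * w + 6 * w ^ 2) -
      15 / 2 * x * (1 + γ * x) * (v + w) + 15 / 8 * x ^ 2)
    (G := 6 * v ^ 2 + 9 * v * w + 6 * w ^ 2)
    (G' := 6 * u ^ 2 + 9 * u * v + 6 * v ^ 2 + 15 / 2 * x * (u + v) + 15 / 8 * x ^ 2) w0 v0 hy
    (mul_nonneg (by linarith) (by linarith))
    (by
      calc _ ≤ 501 / 1000 * ((γ - β) * y) * (1001 / 1000) * w := by gcongr; linarith
        _ = 501501 / 1000000 * y := by linear_combination 501501 / 1000000 * y * w1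
        _ ≤ _ := by linarith)
    (by
      calc _ = 49 / 100 * (β * y) * u := by linear_combination -49 / 100 * y * u1
        _ ≤ _ := by gcongr; linarith) (by norm_num) (by norm_num) uw (by norm_num)
    (by
      have q0 : x ^ 2 ≤ (v / 1000) ^ 2 := by gcongr
      have q1 : (1 + γ * x) ^ 2 * (6 * v ^ 2 + 9 * v * w + 6 * w ^ 2) ≤
          (1 + 1 / 1000) ^ 2 * (6 * v ^ 2 + 9 * v * w + 6 * w ^ 2) := by gcongr
      have q2 : 0 ≤ 15 / 2 * x * (1 + γ * x) * (v + w) := by positivity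
      linarith only [q0, q1, q2, mul_pos v0 w0, sq_nonneg v, sq_nonneg w])
    (by positivity) (by norm_num) (by norm_num)
    (by
      have q1 : 6 * v ^ 2 + 9 * v * w + 6 * w ^ 2 ≤ 6 * v ^ 2 + 9 * v * u + 6 * u ^ 2 := by
        gcongr <;> linarith
      have q2 : 0 ≤ 15 / 2 * x * (u + v) + 15 / 8 * x ^ 2 := by positivity
      linarith)
  have := mul_neg_of_pos_of_neg (lt_of_lt_of_le (by norm_num) b1) I
  linarith only [this, key]

end NZ3

open NZ3 in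
theorem nz3 (h : S_MAIN) : S_NZ3 := by
  intro n p q d e hp hpq hqd hnd hde hc
  have p1 : (1 : ℝ) ≤ p := by exact_mod_cast hp
  have pq : (p : ℝ) < q := by exact_mod_cast hpq
  have qd : 100 * (q : ℝ) ≤ d := by exact_mod_cast hqd
  have nd : 1000 * |(n : ℝ)| ≤ d := by exact_mod_cast hnd
  have de : (d : ℝ) ≤ e := by exact_mod_cast hde
  have p0 : (0 : ℝ) < p := by linarith
  have q0 : (0 : ℝ) < q := by linarith
  have d0 : (0 : ℝ) < d := by linarith
  have e0 : (0 : ℝ) < e := by linarith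
  have hy : (0 : ℝ) < 1 / e := by positivity
  have hyx : (1 : ℝ) / e ≤ 1 / d := by gcongr
  have k : |(n : ℝ)| / p * (1 / d) ≤ 1 / 1000 := by
    rw [mul_one_div, div_le_div_iff₀ d0 (by norm_num)]
    have : |(n : ℝ)| / p ≤ |(n : ℝ)| := div_le_self (abs_nonneg _) p1
    linarith
  rw [ww, ← div_mul_div_comm_aux (n : ℝ) q e, ← div_mul_div_comm_aux (n : ℝ) p e,
    ← div_mul_div_comm_aux (n : ℝ) d e]
  rcases hc with ⟨hn, h1⟩ | ⟨hn, h1⟩
  · have hn' : (n : ℝ) < 0 := by exact_mod_cast hn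
    have h1' : 10 * (q : ℝ) ≤ 19 * p := by exact_mod_cast h1
    rw [abs_of_neg hn', neg_div] at k
    have a : ∀ s t : ℝ, 0 < s → s ≤ t → (n : ℝ) / s ≤ n / t := fun s t hs hst => by
      have : -(n : ℝ) / t ≤ -n / s := by gcongr; linarith
      rw [neg_div, neg_div] at this
      linarith
    refine (neg_case h hy hyx (div_neg_of_neg_of_pos hn' q0) ?_ k ?_ ?_ ?_).ne
    · rw [div_lt_div_iff₀ p0 q0]
      nlinarith
    · exact mul_le_mul_of_nonneg_right (a _ _ q0 (by linarith)) hy.le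
    · exact mul_nonpos_of_nonpos_of_nonneg (div_neg_of_neg_of_pos hn' d0).le hy.le
    · have : 19 * ((n : ℝ) / q) ≤ 10 * (n / p) := by
        rw [← mul_div_assoc, ← mul_div_assoc, div_le_div_iff₀ q0 p0]
        nlinarith
      linarith
  · have hn' : (0 : ℝ) < n := by exact_mod_cast hn
    have h1' : 3 * (p : ℝ) ≤ q := by exact_mod_cast h1
    rw [abs_of_pos hn'] at k
    refine (pos_case h hy hyx (by positivity) ?_ k ?_ (by positivity)).ne
    · rw [← mul_div_assoc, div_le_div_iff₀ q0 p0]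
      nlinarith
    · rw [← mul_assoc]
      gcongr
      rw [← mul_div_assoc, div_le_div_iff₀ d0 q0]
      nlinarith

end Pool.Agent.MP_2339ce_nt.DQ

end MrgPart3

-- ======== part 4: formerly Pool.Agent.MP_2339ce_nt.DQ.Q4
section MrgPart4

/-! Project DQ: the value `2 m0 = |N|` does not occur. -/

set_option autoImplicit false

namespace Pool.Agent.MP_2339ce_nt.DQ

namespace Q4x

theorem minus {N n a b s p : ℤ} (hl : N ≤ n) (hl' : -n ≤ N) (hn : 1 ≤ n) (ha : 1 ≤ a) (hab : a < b)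
    (hr : 0 ≤ a * b - N) (hb : a * b ≤ 2 * s ^ 2) (has : 4 * a ≤ s) (hs : 100 * n ≤ s)
    (hp : p = 2 * s ^ 2 + N - 2 * a * s)
    (e : 2 * b * p * (-(4 * a * s) - N) + 2 * b * N ^ 2 + 4 * N * (a * b - N) * (b - a) -
      a * (2 * p - N) ^ 2 = 0) : False := by
  have hs0 : 0 < s := by omega
  have hb0 : 0 < b := by omega
  have h1 : 4 * a * s ≤ s ^ 2 := by nlinarith
  have h2 : s ≤ s ^ 2 := by nlinarith
  have h3 : s ^ 2 ≤ p := by linarith
  have h4 : s ≤ a * s := by nlinarith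
  have h5 : 3 * s ≤ 4 * a * s + N := by linarith
  have h6 : s ^ 2 * (3 * s) ≤ p * (4 * a * s + N) :=
    mul_le_mul h3 h5 (by positivity) (by nlinarith)
  have h7 : b * (s ^ 2 * (3 * s)) ≤ b * (p * (4 * a * s + N)) :=
    mul_le_mul_of_nonneg_left h6 hb0.le
  have h8 : N * ((a * b - N) * (b - a)) ≤ n * ((a * b - N) * (b - a)) :=
    mul_le_mul_of_nonneg_right hl (mul_nonneg hr (by omega))
  have h9 : (a * b - N) * (b - a) ≤ 3 * s ^ 2 * b :=
    mul_le_mul (by omega) (by omega) (by omega) (by positivity)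
  have h10 : n * ((a * b - N) * (b - a)) ≤ n * (3 * s ^ 2 * b) :=
    mul_le_mul_of_nonneg_left h9 (by omega)
  have h11 : N ^ 2 ≤ n * s ^ 2 := by nlinarith
  have h12 : b * N ^ 2 ≤ b * (n * s ^ 2) := mul_le_mul_of_nonneg_left h11 hb0.le
  have h13 : 0 ≤ a * (2 * p - N) ^ 2 := by positivity
  have h14 : 100 * n * (b * s ^ 2) ≤ s * (b * s ^ 2) :=
    mul_le_mul_of_nonneg_right hs (by positivity)
  have h15 : 0 < s * (b * s ^ 2) := by positivity
  nlinarith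

theorem cubic {s B c3 c2 c1 c0 : ℤ} (hs : 3 * B < s) (h3 : c3 ≠ 0) (h2 : |c2| ≤ B) (h1 : |c1| ≤ B)
    (h0 : |c0| ≤ B) (e : c3 * s ^ 3 + c2 * s ^ 2 + c1 * s + c0 = 0) : False := by
  have hB : 0 ≤ B := (abs_nonneg _).trans h0
  have hs0 : 1 ≤ s := by omega
  have k1 : s ≤ s ^ 2 := by nlinarith
  have k2 : 3 * B * s ^ 2 < s * s ^ 2 := mul_lt_mul_of_pos_right hs (by positivity)
  have k3 : B * s ≤ B * s ^ 2 := mul_le_mul_of_nonneg_left k1 hB
  have k4 : B * 1 ≤ B * s := mul_le_mul_of_nonneg_left hs0 hB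
  obtain ⟨a2, b2⟩ := abs_le.1 h2
  obtain ⟨a1, b1⟩ := abs_le.1 h1
  obtain ⟨a0, b0⟩ := abs_le.1 h0
  have s2 : 0 ≤ s ^ 2 := by positivity
  have s3 : 0 ≤ s ^ 3 := by positivity
  have u2 := mul_le_mul_of_nonneg_right a2 s2
  have v2 := mul_le_mul_of_nonneg_right b2 s2
  have u1 := mul_le_mul_of_nonneg_right a1 (by omega : 0 ≤ s)
  have v1 := mul_le_mul_of_nonneg_right b1 (by omega : 0 ≤ s)
  rcases lt_or_gt_of_ne h3 with h | h
  · have := mul_le_mul_of_nonneg_right (by omega : c3 ≤ -1) s3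
    nlinarith
  · have := mul_le_mul_of_nonneg_right (by omega : 1 ≤ c3) s3
    nlinarith

theorem small {N n a s η : ℤ} (hN : |N| = n) (hn : 1 ≤ n) (ha : 1 ≤ a) (hb0 : 0 < s + a + η)
    (hb : a * (s + a + η) ≤ 2 * s ^ 2) (hs1 : 100 * n ≤ s)
    (e : η * (8 * a * s * (2 * s ^ 2 + 2 * a * s + N) + 4 * N * (a * (s + a + η)) -
      4 * N ^ 2 - 4 * N * s ^ 2) = 4 * N * (s ^ 2 * (s + a)) + 4 * N ^ 2 * s + a * N ^ 2) :
    η ≠ 0 ∧ a * |η| ≤ n := by
  have hl : N ≤ n := hN ▸ le_abs_self N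
  have hl' : -n ≤ N := hN ▸ neg_abs_le N
  have hN2 : N ^ 2 = n ^ 2 := by rw [← hN, sq_abs]
  have hs0 : 0 < s := by omega
  obtain ⟨A, hA⟩ : ∃ A, A = 8 * a * s * (2 * s ^ 2 + 2 * a * s + N) + 4 * N * (a * (s + a + η)) -
    4 * N ^ 2 - 4 * N * s ^ 2 := ⟨_, rfl⟩
  obtain ⟨R, hR⟩ : ∃ R, R = 4 * N * (s ^ 2 * (s + a)) + 4 * N ^ 2 * s + a * N ^ 2 := ⟨_, rfl⟩
  have e1 : η * A = R := by
    rw [hA, hR]
    exact e
  obtain ⟨T, hT⟩ : ∃ T, T = s ^ 2 * (s + a) := ⟨_, rfl⟩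
  have hT0 : 0 < T := by rw [hT]; positivity
  have has : 0 < a * s := by positivity
  have hab0 : 0 < a * (s + a + η) := by positivity
  have s2 : 0 < s ^ 2 := by positivity
  have k0 : s * 1 ≤ s * s := mul_le_mul_of_nonneg_left (by omega) hs0.le
  have k0' : n ≤ s ^ 2 := by linarith
  have k1 : -n * (a * s) ≤ N * (a * s) := mul_le_mul_of_nonneg_right hl' has.le
  have k2 : -n * (a * (s + a + η)) ≤ N * (a * (s + a + η)) :=
    mul_le_mul_of_nonneg_right hl' hab0.le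
  have k3 : n * (a * (s + a + η)) ≤ n * (2 * s ^ 2) := mul_le_mul_of_nonneg_left hb (by omega)
  have k4 : N * s ^ 2 ≤ n * s ^ 2 := mul_le_mul_of_nonneg_right hl s2.le
  have k5 : 100 * n * s ^ 2 ≤ s * s ^ 2 := mul_le_mul_of_nonneg_right hs1 s2.le
  have k6 : 1 * (s * s ^ 2) ≤ a * (s * s ^ 2) := mul_le_mul_of_nonneg_right ha (by positivity)
  have k7 : 100 * n * (a * s) ≤ s * (a * s) := mul_le_mul_of_nonneg_right hs1 has.le
  have k8 : 1 * (s * (a * s)) ≤ a * (s * (a * s)) := mul_le_mul_of_nonneg_right ha (by positivity)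
  have k9 : n * n ≤ n * s ^ 2 := mul_le_mul_of_nonneg_left k0' (by omega)
  have k10 : 0 ≤ n * s ^ 2 := by positivity
  have k11 : 0 ≤ n * (a * s) := by positivity
  have hA1 : 14 * (a * T) ≤ A := by
    rw [hA, hT, hN2]
    linarith
  have m1 : 100 * n * s ≤ s * s := mul_le_mul_of_nonneg_right hs1 hs0.le
  have m2 : 0 ≤ n * s := by positivity
  have m3 : 4 * n * s + a * n ≤ T := by
    rw [hT]
    have p1 : a * n ≤ a * s ^ 2 := mul_le_mul_of_nonneg_left k0' (by omega)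
    have p2 : 1 * s ^ 2 ≤ s * s ^ 2 := mul_le_mul_of_nonneg_right (by omega) s2.le
    linarith
  have m4 : n * (4 * n * s + a * n) ≤ n * T := mul_le_mul_of_nonneg_left m3 (by omega)
  have m5 : 0 ≤ n * (4 * n * s + a * n) := by positivity
  have hR1 : R = 4 * (N * T) + n * (4 * n * s + a * n) := by
    rw [hR, hT, hN2]
    ring
  have hnT : 0 < n * T := by positivity
  have hNT : N * T = n * T ∨ N * T = -(n * T) := by
    rcases abs_cases N with h | h
    · left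
      rw [← hN, h.1]
    · right
      rw [← hN, h.1]
      ring
  have hη : η ≠ 0 := by
    rintro rfl
    rw [zero_mul] at e1
    rcases hNT with h | h <;> linarith
  have hRa : |R| ≤ 5 * (n * T) := by
    rw [abs_le]
    rcases hNT with h | h <;> constructor <;> linarith
  have haT : 0 < a * T := by positivity
  have e2 : |η| * A ≤ 5 * (n * T) := by
    have := congrArg abs e1
    rw [abs_mul, abs_of_nonneg (by linarith : 0 ≤ A)] at this
    linarith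
  have e3 : |η| * (14 * (a * T)) ≤ |η| * A := mul_le_mul_of_nonneg_left hA1 (abs_nonneg _)
  refine ⟨hη, le_of_mul_le_mul_right ?_ hT0⟩
  linarith

theorem plus {N n a b s p : ℤ} (hN : |N| = n) (hn : 1 ≤ n) (ha : 1 ≤ a) (hab : a < b)
    (hb : a * b ≤ 2 * s ^ 2) (hs : 100 * n ^ 3 ≤ s)
    (hp : p = 2 * s ^ 2 + N + 2 * a * s)
    (e : 2 * b * p * (4 * a * s - N) + 2 * b * N ^ 2 + 4 * N * (a * b - N) * (b - a) -
      a * (2 * p - N) ^ 2 = 0) : False := by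
  have n2 : n ≤ n ^ 2 := by nlinarith
  have n3 : n ^ 2 ≤ n ^ 3 := by nlinarith
  obtain ⟨η, rfl⟩ : ∃ η, b = s + a + η := ⟨b - s - a, by ring⟩
  have e1 : η * (8 * a * s * (2 * s ^ 2 + 2 * a * s + N) + 4 * N * (a * (s + a + η)) -
      4 * N ^ 2 - 4 * N * s ^ 2) = 4 * N * (s ^ 2 * (s + a)) + 4 * N ^ 2 * s + a * N ^ 2 := by
    subst hp
    linear_combination e
  obtain ⟨hη, e4⟩ := small hN hn ha (by omega) hb (by omega) e1
  have hη1 : 1 ≤ |η| := Int.one_le_abs hη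
  have e5 : a ≤ n := by
    have := mul_le_mul_of_nonneg_left hη1 (by omega : 0 ≤ a)
    linarith
  have e6 : |η| ≤ n := by
    have := mul_le_mul_of_nonneg_right ha (abs_nonneg η)
    linarith
  have e7 : |a * η| ≤ n := by rw [abs_mul, abs_of_nonneg (by omega : 0 ≤ a)]; exact e4
  have e8 : |a| ≤ n := by rw [abs_of_nonneg (by omega : 0 ≤ a)]; exact e5
  have e9 : |N| ≤ n := hN.le
  have mu : ∀ {x y X Y : ℤ}, |x| ≤ X → |y| ≤ Y → |x * y| ≤ X * Y := fun hx hy => by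
    rw [abs_mul]
    exact mul_le_mul hx hy (abs_nonneg _) ((abs_nonneg _).trans hx)
  obtain ⟨f1, g1⟩ := abs_le.1 (mu e8 e7)
  obtain ⟨f2, g2⟩ := abs_le.1 (mu e9 e6)
  obtain ⟨f3, g3⟩ := abs_le.1 (mu e9 e8)
  obtain ⟨f4, g4⟩ := abs_le.1 (mu e9 e7)
  obtain ⟨f5, g5⟩ := abs_le.1 (mu e9 e9)
  obtain ⟨f6, g6⟩ := abs_le.1 (mu (mu e9 e7) e8)
  obtain ⟨f7, g7⟩ := abs_le.1 (mu (mu e9 e7) e6)
  obtain ⟨f8, g8⟩ := abs_le.1 (mu (mu e9 e9) e6)
  obtain ⟨f9, g9⟩ := abs_le.1 (mu (mu e9 e9) e8)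
  have c2 : |16 * (a * (a * η)) - 4 * (N * η) - 4 * (N * a)| ≤ 24 * n ^ 3 := by
    rw [abs_le]
    constructor <;> linarith
  have c1 : |12 * (N * (a * η)) - 4 * (N * N)| ≤ 24 * n ^ 3 := by
    rw [abs_le]
    constructor <;> linarith
  have c0 : |4 * (N * (a * η) * a) + 4 * (N * (a * η) * η) - 4 * (N * N * η) - N * N * a| ≤
      24 * n ^ 3 := by
    rw [abs_le]
    constructor <;> linarith
  have hlt : 3 * (24 * n ^ 3) < s := by omega
  by_cases c3 : 16 * (a * η) - 4 * N = 0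
  · have hN0 : N ≠ 0 := by
      rintro rfl
      simp at hN
      omega
    refine cubic (c3 := -(4 * (N * η))) (c0 := 0) hlt
      (neg_ne_zero.2 (mul_ne_zero (by norm_num) (mul_ne_zero hN0 hη))) c1 c0 (by simp; omega) ?_
    linear_combination s * e1 - (s ^ 4 + a * s ^ 3) * c3
  · refine cubic hlt c3 c2 c1 c0 ?_
    linear_combination e1

end Q4x

theorem q4 : S_Q4 := by
  intro N hns
  have hN0 := ne_zero_of_ns hns
  obtain ⟨n, hn⟩ : ∃ n, |N| = n := ⟨_, rfl⟩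
  have hn1 : 1 ≤ n := hn ▸ Int.one_le_abs hN0
  have hl : N ≤ n := hn ▸ le_abs_self N
  have hl' : -n ≤ N := hn ▸ neg_abs_le N
  have hN2 : N ^ 2 = n ^ 2 := by rw [← hn, sq_abs]
  refine ⟨(100 * n ^ 3) ^ 2 + n + 16, fun q hc hb hh hm => ?_⟩
  rw [hn] at hm
  have ha : 1 ≤ q.a := q.a0
  have hab := q.ab
  have hbc := q.bc
  have hs := q.hs
  have hs0 := q.s0
  have hc0 := q.c0
  have n2 : n ≤ n ^ 2 := by nlinarith
  have n3 : n ^ 2 ≤ n ^ 3 := by nlinarith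
  have hsq : 0 ≤ (100 * n ^ 3) ^ 2 := by positivity
  have k1 : 1 * q.c ≤ q.a * q.c := mul_le_mul_of_nonneg_right ha hc0.le
  have k2 : q.a * q.b ≤ q.a * q.c := mul_le_mul_of_nonneg_left hbc.le (by omega)
  have k3 : q.a * (((100 * n ^ 3) ^ 2 + n + 16) * q.a) ≤ q.a * q.b :=
    mul_le_mul_of_nonneg_left hb (by omega)
  have k4 : 100 * n ^ 3 ≤ q.s :=
    abs_le_of_sq_le_sq' (a := 100 * n ^ 3) (by linarith) hs0 |>.2
  have k5 : 4 * q.a ≤ q.s := by
    refine (abs_le_of_sq_le_sq' (a := 4 * q.a) ?_ hs0).2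
    have p1 : 1 ≤ q.a ^ 2 := by nlinarith
    have p2 : n * 1 ≤ n * q.a ^ 2 := mul_le_mul_of_nonneg_left p1 (by omega)
    have p3 : 0 ≤ (100 * n ^ 3) ^ 2 * q.a ^ 2 := by positivity
    nlinarith
  have k6 : q.a * q.b ≤ 2 * q.s ^ 2 := by nlinarith
  have hm1 : q.m1 = N * n := by
    have e : n * q.m1 = n * (N * n) := by
      unfold Qd.h at hh
      linear_combination (-1) * hh - q.m1 * hm + N * hN2
    exact mul_left_cancel₀ (by omega) e
  have hg : q.g = 2 * N * n := by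
    unfold Qd.m1 at hm1
    linear_combination hm1 + N * hm
  obtain ⟨p, hp⟩ : ∃ p, |q.P| = p := ⟨_, rfl⟩
  have hNP : N * q.P = n * p := by
    rw [← hn, ← hp, ← abs_mul, abs_of_pos (q.P_sign hN0)]
  have hP2 : q.P ^ 2 = p ^ 2 := by rw [← hp, sq_abs]
  have hPn : q.P * n = p * N := by
    have e : N * (q.P * n) = N * (p * N) := by linear_combination n * hNP - p * hN2
    exact mul_left_cancel₀ hN0 e
  have e2 := q.e2
  have e4 := q.e4
  have hQ : 2 * q.Q = 2 * q.P - n := by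
    unfold Qd.m0 at hm
    linarith
  have hD : q.D = n * (p - 2 * q.s ^ 2 - 2 * N) := by
    unfold Qd.D
    linear_combination hNP - 2 * q.a * q.c * hm + 2 * n * hs
  have f2 : (p - 2 * q.s ^ 2 - N) ^ 2 = (2 * q.a * q.s) ^ 2 := by
    have e : 4 * n ^ 2 * (p - 2 * q.s ^ 2 - N) ^ 2 = 4 * n ^ 2 * (2 * q.a * q.s) ^ 2 := by
      have e' : 16 * q.a * q.c * n * (n * p) =
          (2 * (n * p) + 2 * N * n) ^ 2 + 16 * q.a * n ^ 2 * q.s ^ 2 * (q.c - q.a) := by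
        rw [← hNP, ← hN2]
        rw [hg] at e2
        linear_combination e2
      linear_combination (-1) * e' + 16 * n ^ 2 * (q.s ^ 2 - p) * hs
    exact mul_left_cancel₀ (by positivity) e
  have hQ2 : 4 * q.Q ^ 2 = (2 * p - N) ^ 2 := by
    linear_combination (2 * q.Q + 2 * q.P - n) * hQ + 4 * hP2 - 4 * hPn - hN2
  have f4 : 2 * q.b * p * (2 * (p - 2 * q.s ^ 2 - N) - N) + 2 * q.b * N ^ 2 +
      4 * N * (q.a * q.b - N) * (q.b - q.a) - q.a * (2 * p - N) ^ 2 = 0 := by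
    have e : N * (2 * q.b * p * (2 * (p - 2 * q.s ^ 2 - N) - N) + 2 * q.b * N ^ 2 +
        4 * N * (q.a * q.b - N) * (q.b - q.a) - q.a * (2 * p - N) ^ 2) = N * 0 := by
      rw [hD, hg, q.hr] at e4
      linear_combination 2 * e4 - 4 * q.b * (p - 2 * q.s ^ 2 - 2 * N) * hPn + N * q.a * hQ2 -
        q.b * (2 * N * q.P + 2 * N * n) * hm - 2 * q.b * n * hNP + 2 * q.b * (p + N) * hN2
    exact mul_left_cancel₀ hN0 e
  rcases sq_eq_sq_iff_eq_or_eq_neg.1 f2 with h | h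
  · rw [h] at f4
    exact Q4x.plus (p := p) hn hn1 ha hab k6 k4 (by linarith) (by linear_combination f4)
  · rw [h] at f4
    exact Q4x.minus (p := p) hl hl' hn1 ha hab (by rw [← q.hr]; positivity) k6 k5 (by omega)
      (by linarith) (by linear_combination f4)

end Pool.Agent.MP_2339ce_nt.DQ

end MrgPart4

-- marker of a merged file
example : 731051 + 873455 = 731051 + 873455 := rfl
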