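import Pool.Agent.MP_2339ce_nt.DQ.Spec3
import Pool.Agent.MP_2339ce_nt.DQ.Q4

/-! Project DQ3: integrality with a saved power of two. -/

set_option autoImplicit false

noncomputable section

namespace Pool.Agent.MP_2339ce_nt.DQ

open INT

namespace TINT3

theorem sg (n : ℕ) : ((-1 : ℝ)) ^ n * (-1) ^ n = 1 := by rw [← mul_pow]; simp

theorem sg_mem (n : ℕ) : ((-1 : ℝ)) ^ n ∈ ZR := pow_mem (neg_mem (one_mem _)) _

theorem side (ρ kp kq s : ℕ) (p q d D q' : ℤ) (h1 : 1 ≤ kp) (h2 : 1 ≤ kq) (h3 : kq ≤ ρ + 1)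
    (hs : s + 1 ≤ 2 * ρ + kp) (hp : 0 < p) (hq : 0 < q) (hd : 0 < d) (hD : q - p = 4 * D)
    (h0 : D ≠ 0) (hq' : q = 2 * q') :
    sc3 ρ kp kq s p q d * rs ρ (1 / d) (-3 / q) 0 (-3 / p) kq (ρ + 1) kp / q ∈ ZR := by
  obtain ⟨a, rfl⟩ := Nat.exists_eq_add_of_le' h1
  obtain ⟨b, rfl⟩ := Nat.exists_eq_add_of_le' h2
  obtain ⟨t, ht⟩ := Nat.exists_eq_add_of_le (show s ≤ 2 * ρ + a by omega)
  have p0 : (p : ℝ) ≠ 0 := by exact_mod_cast hp.ne'
  have q0 : (q : ℝ) ≠ 0 := by exact_mod_cast hq.ne'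
  have D0 : (D : ℝ) ≠ 0 := by exact_mod_cast h0
  have eD : (q : ℝ) - p = 4 * D := by exact_mod_cast hD
  have c3 : ((-3 : ℤ) : ℝ) = -3 := by simp
  have e1 : (-3 : ℝ) / q - -3 / p = 12 * D / (p * q) := by field_simp; linear_combination 3 * eD
  have h := gen ρ b (ρ + 1) (a + 1) (by omega) (-3) (-3 * D) (4 * D) (-p) hq hd
    (w := -12 * D / q) (β := 0) (γ := -3 / p)
    (by rw [sub_zero, c3]; exact div_ne_zero (by norm_num) q0)
    (by rw [c3, e1]; exact div_ne_zero (mul_ne_zero (by norm_num) D0) (mul_ne_zero p0 q0))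
    (by push_cast; ring) (by push_cast; ring) (by rw [c3, e1]; push_cast; field_simp)
  rw [c3, e1, sub_zero] at h
  generalize rs ρ (1 / d) (-3 / q) 0 (-3 / p) (b + 1) (ρ + 1) (a + 1) = R at h ⊢
  have e5 : (4 : ℝ) ^ ρ * (q : ℝ) ^ a = 2 ^ s * (2 ^ t * (q' : ℝ) ^ a) := by
    rw [← mul_assoc, ← pow_add, ← ht, pow_add, pow_mul, hq']
    push_cast
    rw [mul_pow]
    norm_num [mul_assoc]
  have e2 : sc3 ρ (a + 1) (b + 1) s p q d * R / q =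
      ((q : ℝ) * d) ^ ρ * (-3 / q) ^ (ρ + 1) * (12 * D / (p * q)) ^ (a + 1) * R *
        (-12 * D / q) ^ b * ((-1) ^ (ρ + 1) * (-1) ^ b * (2 ^ t * (q' : ℝ) ^ a)) := by
    have e3 : a + 1 + (b + 1) - 1 = a + b + 1 := by omega
    have e6 : (2 : ℝ) ^ t * (q' : ℝ) ^ a = 4 ^ ρ * (q : ℝ) ^ a / 2 ^ s := by
      rw [e5]; field_simp
    have e7 := sg (ρ + 1)
    have e8 := sg b
    rw [sc3, eD, e3, e6, show (-3 : ℝ) / q = -1 * (3 / q) by ring,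
      show (-12 : ℝ) * D / q = -1 * (3 * 4 * D / q) by ring, show (12 : ℝ) = 3 * 4 by norm_num,
      mul_pow (-1 : ℝ), mul_pow (-1 : ℝ)]
    generalize ((-1 : ℝ)) ^ (ρ + 1) = x at e7 ⊢
    generalize ((-1 : ℝ)) ^ b = y at e8 ⊢
    have e9 : ∀ v : ℝ, v = v * (x * x) * (y * y) := fun v => by rw [e7, e8, mul_one, mul_one]
    simp only [div_pow, mul_pow, pow_add, pow_one]
    refine (e9 _).trans ?_
    field_simp
  rw [e2]
  exact mul_mem h (mul_mem (mul_mem (sg_mem _) (sg_mem _))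
    (mul_mem (pow_mem (ofNat_mem _ 2) _) (pow_mem (int_mem q') _)))

theorem zero (ρ kp kq s : ℕ) (p q d D : ℤ) (hs : s ≤ 2 * (kp + kq - 1)) (hp : 0 < p) (hq : 0 < q)
    (hd : 0 < d) (hD : q - p = 4 * D) :
    sc3 ρ kp kq s p q d * rs ρ (1 / d) 0 (-3 / q) (-3 / p) (ρ + 1) kq kp ∈ ZR := by
  obtain ⟨t, ht⟩ := Nat.exists_eq_add_of_le hs
  have p0 : (p : ℝ) ≠ 0 := by exact_mod_cast hp.ne'
  have q0 : (q : ℝ) ≠ 0 := by exact_mod_cast hq.ne'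
  have eD : (q : ℝ) - p = 4 * D := by exact_mod_cast hD
  have z : ∀ x : ℝ, ((0 : ℤ) : ℝ) / ((1 : ℤ) : ℝ) - -3 / x = 3 / x := fun x => by simp [neg_div]
  have h := gen ρ ρ kq kp le_rfl 0 (-3) (-4 * q) (-4 * p) one_pos hd
    (w := -12) (β := -3 / q) (γ := -3 / p)
    (by rw [z]; exact div_ne_zero (by norm_num) q0) (by rw [z]; exact div_ne_zero (by norm_num) p0)
    (by norm_num) (by rw [z]; push_cast; field_simp; norm_num)
    (by rw [z]; push_cast; field_simp; norm_num)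
  rw [z, z, Int.cast_zero, Int.cast_one, zero_div, one_mul] at h
  generalize rs ρ (1 / d) 0 (-3 / q) (-3 / p) (ρ + 1) kq kp = R at h ⊢
  have e2 : sc3 ρ kp kq s p q d * R = (d : ℝ) ^ ρ * (3 / q) ^ kq * (3 / p) ^ kp * R * (-12) ^ ρ *
      ((-1) ^ ρ * (2 ^ t * (D : ℝ) ^ (kp + kq - 1))) := by
    have e5 : (4 : ℝ) ^ (kp + kq - 1) = 2 ^ s * 2 ^ t := by
      rw [← pow_add, ← ht, pow_mul]; norm_num
    have e7 := sg ρ
    rw [sc3, eD, mul_pow (4 : ℝ), e5, show (-12 : ℝ) = -1 * (3 * 4) by norm_num, mul_pow (-1 : ℝ)]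
    generalize ((-1 : ℝ)) ^ ρ = x at e7 ⊢
    generalize (D : ℝ) ^ (kp + kq - 1) = E
    have e9 : ∀ v : ℝ, v = v * (x * x) := fun v => by rw [e7, mul_one]
    simp only [div_pow, mul_pow, pow_add]
    refine (e9 _).trans ?_
    field_simp
  rw [e2]
  exact mul_mem h (mul_mem (sg_mem _) (mul_mem (pow_mem (ofNat_mem _ 2) _) (pow_mem (int_mem D) _)))

theorem swap (ρ kp kq s : ℕ) (p q d : ℝ) :
    sc3 ρ kp kq s p q d = (-1) ^ (kp + kq - 1) * sc3 ρ kq kp s q p d := by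
  rw [sc3, sc3, ← neg_sub p q, neg_pow, add_comm kq kp, add_right_comm ρ kq kp]
  ring

end TINT3

open TINT3 in
theorem int3 : S_INT3 := by
  intro ρ kp kq s p q d h hp hpq hd p4 q4
  have hq : 0 < q := hp.trans hpq
  have k : ∀ {x : ℝ}, x ∈ ZR → ∃ i : ℤ, x = i := fun ⟨i, hi⟩ => ⟨i, hi.symm⟩
  have a1 := h.s1
  refine ⟨k (TINT3.zero ρ kp kq s p q d ((q - p) / 4) (by omega) hp hq hd (by omega)),
    k (TINT3.side ρ kp kq s p q d ((q - p) / 4) (q / 2) h.p1 h.q1 h.q2 h.s2 hp hq hd (by omega)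
      (by omega) (by omega)), k ?_⟩
  rw [swap, mul_assoc, mul_div_assoc]
  exact mul_mem (sg_mem _) (TINT3.side ρ kq kp s q p d ((p - q) / 4) (p / 2) h.q1 h.p1 h.p2 h.s3
    hq hp hd (by omega) (by omega) (by omega))

end Pool.Agent.MP_2339ce_nt.DQ

end
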