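import Pool.Agent.MP_2339ce_nt.DQ.Spec3

/-! Project DQ3: the first estimates for a quadruple. -/

set_option autoImplicit false

namespace Pool.Agent.MP_2339ce_nt.DQ

namespace TLA

/-- One round of the bootstrap for `z`. -/
theorem step {a c P z u v p m n : ℤ} (ha : 0 < a) (hc : 0 < c) (hP : 0 < P) (hz : 0 < z)
    (hac : 2000 ≤ a * c) (h12 : c * P ≤ 12 * z) (hv : 0 ≤ v) (huv : u * (c * P) ≤ v * z)
    (hp0 : 0 ≤ p) (hp : p ≤ P) :
    2000 * u * (c * P ^ 2) ≤ v * (a * c * P * z) ∧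
      p ^ 2 * (3 * a * c ^ 2) ≤ 36 * (a * c * P * z) ∧
      (m * (a * c * P * z) ≤ n * (a * z ^ 2) → m * (c * P) ≤ n * z) := by
  refine ⟨?_, ?_, fun k => ?_⟩
  · calc 2000 * u * (c * P ^ 2) = 2000 * (u * (c * P)) * P := by ring
      _ ≤ 2000 * (v * z) * P := by gcongr
      _ ≤ a * c * (v * z) * P := by gcongr
      _ = _ := by ring
  · calc p ^ 2 * (3 * a * c ^ 2) ≤ P ^ 2 * (3 * a * c ^ 2) := by gcongr
      _ = 3 * a * c * P * (c * P) := by ring
      _ ≤ 3 * a * c * P * (12 * z) := by gcongr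
      _ = _ := by ring
  · exact le_of_mul_le_mul_left (a := a * z) (by linarith) (by positivity)

theorem core {a c P z : ℤ} (ha : 2 ≤ a) (hc : 1000 ≤ c) (hP : 0 < P) (hz : c ≤ z)
    (h : 2 * (a * c * P * z) ≤ 3 * a * z ^ 2 + c * P ^ 2 + 3 * a * c ^ 2)
    (h12 : c * P ≤ 12 * z) (h4 : 4 * (a * z) ≤ P ^ 2 + 3 * (a * c)) :
    12 * a * c ≤ 5 * P ∧ 333 * c * P ≤ 500 * z := by
  have a0 : 0 < a := by omega
  have c0 : 0 < c := by omega
  have z0 : 0 < z := by omega
  have hac : 2000 ≤ a * c := by nlinarith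
  have hW : 0 < a * c * P * z := by positivity
  have k1 : a * c ≤ a * z := by gcongr
  have k2 : a * c ≤ 12 * P := by
    have : a * (c * P) ≤ a * (12 * z) := by gcongr
    exact le_of_mul_le_mul_right (a := P) (by linarith) hP
  obtain ⟨e1, e2, e3⟩ := step (u := 1) (v := 12) (p := 167) (m := 66) (n := 100) a0 c0 hP z0 hac
    h12 (by norm_num) (by linarith) (by norm_num) (by omega)
  have k3 := e3 (by linarith)
  have k4 : 264 * (a * c) ≤ 100 * (P + 36) := by
    have h1 : a * (66 * (c * P)) ≤ a * (100 * z) := by gcongr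
    exact le_of_mul_le_mul_right (a := P) (by linarith) hP
  have k5 : 12 * a * c ≤ 5 * P := by linarith
  obtain ⟨f1, f2, f3⟩ := step (u := 66) (v := 100) (p := 4800) (m := 333) (n := 500) a0 c0 hP z0
    hac h12 (by norm_num) k3 (by norm_num) (by linarith)
  exact ⟨k5, by linarith [f3 (by linarith)]⟩

end TLA

theorem la3 : S_LA := by
  intro q ha hc hm
  have a0 := q.a0; have b0 := q.b0; have c0 := q.c0; have ab := q.ab; have bc := q.bc
  have cd := q.cd; have hr := q.hr; have hs := q.hs; have hz := q.hz; have cA := q.cA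
  have hP : 0 < q.P := by have := q.P_sign (by norm_num); omega
  have zc : q.c ≤ q.z := by
    have : q.c * (q.c + 1) ≤ q.c * q.d := by gcongr; omega
    exact (pow_le_pow_iff_left₀ c0.le q.z0 two_ne_zero).1 (by linarith)
  have z0 : 0 < q.z := by omega
  have h12 : q.c * q.P ≤ 12 * q.z := by
    have := q.P_le (by rw [abs_of_pos (by norm_num : (0 : ℤ) < 3)]; omega)
    rw [abs_of_pos hP, abs_of_pos (by norm_num : (0 : ℤ) < 3)] at this
    linarith
  have s1 : 0 ≤ (q.c - q.a) * q.s ^ 2 := mul_nonneg (by omega) (sq_nonneg _)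
  have s2 : (q.c - q.a) * q.s ^ 2 ≤ q.c * (q.a * q.c) :=
    mul_le_mul (by omega) (by omega) (sq_nonneg _) c0.le
  have h4 : 4 * (q.a * q.z) ≤ q.P ^ 2 + 3 * (q.a * q.c) := by
    have e := q.e1
    have t1 : 2 * q.a * q.b * q.z * 2 ≤ 2 * q.a * q.b * q.z * q.m0 := by gcongr
    have t2 : (q.b - q.a) * q.r ^ 2 ≤ q.b * (q.a * q.c) :=
      mul_le_mul (by omega) (by nlinarith) (sq_nonneg _) b0.le
    have t3 : 0 ≤ q.a * q.Q ^ 2 := by positivity
    exact le_of_mul_le_mul_left (a := q.b) (by linarith) b0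
  obtain ⟨k1, k2⟩ := TLA.core ha hc hP zc (by linarith) h12 h4
  refine ⟨ha, hc, hm, k1, ?_, k2⟩
  have : 0 ≤ q.c * q.P ^ 2 := by positivity
  exact le_of_mul_le_mul_left (a := q.a * q.z) (by linarith) (by positivity)

end Pool.Agent.MP_2339ce_nt.DQ
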