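import Pool.Agent.MP_2339ce_nt.DQ.Spec3

/-! Project DQ3: the size of `m0`. -/

set_option autoImplicit false

namespace Pool.Agent.MP_2339ce_nt.DQ

namespace TLB

theorem core {a b c P z m R : ℤ} (ha : 2 ≤ a) (hab : a < b) (hbc : b < c) (hc : 1000 ≤ c)
    (hm : 2 ≤ m) (hP : 12 * a * c ≤ 5 * P) (z1 : 3 * z ≤ 2 * c * P) (z2 : 333 * c * P ≤ 500 * z)
    (R0 : 0 ≤ R) (R1 : R ≤ a * b)
    (e : (2 * a * b * z - 2 * a * P + a * m) * m = (b - a) * (P ^ 2 + 3 * R)) :
    749 * (b - a) * P ≤ 1000 * a * b * c * m ∧ 1000 * a * b * c * m ≤ 752 * (b - a) * P := by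
  have a0 : 0 < a := by omega
  have b0 : 0 < b := by omega
  have c0 : 0 < c := by omega
  have m0 : 0 < m := by omega
  have d0 : 0 < b - a := by omega
  have ac : 2 * 1000 ≤ a * c := by gcongr
  have bc : 3 * 1000 ≤ b * c := by gcongr; omega
  have P0 : 0 < P := by linarith
  have k1 : 9000 * R ≤ P ^ 2 := by
    have h1 : (12 * a * c) ^ 2 ≤ (5 * P) ^ 2 := by gcongr
    have h2 : a * b * (2 * 1000) ≤ a * c * (a * c) := by gcongr
    nlinarith [mul_pos a0 b0]
  have k2 : 3 * 1000 * (a * P) ≤ b * c * (a * P) := by gcongr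
  have k3 : a * b * (333 * c * P) ≤ a * b * (500 * z) := by gcongr
  have k4 : 3994 * (a * b * c * P) ≤ 3000 * (2 * a * b * z - 2 * a * P + a * m) := by
    nlinarith [mul_pos a0 m0]
  have up : 1000 * a * b * c * m ≤ 752 * (b - a) * P := by
    have h1 := mul_le_mul_of_nonneg_right k4 m0.le
    have h2 := mul_le_mul_of_nonneg_left k1 d0.le
    have h3 : 0 ≤ (b - a) * P ^ 2 := by positivity
    refine le_of_mul_le_mul_right ?_ P0
    nlinarith
  refine ⟨?_, up⟩
  have k5 : m ≤ P := by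
    have h1 : b * m * (2 * 1000) ≤ b * m * (a * c) := by gcongr
    have h2 : 0 < a * P := by positivity
    have h3 : 0 < b * m := by positivity
    have h4 : 0 < b * P := by positivity
    refine le_of_mul_le_mul_left ?_ b0
    nlinarith
  have k6 : a * b * (3 * z) ≤ a * b * (2 * c * P) := by gcongr
  have k7 : a * m ≤ a * P := by gcongr
  have k8 : 3 * (2 * a * b * z - 2 * a * P + a * m) ≤ 4 * (a * b * c * P) := by
    nlinarith [mul_pos a0 P0]
  have h1 := mul_le_mul_of_nonneg_right k8 m0.le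
  have h2 : 0 ≤ (b - a) * R := by positivity
  have h3 : 0 ≤ (b - a) * P ^ 2 := by positivity
  refine le_of_mul_le_mul_right ?_ P0
  nlinarith

end TLB

theorem lb3 : S_LB := fun q h =>
  TLB.core h.a2 q.ab q.bc h.c3 h.m2 h.hP h.z1 h.z2 (sq_nonneg q.r) (by linarith [q.hr]) (by
    have e := q.e1
    have e' : q.Q = q.P - q.m0 := by unfold Qd.m0; ring
    rw [e'] at e
    linear_combination e)

end Pool.Agent.MP_2339ce_nt.DQ
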