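import Pool.Agent.MP_2339ce_nt.DQ.Spec3

/-! Project DQ3: the two bounds for `m1`. -/

set_option autoImplicit false

namespace Pool.Agent.MP_2339ce_nt.DQ

namespace TLC

theorem low {a b c P Q z g m R S : ℤ} (a2 : 2 ≤ a) (ab : a < b) (bc : b < c) (c3 : 1000 ≤ c)
    (P0 : 0 < P) (hQ : 9996 * P ≤ 10000 * Q) (z1 : 3 * z ≤ 2 * c * P) (g0 : 0 < g) (m0 : 1 ≤ m)
    (hR : R = a * b - 3) (hS : S = a * c - 3)
    (e : 2 * a * b * z * m = 6 * a * Q ^ 2 + b * P * g + 24 * a * b * S * (c - a) -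
      18 * R * (b - a)) :
    449 * P ^ 2 + 1795 * a * b * c * (c - a) ≤ 100 * b * c * P * m := by
  have a0 : 0 < a := by omega
  have b0 : 0 < b := by omega
  have ac : 2000 ≤ a * c := by nlinarith
  have h1 : a * b * m * (3 * z) ≤ a * b * m * (2 * c * P) :=
    mul_le_mul_of_nonneg_left z1 (by positivity)
  have h2 : 0 ≤ b * P * g := by positivity
  have h3 : R * (b - a) ≤ a * b * (c - a) :=
    mul_le_mul (by omega) (by omega) (by omega) (by positivity)
  have h4 : (9996 * P) ^ 2 ≤ (10000 * Q) ^ 2 := pow_le_pow_left₀ (by positivity) hQ 2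
  have h5 : 449 * P ^ 2 ≤ 450 * Q ^ 2 := by nlinarith [sq_nonneg P]
  have h6 : a * (449 * P ^ 2) ≤ a * (450 * Q ^ 2) := mul_le_mul_of_nonneg_left h5 a0.le
  have h7 : a * b * (c - a) * 2000 ≤ a * b * (c - a) * (a * c) :=
    mul_le_mul_of_nonneg_left ac (mul_nonneg (by positivity) (by omega))
  have h8 : 0 ≤ a * b * (c - a) := mul_nonneg (by positivity) (by omega)
  refine le_of_mul_le_mul_left ?_ a0
  subst hS
  linarith

theorem up {a b c P Q z g m R S : ℤ} (a2 : 2 ≤ a) (ab : a < b) (bc : b < c) (c3 : 1000 ≤ c)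
    (P0 : 0 < P) (Q0 : 0 ≤ Q) (hQ : Q ≤ P) (z2 : 333 * c * P ≤ 500 * z) (g0 : 0 < g) (m0 : 1 ≤ m)
    (R0 : 0 ≤ R) (hS : S = a * c - 3)
    (e : 2 * a * b * z * m = 6 * a * Q ^ 2 + b * P * g + 24 * a * b * S * (c - a) -
      18 * R * (b - a))
    (eG : g * (2 * a * z - P) = 6 * P ^ 2 + 24 * a * S * (c - a)) :
    100 * b * c * P * m ≤ 536 * P ^ 2 + 1805 * a * b * c ^ 2 := by
  have a0 : 0 < a := by omega
  have b0 : 0 < b := by omega
  have c0 : 0 < c := by omega
  have ac : 2000 ≤ a * c := by nlinarith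
  have s1 : S * (c - a) ≤ a * c * c := mul_le_mul (by omega) (by omega) (by omega) (by positivity)
  have s2 : a * (S * (c - a)) ≤ a * (a * c * c) := mul_le_mul_of_nonneg_left s1 a0.le
  have s3 : b * (a * (S * (c - a))) ≤ b * (a * (a * c * c)) := mul_le_mul_of_nonneg_left s2 b0.le
  have g1 : a * g * (333 * c * P) ≤ a * g * (500 * z) :=
    mul_le_mul_of_nonneg_left z2 (by positivity)
  have g2 : P * g * 2000 ≤ P * g * (a * c) := mul_le_mul_of_nonneg_left ac (by positivity)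
  have g3 : 13315 * (a * c * (P * g)) ≤ 60000 * P ^ 2 + 240000 * (a * (a * c * c)) := by linarith
  have g4 := mul_le_mul_of_nonneg_left g3 b0.le
  have g5 : b * P ^ 2 ≤ c * P ^ 2 := mul_le_mul_of_nonneg_right bc.le (by positivity)
  have g6 : 13315 * (a * (b * P * g)) ≤ 60000 * P ^ 2 + 240000 * (a * a * b * c) :=
    le_of_mul_le_mul_left (by linarith) c0
  have g7 : 4 * P ^ 2 ≤ a * a * P ^ 2 := mul_le_mul_of_nonneg_right (by nlinarith) (by positivity)
  have g8 : 13315 * (b * P * g) ≤ 15000 * (a * P ^ 2) + 240000 * (a * b * c) :=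
    le_of_mul_le_mul_left (by linarith) a0
  have h1 : a * b * m * (333 * c * P) ≤ a * b * m * (500 * z) :=
    mul_le_mul_of_nonneg_left z2 (by positivity)
  have h2 : a * Q ^ 2 ≤ a * P ^ 2 := mul_le_mul_of_nonneg_left (pow_le_pow_left₀ Q0 hQ 2) a0.le
  have h3 : 0 ≤ R * (b - a) := mul_nonneg R0 (by omega)
  have h4 : a * b * c * 2000 ≤ a * b * c * (a * c) := mul_le_mul_of_nonneg_left ac (by positivity)
  have h5 : 0 ≤ a * P ^ 2 := by positivity
  have h6 : 0 ≤ a * b * c := by positivity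
  refine le_of_mul_le_mul_left ?_ a0
  linarith

end TLC

theorem lc3 (h : S_LB) : S_LC := by
  intro q E
  have a2 := E.a2
  have c3 := E.c3
  have m2 := E.m2
  have ab := q.ab
  have bc := q.bc
  have P0 : 0 < q.P := by have := q.P_sign (by norm_num); omega
  have Q0 : 0 < q.Q := by have := q.Q_sign (by norm_num); omega
  have g0 : 0 < q.g := by have := q.g_sign (by norm_num); omega
  have m1 := q.m1_pos (by norm_num) (by omega)
  have b0 := q.b0
  have hm : q.m0 = q.P - q.Q := rfl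
  have e : 2 * q.a * q.b * q.z * q.m1 = 6 * q.a * q.Q ^ 2 + q.b * q.P * q.g +
      24 * q.a * q.b * q.s ^ 2 * (q.c - q.a) - 18 * q.r ^ 2 * (q.b - q.a) := by
    linear_combination q.e3
  refine ⟨TLC.low a2 ab bc c3 P0 ?_ E.z1 g0 m1 q.hr q.hs e,
    TLC.up a2 ab bc c3 P0 Q0.le (by omega) E.z2 g0 m1 (sq_nonneg _) q.hs e ?_⟩
  · have ac : 2000 ≤ q.a * q.c := by nlinarith
    have h1 : q.b * q.m0 * 2000 ≤ q.b * q.m0 * (q.a * q.c) :=
      mul_le_mul_of_nonneg_left ac (by positivity)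
    have h2 : 0 ≤ q.a * q.P := by positivity
    have h3 : 0 ≤ q.b * q.P := by positivity
    have h4 : 10000 * q.m0 ≤ 4 * q.P := le_of_mul_le_mul_left (by linarith [(h q E).2]) b0
    omega
  · have hP : q.s * q.x = q.a * q.z - q.P := by unfold Qd.P; ring
    have := q.eG
    rw [hP] at this
    linear_combination this

end Pool.Agent.MP_2339ce_nt.DQ
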