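import Pool.Agent.MP_2339ce_nt.DQ.Spec3

/-! The gap between the third and the fourth element of a `D(-3)`-quadruple. -/

set_option autoImplicit false

namespace Pool.Agent.MP_2339ce_nt.DQ

namespace TLQ3

theorem core1 {ε u m n : ℝ} (h0 : 0 < ε) (h1 : ε < 1) (hu : 0 < u) (hm : 2 ≤ m) (hn : 0 ≤ n)
    (l0 : 749 / 1000 * ((1 - ε) * u) ≤ m) (u0 : m ≤ 752 / 1000 * ((1 - ε) * u))
    (l1 : 449 / 100 * (ε * u ^ 2) + 1795 / 100 * (1 - ε) ≤ n * u) : 12 < m * n := by
  have a1 : 2659 / 1000 ≤ (1 - ε) * u := by linarith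
  have a2 : 707 / 100 ≤ ((1 - ε) * u) ^ 2 := by nlinarith
  have a3 : ((1 - ε) * u) ^ 2 ≤ (1 - ε) * u ^ 2 := by
    have : 0 ≤ (1 - ε) * ε * u ^ 2 := by have := sub_pos.2 h1; positivity
    nlinarith
  have a4 : 749 / 1000 * ((1 - ε) * u) * n ≤ m * n := mul_le_mul_of_nonneg_right l0 hn
  have a5 := mul_le_mul_of_nonneg_left l1 (sub_pos.2 h1).le
  have a6 := mul_le_mul_of_nonneg_left (a2.trans a3) h0.le
  nlinarith [sq_nonneg (ε - 1 / 8)]

theorem core2 {ε u m n : ℝ} (h0 : 0 < ε) (hu : 0 < u) (hn : 2 ≤ n)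
    (u0 : m ≤ 752 / 1000 * ((1 - ε) * u)) (u1 : n * u ≤ 536 / 100 * (ε * u ^ 2) + 1805 / 100)
    (h : 20 ≤ m * n) : 1198 / 10000 ≤ ε * u := by
  have a1 : m * n ≤ 752 / 1000 * ((1 - ε) * u) * n := mul_le_mul_of_nonneg_right u0 (by linarith)
  have a2 : 0 ≤ ε * u * n := by have : 0 < n := by linarith
                                positivity
  have a3 : 1594 / 1000 ≤ ε * u ^ 2 := by nlinarith
  have a4 : 2 * u ≤ n * u := mul_le_mul_of_nonneg_right hn hu.le
  have a5 : 2 * u ≤ 16684 / 1000 * (ε * u) * u := by nlinarith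
  have a6 := le_of_mul_le_mul_right a5 hu
  linarith

end TLQ3

theorem lq3 (h1 : S_LD) (h2 : S_LA) (h3 : S_LB) (h4 : S_LC) : S_LQ3 := by
  intro q ha hb hc hd hc3
  obtain ⟨d0, d1, d2⟩ := h1 q ha hb hc hd
  have a0 := q.a0
  have p0 := q.m0_pos (by norm_num)
  have p1 := q.m1_pos (by norm_num) (by omega)
  have E := h2 q (by omega) hc3 (by omega)
  obtain ⟨b1, b2⟩ := h3 q E
  obtain ⟨c1, c2⟩ := h4 q E
  have n2 : 2 ≤ q.m1 := by omega
  have d3 : q.m0 * q.m1 % 4 = 0 := by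
    obtain ⟨i, hi⟩ : 2 ∣ q.m0 := by omega
    obtain ⟨j, hj⟩ : 2 ∣ q.m1 := by omega
    rw [hi, hj, show 2 * i * (2 * j) = 4 * (i * j) by ring]
    omega
  have hP0 : 0 < q.P := by have := q.P_sign (by norm_num); omega
  have ab := q.ab
  have bc := q.bc
  have m2 := E.m2
  have z2 := E.z2
  have hz := q.hz
  have key : 1198 * (q.b * q.c) ≤ 10000 * q.P := by
    have A : (0 : ℝ) < q.a := by exact_mod_cast a0
    have AB : (q.a : ℝ) < q.b := by exact_mod_cast ab
    have BC : (q.b : ℝ) < q.c := by exact_mod_cast bc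
    have P : (0 : ℝ) < q.P := by exact_mod_cast hP0
    have M : (2 : ℝ) ≤ q.m0 := by exact_mod_cast m2
    have N : (2 : ℝ) ≤ q.m1 := by exact_mod_cast n2
    have B1 : (749 : ℝ) * (q.b - q.a) * q.P ≤ 1000 * q.a * q.b * q.c * q.m0 := by exact_mod_cast b1
    have B2 : (1000 : ℝ) * q.a * q.b * q.c * q.m0 ≤ 752 * (q.b - q.a) * q.P := by exact_mod_cast b2
    have C1 : (449 : ℝ) * q.P ^ 2 + 1795 * q.a * q.b * q.c * (q.c - q.a) ≤
      100 * q.b * q.c * q.P * q.m1 := by exact_mod_cast c1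
    have C2 : (100 : ℝ) * q.b * q.c * q.P * q.m1 ≤ 536 * q.P ^ 2 + 1805 * q.a * q.b * q.c ^ 2 := by
      exact_mod_cast c2
    have hk : (12 : ℝ) < q.m0 * q.m1 → (20 : ℝ) ≤ q.m0 * q.m1 := fun h => by
      have h' : 12 < q.m0 * q.m1 := by exact_mod_cast h
      have : 20 ≤ q.m0 * q.m1 := by omega
      exact_mod_cast this
    suffices h : (1198 : ℝ) * (q.b * q.c) ≤ 10000 * q.P by exact_mod_cast h
    generalize (q.a : ℝ) = a at *
    generalize (q.b : ℝ) = b at *
    generalize (q.c : ℝ) = c at *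
    generalize (q.P : ℝ) = p at *
    generalize (q.m0 : ℝ) = m at *
    generalize (q.m1 : ℝ) = n at *
    have B : 0 < b := A.trans AB
    have C : 0 < c := B.trans BC
    have e1 : (1 - a / b) * (p / (a * c)) = (b - a) * p / (a * b * c) := by field_simp
    have e2 : a / b * (p / (a * c)) ^ 2 = p ^ 2 / (a * b * c ^ 2) := by field_simp
    have e3 : n * (p / (a * c)) = b * c * p * n / (a * b * c ^ 2) := by field_simp
    have e4 : 1 - a / b = a * c ^ 2 * (b - a) / (a * b * c ^ 2) := by field_simp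
    have e5 : a / b * (p / (a * c)) = p / (b * c) := by field_simp
    have u0 : m ≤ 752 / 1000 * ((1 - a / b) * (p / (a * c))) := by
      rw [e1, ← mul_div_assoc, le_div_iff₀ (by positivity)]; linarith
    have k1 := TLQ3.core1 (ε := a / b) (u := p / (a * c)) (by positivity) ((div_lt_one B).2 AB)
      (by positivity) M (by linarith : 0 ≤ n)
      (by rw [e1, ← mul_div_assoc, div_le_iff₀ (by positivity)]; linarith) u0 (by
        rw [e2, e3, e4, ← mul_div_assoc, ← mul_div_assoc, ← add_div]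
        refine div_le_div_of_nonneg_right ?_ (by positivity)
        have : 0 ≤ a ^ 2 * c * (c - b) := by have := sub_pos.2 BC; positivity
        linarith)
    have k2 := TLQ3.core2 (ε := a / b) (u := p / (a * c)) (by positivity) (by positivity) N u0 (by
      rw [e2, e3, ← mul_div_assoc, div_add' _ _ _ (by positivity)]
      refine div_le_div_of_nonneg_right ?_ (by positivity)
      linarith) (hk k1)
    rw [e5, le_div_iff₀ (by positivity)] at k2
    linarith
  have b0 := q.b0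
  have c0 := q.c0
  have k3 : 797 * (q.b * q.c ^ 2) ≤ 10000 * q.z := by
    nlinarith [mul_le_mul_of_nonneg_left key c0.le, mul_pos b0 (pow_pos c0 2)]
  have k4 := pow_le_pow_left₀ (by positivity) k3 2
  have k5 : q.c * (q.b ^ 2 * q.c ^ 3) ≤ q.c * (160 * q.d) := by
    have : 0 ≤ q.b ^ 2 * q.c ^ 4 := by positivity
    nlinarith
  exact le_of_mul_le_mul_left k5 c0

end Pool.Agent.MP_2339ce_nt.DQ
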