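import Pool.Agent.MP_2339ce_nt.DQ.Spec3

/-! Project DQ3: assembly for five positive elements. -/

set_option autoImplicit false

namespace Pool.Agent.MP_2339ce_nt.DQ

open Real

namespace TNQ

theorem root {u : ℤ} (h : IsSquare (u + -3)) : ∃ r : ℤ, 0 ≤ r ∧ r ^ 2 = u - 3 := by
  obtain ⟨r, hr⟩ := h
  exact ⟨|r|, abs_nonneg r, by rw [sq_abs]; linear_combination -hr⟩

theorem quad {a b c d : ℤ} (a0 : 0 < a) (ab : a < b) (bc : b < c) (cd : c < d)
    (s1 : IsSquare (a * b + -3)) (s2 : IsSquare (a * c + -3)) (s3 : IsSquare (b * c + -3))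
    (s4 : IsSquare (a * d + -3)) (s5 : IsSquare (b * d + -3)) (s6 : IsSquare (c * d + -3)) :
    ∃ q : Qd 3, q.a = a ∧ q.b = b ∧ q.c = c ∧ q.d = d := by
  obtain ⟨r, r0, hr⟩ := root s1
  obtain ⟨s, s0, hs⟩ := root s2
  obtain ⟨t, t0, ht⟩ := root s3
  obtain ⟨x, x0, hx⟩ := root s4
  obtain ⟨y, y0, hy⟩ := root s5
  obtain ⟨z, z0, hz⟩ := root s6
  exact ⟨⟨⟨a, b, c, r, s, t, a0, ab, bc, r0, s0, t0, hr, hs, ht⟩, d, x, y, z, cd, x0, y0, z0,
    hx, hy, hz⟩, rfl, rfl, rfl, rfl⟩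

theorem lgm {a b : ℤ} (h : 0 < a) (k : a ≤ b) : lg a ≤ lg b :=
  logb_le_logb_of_le one_lt_two (by exact_mod_cast h) (by exact_mod_cast k)

theorem lg_mul {a b : ℤ} (h : 0 < a) (k : 0 < b) : lg (a * b) = lg a + lg b := by
  rw [lg, Int.cast_mul, logb_mul (by exact_mod_cast h.ne') (by exact_mod_cast k.ne')]; rfl

theorem lg_pow (a : ℤ) (m : ℕ) : lg (a ^ m) = m * lg a := by
  rw [lg, Int.cast_pow, logb_pow]; rfl

theorem lg_two : lg 2 = 1 := by
  rw [lg, Int.cast_ofNat, logb_self_eq_one one_lt_two]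

theorem lg_le {a : ℤ} (n m : ℕ) (h : 0 < a) (k : a ^ n ≤ 2 ^ m) : n * lg a ≤ m := by
  have := lgm (pow_pos h n) k
  rwa [lg_pow, lg_pow, lg_two, mul_one] at this

theorem le_lg {a : ℤ} (n m : ℕ) (k : 2 ^ m ≤ a ^ n) : (m : ℝ) ≤ n * lg a := by
  have := lgm (by positivity) k
  rwa [lg_pow, lg_pow, lg_two, mul_one] at this

theorem w3 (h1 : S_WIN) (h2 : S_NZ) {p q d e : ℤ} (c : Cf3 p q d e) :
    W3 (lg p) (lg q) (lg (q - p)) (lg d) (lg e) := by
  intro ρ kp kq s m1 m2 g o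
  refine h1 ρ kp kq s m1 m2 p q d e o c ?_
  have := c.pq; have := c.qd; have := c.big
  have k := h2 ρ kp kq 3 p q d e (-3) (-3) (-3) g ⟨c.p0, c.pq, by omega, c.de, by norm_num,
    by norm_num, Or.inl ⟨by omega, by omega, by norm_num⟩, c.pd, c.pe, c.sd, c.se, c.sq⟩
  simpa using k

end TNQ

open TNQ

theorem nq3 (h1 : S_PAR) (h2 : S_TR3) (h3 : S_LQ3) (h4 : S_G53) (h5 : S_WIN) (h6 : S_HW)
    (h7 : S_NZ) (h8 : S_CS) (h9 : S_CL) (h10 : S_SR) : S_NQ := by
  intro a b c d e H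
  have a0 := H.a0
  have ab := H.ab
  have bc := H.bc
  have cd := H.cd
  have de := H.de
  have b0 : 0 < b := by omega
  have c0 : 0 < c := by omega
  have d0 : 0 < d := by omega
  have e0 : 0 < e := by omega
  have sw : ∀ {u v : ℤ}, IsSquare (u * v + -3) → IsSquare (v * u + -3) := fun h => by
    rwa [mul_comm]
  have pa := h1 a b c d H.s1 H.s2 H.s3 H.s5 H.s6 H.s8
  have pb := h1 b c d e H.s5 H.s6 H.s7 H.s8 H.s9 H.s10
  have pc := h1 c b d e (sw H.s5) H.s8 H.s9 H.s6 H.s7 H.s10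
  have pd := h1 d b c e (sw H.s6) (sw H.s8) H.s10 H.s5 H.s7 H.s9
  have pe := h1 e b c d (sw H.s7) (sw H.s9) (sw H.s10) H.s5 H.s6 H.s8
  obtain ⟨q, rfl, rfl, rfl, rfl⟩ := quad a0 ab bc cd H.s1 H.s2 H.s5 H.s3 H.s6 H.s8
  obtain ⟨q', e1, e2, e3, e4⟩ := quad b0 bc cd de H.s5 H.s6 H.s8 H.s7 H.s9 H.s10
  have l1 := h3 q pa pb pc pd
  have l2 := h3 q' (e1 ▸ pb) (e2 ▸ pc) (e3 ▸ pd) (e4 ▸ pe)
  have sr := h10 q pa pb
  have tr := h2 q.toTr pa pb pc
  rw [e2, e3, e4] at l2
  generalize q.a = a, q.b = b, q.c = c, q.d = d at *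
  have big : 2 ^ 15 < b → 1000 * c ≤ d := fun h => by
    have k := l1 (by omega)
    have k1 : 1000 ^ 2 * (1 ^ 2 * c) ≤ b ^ 2 * (c ^ 2 * c) := by gcongr <;> omega
    linarith
  have d1 : 30000 ≤ d ∧ 160 * b ≤ d := by
    rcases le_or_gt b (2 ^ 15) with h | h
    · have := sr h; omega
    · have := big h; omega
  have g1 : a * b * c * d ^ 2 ≤ e := by
    have k := l2 (by omega)
    have k1 : a * (160 * b) * (c * d ^ 2) ≤ c * d * (c * d ^ 2) := by gcongr <;> omega
    linarith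
  have g5 := lgm (by positivity)
    (h4 a b c d e a0 ab bc cd d1.1 g1 H.s3 H.s6 H.s8 H.s4 H.s7 H.s9 H.s10)
  have cb : 0 < c - b := by omega
  rw [lg_mul (by positivity) (by positivity), lg_mul (by positivity) e0,
    lg_mul (by norm_num) (by positivity), lg_pow, lg_pow, lg_pow] at g5
  have n4 := lg_le (a := 4) 1 2 (by norm_num) (by norm_num)
  have n160 := lg_le (a := 160) 100 733 (by norm_num) (by decide +kernel)
  have A1 := lgm (a := 2) (b := a) (by norm_num) (by omega)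
  rw [lg_two] at A1
  have AB := lgm a0 ab.le
  have BC := lgm b0 bc.le
  have δB := lgm (a := b - a) (b := b) (by omega) (by omega)
  have ηC := lgm (a := c - b) (b := c) cb (by omega)
  have lq : 1000 ≤ c → 3 * lg c + 2 * lg b - 733 / 100 ≤ lg d := fun h => by
    have k := lgm (by positivity) (l1 h)
    rw [lg_mul (by positivity) (by positivity), lg_mul (by norm_num) d0, lg_pow, lg_pow] at k
    push_cast at k n160
    linarith
  have cab : Cf3 a b d e := ⟨a0, ab, by omega, de.le, d1.1, pa, pb, H.s3, H.s4, H.s6, H.s7, H.s10⟩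
  have cbc : Cf3 b c d e := ⟨b0, bc, cd, de.le, d1.1, pb, pc, H.s6, H.s7, H.s8, H.s9, H.s10⟩
  push_cast at g5 n4
  rcases le_or_gt b (2 ^ 15) with h | h
  · have k1 := lg_le (a := b) 1 15 b0 (by rwa [pow_one])
    have k2 := le_lg (a := d) 1 140 (by rw [pow_one]; exact (sr h).le)
    have k3 := le_lg (a := b) 2 5 (by have : 6 ≤ b := by omega
                                      nlinarith)
    push_cast at k1 k2 k3
    refine h8 _ _ (lg c) _ _ _ A1 AB δB (by linarith) (by linarith) (by linarith) ?_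
      (by linarith) (w3 h5 h7 cab)
    rcases le_or_gt 1000 c with j | j
    · exact lq j
    · have k4 := lg_le (a := c) 1 10 c0 (by rw [pow_one]; omega)
      push_cast at k4
      linarith
  · have k1 := le_lg (a := b) 1 15 (by rw [pow_one]; exact h.le)
    push_cast at k1
    refine h9 _ _ _ _ _ _ _ A1 AB BC δB ηC (by linarith) (lq (by omega)) (by linarith) ?_
      (h6 a b c d e cab cbc (by have := big h; omega)) (w3 h5 h7 cab) (w3 h5 h7 cbc)
    rcases tr (by omega) with j | ⟨j1, j2⟩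
    · left
      have k2 : (17 * a * b) ^ 4 ≤ (10 * c) ^ 4 := by gcongr
      have k3 : 0 < (a * b) ^ 4 := by positivity
      have k4 := lgm (a := 2 ^ 3 * (a * b) ^ 4) (b := c ^ 4) (by positivity) (by linarith)
      rw [lg_mul (by positivity) k3, lg_pow, lg_pow, lg_pow, lg_mul a0 b0, lg_two] at k4
      push_cast at k4
      linarith
    · right
      have k2 := lgm c0 j2
      have k3 := lgm (by positivity) j1
      have n9 := lg_le (a := 9) 5 16 (by norm_num) (by norm_num)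
      rw [lg_mul (by norm_num) b0] at k2
      rw [lg_mul (by positivity) b0, lg_mul (by norm_num) a0, lg_pow] at k3
      push_cast at k3 n9
      refine ⟨by linarith, by linarith, ?_⟩
      rcases le_total c (2 * b) with j | j
      · have k4 := lgm c0 j
        rw [lg_mul (by norm_num) b0, lg_two] at k4
        exact Or.inl ⟨by linarith, lgm cb (by omega)⟩
      · have k4 := lgm (by positivity) j
        rw [lg_mul (by norm_num) b0, lg_two] at k4
        exact Or.inr ⟨by linarith, lgm b0 (by omega)⟩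

/-- from five positive elements in increasing order to all sets -/
theorem no_set {n : ℤ} (hn : n < 0) (h : ∀ a b c d e : ℤ, ¬ Qt n a b c d e) (s : Finset ℤ)
    (hs : s.card = 5) (h0 : ∀ a ∈ s, a ≠ 0)
    (hq : ∀ a ∈ s, ∀ b ∈ s, a ≠ b → IsSquare (a * b + n)) : False := by
  have pos : ∀ s : Finset ℤ, s.card = 5 → (∀ a ∈ s, 0 < a) →
      (∀ a ∈ s, ∀ b ∈ s, a ≠ b → IsSquare (a * b + n)) → False := fun s hs hp hq => by
    let f := s.orderEmbOfFin hs
    have hm : ∀ i, f i ∈ s := fun i => Finset.orderEmbOfFin_mem s hs i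
    have lt : ∀ i j : Fin 5, i < j → f i < f j := fun i j h => f.strictMono h
    have sq : ∀ i j : Fin 5, i < j → IsSquare (f i * f j + n) := fun i j h =>
      hq _ (hm i) _ (hm j) (lt i j h).ne
    exact h (f 0) (f 1) (f 2) (f 3) (f 4)
      ⟨hp _ (hm 0), lt 0 1 (by decide), lt 1 2 (by decide), lt 2 3 (by decide), lt 3 4 (by decide),
        sq 0 1 (by decide), sq 0 2 (by decide), sq 0 3 (by decide), sq 0 4 (by decide),
        sq 1 2 (by decide), sq 1 3 (by decide), sq 1 4 (by decide), sq 2 3 (by decide),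
        sq 2 4 (by decide), sq 3 4 (by decide)⟩
  by_cases hp : ∀ x ∈ s, 0 < x
  · exact pos s hs hp hq
  by_cases hm : ∀ x ∈ s, x < 0
  · refine pos (s.image Neg.neg) ?_ ?_ ?_
    · rw [Finset.card_image_of_injective _ neg_injective, hs]
    · intro x hx
      obtain ⟨y, hy, rfl⟩ := Finset.mem_image.1 hx
      exact neg_pos.2 (hm y hy)
    · intro x hx z hz hne
      obtain ⟨y, hy, rfl⟩ := Finset.mem_image.1 hx
      obtain ⟨w, hw, rfl⟩ := Finset.mem_image.1 hz
      rw [neg_mul_neg]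
      exact hq y hy w hw (fun h => hne (by rw [h]))
  push Not at hp hm
  obtain ⟨x, hx, hx0⟩ := hp
  obtain ⟨y, hy, hy0⟩ := hm
  have hx1 : x < 0 := lt_of_le_of_ne hx0 (h0 x hx)
  have hy1 : 0 < y := lt_of_le_of_ne hy0 (h0 y hy).symm
  have := (hq x hx y hy (by omega)).nonneg
  nlinarith

end Pool.Agent.MP_2339ce_nt.DQ
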