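import Mathlib.Analysis.SpecialFunctions.Log.Base
import Pool.Agent.MP_2339ce_nt.DQ.Basic

/-! Project DQ3 (no `D(-3)`-quintuple): definitions and row statements. -/

set_option autoImplicit false

noncomputable section

namespace Pool.Agent.MP_2339ce_nt.DQ

open Real

/-! ### sharp windows -/

def beQ (ρ σ : ℕ) : ℚ := ∏ i ∈ Finset.range σ, |((ρ : ℚ) + 1 / 2 - i) / (i + 1)|

def mu (ρ kp kq s : ℕ) : ℚ :=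
  (1001 / 1000) ^ (ρ + kp + kq) * 4 ^ ρ * 3 ^ (ρ + kp + kq) * beQ ρ (ρ + kp + kq) / 2 ^ s

def ep (ρ kp kq s : ℕ) : ℚ :=
  (1001 / 1000) ^ (ρ + kp + kq) * 3 * 4 ^ ρ * ((ρ + kq - 1).choose ρ : ℕ) / 2 ^ s

/-- admissible multiplicities and a power of two that can be saved -/
structure Sv (ρ kp kq s : ℕ) : Prop extends Adm ρ kp kq where
  k2 : 2 ≤ kq
  s1 : s + 2 ≤ 2 * (kp + kq)
  s2 : s + 1 ≤ 2 * ρ + kp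
  s3 : s + 1 ≤ 2 * ρ + kq

/-- the two constants, in bits -/
structure Ok (ρ kp kq s m1 m2 : ℕ) : Prop extends Sv ρ kp kq s where
  h1 : 4 * ep ρ kp kq s ^ 2 ≤ 2 ^ m1
  h2 : 4 * mu ρ kp kq s ^ 2 ≤ 2 ^ m2

def sc3 (ρ kp kq s : ℕ) (p q d : ℝ) : ℝ :=
  4 ^ ρ * d ^ ρ * 3 ^ (ρ + kp + kq) * (q - p) ^ (kp + kq - 1) / (p ^ kp * q ^ kq * 2 ^ s)

structure Cf3 (p q d e : ℤ) : Prop where
  p0 : 0 < p
  pq : p < q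
  qd : q < d
  de : d ≤ e
  big : 30000 ≤ d
  p4 : p % 4 = 2
  q4 : q % 4 = 2
  pd : IsSquare (p * d + -3)
  pe : IsSquare (p * e + -3)
  sd : IsSquare (q * d + -3)
  se : IsSquare (q * e + -3)
  sq : IsSquare (d * e + -3)

def lg (a : ℤ) : ℝ := logb 2 a

/-- the excluded interval, in binary logarithms -/
def D3 (P Q δ D E : ℝ) (ρ kp kq m1 m2 : ℕ) : Prop :=
  E ≤ (2 * ρ + 1) * D + (2 * (ρ + kp + kq) - 6) * Q + 2 * δ + m1 ∨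
    (2 * (kp + kq) - 1) * D + 2 * kp * P + 2 * kq * Q - (2 * (kp + kq) - 2) * δ - m2 ≤ E

def S_BE : Prop := ∀ ρ σ : ℕ, be ρ σ = beQ ρ σ

def S_BND3 : Prop := ∀ (ρ k l m : ℕ) (x α β γ : ℝ), 1 ≤ k → k ≤ ρ + 1 → 1 ≤ l → 0 < x →
  0 ≤ 1 + α * x → α * x ≤ 0 → 0 < |α - β| → |α - β| < |α - γ| →
    |rs ρ x α β γ k l m| ≤ ((k + l - 2).choose (k - 1) : ℕ) * (1 + x * |α - β|) ^ (ρ + 1) /
      (|α - β| ^ (k + l - 1) * (|α - γ| - |α - β|) ^ m)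

def S_INT3 : Prop := ∀ (ρ kp kq s : ℕ) (p q d : ℤ), Sv ρ kp kq s → 0 < p → p < q → 0 < d →
  p % 4 = 2 → q % 4 = 2 →
    (∃ i : ℤ, sc3 ρ kp kq s p q d * rs ρ (1 / d) 0 (-3 / q) (-3 / p) (ρ + 1) kq kp = i) ∧
    (∃ i : ℤ, sc3 ρ kp kq s p q d * rs ρ (1 / d) (-3 / q) 0 (-3 / p) kq (ρ + 1) kp / q = i) ∧
    (∃ i : ℤ, sc3 ρ kp kq s p q d * rs ρ (1 / d) (-3 / p) 0 (-3 / q) kp (ρ + 1) kq / p = i)

def S_SIZE3 : Prop := ∀ (ρ kp kq s : ℕ) (p q d e : ℝ), Sv ρ kp kq s → 1 ≤ p → p < q → q < d →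
  d ≤ e → 30000 ≤ d →
    |sc3 ρ kp kq s p q d * ww ρ kp kq p q d e (-3) (-3) (-3)| ≤ d ^ ρ *
      (mu ρ kp kq s * (q - p) ^ (kp + kq - 1) / (p ^ kp * q ^ kq * d ^ (ρ + kp + kq)) +
        ep ρ kp kq s * (q - p) * q ^ (ρ + kp + kq - 3) / e)

def S_WIN : Prop := ∀ (ρ kp kq s m1 m2 : ℕ) (p q d e : ℤ), Ok ρ kp kq s m1 m2 → Cf3 p q d e →
  ww ρ kp kq p q d e (-3) (-3) (-3) ≠ 0 →
    D3 (lg p) (lg q) (lg (q - p)) (lg d) (lg e) ρ kp kq m1 m2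

def S_TAIL : Prop := ∀ i : ℕ,
  Ok (2 * i + 1) (2 * i + 2) (2 * i + 2) (6 * i + 3) (5 * i + 9) (16 * i + 20)

/-- all windows of one pair -/
def W3 (P Q δ D E : ℝ) : Prop := ∀ ρ kp kq s m1 m2 : ℕ, Good ρ kp kq → Ok ρ kp kq s m1 m2 →
  D3 P Q δ D E ρ kp kq m1 m2

/-- the window of the form with three triple nodes -/
def S_HW : Prop := ∀ a b c d e : ℤ, Cf3 a b d e → Cf3 b c d e → 100 * c ≤ d →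
  lg e ≤ 5 * lg d + 12 * lg c + 7 ∨ 11 * lg d + 6 * lg a - 4 * lg c - 5 ≤ lg e

def S_CS : Prop := ∀ A B C D E δ : ℝ, 1 ≤ A → A ≤ B → δ ≤ B → 5 / 2 ≤ B → B ≤ 15 → 140 ≤ D →
  3 * C + 2 * B - 733 / 100 ≤ D → 5 * D + 2 * A - 2 * C - 2 ≤ E → ¬ W3 A B δ D E

def S_CL : Prop := ∀ A B C D E δ η : ℝ, 1 ≤ A → A ≤ B → B ≤ C → δ ≤ B → η ≤ C → 15 ≤ B →
  3 * C + 2 * B - 733 / 100 ≤ D → 5 * D + 2 * A - 2 * η - 2 ≤ E →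
  (A + B + 3 / 4 ≤ C ∨ (C ≤ B + 2 ∧ η ≤ (A + B) / 2 + 8 / 5 ∧
    ((C ≤ B + 1 ∧ η ≤ B) ∨ (B + 1 ≤ C ∧ B ≤ η)))) →
  (E ≤ 5 * D + 12 * C + 7 ∨ 11 * D + 6 * A - 4 * C - 5 ≤ E) → W3 A B δ D E → ¬ W3 B C η D E

/-! ### gaps -/

def S_PAR : Prop := ∀ a b c d : ℤ, IsSquare (a * b + -3) → IsSquare (a * c + -3) →
  IsSquare (a * d + -3) → IsSquare (b * c + -3) → IsSquare (b * d + -3) → IsSquare (c * d + -3) →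
  a % 4 = 2

def S_TR3 : Prop := ∀ T : Tr 3, T.a % 4 = 2 → T.b % 4 = 2 → T.c % 4 = 2 → 1000 ≤ T.b →
  17 * T.a * T.b ≤ 10 * T.c ∨ ((T.c - T.b) ^ 2 ≤ 9 * T.a * T.b ∧ T.c ≤ 4 * T.b)

def S_LD : Prop := ∀ q : Qd 3, q.a % 4 = 2 → q.b % 4 = 2 → q.c % 4 = 2 → q.d % 4 = 2 →
  q.m0 % 2 = 0 ∧ q.m1 % 4 = 2 ∧ q.m0 * q.m1 % 3 ≠ 1

/-- first estimates -/
structure Qd.Est (q : Qd 3) : Prop where
  a2 : 2 ≤ q.a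
  c3 : 1000 ≤ q.c
  m2 : 2 ≤ q.m0
  hP : 12 * q.a * q.c ≤ 5 * q.P
  z1 : 3 * q.z ≤ 2 * q.c * q.P
  z2 : 333 * q.c * q.P ≤ 500 * q.z

def S_LA : Prop := ∀ q : Qd 3, 2 ≤ q.a → 1000 ≤ q.c → 2 ≤ q.m0 → q.Est

def S_LB : Prop := ∀ q : Qd 3, q.Est →
  749 * (q.b - q.a) * q.P ≤ 1000 * q.a * q.b * q.c * q.m0 ∧
    1000 * q.a * q.b * q.c * q.m0 ≤ 752 * (q.b - q.a) * q.P

def S_LC : Prop := ∀ q : Qd 3, q.Est →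
  449 * q.P ^ 2 + 1795 * q.a * q.b * q.c * (q.c - q.a) ≤ 100 * q.b * q.c * q.P * q.m1 ∧
    100 * q.b * q.c * q.P * q.m1 ≤ 536 * q.P ^ 2 + 1805 * q.a * q.b * q.c ^ 2

def S_LQ3 : Prop := ∀ q : Qd 3, q.a % 4 = 2 → q.b % 4 = 2 → q.c % 4 = 2 → q.d % 4 = 2 →
  1000 ≤ q.c → q.b ^ 2 * q.c ^ 3 ≤ 160 * q.d

def S_G53 : Prop := ∀ a b c d e : ℤ, 0 < a → a < b → b < c → c < d → 30000 ≤ d →
  a * b * c * d ^ 2 ≤ e → IsSquare (a * d + -3) → IsSquare (b * d + -3) → IsSquare (c * d + -3) →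
  IsSquare (a * e + -3) → IsSquare (b * e + -3) → IsSquare (c * e + -3) → IsSquare (d * e + -3) →
  a ^ 2 * d ^ 5 ≤ 4 * (c - b) ^ 2 * e

/-- the finite part -/
def S_SR : Prop := ∀ q : Qd 3, q.a % 4 = 2 → q.b % 4 = 2 → q.b ≤ 2 ^ 15 → 2 ^ 140 < q.d

def S_NQ : Prop := ∀ a b c d e : ℤ, ¬ Qt (-3) a b c d e

end Pool.Agent.MP_2339ce_nt.DQ

end
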