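import Mathlib.Data.ZMod.Basic
import Pool.Agent.MP_2339ce_nt.DQ.Spec3

/-! Project DQ3: congruences modulo 8 and modulo 3. -/

set_option autoImplicit false

namespace Pool.Agent.MP_2339ce_nt.DQ

namespace TPAR

def S (x : ZMod 8) : Prop := x = 3 ∨ x = 4 ∨ x = 7

instance (x : ZMod 8) : Decidable (S x) := inferInstanceAs (Decidable (_ ∨ _ ∨ _))

theorem sq8 : ∀ u v : ZMod 8, u + -3 = v * v → S u := by decide +kernel

theorem key8 : ∀ a b : ZMod 8, S (a * b) → ∀ c, S (a * c) → S (b * c) → ∀ d, S (a * d) →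
    S (b * d) → S (c * d) → a = 2 ∨ a = 6 := by decide +kernel

theorem toS {a b : ℤ} (h : IsSquare (a * b + -3)) : S ((a : ZMod 8) * (b : ZMod 8)) := by
  obtain ⟨r, hr⟩ := h
  exact sq8 _ r (by exact_mod_cast congrArg (Int.cast : ℤ → ZMod 8) hr)

set_option synthInstance.maxSize 2048 in
theorem key3 : ∀ a c s : ZMod 3, s ^ 2 = a * c → ∀ b t, t ^ 2 = b * c → ∀ d x, x ^ 2 = a * d →
    ∀ y, y ^ 2 = b * d → ∀ z, z ^ 2 = c * d →
    (a * z - s * x - (b * z - t * y)) * (8 * a * c * (a * z - s * x)) ≠ 1 := by decide +kernel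

theorem to3 {s a c : ℤ} (h : s ^ 2 = a * c - 3) : (s : ZMod 3) ^ 2 = (a : ZMod 3) * c := by
  have := congrArg (Int.cast : ℤ → ZMod 3) h
  push_cast at this
  rw [this, show (3 : ZMod 3) = 0 from rfl, sub_zero]

theorem odd {s a c : ℤ} (h : s ^ 2 = a * c - 3) (ha : a % 4 = 2) : Odd s := by
  have h1 : Even (a * c) := (Int.even_iff.2 (by omega : a % 2 = 0)).mul_right c
  have h2 : Odd (s ^ 2) := h ▸ h1.sub_odd (by decide)
  exact (Int.odd_pow' two_ne_zero).1 h2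

end TPAR

open TPAR

theorem par3 : S_PAR := by
  intro a b c d h1 h2 h3 h4 h5 h6
  rcases key8 _ _ (toS h1) _ (toS h2) (toS h4) _ (toS h3) (toS h5) (toS h6) with h | h
  · have := (ZMod.intCast_eq_intCast_iff' a 2 8).1 (by exact_mod_cast h)
    omega
  · have := (ZMod.intCast_eq_intCast_iff' a 6 8).1 (by exact_mod_cast h)
    omega

theorem ld3 : S_LD := by
  intro q ha hb hc _
  have ea : Even q.a := Int.even_iff.2 (by omega)
  have eb : Even q.b := Int.even_iff.2 (by omega)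
  have oP : Odd q.P := (ea.mul_right _).sub_odd ((odd q.hs ha).mul (odd q.hx ha))
  have oQ : Odd q.Q := (eb.mul_right _).sub_odd ((odd q.ht hb).mul (odd q.hy hb))
  have h0 : q.m0 % 2 = 0 := Int.even_iff.1 (oP.sub_odd oQ)
  refine ⟨h0, ?_, fun h => ?_⟩
  · have h1 := Int.odd_iff.1 oP
    have e : q.m1 = 4 * (2 * q.a * q.c * q.P - 3 * q.a * q.z) - 6 * q.P - 6 * q.m0 := by
      rw [Qd.m1, Qd.g]; ring
    rw [e]
    omega
  · have h1 := (ZMod.intCast_eq_intCast_iff' (q.m0 * q.m1) 1 3).2 (by simpa using h)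
    apply key3 _ _ _ (to3 q.hs) _ _ (to3 q.ht) _ _ (to3 q.hx) _ (to3 q.hy) _ (to3 q.hz)
    have h3 : (3 : ZMod 3) = 0 := rfl
    simp only [Qd.m1, Qd.g, Qd.m0, Qd.P, Qd.Q] at h1
    push_cast at h1
    rw [← h1]
    congr 1
    rw [h3, show (6 : ZMod 3) = 0 from rfl]
    ring

end Pool.Agent.MP_2339ce_nt.DQ
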