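import Mathlib.Data.Nat.Basic

/-! Project DQ3: the search program for the finite part, and its row statements. -/

set_option autoImplicit false

noncomputable section

namespace Pool.Agent.MP_2339ce_nt.DQ.SR

abbrev St := ℕ → ℕ → ℕ → ℕ → ℕ → List ℕ → List ℕ

def put (a : ℕ) (r : List ℕ) (y : ℕ) : List ℕ :=
  @Bool.rec (fun _ => List ℕ) r (Nat.div y a :: r) (Nat.beq (Nat.mod y a) 0)

/-- record `((g x) ^ 2 + 3) / a` for the `g` in `gs` with `m g ^ 2 = M` -/
def rec1 (a M x m : ℕ) (acc gs : List ℕ) : List ℕ :=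
  @List.rec ℕ (fun _ => List ℕ) acc (fun g _ r =>
    @Bool.rec (fun _ => List ℕ) r (put a r (Nat.add (Nat.pow (Nat.mul g x) 2) 3))
      (Nat.beq (Nat.mul m (Nat.mul g g)) M)) gs

def t2 (a M : ℕ) (gs : List ℕ) (ih : St) (A B C x1 x2 : ℕ) (acc : List ℕ) (m x : ℕ) : List ℕ :=
  @Bool.rec (fun _ => List ℕ) acc
    (ih A (Nat.add B (Nat.mul 2 A)) m x1 x
      (ih m (Nat.add B (Nat.mul 2 C)) C x x2 (rec1 a M x m acc gs))) (Nat.ble m M)

/-- the values of the form `A i ^ 2 + B i j + C j ^ 2` -/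
def tree (a M : ℕ) (gs : List ℕ) (f : ℕ) : St :=
  @Nat.rec (fun _ => St) (fun _ _ _ _ _ acc => 0 :: acc)
    (fun _ ih A B C x1 x2 acc =>
      t2 a M gs ih A B C x1 x2 acc (Nat.add (Nat.add A B) C) (Nat.add x1 x2)) f

def r3 (a M K : ℕ) (gs : List ℕ) (ih : St) (A B C x1 x2 : ℕ) (acc : List ℕ) (m x : ℕ) : List ℕ :=
  ih m (Nat.sub B (Nat.mul 2 C)) C x x2
    (tree a M gs 100000 A (Nat.sub (Nat.add B (Nat.mul 2 A)) K) m x1 x (rec1 a M x m acc gs))

def r2 (a M X K : ℕ) (gs : List ℕ) (ih : St) (A B C x1 x2 : ℕ) (acc : List ℕ) (u v x : ℕ) :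
    List ℕ :=
  @Bool.rec (fun _ => List ℕ) acc
    (@Bool.rec (fun _ => List ℕ) (ih A (Nat.add B (Nat.mul 2 A)) (Nat.sub v u) x1 x acc)
      (r3 a M K gs ih A B C x1 x2 acc (Nat.sub u v) x) (Nat.ble v u)) (Nat.ble x X)

/-- the values of the form `A i ^ 2 + (B - K) i j - C j ^ 2` -/
def river (a M X K : ℕ) (gs : List ℕ) (f : ℕ) : St :=
  @Nat.rec (fun _ => St) (fun _ _ _ _ _ acc => 0 :: acc)
    (fun _ ih A B C x1 x2 acc =>
      r2 a M X K gs ih A B C x1 x2 acc (Nat.add A B) (Nat.add C K) (Nat.add x1 x2)) f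

/-- the odd `g ≤ 221` with `g ^ 2 ∣ M` -/
def gl (M : ℕ) : List ℕ :=
  @Nat.rec (fun _ => List ℕ) [] (fun i r =>
    @Bool.rec (fun _ => List ℕ) r (Nat.succ (Nat.mul 2 i) :: r)
      (Nat.beq (Nat.mod M (Nat.pow (Nat.succ (Nat.mul 2 i)) 2)) 0)) 111

def nw2 (ih : ℕ → ℕ) (s t : ℕ) : ℕ := @Bool.rec (fun _ => ℕ) (ih t) s (Nat.ble s t)

def nw (n f : ℕ) : ℕ → ℕ :=
  @Nat.rec (fun _ => ℕ → ℕ) (fun s => s)
    (fun _ ih s => nw2 ih s (Nat.div (Nat.add s (Nat.div n s)) 2)) f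

def btw (n s : ℕ) : Bool :=
  @Bool.rec (fun _ => Bool) false (Nat.ble (Nat.succ n) (Nat.pow (Nat.succ s) 2))
    (Nat.ble (Nat.succ (Nat.pow s 2)) n)

def k1 : ℕ :=
  96534657197826941864125942963858631223614097505080178951979807742147426625543477787134975230228237643203982491697548051224281577767443

def k2 : ℕ :=
  49832763124933499339032794062689790895591079694836007443

def k3 : ℕ :=
  380006767722538127746873153178912511557101225749667469109215699828894109610685345234892465202245680870615963953941297072347087443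

def k4 : ℕ :=
  66554504448532686078192410499025370160906084881093277832870425059512669236303238926155587161972258195699981267044969524835936206813784803127304419602345427972947004382245501682799698978586858945543741347213431184529293929125066336314530792592366507626198049034452665011

/-- `true` when bit `n % m` of `k` is zero, else `r` -/
def sv (n m k : ℕ) (r : Bool) : Bool :=
  @Bool.rec (fun _ => Bool) r true (Nat.beq (Nat.mod (Nat.shiftRight k (Nat.mod n m)) 2) 0)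

/-- a test that `n` is not a square; `k1, …, k4` mark the squares modulo `455, 187, 437, 899` -/
def nsq (n : ℕ) : Bool :=
  sv n 455 k1 (sv n 187 k2 (sv n 437 k3 (sv n 899 k4
    (btw n (nw n 40 (Nat.pow 2 (Nat.succ (Nat.div (Nat.log2 n) 2))))))))

def in2 (c : ℕ) (L : List ℕ) : Bool :=
  @List.rec ℕ (fun _ => Bool) true (fun d _ r => @Bool.rec (fun _ => Bool) false r
    (@Bool.rec (fun _ => Bool) (nsq (Nat.sub (Nat.mul c d) 3)) true (Nat.ble d c))) L

def all2 (b : ℕ) (L : List ℕ) : Bool :=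
  @List.rec ℕ (fun _ => Bool) true (fun c _ r => @Bool.rec (fun _ => Bool) false r
    (@Bool.rec (fun _ => Bool) (in2 c L) (Nat.ble 1 c) (Nat.ble c b))) L

def lst (a b M : ℕ) : List ℕ :=
  river (Nat.mul 2 a) M 302231454903657293676544 100000 (gl M) 1000000 a 100000 b 0 1 []

def pair (a b : ℕ) : Bool := all2 (Nat.mul 2 b) (lst a b (Nat.mul 3 (Nat.sub b a)))

def p2 (lo hi : ℕ) (ih : ℕ → ℕ → ℕ → Bool) (A B C m : ℕ) : Bool :=
  @Bool.rec (fun _ => Bool) false
    (@Bool.rec (fun _ => Bool) true (@Bool.rec (fun _ => Bool) false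
      (ih A (Nat.add B (Nat.mul 2 A)) m) (ih m (Nat.add B (Nat.mul 2 C)) C)) (Nat.ble m hi))
    (@Bool.rec (fun _ => Bool) true (@Bool.rec (fun _ => Bool) true (pair A C)
      (Nat.ble (Nat.succ A) C)) (Nat.ble lo C))

/-- the tree of the forms of discriminant `-3` -/
def pairs (lo hi f : ℕ) : ℕ → ℕ → ℕ → Bool :=
  @Nat.rec (fun _ => ℕ → ℕ → ℕ → Bool) (fun _ _ _ => false)
    (fun _ ih A B C => p2 lo hi ih A B C (Nat.add (Nat.add A B) C)) f

def S_SR1 : Prop := ∀ lo hi f a b r : ℕ, pairs lo hi f 1 1 1 = true → r ^ 2 + 3 = 4 * a * b →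
  a < b → lo ≤ b → b ≤ hi → pair a b = true

def S_SR2 : Prop := ∀ a b d x y : ℕ, a < b → b ≤ 16384 → x ^ 2 + 3 = 2 * a * d →
  y ^ 2 + 3 = 2 * b * d → x % 2 = 1 → x ≤ 2 ^ 78 →
    0 ∈ lst a b (3 * (b - a)) ∨ d ∈ lst a b (3 * (b - a))

def S_SR3 : Prop := ∀ (b c d z : ℕ) (L : List ℕ), all2 b L = true →
  0 ∉ L ∧ (c ∈ L → d ∈ L → b < c → c < d → z ^ 2 + 3 ≠ c * d)

def S_SR4 : Prop := ∀ a b r : ℕ, r ^ 2 + 3 = 4 * a * b → a < b → b ≤ 16384 → pair a b = true

end Pool.Agent.MP_2339ce_nt.DQ.SR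

end
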