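import Pool.Agent.MP_2339ce_nt.DQ.Spec3
import Pool.Agent.MP_2339ce_nt.DQ.Srch

/-! Project DQ3, row SR: the finite part from the correctness of the search. -/

set_option autoImplicit false

namespace Pool.Agent.MP_2339ce_nt.DQ

namespace TSR

theorem mem (h2 : SR.S_SR2) {a b d x y : ℕ} (hab : a < b) (hb : b ≤ 16384)
    (hx : x ^ 2 + 3 = 2 * a * d) (hy : y ^ 2 + 3 = 2 * b * d) (hd : d ≤ 2 ^ 140) :
    0 ∈ SR.lst a b (3 * (b - a)) ∨ d ∈ SR.lst a b (3 * (b - a)) := by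
  refine h2 a b d x y hab hb hx hy ?_ ?_
  · rcases Nat.even_or_odd' x with ⟨k, rfl | rfl⟩
    · exfalso
      have e : 2 * (2 * k ^ 2 + 1) + 1 = 2 * (a * d) := by linarith [show (2 * k) ^ 2 = 4 * k ^ 2 by ring]
      omega
    · omega
  · refine Nat.le_of_not_lt fun k => ?_
    have k1 : (2 ^ 78) ^ 2 ≤ x ^ 2 := Nat.pow_le_pow_left k.le 2
    have k2 : 2 * a * d ≤ 2 * 16384 * 2 ^ 140 :=
      Nat.mul_le_mul (Nat.mul_le_mul_left 2 (hab.le.trans hb)) hd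
    rw [← hx] at k2
    have k3 : (2 ^ 78) ^ 2 + 3 ≤ 2 * 16384 * 2 ^ 140 := (Nat.add_le_add_right k1 3).trans k2
    norm_num at k3

theorem nat (h2 : SR.S_SR2) (h3 : SR.S_SR3) (h4 : SR.S_SR4) {a b c d r s t x y z : ℕ}
    (hab : a < b) (hb : b ≤ 16384) (hbc : 2 * b < c) (hcd : c < d) (hr : r ^ 2 + 3 = 4 * a * b)
    (hs : s ^ 2 + 3 = 2 * a * c) (ht : t ^ 2 + 3 = 2 * b * c) (hx : x ^ 2 + 3 = 2 * a * d)
    (hy : y ^ 2 + 3 = 2 * b * d) (hz : z ^ 2 + 3 = c * d) : 2 ^ 140 < d := by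
  refine Nat.lt_of_not_le fun hd => ?_
  obtain ⟨k0, k⟩ := h3 (2 * b) c d z (SR.lst a b (3 * (b - a))) (h4 a b r hr hab hb)
  exact k ((mem h2 hab hb hs ht (hcd.le.trans hd)).resolve_left k0)
    ((mem h2 hab hb hx hy hd).resolve_left k0) hbc hcd hz

end TSR

theorem srq (h2 : SR.S_SR2) (h3 : SR.S_SR3) (h4 : SR.S_SR4) : S_SR := by
  rintro ⟨⟨a, b, c, r, s, t, a0, ab, bc, r0, s0, t0, hr, hs, ht⟩, d, x, y, z, cd, x0, y0, z0,
    hx, hy, hz⟩ ha hb hb'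
  replace cd : c < d := cd
  replace hx : x ^ 2 = a * d - 3 := hx
  replace hy : y ^ 2 = b * d - 3 := hy
  replace hz : z ^ 2 = c * d - 3 := hz
  replace ha : a % 4 = 2 := ha
  replace hb : b % 4 = 2 := hb
  replace hb' : b ≤ 2 ^ 15 := hb'
  show 2 ^ 140 < d
  obtain ⟨a', rfl⟩ : ∃ a' : ℕ, a = 2 * a' := ⟨(a / 2).toNat, by omega⟩
  obtain ⟨b', rfl⟩ : ∃ b' : ℕ, b = 2 * b' := ⟨(b / 2).toNat, by omega⟩
  lift c to ℕ using by omega
  lift d to ℕ using by omega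
  lift r to ℕ using r0
  lift s to ℕ using s0
  lift t to ℕ using t0
  lift x to ℕ using x0
  lift y to ℕ using y0
  lift z to ℕ using z0
  have k : 2 ^ 140 < d := TSR.nat h2 h3 h4 (a := a') (b := b') (c := c) (r := r) (s := s) (t := t)
    (x := x) (y := y) (z := z) (by omega) (by omega) (by omega) (by omega)
    (by zify; linarith) (by zify; linarith) (by zify; linarith) (by zify; linarith)
    (by zify; linarith) (by zify; linarith)
  exact_mod_cast k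

end Pool.Agent.MP_2339ce_nt.DQ
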