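import Mathlib.Tactic.Linarith
import Mathlib.Tactic.Ring
import Pool.Agent.MP_2339ce_nt.DQ.Srch

/-! Project DQ3: the tree of the forms of discriminant `-3` reaches every pair. -/

set_option autoImplicit false

namespace Pool.Agent.MP_2339ce_nt.DQ.SR

namespace SR1

theorem step {lo hi f A B C : ℕ} (h : pairs lo hi f A B C = true) :
    (lo ≤ C → A < C → pair A C = true) ∧ ∃ g, A + B + C ≤ hi →
      pairs lo hi g A (B + 2 * A) (A + B + C) = true ∧
        pairs lo hi g (A + B + C) (B + 2 * C) C = true := by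
  cases f with
  | zero => exact absurd h Bool.false_ne_true
  | succ g =>
    have h' : p2 lo hi (pairs lo hi g) A B C (A + B + C) = true := h
    unfold p2 at h'
    refine ⟨fun h1 h2 => ?_, g, fun h3 => ?_⟩
    · rw [Nat.ble_eq_true_of_le h1, Nat.ble_eq_true_of_le (show Nat.succ A ≤ C from h2)] at h'
      cases hp : pair A C
      · rw [hp] at h'; exact absurd h' Bool.false_ne_true
      · rfl
    · rw [Nat.ble_eq_true_of_le h3] at h'
      generalize @Bool.rec (fun _ => Bool) true (@Bool.rec (fun _ => Bool) true (pair A C)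
        (Nat.ble (Nat.succ A) C)) (Nat.ble lo C) = y at h'
      cases y
      · exact absurd h' Bool.false_ne_true
      · have e : @Bool.rec (fun _ => Bool) false (pairs lo hi g A (B + 2 * A) (A + B + C))
            (pairs lo hi g (A + B + C) (B + 2 * C) C) = true := h'
        cases hq : pairs lo hi g (A + B + C) (B + 2 * C) C
        · rw [hq] at e; exact absurd e Bool.false_ne_true
        · rw [hq] at e; exact ⟨e, rfl⟩

theorem reach {lo hi f : ℕ} (h : pairs lo hi f 1 1 1 = true) (n : ℕ) :
    ∀ A B C : ℕ, A + C ≤ n → B ^ 2 + 3 = 4 * A * C → A ≤ hi → C ≤ hi →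
      ∃ g, pairs lo hi g A B C = true := by
  induction n with
  | zero =>
    intro A B C h0 e _ _
    obtain rfl : A = 0 := by omega
    simp at e
  | succ n ih =>
    intro A B C h0 e hA hC
    have a0 : 0 < A := Nat.pos_of_ne_zero fun k => by subst k; simp at e
    have c0 : 0 < C := Nat.pos_of_ne_zero fun k => by subst k; simp at e
    by_cases h1 : 2 * A ≤ B
    · obtain ⟨B', rfl⟩ : ∃ B', B = B' + 2 * A := ⟨B - 2 * A, by omega⟩
      have h2 : A + B' ≤ C := by
        by_contra hn
        nlinarith [Nat.mul_le_mul_left A (show C ≤ A + B' by omega)]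
      obtain ⟨C', rfl⟩ := Nat.exists_eq_add_of_le h2
      obtain ⟨g, hg⟩ := ih A B' C' (by omega) (by nlinarith) hA (by omega)
      obtain ⟨g', hg'⟩ := (step hg).2
      exact ⟨g', (hg' hC).1⟩
    by_cases h3 : 2 * C ≤ B
    · obtain ⟨B', rfl⟩ : ∃ B', B = B' + 2 * C := ⟨B - 2 * C, by omega⟩
      have h2 : B' + C ≤ A := by
        by_contra hn
        nlinarith [Nat.mul_le_mul_left C (show A ≤ B' + C by omega)]
      obtain ⟨A', rfl⟩ : ∃ A', A = A' + B' + C := ⟨A - (B' + C), by omega⟩
      obtain ⟨g, hg⟩ := ih A' B' C (by omega) (by nlinarith) (by omega) hC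
      obtain ⟨g', hg'⟩ := (step hg).2
      exact ⟨g', (hg' hA).2⟩
    have h4 : (B + 1) * (B + 1) ≤ 2 * A * (2 * C) := Nat.mul_le_mul (by omega) (by omega)
    have h5 : B ≤ 1 := by nlinarith
    have h6 : 4 * (A * C) = B ^ 2 + 3 := by rw [e]; ring
    have h7 : B = 1 := by
      rcases Nat.eq_zero_or_pos B with rfl | k
      · omega
      · omega
    subst h7
    have h8 : A * C = 1 := by omega
    obtain rfl := Nat.eq_one_of_mul_eq_one_right h8
    obtain rfl := Nat.eq_one_of_mul_eq_one_left h8
    exact ⟨f, h⟩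

end SR1

theorem sr1 : S_SR1 := fun _ _ _ a b r h e h1 h2 h3 =>
  let ⟨_, hg⟩ := SR1.reach h _ a r b le_rfl e (h1.le.trans h3) h3
  (SR1.step hg).1 h2 h1

end Pool.Agent.MP_2339ce_nt.DQ.SR
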