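import Mathlib.Tactic.Linarith
import Mathlib.Tactic.Ring
import Pool.Agent.MP_2339ce_nt.DQ.Srch

set_option autoImplicit false

namespace Pool.Agent.MP_2339ce_nt.DQ.SR

namespace TSR2

theorem brec {α : Type} (x y : α) (b : Bool) :
    @Bool.rec (fun _ => α) x y b = if b = true then y else x := by cases b <;> rfl

theorem put_eq (a : ℕ) (r : List ℕ) (y : ℕ) :
    put a r y = if y % a = 0 then y / a :: r else r := by
  unfold put
  rw [brec]
  simp only [Nat.beq_eq]
  rfl

theorem rec1_cons (a M x m g : ℕ) (acc gs : List ℕ) : rec1 a M x m acc (g :: gs) =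
    if m * (g * g) = M then put a (rec1 a M x m acc gs) ((g * x) ^ 2 + 3)
    else rec1 a M x m acc gs := by
  show @Bool.rec (fun _ => List ℕ) _ _ _ = _
  rw [brec]
  simp only [Nat.beq_eq]
  rfl

theorem tree_succ (a M : ℕ) (gs : List ℕ) (f A B C x1 x2 : ℕ) (acc : List ℕ) :
    tree a M gs (f + 1) A B C x1 x2 acc = if A + B + C ≤ M then
      tree a M gs f A (B + 2 * A) (A + B + C) x1 (x1 + x2)
        (tree a M gs f (A + B + C) (B + 2 * C) C (x1 + x2) x2
          (rec1 a M (x1 + x2) (A + B + C) acc gs)) else acc := by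
  show @Bool.rec (fun _ => List ℕ) _ _ _ = _
  rw [brec]
  simp only [Nat.ble_eq]
  rfl

theorem river_succ (a M X K : ℕ) (gs : List ℕ) (f A B C x1 x2 : ℕ) (acc : List ℕ) :
    river a M X K gs (f + 1) A B C x1 x2 acc = if x1 + x2 ≤ X then
      (if C + K ≤ A + B then
        river a M X K gs f (A + B - (C + K)) (B - 2 * C) C (x1 + x2) x2
          (tree a M gs 100000 A (B + 2 * A - K) (A + B - (C + K)) x1 (x1 + x2)
            (rec1 a M (x1 + x2) (A + B - (C + K)) acc gs))
      else river a M X K gs f A (B + 2 * A) (C + K - (A + B)) x1 (x1 + x2) acc) else acc := by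
  show @Bool.rec (fun _ => List ℕ) _ _ _ = _
  rw [brec, brec]
  simp only [Nat.ble_eq]
  rfl

theorem put_sub {a y z : ℕ} {r : List ℕ} (h : z ∈ r) : z ∈ put a r y := by
  rw [put_eq]
  split_ifs
  · exact List.mem_cons_of_mem _ h
  · exact h

theorem rec1_sub {a M x m z : ℕ} {acc : List ℕ} (h : z ∈ acc) (gs : List ℕ) :
    z ∈ rec1 a M x m acc gs := by
  induction gs with
  | nil => exact h
  | cons g gs ih =>
    rw [rec1_cons]
    split_ifs
    · exact put_sub ih
    · exact ih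

theorem tree_sub {a M z : ℕ} {gs : List ℕ} (f : ℕ) : ∀ (A B C x1 x2 : ℕ) (acc : List ℕ),
    z ∈ acc → z ∈ tree a M gs f A B C x1 x2 acc := by
  induction f with
  | zero => exact fun _ _ _ _ _ _ h => List.mem_cons_of_mem _ h
  | succ f ih =>
    intro A B C x1 x2 acc h
    rw [tree_succ]
    split_ifs
    · exact ih _ _ _ _ _ _ (ih _ _ _ _ _ _ (rec1_sub h gs))
    · exact h

theorem river_sub {a M X K z : ℕ} {gs : List ℕ} (f : ℕ) : ∀ (A B C x1 x2 : ℕ) (acc : List ℕ),
    z ∈ acc → z ∈ river a M X K gs f A B C x1 x2 acc := by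
  induction f with
  | zero => exact fun _ _ _ _ _ _ h => List.mem_cons_of_mem _ h
  | succ f ih =>
    intro A B C x1 x2 acc h
    rw [river_succ]
    split_ifs
    · exact ih _ _ _ _ _ _ (tree_sub _ _ _ _ _ _ _ (rec1_sub h gs))
    · exact ih _ _ _ _ _ _ h
    · exact h

theorem rec1_mem {a M x m g d : ℕ} {acc gs : List ℕ} (ha : 0 < a) (hg : g ∈ gs)
    (h1 : m * (g * g) = M) (h2 : (g * x) ^ 2 + 3 = a * d) : d ∈ rec1 a M x m acc gs := by
  induction gs with
  | nil => exact absurd hg List.not_mem_nil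
  | cons k gs ih =>
    rw [rec1_cons]
    rcases List.mem_cons.1 hg with rfl | hk
    · rw [if_pos h1, put_eq, h2, if_pos (Nat.mul_mod_right a d), Nat.mul_div_cancel_left d ha]
      exact List.mem_cons_self
    · split_ifs
      · exact put_sub (ih hk)
      · exact ih hk

theorem tri (i j : ℕ) :
    i = j ∨ (∃ k, 1 ≤ k ∧ i = k + j) ∨ ∃ k, 1 ≤ k ∧ j = i + k := by
  rcases Nat.lt_trichotomy i j with h | h | h
  · exact Or.inr (Or.inr ⟨j - i, by omega, by omega⟩)
  · exact Or.inl h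
  · exact Or.inr (Or.inl ⟨i - j, by omega, by omega⟩)

theorem diag {a M Z d m g x : ℕ} {acc gs : List ℕ} (ha : 0 < a) (hZ : Z ^ 2 + 3 = a * d)
    (hgs : ∀ g, g ∣ Z → g * g ∣ M → g ∈ gs) (h1 : m * (g * g) = M) (h2 : Z = g * x) :
    d ∈ rec1 a M x m acc gs :=
  rec1_mem ha (hgs g ⟨x, h2⟩ ⟨m, by rw [← h1, Nat.mul_comm]⟩) h1 (h2 ▸ hZ)

theorem tree_mem {a M Z d : ℕ} {gs : List ℕ} (ha : 0 < a) (hZ : Z ^ 2 + 3 = a * d)
    (hgs : ∀ g, g ∣ Z → g * g ∣ M → g ∈ gs) (f : ℕ) :
    ∀ (A B C x1 x2 i j : ℕ) (acc : List ℕ), 1 ≤ i → 1 ≤ j →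
      A * i ^ 2 + B * i * j + C * j ^ 2 = M → Z = i * x1 + j * x2 →
      0 ∈ tree a M gs f A B C x1 x2 acc ∨ d ∈ tree a M gs f A B C x1 x2 acc := by
  induction f with
  | zero => exact fun _ _ _ _ _ _ _ _ _ _ _ _ => Or.inl List.mem_cons_self
  | succ f ih =>
    intro A B C x1 x2 i j acc hi hj h hx
    have h1 : A ≤ A * i ^ 2 := Nat.le_mul_of_pos_right _ (Nat.pow_pos hi)
    have h2 : C ≤ C * j ^ 2 := Nat.le_mul_of_pos_right _ (Nat.pow_pos hj)
    have h3 : B ≤ B * i * j :=
      (Nat.le_mul_of_pos_right _ hi).trans (Nat.le_mul_of_pos_right _ hj)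
    rw [tree_succ, if_pos (by omega)]
    rcases tri i j with rfl | ⟨k, hk, rfl⟩ | ⟨k, hk, rfl⟩
    · exact Or.inr (tree_sub _ _ _ _ _ _ _ (tree_sub _ _ _ _ _ _ _
        (diag (g := i) ha hZ hgs (by rw [← h]; ring) (by rw [hx]; ring))))
    · exact ih _ _ _ _ _ k j _ hk hj (by rw [← h]; ring) (by rw [hx]; ring)
    · exact (ih _ _ _ _ _ i k _ hi hk (by rw [← h]; ring) (by rw [hx]; ring)).imp
        (tree_sub _ _ _ _ _ _ _) (tree_sub _ _ _ _ _ _ _)

theorem river_mem {a M X K Z d : ℕ} {gs : List ℕ} (ha : 0 < a) (hZ : Z ^ 2 + 3 = a * d)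
    (hgs : ∀ g, g ∣ Z → g * g ∣ M → g ∈ gs) (hM : 0 < M) (hX : Z ≤ X) (f : ℕ) :
    ∀ (A B C x1 x2 i j : ℕ) (acc : List ℕ), 1 ≤ i → 1 ≤ j →
      A * i ^ 2 + B * i * j = M + K * i * j + C * j ^ 2 → Z = i * x1 + j * x2 →
      ((B : ℤ) - K) ^ 2 + 4 * A * C ≤ (K : ℤ) ^ 2 →
      0 ∈ river a M X K gs f A B C x1 x2 acc ∨ d ∈ river a M X K gs f A B C x1 x2 acc := by
  induction f with
  | zero => exact fun _ _ _ _ _ _ _ _ _ _ _ _ _ => Or.inl List.mem_cons_self
  | succ f ih =>
    intro A B C x1 x2 i j acc hi hj h hx hD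
    have h1 : x1 ≤ i * x1 := Nat.le_mul_of_pos_left _ hi
    have h2 : x2 ≤ j * x2 := Nat.le_mul_of_pos_left _ hj
    have hz : (A : ℤ) * i ^ 2 + B * i * j = M + K * i * j + C * j ^ 2 := by exact_mod_cast h
    rw [river_succ, if_pos (by omega)]
    split_ifs with hc
    · obtain ⟨m, hm⟩ := Nat.exists_eq_add_of_le hc
      have e1 : A + B - (C + K) = m := by omega
      have hm' : (m : ℤ) = A + B - C - K := by omega
      have hD' : ((B : ℤ) - 2 * C - K) ^ 2 + 4 * m * C ≤ (K : ℤ) ^ 2 := by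
        rw [hm']
        linarith
      have hB : 2 * C ≤ B := by
        by_contra hn
        have k1 : (B : ℤ) - 2 * C ≤ -1 := by omega
        have k2 : (0 : ℤ) ≤ 4 * m * C := by positivity
        have k3 : (0 : ℤ) ≤ K := Int.natCast_nonneg K
        nlinarith
      obtain ⟨B1, hB1⟩ := Nat.exists_eq_add_of_le hB
      obtain ⟨B2, hB2⟩ := Nat.exists_eq_add_of_le (show K ≤ B + 2 * A by omega)
      have e2 : B - 2 * C = B1 := by omega
      have e3 : B + 2 * A - K = B2 := by omega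
      have hB1' : (B1 : ℤ) = B - 2 * C := by omega
      have hB2' : (B2 : ℤ) = B + 2 * A - K := by omega
      rw [e1, e2, e3]
      rcases tri i j with rfl | ⟨k, hk, rfl⟩ | ⟨k, hk, rfl⟩
      · refine Or.inr (river_sub _ _ _ _ _ _ _ (tree_sub _ _ _ _ _ _ _
          (diag (g := i) ha hZ hgs ?_ (by rw [hx]; ring))))
        have : (m : ℤ) * (i * i) = M := by rw [hm']; linarith
        exact_mod_cast this
      · refine (tree_mem ha hZ hgs _ _ _ _ _ _ k j _ hk hj ?_ (by rw [hx]; ring)).imp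
          (river_sub _ _ _ _ _ _ _) (river_sub _ _ _ _ _ _ _)
        have : (A : ℤ) * k ^ 2 + B2 * k * j + m * j ^ 2 = M := by
          rw [hm', hB2']
          push_cast at hz
          linarith
        exact_mod_cast this
      · refine ih _ _ _ _ _ i k _ hi hk ?_ (by rw [hx]; ring) (by rw [hB1']; exact hD')
        have : (m : ℤ) * i ^ 2 + B1 * i * k = M + K * i * k + C * k ^ 2 := by
          rw [hm', hB1']
          push_cast at hz
          linarith
        exact_mod_cast this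
    · obtain ⟨m, hm⟩ := Nat.exists_eq_add_of_le (show A + B ≤ C + K by omega)
      have e1 : C + K - (A + B) = m := by omega
      have hm' : (m : ℤ) = C + K - A - B := by omega
      rw [e1]
      by_cases hij : i ≤ j
      · exfalso
        obtain ⟨k, rfl⟩ := Nat.exists_eq_add_of_le hij
        have k0 : (M : ℤ) + m * i ^ 2 + (m + A + C) * i * k + C * k ^ 2 = 0 := by
          rw [hm']
          push_cast at hz
          linarith
        have k1 : (0 : ℤ) < M + m * i ^ 2 + (m + A + C) * i * k + C * k ^ 2 := by positivity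
        exact k1.ne' k0
      · obtain ⟨k, hk⟩ := Nat.exists_eq_add_of_le (show j ≤ i by omega)
        have hk1 : 1 ≤ k := by omega
        subst hk
        refine ih _ _ _ _ _ k j _ hk1 hj ?_ (by rw [hx]; ring) ?_
        · have : (A : ℤ) * k ^ 2 + (B + 2 * A) * k * j = M + K * k * j + m * j ^ 2 := by
            rw [hm']
            push_cast at hz
            linarith
          exact_mod_cast this
        · rw [hm']
          push_cast
          linarith

/-- the list of `gl`, up to the index `n` -/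
theorem gl_mem (M i : ℕ) (h : M % (2 * i + 1) ^ 2 = 0) (n : ℕ) (hi : i < n) :
    2 * i + 1 ∈ @Nat.rec (fun _ => List ℕ) [] (fun i r =>
      @Bool.rec (fun _ => List ℕ) r (Nat.succ (Nat.mul 2 i) :: r)
        (Nat.beq (Nat.mod M (Nat.pow (Nat.succ (Nat.mul 2 i)) 2)) 0)) n := by
  induction n with
  | zero => omega
  | succ n ih =>
    show _ ∈ @Bool.rec (fun _ => List ℕ) _ _ _
    rw [brec]
    simp only [Nat.beq_eq]
    by_cases e : i = n
    · subst e
      rw [if_pos (show Nat.mod M (Nat.pow (Nat.succ (Nat.mul 2 i)) 2) = 0 from h)]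
      exact List.mem_cons_self
    · split_ifs
      · exact List.mem_cons_of_mem _ (ih (by omega))
      · exact ih (by omega)

end TSR2

theorem sr2 : S_SR2 := by
  intro a b d x y hab hb hx hy hodd hX
  have ha : 0 < a := by
    rcases Nat.eq_zero_or_pos a with rfl | h
    · simp at hx
    · exact h
  have hy1 : 1 ≤ y := by
    rcases Nat.eq_zero_or_pos y with rfl | h
    · have : 0 ^ 2 + 3 = 2 * (b * d) := by rw [hy]; ring
      omega
    · exact h
  obtain ⟨e, rfl⟩ := Nat.exists_eq_add_of_le hab.le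
  rw [Nat.add_sub_cancel_left]
  refine TSR2.river_mem (Z := x) (show 0 < 2 * a by omega) hx (fun g h1 h2 => ?_) (by omega)
    (by omega) _ _ _ _ _ _ y x _ hy1 (by omega) ?_ (by ring) ?_
  · obtain ⟨k, rfl⟩ := h1
    have h3 : g % 2 = 1 := by
      rcases Nat.mod_two_eq_zero_or_one g with h | h
      · rw [Nat.mul_mod, h] at hodd
        simp at hodd
      · exact h
    have h4 : g * g ≤ 3 * e := Nat.le_of_dvd (by omega) h2
    have h5 : g < 222 := by
      by_contra hn
      have : 222 * 222 ≤ g * g := Nat.mul_le_mul (by omega) (by omega)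
      omega
    have h6 : g = 2 * (g / 2) + 1 := by omega
    rw [h6]
    refine TSR2.gl_mem _ _ ?_ 111 (by omega)
    rw [← h6, Nat.pow_two]
    exact Nat.mod_eq_zero_of_dvd h2
  · have k1 : (x : ℤ) ^ 2 + 3 = 2 * a * d := by exact_mod_cast hx
    have k2 : (y : ℤ) ^ 2 + 3 = 2 * (a + e) * d := by exact_mod_cast hy
    have : (a : ℤ) * y ^ 2 + 100000 * y * x = 3 * e + 100000 * y * x + (a + e) * x ^ 2 := by
      have k3 : (a : ℤ) * (y ^ 2 + 3) = (a + e) * (x ^ 2 + 3) := by rw [k1, k2]; ring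
      linarith
    exact_mod_cast this
  · have k1 : a * (a + e) ≤ 16384 * 16384 := Nat.mul_le_mul (by omega) hb
    have k2 : (a : ℤ) * (a + e) ≤ 16384 * 16384 := by exact_mod_cast k1
    push_cast
    linarith

end Pool.Agent.MP_2339ce_nt.DQ.SR
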