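import Pool.Agent.MP_2339ce_nt.DQ.Srch
import Mathlib.Algebra.Order.Ring.Nat
import Mathlib.Algebra.Order.Monoid.Unbundled.Pow
import Mathlib.Data.Nat.ModEq

set_option autoImplicit false

namespace Pool.Agent.MP_2339ce_nt.DQ.SR

theorem rec_and {p r : Bool} (h : @Bool.rec (fun _ => Bool) false r p = true) :
    p = true ∧ r = true := by
  cases p
  · exact Bool.noConfusion (show false = true from h)
  · exact ⟨rfl, h⟩

theorem btw_sq (z s : ℕ) : btw (z ^ 2) s ≠ true := by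
  intro h
  obtain ⟨h1, h2⟩ := rec_and h
  have a1 : s ^ 2 < z ^ 2 := Nat.le_of_ble_eq_true h1
  have a2 : z ^ 2 < (s + 1) ^ 2 := Nat.le_of_ble_eq_true h2
  have b1 : s < z := lt_of_pow_lt_pow_left₀ 2 (Nat.zero_le _) a1
  have b2 : z < s + 1 := lt_of_pow_lt_pow_left₀ 2 (Nat.zero_le _) a2
  omega

theorem sv_sq (z m k : ℕ) (r : Bool) (hm : 0 < m)
    (hk : ∀ i, i < m → Nat.beq (Nat.mod (Nat.shiftRight k (Nat.mod (i ^ 2) m)) 2) 0 = false)
    (h : sv (z ^ 2) m k r = true) : r = true := by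
  have e : Nat.mod (z ^ 2) m = Nat.mod ((z % m) ^ 2) m := Nat.pow_mod z 2 m
  unfold sv at h
  rw [e, hk _ (Nat.mod_lt z hm)] at h
  exact h

theorem hk1 : ∀ i, i < 455 →
    Nat.beq (Nat.mod (Nat.shiftRight k1 (Nat.mod (i ^ 2) 455)) 2) 0 = false := by decide +kernel

theorem hk2 : ∀ i, i < 187 →
    Nat.beq (Nat.mod (Nat.shiftRight k2 (Nat.mod (i ^ 2) 187)) 2) 0 = false := by decide +kernel

theorem hk3 : ∀ i, i < 437 →
    Nat.beq (Nat.mod (Nat.shiftRight k3 (Nat.mod (i ^ 2) 437)) 2) 0 = false := by decide +kernel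

theorem hk4 : ∀ i, i < 899 →
    Nat.beq (Nat.mod (Nat.shiftRight k4 (Nat.mod (i ^ 2) 899)) 2) 0 = false := by decide +kernel

theorem nsq_sq (z : ℕ) : nsq (z ^ 2) ≠ true := fun h =>
  btw_sq z _ (sv_sq z _ _ _ (by decide) hk4 (sv_sq z _ _ _ (by decide) hk3
    (sv_sq z _ _ _ (by decide) hk2 (sv_sq z _ _ _ (by decide) hk1 h))))

theorem all_rec (P : ℕ → Bool) (L : List ℕ)
    (h : @List.rec ℕ (fun _ => Bool) true
      (fun c _ r => @Bool.rec (fun _ => Bool) false r (P c)) L = true) :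
    ∀ c ∈ L, P c = true := by
  induction L with
  | nil => intro c hc; cases hc
  | cons a L ih =>
    obtain ⟨h1, h2⟩ := rec_and h
    intro c hc
    rcases List.mem_cons.1 hc with e | hc
    · exact e ▸ h1
    · exact ih h2 c hc

theorem ble_false {a b : ℕ} (h : b < a) : Nat.ble a b = false := by
  cases e : Nat.ble a b
  · rfl
  · exact absurd (Nat.le_of_ble_eq_true e) (by omega)

theorem sr3 : S_SR3 := by
  intro b c d z L h
  have H := all_rec
    (fun c => @Bool.rec (fun _ => Bool) (in2 c L) (Nat.ble 1 c) (Nat.ble c b)) L h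
  refine ⟨fun h0 => ?_, fun hc hd hbc hcd e => ?_⟩
  · have h1 := H 0 h0
    rw [show Nat.ble 0 b = true from Nat.ble_eq_true_of_le (Nat.zero_le b)] at h1
    exact Bool.noConfusion (show false = true from h1)
  · have h1 := H c hc
    rw [ble_false hbc] at h1
    have h2 := all_rec (fun d =>
      @Bool.rec (fun _ => Bool) (nsq (Nat.sub (Nat.mul c d) 3)) true (Nat.ble d c)) L h1 d hd
    rw [ble_false hcd] at h2
    have e' : Nat.sub (Nat.mul c d) 3 = z ^ 2 := by
      show c * d - 3 = z ^ 2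
      omega
    rw [e'] at h2
    exact nsq_sq z h2

end Pool.Agent.MP_2339ce_nt.DQ.SR
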