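import Pool.Agent.MP_2339ce_nt.DQ.Srch

/-! Project DQ3: the search, part 2. -/

set_option autoImplicit false
set_option maxRecDepth 100000

namespace Pool.Agent.MP_2339ce_nt.DQ.SR

theorem run2 :
    pairs 2902 3241 20000 1 1 1 = true ∧
    pairs 3242 3607 20000 1 1 1 = true ∧
    pairs 3608 3981 20000 1 1 1 = true ∧
    pairs 3982 4291 20000 1 1 1 = true ∧
    pairs 4292 4681 20000 1 1 1 = true ∧
    pairs 4682 4971 20000 1 1 1 = true ∧
    pairs 4972 5331 20000 1 1 1 = true ∧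
    pairs 5332 5683 20000 1 1 1 = true := by
  refine ⟨?_, ?_, ?_, ?_, ?_, ?_, ?_, ?_⟩ <;> decide +kernel

end Pool.Agent.MP_2339ce_nt.DQ.SR
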