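import Pool.Agent.MP_2339ce_nt.DQ.Srch

/-! Project DQ3: the search, part 3. -/

set_option autoImplicit false
set_option maxRecDepth 100000

namespace Pool.Agent.MP_2339ce_nt.DQ.SR

theorem run3 :
    pairs 5684 6007 20000 1 1 1 = true ∧
    pairs 6008 6373 20000 1 1 1 = true ∧
    pairs 6374 6679 20000 1 1 1 = true ∧
    pairs 6680 7039 20000 1 1 1 = true ∧
    pairs 7040 7357 20000 1 1 1 = true ∧
    pairs 7358 7681 20000 1 1 1 = true ∧
    pairs 7682 8017 20000 1 1 1 = true ∧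
    pairs 8018 8337 20000 1 1 1 = true := by
  refine ⟨?_, ?_, ?_, ?_, ?_, ?_, ?_, ?_⟩ <;> decide +kernel

end Pool.Agent.MP_2339ce_nt.DQ.SR
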