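import Pool.Agent.MP_2339ce_nt.DQ.Srch

/-! Project DQ3: the search, part 4. -/

set_option autoImplicit false
set_option maxRecDepth 100000

namespace Pool.Agent.MP_2339ce_nt.DQ.SR

theorem run4 :
    pairs 8338 8683 20000 1 1 1 = true ∧
    pairs 8684 8949 20000 1 1 1 = true ∧
    pairs 8950 9313 20000 1 1 1 = true ∧
    pairs 9314 9703 20000 1 1 1 = true ∧
    pairs 9704 9993 20000 1 1 1 = true ∧
    pairs 9994 10363 20000 1 1 1 = true ∧
    pairs 10364 10713 20000 1 1 1 = true ∧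
    pairs 10714 11053 20000 1 1 1 = true := by
  refine ⟨?_, ?_, ?_, ?_, ?_, ?_, ?_, ?_⟩ <;> decide +kernel

end Pool.Agent.MP_2339ce_nt.DQ.SR
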