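import Pool.Agent.MP_2339ce_nt.DQ.Srch

/-! Project DQ3: the search, part 5. -/

set_option autoImplicit false
set_option maxRecDepth 100000

namespace Pool.Agent.MP_2339ce_nt.DQ.SR

theorem run5 :
    pairs 11054 11401 20000 1 1 1 = true ∧
    pairs 11402 11773 20000 1 1 1 = true ∧
    pairs 11774 12099 20000 1 1 1 = true ∧
    pairs 12100 12439 20000 1 1 1 = true ∧
    pairs 12440 12787 20000 1 1 1 = true ∧
    pairs 12788 13111 20000 1 1 1 = true ∧
    pairs 13112 13441 20000 1 1 1 = true ∧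
    pairs 13442 13807 20000 1 1 1 = true := by
  refine ⟨?_, ?_, ?_, ?_, ?_, ?_, ?_, ?_⟩ <;> decide +kernel

end Pool.Agent.MP_2339ce_nt.DQ.SR
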