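import Pool.Agent.MP_2339ce_nt.DQ.Srch

/-! Project DQ3: the search, part 6. -/

set_option autoImplicit false
set_option maxRecDepth 100000

namespace Pool.Agent.MP_2339ce_nt.DQ.SR

theorem run6 :
    pairs 13808 14079 20000 1 1 1 = true ∧
    pairs 14080 14491 20000 1 1 1 = true ∧
    pairs 14492 14763 20000 1 1 1 = true ∧
    pairs 14764 15007 20000 1 1 1 = true ∧
    pairs 15008 15337 20000 1 1 1 = true ∧
    pairs 15338 15739 20000 1 1 1 = true ∧
    pairs 15740 16060 20000 1 1 1 = true ∧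
    pairs 16061 16384 20000 1 1 1 = true := by
  refine ⟨?_, ?_, ?_, ?_, ?_, ?_, ?_, ?_⟩ <;> decide +kernel

end Pool.Agent.MP_2339ce_nt.DQ.SR
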