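import Pool.Agent.MP_2339ce_nt.DQ.TK1
import Pool.Agent.MP_2339ce_nt.DQ.TK2
import Pool.Agent.MP_2339ce_nt.DQ.TK3
import Pool.Agent.MP_2339ce_nt.DQ.TK4
import Pool.Agent.MP_2339ce_nt.DQ.TK5
import Pool.Agent.MP_2339ce_nt.DQ.TK6

/-! Project DQ3: the search, all parts. -/

set_option autoImplicit false

namespace Pool.Agent.MP_2339ce_nt.DQ.SR

theorem sr4 (h : S_SR1) : S_SR4 := by
  intro a b r h1 h2 h3
  obtain ⟨u0, u1, u2, u3, u4, u5, u6, u7⟩ := run1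
  obtain ⟨u8, u9, u10, u11, u12, u13, u14, u15⟩ := run2
  obtain ⟨u16, u17, u18, u19, u20, u21, u22, u23⟩ := run3
  obtain ⟨u24, u25, u26, u27, u28, u29, u30, u31⟩ := run4
  obtain ⟨u32, u33, u34, u35, u36, u37, u38, u39⟩ := run5
  obtain ⟨u40, u41, u42, u43, u44, u45, u46, u47⟩ := run6
  rcases (Nat.lt_or_ge 343 b).symm with k0 | k0
  · exact h _ _ _ a b r u0 h1 h2 (Nat.zero_le _) k0
  rcases (Nat.lt_or_ge 703 b).symm with k1 | k1
  · exact h _ _ _ a b r u1 h1 h2 k0 k1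
  rcases (Nat.lt_or_ge 1099 b).symm with k2 | k2
  · exact h _ _ _ a b r u2 h1 h2 k1 k2
  rcases (Nat.lt_or_ge 1459 b).symm with k3 | k3
  · exact h _ _ _ a b r u3 h1 h2 k2 k3
  rcases (Nat.lt_or_ge 1807 b).symm with k4 | k4
  · exact h _ _ _ a b r u4 h1 h2 k3 k4
  rcases (Nat.lt_or_ge 2181 b).symm with k5 | k5
  · exact h _ _ _ a b r u5 h1 h2 k4 k5
  rcases (Nat.lt_or_ge 2569 b).symm with k6 | k6
  · exact h _ _ _ a b r u6 h1 h2 k5 k6
  rcases (Nat.lt_or_ge 2901 b).symm with k7 | k7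
  · exact h _ _ _ a b r u7 h1 h2 k6 k7
  rcases (Nat.lt_or_ge 3241 b).symm with k8 | k8
  · exact h _ _ _ a b r u8 h1 h2 k7 k8
  rcases (Nat.lt_or_ge 3607 b).symm with k9 | k9
  · exact h _ _ _ a b r u9 h1 h2 k8 k9
  rcases (Nat.lt_or_ge 3981 b).symm with k10 | k10
  · exact h _ _ _ a b r u10 h1 h2 k9 k10
  rcases (Nat.lt_or_ge 4291 b).symm with k11 | k11
  · exact h _ _ _ a b r u11 h1 h2 k10 k11
  rcases (Nat.lt_or_ge 4681 b).symm with k12 | k12
  · exact h _ _ _ a b r u12 h1 h2 k11 k12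
  rcases (Nat.lt_or_ge 4971 b).symm with k13 | k13
  · exact h _ _ _ a b r u13 h1 h2 k12 k13
  rcases (Nat.lt_or_ge 5331 b).symm with k14 | k14
  · exact h _ _ _ a b r u14 h1 h2 k13 k14
  rcases (Nat.lt_or_ge 5683 b).symm with k15 | k15
  · exact h _ _ _ a b r u15 h1 h2 k14 k15
  rcases (Nat.lt_or_ge 6007 b).symm with k16 | k16
  · exact h _ _ _ a b r u16 h1 h2 k15 k16
  rcases (Nat.lt_or_ge 6373 b).symm with k17 | k17
  · exact h _ _ _ a b r u17 h1 h2 k16 k17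
  rcases (Nat.lt_or_ge 6679 b).symm with k18 | k18
  · exact h _ _ _ a b r u18 h1 h2 k17 k18
  rcases (Nat.lt_or_ge 7039 b).symm with k19 | k19
  · exact h _ _ _ a b r u19 h1 h2 k18 k19
  rcases (Nat.lt_or_ge 7357 b).symm with k20 | k20
  · exact h _ _ _ a b r u20 h1 h2 k19 k20
  rcases (Nat.lt_or_ge 7681 b).symm with k21 | k21
  · exact h _ _ _ a b r u21 h1 h2 k20 k21
  rcases (Nat.lt_or_ge 8017 b).symm with k22 | k22
  · exact h _ _ _ a b r u22 h1 h2 k21 k22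
  rcases (Nat.lt_or_ge 8337 b).symm with k23 | k23
  · exact h _ _ _ a b r u23 h1 h2 k22 k23
  rcases (Nat.lt_or_ge 8683 b).symm with k24 | k24
  · exact h _ _ _ a b r u24 h1 h2 k23 k24
  rcases (Nat.lt_or_ge 8949 b).symm with k25 | k25
  · exact h _ _ _ a b r u25 h1 h2 k24 k25
  rcases (Nat.lt_or_ge 9313 b).symm with k26 | k26
  · exact h _ _ _ a b r u26 h1 h2 k25 k26
  rcases (Nat.lt_or_ge 9703 b).symm with k27 | k27
  · exact h _ _ _ a b r u27 h1 h2 k26 k27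
  rcases (Nat.lt_or_ge 9993 b).symm with k28 | k28
  · exact h _ _ _ a b r u28 h1 h2 k27 k28
  rcases (Nat.lt_or_ge 10363 b).symm with k29 | k29
  · exact h _ _ _ a b r u29 h1 h2 k28 k29
  rcases (Nat.lt_or_ge 10713 b).symm with k30 | k30
  · exact h _ _ _ a b r u30 h1 h2 k29 k30
  rcases (Nat.lt_or_ge 11053 b).symm with k31 | k31
  · exact h _ _ _ a b r u31 h1 h2 k30 k31
  rcases (Nat.lt_or_ge 11401 b).symm with k32 | k32
  · exact h _ _ _ a b r u32 h1 h2 k31 k32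
  rcases (Nat.lt_or_ge 11773 b).symm with k33 | k33
  · exact h _ _ _ a b r u33 h1 h2 k32 k33
  rcases (Nat.lt_or_ge 12099 b).symm with k34 | k34
  · exact h _ _ _ a b r u34 h1 h2 k33 k34
  rcases (Nat.lt_or_ge 12439 b).symm with k35 | k35
  · exact h _ _ _ a b r u35 h1 h2 k34 k35
  rcases (Nat.lt_or_ge 12787 b).symm with k36 | k36
  · exact h _ _ _ a b r u36 h1 h2 k35 k36
  rcases (Nat.lt_or_ge 13111 b).symm with k37 | k37
  · exact h _ _ _ a b r u37 h1 h2 k36 k37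
  rcases (Nat.lt_or_ge 13441 b).symm with k38 | k38
  · exact h _ _ _ a b r u38 h1 h2 k37 k38
  rcases (Nat.lt_or_ge 13807 b).symm with k39 | k39
  · exact h _ _ _ a b r u39 h1 h2 k38 k39
  rcases (Nat.lt_or_ge 14079 b).symm with k40 | k40
  · exact h _ _ _ a b r u40 h1 h2 k39 k40
  rcases (Nat.lt_or_ge 14491 b).symm with k41 | k41
  · exact h _ _ _ a b r u41 h1 h2 k40 k41
  rcases (Nat.lt_or_ge 14763 b).symm with k42 | k42
  · exact h _ _ _ a b r u42 h1 h2 k41 k42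
  rcases (Nat.lt_or_ge 15007 b).symm with k43 | k43
  · exact h _ _ _ a b r u43 h1 h2 k42 k43
  rcases (Nat.lt_or_ge 15337 b).symm with k44 | k44
  · exact h _ _ _ a b r u44 h1 h2 k43 k44
  rcases (Nat.lt_or_ge 15739 b).symm with k45 | k45
  · exact h _ _ _ a b r u45 h1 h2 k44 k45
  rcases (Nat.lt_or_ge 16060 b).symm with k46 | k46
  · exact h _ _ _ a b r u46 h1 h2 k45 k46
  exact h _ _ _ a b r u47 h1 h2 k46 h3

end Pool.Agent.MP_2339ce_nt.DQ.SR
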