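import Pool.Agent.MP_2339ce_nt.DQ.Spec3
import Pool.Agent.MP_2339ce_nt.DQ.Q4

/-! Project DQ3: the binomial constant as a rational number, and the windows of the tail. -/

set_option autoImplicit false

namespace Pool.Agent.MP_2339ce_nt.DQ

theorem be3 : S_BE := by
  intro ρ σ
  induction σ with
  | zero => simp [be, beQ]
  | succ σ ih =>
    have e := Main.ch_succ ((ρ : ℝ) + 1 / 2) σ
    have h : (σ : ℝ) + 1 ≠ 0 := by positivity
    have e2 : Ring.choose ((ρ : ℝ) + 1 / 2) (σ + 1) =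
        Ring.choose ((ρ : ℝ) + 1 / 2) σ * (((ρ : ℝ) + 1 / 2 - σ) / (σ + 1)) := by
      rw [← mul_div_assoc, eq_div_iff h, e]
    unfold be at ih ⊢
    rw [beQ, Finset.prod_range_succ, ← beQ, e2, abs_mul, ih]
    push_cast
    rfl

namespace TTAIL

theorem beQ_nn (ρ σ : ℕ) : 0 ≤ beQ ρ σ := Finset.prod_nonneg fun _ _ => abs_nonneg _

theorem beQ_le {ρ σ : ℕ} (h : ρ + 1 ≤ σ) : beQ ρ σ ≤ 1 := by
  have h1 := (Main.cc_base h).2
  rw [← Main.be_eq h, be3] at h1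
  exact_mod_cast h1

theorem ep_le (i : ℕ) : ep (2 * i + 1) (2 * i + 2) (2 * i + 2) (6 * i + 3) ≤ 7 * (5 : ℚ) ^ i := by
  have hc : (((2 * i + 1 + (2 * i + 2) - 1).choose (2 * i + 1) : ℕ) : ℚ) ≤ 2 ^ (4 * i + 2) := by
    rw [show 2 * i + 1 + (2 * i + 2) - 1 = 4 * i + 2 by omega]
    exact_mod_cast Nat.choose_le_two_pow _ _
  have h1 : ((1001 / 1000 : ℚ) ^ 6 * 4 ^ 2 * 2 ^ 4 / 2 ^ 6) ^ i ≤ 5 ^ i :=
    pow_le_pow_left₀ (by positivity) (by norm_num) i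
  unfold ep
  calc _ ≤ (1001 / 1000 : ℚ) ^ (2 * i + 1 + (2 * i + 2) + (2 * i + 2)) * 3 * 4 ^ (2 * i + 1) *
        2 ^ (4 * i + 2) / 2 ^ (6 * i + 3) := by gcongr
    _ = ((1001 / 1000 : ℚ) ^ 5 * 6) * ((1001 / 1000 : ℚ) ^ 6 * 4 ^ 2 * 2 ^ 4 / 2 ^ 6) ^ i := by
        rw [show 2 * i + 1 + (2 * i + 2) + (2 * i + 2) = 6 * i + 5 by ring]
        simp only [pow_add, pow_mul, div_pow, mul_pow]
        field_simp
        ring
    _ ≤ 7 * 5 ^ i := mul_le_mul (by norm_num) h1 (by positivity) (by norm_num)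

theorem mu_le (i : ℕ) :
    mu (2 * i + 1) (2 * i + 2) (2 * i + 2) (6 * i + 3) ≤ 123 * (184 : ℚ) ^ i := by
  have hb := beQ_le (ρ := 2 * i + 1) (σ := 2 * i + 1 + (2 * i + 2) + (2 * i + 2)) (by omega)
  have h1 : ((1001 / 1000 : ℚ) ^ 6 * 4 ^ 2 * 3 ^ 6 / 2 ^ 6) ^ i ≤ 184 ^ i :=
    pow_le_pow_left₀ (by positivity) (by norm_num) i
  unfold mu
  calc _ ≤ (1001 / 1000 : ℚ) ^ (2 * i + 1 + (2 * i + 2) + (2 * i + 2)) * 4 ^ (2 * i + 1) *
        3 ^ (2 * i + 1 + (2 * i + 2) + (2 * i + 2)) * 1 / 2 ^ (6 * i + 3) := by gcongr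
    _ = ((1001 / 1000 : ℚ) ^ 5 * 4 * 243 / 8) *
        ((1001 / 1000 : ℚ) ^ 6 * 4 ^ 2 * 3 ^ 6 / 2 ^ 6) ^ i := by
        rw [show 2 * i + 1 + (2 * i + 2) + (2 * i + 2) = 6 * i + 5 by ring]
        simp only [pow_add, pow_mul, div_pow, mul_pow]
        field_simp
        ring
    _ ≤ 123 * 184 ^ i := mul_le_mul (by norm_num) h1 (by positivity) (by norm_num)

end TTAIL

open TTAIL in
theorem tail3 : S_TAIL := by
  intro i
  refine ⟨⟨⟨by omega, by omega, by omega, by omega⟩, by omega, by omega, by omega, by omega⟩, ?_, ?_⟩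
  · have h0 : 0 ≤ ep (2 * i + 1) (2 * i + 2) (2 * i + 2) (6 * i + 3) := by unfold ep; positivity
    have h1 : ((5 : ℚ) ^ 2) ^ i ≤ (2 ^ 5) ^ i := pow_le_pow_left₀ (by positivity) (by norm_num) i
    calc _ ≤ 4 * (7 * (5 : ℚ) ^ i) ^ 2 := by have := ep_le i; gcongr
      _ = 196 * (5 ^ 2) ^ i := by rw [mul_pow, ← pow_mul, ← pow_mul, mul_comm i]; ring
      _ ≤ 2 ^ 9 * (2 ^ 5) ^ i := mul_le_mul (by norm_num) h1 (by positivity) (by norm_num)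
      _ = _ := by rw [pow_add, pow_mul, mul_comm]
  · have h0 : 0 ≤ mu (2 * i + 1) (2 * i + 2) (2 * i + 2) (6 * i + 3) := by
      have := beQ_nn (2 * i + 1) (2 * i + 1 + (2 * i + 2) + (2 * i + 2))
      unfold mu; positivity
    have h1 : ((184 : ℚ) ^ 2) ^ i ≤ (2 ^ 16) ^ i := pow_le_pow_left₀ (by positivity) (by norm_num) i
    calc _ ≤ 4 * (123 * (184 : ℚ) ^ i) ^ 2 := by have := mu_le i; gcongr
      _ = 60516 * (184 ^ 2) ^ i := by rw [mul_pow, ← pow_mul, ← pow_mul, mul_comm i]; ring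
      _ ≤ 2 ^ 20 * (2 ^ 16) ^ i := mul_le_mul (by norm_num) h1 (by positivity) (by norm_num)
      _ = _ := by rw [pow_add, pow_mul, mul_comm]

end Pool.Agent.MP_2339ce_nt.DQ
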