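import Pool.Agent.MP_2339ce_nt.DQ.Spec3

/-! Project DQ3, row TR3: the gap for the third element of a `D(-3)`-triple. -/

set_option autoImplicit false

namespace Pool.Agent.MP_2339ce_nt.DQ

namespace TTR3

theorem odd_of_sq {r m : ℤ} (h : r ^ 2 = 2 * m - 3) : Odd r := by
  rcases Int.even_or_odd r with ⟨k, rfl⟩ | h1
  · exfalso
    have : (k + k) ^ 2 = 2 * (2 * k ^ 2) := by ring
    omega
  · exact h1

theorem pos_of {u v k : ℤ} (hv : 0 ≤ v) (hk : 0 < k) (h : u * v = k) : 0 < u := by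
  by_contra hc
  push Not at hc
  nlinarith [mul_nonneg (neg_nonneg.2 hc) hv]

theorem four_dvd {a e x : ℤ} (ha : a % 4 = 2) (hx : Odd x) (h : x ^ 2 = a * e + 9) :
    e % 4 = 0 := by
  obtain ⟨k, rfl⟩ := hx
  obtain ⟨j, hj⟩ := Int.even_mul_succ_self k
  obtain ⟨m, rfl⟩ : ∃ m, a = 4 * m + 2 := ⟨a / 4, by omega⟩
  have h1 : (2 * m + 1) * e = 4 * (j - 1) := by nlinarith
  have h2 : IsCoprime (4 : ℤ) (2 * m + 1) := ⟨-(m ^ 2 + m), 2 * m + 1, by ring⟩
  have h3 : (4 : ℤ) ∣ e := h2.dvd_of_dvd_mul_left ⟨j - 1, h1⟩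
  omega

theorem core {a b c r s t : ℤ} (a0 : 0 < a) (ab : a < b) (bc : b < c) (r0 : 0 ≤ r) (s0 : 0 ≤ s)
    (t0 : 0 ≤ t) (hr : r ^ 2 = a * b - 3) (hs : s ^ 2 = a * c - 3) (ht : t ^ 2 = b * c - 3)
    (ha : a % 4 = 2) (hb : 1000 ≤ b) :
    17 * a * b ≤ 10 * c ∨ ((c - b) ^ 2 ≤ 9 * a * b ∧ c ≤ 4 * b) := by
  obtain ⟨x, hx⟩ : ∃ x, x = a * t - r * s := ⟨_, rfl⟩
  obtain ⟨y, hy⟩ : ∃ y, y = b * s - r * t := ⟨_, rfl⟩
  obtain ⟨e, he⟩ : ∃ e, e = 2 * a * b * c - 2 * r * s * t - 3 * (a + b + c) := ⟨_, rfl⟩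
  have b0 : 0 < b := a0.trans ab
  have hx2 : x ^ 2 = a * e + 9 := by
    rw [hx, he]; linear_combination a ^ 2 * ht + s ^ 2 * hr + (a * b - 3) * hs
  have hy2 : y ^ 2 = b * e + 9 := by
    rw [hy, he]; linear_combination b ^ 2 * hs + t ^ 2 * hr + (a * b - 3) * ht
  have x0 : 0 < x := by
    refine pos_of (v := a * t + r * s) (k := 3 * (a * (b + c - a) - 3)) (by positivity)
      (by nlinarith) ?_
    rw [hx]; linear_combination a ^ 2 * ht - s ^ 2 * hr - (a * b - 3) * hs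
  have y0 : 0 < y := by
    refine pos_of (v := b * s + r * t) (k := 3 * (b * (a + c - b) - 3)) (by positivity)
      (by nlinarith) ?_
    rw [hy]; linear_combination b ^ 2 * hs - t ^ 2 * hr - (a * b - 3) * ht
  have key : 9 * c = 9 * (a + b) - 3 * e + 2 * (a * b * e + r * x * y) := by
    rw [hx, hy, he]
    linear_combination (2 * (a * t ^ 2 + b * s ^ 2) - 2 * r * s * t) * hr +
      2 * (a * b - 3) * a * ht + 2 * (a * b - 3) * b * hs
  have hab : 2000 ≤ a * b := by nlinarith [show 2 ≤ a by omega]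
  rcases lt_trichotomy e 0 with h | h | h
  · exfalso; nlinarith [sq_nonneg y]
  · right
    subst h
    have hx3 : x = 3 := by nlinarith
    have hy3 : y = 3 := by nlinarith
    have hc : c = a + b + 2 * r := by rw [hx3, hy3] at key; linarith
    have hrb : r ≤ b := by nlinarith
    refine ⟨?_, by linarith⟩
    have : c - b = a + 2 * r := by linarith
    rw [this]
    nlinarith [sq_nonneg (a - r)]
  · left
    obtain ⟨m, hm⟩ : ∃ m, a = 2 * m := ⟨a / 2, by omega⟩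
    have ro : Odd r := odd_of_sq (m := m * b) (by rw [hr, hm]; ring)
    have so : Odd s := odd_of_sq (m := m * c) (by rw [hs, hm]; ring)
    have xo : Odd x := by
      rw [hx]
      exact Even.sub_odd ⟨m * t, by rw [hm]; ring⟩ (ro.mul so)
    have e4 : 4 ≤ e := by have := four_dvd ha xo hx2; omega
    have h1 : (a * b - 3) * e ≤ r * x * y := by
      refine (pow_le_pow_iff_left₀ (mul_nonneg (by linarith) h.le)
        (mul_nonneg (mul_nonneg r0 x0.le) y0.le) two_ne_zero).1 ?_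
      have h2 : (r * x * y) ^ 2 = (a * b - 3) * ((a * e + 9) * (b * e + 9)) := by
        rw [mul_pow, mul_pow, hr, hx2, hy2]; ring
      have h3 : (a * b - 3) * e ^ 2 ≤ (a * e + 9) * (b * e + 9) := by
        have h4 : (a * e + 9) * (b * e + 9) - (a * b - 3) * e ^ 2 =
            9 * (a * e) + 9 * (b * e) + 81 + 3 * e ^ 2 := by ring
        linarith [mul_pos a0 h, mul_pos b0 h, sq_nonneg e]
      rw [h2, mul_pow, sq (a * b - 3), mul_assoc]
      exact mul_le_mul_of_nonneg_left h3 (by linarith)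
    have h5 := mul_le_mul_of_nonneg_left e4 (show 0 ≤ 4 * (a * b) - 9 by linarith)
    have h6 : (4 * (a * b) - 9) * e = 2 * (a * b * e + (a * b - 3) * e) - 3 * e := by ring
    have h7 : 17 * a * b = 17 * (a * b) := by ring
    linarith

end TTR3

theorem tr3 : S_TR3 := fun T ha _ _ hb =>
  TTR3.core T.a0 T.ab T.bc T.r0 T.s0 T.t0 T.hr T.hs T.ht ha hb

end Pool.Agent.MP_2339ce_nt.DQ
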