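import Pool.Agent.MP_2339ce_nt.DQ.Spec3
import Pool.Agent.MP_2339ce_nt.DQ.BD
import Pool.Agent.MP_2339ce_nt.DQ.Q4

/-! Project DQ3: the sharp windows. -/

set_option autoImplicit false

namespace Pool.Agent.MP_2339ce_nt.DQ

open Real

namespace TWIN

theorem int_w (h1 : S_INT3) {ρ kp kq s : ℕ} {p q d e : ℤ} (a : Sv ρ kp kq s) (c : Cf3 p q d e) :
    ∃ i : ℤ, √((d : ℝ) * e) * (sc3 ρ kp kq s p q d * ww ρ kp kq p q d e (-3) (-3) (-3)) = i := by
  have q0 : 0 < q := c.p0.trans c.pq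
  have hd : 0 < d := q0.trans c.qd
  obtain ⟨⟨i1, e1⟩, ⟨i2, e2⟩, ⟨i3, e3⟩⟩ := h1 ρ kp kq s p q d a c.p0 c.pq hd c.p4 c.q4
  have p1 : (0 : ℝ) < p := by exact_mod_cast c.p0
  have q1 : (0 : ℝ) < q := by exact_mod_cast q0
  have d1 : (0 : ℝ) < d := by exact_mod_cast hd
  have e0 : (0 : ℝ) < e := by exact_mod_cast hd.trans_le c.de
  obtain ⟨z0, f0⟩ := DICH.sq_int c.sq
  obtain ⟨z1, f1⟩ := DICH.sq_int c.se
  obtain ⟨z2, f2⟩ := DICH.sq_int c.sd
  obtain ⟨z3, f3⟩ := DICH.sq_int c.pe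
  obtain ⟨z4, f4⟩ := DICH.sq_int c.pd
  push_cast at f0 f1 f2 f3 f4
  have g0 := DICH.one (n := -3) (mul_pos d1 e0)
  have g1 := DICH.two (n := -3) q1 d1 e0
  have g2 := DICH.two (n := -3) p1 d1 e0
  rw [f0] at g0
  rw [f1, f2] at g1
  rw [f3, f4] at g2
  refine ⟨z0 * i1 + z1 * z2 * i2 + z3 * z4 * i3, ?_⟩
  push_cast
  rw [← e1, ← e2, ← e3, ← g0, ww, SS, zero_mul, add_zero, sqrt_one]
  linear_combination
    (sc3 ρ kp kq s p q d * rs ρ (1 / d) (-3 / q) 0 (-3 / p) kq (ρ + 1) kp) * g1 +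
    (sc3 ρ kp kq s p q d * rs ρ (1 / d) (-3 / p) 0 (-3 / q) kp (ρ + 1) kq) * g2

theorem sqr {t c A B M : ℝ} (ht : 0 < t) (hB : 0 < B) (h : 1 / 2 ≤ √t * (c * A / B))
    (hc : 4 * c ^ 2 ≤ M) : B ^ 2 ≤ M * (t * A ^ 2) := by
  have h1 : B ≤ 2 * (√t * (c * A)) := by
    rw [← mul_div_assoc, le_div_iff₀ hB] at h
    linarith
  have h2 := pow_le_pow_left₀ hB.le h1 2
  rw [mul_pow, mul_pow, mul_pow, sq_sqrt ht.le] at h2
  have := mul_le_mul_of_nonneg_right hc (show 0 ≤ t * A ^ 2 by positivity)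
  linarith

theorem lg_le {a b : ℤ} (h0 : 0 < a) (h : a ≤ b) : lg a ≤ lg b :=
  logb_le_logb_of_le one_lt_two (by exact_mod_cast h0) (by exact_mod_cast h)

theorem ok : Ok 2 3 3 6 7 5 where
  p1 := by omega
  p2 := by omega
  q1 := by omega
  q2 := by omega
  k2 := by omega
  s1 := by omega
  s2 := by omega
  s3 := by omega
  h1 := by norm_num [ep, Nat.choose]
  h2 := by norm_num [mu, beQ, Finset.prod_range_succ]

end TWIN

theorem win3 (h1 : S_INT3) (h2 : S_SIZE3) : S_WIN := by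
  intro ρ kp kq s m1 m2 p q d e a c hw
  obtain ⟨i, hi⟩ := TWIN.int_w h1 a.toSv c
  have p0 : (1 : ℝ) ≤ p := by exact_mod_cast c.p0
  have p1 : (0 : ℝ) < p := by linarith
  have pq : (p : ℝ) < q := by exact_mod_cast c.pq
  have qd : (q : ℝ) < d := by exact_mod_cast c.qd
  have de : (d : ℝ) ≤ e := by exact_mod_cast c.de
  have q1 : (0 : ℝ) < q := by linarith
  have d1 : (0 : ℝ) < d := by linarith
  have e0 : (0 : ℝ) < e := by linarith
  have δ0 : (0 : ℝ) < q - p := by linarith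
  have t0 : (0 : ℝ) < d * e := mul_pos d1 e0
  have r0 : 0 < √((d : ℝ) * e) := sqrt_pos.2 t0
  have s0 : sc3 ρ kp kq s p q d ≠ 0 := by
    unfold sc3
    positivity
  have i0 : i ≠ 0 := by
    rintro rfl
    exact mul_ne_zero r0.ne' (mul_ne_zero s0 hw) (by simpa using hi)
  have i1 : (1 : ℝ) ≤ |(i : ℝ)| := by exact_mod_cast Int.one_le_abs i0
  rw [← hi, abs_mul, abs_of_pos r0] at i1
  have key := i1.trans (mul_le_mul_of_nonneg_left
    (h2 ρ kp kq s p q d e a.toSv p0 pq qd de (by exact_mod_cast c.big)) r0.le)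
  have c1 : 4 * ((ep ρ kp kq s : ℚ) : ℝ) ^ 2 ≤ 2 ^ m1 := by exact_mod_cast a.h1
  have c2 : 4 * ((mu ρ kp kq s : ℚ) : ℝ) ^ 2 ≤ 2 ^ m2 := by exact_mod_cast a.h2
  generalize ((ep ρ kp kq s : ℚ) : ℝ) = x at key c1
  generalize ((mu ρ kp kq s : ℚ) : ℝ) = y at key c2
  obtain ⟨kp, rfl⟩ := Nat.exists_eq_add_of_le' a.p1
  obtain ⟨kq, rfl⟩ := Nat.exists_eq_add_of_le' a.k2
  rw [show kp + 1 + (kq + 2) - 1 = kp + kq + 2 by omega,
    show ρ + (kp + 1) + (kq + 2) - 3 = ρ + kp + kq by omega] at key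
  have l2 : logb 2 (2 : ℝ) = 1 := logb_self_eq_one one_lt_two
  unfold D3 lg
  by_cases hc : (1 / 2 : ℝ) ≤ √((d : ℝ) * e) * (x * (d ^ ρ * (q - p) * q ^ (ρ + kp + kq)) / e)
  · left
    have := logb_le_logb_of_le one_lt_two (by positivity) (TWIN.sqr t0 e0 hc c1)
    rw [logb_mul (by positivity) (by positivity), logb_mul (by positivity) (by positivity),
      logb_mul d1.ne' e0.ne', logb_pow, logb_pow, logb_pow,
      logb_mul (by positivity) (by positivity), logb_mul (by positivity) δ0.ne', logb_pow,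
      logb_pow, l2] at this
    push_cast at this ⊢
    linarith
  · right
    have hc' : (1 / 2 : ℝ) ≤ √((d : ℝ) * e) * (y * (d ^ ρ * (q - p) ^ (kp + kq + 2)) /
        (p ^ (kp + 1) * q ^ (kq + 2) * d ^ (ρ + (kp + 1) + (kq + 2)))) := by
      have e1 : ∀ r u v w B D : ℝ, r * (D * (y * u / B + x * v * w / e)) =
          r * (y * (D * u) / B) + r * (x * (D * v * w) / e) := by
        intros
        ring
      rw [e1] at key
      linarith
    have := logb_le_logb_of_le one_lt_two (by positivity) (TWIN.sqr t0 (by positivity) hc' c2)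
    rw [logb_mul (by positivity) (by positivity), logb_mul (by positivity) (by positivity),
      logb_mul d1.ne' e0.ne', logb_pow, logb_pow, logb_pow,
      logb_mul (by positivity) (by positivity), logb_mul (by positivity) (by positivity),
      logb_mul (by positivity) (by positivity), logb_pow, logb_pow, logb_pow, logb_pow,
      logb_pow, l2] at this
    push_cast at this ⊢
    linarith

theorem hw3 (h : S_WIN) : S_HW := by
  intro a b c d e H K hc
  have a0 := H.p0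
  have ab := H.pq
  have bc := K.pq
  have big := H.big
  have n3 : 1000 * |(-3 : ℤ)| ≤ d := by norm_num; omega
  have use : ∀ p q : ℤ, Cf3 p q d e → a ≤ p → q ≤ c →
      ww 2 3 3 p q d e ((-3 : ℤ) : ℝ) ((-3 : ℤ) : ℝ) ((-3 : ℤ) : ℝ) ≠ 0 →
      lg e ≤ 5 * lg d + 12 * lg c + 7 ∨ 11 * lg d + 6 * lg a - 4 * lg c - 5 ≤ lg e := by
    intro p q C h1 h2 h3
    have p0 := C.p0
    have pq := C.pq
    have := h 2 3 3 6 7 5 p q d e TWIN.ok C (by simpa using h3)
    have l1 := TWIN.lg_le a0 h1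
    have l2 := TWIN.lg_le (show 0 < q by omega) h2
    have l3 := TWIN.lg_le (show 0 < q - p by omega) (show q - p ≤ q by omega)
    unfold D3 at this
    push_cast at this
    rcases this with u | u
    · left; linarith
    · right; linarith
  by_cases x : 10 * b ≤ 19 * a
  · exact use a b H le_rfl bc.le (nz3 main (-3) a b d e a0 ab (by omega) n3 H.de
      (Or.inl ⟨by omega, x⟩))
  by_cases y : 10 * c ≤ 19 * b
  · exact use b c K ab.le le_rfl (nz3 main (-3) b c d e K.p0 bc hc n3 H.de (Or.inl ⟨by omega, y⟩))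
  rcases nz4 main (-3) a b c d e (by omega) a0 (by omega) (by omega) hc n3 H.de with u | u
  · exact use a b H le_rfl bc.le u
  · exact use a c ⟨a0, ab.trans bc, K.qd, H.de, big, H.p4, K.q4, H.pd, H.pe, K.sd, K.se, H.sq⟩
      le_rfl le_rfl u

end Pool.Agent.MP_2339ce_nt.DQ
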