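import Pool.Agent.MP_2339ce_nt.DQ.TBND3
import Pool.Agent.MP_2339ce_nt.DQ.TCH
import Pool.Agent.MP_2339ce_nt.DQ.TG53
import Pool.Agent.MP_2339ce_nt.DQ.TINT3
import Pool.Agent.MP_2339ce_nt.DQ.TLA
import Pool.Agent.MP_2339ce_nt.DQ.TLB
import Pool.Agent.MP_2339ce_nt.DQ.TLC
import Pool.Agent.MP_2339ce_nt.DQ.TLQ3
import Pool.Agent.MP_2339ce_nt.DQ.TNQ
import Pool.Agent.MP_2339ce_nt.DQ.TPAR
import Pool.Agent.MP_2339ce_nt.DQ.TSIZE3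
import Pool.Agent.MP_2339ce_nt.DQ.TSR
import Pool.Agent.MP_2339ce_nt.DQ.TSR1
import Pool.Agent.MP_2339ce_nt.DQ.TSR2
import Pool.Agent.MP_2339ce_nt.DQ.TSR3
import Pool.Agent.MP_2339ce_nt.DQ.TSR4
import Pool.Agent.MP_2339ce_nt.DQ.TTAIL
import Pool.Agent.MP_2339ce_nt.DQ.TTR3
import Pool.Agent.MP_2339ce_nt.DQ.TWIN

/-! Project DQ3: assembly. -/

set_option autoImplicit false

namespace Pool.Agent.MP_2339ce_nt.DQ

theorem all_win3 : S_WIN := win3 int3 (size3 main bnd3 be3)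

theorem all_nq3 : S_NQ :=
  nq3 par3 tr3 (lq3 ld3 la3 lb3 (lc3 lb3)) g53 all_win3 (hw3 all_win3) (nz main sgn) (cs3 tail3)
    (cl3 tail3) (srq SR.sr2 SR.sr3 (SR.sr4 SR.sr1))

end Pool.Agent.MP_2339ce_nt.DQ
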