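import Pool.Agent.MP_2339ce_nt.DQ.XQ5
import Pool.Agent.MP_2339ce_nt.DQ.Q4
import Pool.Agent.MP_2339ce_nt.DQ.BD
import Pool.Agent.MP_2339ce_nt.DQ.Q9

-- ======== part 0: formerly Pool.Agent.MP_2339ce_nt.DQ.XSIZE
section MrgPart0

/-! Project DQ: the size of the linear form, explicit constant. -/

set_option autoImplicit false

namespace Pool.Agent.MP_2339ce_nt.DQ

open Real

theorem xsize (h1 : S_MAIN) (h2 : S_BND) : X_SIZE := by
  intro N M hNM hM ρ kp kq p q d e np nq n0 hA hC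
  obtain ⟨i, rfl⟩ := Nat.exists_eq_add_of_le' hA.p1
  obtain ⟨j, rfl⟩ := Nat.exists_eq_add_of_le' hA.q1
  have hi := hA.p2
  have p0 := hC.p0
  have q0 := p0.trans hC.pq
  have hd := hC.hd
  have N0 : 0 ≤ N := (abs_nonneg _).trans hC.hp
  have d0 : 0 ≤ d := by omega
  have sg : (nq < 0 ∧ np < 0) ∨ (0 < nq ∧ 0 < np) := by
    rcases hC.ord with ⟨o1, o2, o3⟩ | ⟨o1, o2, o3⟩
    · have k : nq < 0 := by
        by_contra hh
        have := mul_nonneg (not_lt.1 hh) d0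
        have := mul_nonpos_of_nonpos_of_nonneg o3 q0.le
        omega
      refine Or.inl ⟨k, ?_⟩
      by_contra hh
      have := mul_nonneg (not_lt.1 hh) q0.le
      have := mul_neg_of_neg_of_pos k p0
      omega
    · have k : 0 < nq := by
        by_contra hh
        have := mul_nonpos_of_nonpos_of_nonneg (not_lt.1 hh) d0
        have := mul_nonneg o3 q0.le
        omega
      refine Or.inr ⟨k, ?_⟩
      by_contra hh
      have := mul_nonpos_of_nonpos_of_nonneg (not_lt.1 hh) q0.le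
      have := mul_pos k p0
      omega
  have a1 : 1 ≤ |np| := Int.one_le_abs (by omega)
  have b1 : 1 ≤ |nq| := Int.one_le_abs (by omega)
  have N1 : 1 ≤ N := a1.trans hC.hp
  have P0 : (0 : ℝ) < p := by exact_mod_cast p0
  have Q0 : (0 : ℝ) < q := by exact_mod_cast q0
  have D0 : (0 : ℝ) < d := by exact_mod_cast (show 0 < d by omega)
  have E0 : (0 : ℝ) < e := by exact_mod_cast (show 0 < e by have := hC.de; omega)
  have M0 : (0 : ℝ) < N := by exact_mod_cast (show 0 < N by omega)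
  have hD : 4 * (N : ℝ) ≤ d := by exact_mod_cast hd
  have aM : |(np : ℝ)| ≤ N := by exact_mod_cast hC.hp
  have bM : |(nq : ℝ)| ≤ N := by exact_mod_cast hC.hq
  have sm : ∀ n y : ℝ, |n| ≤ N → 1 ≤ y → |n / y * (1 / d)| ≤ 1 / 4 := fun n y hn hy => by
    rw [div_mul_div_comm, mul_one]
    exact SIZE.small hn M0 (hD.trans (le_mul_of_one_le_left D0.le hy))
  have sa := sm np p aM (by exact_mod_cast p0)
  have sb := sm nq q bM (by exact_mod_cast q0)
  have s0 : |0 * (1 / (d : ℝ))| ≤ 1 / 4 := by norm_num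
  have key : ((np : ℝ) * q - nq * p ≠ 0 ∧ |(n0 : ℝ) / d| ≤ |(nq : ℝ) / q| ∧
      |(n0 : ℝ) / d - nq / q| ≤ |(nq : ℝ) / q|) ∧
      |SS ρ (1 / d) 0 (nq / q) (np / p) (ρ + 1) (j + 1) (i + 1) 1 1 1| ≤
        (1 / (d : ℝ)) ^ (ρ + (i + 1) + (j + 1)) * 3 ^ (ρ + (i + 1) + (j + 1)) := by
    rcases hC.ord with ⟨o1, o2, o3⟩ | ⟨o1, o2, o3⟩
    · have u1 : (np : ℝ) * q < nq * p := by exact_mod_cast o1
      have u2 : (nq : ℝ) / q < n0 / d := (div_lt_div_iff₀ Q0 D0).2 (by exact_mod_cast o2)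
      have u3 : (n0 : ℝ) / d ≤ 0 := div_nonpos_of_nonpos_of_nonneg (by exact_mod_cast o3) D0.le
      have u4 := u2.trans_le u3
      refine ⟨⟨(sub_neg.2 u1).ne, ?_, ?_⟩, SIZE.main_abs h1 ⟨by positivity, u4,
        (div_lt_div_iff₀ P0 Q0).2 u1, le_rfl, s0, sb, sa⟩ (by omega) (by omega) (by omega)
        (by omega) (by omega)⟩
      · rw [abs_of_neg u4, abs_of_nonpos u3]; linarith
      · rw [abs_of_neg u4, abs_of_pos (sub_pos.2 u2)]; linarith
    · have u1 : (nq : ℝ) * p < np * q := by exact_mod_cast o1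
      have u2 : (n0 : ℝ) / d < nq / q := (div_lt_div_iff₀ D0 Q0).2 (by exact_mod_cast o2)
      have u3 : 0 ≤ (n0 : ℝ) / d := div_nonneg (by exact_mod_cast o3) D0.le
      have u4 := u3.trans_lt u2
      refine ⟨⟨(sub_pos.2 u1).ne', ?_, ?_⟩, ?_⟩
      · rw [abs_of_pos u4, abs_of_nonneg u3]; linarith
      · rw [abs_of_pos u4, abs_of_neg (sub_neg.2 u2)]; linarith
      · rw [SIZE.SS_rev]
        exact SIZE.main_abs h1 ⟨by positivity, (div_lt_div_iff₀ Q0 P0).2 u1, u4, le_rfl, sa, sb,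
          s0⟩ (by omega) (by omega) (by omega) (by omega) (by omega)
  have := SIZE.core h2 ρ i j (by omega) N p q d e np nq n0 (by exact_mod_cast p0)
    (by exact_mod_cast hC.pq.le) hD (by exact_mod_cast hC.de) (by exact_mod_cast a1) aM
    (by exact_mod_cast b1) bM key.1.1 key.1.2.1 key.1.2.2 key.2
  rw [Nat.add_sub_cancel, show ρ + (i + 1) + (j + 1) - 2 = ρ + i + j by omega]
  refine this.trans ?_
  have hK : 512 * (N : ℝ) ^ 3 ≤ (M : ℝ) ^ 20 := by
    have k1 : N ^ 3 ≤ M ^ 3 := pow_le_pow_left₀ N0 ((le_abs_self N).trans hNM.le) 3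
    have k2 : 512 * M ^ 3 ≤ M ^ 20 := mon_le hM 9 3 20 (by norm_num) (by norm_num)
    exact_mod_cast (show 512 * N ^ 3 ≤ M ^ 20 by linarith)
  gcongr

end Pool.Agent.MP_2339ce_nt.DQ

end MrgPart0

-- ======== part 1: formerly Pool.Agent.MP_2339ce_nt.DQ.XDICH
section MrgPart1

/-! Project DQ: the excluded interval, explicit constant. -/

set_option autoImplicit false

noncomputable section

namespace Pool.Agent.MP_2339ce_nt.DQ

open Real

theorem xdich (h1 : S_INT) (h2 : X_SIZE) : X_DICH := by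
  intro N M hN hM ρ kp kq p q d e np nq n0 a c hw
  have h := h2 N M hN hM
  have M2 : (2 : ℝ) ≤ M := by exact_mod_cast hM
  have l2 : 0 ≤ log 2 := log_nonneg one_le_two
  have lM : log 2 ≤ log (M : ℝ) := log_le_log two_pos M2
  have eK : log ((M : ℝ) ^ 20) = 20 * log M := by rw [log_pow]; norm_num
  have hK : 1 ≤ (M : ℝ) ^ 20 := one_le_pow₀ (one_le_two.trans M2)
  generalize (M : ℝ) ^ 20 = K at h eK hK
  generalize log (M : ℝ) = L at lM eK
  obtain ⟨hd, hp, hq, hpq⟩ := DICH.signs c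
  obtain ⟨i, hi⟩ := DICH.int_w h1 a c
  have p1 : (0 : ℝ) < p := by exact_mod_cast c.p0
  have q1 : (0 : ℝ) < q := by exact_mod_cast c.p0.trans c.pq
  have d1 : (0 : ℝ) < d := by exact_mod_cast hd
  have e0 : (0 : ℝ) < e := by exact_mod_cast hd.trans_le c.de
  have K0 : 0 < K := one_pos.trans_le hK
  have r0 : 0 < √((d : ℝ) * e) := sqrt_pos.2 (mul_pos d1 e0)
  have s0 : sc ρ kp kq p q d np nq ≠ 0 := by
    have a1 : (np : ℝ) ≠ 0 := by exact_mod_cast hp
    have a2 : (nq : ℝ) ≠ 0 := by exact_mod_cast hq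
    have a3 : (np : ℝ) * q - nq * p ≠ 0 := by exact_mod_cast hpq
    unfold sc
    positivity
  have i0 : i ≠ 0 := by
    rintro rfl
    exact mul_ne_zero r0.ne' (mul_ne_zero s0 hw) (by simpa using hi)
  have i1 : (1 : ℝ) ≤ |(i : ℝ)| := by exact_mod_cast Int.one_le_abs i0
  rw [← hi, abs_mul, abs_of_pos r0] at i1
  have key := i1.trans (mul_le_mul_of_nonneg_left (h ρ kp kq p q d e np nq n0 a c) r0.le)
  obtain ⟨kp, rfl⟩ := Nat.exists_eq_add_of_le' a.p1
  obtain ⟨kq, rfl⟩ := Nat.exists_eq_add_of_le' a.q1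
  rw [Nat.add_sub_cancel, show ρ + (kp + 1) + (kq + 1) - 2 = ρ + kp + kq by omega] at key
  have n1 : (0 : ℝ) ≤ ρ + kp + kq := by positivity
  have m2 := mul_nonneg n1 l2
  have m3 := mul_nonneg n1 (sub_nonneg.2 lM)
  have lh : log (1 / 2 : ℝ) = -log 2 := by rw [one_div, log_inv]
  by_cases hc : (1 / 2 : ℝ) ≤ √((d : ℝ) * e) * (K ^ (ρ + (kp + 1) + (kq + 1)) * d ^ ρ *
      (q ^ (ρ + kp + kq) / e))
  · left
    have := log_le_log (by norm_num) hc
    rw [lh, log_mul r0.ne' (by positivity), log_mul (by positivity) (by positivity),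
      log_mul (by positivity) (by positivity), log_div (by positivity) e0.ne', log_pow, log_pow,
      log_pow, log_sqrt (by positivity), log_mul d1.ne' e0.ne', eK] at this
    push_cast at this ⊢
    linarith
  · right
    have hc' : (1 / 2 : ℝ) ≤ √((d : ℝ) * e) * (K ^ (ρ + (kp + 1) + (kq + 1)) * d ^ ρ *
        (q ^ kp / (p ^ (kp + 1) * d ^ (ρ + (kp + 1) + (kq + 1))))) := by
      rw [mul_add, mul_add] at key
      linarith
    have := log_le_log (by norm_num) hc'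
    rw [lh, log_mul r0.ne' (by positivity), log_mul (by positivity) (by positivity),
      log_mul (by positivity) (by positivity), log_div (by positivity) (by positivity),
      log_mul (by positivity) (by positivity), log_pow, log_pow, log_pow, log_pow, log_pow,
      log_sqrt (by positivity), log_mul d1.ne' e0.ne', eK] at this
    push_cast at this ⊢
    linarith

end Pool.Agent.MP_2339ce_nt.DQ

end

end MrgPart1

-- ======== part 2: formerly Pool.Agent.MP_2339ce_nt.DQ.XG5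
section MrgPart2

/-! Project DQ: the gap for five elements, explicit constants. -/

set_option autoImplicit false

noncomputable section

namespace Pool.Agent.MP_2339ce_nt.DQ

theorem xg5 : X_G5 := by
  intro n M hn hM a b c d e ha hab hbc hcd hd0 he0 h1 h2 h3 h4 h5 h6 h7
  have n1 : 1 ≤ |n| := Int.one_le_abs hn
  have M2 : 2 ≤ M := by omega
  have hK : 10000 * |n| ^ 6 ≤ M ^ 50 :=
    le_trans (by gcongr) (mon_le M2 14 6 50 (by norm_num) (by norm_num) (c := 10000))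
  have c0 : 0 < c := by omega
  have e0 : 0 ≤ e := le_trans (by positivity) he0
  have hd : 10000 * |n| ^ 6 ≤ d := hK.trans hd0
  have he : 10000 * |n| ^ 6 * c ^ 3 * d ^ 2 ≤ e := le_trans (by gcongr) he0
  obtain ⟨sa, sa0, sa2⟩ := G5.root h1
  obtain ⟨sb, sb0, sb2⟩ := G5.root h2
  obtain ⟨sc, sc0, sc2⟩ := G5.root h3
  obtain ⟨xa, xa0, xa2⟩ := G5.root h4
  obtain ⟨xb, xb0, xb2⟩ := G5.root h5
  obtain ⟨xc, xc0, xc2⟩ := G5.root h6
  obtain ⟨z, z0, z2⟩ := G5.root h7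
  have pr : ∀ {i s x : ℤ}, s ^ 2 = i * d + n → x ^ 2 = i * e + n →
      ((s * x : ℤ) : ℝ) ^ 2 = (i * d - -n) * (i * e - -n) := fun {i s x} hs hx => by
    have : (s * x) ^ 2 = (i * d - -n) * (i * e - -n) := by rw [mul_pow, hs, hx]; ring
    exact_mod_cast this
  obtain ⟨W, hW⟩ : ∃ W : ℤ, W = (b - a) * (c - a) * (c - b) * z -
    (a * (c - b) * (sa * xa) - b * (c - a) * (sb * xb) + c * (b - a) * (sc * xc)) := ⟨_, rfl⟩
  obtain ⟨k1, k2⟩ := G5.core (a := a) (b := b) (c := c) (d := d) (e := e) (N := -n) (z := z)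
    (ya := (sa * xa : ℤ)) (yb := (sb * xb : ℤ)) (yc := (sc * xc : ℤ)) (W := W)
    (by exact_mod_cast ha) (by exact_mod_cast hab) (by exact_mod_cast hbc)
    (by rw [abs_neg]; exact_mod_cast n1) (by rw [abs_neg]; exact_mod_cast hd)
    (by rw [abs_neg]; exact_mod_cast he) (by exact_mod_cast z0)
    (by rw [sub_neg_eq_add]; exact_mod_cast z2)
    (by exact_mod_cast mul_nonneg sa0 xa0) (pr sa2 xa2)
    (by exact_mod_cast mul_nonneg sb0 xb0) (pr sb2 xb2)
    (by exact_mod_cast mul_nonneg sc0 xc0) (pr sc2 xc2) (by exact_mod_cast hW)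
  rw [abs_neg] at k2
  have k3 : W ≠ 0 := by exact_mod_cast k1
  have k4 : W ^ 2 * d ^ 5 ≤ 10000 * |n| ^ 6 * c ^ 2 * e := by exact_mod_cast k2
  have k5 : 1 ≤ W ^ 2 := (one_le_sq_iff_one_le_abs W).2 (Int.one_le_abs k3)
  have d0 : 0 < d := lt_of_lt_of_le (by positivity) hd
  exact ((le_mul_of_one_le_left (by positivity) k5).trans k4).trans (by gcongr)

end Pool.Agent.MP_2339ce_nt.DQ

end

end MrgPart2

-- ======== part 3: formerly Pool.Agent.MP_2339ce_nt.DQ.XTRI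
section MrgPart3

/-! Project DQ: the third element of a triple is at least three times the first, explicit form. -/

set_option autoImplicit false

namespace Pool.Agent.MP_2339ce_nt.DQ

theorem xtri : X_TRI := by
  intro N M hN hM T hT
  have N0 := ne_zero_of_ns hN
  have hK : 3 * (64 * N ^ 2 + 1) ≤ T.c := by
    have m := mon_le (c := 192) (two_le hN hM) 8 2 50 (by norm_num) (by norm_num)
    have : N ^ 2 < M ^ 2 := sq_lt_sq' (abs_lt.1 hM).1 (abs_lt.1 hM).2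
    omega
  clear hT hM
  by_contra hc
  have ha := T.a0
  have hab := T.ab
  have hbc := T.bc
  have hb := T.b0
  have n1 : 1 ≤ |N| := Int.one_le_abs N0
  have n2 : |N| ^ 2 = N ^ 2 := sq_abs N
  have n3 : |N| ≤ N ^ 2 := by nlinarith
  have l1 := le_abs_self N
  have l2 := neg_abs_le N
  have a1 : 64 * N ^ 2 < T.a := by omega
  have t2 : T.t ≤ 2 * T.b := by
    refine abs_le_of_sq_le_sq' ?_ (by omega) |>.2
    have : T.b * T.c ≤ T.b * (3 * T.b) := mul_le_mul_of_nonneg_left (by omega) hb.le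
    have : T.b * 1 ≤ T.b * T.b := mul_le_mul_of_nonneg_left (by omega) hb.le
    rw [T.ht]
    nlinarith
  have w1 : |T.w| ≤ 8 * |N| := by
    have k := T.w_le (by omega)
    have : 4 * |N| * T.t ≤ 4 * |N| * (2 * T.b) := mul_le_mul_of_nonneg_left t2 (by omega)
    exact le_of_mul_le_mul_left (a := T.b) (by linarith) hb
  have w2 : T.w ^ 2 ≤ 64 * N ^ 2 := by
    have := pow_le_pow_left₀ (abs_nonneg _) w1 2
    rw [sq_abs, mul_pow, n2] at this
    linarith
  have e := T.eT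
  have w3 : T.w ^ 2 - N ^ 2 = 0 := by
    refine Int.eq_zero_of_abs_lt_dvd (m := T.a)
      ⟨2 * T.w * T.t - N * (T.b + T.c - T.a), by linear_combination -e⟩ (abs_lt.2 ⟨?_, ?_⟩)
    · nlinarith [sq_nonneg T.w]
    · nlinarith [sq_nonneg N]
  have w4 : T.w = N := by
    rcases sq_eq_sq_iff_eq_or_eq_neg.1 (sub_eq_zero.1 w3) with k | k
    · exact k
    · have := T.w_sign N0
      rw [k] at this
      nlinarith [sq_nonneg N]
  have e1 : 2 * T.t = T.b + T.c - T.a := by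
    rw [w4] at e
    exact mul_left_cancel₀ (mul_ne_zero ha.ne' N0) (by linear_combination e)
  have e2 : (T.c - T.a - T.b) ^ 2 = (2 * T.r) ^ 2 := by
    linear_combination 4 * T.ht - 4 * T.hr - (2 * T.t + T.b + T.c - T.a) * e1
  have r1 : T.a ≤ T.r := by
    refine abs_le_of_sq_le_sq' ?_ T.r0 |>.2
    have : T.a * (T.a + 1) ≤ T.a * T.b := mul_le_mul_of_nonneg_left (by omega) ha.le
    rw [T.hr]
    nlinarith
  rcases sq_eq_sq_iff_eq_or_eq_neg.1 e2 with k | k <;> omega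

end Pool.Agent.MP_2339ce_nt.DQ

end MrgPart3

-- ======== part 4: formerly Pool.Agent.MP_2339ce_nt.DQ.XLINE
section MrgPart4

/-! Project DQ: triples on a line, explicit bound. -/

set_option autoImplicit false

namespace Pool.Agent.MP_2339ce_nt.DQ

theorem xline : X_LINE := by
  intro N K0 hN hK T M L j ha hw hM hM' hL hj e
  have h2K := two_le hN hK
  have hb : K0 * ((K0 * |N| * K0 + K0 ^ 2 * |N| * K0 + K0 * (K0 ^ 2 + N ^ 2)) ^ 2 +
      (2 * K0 * K0 * K0) ^ 2 * |N|) + K0 ≤ K0 ^ 50 := by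
    have n0 := abs_nonneg N
    have k1 : 1 ≤ K0 := by omega
    have p : ∀ i : ℕ, i ≤ 9 → K0 ^ i ≤ K0 ^ 9 := fun i hi => pow_le_pow_right₀ k1 hi
    calc _ ≤ K0 * ((K0 * K0 * K0 + K0 ^ 2 * K0 * K0 + K0 * (K0 ^ 2 + K0 ^ 2)) ^ 2 +
          (2 * K0 * K0 * K0) ^ 2 * K0) + K0 := by
          rw [← sq_abs N]; gcongr
      _ = K0 ^ 9 + 10 * K0 ^ 8 + 9 * K0 ^ 7 + K0 ^ 1 := by ring
      _ ≤ 21 * K0 ^ 9 := by
          have := p 8 (by norm_num); have := p 7 (by norm_num); have := p 1 (by norm_num)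
          linarith
      _ ≤ _ := mon_le h2K 5 9 50 (by norm_num) (by norm_num)
  have a0 := T.a0
  have b0 := T.b0
  have c0 := T.c0
  have k0 : 0 ≤ K0 := (abs_nonneg _).trans hj
  have n0 := abs_nonneg N
  have w0 : T.w ≠ 0 := by
    have := T.w_sign (ne_zero_of_ns hN)
    rintro h; rw [h] at this; simp at this
  have aa : |T.a| ≤ K0 := by rwa [abs_of_pos a0]
  obtain ⟨A, hA⟩ : ∃ A, A = 2 * T.a * T.w * M := ⟨_, rfl⟩
  obtain ⟨k, hk⟩ : ∃ k, k = T.a * N * j - T.a ^ 2 * N * M + M * (T.w ^ 2 - N ^ 2) := ⟨_, rfl⟩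
  have A0 : A ≠ 0 := by rw [hA]; positivity
  have e1 : A * T.t = T.a * N * (M + L) * T.b + k := by
    rw [hA, hk]; linear_combination M * T.eT + T.a * N * e
  have e2 : T.b ∣ k ^ 2 + A ^ 2 * N :=
    ⟨A ^ 2 * T.c - (T.a * N * (M + L)) ^ 2 * T.b - 2 * (T.a * N * (M + L)) * k, by
      linear_combination A ^ 2 * T.ht - (A * T.t + T.a * N * (M + L) * T.b + k) * e1⟩
  have h1 : T.b ≤ |k ^ 2 + A ^ 2 * N| :=
    Int.le_of_dvd (abs_pos.2 (LINE.ne hN A0)) ((dvd_abs _ _).2 e2)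
  have h2 : |A| ≤ 2 * K0 * K0 * K0 := by
    rw [hA, abs_mul, abs_mul, abs_mul, abs_two]; gcongr
  have h3 : |k| ≤ K0 * |N| * K0 + K0 ^ 2 * |N| * K0 + K0 * (K0 ^ 2 + N ^ 2) := by
    rw [hk]
    refine (abs_add_le _ _).trans (add_le_add ((abs_sub _ _).trans (add_le_add ?_ ?_)) ?_)
    · rw [abs_mul, abs_mul]; gcongr
    · rw [abs_mul, abs_mul, abs_pow]; gcongr
    · rw [abs_mul]
      gcongr
      refine (abs_sub _ _).trans ?_
      rw [abs_pow, abs_pow, sq_abs N]; gcongr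
  have h4 : |k ^ 2 + A ^ 2 * N| ≤ (K0 * |N| * K0 + K0 ^ 2 * |N| * K0 + K0 * (K0 ^ 2 + N ^ 2)) ^ 2 +
      (2 * K0 * K0 * K0) ^ 2 * |N| := by
    refine (abs_add_le _ _).trans ?_
    rw [abs_mul, abs_pow, abs_pow]; gcongr
  have h5 : T.c ≤ |M * T.c| := by
    rw [abs_mul, abs_of_pos c0]
    exact le_mul_of_one_le_left c0.le (Int.one_le_abs hM)
  refine h5.trans (le_trans ?_ hb)
  rw [e]
  refine (abs_add_le _ _).trans ?_
  rw [abs_mul, abs_of_pos b0]
  have := h1.trans h4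
  gcongr

end Pool.Agent.MP_2339ce_nt.DQ

end MrgPart4

-- ======== part 5: formerly Pool.Agent.MP_2339ce_nt.DQ.XREG
section MrgPart5

/-! Project DQ, row XREG: the row REG with an explicit constant. -/

set_option autoImplicit false

namespace Pool.Agent.MP_2339ce_nt.DQ

open REGx in
theorem xreg : X_REG := by
  intro N M hs hM q h1 h2
  have hN := ne_zero_of_ns hs
  have n0 := abs_nonneg N
  have m2 := two_le hs hM
  have m0 : 0 ≤ M := by omega
  have n2 : N ^ 2 ≤ M ^ 2 := by rw [← sq_abs]; gcongr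
  have p12 : M ≤ M ^ 2 := le_self_pow₀ (by omega) two_ne_zero
  have p13 : M ≤ M ^ 3 := le_self_pow₀ (by omega) three_ne_zero
  have p16 : M ≤ M ^ 6 := le_self_pow₀ (by omega) (by omega)
  by_cases hb : q.b ≤ M ^ 2 + N ^ 2 + 2 * |N|
  · have : q.b ≤ 4 * M ^ 2 := by linarith
    calc q.c ≤ M * (4 * M ^ 2) := h2.trans (mul_le_mul_of_nonneg_left this m0)
      _ = 4 * M ^ 3 := by ring
      _ ≤ M ^ 50 := mon_le m2 2 3 50 (by norm_num) (by omega)
  · have q2 : q.Q ^ 2 ≤ M ^ 2 := by rw [← sq_abs]; gcongr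
    have b2 : 2 * |N| ≤ q.b := by nlinarith [sq_nonneg M, sq_nonneg N]
    have h3 := s_bd hN q (d_eq hN q (Q_eq hN q (by linarith)) b2)
    have h4 : |q.w| ≤ 32 * M ^ 3 :=
      calc |q.w| ≤ 16 * N ^ 2 * (M + |N|) := w_bd q b2 h2
        _ ≤ 16 * M ^ 2 * (M + M) := by gcongr
        _ = 32 * M ^ 3 := by ring
    have h5 : q.s ^ 2 ≤ (65 * M ^ 3) ^ 2 := by
      have := q.s0
      gcongr
      linarith
    have h6 : q.c ≤ q.a * q.c := le_mul_of_one_le_left q.c0.le q.a0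
    have := q.hs
    have := le_abs_self N
    calc q.c ≤ (65 * M ^ 3) ^ 2 + M ^ 6 := by linarith
      _ = 4226 * M ^ 6 := by ring
      _ ≤ M ^ 50 := mon_le m2 13 6 50 (by norm_num) (by omega)

end Pool.Agent.MP_2339ce_nt.DQ

end MrgPart5

-- ======== part 6: formerly Pool.Agent.MP_2339ce_nt.DQ.XQ1
section MrgPart6

/-! Project DQ, row Q1 with explicit constants. -/

set_option autoImplicit false

namespace Pool.Agent.MP_2339ce_nt.DQ

theorem xq1 (h : X_REG) : X_Q1 := by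
  intro N M hs hM q hq
  have M2 := two_le hs hM
  have n0 := abs_nonneg N
  have h2 : 2 * |N| ≤ q.c := by
    have := mon_le (c := 2) M2 1 1 2500 (by norm_num) (by norm_num)
    rw [pow_one] at this
    omega
  have hb : 4 * |N| * (|N| * (|N| + 1) + |N|) ≤ M ^ 7 := by
    refine le_trans ?_ (mon_le (c := 8) M2 3 3 7 (by norm_num) (by norm_num))
    calc _ ≤ 4 * M * (M * M + M * M) := by
          gcongr
          · omega
          · nlinarith
      _ = _ := by ring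
  have key : ∀ B : ℤ, B ≤ M ^ 7 → |q.Q| ≤ B → q.c ≤ B * q.b → False := fun B hB k1 k2 => by
    have e := h N (M ^ 7) hs (lt_pow M2 hM (by norm_num)) q (k1.trans hB)
      (k2.trans (mul_le_mul_of_nonneg_right hB q.b0.le))
    rw [← pow_mul] at e
    exact absurd (hq.trans e) (not_le.2 (pow_lt_pow_right₀ (by omega) (by norm_num)))
  rcases (ne_zero_of_ns hs).lt_or_gt with hN | hN
  · have hm : 1 ≤ q.m0 := by
      by_contra hc
      have h0 := Q1.ne_zero q hs hN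
      obtain ⟨k1, k2⟩ := Q1.neg_case q hN h2 (by omega)
      exact key _ hb k1 k2
    exact ⟨hm, Q1.neg_good q hN h2 hm⟩
  · refine ⟨q.m0_pos hN, ?_⟩
    by_contra hc
    obtain ⟨k1, k2⟩ := Q1.pos_case q hN h2 (not_le.1 hc)
    refine key _ (le_trans ?_ hb) k1 k2
    rw [← sq_abs N]
    nlinarith [mul_nonneg n0 (mul_nonneg n0 n0), mul_nonneg n0 n0]

end Pool.Agent.MP_2339ce_nt.DQ

end MrgPart6

-- ======== part 7: formerly Pool.Agent.MP_2339ce_nt.DQ.XQ3
section MrgPart7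

/-! Project DQ, row Q3 with explicit constants. -/

set_option autoImplicit false

namespace Pool.Agent.MP_2339ce_nt.DQ

open Q3 in
theorem xq3 : X_Q3 := by
  intro N M hN hM q hc hK W
  have h2 := two_le hN hM
  have hn := abs_nonneg N
  have hl := hM.le
  have p : ∀ i j : ℕ, i ≤ j → M ^ i ≤ M ^ j := fun i j h => pow_le_pow_right₀ (by omega) h
  have h1 : 2 * |N| ≤ q.c := by
    have := mon_le h2 1 1 50 (c := 2) (by norm_num) (by norm_num)
    rw [pow_one] at this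
    omega
  have hm : q.m0 ≤ M ^ 6 := (m_le q W h1).trans <|
    calc 4 * |N| * (M + 2 * |N|) ≤ 4 * M * (M + 2 * M) := by gcongr
      _ = 12 * M ^ 2 := by ring
      _ ≤ _ := mon_le h2 4 2 6 (by norm_num) (by norm_num)
  have hg : |q.g| ≤ M ^ 12 := (g_le q W h1).trans <|
    calc 4 * |N| ^ 2 * (2 * M + 64 * |N|) ≤ 4 * M ^ 2 * (2 * M + 64 * M) := by gcongr
      _ = 264 * M ^ 3 := by ring
      _ ≤ _ := mon_le h2 9 3 12 (by norm_num) (by norm_num)
  refine ⟨Int.abs_lt_one_iff.1 (fin q.a0 q.b0 q.bc (by positivity) (by positivity) W.up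
    (D_le q W (by omega) hm hg) (h_le q W hm hg) hc hK ?_ ?_ ?_),
    hm.trans (p _ _ (by norm_num)), hg.trans (p _ _ (by norm_num))⟩
  · calc M ^ 6 * (64 * |N| ^ 3 * (2 * |N| + 1)) ≤ M ^ 6 * (64 * M ^ 3 * (2 * M + M)) := by
          gcongr; omega
      _ = 192 * M ^ 10 := by ring
      _ ≤ _ := mon_le h2 8 10 50 (by norm_num) (by norm_num)
  · calc _ ≤ M ^ 6 * (4 * M * M ^ 12 + (M ^ 12) ^ 2) +
          4 * M * (M ^ 6 + 4 * M ^ 2) * (8 * M ^ 3 + M ^ 6 * (M + M ^ 12)) := by gcongr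
      _ ≤ 205 * M ^ 30 := by
          linarith [p 19 30 (by norm_num), p 10 30 (by norm_num), p 14 30 (by norm_num),
            p 25 30 (by norm_num), p 6 30 (by norm_num), p 21 30 (by norm_num)]
      _ ≤ _ := mon_le h2 8 30 50 (by norm_num) (by norm_num)
  · calc _ ≤ 4 * M * (M ^ 6 + 4 * M ^ 2) * (M * (1 + M ^ 6) ^ 2) * M := by gcongr
      _ ≤ 80 * M ^ 21 := by
          linarith [p 9 21 (by norm_num), p 15 21 (by norm_num), p 5 21 (by norm_num),
            p 11 21 (by norm_num), p 17 21 (by norm_num)]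
      _ ≤ _ := mon_le h2 7 21 50 (by norm_num) (by norm_num)

end Pool.Agent.MP_2339ce_nt.DQ

end MrgPart7

-- ======== part 8: formerly Pool.Agent.MP_2339ce_nt.DQ.XQ7
section MrgPart8

/-! Project DQ, row Q7 with explicit constants. -/

set_option autoImplicit false

namespace Pool.Agent.MP_2339ce_nt.DQ

namespace XQ7

/-- `x` is bounded by the `k`-th power of `M` -/
def Bd (M x : ℤ) (k : ℕ) : Prop := |x| ≤ M ^ k

variable {M x y : ℤ} {i j k : ℕ}

theorem Bd.mono (hM : 2 ≤ M) (h : Bd M x i) (hk : i ≤ k) : Bd M x k :=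
  le_trans h (pow_le_pow_right₀ (by omega) hk)

theorem Bd.mul (h : Bd M x i) (g : Bd M y j) : Bd M (x * y) (i + j) := by
  unfold Bd at *
  rw [abs_mul, pow_add]
  exact mul_le_mul h g (abs_nonneg _) ((abs_nonneg _).trans h)

theorem Bd.pow (h : Bd M x i) (n : ℕ) : Bd M (x ^ n) (i * n) := by
  unfold Bd at *
  rw [abs_pow, pow_mul]
  exact pow_le_pow_left₀ (abs_nonneg _) h n

theorem two_mul_le (hM : 2 ≤ M) (k : ℕ) : M ^ k + M ^ k ≤ M ^ (k + 1) := by
  have : 0 ≤ M ^ k := by positivity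
  rw [pow_succ]; nlinarith

theorem Bd.add (hM : 2 ≤ M) (h : Bd M x i) (g : Bd M y j) : Bd M (x + y) (max i j + 1) := by
  have h1 := h.mono hM (le_max_left i j)
  have h2 := g.mono hM (le_max_right i j)
  exact (abs_add_le _ _).trans ((add_le_add h1 h2).trans (two_mul_le hM _))

theorem Bd.sub (hM : 2 ≤ M) (h : Bd M x i) (g : Bd M y j) : Bd M (x - y) (max i j + 1) := by
  have h1 := h.mono hM (le_max_left i j)
  have h2 := g.mono hM (le_max_right i j)
  exact (abs_sub _ _).trans ((add_le_add h1 h2).trans (two_mul_le hM _))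

theorem Bd.const (hM : 2 ≤ M) (c : ℤ) (i : ℕ) (h : |c| ≤ 2 ^ i) : Bd M c i :=
  h.trans (by gcongr)

theorem Bd.abs (h : Bd M x i) : Bd M |x| i := by
  unfold Bd at *; rwa [abs_abs]

end XQ7

open XQ7 in
theorem xq7 (h : X_LINE) : X_Q7 := by
  intro N M hN hM q h1 h2 h3 h4 h5
  have m2 := two_le hN hM
  have ha := q.a0
  have bN : Bd M N 1 := by unfold Bd; rw [pow_one]; exact hM.le
  have ba : Bd M q.a 1 := by unfold Bd; rw [pow_one, abs_of_pos ha]; exact h1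
  have bm : Bd M q.m0 1 := by unfold Bd; rw [pow_one]; exact h2
  have bg : Bd M q.g 1 := by unfold Bd; rw [pow_one]; exact h3
  have bD : Bd M q.D 1 := by unfold Bd; rw [pow_one]; exact h4
  have bM : Bd M M 1 := by unfold Bd; rw [pow_one, abs_of_pos (by omega)]
  have c1 : Bd M 1 1 := Bd.const m2 _ _ (by norm_num)
  have c2 : Bd M 2 1 := Bd.const m2 _ _ (by norm_num)
  have c2' : Bd M (-2) 1 := Bd.const m2 _ _ (by norm_num)
  have c4 : Bd M 4 2 := Bd.const m2 _ _ (by norm_num)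
  have c16 : Bd M 16 4 := Bd.const m2 _ _ (by norm_num)
  have c16' : Bd M (-16) 4 := Bd.const m2 _ _ (by norm_num)
  by_cases hb : 2 * |N| ≤ q.b
  · have hw := Q7.w_bd q.toTr (by omega) hb h5
    have bw : Bd M q.w 5 := by
      have t := (c4.mul bN.abs).mul (bM.add m2 c1)
      exact hw.trans ((le_abs_self _).trans t)
    have bk : Bd M (Q7.ka N q.a q.w) 12 :=
      (((bw.pow 2).sub m2 (bN.pow 2)).sub m2 ((ba.pow 2).mul bN)).mono m2 (by norm_num)
    have bMM : Bd M (Q7.MM N q.a q.m0) 50 :=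
      ((c2.mul (ba.pow 2)).mul (((c16.mul (ba.pow 2)).mul (bm.pow 2)).add m2 (bN.pow 3))).mono m2
        (by norm_num)
    have bLL : Bd M (Q7.LL N q.a q.m0 q.D q.w) 50 :=
      ((c2.mul (ba.pow 2)).mul ((((c4.mul bm).mul (bD.add m2 (bN.mul bm))).sub m2
        (c2.mul (bN.pow 3))).add m2 ((c4.mul bN).mul (bw.pow 2)))).mono m2 (by norm_num)
    have bt0 : Bd M (4 * q.a * N ^ 2 * Q7.ka N q.a q.w) 17 :=
      (((c4.mul ba).mul (bN.pow 2)).mul bk).mono m2 (by norm_num)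
    have bDN : Bd M (q.D - N * q.m0) 3 := (bD.sub m2 (bN.mul bm)).mono m2 (by norm_num)
    have bal : Bd M (Q7.al N q.a q.m0 q.D q.w) 40 :=
      (((((c16'.mul (ba.pow 3)).mul bm).mul bDN)).sub m2 bt0).mono m2 (by norm_num)
    have bbt : Bd M (Q7.bt N q.a q.m0 q.g q.D q.w) 40 :=
      ((ba.mul ((((c2'.mul (bN.pow 3)).mul ((ba.pow 2).add m2 bN)).add m2
        ((bm.mul bN).mul ((c2.mul bD).add m2 bg))).add m2 (c2.mul (bD.pow 2)))).sub m2 bt0).mono m2
        (by norm_num)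
    have bga : Bd M (Q7.ga N q.a q.m0 q.D q.w) 40 :=
      ((ba.mul (((c2'.mul ba).mul (bDN.pow 2)).add m2 ((c2.mul (bN.pow 4)).mul ba))).sub m2
        ((c2.mul bN).mul ((((c4.mul (ba.pow 2)).mul (bw.pow 2)).mul bN).add m2 (bk.pow 2)))).mono m2
        (by norm_num)
    have hj := Q7.small q.b0 q.bc (Q7.line q)
    have bj : Bd M (Q7.MM N q.a q.m0 * q.c - Q7.LL N q.a q.m0 q.D q.w * q.b) 50 := by
      have t := ((bal.abs.add m2 bbt.abs).add m2 bga.abs).mono m2 (show _ ≤ 50 by norm_num)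
      exact hj.trans ((le_abs_self _).trans t)
    have t := h N (M ^ 50) hN (lt_pow m2 hM (by norm_num)) q.toTr (Q7.MM N q.a q.m0)
      (Q7.LL N q.a q.m0 q.D q.w) _ ((le_abs_self _).trans (ba.mono m2 (by norm_num)))
      (bw.mono m2 (by norm_num)) (Q7.MM_ne hN ha) bMM bLL bj (by ring)
    rwa [← pow_mul] at t
  · have t := (bM.mul (c2.mul bN.abs)).mono m2 (show _ ≤ 2500 by norm_num)
    exact (h5.trans (mul_le_mul_of_nonneg_left (not_le.1 hb).le (by omega))).trans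
      ((le_abs_self _).trans t)

end Pool.Agent.MP_2339ce_nt.DQ

end MrgPart8

-- ======== part 9: formerly Pool.Agent.MP_2339ce_nt.DQ.XQ9
section MrgPart9

/-! Project DQ, row XQ9: the degenerate case `m1 = 0` with explicit constants. -/

set_option autoImplicit false

namespace Pool.Agent.MP_2339ce_nt.DQ

namespace XQ9

open Q9

theorem rhs_le {a k n w W U : ℤ} (hU : 2 ≤ U) (a0 : 0 < a) (k0 : 0 < k) (n0 : 0 < n) (ha : a ≤ U)
    (hk : k ≤ U) (hn : n ≤ U) (hw : |w| ≤ U) (hW : |W| ≤ U) :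
    |a ^ 3 * k * n ^ 5 - a * k ^ 2 * n + k * a * n ^ 4 * (w ^ 2 - n ^ 2) - a * W ^ 2 +
      a ^ 3 * n ^ 10| ≤ U ^ 16 := by
  have U1 : 1 ≤ U := by omega
  have w2 : w ^ 2 ≤ U ^ 2 := by rw [← sq_abs]; gcongr
  have W2 : W ^ 2 ≤ U ^ 2 := by rw [← sq_abs]; gcongr
  have e : ∀ j : ℕ, j ≤ 13 → U ^ j ≤ U ^ 13 := fun j hj => pow_le_pow_right₀ U1 hj
  have t1 : a ^ 3 * k * n ^ 5 ≤ U ^ 3 * U * U ^ 5 := by gcongr
  have t2 : a * k ^ 2 * n ≤ U * U ^ 2 * U := by gcongr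
  have t3 : k * a * n ^ 4 * w ^ 2 ≤ U * U * U ^ 4 * U ^ 2 := by gcongr
  have t4 : k * a * n ^ 4 * n ^ 2 ≤ U * U * U ^ 4 * U ^ 2 := by gcongr
  have t5 : a * W ^ 2 ≤ U * U ^ 2 := by gcongr
  have t6 : a ^ 3 * n ^ 10 ≤ U ^ 3 * U ^ 10 := by gcongr
  have s1 : 0 ≤ a ^ 3 * k * n ^ 5 := by positivity
  have s2 : 0 ≤ a * k ^ 2 * n := by positivity
  have s3 : 0 ≤ k * a * n ^ 4 * w ^ 2 := by positivity
  have s4 : 0 ≤ k * a * n ^ 4 * n ^ 2 := by positivity
  have s5 : 0 ≤ a * W ^ 2 := by positivity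
  have s6 : 0 ≤ a ^ 3 * n ^ 10 := by positivity
  have e9 := e 9 (by omega); have e4 := e 4 (by omega); have e8 := e 8 (by omega)
  have e3 := e 3 (by omega)
  have f := mon_le (c := 3) hU 2 13 16 (by norm_num) (by omega)
  rw [abs_le]
  constructor <;> linarith

variable {n : ℤ}

/-- either `b` is small or the triple lies on a line -/
theorem core (q : Qd (-n)) (hn : 0 < n) (hsq : ¬ IsSquare n) {M : ℤ} (hM : 2 ≤ M) (nM : n ≤ M)
    (hm : q.m1 = 0) (ha : q.a ≤ M) (hc : q.c ≤ M * q.b) (hZ : q.Z ^ 2 ≤ M * q.c)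
    (hw : |q.w| ≤ M ^ 7) : q.b ≤ M ^ 224 ∨ ∃ m ρ : ℤ, m ^ 2 = q.a ^ 2 + n ∧ ρ ^ 2 = q.r ^ 2 ∧
      n * (q.b * q.s + q.t * ρ) = q.s * (4 * q.a * (q.a + m) * q.c + (4 * q.a * n + 2 * n * m)) := by
  have a0 := q.a0; have b0 := q.b0; have c0 := q.c0
  have M1 : 1 ≤ M := by omega
  have pw : ∀ i j : ℕ, i ≤ j → M ^ i ≤ M ^ j := fun i j h => pow_le_pow_right₀ M1 h
  obtain ⟨Y, X, e1, e2, e3, e4⟩ := pell q hm
  obtain ⟨k, hk⟩ : ∃ k, k = X ^ 2 - n ^ 5 := ⟨_, rfl⟩
  have f1 : q.a * n ^ 2 * q.Z ^ 2 = q.c * k + q.a * n ^ 5 := by rw [hk]; linear_combination e2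
  have f2 : q.a * n ^ 2 * Y ^ 2 = q.b * k + q.a * n ^ 5 :=
    mul_left_cancel₀ c0.ne' (by linear_combination q.b * f1 - q.a * n ^ 2 * e1)
  rcases lt_trichotomy k 0 with k1 | k1 | k1
  · refine Or.inl (le_trans ?_ (pw 6 224 (by omega)))
    have t1 : 0 ≤ q.a * n ^ 2 * Y ^ 2 := by positivity
    have t2 : q.a * n ^ 5 ≤ M * M ^ 5 := by gcongr
    have t3 : q.b * 1 ≤ q.b * -k := by gcongr; omega
    linarith
  · exact absurd (sqn (m := n ^ 2) (X := X) (by positivity) (by linear_combination hk - k1)) hsq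
  have k2 : k ≤ M ^ 4 := by
    have t1 : q.a * n ^ 2 * q.Z ^ 2 ≤ M * M ^ 2 * (M * q.c) := by gcongr
    have t2 : 0 ≤ q.a * n ^ 5 := by positivity
    refine le_of_mul_le_mul_left ?_ c0
    linarith
  obtain ⟨W, hW, e5⟩ := comp q.toTr hn k1 (abs_nonneg Y) (abs_nonneg q.Z) hc
    (by rw [sq_abs]; exact f1) (by rw [sq_abs]; exact f2)
  by_cases hW0 : q.a * n ^ 4 * q.w - W = 0
  swap
  · left
    have t0 : q.a * n ^ 5 * (M + 1) + q.a ^ 2 * n ^ 10 + k * n ≤
      M * M ^ 5 * (M + M) + M ^ 2 * M ^ 10 + M ^ 4 * M := by gcongr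
    have u1 := pw 7 12 (by omega); have u2 := pw 5 12 (by omega)
    have u3 := mon_le (c := 4) hM 2 12 14 (by norm_num) (by omega)
    have u4 : M ≤ M ^ 14 := le_self_pow₀ M1 (by omega)
    have t1 := rhs_le (U := M ^ 14) (w := q.w) (W := W) (hM.trans u4) a0 k1 hn (ha.trans u4)
      (k2.trans (pw 4 14 (by omega))) (nM.trans u4) (hw.trans (pw 7 14 (by omega))) (by linarith)
    have t2 := b_le_t q.toTr hn
    have t3 : 0 < q.t := by omega
    rw [← e5, abs_mul, abs_of_pos (by positivity : 0 < 2 * q.a * k * q.t), ← pow_mul] at t1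
    have t4 : 2 * 1 * 1 * q.t * 1 ≤ 2 * q.a * k * q.t * |q.a * n ^ 4 * q.w - W| := by
      gcongr
      · exact a0
      · exact k1
      · exact abs_pos.2 hW0
    exact le_trans (by omega) (t4.trans t1)
  right
  obtain rfl : W = q.a * n ^ 4 * q.w := by linarith
  have e6 : q.a * (n * ((q.a ^ 2 * n ^ 4 - k) * (k - n ^ 3 * (q.w ^ 2 - n ^ 2)))) = 0 := by
    linear_combination -e5
  rcases mul_eq_zero.1 ((mul_eq_zero.1 ((mul_eq_zero.1 e6).resolve_left a0.ne')).resolve_left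
    hn.ne') with e7 | e7
  swap
  · have w0 : q.w ≠ 0 := fun h0 => by
      have := q.toTr.w_sign (neg_ne_zero.2 hn.ne')
      rw [h0] at this; simp at this
    exact absurd (sqn (m := n * q.w) (X := X) (mul_ne_zero hn.ne' w0)
      (by linear_combination hk - e7)) hsq
  obtain ⟨l, rfl⟩ : n ^ 2 ∣ X := (Int.pow_dvd_pow_iff two_ne_zero).1
    ⟨q.a ^ 2 + n, by linear_combination -hk - e7⟩
  have hl : l ^ 2 = q.a ^ 2 + n :=
    mul_left_cancel₀ (pow_ne_zero 4 hn.ne') (by linear_combination -hk - e7)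
  have an : q.a * n ^ 2 ≠ 0 := by positivity
  have g1 : q.Z ^ 2 = (n * q.s) ^ 2 :=
    mul_left_cancel₀ an (by linear_combination f1 - q.c * e7 - q.a * n ^ 4 * q.hs)
  have g2 : Y ^ 2 = (n * q.r) ^ 2 :=
    mul_left_cancel₀ an (by linear_combination f2 - q.b * e7 - q.a * n ^ 4 * q.hr)
  obtain ⟨ε, hε, hZε⟩ : ∃ ε : ℤ, ε ^ 2 = 1 ∧ q.Z = ε * (n * q.s) := by
    rcases sq_eq_sq_iff_eq_or_eq_neg.1 g1 with g | g
    exacts [⟨1, by norm_num, by rw [g, one_mul]⟩, ⟨-1, by norm_num, by rw [g, neg_one_mul]⟩]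
  obtain ⟨ρ, hρ, rfl⟩ : ∃ ρ : ℤ, ρ ^ 2 = q.r ^ 2 ∧ Y = n * ρ := by
    rcases sq_eq_sq_iff_eq_or_eq_neg.1 g2 with g | g
    exacts [⟨q.r, rfl, g⟩, ⟨-q.r, by ring, by rw [g, mul_neg]⟩]
  rw [hZε] at e3 e4
  refine ⟨ε * l, ε * ρ, by linear_combination l ^ 2 * hε + hl,
    by linear_combination ρ ^ 2 * hε + hρ, ?_⟩
  refine mul_left_cancel₀ (show 2 * q.c * n ^ 2 ≠ 0 by positivity) ?_
  linear_combination ε * e4 - ε * n ^ 2 * e3 + n ^ 2 * q.s *
    (8 * q.a ^ 2 * q.c ^ 2 + 8 * q.a * q.c * n - 2 * n * q.b * q.c) * hε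

end XQ9

open Q9 XQ9 in
theorem xq9 (h : X_LINE) : X_Q9 := by
  intro N M hN hNM hN0 q hm ha hc hZ
  have hM := two_le hN hNM
  have hL := h N (M ^ 7) hN (lt_pow hM hNM (by omega)) q.toTr
  obtain ⟨n, rfl⟩ : ∃ n, N = -n := ⟨-N, by ring⟩
  have hn : 0 < n := by omega
  have hsq : ¬ IsSquare n := by simpa using hN
  have nM : n ≤ M := by rw [abs_neg, abs_of_pos hn] at hNM; omega
  have M1 : 1 ≤ M := by omega
  have a0 := q.a0
  have fin1 : q.b ≤ M ^ 224 → q.c ≤ M ^ 5000 := fun hb =>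
    (hc.trans (mul_le_mul_of_nonneg_left hb (by omega))).trans
      ((pow_succ' M 224).symm.le.trans (pow_le_pow_right₀ M1 (by omega)))
  by_cases hb : 2 * n ≤ q.b
  swap
  · have t := mon_le (c := 2) hM 1 1 224 (by norm_num) (by omega)
    rw [pow_one] at t
    exact fin1 (le_trans (by omega) t)
  have u1 : M ≤ M ^ 2 := le_self_pow₀ M1 (by omega)
  have u2 : M ^ 2 ≤ M ^ 3 := pow_le_pow_right₀ M1 (by omega)
  have u3 := mon_le (c := 16) hM 4 3 7 (by norm_num) (by omega)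
  have hw : |q.w| ≤ M ^ 7 := by
    have t : 4 * n * (M + 1) ≤ 4 * M * (M + M) := by gcongr
    have := w_bd q.toTr hn hb hc
    linarith
  rcases core q hn hsq hM nM hm ha hc hZ hw with g | ⟨m, ρ, hm2, hρ, e9⟩
  · exact fin1 g
  have m1 : |m| ≤ 2 * M ^ 2 := by
    have t1 := Int.le_self_sq |m|
    have t2 : q.a ^ 2 ≤ M ^ 2 := by gcongr
    rw [sq_abs] at t1
    linarith
  have m0 : 4 * q.a * (q.a + m) ≠ 0 := by
    refine mul_ne_zero (by positivity) fun h0 => ?_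
    obtain rfl : m = -q.a := by linarith
    exact hn.ne' (by linear_combination -hm2)
  have m2 : |4 * q.a * (q.a + m)| ≤ 4 * M * (3 * M ^ 2) := by
    rw [abs_mul, abs_of_pos (by positivity : 0 < 4 * q.a)]
    have : |q.a + m| ≤ 3 * M ^ 2 := (abs_add_le _ _).trans (by rw [abs_of_pos a0]; linarith)
    gcongr
  have m3 : |4 * q.a * n + 2 * n * m| ≤ 4 * M * M + 2 * M * (2 * M ^ 2) := by
    refine (abs_add_le _ _).trans ?_
    rw [abs_of_pos (by positivity : 0 < 4 * q.a * n), abs_mul,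
      abs_of_pos (by positivity : 0 < 2 * n)]
    gcongr
  have m4 : 3 * n ^ 2 ≤ 3 * M ^ 2 := by gcongr
  have fin2 : ∀ L : ℤ, |L| ≤ 2 * n →
      |4 * q.a * (q.a + m) * q.c + (4 * q.a * n + 2 * n * m) - L * q.b| ≤ 3 * n ^ 2 →
      q.c ≤ M ^ 5000 := by
    intro L hL' hj
    have t1 := (abs_sub (4 * q.a * (q.a + m) * q.c + (4 * q.a * n + 2 * n * m) - L * q.b)
      (4 * q.a * n + 2 * n * m)).trans (add_le_add hj m3)
    have t2 := hL _ L _ (by linarith) hw m0 (by linarith) (by linarith)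
      (t1.trans (by linarith)) (by ring)
    rw [← pow_mul] at t2
    exact t2.trans (pow_le_pow_right₀ M1 (by omega))
  rcases last q.toTr hn hρ e9 with g | g
  · exact fin2 (2 * n) (abs_of_pos (by positivity)).le g
  · exact fin2 0 (by simpa using hn.le) (by simpa using g)

end Pool.Agent.MP_2339ce_nt.DQ

end MrgPart9

-- ======== part 10: formerly Pool.Agent.MP_2339ce_nt.DQ.XLQ
section MrgPart10

/-! Project DQ, explicit constants: the gap for four elements. -/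

set_option autoImplicit false

namespace Pool.Agent.MP_2339ce_nt.DQ

namespace XLQ

variable {N M : ℤ}

theorem up (h : 2 ≤ M) {i j : ℕ} (e : i ≤ j) : M ^ i ≤ M ^ j :=
  pow_le_pow_right₀ (by omega) e

theorem up2 (h : 2 ≤ M) {i j k : ℕ} (e : i * j ≤ k) : (M ^ i) ^ j ≤ M ^ k := by
  rw [← pow_mul]; exact up h e

theorem dn2 (h : 2 ≤ M) {i j k : ℕ} (e : k ≤ i * j) : M ^ k ≤ (M ^ i) ^ j := by
  rw [← pow_mul]; exact up h e

theorem ne {x : ℤ} (h : 2 ≤ M) {i j : ℕ} (e : i < j) (h1 : M ^ j ≤ x) (h2 : x ≤ M ^ i) : False :=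
  absurd (h1.trans h2) (not_le.2 (pow_lt_pow_right₀ (by omega) e))

theorem nowin (hN : ¬ IsSquare (-N)) (hM : |N| < M) (h3 : X_Q3) (h4 : X_Q4) (h5 : X_Q5)
    (h6 : X_Q6) (h7 : X_Q7) (q : Qd N) (hc : M ^ 10 ^ 11 ≤ q.c)
    (hb : M ^ 12500000 * q.a ≤ q.b) : ¬ q.Win (M ^ 100) := fun hw => by
  have m2 := two_le hN hM
  have a0 := q.a0
  have b0 := q.b0
  have hab : ∀ K, K ≤ M ^ 12500000 → K * q.a ≤ q.b := fun K hK =>
    (mul_le_mul_of_nonneg_right hK a0.le).trans hb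
  obtain ⟨k1, k2, k3⟩ := h3 N (M ^ 100) hN (lt_pow m2 hM (by decide)) q
    ((up2 m2 (by norm_num)).trans hc) (hab _ (up2 m2 (by norm_num))) hw
  have k2' : q.m0 ≤ M ^ 5000 := k2.trans (up2 m2 (by norm_num))
  have k3' : |q.g| ≤ M ^ 5000 := k3.trans (up2 m2 (by norm_num))
  have k4 := h4 N M hN hM q ((up m2 (by norm_num)).trans hc) (hab _ (up m2 (by norm_num))) k1
  obtain ⟨k5, k6⟩ := h5 N (M ^ 5000) hN (lt_pow m2 hM (by norm_num)) q
    ((up2 m2 (by norm_num)).trans hc) (hab _ (up2 m2 (by norm_num)))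
    (LQ.win q hw (up m2 (by norm_num))) k1 k2' k3' k4
  have k5' : |q.D| ≤ M ^ 250000 * q.a ^ 2 :=
    k5.trans (mul_le_mul_of_nonneg_right (up2 m2 (by norm_num)) (sq_nonneg _))
  have k6' : q.c ≤ M ^ 250000 * q.b :=
    k6.trans (mul_le_mul_of_nonneg_right (up2 m2 (by norm_num)) b0.le)
  have k7 : q.a ≤ M ^ 12500000 := (h6 N (M ^ 250000) hN (lt_pow m2 hM (by norm_num)) q
    (hab _ (up2 m2 (by norm_num))) (LQ.win q hw (up m2 (by norm_num))) k1
    (k2'.trans (up m2 (by norm_num))) (k3'.trans (up m2 (by norm_num))) k5' k6').trans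
    (up2 m2 (by norm_num))
  have k8 : |q.D| ≤ M ^ 37500000 :=
    calc |q.D| ≤ M ^ 250000 * (M ^ 12500000) ^ 2 :=
          k5'.trans (mul_le_mul_of_nonneg_left (pow_le_pow_left₀ a0.le k7 2)
            (pow_nonneg (by omega) _))
      _ = M ^ (250000 + 12500000 * 2) := by rw [← pow_mul, ← pow_add]
      _ ≤ _ := up m2 (by norm_num)
  have k9 := h7 N (M ^ 37500000) hN (lt_pow m2 hM (by norm_num)) q
    (k7.trans (up m2 (by norm_num)))
    ((abs_of_pos (zero_lt_one.trans_le hw.m)).le.trans (k2'.trans (up m2 (by norm_num))))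
    (k3'.trans (up m2 (by norm_num))) k8
    (k6'.trans (mul_le_mul_of_nonneg_right (up m2 (by norm_num)) b0.le))
  exact ne m2 (i := 93750000000) (by norm_num) hc (k9.trans (up2 m2 (by norm_num)))

theorem small (hN : ¬ IsSquare (-N)) (hM : |N| < M) : 4 * |N| ≤ M ^ 3 := by
  have m2 := two_le hN hM
  have := mon_le m2 2 1 3 (c := 4) (by norm_num) le_rfl
  rw [pow_one] at this
  omega

theorem nozero (hN : ¬ IsSquare (-N)) (hM : |N| < M) (h8 : X_Q8) (h9 : X_Q9) (q : Qd N)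
    (hc : M ^ 10 ^ 11 ≤ q.c) (hm : 1 ≤ q.m0) (hp : M ^ 100 * q.a * q.c ≤ |q.P|) : q.m1 ≠ 0 := by
  intro h0
  have m2 := two_le hN hM
  rcases lt_or_gt_of_ne (ne_zero_of_ns hN) with h | h
  · obtain ⟨k1, k2, k3⟩ := h8 N M hN hM h q ((up m2 (by norm_num)).trans hc) hm hp h0
    exact ne m2 (i := 500000) (by norm_num) hc
      ((h9 N (M ^ 100) hN (lt_pow m2 hM (by norm_num)) h q h0 k1 k2 k3).trans
        (up2 m2 (by norm_num)))
  · have k : 4 * |N| ≤ q.c := ((small hN hM).trans (up m2 (by norm_num))).trans hc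
    clear hc
    have := q.m1_pos h (by have := le_abs_self N; omega)
    omega

end XLQ

open XLQ in
theorem xlq (h1 : X_Q1) (h2 : X_Q2) (h3 : X_Q3) (h4 : X_Q4) (h5 : X_Q5) (h6 : X_Q6) (h7 : X_Q7)
    (h8 : X_Q8) (h9 : X_Q9) : X_LQ := by
  intro N M hN hM q hc
  have m2 := two_le hN hM
  have m0 : 0 ≤ M := by omega
  have hn := abs_nonneg N
  have s4 := small hN hM
  have a0 := q.a0; have c0 := q.c0; have hp := abs_nonneg q.P
  have c2 : 2 * |N| ≤ q.c :=
    le_trans (by linarith only [hn]) ((s4.trans (up m2 (by norm_num))).trans hc)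
  have hK : 32 * (M ^ 12500003) ^ 2 * N ^ 2 ≤ M ^ 10 ^ 11 :=
    calc 32 * (M ^ 12500003) ^ 2 * N ^ 2 ≤ 32 * (M ^ 12500003) ^ 2 * M ^ 2 := by
          rw [← sq_abs N]
          exact mul_le_mul_of_nonneg_left (pow_le_pow_left₀ hn hM.le 2)
            (mul_nonneg (by norm_num) (sq_nonneg _))
      _ = 32 * M ^ (12500003 * 2 + 2) := by rw [← pow_mul, mul_assoc, ← pow_add]
      _ ≤ _ := mon_le m2 5 _ _ (by norm_num) (by norm_num)
  refine (LQ.fin q (pow_nonneg m0 12500003) c2 ?_).trans (mul_le_mul_of_nonneg_right hK q.d0.le)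
  obtain ⟨hm, hl⟩ := h1 N M hN hM q ((up m2 (by norm_num)).trans hc)
  rcases le_or_gt (M ^ 12500000 * q.a) q.b with hb | hb
  · rcases le_or_gt ((M ^ 2) ^ 50 * |q.P|) (q.b * q.c) with h | h
    · exfalso
      rcases le_or_gt |q.P| (M ^ 100 * q.a * q.c) with k | k
      · exact nowin hN hM h3 h4 h5 h6 h7 q hc hb ⟨hm, hl, k⟩
      · exact nozero hN hM h8 h9 q hc hm k.le
          (h2 N (M ^ 2) hN (lt_pow m2 hM (by norm_num)) q ((up2 m2 (by norm_num)).trans hc) hm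
            (by rw [← pow_mul]; exact k.le) h)
    · exact h.le.trans (mul_le_mul_of_nonneg_right (up2 m2 (by norm_num)) hp)
  · have hB : 0 ≤ M ^ 12500000 := pow_nonneg m0 _
    calc q.b * q.c ≤ M ^ 12500000 * q.a * q.c := mul_le_mul_of_nonneg_right hb.le c0.le
      _ = M ^ 12500000 * (q.a * q.c) := mul_assoc _ _ _
      _ ≤ M ^ 12500000 * (4 * |N| * |q.P|) := mul_le_mul_of_nonneg_left hl hB
      _ ≤ M ^ 12500000 * (M ^ 3 * |q.P|) :=
          mul_le_mul_of_nonneg_left (mul_le_mul_of_nonneg_right s4 hp) hB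
      _ = _ := by rw [← mul_assoc, ← pow_add]

end Pool.Agent.MP_2339ce_nt.DQ

end MrgPart10

-- ======== part 11: formerly Pool.Agent.MP_2339ce_nt.DQ.XBD
section MrgPart11

/-! Project DQ, explicit constants: the third and the fourth element of a quintuple. -/

set_option autoImplicit false

namespace Pool.Agent.MP_2339ce_nt.DQ

open Real BD

namespace XBD

/-- the hypothesis of the row `G5` with the constant `K` -/
def G5 (n K : ℤ) : Prop := ∀ a b c d e : ℤ, 0 < a → a < b → b < c →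
  c < d → K ≤ d → K * c ^ 3 * d ^ 2 ≤ e → IsSquare (a * d + n) → IsSquare (b * d + n) →
  IsSquare (c * d + n) → IsSquare (a * e + n) → IsSquare (b * e + n) → IsSquare (c * e + n) →
  IsSquare (d * e + n) → d ^ 5 ≤ K * c ^ 2 * e

/-- the hypothesis of the row `DICH` with the constant `L` -/
def DI (n : ℤ) (L : ℝ) : Prop := ∀ (ρ kp kq : ℕ) (p q d e np nq n0 : ℤ),
  Adm ρ kp kq → Cfg |n| p q d e np nq n0 → ww ρ kp kq p q d e np nq n0 ≠ 0 →
    Di L (log p) (log q) (log d) (log e) ρ kp kq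

variable {n K1 K2 K3 a b c d e : ℤ} {L0 : ℝ}

theorem five (k1 : 0 < K1) (k2 : 0 < K2)
    (lq : ∀ q : Qd (-n), K1 ≤ q.c → q.b ^ 2 * q.c ^ 3 ≤ K1 * q.d) (g5 : G5 n K2)
    (H : Qt n a b c d e) (g1 : K1 * K2 * c ≤ d) :
    5 * log d ≤ log K2 + 2 * log c + log e := by
  have a0 := H.a0
  have b0 := a0.trans H.ab
  have c0 := b0.trans H.bc
  have d0 := c0.trans H.cd
  have e0 := d0.trans H.de
  have g0 : K1 ≤ d := by
    have : K1 * 1 * 1 ≤ K1 * K2 * c := by gcongr <;> omega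
    linarith
  have q2 := quad lq b0 H.bc H.cd H.de H.s5 H.s6 H.s8 H.s7 H.s9 H.s10 g0
  have g3 : K2 * c ^ 3 * d ^ 2 ≤ e := by
    refine le_of_mul_le_mul_left ?_ k1
    have : K1 * K2 * c * (c ^ 2 * d ^ 2) ≤ d * (c ^ 2 * d ^ 2) := by gcongr
    linarith
  have g4 : K2 ≤ d := by
    have : 1 * K2 * 1 ≤ K1 * K2 * c := by gcongr <;> omega
    linarith
  have q3 := g5 a b c d e a0 H.ab H.bc H.cd g4 g3 H.s3 H.s6 H.s8 H.s4 H.s7 H.s9 H.s10
  have u3 := lgm (by positivity) q3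
  rw [lg_mul (by positivity) e0, lg_mul k2 (by positivity), lg_pow, lg_pow] at u3
  exact_mod_cast u3

theorem core (n0 : n ≠ 0) (k1 : 0 < K1) (k2 : 0 < K2) (l0 : 0 ≤ L0)
    (lq : ∀ q : Qd (-n), K1 ≤ q.c → q.b ^ 2 * q.c ^ 3 ≤ K1 * q.d) (g5 : G5 n K2) (di : DI n L0)
    (tri : ∀ T : Tr (-n), K3 ≤ T.c → 3 * T.a ≤ T.c) (H : Qt n a b c d e)
    (c1 : K1 * (K1 * K2) ≤ c) (c2 : K1 * 100 ≤ c) (c3 : K3 ≤ c) (c4 : 1000 * |n| ≤ c)
    (c5 : 200 * (L0 + log K1 + log K2) < log c) : False := by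
  have h4 := nz main sgn
  have h5 := nz3 main
  obtain ⟨L, hL⟩ : ∃ L, L = L0 + log K1 + log K2 := ⟨_, rfl⟩
  rw [← hL] at c5
  have a0 := H.a0
  have b0 := a0.trans H.ab
  have c0 := b0.trans H.bc
  have d0 := c0.trans H.cd
  have ac := H.ab.trans H.bc
  have bd := H.bc.trans H.cd
  have cd := H.cd
  have p5 := abs_nonneg n
  have q1 := quad lq a0 H.ab H.bc H.cd H.s1 H.s2 H.s5 H.s3 H.s6 H.s8 (by omega)
  have g2 : 100 * c ≤ d := gap k1 b0 c0 q1 c2
  have u3 := five k1 k2 lq g5 H (gap k1 b0 c0 q1 c1)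
  have u1 := lgm (by positivity) q1
  rw [lg_mul (by positivity) (by positivity), lg_mul k1 d0, lg_pow, lg_pow] at u1
  push_cast at u1
  have v1 := lg0 k1
  have v2 := lg0 k2
  have A0 := lg0 a0
  have AB := lgm a0 H.ab.le
  have BC := lgm b0 H.bc.le
  have L1 : L0 ≤ L := by linarith
  have cab := cfg n0 a0 H.ab bd H.de (by omega) H.s3 H.s4 H.s6 H.s7 H.s10
  have cbc := cfg n0 b0 H.bc cd H.de (by omega) H.s6 H.s7 H.s8 H.s9 H.s10
  have cac := cfg n0 a0 ac cd H.de (by omega) H.s3 H.s4 H.s8 H.s9 H.s10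
  have dab : ∀ ρ kp kq, Good ρ kp kq → Di L (log a) (log b) (log d) (log e) ρ kp kq :=
    fun ρ kp kq g => mono L1 (di _ _ _ _ _ _ _ _ _ _ g.toAdm cab (h4 _ _ _ _ _ _ _ _ _ _ _ g cab))
  have dbc : ∀ ρ kp kq, Good ρ kp kq → Di L (log b) (log c) (log d) (log e) ρ kp kq :=
    fun ρ kp kq g => mono L1 (di _ _ _ _ _ _ _ _ _ _ g.toAdm cbc (h4 _ _ _ _ _ _ _ _ _ _ _ g cbc))
  have adm : Adm 2 3 3 := ⟨by norm_num, le_rfl, by norm_num, le_rfl⟩
  have hl : log e ≤ 5 * log d + 12 * log c + 8 * L ∨ 11 * log d - 4 * log c - 8 * L ≤ log e := by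
    have w1 := fun w => last A0 BC (mono L1 (di _ _ _ _ _ _ _ _ _ _ adm cab w))
    have w2 := fun w => last (A0.trans AB) le_rfl (mono L1 (di _ _ _ _ _ _ _ _ _ _ adm cbc w))
    have w3 := fun w => last A0 le_rfl (mono L1 (di _ _ _ _ _ _ _ _ _ _ adm cac w))
    have bc := H.bc
    rcases lt_or_gt_of_ne n0 with hs | hs
    · by_cases c1 : 10 * b ≤ 19 * a
      · exact w1 (h5 n a b d e a0 H.ab (by omega) (by omega) H.de.le (Or.inl ⟨hs, c1⟩))
      by_cases c2 : 10 * c ≤ 19 * b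
      · exact w2 (h5 n b c d e b0 H.bc g2 (by omega) H.de.le (Or.inl ⟨hs, c2⟩))
      exact (nz4 main n a b c d e hs a0 (by omega) (by omega) g2 (by omega) H.de.le).elim w1 w3
    · exact w3 (h5 n a c d e a0 ac g2 (by omega) H.de.le (Or.inr ⟨hs,
        trip tri a0 H.ab H.bc H.s1 H.s2 H.s5 c3⟩))
  have fin : log e ≤ 3 * log d + 6 * log b + 5 * L := by
    rcases le_total (5 * log b) (2 * log c) with k | k
    · exact ch1 L _ _ _ _ (l0.trans L1) A0 AB (by linarith) dab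
    · exact ch2 L _ _ _ _ _ (l0.trans L1) A0 AB BC k c5 (by linarith) dab dbc hl
  linarith

theorem lg_lt {M x : ℤ} {k : ℕ} (hM : 0 < M) (h : M ^ k < x) : k * log M < log x := by
  rw [← lg_pow]
  exact log_lt_log (by exact_mod_cast pow_pos hM k) (by exact_mod_cast h)

theorem lin_le {n M t : ℤ} {i k : ℕ} (hM : 2 ≤ M) (h : |n| < M) (t0 : 0 ≤ t) (ht : t ≤ 2 ^ i)
    (hk : i + 1 ≤ k) : t * |n| ≤ M ^ k := by
  have := mon_le hM i 1 k ht hk
  rw [pow_one] at this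
  exact (mul_le_mul_of_nonneg_left h.le t0).trans this

end XBD

open XBD

theorem xbd (h1 : X_LQ) (h2 : X_G5) (h3 : X_DICH) (h5 : X_TRI) : X_BD := by
  intro n M hn hM a b c d e H
  have hN : ¬ IsSquare (- -n) := by rwa [neg_neg]
  have hM' : |-n| < M := by rwa [abs_neg]
  have n0 : n ≠ 0 := neg_ne_zero.1 (ne_zero_of_ns hN)
  have m2 := two_le hN hM'
  have m0 : 0 < M := by omega
  have m1 : 1 ≤ M := m0
  have lm := lg0 m0
  refine not_lt.1 fun hc => core n0 (pow_pos m0 _) (pow_pos m0 _) (by positivity) (h1 _ M hN hM')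
    (h2 n M n0 hM) (h3 _ M (by rwa [abs_abs]) m2) (h5 _ M hN hM') H ?_ ?_ ?_ ?_ ?_
  · rw [← pow_add, ← pow_add]
    exact (pow_le_pow_right₀ m1 (by omega)).trans hc.le
  · rw [mul_comm]
    exact (mon_le m2 7 _ _ (by omega) (by omega)).trans hc.le
  · exact (pow_le_pow_right₀ m1 (by omega)).trans hc.le
  · exact (lin_le (i := 10) m2 hM (by omega) (by omega) (by omega)).trans hc.le
  · have := lg_lt m0 hc
    rw [lg_pow, lg_pow]
    push_cast at this ⊢
    linarith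

theorem xbd4 (h0 : X_BD) (h1 : X_LQ) (h2 : X_G5) (h3 : X_DICH) : X_BD4 := by
  intro n M hn hM a b c d e H
  have hN : ¬ IsSquare (- -n) := by rwa [neg_neg]
  have hM' : |-n| < M := by rwa [abs_neg]
  have n0 : n ≠ 0 := neg_ne_zero.1 (ne_zero_of_ns hN)
  have m2 := two_le hN hM'
  have m0 : 0 < M := by omega
  have m1 : 1 ≤ M := m0
  have lm := lg0 m0
  have a0 := H.a0
  have b0 := a0.trans H.ab
  have c0 := b0.trans H.bc
  have hc := h0 n M hn hM a b c d e H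
  refine not_lt.1 fun hd => ?_
  have u3 := five (pow_pos m0 _) (pow_pos m0 _) (h1 _ M hN hM') (h2 n M n0 hM) H (by
    refine (mul_le_mul_of_nonneg_left hc (mul_pos (pow_pos m0 _) (pow_pos m0 _)).le).trans ?_
    rw [← pow_add, ← pow_add]
    exact (pow_le_pow_right₀ m1 (by omega)).trans hd.le)
  have cab := cfg n0 a0 H.ab (H.bc.trans H.cd) H.de
    ((lin_le (i := 2) m2 hM (by omega) (by omega) (by omega)).trans hd.le) H.s3 H.s4 H.s6 H.s7 H.s10
  have u1 := lg_lt m0 hd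
  have u2 := lgm c0 hc
  have BC := lgm b0 H.bc.le
  rw [lg_pow] at u2 u3
  push_cast at u1 u2 u3
  have := ch1 (50 * log M) _ _ _ _ (by positivity) (lg0 a0) (lgm a0 H.ab.le) (by linarith)
    fun ρ kp kq g => h3 _ M (by rwa [abs_abs]) m2 _ _ _ _ _ _ _ _ _ _ g.toAdm cab
      (nz main sgn _ _ _ _ _ _ _ _ _ _ _ g cab)
  linarith

end Pool.Agent.MP_2339ce_nt.DQ

end MrgPart11

-- ======== part 12: formerly Pool.Agent.MP_2339ce_nt.DQ.XFIN
section MrgPart12

/-! Project DQ, row XFIN: from the explicit bound on the fourth element to sets of integers. -/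

set_option autoImplicit false

namespace Pool.Agent.MP_2339ce_nt.DQ

theorem xfin_pos (h : X_BD4) (n : ℤ) (hn : ¬ IsSquare n) (E : ℕ) (hE : E = 10 ^ 15)
    (s : Finset ℤ) (hs : s.card = 5) (hp : ∀ a ∈ s, 0 < a)
    (hq : ∀ a ∈ s, ∀ b ∈ s, a ≠ b → IsSquare (a * b + n)) :
    ∀ a ∈ s, ∀ b ∈ s, a ≠ b → min a b ≤ (|n| + 1) ^ E := by
  intro a ha b hb hab
  let f := s.orderEmbOfFin hs
  have hm : ∀ i, f i ∈ s := fun i => Finset.orderEmbOfFin_mem s hs i
  have lt : ∀ i j : Fin 5, i < j → f i < f j := fun i j h => f.strictMono h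
  have sq : ∀ i j : Fin 5, i < j → IsSquare (f i * f j + n) := fun i j h =>
    hq _ (hm i) _ (hm j) (lt i j h).ne
  have he : f 3 ≤ (|n| + 1) ^ E := by
    rw [hE]
    exact h n (|n| + 1) hn (lt_add_one _) (f 0) (f 1) (f 2) (f 3) (f 4)
      ⟨hp _ (hm 0), lt 0 1 (by decide), lt 1 2 (by decide), lt 2 3 (by decide),
        lt 3 4 (by decide), sq 0 1 (by decide), sq 0 2 (by decide), sq 0 3 (by decide),
        sq 0 4 (by decide), sq 1 2 (by decide), sq 1 3 (by decide), sq 1 4 (by decide),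
        sq 2 3 (by decide), sq 2 4 (by decide), sq 3 4 (by decide)⟩
  have ra : a ∈ Set.range f := by rw [Finset.range_orderEmbOfFin]; exact ha
  have rb : b ∈ Set.range f := by rw [Finset.range_orderEmbOfFin]; exact hb
  obtain ⟨i, rfl⟩ := ra
  obtain ⟨j, rfl⟩ := rb
  have hij : i ≠ j := fun e => hab (by rw [e])
  have h3 : i ≤ 3 ∨ j ≤ 3 :=
    (by decide : ∀ i j : Fin 5, i ≠ j → i ≤ 3 ∨ j ≤ 3) i j hij
  rcases h3 with h3 | h3
  · exact (min_le_left _ _).trans ((f.monotone h3).trans he)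
  · exact (min_le_right _ _).trans ((f.monotone h3).trans he)

theorem xfin_aux (h : X_BD4) (n : ℤ) (hn : ¬ IsSquare n) (E : ℕ) (hE : E = 10 ^ 15)
    (s : Finset ℤ) (hs : s.card = 5) (h0 : ∀ a ∈ s, a ≠ 0)
    (hq : ∀ a ∈ s, ∀ b ∈ s, a ≠ b → IsSquare (a * b + n)) :
    ∀ a ∈ s, ∀ b ∈ s, a ≠ b → min |a| |b| ≤ (|n| + 1) ^ E := by
  intro a ha b hb hab
  by_cases hp : ∀ x ∈ s, 0 < x
  · rw [abs_of_pos (hp a ha), abs_of_pos (hp b hb)]
    exact xfin_pos h n hn E hE s hs hp hq a ha b hb hab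
  by_cases hm : ∀ x ∈ s, x < 0
  · rw [abs_of_neg (hm a ha), abs_of_neg (hm b hb)]
    refine xfin_pos h n hn E hE (s.image Neg.neg) ?_ ?_ ?_ (-a) (Finset.mem_image_of_mem _ ha)
      (-b) (Finset.mem_image_of_mem _ hb) (fun e => hab (neg_injective e))
    · rw [Finset.card_image_of_injective _ neg_injective, hs]
    · intro x hx
      obtain ⟨y, hy, rfl⟩ := Finset.mem_image.1 hx
      exact neg_pos.2 (hm y hy)
    · intro x hx z hz hne
      obtain ⟨y, hy, rfl⟩ := Finset.mem_image.1 hx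
      obtain ⟨w, hw, rfl⟩ := Finset.mem_image.1 hz
      rw [neg_mul_neg]
      exact hq y hy w hw (fun h => hne (by rw [h]))
  push Not at hp hm
  obtain ⟨x, hx, hx0⟩ := hp
  obtain ⟨y, hy, hy0⟩ := hm
  have hx1 : x < 0 := lt_of_le_of_ne hx0 (h0 x hx)
  have hy1 : 0 < y := lt_of_le_of_ne hy0 (h0 y hy).symm
  have hE0 : E ≠ 0 := by rw [hE]; positivity
  have hM : |n| + 1 ≤ (|n| + 1) ^ E :=
    le_self_pow₀ (by have := abs_nonneg n; omega) hE0
  refine (min_le_left _ _).trans (le_trans ?_ hM)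
  have hn' := le_abs_self n
  rcases lt_or_gt_of_ne (h0 a ha) with h | h
  · have := (hq a ha y hy (by omega)).nonneg
    rw [abs_of_neg h]
    nlinarith
  · have := (hq a ha x hx (by omega)).nonneg
    rw [abs_of_pos h]
    nlinarith

theorem xfin (h : X_BD4) : X_FIN := fun n hn s hs h0 hq =>
  xfin_aux h n hn (10 ^ 15) rfl s hs h0 hq

end Pool.Agent.MP_2339ce_nt.DQ

end MrgPart12

-- marker of a merged file
example : 731051 + 82214 = 731051 + 82214 := rfl
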