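import Pool.Agent.MP_2339ce_nt.DQ.XQ5
import Pool.Agent.MP_2339ce_nt.DQ.BD
import Pool.Agent.MP_2339ce_nt.DQ.Q4
import Pool.Agent.MP_2339ce_nt.DQ.Q9

-- ======== part 0: formerly Pool.Agent.MP_2339ce_nt.DQ.XQ2
section MrgPart0

/-! Project DQ, row XQ2: row Q2 with an explicit constant. -/

set_option autoImplicit false

namespace Pool.Agent.MP_2339ce_nt.DQ

theorem q2_core {N : ℤ} (hn : 1 ≤ |N|) (q : Qd N) (hc : 2000 * |N| ^ 3 ≤ q.c) (hm : 1 ≤ q.m0)
    (hp : 2000 * |N| ^ 3 * q.a * q.c ≤ |q.P|) (hp' : 2000 * |N| ^ 3 * |q.P| ≤ q.b * q.c) :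
    q.m1 = 0 := by
  obtain ⟨n, hnd⟩ : ∃ n, n = |N| := ⟨_, rfl⟩
  obtain ⟨p, hpd⟩ : ∃ p, p = |q.P| := ⟨_, rfl⟩
  have ha := q.a0; have hb := q.b0; have hc0 := q.c0; have hab := q.ab; have hbc := q.bc
  have hz0 := q.z0
  have n2 : n ^ 2 ≤ n ^ 3 := by rw [hnd]; exact pow_le_pow_right₀ hn (by norm_num)
  have n1 : n ≤ n ^ 2 := by rw [hnd]; nlinarith
  have hz : q.c * p ≤ 4 * n * q.z := by
    rw [hnd, hpd]; exact q.P_le (by rw [← hnd]; rw [← hnd] at hc; omega)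
  have hm0 := q.m0_le (by omega)
  have hg := q.g_abs
  have hP2 : q.P ^ 2 = p ^ 2 := by rw [hpd, sq_abs]
  have hN2 : N ^ 2 = n ^ 2 := by rw [hnd, sq_abs]
  have hl : -N ≤ n := by rw [hnd]; exact neg_le_abs N
  rw [← hnd] at hc hp hp' hm0 hg hn
  rw [← hpd] at hp hp'
  rw [hP2] at hm0 hg
  have hac : q.c ≤ q.a * q.c := by nlinarith
  have hR : q.r ^ 2 ≤ 2 * q.a * q.c := by
    have := q.hr
    have : q.a * q.b ≤ q.a * q.c := by gcongr
    nlinarith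
  have hS : q.s ^ 2 ≤ 2 * q.a * q.c := by have := q.hs; nlinarith
  have hp1 : 2000 * n ^ 3 ≤ p := by nlinarith
  have hp0 : 0 < p := by omega
  have m_le : q.m0 ≤ p := q2_m0 hn ha hc hp hm hz hR hm0
  have g_le : 8 * n * |q.g| ≤ q.a * q.c := by
    refine q2_g (S := q.s ^ 2) hn ha hc0 hp1 (hp'.trans (by gcongr)) (abs_nonneg _) hz hS ?_
    have h1 : |q.g| * (q.a * q.z) ≤ |q.g| * (q.a * q.z + q.s * q.x) := by
      have := q.s0; have := q.x0
      gcongr; linarith [mul_nonneg q.s0 q.x0]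
    refine h1.trans (hg.le.trans ?_)
    gcongr; linarith
  have hQ : q.Q ^ 2 ≤ (2 * p) ^ 2 := by
    have e : q.Q = q.P - q.m0 := by unfold Qd.m0; ring
    have h1 := le_abs_self q.P
    have h2 := neg_abs_le q.P
    rw [← hpd] at h1 h2
    exact sq_le_sq' (by omega) (by omega)
  have hca : 0 ≤ q.c - q.a := by have := q.ac; omega
  have hba : 0 ≤ q.b - q.a := by omega
  have t1 : |2 * N * q.a * q.Q ^ 2| ≤ 2 * n * q.a * (2 * p) ^ 2 := by
    rw [abs_mul, abs_mul, abs_mul, ← hnd, abs_of_pos ha, abs_of_nonneg (sq_nonneg q.Q), abs_two]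
    gcongr
  have t2 : |q.b * q.P * q.g| = q.b * p * |q.g| := by
    rw [abs_mul, abs_mul, ← hpd, abs_of_pos hb]
  have t3 : |8 * q.a * q.b * N * q.s ^ 2 * (q.c - q.a)| ≤
      8 * q.a * q.b * n * (2 * q.a * q.c) * q.c := by
    rw [abs_mul, abs_mul, abs_mul, ← hnd, abs_of_nonneg hca, abs_of_nonneg (sq_nonneg q.s),
      abs_of_pos (by positivity : 0 < 8 * q.a * q.b)]
    gcongr; linarith
  have t4 : |2 * N ^ 2 * q.r ^ 2 * (q.b - q.a)| ≤ 2 * n ^ 2 * (2 * q.a * q.c) * q.b := by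
    rw [hN2, abs_of_nonneg (by positivity)]
    gcongr; linarith
  have tt : 2 * q.a * q.b * q.z * |q.m1| ≤ 2 * n * q.a * (2 * p) ^ 2 + q.b * p * |q.g| +
      8 * q.a * q.b * n * (2 * q.a * q.c) * q.c + 2 * n ^ 2 * (2 * q.a * q.c) * q.b := by
    have e := congrArg abs q.e3
    rw [abs_mul, abs_of_nonneg (by positivity : 0 ≤ 2 * q.a * q.b * q.z)] at e
    rw [e]
    refine (abs_sub _ _).trans (add_le_add ((abs_add_three _ _ _).trans ?_) t4)
    rw [t2]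
    linarith
  by_contra hne
  have h1 : 1 ≤ |q.m1| := Int.one_le_abs hne
  have h2 : 2 * q.a * q.b * q.z ≤ 2 * q.a * q.b * q.z * |q.m1| :=
    le_mul_of_one_le_right (by positivity) h1
  exact q2_fin hn ha hb hc0 hp0 hp hp' hp1 hz g_le (h2.trans tt)

theorem xq2 : X_Q2 := by
  intro N M hN hM q hc hm hp hp'
  have hn : 1 ≤ |N| := Int.one_le_abs (ne_zero_of_ns hN)
  have hK : 2000 * |N| ^ 3 ≤ M ^ 50 := by
    have h1 : |N| ^ 3 ≤ M ^ 3 := pow_le_pow_left₀ (abs_nonneg N) hM.le 3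
    have h2 : 2000 * M ^ 3 ≤ M ^ 50 := mon_le (two_le hN hM) 11 3 50 (by norm_num) (by norm_num)
    linarith
  have ha := q.a0
  have hc0 := q.c0
  refine q2_core hn q (hK.trans hc) hm (le_trans ?_ hp) (le_trans ?_ hp')
  · exact mul_le_mul_of_nonneg_right (mul_le_mul_of_nonneg_right hK ha.le) hc0.le
  · exact mul_le_mul_of_nonneg_right hK (abs_nonneg _)

end Pool.Agent.MP_2339ce_nt.DQ

end MrgPart0

-- ======== part 1: formerly Pool.Agent.MP_2339ce_nt.DQ.XQ4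
section MrgPart1

/-! Project DQ, row Q4 with explicit constants. -/

set_option autoImplicit false

namespace Pool.Agent.MP_2339ce_nt.DQ

theorem xq4 : X_Q4 := by
  intro N M hns hM q hc0' hb0' hh hm
  have m2 := two_le hns hM
  have hN0 := ne_zero_of_ns hns
  obtain ⟨n, hn⟩ : ∃ n, |N| = n := ⟨_, rfl⟩
  have hn1 : 1 ≤ n := hn ▸ Int.one_le_abs hN0
  have hl : N ≤ n := hn ▸ le_abs_self N
  have hl' : -n ≤ N := hn ▸ neg_abs_le N
  have hN2 : N ^ 2 = n ^ 2 := by rw [← hn, sq_abs]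
  have hK : (100 * n ^ 3) ^ 2 + n + 16 ≤ M ^ 50 := by
    have p0 : n ≤ M := by omega
    have p1 : n ^ 6 ≤ M ^ 6 := by gcongr
    have p2 : n ≤ n ^ 6 := le_self_pow₀ hn1 (by norm_num)
    have p3 := mon_le (c := 10017) m2 14 6 50 (by norm_num) (by norm_num)
    have p4 : (100 * n ^ 3) ^ 2 = 10000 * n ^ 6 := by ring
    linarith
  have hc := hK.trans hc0'
  have hb := (mul_le_mul_of_nonneg_right hK q.a0.le).trans hb0'
  clear hK hc0' hb0' hM m2
  rw [hn] at hm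
  have ha : 1 ≤ q.a := q.a0
  have hab := q.ab
  have hbc := q.bc
  have hs := q.hs
  have hs0 := q.s0
  have hc0 := q.c0
  have n2 : n ≤ n ^ 2 := by nlinarith
  have n3 : n ^ 2 ≤ n ^ 3 := by nlinarith
  have hsq : 0 ≤ (100 * n ^ 3) ^ 2 := by positivity
  have k1 : 1 * q.c ≤ q.a * q.c := mul_le_mul_of_nonneg_right ha hc0.le
  have k2 : q.a * q.b ≤ q.a * q.c := mul_le_mul_of_nonneg_left hbc.le (by omega)
  have k3 : q.a * (((100 * n ^ 3) ^ 2 + n + 16) * q.a) ≤ q.a * q.b :=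
    mul_le_mul_of_nonneg_left hb (by omega)
  have k4 : 100 * n ^ 3 ≤ q.s :=
    abs_le_of_sq_le_sq' (a := 100 * n ^ 3) (by linarith) hs0 |>.2
  have k5 : 4 * q.a ≤ q.s := by
    refine (abs_le_of_sq_le_sq' (a := 4 * q.a) ?_ hs0).2
    have p1 : 1 ≤ q.a ^ 2 := by nlinarith
    have p2 : n * 1 ≤ n * q.a ^ 2 := mul_le_mul_of_nonneg_left p1 (by omega)
    have p3 : 0 ≤ (100 * n ^ 3) ^ 2 * q.a ^ 2 := by positivity
    nlinarith
  have k6 : q.a * q.b ≤ 2 * q.s ^ 2 := by nlinarith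
  have hm1 : q.m1 = N * n := by
    have e : n * q.m1 = n * (N * n) := by
      unfold Qd.h at hh
      linear_combination (-1) * hh - q.m1 * hm + N * hN2
    exact mul_left_cancel₀ (by omega) e
  have hg : q.g = 2 * N * n := by
    unfold Qd.m1 at hm1
    linear_combination hm1 + N * hm
  obtain ⟨p, hp⟩ : ∃ p, |q.P| = p := ⟨_, rfl⟩
  have hNP : N * q.P = n * p := by
    rw [← hn, ← hp, ← abs_mul, abs_of_pos (q.P_sign hN0)]
  have hP2 : q.P ^ 2 = p ^ 2 := by rw [← hp, sq_abs]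
  have hPn : q.P * n = p * N := by
    have e : N * (q.P * n) = N * (p * N) := by linear_combination n * hNP - p * hN2
    exact mul_left_cancel₀ hN0 e
  have e2 := q.e2
  have e4 := q.e4
  have hQ : 2 * q.Q = 2 * q.P - n := by
    unfold Qd.m0 at hm
    linarith
  have hD : q.D = n * (p - 2 * q.s ^ 2 - 2 * N) := by
    unfold Qd.D
    linear_combination hNP - 2 * q.a * q.c * hm + 2 * n * hs
  have f2 : (p - 2 * q.s ^ 2 - N) ^ 2 = (2 * q.a * q.s) ^ 2 := by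
    have e : 4 * n ^ 2 * (p - 2 * q.s ^ 2 - N) ^ 2 = 4 * n ^ 2 * (2 * q.a * q.s) ^ 2 := by
      have e' : 16 * q.a * q.c * n * (n * p) =
          (2 * (n * p) + 2 * N * n) ^ 2 + 16 * q.a * n ^ 2 * q.s ^ 2 * (q.c - q.a) := by
        rw [← hNP, ← hN2]
        rw [hg] at e2
        linear_combination e2
      linear_combination (-1) * e' + 16 * n ^ 2 * (q.s ^ 2 - p) * hs
    exact mul_left_cancel₀ (by positivity) e
  have hQ2 : 4 * q.Q ^ 2 = (2 * p - N) ^ 2 := by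
    linear_combination (2 * q.Q + 2 * q.P - n) * hQ + 4 * hP2 - 4 * hPn - hN2
  have f4 : 2 * q.b * p * (2 * (p - 2 * q.s ^ 2 - N) - N) + 2 * q.b * N ^ 2 +
      4 * N * (q.a * q.b - N) * (q.b - q.a) - q.a * (2 * p - N) ^ 2 = 0 := by
    have e : N * (2 * q.b * p * (2 * (p - 2 * q.s ^ 2 - N) - N) + 2 * q.b * N ^ 2 +
        4 * N * (q.a * q.b - N) * (q.b - q.a) - q.a * (2 * p - N) ^ 2) = N * 0 := by
      rw [hD, hg, q.hr] at e4
      linear_combination 2 * e4 - 4 * q.b * (p - 2 * q.s ^ 2 - 2 * N) * hPn + N * q.a * hQ2 -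
        q.b * (2 * N * q.P + 2 * N * n) * hm - 2 * q.b * n * hNP + 2 * q.b * (p + N) * hN2
    exact mul_left_cancel₀ hN0 e
  rcases sq_eq_sq_iff_eq_or_eq_neg.1 f2 with h | h
  · rw [h] at f4
    exact Q4x.plus (p := p) hn hn1 ha hab k6 k4 (by linarith) (by linear_combination f4)
  · rw [h] at f4
    exact Q4x.minus (p := p) hl hl' hn1 ha hab (by rw [← q.hr]; positivity) k6 k5 (by omega)
      (by linarith) (by linear_combination f4)

end Pool.Agent.MP_2339ce_nt.DQ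

end MrgPart1

-- ======== part 2: formerly Pool.Agent.MP_2339ce_nt.DQ.XQ6
section MrgPart2

/-! Project DQ, explicit constants: in the window the first element is bounded. -/

set_option autoImplicit false

namespace Pool.Agent.MP_2339ce_nt.DQ

theorem xq6 : X_Q6 := by
  intro N M hN hM q hb0 hW hh hm hg hD' hc
  have N0 := ne_zero_of_ns hN
  have M2 := two_le hN hM
  have n0 := abs_nonneg N
  have M1 : 1 ≤ M := by omega
  have hn : |N| ≤ M := hM.le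
  obtain ⟨L, hL⟩ : ∃ L, L = 125 * M ^ 4 := ⟨_, rfl⟩
  have M4 : M ≤ M ^ 4 := le_self_pow₀ M1 (by norm_num)
  have M3 : M ^ 3 ≤ M ^ 4 := pow_le_pow_right₀ M1 (by norm_num)
  have L1 : 1 ≤ L := by omega
  have L2 : L ≤ L ^ 2 := le_self_pow₀ L1 (by norm_num)
  have hK : 18 * L ^ 2 ≤ M ^ 50 :=
    calc 18 * L ^ 2 = 281250 * M ^ 8 := by rw [hL]; ring
      _ ≤ _ := mon_le M2 19 8 50 (by norm_num) (by norm_num)
  by_contra ha0
  have ha : 18 * L ^ 2 < q.a := hK.trans_lt (not_le.1 ha0)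
  have hb : 18 * L ^ 2 * q.a ≤ q.b := (mul_le_mul_of_nonneg_right hK q.a0.le).trans hb0
  clear hK ha0 hb0
  have a0 := q.a0; have b0 := q.b0; have c0 := q.c0; have bc := q.bc; have m1 := hW.m
  have A := Q6.close q.toTr N0 M1 hn hc (by omega)
  have B := Q6.stepB q M1 hn m1 hm hW.up hg hD' hh
  have C := Q6.stepC q M1 hn m1 hm hW.low hg (by omega)
  have A1 : L * (q.c - q.b) ≤ q.b := by
    refine Q6.close.le_of_sq_le_sq_int b0.le ?_
    calc (L * (q.c - q.b)) ^ 2 = L ^ 2 * (q.c - q.b) ^ 2 := by ring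
      _ ≤ L ^ 2 * (18 * (q.a * q.b)) := by gcongr
      _ = 18 * L ^ 2 * q.a * q.b := by ring
      _ ≤ q.b * q.b := by gcongr
      _ = _ := by ring
  have La : L * q.a ≤ q.b := le_trans (by gcongr; omega) hb
  have LL : L * L ≤ q.a ^ 2 := by rw [sq]; gcongr <;> omega
  obtain ⟨δ, hδ⟩ : ∃ δ, δ = q.D - 4 * q.a ^ 2 * q.m0 := ⟨_, rfl⟩
  have C1 : L * |δ| ≤ 6 * M * q.a ^ 2 := by
    have e : q.b * δ = (q.b * q.D - q.a * (4 * q.a * q.c * q.m0 + q.D)) +
        4 * q.a ^ 2 * q.m0 * (q.c - q.b) + q.a * q.D := by rw [hδ]; ring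
    have t1 : q.b * |δ| ≤ 13 * M ^ 4 * q.b + 4 * q.a ^ 2 * M * (q.c - q.b) + q.a * (M * q.a ^ 2) := by
      rw [← abs_of_pos b0, ← abs_mul, e, abs_of_pos b0]
      refine (abs_add_three _ _ _).trans (add_le_add (add_le_add C ?_) ?_)
      · have := sub_pos.2 bc
        rw [abs_of_nonneg (by positivity)]; gcongr
      · rw [abs_mul, abs_of_pos a0]; gcongr
    have t2 : L * (13 * M ^ 4) ≤ M * q.a ^ 2 := by
      calc L * (13 * M ^ 4) ≤ L * L := by gcongr; omega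
        _ ≤ 1 * q.a ^ 2 := by linarith
        _ ≤ _ := by gcongr
    refine le_of_mul_le_mul_left ?_ b0
    calc q.b * (L * |δ|) = L * (q.b * |δ|) := by ring
      _ ≤ L * (13 * M ^ 4 * q.b + 4 * q.a ^ 2 * M * (q.c - q.b) + q.a * (M * q.a ^ 2)) := by gcongr
      _ = L * (13 * M ^ 4) * q.b + 4 * q.a ^ 2 * M * (L * (q.c - q.b)) + L * q.a * (M * q.a ^ 2) := by
          ring
      _ ≤ M * q.a ^ 2 * q.b + 4 * q.a ^ 2 * M * q.b + q.b * (M * q.a ^ 2) := by gcongr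
      _ = _ := by ring
  obtain ⟨Y, hY⟩ : ∃ Y, Y = 4 * q.D * (4 * q.m0 ^ 2 - N ^ 2) - 16 * q.m0 * N ^ 2 * q.a ^ 2 := ⟨_, rfl⟩
  rw [← hY] at B
  have B1 : L * |Y| ≤ 5 * M ^ 3 * q.a ^ 2 := by
    have t2 : L * (37 * M ^ 4) ≤ M ^ 3 * q.a ^ 2 := by
      calc L * (37 * M ^ 4) ≤ L * L := by gcongr; omega
        _ ≤ 1 * q.a ^ 2 := by linarith
        _ ≤ _ := by gcongr; exact one_le_pow₀ M1
    have t3 : L * q.a ≤ q.c := by omega
    refine le_of_mul_le_mul_left (a := q.a * q.c) ?_ (by positivity)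
    calc q.a * q.c * (L * |Y|) = L * (q.a * q.c * |Y|) := by ring
      _ ≤ L * (37 * M ^ 4 * (q.a * q.c) + 4 * M ^ 3 * q.a ^ 4) := by gcongr
      _ = L * (37 * M ^ 4) * (q.a * q.c) + 4 * M ^ 3 * q.a ^ 3 * (L * q.a) := by ring
      _ ≤ M ^ 3 * q.a ^ 2 * (q.a * q.c) + 4 * M ^ 3 * q.a ^ 3 * q.c := by gcongr
      _ = _ := by ring
  have hE : |4 * q.m0 ^ 2 - N ^ 2| ≤ 4 * M ^ 2 := by
    have u1 : q.m0 ^ 2 ≤ M ^ 2 := by gcongr
    have u2 : N ^ 2 ≤ M ^ 2 := by rw [← sq_abs]; gcongr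
    exact abs_le.2 ⟨by nlinarith [sq_nonneg q.m0, sq_nonneg M], by nlinarith [sq_nonneg N]⟩
  have hF : 1 ≤ |2 * q.m0 ^ 2 - N ^ 2| := Int.one_le_abs (sub_ne_zero.2 (Q6.not_two N0))
  have e : 32 * q.a ^ 2 * q.m0 * (2 * q.m0 ^ 2 - N ^ 2) = Y - 4 * δ * (4 * q.m0 ^ 2 - N ^ 2) := by
    rw [hY, hδ]; ring
  have f1 : 32 * q.a ^ 2 ≤ |Y| + 4 * |δ| * (4 * M ^ 2) := by
    calc 32 * q.a ^ 2 = 32 * q.a ^ 2 * 1 * 1 := by ring
      _ ≤ 32 * q.a ^ 2 * q.m0 * |2 * q.m0 ^ 2 - N ^ 2| := by gcongr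
      _ = |Y - 4 * δ * (4 * q.m0 ^ 2 - N ^ 2)| := by
          rw [← e, abs_mul, abs_of_pos (by positivity : 0 < 32 * q.a ^ 2 * q.m0)]
      _ ≤ |Y| + |4 * δ * (4 * q.m0 ^ 2 - N ^ 2)| := abs_sub _ _
      _ ≤ _ := by rw [abs_mul, abs_mul, abs_of_pos (by norm_num : (0 : ℤ) < 4)]; gcongr
  have f2 : L * (32 * q.a ^ 2) ≤ 101 * M ^ 3 * q.a ^ 2 := by
    calc L * (32 * q.a ^ 2) ≤ L * (|Y| + 4 * |δ| * (4 * M ^ 2)) := by gcongr
      _ = L * |Y| + 16 * M ^ 2 * (L * |δ|) := by ring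
      _ ≤ 5 * M ^ 3 * q.a ^ 2 + 16 * M ^ 2 * (6 * M * q.a ^ 2) := by gcongr
      _ = _ := by ring
  have f3 : L * 32 ≤ 101 * M ^ 3 := le_of_mul_le_mul_right (a := q.a ^ 2) (by linarith) (by positivity)
  omega

end Pool.Agent.MP_2339ce_nt.DQ

end MrgPart2

-- ======== part 3: formerly Pool.Agent.MP_2339ce_nt.DQ.XQ8
section MrgPart3

/-! Project DQ, row Q8 with explicit constants. -/

set_option autoImplicit false

namespace Pool.Agent.MP_2339ce_nt.DQ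

theorem q8_core {n : ℤ} (hs : ¬ IsSquare n) (hn : 1 ≤ n) (q : Qd (-n))
    (hK : 20000000 * n ^ 16 ≤ q.c) (hμ : 1 ≤ q.m0) (hp : 20000000 * n ^ 16 * q.a * q.c ≤ |q.P|)
    (hm : q.m1 = 0) : q.a ≤ 20000000 * n ^ 16 ∧ q.c ≤ 20000000 * n ^ 16 * q.b ∧
      q.Z ^ 2 ≤ 20000000 * n ^ 16 * q.c := by
  have hN : -n < 0 := by omega
  have n0 : 0 ≤ n := by omega
  have habs : |(-n)| = n := by rw [abs_neg, abs_of_nonneg n0]
  have n2 : n ≤ n ^ 2 := by nlinarith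
  have n16 : n ^ 2 ≤ n ^ 16 := pow_le_pow_right₀ hn (by norm_num)
  have ha : 1 ≤ q.a := q.a0
  have hab := q.ab; have hbc := q.bc; have hc := q.c0; have hb := q.b0
  have hP : q.P < 0 := by
    have := q.P_sign hN.ne
    by_contra h; push Not at h; nlinarith
  obtain ⟨p, hpe⟩ : ∃ p, q.P = -p := ⟨-q.P, by ring⟩
  obtain ⟨μ, hμe⟩ : ∃ μ, q.m0 = μ := ⟨_, rfl⟩
  have p0 : 0 < p := by omega
  have hQe : q.Q = -(p + μ) := by rw [← hμe]; unfold Qd.m0; linarith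
  have hg : q.g = -2 * n * μ := by rw [← hμe]; unfold Qd.m1 at hm; linarith
  have hr : q.r ^ 2 = q.a * q.b + n := by linarith [q.hr]
  have hs' : q.s ^ 2 = q.a * q.c + n := by linarith [q.hs]
  have ht : q.t ^ 2 = q.b * q.c + n := by linarith [q.ht]
  rw [hμe] at hμ
  rw [hpe, abs_neg, abs_of_pos p0] at hp
  have ac : q.c ≤ q.a * q.c := by nlinarith
  have hp3 : 3 * q.a * q.c ≤ p := by
    refine le_trans ?_ hp
    gcongr; linarith
  have hz : 0 < q.z := q.z_pos (by rw [habs]; linarith)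
  have hPl := q.P_le (by rw [habs]; linarith)
  have hQl := q.Q_le (by rw [habs]; linarith)
  rw [habs, hpe, abs_neg, abs_of_pos p0] at hPl
  rw [habs, hQe, abs_neg, abs_of_pos (by omega)] at hQl
  have h1 : q.a * μ * q.z ≤ p ^ 2 := by
    have e := q.e1'
    rw [hμe, hpe] at e
    have := q.s0; have := q.x0; have := q.t0; have := q.y0
    have hba := sub_pos.2 hab
    have u1 : 0 ≤ q.a * μ * (q.s * q.x + q.t * q.y) := by positivity
    have u2 : 0 ≤ (q.b - q.a) * (n * q.r ^ 2) := by positivity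
    refine le_of_mul_le_mul_left ?_ hba
    linarith
  have e1 : q.b * μ * p = q.a * (p + μ) ^ 2 + n * (q.b - q.a) * q.r ^ 2 +
      4 * q.a * q.b * q.s ^ 2 * (q.c - q.a) := by
    have e := q.e3
    rw [hm, hg, hpe, hQe] at e
    refine mul_left_cancel₀ (a := 2 * n) (by omega) ?_
    linear_combination -e
  have e2 : 4 * q.a * q.c * μ * p = n * (p - μ) ^ 2 + 4 * q.a * n * q.s ^ 2 * (q.c - q.a) := by
    have e := q.e2
    rw [hg, hpe] at e
    refine mul_left_cancel₀ (a := 4 * n) (by omega) ?_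
    linear_combination e
  obtain ⟨f1, f2, f3⟩ := q8_first hn ha hab hbc (by linarith) hμ hp3 hs' (sq_nonneg q.r) h1 hPl e1 e2
  have a2 : q.a ^ 2 ≤ n := by
    refine le_of_mul_le_mul_right (a := q.c) ?_ hc
    have u1 : n * q.b ≤ n * q.c := by gcongr
    have u2 : 0 ≤ q.a ^ 2 * q.c := by positivity
    linarith
  have an : q.a ≤ n := by nlinarith
  have cb : q.c ≤ n * q.b := by
    have u1 : 1 * q.c ≤ q.a ^ 2 * q.c := by gcongr; exact one_le_pow₀ ha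
    linarith
  have b2 : 2 * n ≤ q.b := by
    refine le_of_mul_le_mul_left (a := n) ?_ (by omega)
    linarith
  obtain ⟨δ, hδ⟩ : ∃ δ, δ = n * q.b - 4 * q.a ^ 2 * q.c - 4 * q.a * n := ⟨_, rfl⟩
  have e3 : μ * p * δ = n * (q.b - q.a) *
      (n * (q.a * q.b + n) + 4 * q.a * (q.a * q.c + n) * (q.c - q.a)) := by
    rw [hδ, ← hr, ← hs']
    linear_combination n * e1 - q.a * e2
  have δ1 : 1 ≤ δ := by
    have u1 := sub_pos.2 hab; have u2 := sub_pos.2 q.ac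
    have u3 : 0 < μ * p * δ := by rw [e3]; positivity
    have u4 : 0 < μ * p := by positivity
    exact q8.pos_of_mul_pos_of_pos_left' u3 u4
  have hw := q.toTr.w_le (by rw [habs]; exact b2)
  rw [habs] at hw
  have hW : q.w ^ 2 ≤ 32 * n ^ 3 := by
    refine le_of_mul_le_mul_left (a := q.b ^ 2) ?_ (by positivity)
    have u1 : (q.b * |q.w|) ^ 2 ≤ (4 * n * q.t) ^ 2 := by gcongr
    have u2 : q.t ^ 2 ≤ 2 * n * q.b ^ 2 := by
      have v1 : q.b * q.c ≤ q.b * (n * q.b) := by gcongr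
      have v2 : n * 1 ≤ n * q.b ^ 2 := by gcongr; exact one_le_pow₀ hb
      linarith
    calc q.b ^ 2 * q.w ^ 2 = (q.b * |q.w|) ^ 2 := by rw [mul_pow, sq_abs]
      _ ≤ (4 * n * q.t) ^ 2 := u1
      _ = 16 * n ^ 2 * q.t ^ 2 := by ring
      _ ≤ 16 * n ^ 2 * (2 * n * q.b ^ 2) := by gcongr
      _ = _ := by ring
  have an0 : 0 ≤ q.a * n := by positivity
  have hd := q8_delta (δ := δ + 4 * q.a * n) (c := q.c) hn ha a2 hc (sq_nonneg q.w) hW rfl
    (by linarith)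
    (by
      have u1 : n * q.b ≤ n * q.c := by gcongr
      have u2 : 0 ≤ q.a ^ 2 * q.c := by positivity
      linarith)
    (q8_ns (u := 4 * q.a * q.w) (v := 4 * q.a ^ 2 + n) hs (by positivity))
    (by
      have e := q.toTr.eT
      have e' : (2 * q.a * q.w) ^ 2 * (q.b * q.c + n) =
          (q.a * n * (q.b + q.c - q.a) - q.w ^ 2 + n ^ 2) ^ 2 := by
        rw [← ht]
        linear_combination (2 * q.a * q.w * q.t -
          (q.a * n * (q.b + q.c - q.a) - q.w ^ 2 + n ^ 2)) * e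
      rw [hδ]
      linear_combination n * e')
  have hp2 := q8_p hn ha an hab hbc hμ p0 f2 δ1 hd e3
  refine ⟨by linarith, ?_, ?_⟩
  · refine cb.trans ?_
    gcongr; linarith
  · refine q8_Z (Q := p + μ) hn hb hbc cb (by linarith) (by linarith) hz (by omega) (by omega)
      hPl hQl hp2 ?_
    have e := q.cB
    unfold Qd.Z
    rw [hQe] at e ⊢
    rw [← ht]
    linear_combination -e

theorem xq8 : X_Q8 := by
  intro N M hs hM hN q hK hμ hp hm
  have M2 := two_le hs hM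
  obtain ⟨n, rfl⟩ : ∃ n, N = -n := ⟨-N, by ring⟩
  rw [neg_neg] at hs
  have hn : 1 ≤ n := by omega
  rw [abs_neg, abs_of_nonneg (by omega)] at hM
  have hb : 20000000 * n ^ 16 ≤ M ^ 100 :=
    calc 20000000 * n ^ 16 ≤ 20000000 * M ^ 16 := by gcongr
      _ ≤ M ^ 100 := mon_le M2 25 16 100 (by norm_num) (by norm_num)
  have a0 := q.a0; have b0 := q.b0; have c0 := q.c0
  generalize M ^ 100 = L at *
  obtain ⟨r1, r2, r3⟩ := q8_core hs hn q (hb.trans hK) hμ (le_trans (by gcongr) hp) hm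
  exact ⟨r1.trans hb, r2.trans (by gcongr), r3.trans (by gcongr)⟩

end Pool.Agent.MP_2339ce_nt.DQ

end MrgPart3

-- marker of a merged file
example : 731051 + 359838 = 731051 + 359838 := rfl
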