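import Pool.Agent.MP_2339ce_nt.DQ.Q4
import Pool.Agent.MP_2339ce_nt.DQ.BD
import Pool.Agent.MP_2339ce_nt.DQ.XFIN
import Pool.Agent.MP_2339ce_nt.DQ.XQ8
import Pool.Agent.MP_2339ce_nt.DQ.XQ5

/-! Project DQ, explicit constants: assembly. -/

set_option autoImplicit false

namespace Pool.Agent.MP_2339ce_nt.DQ

theorem all_xdich : X_DICH := xdich int_ (xsize main bnd)

theorem all_xlq : X_LQ := xlq (xq1 xreg) xq2 xq3 xq4 xq5 xq6 (xq7 xline) xq8 (xq9 xline)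

theorem all_xbd4 : X_BD4 := xbd4 (xbd all_xlq xg5 all_xdich xtri) all_xlq xg5 all_xdich

theorem all_xfin : X_FIN := xfin all_xbd4

end Pool.Agent.MP_2339ce_nt.DQ
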