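import Pool.Agent.MP_2339ce_nt.DQ.SpecN
import Pool.Agent.MP_2339ce_nt.DQ.TWIN
import Pool.Agent.MP_2339ce_nt.DQ.TSIZE3

/-! Project DQN: the form `(1; 2, 2, 1)` for a close pair. -/

set_option autoImplicit false

namespace Pool.Agent.MP_2339ce_nt.DQ

open Real PowerSeries

namespace NF121

theorem int_w (h1 : S_INTN) {ρ kp kq : ℕ} {N p q d e : ℤ} (a : Adm ρ kp kq) (c : CfN N p q d e) :
    ∃ i : ℤ, √((d : ℝ) * e) * (scN ρ kp kq N p q d * ww ρ kp kq p q d e (-N) (-N) (-N)) = i := by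
  have q0 : 0 < q := c.p0.trans c.pq
  have hd : 0 < d := q0.trans c.qd
  obtain ⟨⟨i1, e1⟩, ⟨i2, e2⟩, ⟨i3, e3⟩⟩ := h1 ρ kp kq N p q d a c.n1 c.p0 c.pq hd
  have p1 : (0 : ℝ) < p := by exact_mod_cast c.p0
  have q1 : (0 : ℝ) < q := by exact_mod_cast q0
  have d1 : (0 : ℝ) < d := by exact_mod_cast hd
  have e0 : (0 : ℝ) < e := by exact_mod_cast hd.trans_le c.de
  obtain ⟨z0, f0⟩ := DICH.sq_int c.sq
  obtain ⟨z1, f1⟩ := DICH.sq_int c.se
  obtain ⟨z2, f2⟩ := DICH.sq_int c.sd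
  obtain ⟨z3, f3⟩ := DICH.sq_int c.pe
  obtain ⟨z4, f4⟩ := DICH.sq_int c.pd
  push_cast at f0 f1 f2 f3 f4
  have g0 := DICH.one (n := -(N : ℝ)) (mul_pos d1 e0)
  have g1 := DICH.two (n := -(N : ℝ)) q1 d1 e0
  have g2 := DICH.two (n := -(N : ℝ)) p1 d1 e0
  rw [f0] at g0
  rw [f1, f2] at g1
  rw [f3, f4] at g2
  refine ⟨z0 * i1 + z1 * z2 * i2 + z3 * z4 * i3, ?_⟩
  push_cast
  rw [← e1, ← e2, ← e3, ← g0, ww, SS, zero_mul, add_zero, sqrt_one]
  linear_combination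
    (scN ρ kp kq N p q d * rs ρ (1 / d) (-N / q) 0 (-N / p) kq (ρ + 1) kp) * g1 +
    (scN ρ kp kq N p q d * rs ρ (1 / d) (-N / p) 0 (-N / q) kp (ρ + 1) kq) * g2

theorem rs12 {x α β γ : ℝ} (h1 : α - β ≠ 0) (h2 : α - γ ≠ 0) :
    rs 1 x α β γ 2 1 2 = (α - β)⁻¹ * (α - γ)⁻¹ ^ 2 *
      (3 / 2 * x - (1 + α * x) * ((α - β)⁻¹ + 2 * (α - γ)⁻¹)) := by
  have g0 : coeff 0 (gs 1 x α) = 1 + α * x := by simp [gs]
  have g1 : coeff 1 (gs 1 x α) = 3 / 2 * x := by
    simp only [gs, coeff_mk, Ring.choose_one_right]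
    norm_num
  have a1 := NZ3.iv_succ h1 0
  have b1 := NZ3.iv_succ h2 0
  rw [NZ3.iv0 h1] at a1
  rw [NZ3.iv0 h2] at b1
  norm_num only at a1 b1
  simp only [rs, show 2 - 1 = 1 from rfl, pow_two, pow_one, NZ3.c0, NZ3.c1, g0, g1, NZ3.iv0 h1,
    NZ3.iv0 h2, a1, b1]
  ring

theorem be14 : be 1 4 = 3 / 128 := by
  have e := Ring.descPochhammer_eq_factorial_smul_choose (((1 : ℕ) : ℝ) + 1 / 2) 4
  have e' : Ring.choose (((1 : ℕ) : ℝ) + 1 / 2) 4 = 3 / 128 := by
    simp only [descPochhammer_succ_right, Polynomial.smeval_mul, Polynomial.smeval_sub,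
      Polynomial.smeval_X, Polynomial.smeval_one, Polynomial.smeval_natCast, descPochhammer_zero,
      Nat.factorial] at e
    norm_num at e ⊢
    linarith
  rw [be, e']
  norm_num

theorem core {P Q W x a b r y : ℝ} (hP : 0 < P) (hQ : P ≤ Q) (hW : 2 * Q ≤ W) (hx : 0 ≤ x)
    (hx' : 3 / 2 * x ≤ Q + 2 * P) (a0 : 0 ≤ a) (a1 : a ≤ 5001 / 10000) (b0 : 1 / 2 ≤ b)
    (b1 : b ≤ 5001 / 10000) (r0 : 9999 / 10000 ≤ r) (r1 : r ≤ 1) (y0 : 9999 / 10000 ≤ y)
    (y1 : y ≤ 1) :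
    0 ≤ a * (3 / 2 * x - (Q + 2 * P)) + b * r * (3 / 2 * x + y * (W + 2 * P)) ∧
      a * (3 / 2 * x - (Q + 2 * P)) + b * r * (3 / 2 * x + y * (W + 2 * P)) ≤
        5001 / 10000 * (3 / 2 * x + (W + 2 * P)) := by
  have k0 : 0 ≤ W + 2 * P := by linarith
  have k1 : 9999 / 10000 * (W + 2 * P) ≤ y * (W + 2 * P) := mul_le_mul_of_nonneg_right y0 k0
  have k2 : y * (W + 2 * P) ≤ 1 * (W + 2 * P) := mul_le_mul_of_nonneg_right y1 k0
  have k3 : 1 / 2 * (9999 / 10000) ≤ b * r := mul_le_mul b0 r0 (by norm_num) (by linarith)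
  have k4 : b * r ≤ 5001 / 10000 * 1 := mul_le_mul b1 r1 (by linarith) (by norm_num)
  have k5 : 1 / 2 * (9999 / 10000) * (9999 / 10000 * (W + 2 * P)) ≤
      b * r * (3 / 2 * x + y * (W + 2 * P)) :=
    mul_le_mul k3 (by linarith) (by linarith) (by linarith)
  have k6 : b * r * (3 / 2 * x + y * (W + 2 * P)) ≤ 5001 / 10000 * 1 * (3 / 2 * x + (W + 2 * P)) :=
    mul_le_mul k4 (by linarith) (by linarith) (by norm_num)
  have k7 : a * (Q + 2 * P - 3 / 2 * x) ≤ 5001 / 10000 * (Q + 2 * P) :=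
    mul_le_mul a1 (by linarith) (by linarith) (by norm_num)
  have k8 : 0 ≤ a * (Q + 2 * P - 3 / 2 * x) := mul_nonneg a0 (by linarith)
  constructor <;> linarith

theorem dif {u v : ℝ} (hv : 0 ≤ v) (huv : v ≤ u) (hu : u ≤ 1 / 10000) :
    1 / 2 * (u - v) ≤ √(1 + -v) - √(1 + -u) ∧ √(1 + -v) - √(1 + -u) ≤ 5001 / 10000 * (u - v) := by
  have a : (9999 / 10000 : ℝ) ≤ √(1 + -u) := le_sqrt_of_sq_le (by linarith)
  have b : √(1 + -u) ≤ √(1 + -v) := sqrt_le_sqrt (by linarith)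
  have c : √(1 + -v) ≤ 1 := sqrt_le_iff.2 ⟨by norm_num, by linarith⟩
  have e : u - v = (√(1 + -v) - √(1 + -u)) * (√(1 + -v) + √(1 + -u)) := by
    have := sq_sqrt (show 0 ≤ 1 + -u by linarith)
    have := sq_sqrt (show 0 ≤ 1 + -v by linarith)
    linarith
  rw [e]
  constructor <;> nlinarith [sub_nonneg.2 b]

theorem size (h : S_MAIN) {N p q d e : ℝ} (N1 : 1 ≤ N) (p1 : 1 ≤ p) (pq : p < q) (qd : q < d)
    (de : d ≤ e) (big : 10000 * N ≤ d) (cl : 2 * q ≤ 3 * p) :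
    0 < scN 1 2 1 N p q d * ww 1 2 1 p q d e (-N) (-N) (-N) ∧
      scN 1 2 1 N p q d * ww 1 2 1 p q d e (-N) (-N) (-N) ≤
        942 / 10000 * (N ^ 4 * (q - p) ^ 2) / (p ^ 2 * q * d ^ 3) + 6 * (N * d * (q - p) * q) / e := by
  have N0 : 0 < N := by linarith
  have p0 : 0 < p := by linarith
  have q0 : 0 < q := by linarith
  have d0 : 0 < d := by linarith
  have e0 : 0 < e := by linarith
  have D0 : 0 < q - p := by linarith
  have x0 : 0 < 1 / d := by positivity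
  have ge : ∀ y z : ℝ, 1 ≤ y → d ≤ z → N / (y * z) ≤ 1 / 10000 := fun y z hy hz => by
    have : d ≤ y * z := hz.trans (le_mul_of_one_le_left (d0.le.trans hz) hy)
    rw [div_le_div_iff₀ (by linarith) (by norm_num)]
    linarith
  have q1 : 1 ≤ q := by linarith
  have spd := ge p d p1 le_rfl
  have sqd := ge q d q1 le_rfl
  have spe := ge p e p1 de
  have sqe := ge q e q1 de
  have epd : -N / p * (1 / d) = -(N / (p * d)) := by field_simp
  have eqd : -N / q * (1 / d) = -(N / (q * d)) := by field_simp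
  have ppd : 0 < N / (p * d) := by positivity
  have pqd : 0 < N / (q * d) := by positivity
  have pde : 0 < N / (d * e) := by positivity
  have pqe : 0 < N / (q * e) := by positivity
  have lt3 : N / q < N / p := div_lt_div_of_pos_left N0 p0 pq
  have p3q : 0 < N / q := by positivity
  have nod : Nod (1 / 10000) (1 / d) 0 (-N / q) (-N / p) :=
    ⟨x0, by rw [neg_div]; linarith, by rw [neg_div, neg_div]; linarith, by norm_num, by norm_num,
      by rw [eqd, abs_neg, abs_of_pos pqd]; exact sqd,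
      by rw [epd, abs_neg, abs_of_pos ppd]; exact spd⟩
  have hm := (le_abs_self _).trans (TSIZE3.main_abs h (ρ := 1) (k := 2) (l := 1) (m := 2) (σ := 4)
    nod (by omega) (by omega) (by omega) (by omega) (by omega))
  obtain ⟨b0, -, lo, -⟩ := h 1 2 1 2 4 _ _ _ _ _ nod (by omega) (by omega) (by omega) (by omega)
    (by omega)
  have S0 : 0 < SS 1 (1 / d) 0 (-N / q) (-N / p) 2 1 2 1 1 1 := by
    have := lt_of_lt_of_le (by positivity) lo
    norm_num at this ⊢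
    exact this
  rw [be14] at hm
  have l1 : N / (d * e) ≤ N / (q * e) := by gcongr
  have l2 : N / (q * e) ≤ N / (p * e) := by gcongr
  obtain ⟨u0, u1⟩ := dif pde.le l1 sqe
  obtain ⟨v0, v1⟩ := dif pqe.le l2 spe
  have fq0 : (9999 / 10000 : ℝ) ≤ √(1 + -(N / (q * e))) := le_sqrt_of_sq_le (by linarith)
  have fq1 : √(1 + -(N / (q * e))) ≤ 1 := sqrt_le_iff.2 ⟨by norm_num, by linarith⟩
  have r0 : (9999 / 10000 : ℝ) ≤ √(1 + -(N / (p * d))) := le_sqrt_of_sq_le (by linarith)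
  have r1 : √(1 + -(N / (p * d))) ≤ 1 := sqrt_le_iff.2 ⟨by norm_num, by linarith⟩
  have n1 : (0 : ℝ) - -N / q ≠ 0 := by rw [neg_div]; linarith
  have n2 : (0 : ℝ) - -N / p ≠ 0 := by rw [neg_div]; linarith
  have n3 : -N / p - -N / q ≠ 0 := by rw [neg_div, neg_div]; linarith
  have n4 : -N / p - 0 ≠ 0 := by rw [neg_div]; linarith
  have i1 : ((0 : ℝ) - -N / q)⁻¹ = q / N := by rw [neg_div, zero_sub, neg_neg, inv_div]
  have i2 : ((0 : ℝ) - -N / p)⁻¹ = p / N := by rw [neg_div, zero_sub, neg_neg, inv_div]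
  have i3 : (-N / p - -N / q)⁻¹ = -(p * q / (N * (q - p))) := by
    rw [show -N / p - -N / q = -(N * (q - p) / (p * q)) by field_simp; ring, inv_neg, inv_div]
  have i4 : (-N / p - 0)⁻¹ = -(p / N) := by rw [sub_zero, neg_div, inv_neg, inv_div]
  have ew : ww 1 2 1 p q d e (-N) (-N) (-N) = √(1 + -(N / (q * e))) *
      SS 1 (1 / d) 0 (-N / q) (-N / p) 2 1 2 1 1 1 + (p / N) ^ 2 / e *
      ((√(1 + -(N / (d * e))) - √(1 + -(N / (q * e)))) * (q / N * e) *
          (3 / 2 * (1 / d) - (q / N + 2 * (p / N))) +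
        (√(1 + -(N / (q * e))) - √(1 + -(N / (p * e)))) * (p * q / (N * (q - p)) * e) *
          √(1 + -(N / (p * d))) *
          (3 / 2 * (1 / d) + (1 + -(N / (p * d))) * (p * q / (N * (q - p)) + 2 * (p / N)))) := by
    rw [ww, NZ3.SS_dec, rs_comm 1 (1 / d) (-N / p), rs12 n1 n2, rs12 n3 n4, i1, i2, i3, i4, epd,
      neg_div (d * e), neg_div (q * e), neg_div (p * e)]
    generalize p * q / (N * (q - p)) = W
    generalize p / N = P
    generalize q / N = Q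
    field_simp
    ring
  have hW : 2 * (q / N) ≤ p * q / (N * (q - p)) := by
    rw [← mul_div_assoc, div_le_div_iff₀ N0 (by positivity)]
    have : 0 ≤ N * q * (3 * p - 2 * q) := by have := sub_nonneg.2 cl; positivity
    nlinarith
  have hx : 3 / 2 * (1 / d) ≤ q / N + 2 * (p / N) := by
    have a : 1 / d ≤ 1 / N := by gcongr; linarith
    have b : 1 / N ≤ p / N := by gcongr
    have : 0 < q / N := by positivity
    have : 0 < p / N := by positivity
    linarith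
  have m1 : N / (q * e) * (q / N * e) = 1 := by field_simp
  have m2 : (N / (p * e) - N / (q * e)) * (p * q / (N * (q - p)) * e) = 1 := by field_simp
  have z1 : 0 < q / N * e := by positivity
  have z2 : 0 < p * q / (N * (q - p)) * e := by positivity
  obtain ⟨c0, c1⟩ := core (P := p / N) (Q := q / N) (W := p * q / (N * (q - p))) (x := 1 / d)
    (a := (√(1 + -(N / (d * e))) - √(1 + -(N / (q * e)))) * (q / N * e))
    (b := (√(1 + -(N / (q * e))) - √(1 + -(N / (p * e)))) * (p * q / (N * (q - p)) * e))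
    (r := √(1 + -(N / (p * d)))) (y := 1 + -(N / (p * d))) (by positivity) (by gcongr) hW x0.le hx
    (mul_nonneg (by linarith) z1.le)
    (by
      have := mul_le_mul_of_nonneg_right
        (u1.trans (show _ ≤ 5001 / 10000 * (N / (q * e)) by linarith)) z1.le
      rwa [mul_assoc, m1, mul_one] at this)
    (by
      have := mul_le_mul_of_nonneg_right v0 z2.le
      rwa [mul_assoc, m2, mul_one] at this)
    (by
      have := mul_le_mul_of_nonneg_right v1 z2.le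
      rwa [mul_assoc, m2, mul_one] at this)
    r0 r1 (by linarith) (by linarith)
  have es : scN 1 2 1 N p q d = 4 * d * N ^ 4 * (q - p) ^ 2 / (p ^ 2 * q) := by
    simp [scN]
  have s0 : 0 < scN 1 2 1 N p q d := by rw [es]; positivity
  have t0 : 0 < (p / N) ^ 2 / e := by positivity
  refine ⟨mul_pos s0 ?_, ?_⟩
  · rw [ew]
    exact add_pos_of_pos_of_nonneg (mul_pos (by linarith) S0) (mul_nonneg t0.le c0)
  have w1 := add_le_add (mul_le_mul fq1 hm S0.le zero_le_one) (mul_le_mul_of_nonneg_left c1 t0.le)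
  rw [← ew] at w1
  refine (mul_le_mul_of_nonneg_left w1 s0.le).trans ?_
  rw [es, mul_add]
  refine add_le_add ?_ ?_
  · rw [show 4 * d * N ^ 4 * (q - p) ^ 2 / (p ^ 2 * q) *
      (1 * (3 / 128 * (1 / d) ^ 4 * (1001 / 1000) ^ 4)) =
      4 * (3 / 128) * (1001 / 1000) ^ 4 * (N ^ 4 * (q - p) ^ 2) / (p ^ 2 * q * d ^ 3) by field_simp]
    gcongr
    norm_num
  · rw [show 4 * d * N ^ 4 * (q - p) ^ 2 / (p ^ 2 * q) * ((p / N) ^ 2 / e * (5001 / 10000 *
      (3 / 2 * (1 / d) + (p * q / (N * (q - p)) + 2 * (p / N))))) =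
      N * d * (q - p) / (q * e) * (4 * (5001 / 10000) *
        (3 / 2 * (N / (1 * d) * (q - p)) + p * q + 2 * p * (q - p))) by field_simp; ring,
      show 6 * (N * d * (q - p) * q) / e = N * d * (q - p) / (q * e) * (6 * q ^ 2) by field_simp]
    refine mul_le_mul_of_nonneg_left ?_ (by positivity)
    have a := mul_le_mul_of_nonneg_right (ge 1 d le_rfl le_rfl) D0.le
    nlinarith [mul_pos p0 D0, mul_pos q0 D0, mul_nonneg p0.le (sub_nonneg.2 cl), mul_pos D0 D0,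
      mul_le_mul_of_nonneg_left q1 q0.le]

end NF121

theorem f121 (h : S_MAIN) (h1 : S_INTN) : S_F121 := by
  intro N p q d e c cl
  obtain ⟨i, hi⟩ := NF121.int_w h1 (ρ := 1) (kp := 2) (kq := 1)
    ⟨by omega, by omega, by omega, by omega⟩ c
  have N1 : (1 : ℝ) ≤ N := by exact_mod_cast c.n1
  have p0 : (1 : ℝ) ≤ p := by exact_mod_cast c.p0
  have pq : (p : ℝ) < q := by exact_mod_cast c.pq
  have qd : (q : ℝ) < d := by exact_mod_cast c.qd
  have de : (d : ℝ) ≤ e := by exact_mod_cast c.de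
  have p1 : (0 : ℝ) < p := by linarith
  have q1 : (0 : ℝ) < q := by linarith
  have d1 : (0 : ℝ) < d := by linarith
  have e0 : (0 : ℝ) < e := by linarith
  have t0 : (0 : ℝ) < d * e := mul_pos d1 e0
  have r0 : 0 < √((d : ℝ) * e) := sqrt_pos.2 t0
  obtain ⟨s0, s1⟩ := NF121.size h N1 p0 pq qd de (by exact_mod_cast c.big) (by exact_mod_cast cl)
  have i0 : (0 : ℝ) < i := hi ▸ mul_pos r0 s0
  have i1 : (1 : ℝ) ≤ i := by
    have : 0 < i := by exact_mod_cast i0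
    exact_mod_cast this
  have key := (hi ▸ i1).trans (mul_le_mul_of_nonneg_left s1 r0.le)
  rw [mul_add] at key
  by_cases hc : (1 / 2 : ℝ) ≤ √((d : ℝ) * e) * (6 * (N * d * (q - p) * q) / e)
  · left
    have k := TWIN.sqr t0 e0 hc (show _ ≤ (150 : ℝ) by norm_num)
    have : (e : ℝ) ≤ 150 * N ^ 2 * (q - p) ^ 2 * q ^ 2 * d ^ 3 :=
      le_of_mul_le_mul_right (by linarith) e0
    exact_mod_cast this
  · right
    have k := TWIN.sqr t0 (show (0 : ℝ) < p ^ 2 * q * d ^ 3 by positivity)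
      (show 1 / 2 ≤ √((d : ℝ) * e) * (942 / 10000 * (N ^ 4 * (q - p) ^ 2) / (p ^ 2 * q * d ^ 3)) by
        linarith) (show _ ≤ (1 / 28 : ℝ) by norm_num)
    have : (28 : ℝ) * p ^ 4 * q ^ 2 * d ^ 5 ≤ N ^ 8 * (q - p) ^ 4 * e :=
      le_of_mul_le_mul_right (by linarith) d1
    exact_mod_cast this

end Pool.Agent.MP_2339ce_nt.DQ
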