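import Pool.Agent.MP_2339ce_nt.DQ.SpecN

/-! Project DQN: the form with four double nodes. -/

set_option autoImplicit false

namespace Pool.Agent.MP_2339ce_nt.DQ

open Real

namespace NF4

def k0 {R : Type} [CommRing R] (N a b c d : R) : R :=
  ((b - a) * (c - a) * (c - b)) ^ 3 * (3 * N - 4 * d * (a + b + c))

def ka {R : Type} [CommRing R] (N a b c d : R) : R :=
  a ^ 3 * (c - b) ^ 3 * (3 * N * (b - a) * (c - a) +
    4 * (a * d - N) * ((b - a) * (c - a) + c * (b - a) + b * (c - a)))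

def kb {R : Type} [CommRing R] (N a b c d : R) : R :=
  b ^ 3 * (c - a) ^ 3 * (3 * N * (b - a) * (c - b) +
    4 * (b * d - N) * ((b - a) * (c - b) + c * (b - a) - a * (c - b)))

def kc {R : Type} [CommRing R] (N a b c d : R) : R :=
  c ^ 3 * (b - a) ^ 3 * (3 * N * (c - b) * (c - a) +
    4 * (c * d - N) * ((c - b) * (c - a) - b * (c - a) - a * (c - b)))

theorem ident {N a b c d : ℝ} (hN : N ≠ 0) (a0 : a ≠ 0) (b0 : b ≠ 0) (c0 : c ≠ 0) (d0 : d ≠ 0)
    (ab : b - a ≠ 0) (ac : c - a ≠ 0) (bc : c - b ≠ 0) :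
    2 * d * N ^ 7 * ((b - a) * (c - a) * (c - b)) ^ 3 / (a * b * c) ^ 2 *
      i4 (1 / d) (-N / a) (-N / b) (-N / c) =
    k0 N a b c d + a * √(1 + -N / a * (1 / d)) * ka N a b c d +
      b * √(1 + -N / b * (1 / d)) * kb N a b c d + c * √(1 + -N / c * (1 / d)) * kc N a b c d := by
  have e1 : -N / a - -N / b = -N * (b - a) / (a * b) := by field_simp; ring
  have e2 : -N / a - -N / c = -N * (c - a) / (a * c) := by field_simp; ring
  have e3 : -N / b - -N / a = N * (b - a) / (a * b) := by field_simp; ring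
  have e4 : -N / b - -N / c = -N * (c - b) / (b * c) := by field_simp; ring
  have e5 : -N / c - -N / a = N * (c - a) / (a * c) := by field_simp; ring
  have e6 : -N / c - -N / b = N * (c - b) / (b * c) := by field_simp; ring
  rw [i4, e1, e2, e3, e4, e5, e6, k0, ka, kb, kc]
  generalize √(1 + -N / a * (1 / d)) = s
  generalize √(1 + -N / b * (1 / d)) = t
  generalize √(1 + -N / c * (1 / d)) = u
  generalize b - a = p at *
  generalize c - a = q at *
  generalize c - b = r at *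
  rw [mul_add, mul_add, mul_add]
  refine congrArg₂ _ (congrArg₂ _ (congrArg₂ _ ?_ ?_) ?_) ?_ <;> (field_simp; ring)

theorem sq_diff {u v : ℝ} (hv : -(1 / 10000) ≤ v) (huv : v ≤ u) :
    √(1 + u) - √(1 + v) ≤ 5001 / 10000 * (u - v) := by
  have a : (9999 / 10000 : ℝ) ≤ √(1 + u) := le_sqrt_of_sq_le (by linarith)
  have b : (9999 / 10000 : ℝ) ≤ √(1 + v) := le_sqrt_of_sq_le (by linarith)
  have m : √(1 + v) ≤ √(1 + u) := sqrt_le_sqrt (by linarith)
  have e : u - v = (√(1 + u) - √(1 + v)) * (√(1 + u) + √(1 + v)) := by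
    have := sq_sqrt (show 0 ≤ 1 + u by linarith)
    have := sq_sqrt (show 0 ≤ 1 + v by linarith)
    linarith
  rw [e]
  nlinarith

theorem prod_eq {N i d e y ρ : ℝ} (i0 : 0 < i) (d0 : 0 < d) (e0 : 0 < e)
    (p1 : 0 ≤ 1 + -N / i * (1 / d)) (p2 : 0 ≤ 1 + -N / (i * e)) (ρ0 : 0 ≤ ρ) (hρ : ρ ^ 2 = d * e)
    (y0 : 0 ≤ y) (hy : y ^ 2 = (i * d - N) * (i * e - N)) :
    y = i * ρ * √(1 + -N / i * (1 / d)) * √(1 + -N / (i * e)) := by
  refine (pow_left_inj₀ y0 (by positivity) two_ne_zero).1 ?_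
  rw [hy, mul_pow, mul_pow, mul_pow, sq_sqrt p1, sq_sqrt p2, hρ]
  field_simp
  ring

theorem sqrt_le1 {u : ℝ} (hu : u ≤ 0) : √(1 + u) ≤ 1 :=
  sqrt_le_iff.2 ⟨by norm_num, by linarith⟩

theorem sz0 {N a b c d : ℝ} (N0 : 0 < N) (ha : 1 ≤ a) (ab : a < b) (bc : b < c)
    (hd : 10000 * N ≤ d) :
    k0 N a b c d < 0 ∧ -k0 N a b c d ≤ 12 * d * c * ((b - a) * (c - a) * (c - b)) ^ 3 := by
  have p : 0 < b - a := by linarith
  have q : 0 < c - a := by linarith
  have r : 0 < c - b := by linarith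
  have d0 : 0 < d := by linarith
  have V : 0 < ((b - a) * (c - a) * (c - b)) ^ 3 := by positivity
  have h1 : d * 1 ≤ d * (a + b + c) := by gcongr; linarith
  have h2 : d * (a + b + c) ≤ d * (3 * c) := by gcongr; linarith
  rw [k0]
  refine ⟨mul_neg_of_pos_of_neg V (by linarith), ?_⟩
  rw [← mul_neg, mul_comm]
  gcongr
  linarith

theorem sza {N a b c d : ℝ} (N0 : 0 < N) (ha : 1 ≤ a) (ab : a < b) (bc : b < c)
    (hd : 10000 * N ≤ d) :
    0 ≤ ka N a b c d ∧
      ka N a b c d * (c - a) ≤ 120003 / 10000 * d * c * (b ^ 5 * (c - a) ^ 3 * (c - b)) := by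
  have p : 0 < b - a := by linarith
  have q : 0 < c - a := by linarith
  have r : 0 < c - b := by linarith
  have d0 : 0 < d := by linarith
  have a0 : 0 < a := by linarith
  have b0 : 0 < b := by linarith
  have c0 : 0 < c := by linarith
  have h1 : 1 * d ≤ a * d := by gcongr
  have h0 : 0 ≤ a * d - N := by linarith
  have h2 : N ≤ a * d / 10000 := by linarith
  rw [ka]
  refine ⟨by positivity, ?_⟩
  calc _ ≤ a ^ 3 * (c - b) ^ 3 * (3 * (a * d / 10000) * b * c +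
          4 * (a * d) * (b * c + c * b + b * c)) * (c - a) := by gcongr <;> linarith
    _ = 120003 / 10000 * d * c * (a ^ 4 * b * ((c - b) ^ 2 * (c - a)) * (c - b)) := by ring
    _ ≤ 120003 / 10000 * d * c * (b ^ 4 * b * ((c - a) ^ 2 * (c - a)) * (c - b)) := by
        gcongr
    _ = _ := by ring

theorem szb {N a b c d : ℝ} (N0 : 0 < N) (ha : 1 ≤ a) (ab : a < b) (bc : b < c)
    (hd : 10000 * N ≤ d) (h : a * (c - b) ≤ (b - a) * (2 * c - b)) :
    0 ≤ kb N a b c d ∧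
      kb N a b c d * (c - b) ≤ 80003 / 10000 * d * c * (b ^ 5 * (c - a) ^ 3 * (c - b)) := by
  have p : 0 < b - a := by linarith
  have q : 0 < c - a := by linarith
  have r : 0 < c - b := by linarith
  have d0 : 0 < d := by linarith
  have a0 : 0 < a := by linarith
  have b0 : 0 < b := by linarith
  have c0 : 0 < c := by linarith
  have h1 : 1 * d ≤ b * d := by gcongr; linarith
  have h0 : 0 ≤ b * d - N := by linarith
  have h2 : N ≤ b * d / 10000 := by linarith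
  have h3 : 0 ≤ (b - a) * (c - b) + c * (b - a) - a * (c - b) := by linarith
  have h4 : (b - a) * (c - b) + c * (b - a) - a * (c - b) ≤ b * c + c * b := by
    have : (b - a) * (c - b) ≤ b * c := by gcongr <;> linarith
    have : c * (b - a) ≤ c * b := by gcongr; linarith
    have : 0 ≤ a * (c - b) := by positivity
    linarith
  rw [kb]
  refine ⟨by positivity, ?_⟩
  calc _ ≤ b ^ 3 * (c - a) ^ 3 * (3 * (b * d / 10000) * b * c +
          4 * (b * d) * (b * c + c * b)) * (c - b) := by gcongr <;> linarith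
    _ = _ := by ring

/-- the last step: one of the two terms is at least one half -/
theorem fin {N d e ρ P X Y : ℝ} (N0 : 0 < N) (d0 : 0 < d) (e0 : 0 < e) (ρ0 : 0 < ρ)
    (hρ : ρ ^ 2 = d * e) (P0 : 0 < P) (X0 : 0 < X) (Y0 : 0 < Y)
    (h : 1 ≤ ρ * (882 / 100000 * N ^ 7 * X / (P ^ 2 * d ^ 6)) +
      ρ * (N * d / e * (601 / 100 * X + 1001 / 100 * Y))) :
    e ≤ 1100 * N ^ 2 * X ^ 2 * d ^ 3 ∨ e ≤ 1100 * N ^ 2 * Y ^ 2 * d ^ 3 ∨
      3200 * P ^ 4 * d ^ 11 ≤ N ^ 14 * X ^ 2 * e := by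
  have key : ∀ Z : ℝ, 0 < Z → 1 / 2 ≤ ρ * (N * d / e * (1602 / 100 * Z)) →
      e ≤ 1100 * N ^ 2 * Z ^ 2 * d ^ 3 := fun Z Z0 hz => by
    have h1 := pow_le_pow_left₀ (by norm_num) hz 2
    have h2 : (ρ * (N * d / e * (1602 / 100 * Z))) ^ 2 =
        (1602 / 100) ^ 2 * (N ^ 2 * Z ^ 2 * d ^ 3) / e := by
      rw [mul_pow, hρ]; field_simp
    rw [h2, le_div_iff₀ e0] at h1
    have : 0 < N ^ 2 * Z ^ 2 * d ^ 3 := by positivity
    linarith
  rcases le_total (1 / 2) (ρ * (882 / 100000 * N ^ 7 * X / (P ^ 2 * d ^ 6))) with h1 | h1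
  · refine Or.inr (Or.inr ?_)
    have h2 := pow_le_pow_left₀ (by norm_num) h1 2
    have h3 : (ρ * (882 / 100000 * N ^ 7 * X / (P ^ 2 * d ^ 6))) ^ 2 =
        (882 / 100000) ^ 2 * (N ^ 14 * X ^ 2 * e) / (P ^ 4 * d ^ 11) := by
      rw [mul_pow, hρ]; field_simp
    rw [h3, le_div_iff₀ (by positivity)] at h2
    have : 0 < P ^ 4 * d ^ 11 := by positivity
    linarith
  · have h2 : 1 / 2 ≤ ρ * (N * d / e * (601 / 100 * X + 1001 / 100 * Y)) := by linarith
    rcases le_total X Y with h3 | h3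
    · exact Or.inr (Or.inl (key Y Y0 (h2.trans (by gcongr; linarith))))
    · exact Or.inl (key X X0 (h2.trans (by gcongr; linarith)))

theorem core (h : S_I4) {N a b c d e w ya yb yc W : ℝ} (N0 : 0 < N) (ha : 1 ≤ a) (ab : a < b)
    (bc : b < c) (cd : c < d) (de : d ≤ e) (hd : 10000 * N ≤ d)
    (hc : a * (c - b) ≤ (b - a) * (2 * c - b)) (w0 : 0 ≤ w) (w2 : w ^ 2 = d * e - N)
    (ya0 : 0 ≤ ya) (ya2 : ya ^ 2 = (a * d - N) * (a * e - N))
    (yb0 : 0 ≤ yb) (yb2 : yb ^ 2 = (b * d - N) * (b * e - N))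
    (yc0 : 0 ≤ yc) (yc2 : yc ^ 2 = (c * d - N) * (c * e - N))
    (hW : W = k0 N a b c d * w + ka N a b c d * ya + kb N a b c d * yb + kc N a b c d * yc) :
    W < 0 ∧ (W ≤ -1 → e ≤ 1100 * N ^ 2 * (((b - a) * (c - a) * (c - b)) ^ 3) ^ 2 * d ^ 3 ∨
      e ≤ 1100 * N ^ 2 * (b ^ 5 * (c - a) ^ 3 * (c - b)) ^ 2 * d ^ 3 ∨
      3200 * (a * b * c) ^ 4 * d ^ 11 ≤ N ^ 14 * (((b - a) * (c - a) * (c - b)) ^ 3) ^ 2 * e) := by
  have p : 0 < b - a := by linarith
  have q : 0 < c - a := by linarith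
  have r : 0 < c - b := by linarith
  have d0 : 0 < d := by linarith
  have e0 : 0 < e := by linarith
  have a0 : 0 < a := by linarith
  have b0 : 0 < b := by linarith
  have c0 : 0 < c := by linarith
  have sm : ∀ {i y : ℝ}, 1 ≤ i → d ≤ y → -(1 / 10000) ≤ -N / (i * y) ∧ -N / (i * y) ≤ 0 :=
    fun {i y} hi hy => by
    have : 1 * d ≤ i * y := by gcongr
    have : 0 < i * y := by linarith
    rw [neg_div, neg_le_neg_iff, div_le_div_iff₀ this (by norm_num), neg_nonpos]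
    exact ⟨by linarith, by positivity⟩
  have eq : ∀ i : ℝ, -N / i * (1 / d) = -N / (i * d) := fun i => by rw [div_mul_div_comm, mul_one]
  have b1 : 1 ≤ b := by linarith
  have c1 : 1 ≤ c := by linarith
  have d1 : 1 ≤ d := by linarith
  obtain ⟨ρ, ρ0, hρ⟩ : ∃ ρ : ℝ, 0 < ρ ∧ ρ ^ 2 = d * e :=
    ⟨√(d * e), sqrt_pos.2 (by positivity), sq_sqrt (by positivity)⟩
  have pe : ∀ {i y : ℝ}, 1 ≤ i → 0 ≤ y → y ^ 2 = (i * d - N) * (i * e - N) →
      y = i * ρ * √(1 + -N / i * (1 / d)) * √(1 + -N / (i * e)) := fun {i y} hi y0 hy =>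
    prod_eq (by linarith) d0 e0 (by rw [eq]; linarith [(sm hi le_rfl).1])
      (by linarith [(sm hi de).1]) ρ0.le hρ y0 hy
  have ew : w = ρ * √(1 + -N / (d * e)) := by
    refine (pow_left_inj₀ w0 (by positivity) two_ne_zero).1 ?_
    rw [w2, mul_pow, sq_sqrt (by linarith [(sm d1 de).1]), hρ]
    field_simp
    ring
  have lt : ∀ {i j : ℝ}, 0 < i → i < j → -N / i < -N / j := fun {i j} hi hj => by
    rw [neg_div, neg_div, neg_lt_neg_iff]; gcongr
  obtain ⟨i1, i2⟩ := h (1 / d) (-N / a) (-N / b) (-N / c) (by positivity) (lt a0 ab) (lt b0 bc)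
    (by rw [neg_div, neg_lt_zero]; positivity)
    (by rw [neg_mul, eq]; linarith [(sm ha le_rfl).1])
  have id := ident N0.ne' a0.ne' b0.ne' c0.ne' d0.ne' p.ne' q.ne' r.ne'
  obtain ⟨z1, z2⟩ := sz0 N0 ha ab bc hd
  obtain ⟨z3, z4⟩ := sza N0 ha ab bc hd
  obtain ⟨z5, z6⟩ := szb N0 ha ab bc hd hc
  have s1 : ∀ {i : ℝ}, 1 ≤ i → √(1 + -N / i * (1 / d)) ≤ 1 := fun hi =>
    sqrt_le1 (by rw [eq]; exact (sm hi le_rfl).2)
  have mo : ∀ {i j : ℝ}, 1 ≤ i → i < j → √(1 + -N / (i * e)) < √(1 + -N / (j * e)) ∧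
      (√(1 + -N / (j * e)) - √(1 + -N / (i * e))) * i ≤ 5001 / 10000 * N / (j * e) * (j - i) :=
    fun {i j} hi hj => by
    have i0 : 0 < i := by linarith
    have j0 : 0 < j := by linarith
    have l := lt (i := i * e) (j := j * e) (by positivity) (by gcongr)
    refine ⟨sqrt_lt_sqrt (by linarith [(sm hi de).1]) (by linarith), ?_⟩
    refine (mul_le_mul_of_nonneg_right (sq_diff (sm hi de).1 l.le) i0.le).trans (le_of_eq ?_)
    field_simp
    ring
  obtain ⟨m1, m2⟩ := mo ha (ab.trans bc)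
  obtain ⟨m3, m4⟩ := mo b1 bc
  obtain ⟨m5, -⟩ := mo c1 cd
  have m6 : √(1 + -N / (d * e)) - √(1 + -N / (c * e)) ≤ 5001 / 10000 * N / (c * e) := by
    refine (sq_diff (sm c1 de).1 (lt (by positivity) (by gcongr)).le).trans ?_
    have := (sm d1 de).2
    rw [mul_div_assoc, neg_div (c * e)]
    linarith
  have fc1 := sqrt_le1 (sm c1 de).2
  have fc0 := sqrt_nonneg (1 + -N / (c * e))
  have sa0 := sqrt_nonneg (1 + -N / a * (1 / d))
  have sb0 := sqrt_nonneg (1 + -N / b * (1 / d))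
  have sa1 := s1 ha
  have sb1 := s1 b1
  rw [ew, pe ha ya0 ya2, pe b1 yb0 yb2, pe c1 yc0 yc2] at hW
  generalize √(1 + -N / a * (1 / d)) = sa at *
  generalize √(1 + -N / b * (1 / d)) = sb at *
  generalize √(1 + -N / c * (1 / d)) = sc at *
  generalize √(1 + -N / (a * e)) = fa at *
  generalize √(1 + -N / (b * e)) = fb at *
  generalize √(1 + -N / (c * e)) = fc at *
  generalize √(1 + -N / (d * e)) = f0 at *
  generalize i4 (1 / d) (-N / a) (-N / b) (-N / c) = I at *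
  generalize k0 N a b c d = K0 at *
  generalize ka N a b c d = Ka at *
  generalize kb N a b c d = Kb at *
  generalize kc N a b c d = Kc at *
  have X0 : 0 < ((b - a) * (c - a) * (c - b)) ^ 3 := by positivity
  have Y0 : 0 < b ^ 5 * (c - a) ^ 3 * (c - b) := by positivity
  generalize ((b - a) * (c - a) * (c - b)) ^ 3 = X at *
  generalize b ^ 5 * (c - a) ^ 3 * (c - b) = Y at *
  have P0 : 0 < a * b * c := by positivity
  generalize a * b * c = P at *
  have eW : -W = ρ * (fc * (2 * d * N ^ 7 * X / P ^ 2 * -I)) +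
      ρ * ((f0 - fc) * -K0 + (fc - fa) * a * sa * Ka + (fc - fb) * b * sb * Kb) := by
    rw [hW]; linear_combination (ρ * fc) * id
  have u1 : 0 ≤ -I := by linarith
  have u2 : 0 < f0 - fc := by linarith
  have u3 : 0 < -K0 := by linarith
  have u4 : 0 < fc - fa := by linarith
  have u5 : 0 < fc - fb := by linarith
  refine ⟨by rw [← neg_pos, eW]; positivity, fun hw => ?_⟩
  refine fin N0 d0 e0 ρ0 hρ P0 X0 Y0 ((le_neg.1 hw).trans (eW.trans_le ?_))
  gcongr ρ * ?_ + ρ * ?_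
  · calc _ ≤ 1 * (2 * d * N ^ 7 * X / P ^ 2 * (441 / 100000 * (1 / d) ^ 7)) := by
          gcongr; linarith
      _ = _ := by field_simp; ring
  · obtain ⟨g, hg⟩ : ∃ g, g = 5001 / 10000 * N / (c * e) := ⟨_, rfl⟩
    have g0 : 0 < g := by rw [hg]; positivity
    rw [← hg] at m2 m4 m6
    calc _ ≤ g * (12 * d * c * X) + g * (c - a) * 1 * Ka + g * (c - b) * 1 * Kb := by gcongr
      _ = g * (12 * d * c * X + Ka * (c - a) + Kb * (c - b)) := by ring
      _ ≤ g * (12 * d * c * X + 120003 / 10000 * d * c * Y + 80003 / 10000 * d * c * Y) := by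
          gcongr
      _ = N * d / e * (5001 / 10000 * (12 * X + 200006 / 10000 * Y)) := by
          rw [hg]; field_simp; ring
      _ ≤ _ := by gcongr; linarith

theorem root {u n : ℤ} (h : IsSquare (u + -n)) : ∃ r : ℤ, 0 ≤ r ∧ r ^ 2 = u - n := by
  obtain ⟨r, hr⟩ := h
  exact ⟨|r|, abs_nonneg r, by rw [sq_abs]; linear_combination -hr⟩

end NF4

open NF4 in
theorem f4 (h : S_I4) : S_F4 := by
  intro N a b c d e h1 h2 hc
  obtain ⟨w, w0, w2⟩ := root h1.sq
  obtain ⟨x, x0, x2⟩ := root h1.pd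
  obtain ⟨x', x0', x2'⟩ := root h1.pe
  obtain ⟨y, y0, y2⟩ := root h1.sd
  obtain ⟨y', y0', y2'⟩ := root h1.se
  obtain ⟨z, z0, z2⟩ := root h2.sd
  obtain ⟨z', z0', z2'⟩ := root h2.se
  have pr : ∀ {i s t : ℤ}, s ^ 2 = i * d - N → t ^ 2 = i * e - N →
      ((s * t : ℤ) : ℝ) ^ 2 = (i * d - N) * (i * e - N) := fun {i s t} hs ht => by
    have : (s * t) ^ 2 = (i * d - N) * (i * e - N) := by rw [mul_pow, hs, ht]
    exact_mod_cast this
  obtain ⟨k1, k2⟩ := core h (N := N) (a := a) (b := b) (c := c) (d := d) (e := e) (w := w)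
    (ya := (x * x' : ℤ)) (yb := (y * y' : ℤ)) (yc := (z * z' : ℤ))
    (W := (k0 N a b c d * w + ka N a b c d * (x * x') + kb N a b c d * (y * y') +
      kc N a b c d * (z * z') : ℤ))
    (by exact_mod_cast h1.n1) (by exact_mod_cast h1.p0) (by exact_mod_cast h1.pq)
    (by exact_mod_cast h2.pq) (by exact_mod_cast h2.qd) (by exact_mod_cast h1.de)
    (by exact_mod_cast h1.big) (by exact_mod_cast hc) (by exact_mod_cast w0) (by exact_mod_cast w2)
    (by exact_mod_cast mul_nonneg x0 x0') (pr x2 x2') (by exact_mod_cast mul_nonneg y0 y0')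
    (pr y2 y2') (by exact_mod_cast mul_nonneg z0 z0') (pr z2 z2')
    (by simp only [k0, ka, kb, kc]; push_cast; ring)
  have k4 : ∀ W : ℤ, (W : ℝ) < 0 → (W : ℝ) ≤ -1 := fun W hW => by
    have : W < 0 := by exact_mod_cast hW
    have : W ≤ -1 := by omega
    exact_mod_cast this
  have k3 := k2 (k4 _ k1)
  rw [← pow_mul] at k3
  exact_mod_cast k3

end Pool.Agent.MP_2339ce_nt.DQ
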