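import Pool.Agent.MP_2339ce_nt.DQ.SpecN
import Pool.Agent.MP_2339ce_nt.DQ.XQ5

/-! Project DQN: the sharp gap for five elements, with the parameter `N`. -/

set_option autoImplicit false

namespace Pool.Agent.MP_2339ce_nt.DQ

namespace NG5N

open G5

theorem core {N a b c d e z ya yb yc : ℝ} (hN : 1 ≤ N) (hN' : N ≤ 256) (ha : 1 ≤ a)
    (hb : a + 1 ≤ b) (hc : b + 1 ≤ c) (hd : 10000 * N ≤ d) (de : d ≤ e)
    (he : 9 * a * b * c * d ^ 2 ≤ N ^ 2 * e) (hz : 0 ≤ z) (hz2 : z ^ 2 = d * e - N)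
    (ya0 : 0 ≤ ya) (ya2 : ya ^ 2 = (a * d - N) * (a * e - N))
    (yb0 : 0 ≤ yb) (yb2 : yb ^ 2 = (b * d - N) * (b * e - N))
    (yc0 : 0 ≤ yc) (yc2 : yc ^ 2 = (c * d - N) * (c * e - N)) {W : ℝ}
    (hW : W = (b - a) * (c - a) * (c - b) * z -
      (a * (c - b) * ya - b * (c - a) * yb + c * (b - a) * yc)) :
    0 < W ∧ W ^ 2 * (250 * (a * b * c) ^ 2 * d ^ 5) ≤
      N ^ 6 * ((b - a) * (c - a) * (c - b)) ^ 2 * e := by
  have a0 : 0 < a := by linarith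
  have b0 : 0 < b := by linarith
  have c0 : 0 < c := by linarith
  have b1 : 1 ≤ b := by linarith
  have c1 : 1 ≤ c := by linarith
  have ab : 0 < b - a := by linarith
  have ac : 0 < c - a := by linarith
  have bc : 0 < c - b := by linarith
  have N0 : 0 < N := by linarith
  have d0 : 0 < d := by linarith
  have abc : 6 ≤ a * b * c :=
    calc (6 : ℝ) = 1 * 2 * 3 := by norm_num
      _ ≤ a * b * c := by gcongr <;> linarith
  have e0 : 0 < e := by linarith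
  have h3 : |N| = N := abs_of_pos N0
  have hN4 : 4 * |N| ≤ d := by rw [h3]; linarith
  obtain ⟨ρ, ρ0, hρ⟩ : ∃ ρ : ℝ, 0 < ρ ∧ ρ ^ 2 = d * e :=
    ⟨√(d * e), Real.sqrt_pos.2 (by positivity), Real.sq_sqrt (by positivity)⟩
  obtain ⟨ea, ha1, ha2⟩ := one ha d0 de hN4 ρ0 hρ ya0 ya2
  obtain ⟨eb, hb1, hb2⟩ := one b1 d0 de hN4 ρ0 hρ yb0 yb2
  obtain ⟨ec, hc1, hc2⟩ := one c1 d0 de hN4 ρ0 hρ yc0 yc2
  have hE := weights ha hb hc (by positivity) ha2 hb2 hc2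
  rw [h3] at hE
  obtain ⟨x, hx⟩ : ∃ x, x = 1 / d := ⟨_, rfl⟩
  obtain ⟨w, hw⟩ : ∃ w, w = 1 / e := ⟨_, rfl⟩
  rw [← hx, ← hw] at ha1 hb1 hc1
  have x0 : 0 < x := by rw [hx]; positivity
  have w0 : 0 < w := by rw [hw]; positivity
  have xd : x * d = 1 := by rw [hx]; field_simp
  have we : w * e = 1 := by rw [hw]; field_simp
  have xK : N * x ≤ 1 / 10000 := by
    rw [hx, mul_one_div, div_le_div_iff₀ d0 (by norm_num)]; linarith
  have wK : 9 * (a * b * c * w) ≤ (N * x) ^ 2 := by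
    calc _ = 9 * a * b * c * d ^ 2 * (w * x ^ 2) := by
          have : d ^ 2 * x ^ 2 = 1 := by rw [← mul_pow, mul_comm, xd, one_pow]
          linear_combination (-(9 * a * b * c * w)) * this
      _ ≤ N ^ 2 * e * (w * x ^ 2) := by gcongr
      _ = _ := by linear_combination N ^ 2 * x ^ 2 * we
  have wx : w ≤ x / 2000 := by
    have h1 : 9 * (6 * w) ≤ 9 * (a * b * c * w) := by gcongr
    have h2 : (N * x) ^ 2 ≤ 256 * x * (1 / 10000) :=
      calc _ = N * x * (N * x) := by ring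
        _ ≤ _ := by gcongr
    linarith
  rw [show N / d = N * x by rw [hx]; ring] at hE
  obtain ⟨E, hEd⟩ : ∃ E, E = (a ^ 2 * (c - b) * ea - b ^ 2 * (c - a) * eb + c ^ 2 * (b - a) * ec) *
    (a * b * c) / ((b - a) * (c - a) * (c - b)) := ⟨_, rfl⟩
  rw [← hEd] at hE
  obtain ⟨Λ, hΛ⟩ : ∃ Λ, Λ = (b - a) * (c - a) * (c - b) / (a * b * c) := ⟨_, rfl⟩
  have Λ0 : 0 < Λ := by rw [hΛ]; positivity
  have Λc : Λ * (a * b * c) = (b - a) * (c - a) * (c - b) := by rw [hΛ]; field_simp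
  obtain ⟨m, hm⟩ : ∃ m, m = N ^ 3 * ((x + w) * (x - w) ^ 2) / 16 := ⟨_, rfl⟩
  obtain ⟨g1, hg1⟩ : ∃ g, g = a * b * c * ((ρ - z) / ρ) := ⟨_, rfl⟩
  obtain ⟨g2, hg2⟩ : ∃ g, g = N ^ 4 * (((x + w) ^ 2 * (x - w) ^ 2 / 32 + (x - w) ^ 4 / 128) *
    (1 / a + 1 / b + 1 / c)) := ⟨_, rfl⟩
  have id : W = ρ * Λ * (m - g1 + g2 - E) := by
    rw [hW, ha1, hb1, hc1, hΛ, hm, hg1, hg2, hEd, T, T, T]; field_simp; ring
  have δ1 : 999 / 1000 * x ≤ x - w := by linarith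
  have δ0 : 0 ≤ x - w := by linarith
  have δ2 : x - w ≤ x := by linarith
  have σ1 : x ≤ x + w := by linarith
  have σ2 : x + w ≤ 1001 / 1000 * x := by linarith
  have σ3 : x + w ≤ 2 * x := by linarith
  have y0 : 0 < N * x := by positivity
  have x3 : 0 < (N * x) ^ 3 := by positivity
  have m1 : 62 / 1000 * (N * x) ^ 3 ≤ m := by
    have : N ^ 3 * (x * (999 / 1000 * x) ^ 2) / 16 ≤ m := by rw [hm]; gcongr
    linarith
  have m2 : m ≤ 626 / 10000 * (N * x) ^ 3 := by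
    have : m ≤ N ^ 3 * (1001 / 1000 * x * x ^ 2) / 16 := by rw [hm]; gcongr
    linarith
  have ρ1 : 10000 * N ≤ ρ ^ 2 := by
    rw [hρ]
    calc _ = 10000 * N * 1 := by ring
      _ ≤ _ := by gcongr; linarith
  have zρ : z ≤ ρ := abs_le_of_sq_le_sq' (by linarith) ρ0.le |>.2
  have zρ' : 99 / 100 * ρ ≤ z := abs_le_of_sq_le_sq' (by rw [mul_pow]; linarith) hz |>.2
  have k0 : 0 ≤ g1 := by rw [hg1]; have := sub_nonneg.2 zρ; positivity
  have k1 : g1 ≤ 57 / 1000 * (N * x) ^ 3 := by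
    have h2 : (ρ - z) * (199 / 100 * ρ) ≤ N :=
      calc _ ≤ (ρ - z) * (ρ + z) := mul_le_mul_of_nonneg_left (by linarith) (by linarith)
        _ = N := by linear_combination hρ - hz2
    have h4 : ρ ^ 2 * (x * w) = 1 := by rw [hρ]; linear_combination w * e * xd + we
    have h1 : (ρ - z) / ρ ≤ 51 / 100 * N * (x * w) := by
      rw [div_le_iff₀ ρ0]
      calc ρ - z = (ρ - z) * ρ * (x * w) * ρ := by linear_combination (z - ρ) * h4
        _ ≤ 51 / 100 * N * (x * w) * ρ :=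
          mul_le_mul_of_nonneg_right (mul_le_mul_of_nonneg_right (by linarith) (by positivity))
            ρ0.le
    calc g1 ≤ a * b * c * (51 / 100 * N * (x * w)) := by rw [hg1]; gcongr
      _ = 51 / 900 * (9 * (a * b * c * w)) * (N * x) := by ring
      _ ≤ 51 / 900 * (N * x) ^ 2 * (N * x) := by gcongr
      _ = 51 / 900 * (N * x) ^ 3 := by ring
      _ ≤ _ := by linarith
  have k2 : 0 ≤ g2 := by rw [hg2]; positivity
  have k3 : g2 ≤ (N * x) ^ 3 / 10000 := by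
    have h1 : 1 / a ≤ 1 := by rw [div_le_one a0]; exact ha
    have h2 : 1 / b ≤ 1 := by rw [div_le_one b0]; exact b1
    have h3 : 1 / c ≤ 1 := by rw [div_le_one c0]; exact c1
    calc g2 ≤ N ^ 4 * (((2 * x) ^ 2 * x ^ 2 / 32 + x ^ 4 / 128) * (1 + 1 + 1)) := by
          rw [hg2]; gcongr
      _ = N * x * ((N * x) ^ 3 * (51 / 128)) := by ring
      _ ≤ 1 / 10000 * ((N * x) ^ 3 * (51 / 128)) := by gcongr
      _ ≤ _ := by linarith
  have k4 : |E| ≤ (N * x) ^ 3 / 10000 := by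
    refine hE.trans ?_
    calc _ = N * x * (N * x) * (56 * (N * x) ^ 3) := by ring
      _ ≤ 1 / 10000 * (1 / 10000) * (56 * (N * x) ^ 3) := by gcongr
      _ ≤ _ := by linarith
  have k5 := abs_le.1 k4
  have lo : 0 < m - g1 + g2 - E := by linarith
  have up : m - g1 + g2 - E ≤ 63 / 1000 * (N * x) ^ 3 := by linarith
  refine ⟨by rw [id]; positivity, ?_⟩
  have x5 : x ^ 6 * d ^ 6 = 1 := by rw [← mul_pow, xd, one_pow]
  have V0 : 0 ≤ N ^ 6 * ((b - a) * (c - a) * (c - b)) ^ 2 * e := by positivity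
  calc W ^ 2 * (250 * (a * b * c) ^ 2 * d ^ 5)
      = 250 * ρ ^ 2 * (Λ * (a * b * c)) ^ 2 * (m - g1 + g2 - E) ^ 2 * d ^ 5 := by
        rw [id]; ring
    _ ≤ 250 * ρ ^ 2 * (Λ * (a * b * c)) ^ 2 * (63 / 1000 * (N * x) ^ 3) ^ 2 * d ^ 5 := by gcongr
    _ = 3969 / 4000 * (N ^ 6 * ((b - a) * (c - a) * (c - b)) ^ 2 * e) := by
        rw [hρ, Λc]
        linear_combination (3969 / 4000 * (N ^ 6 * ((b - a) * (c - a) * (c - b)) ^ 2 * e)) * x5
    _ ≤ _ := by linarith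

end NG5N

theorem g5N : S_G5N := by
  intro N a b c d e hN h h' he
  obtain ⟨sa, sa0, sa2⟩ := G5.root h.pd
  obtain ⟨sb, sb0, sb2⟩ := G5.root h.sd
  obtain ⟨sc, sc0, sc2⟩ := G5.root h'.sd
  obtain ⟨xa, xa0, xa2⟩ := G5.root h.pe
  obtain ⟨xb, xb0, xb2⟩ := G5.root h.se
  obtain ⟨xc, xc0, xc2⟩ := G5.root h'.se
  obtain ⟨z, z0, z2⟩ := G5.root h.sq
  have pr : ∀ {i s x : ℤ}, s ^ 2 = i * d + -N → x ^ 2 = i * e + -N →
      ((s * x : ℤ) : ℝ) ^ 2 = (i * d - N) * (i * e - N) := fun {i s x} hs hx => by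
    have : (s * x) ^ 2 = (i * d - N) * (i * e - N) := by rw [mul_pow, hs, hx]; ring
    exact_mod_cast this
  obtain ⟨W, hW⟩ : ∃ W : ℤ, W = (b - a) * (c - a) * (c - b) * z -
    (a * (c - b) * (sa * xa) - b * (c - a) * (sb * xb) + c * (b - a) * (sc * xc)) := ⟨_, rfl⟩
  have z3 : z ^ 2 = d * e - N := by rw [z2]; ring
  have ha : 1 ≤ a := h.p0
  have hab : a + 1 ≤ b := h.pq
  have hbc : b + 1 ≤ c := h'.pq
  obtain ⟨k1, k2⟩ := NG5N.core (N := N) (a := a) (b := b) (c := c) (d := d) (e := e) (z := z)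
    (ya := (sa * xa : ℤ)) (yb := (sb * xb : ℤ)) (yc := (sc * xc : ℤ)) (W := W)
    (by exact_mod_cast h.n1) (by exact_mod_cast hN)
    (by exact_mod_cast ha) (by exact_mod_cast hab) (by exact_mod_cast hbc)
    (by exact_mod_cast h.big) (by exact_mod_cast h.de) (by exact_mod_cast he)
    (by exact_mod_cast z0) (by exact_mod_cast z3)
    (by exact_mod_cast mul_nonneg sa0 xa0) (pr sa2 xa2)
    (by exact_mod_cast mul_nonneg sb0 xb0) (pr sb2 xb2)
    (by exact_mod_cast mul_nonneg sc0 xc0) (pr sc2 xc2) (by exact_mod_cast hW)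
  have k3 : 0 < W := by exact_mod_cast k1
  have k4 : W ^ 2 * (250 * (a * b * c) ^ 2 * d ^ 5) ≤
      N ^ 6 * ((b - a) * (c - a) * (c - b)) ^ 2 * e := by exact_mod_cast k2
  have d0 : 0 < d := by have := h.big; have := h.n1; omega
  exact (le_mul_of_one_le_left (by positivity) (one_le_pow₀ k3)).trans k4

end Pool.Agent.MP_2339ce_nt.DQ
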