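import Pool.Agent.MP_2339ce_nt.DQ.SpecN

/-! The main term of the form with four double nodes. -/

set_option autoImplicit false

namespace Pool.Agent.MP_2339ce_nt.DQ

open Real

namespace NI4

/-- Arithmetic on a type of codes. -/
structure Op (α : Type) where
  /-- zero -/
  z : α
  /-- sum -/
  a : α → α → α
  /-- product -/
  m : α → α → α
  /-- zero test -/
  q : α → Bool

section
variable {α : Type}

/-- The evaluation respects the arithmetic. -/
structure Op.Ok (O : Op α) (e : α → ℝ) : Prop where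
  z : e O.z = 0
  a : ∀ x y, e (O.a x y) = e x + e y
  m : ∀ x y, e (O.m x y) = e x * e y
  q : ∀ x, O.q x = true → e x = 0

/-- Sum of polynomials. -/
def ladd (O : Op α) : List α → List α → List α
  | [], q => q
  | a :: p, [] => a :: p
  | a :: p, b :: q => O.a a b :: ladd O p q

/-- Product of polynomials. -/
def lmul (O : Op α) : List α → List α → List α
  | [], _ => []
  | a :: p, q => bif O.q a then O.z :: lmul O p q else ladd O (q.map (O.m a)) (O.z :: lmul O p q)

/-- Value of a polynomial. -/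
def lev (e : α → ℝ) (x : ℝ) : List α → ℝ
  | [] => 0
  | a :: p => e a + x * lev e x p

/-- Polynomials. -/
def Op.up (O : Op α) : Op (List α) := ⟨[], ladd O, lmul O, fun l => l.all O.q⟩

theorem Op.Ok.up {O : Op α} {e : α → ℝ} (h : O.Ok e) (x : ℝ) : O.up.Ok (lev e x) := by
  have ha : ∀ p q, lev e x (ladd O p q) = lev e x p + lev e x q := by
    intro p
    induction p with
    | nil => intro q; simp [ladd, lev]
    | cons a p ih =>
      intro q
      cases q with
      | nil => simp [ladd, lev]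
      | cons b q => simp only [ladd, lev, ih, h.a]; ring
  have hs : ∀ a q, lev e x (List.map (O.m a) q) = e a * lev e x q := by
    intro a q
    induction q with
    | nil => simp [lev]
    | cons b q ih => simp only [List.map_cons, lev, ih, h.m]; ring
  refine ⟨rfl, ha, fun p q => ?_, fun p => ?_⟩
  · change lev e x (lmul O p q) = _
    induction p with
    | nil => simp [lmul, lev]
    | cons a p ih =>
      cases hq : O.q a
      · simp only [lmul, hq, cond_false, lev, ha, hs, ih, h.z]; ring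
      · simp only [lmul, hq, cond_true, lev, ih, h.z, h.q a hq]; ring
  · change p.all O.q = true → _
    induction p with
    | nil => exact fun _ => rfl
    | cons a p ih =>
      intro hp
      rw [List.all_cons, Bool.and_eq_true] at hp
      rw [lev, h.q a hp.1, ih hp.2, mul_zero, add_zero]

variable [Add α] [Mul α] (c : ℤ → α)

/-- The numerator. -/
def pp (s t u : α) : α :=
  u * (u * (c 1 + u * (c 3 + u * (c 3 + u * (c 1))))) + t * (u * (c 3 + u * (c 12 + u * (c 18 +
    u * (c 12 + u * (c 3))))) + t * (c 1 + u * (c 12 + u * (c 31 + u * (c 31 + u * (c 12 + u *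
    (c 1))))) + t * (c 3 + u * (c 18 + u * (c 31 + u * (c 18 + u * (c 3)))) + t * (c 3 + u *
    (c 12 + u * (c 12 + u * (c 3))) + t * (c 1 + u * (c 3 + u * (c 1))))))) + s * (u * (c 3 + u
    * (c 12 + u * (c 18 + u * (c 12 + u * (c 3))))) + t * (c 3 + u * (c 27 + u * (c 66 + u *
    (c 66 + u * (c 27 + u * (c 3))))) + t * (c 12 + u * (c 66 + u * (c 111 + u * (c 66 + u *
    (c 12)))) + t * (c 18 + u * (c 66 + u * (c 66 + u * (c 18))) + t * (c 12 + u * (c 27 + u *
    (c 12)) + t * (c 3 + u * (c 3)))))) + s * (c 1 + u * (c 12 + u * (c 31 + u * (c 31 + u *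
    (c 12 + u * (c 1))))) + t * (c 12 + u * (c 66 + u * (c 111 + u * (c 66 + u * (c 12)))) + t *
    (c 31 + u * (c 111 + u * (c 111 + u * (c 31))) + t * (c 31 + u * (c 66 + u * (c 31)) + t *
    (c 12 + u * (c 12) + t * (c 1))))) + s * (c 3 + u * (c 18 + u * (c 31 + u * (c 18 + u *
    (c 3)))) + t * (c 18 + u * (c 66 + u * (c 66 + u * (c 18))) + t * (c 31 + u * (c 66 + u *
    (c 31)) + t * (c 18 + u * (c 18) + t * (c 3)))) + s * (c 3 + u * (c 12 + u * (c 12 + u *
    (c 3))) + t * (c 12 + u * (c 27 + u * (c 12)) + t * (c 12 + u * (c 12) + t * (c 3))) + s *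
    (c 1 + u * (c 3 + u * (c 1)) + t * (c 3 + u * (c 3) + t * (c 1)))))))

/-- The numerator of one term. -/
def nn (k a b d : α) : α := c 3 * (a * b * d) + c 2 * k * (b * d + a * d + a * b)

/-- The cube. -/
def cu (x : α) : α := x * x * x

/-- The difference. -/
def df (x y : α) : α := x + c (-1) * y

/-- The cleared identity. -/
def top (s t u A B C a b d n0 n1 n2 n3 P W : α) : α :=
  n0 * cu (a * b * d) + s * n1 * cu (B * C * d) + c (-1) * (t * n2 * cu (A * C * b)) +
    u * n3 * cu (A * B * a) + W * (W * (W * P))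

/-- The identity in terms of the roots and their squares. -/
def mid (s t u A B C : α) : α :=
  top c s t u A B C (df c A B) (df c A C) (df c B C) (nn c (c 2) A B C)
    (nn c (c (-2) * (c 1 + A)) A (df c A B) (df c A C))
    (nn c (c (-2) * (c 1 + B)) B (df c B A) (df c B C))
    (nn c (c (-2) * (c 1 + C)) C (df c C A) (df c C B)) (pp c s t u)
    (df c s (c 1) * df c t (c 1) * df c u (c 1) * df c s t * df c s u * df c t u)

/-- The identity in terms of the roots. -/
def fin (s t u : α) : α :=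
  mid c s t u (df c (s * s) (c 1)) (df c (t * t) (c 1)) (df c (u * u) (c 1))

theorem map_fin {e : α → ℝ} (ha : ∀ x y, e (x + y) = e x + e y) (hm : ∀ x y, e (x * y) = e x * e y)
    (hc : ∀ n, e (c n) = n) (s t u : α) : e (fin c s t u) = fin Int.cast (e s) (e t) (e u) := by
  simp only [fin, mid, top, df, cu, nn, pp, ha, hm, hc]

end

/-- The integers. -/
def oz : Op ℤ := ⟨0, Int.add, Int.mul, fun x => decide (x = 0)⟩

theorem oz_ok : oz.Ok Int.cast :=
  ⟨Int.cast_zero, Int.cast_add, Int.cast_mul, fun x h => by rw [of_decide_eq_true h, Int.cast_zero]⟩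

/-- Polynomials in three variables. -/
def P3 : Type := List (List (List ℤ))

instance : Add P3 := ⟨oz.up.up.up.a⟩

instance : Mul P3 := ⟨oz.up.up.up.m⟩

theorem chk : oz.up.up.up.q
    (fin (α := P3) (fun n => [[[n]]]) [[], [[1]]] [[[], [1]]] [[[0, 1]]]) = true := by
  decide +kernel

theorem fin_zero (s t u : ℝ) : fin Int.cast s t u = 0 := by
  have h := ((oz_ok.up u).up t).up s
  have h0 := (map_fin (α := P3) (fun n => [[[n]]]) h.a h.m (fun n => by simp [lev]) _ _ _).symm.trans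
    (h.q _ chk)
  simpa [lev] using h0

theorem term {x a b c : ℝ} (k : ℝ) (hx : x ≠ 0) (ha : a ≠ 0) (hb : b ≠ 0) (hc : c ≠ 0) :
    (3 / 2 * x + k * (1 / a + 1 / b + 1 / c)) / (a * b * c) ^ 2 =
      x ^ 7 * (nn Int.cast k (a * x) (b * x) (c * x) / (a * x * (b * x) * (c * x)) ^ 3 / 2) := by
  rw [nn]
  push_cast
  field_simp

theorem frac {A B C s t u n0 n1 n2 n3 P W Q : ℝ} (hA : A ≠ 0) (hB : B ≠ 0) (hC : C ≠ 0)
    (hab : A - B ≠ 0) (hac : A - C ≠ 0) (hbc : B - C ≠ 0)
    (hV : A * B * C * (A - B) * (A - C) * (B - C) = W * Q)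
    (h : top Int.cast s t u A B C (A - B) (A - C) (B - C) n0 n1 n2 n3 P W = 0) :
    n0 / (A * B * C) ^ 3 / 2 + s * (n1 / (A * (A - B) * (A - C)) ^ 3 / 2) +
      t * (n2 / (B * (B - A) * (B - C)) ^ 3 / 2) + u * (n3 / (C * (C - A) * (C - B)) ^ 3 / 2) =
      -(P / (2 * Q ^ 3)) := by
  have hV0 : W * Q ≠ 0 := by rw [← hV]; positivity
  have hQ := right_ne_zero_of_mul hV0
  have hW := left_ne_zero_of_mul hV0
  have e : -(P / (2 * Q ^ 3)) = -(W * (W * (W * P))) / (2 * (W * Q) ^ 3) := by field_simp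
  rw [e, neg_eq_of_add_eq_zero_left h, ← hV, show B - A = -(A - B) by ring,
    show C - A = -(A - C) by ring, show C - B = -(B - C) by ring]
  generalize A - B = a at *
  generalize A - C = b at *
  generalize B - C = c at *
  simp only [cu]
  push_cast
  field_simp

theorem pp_le {s t u : ℝ} (hs : 0 ≤ s) (ht : 0 ≤ t) (hu : 0 ≤ u) (hs' : s ≤ 1) (ht' : t ≤ 1)
    (hu' : u ≤ 1) : 0 ≤ pp Int.cast s t u ∧ pp Int.cast s t u ≤ 2304 := by
  refine ⟨by unfold pp; positivity,
    le_of_le_of_eq (b := pp Int.cast 1 1 1) ?_ (by norm_num [pp])⟩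
  unfold pp
  gcongr

theorem root {y : ℝ} (h0 : y ≤ 0) (h1 : -y ≤ 1 / 10000) :
    99994 / 100000 ≤ √(1 + y) ∧ √(1 + y) ≤ 1 ∧ y = √(1 + y) ^ 2 - 1 :=
  ⟨le_sqrt_of_sq_le (by linarith), sqrt_le_one.2 (by linarith),
    by rw [sq_sqrt (by linarith)]; ring⟩

theorem quo {P Q : ℝ} (p0 : 0 ≤ P) (p1 : P ≤ 2304) (q : 261500 ≤ Q) :
    0 ≤ P / (2 * Q) ∧ P / (2 * Q) ≤ 441 / 100000 :=
  ⟨div_nonneg p0 (by linarith), by rw [div_le_iff₀ (by linarith)]; linarith⟩

theorem core {s t u A B C : ℝ} (s1 : 99994 / 100000 ≤ s) (s2 : s ≤ 1) (s3 : A = s ^ 2 - 1)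
    (t1 : 99994 / 100000 ≤ t) (t2 : t ≤ 1) (t3 : B = t ^ 2 - 1) (u1 : 99994 / 100000 ≤ u)
    (u2 : u ≤ 1) (u3 : C = u ^ 2 - 1) (l1 : A < B) (l2 : B < C) (l3 : C < 0) :
    ∃ y : ℝ, 0 ≤ y ∧ y ≤ 441 / 100000 ∧ nn Int.cast 2 A B C / (A * B * C) ^ 3 / 2 +
      s * (nn Int.cast (-(2 * (1 + A))) A (A - B) (A - C) / (A * (A - B) * (A - C)) ^ 3 / 2) +
      t * (nn Int.cast (-(2 * (1 + B))) B (B - A) (B - C) / (B * (B - A) * (B - C)) ^ 3 / 2) +
      u * (nn Int.cast (-(2 * (1 + C))) C (C - A) (C - B) / (C * (C - A) * (C - B)) ^ 3 / 2) =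
      -y := by
  have hd : ∀ a b : ℝ, df Int.cast a b = a - b := fun a b => by rw [df]; push_cast; ring
  have h := fin_zero s t u
  simp only [fin, mid, hd, Int.cast_one, ← sq, ← s3, ← t3, ← u3, Int.cast_neg, Int.cast_ofNat,
    neg_mul] at h
  obtain ⟨p0, p1⟩ := pp_le (by linarith) (by linarith) (by linarith) s2 t2 u2
  have q : ((199988 / 100000 : ℝ) * (199988 / 100000) * (199988 / 100000) * (199988 / 100000) *
      (199988 / 100000) * (199988 / 100000)) ^ 3 ≤
      ((1 + s) * (1 + t) * (1 + u) * (s + t) * (s + u) * (t + u)) ^ 3 := by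
    gcongr <;> linarith
  have q' := quo p0 p1 (le_trans (by norm_num) q)
  refine ⟨_, q'.1, q'.2,
    frac (Q := (1 + s) * (1 + t) * (1 + u) * (s + t) * (s + u) * (t + u))
      ((l1.trans l2).trans l3).ne (l2.trans l3).ne l3.ne (sub_neg.2 l1).ne
      (sub_neg.2 (l1.trans l2)).ne (sub_neg.2 l2).ne ?_ h⟩
  rw [show A - B = (s - t) * (s + t) by rw [s3, t3]; ring,
    show A - C = (s - u) * (s + u) by rw [s3, u3]; ring,
    show B - C = (t - u) * (t + u) by rw [t3, u3]; ring,
    show A = (s - 1) * (1 + s) by rw [s3]; ring, show B = (t - 1) * (1 + t) by rw [t3]; ring,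
    show C = (u - 1) * (1 + u) by rw [u3]; ring]
  ac_rfl

end NI4

open NI4 in
theorem i4b : S_I4 := by
  intro x α β γ hx hab hbc hc hs
  have hb := hbc.trans hc
  have ha := hab.trans hb
  have hac := hab.trans hbc
  have l1 := mul_lt_mul_of_pos_right hab hx
  have l2 := mul_lt_mul_of_pos_right hbc hx
  have l3 := mul_neg_of_neg_of_pos hc hx
  obtain ⟨s1, s2, s3⟩ := root (y := α * x) (by linarith) (by linarith)
  obtain ⟨t1, t2, t3⟩ := root (y := β * x) (by linarith) (by linarith)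
  obtain ⟨u1, u2, u3⟩ := root (y := γ * x) (by linarith) (by linarith)
  obtain ⟨y, y0, y1, e⟩ := core s1 s2 s3 t1 t2 t3 u1 u2 u3 l1 l2 l3
  have e0 := term 2 hx.ne' ha.ne hb.ne hc.ne
  have e1 := term (-(2 * (1 + α * x))) hx.ne' ha.ne (sub_neg.2 hab).ne (sub_neg.2 hac).ne
  have e2 := term (-(2 * (1 + β * x))) hx.ne' hb.ne (sub_pos.2 hab).ne' (sub_neg.2 hbc).ne
  have e3 := term (-(2 * (1 + γ * x))) hx.ne' hc.ne (sub_pos.2 hac).ne' (sub_pos.2 hbc).ne'
  rw [neg_mul, ← sub_eq_add_neg, sub_mul, sub_mul] at e1 e2 e3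
  have k : ∀ z s t u a b c d : ℝ,
      z * a + s * (z * b) + t * (z * c) + u * (z * d) = z * (a + s * b + t * c + u * d) := by
    intros; ring
  have f : i4 x α β γ = x ^ 7 * -y := by
    rw [i4, mul_div_assoc (√(1 + α * x)), mul_div_assoc (√(1 + β * x)),
      mul_div_assoc (√(1 + γ * x)), e0, e1, e2, e3, k, e]
  have x7 := (pow_pos hx 7).le
  rw [f]
  exact ⟨by linarith [mul_le_mul_of_nonneg_left y1 x7], by linarith [mul_nonneg x7 y0]⟩

end Pool.Agent.MP_2339ce_nt.DQ
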