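import Pool.Agent.MP_2339ce_nt.DQ.SpecN
import Pool.Agent.MP_2339ce_nt.DQ.Q4

/-! Project DQN: integrality. -/

set_option autoImplicit false

noncomputable section

namespace Pool.Agent.MP_2339ce_nt.DQ

open INT

namespace NINTN

theorem sg_mem (n : ℕ) : ((-1 : ℝ)) ^ n ∈ ZR := pow_mem (neg_mem (one_mem _)) _

theorem side (ρ kp kq : ℕ) (N p q d : ℤ) (h1 : 1 ≤ kp) (h2 : 1 ≤ kq) (h3 : kq ≤ ρ + 1)
    (hN : 0 < N) (hp : 0 < p) (hq : 0 < q) (hd : 0 < d) (h0 : q ≠ p) :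
    scN ρ kp kq N p q d * rs ρ (1 / d) (-N / q) 0 (-N / p) kq (ρ + 1) kp / q ∈ ZR := by
  obtain ⟨a, rfl⟩ := Nat.exists_eq_add_of_le' h1
  obtain ⟨b, rfl⟩ := Nat.exists_eq_add_of_le' h2
  obtain ⟨j, rfl⟩ := Nat.exists_eq_add_of_le (Nat.le_of_succ_le_succ h3)
  have p0 : (p : ℝ) ≠ 0 := by exact_mod_cast hp.ne'
  have q0 : (q : ℝ) ≠ 0 := by exact_mod_cast hq.ne'
  have n0 : (N : ℝ) ≠ 0 := by exact_mod_cast hN.ne'
  have D0 : (q : ℝ) - p ≠ 0 := by exact_mod_cast sub_ne_zero.2 h0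
  have e1 : ((-N : ℤ) : ℝ) / q - -N / p = N * (q - p) / (p * q) := by push_cast; field_simp; ring
  have h := gen (b + j) b (b + j + 1) (a + 1) (Nat.le_add_right _ _) (-N) (-N * (q - p))
    (4 * (q - p)) (-4 * p) hq hd (w := -1 * (4 * N * (q - p) / q)) (β := 0) (γ := -N / p)
    (by rw [sub_zero, Int.cast_neg]; exact div_ne_zero (neg_ne_zero.2 n0) q0)
    (by rw [e1]; exact div_ne_zero (mul_ne_zero n0 D0) (mul_ne_zero p0 q0))
    (by push_cast; ring) (by push_cast; ring) (by rw [e1]; push_cast; field_simp)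
  rw [e1, sub_zero, Int.cast_neg] at h
  generalize rs (b + j) (1 / d) (-N / q) 0 (-N / p) (b + 1) (b + j + 1) (a + 1) = R at h ⊢
  have h' := mul_mem h (mul_mem (sg_mem (j + 1))
    (mul_mem (pow_mem (ofNat_mem ZR 4) j) (pow_mem (int_mem q) a)))
  have e7 : ∀ n : ℕ, ((-1 : ℝ)) ^ n * (-1) ^ n = 1 := fun n => by rw [← mul_pow]; simp
  have e8 := e7 b
  have e9 := e7 j
  convert h' using 1
  rw [scN, show a + 1 + (b + 1) - 1 = a + b + 1 by omega,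
    show (-N : ℝ) / q = -1 * (N / q) by ring]
  generalize (q : ℝ) - p = D
  simp only [div_pow, mul_pow, pow_add, pow_one]
  generalize ((-1 : ℝ)) ^ b = x at e8 ⊢
  generalize ((-1 : ℝ)) ^ j = y at e9 ⊢
  refine (show ∀ v : ℝ, v = v * (x * x) * (y * y) from fun v => by
    rw [e8, e9, mul_one, mul_one]) _ |>.trans ?_
  field_simp

theorem zero (ρ kp kq : ℕ) (N p q d : ℤ) (hN : 0 < N) (hp : 0 < p) (hq : 0 < q) (hd : 0 < d) :
    scN ρ kp kq N p q d * rs ρ (1 / d) 0 (-N / q) (-N / p) (ρ + 1) kq kp ∈ ZR := by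
  have p0 : (p : ℝ) ≠ 0 := by exact_mod_cast hp.ne'
  have q0 : (q : ℝ) ≠ 0 := by exact_mod_cast hq.ne'
  have n0 : (N : ℝ) ≠ 0 := by exact_mod_cast hN.ne'
  have z : ∀ x : ℝ, ((0 : ℤ) : ℝ) / ((1 : ℤ) : ℝ) - -N / x = N / x := fun x => by simp [neg_div]
  have h := gen ρ ρ kq kp le_rfl 0 N (4 * q) (4 * p) one_pos hd
    (w := 4 * N) (β := -N / q) (γ := -N / p)
    (by rw [z]; exact div_ne_zero n0 q0) (by rw [z]; exact div_ne_zero n0 p0)
    (by simp) (by rw [z]; push_cast; field_simp) (by rw [z]; push_cast; field_simp)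
  rw [z, z, Int.cast_zero, Int.cast_one, zero_div, one_mul] at h
  generalize rs ρ (1 / d) 0 (-N / q) (-N / p) (ρ + 1) kq kp = R at h ⊢
  convert mul_mem h (pow_mem (sub_mem (int_mem q) (int_mem p)) (kp + kq - 1)) using 1
  rw [scN]
  generalize ((q : ℝ) - p) ^ (kp + kq - 1) = E
  simp only [div_pow, mul_pow, pow_add]
  field_simp

theorem swap (ρ kp kq : ℕ) (N p q d : ℝ) :
    scN ρ kp kq N p q d = (-1) ^ (kp + kq - 1) * scN ρ kq kp N q p d := by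
  rw [scN, scN, ← neg_sub p q, neg_pow, add_comm kq kp, add_right_comm ρ kq kp]
  ring

end NINTN

open NINTN in
theorem intN : S_INTN := by
  intro ρ kp kq N p q d h hN hp hpq hd
  have hq : 0 < q := hp.trans hpq
  have k : ∀ {x : ℝ}, x ∈ ZR → ∃ i : ℤ, x = i := fun ⟨i, hi⟩ => ⟨i, hi.symm⟩
  refine ⟨k (NINTN.zero ρ kp kq N p q d hN hp hq hd),
    k (NINTN.side ρ kp kq N p q d h.p1 h.q1 h.q2 hN hp hq hd hpq.ne'), k ?_⟩
  rw [swap, mul_assoc, mul_div_assoc]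
  exact mul_mem (sg_mem _) (NINTN.side ρ kq kp N q p d h.q1 h.p1 h.p2 hN hq hp hd hpq.ne)

end Pool.Agent.MP_2339ce_nt.DQ

end
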