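import Pool.Agent.MP_2339ce_nt.DQ.Spec3

/-! Project DQN (`D(-N)`-quintuples, `1 ≤ N ≤ 256`), block HP: definitions and row statements. -/

set_option autoImplicit false

noncomputable section

namespace Pool.Agent.MP_2339ce_nt.DQ

open Real

def muN (ρ kp kq : ℕ) : ℚ := (1001 / 1000) ^ (ρ + kp + kq) * 4 ^ ρ * beQ ρ (ρ + kp + kq)

def epN (ρ kp kq : ℕ) : ℚ :=
  (1001 / 1000) ^ (ρ + kp + kq) * 4 ^ ρ * ((ρ + kq - 1).choose ρ : ℕ)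

/-- the two constants, in bits -/
structure OkN (ρ kp kq : ℕ) (m1 m2 : ℤ) : Prop extends Adm ρ kp kq where
  k2 : 2 ≤ kq
  h1 : 4 * epN ρ kp kq ^ 2 ≤ 2 ^ m1
  h2 : 4 * muN ρ kp kq ^ 2 ≤ 2 ^ m2

def scN (ρ kp kq : ℕ) (N p q d : ℝ) : ℝ :=
  4 ^ ρ * d ^ ρ * N ^ (ρ + kp + kq) * (q - p) ^ (kp + kq - 1) / (p ^ kp * q ^ kq)

structure CfN (N p q d e : ℤ) : Prop where
  n1 : 1 ≤ N
  p0 : 0 < p
  pq : p < q
  qd : q < d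
  de : d ≤ e
  big : 10000 * N ≤ d
  pd : IsSquare (p * d + -N)
  pe : IsSquare (p * e + -N)
  sd : IsSquare (q * d + -N)
  se : IsSquare (q * e + -N)
  sq : IsSquare (d * e + -N)

/-- the excluded interval, in binary logarithms -/
def DN (L P Q δ D E : ℝ) (ρ kp kq : ℕ) (m1 m2 : ℤ) : Prop :=
  E ≤ (2 * ρ + 1) * D + (2 * (ρ + kp + kq) - 6) * Q + 2 * δ + 2 * L + m1 ∨
    (2 * (kp + kq) - 1) * D + 2 * kp * P + 2 * kq * Q - (2 * (kp + kq) - 2) * δ -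
      2 * (ρ + kp + kq) * L - m2 ≤ E

def S_INTN : Prop := ∀ (ρ kp kq : ℕ) (N p q d : ℤ), Adm ρ kp kq → 0 < N → 0 < p → p < q → 0 < d →
  (∃ i : ℤ, scN ρ kp kq N p q d * rs ρ (1 / d) 0 (-N / q) (-N / p) (ρ + 1) kq kp = i) ∧
  (∃ i : ℤ, scN ρ kp kq N p q d * rs ρ (1 / d) (-N / q) 0 (-N / p) kq (ρ + 1) kp / q = i) ∧
  (∃ i : ℤ, scN ρ kp kq N p q d * rs ρ (1 / d) (-N / p) 0 (-N / q) kp (ρ + 1) kq / p = i)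

def S_SIZEN : Prop := ∀ (ρ kp kq : ℕ) (N p q d e : ℝ), Adm ρ kp kq → 2 ≤ kq → 0 < N → 1 ≤ p →
  p < q → q < d → d ≤ e → 10000 * N ≤ d →
    |scN ρ kp kq N p q d * ww ρ kp kq p q d e (-N) (-N) (-N)| ≤ d ^ ρ *
      (muN ρ kp kq * N ^ (ρ + kp + kq) * (q - p) ^ (kp + kq - 1) /
          (p ^ kp * q ^ kq * d ^ (ρ + kp + kq)) +
        epN ρ kp kq * N * (q - p) * q ^ (ρ + kp + kq - 3) / e)

def S_WINN : Prop := ∀ (ρ kp kq : ℕ) (m1 m2 N p q d e : ℤ), OkN ρ kp kq m1 m2 → CfN N p q d e →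
  ww ρ kp kq p q d e (-N) (-N) (-N) ≠ 0 →
    DN (lg N) (lg p) (lg q) (lg (q - p)) (lg d) (lg e) ρ kp kq m1 m2

def S_TAILN : Prop := ∀ i : ℕ, OkN (2 * i + 1) (2 * i + 2) (2 * i + 2) (17 * i + 11) (9 * i + 7)

/-- non-vanishing for a close pair -/
def S_NZC : Prop := ∀ (ρ kq : ℕ) (N p q d e : ℝ), 2 ≤ kq → kq ≤ ρ + 1 → ρ ≤ 10 → 0 < N → 1 ≤ p →
  p < q → q < d → d ≤ e → 10000 * N ≤ d → 10 * q ≤ 19 * p →
    ww ρ (ρ + 1) kq p q d e (-N) (-N) (-N) ≠ 0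

/-- the form `(1; 2, 2, 1)` for a close pair -/
def S_F121 : Prop := ∀ N p q d e : ℤ, CfN N p q d e → 2 * q ≤ 3 * p →
  e ≤ 150 * N ^ 2 * (q - p) ^ 2 * q ^ 2 * d ^ 3 ∨
    28 * p ^ 4 * q ^ 2 * d ^ 5 ≤ N ^ 8 * (q - p) ^ 4 * e

/-- the numerator of the main term of the form with four double nodes -/
def i4 (x α β γ : ℝ) : ℝ :=
  (3 / 2 * x + 2 * (1 / α + 1 / β + 1 / γ)) / (α * β * γ) ^ 2 +
  √(1 + α * x) * (3 / 2 * x - 2 * (1 + α * x) * (1 / α + 1 / (α - β) + 1 / (α - γ))) /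
    (α * (α - β) * (α - γ)) ^ 2 +
  √(1 + β * x) * (3 / 2 * x - 2 * (1 + β * x) * (1 / β + 1 / (β - α) + 1 / (β - γ))) /
    (β * (β - α) * (β - γ)) ^ 2 +
  √(1 + γ * x) * (3 / 2 * x - 2 * (1 + γ * x) * (1 / γ + 1 / (γ - α) + 1 / (γ - β))) /
    (γ * (γ - α) * (γ - β)) ^ 2

def S_I4 : Prop := ∀ x α β γ : ℝ, 0 < x → α < β → β < γ → γ < 0 → -α * x ≤ 1 / 10000 →
  -(441 / 100000 * x ^ 7) ≤ i4 x α β γ ∧ i4 x α β γ ≤ 0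

/-- the form with four double nodes -/
def S_F4 : Prop := ∀ N a b c d e : ℤ, CfN N a b d e → CfN N b c d e →
  a * (c - b) ≤ (b - a) * (2 * c - b) →
  e ≤ 1100 * N ^ 2 * ((b - a) * (c - a) * (c - b)) ^ 6 * d ^ 3 ∨
    e ≤ 1100 * N ^ 2 * (b ^ 5 * (c - a) ^ 3 * (c - b)) ^ 2 * d ^ 3 ∨
    3200 * (a * b * c) ^ 4 * d ^ 11 ≤ N ^ 14 * ((b - a) * (c - a) * (c - b)) ^ 6 * e

def S_G5N : Prop := ∀ N a b c d e : ℤ, N ≤ 256 → CfN N a b d e → CfN N b c d e →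
  9 * a * b * c * d ^ 2 ≤ N ^ 2 * e →
  250 * (a * b * c) ^ 2 * d ^ 5 ≤ N ^ 6 * ((b - a) * (c - a) * (c - b)) ^ 2 * e

/-- the first gap -/
def S_ST : Prop := ∀ (N : ℤ) (q : Qd N), 1 ≤ N → N * q.b ≤ q.c → 10000 * N ≤ q.c →
  q.a ^ 2 * q.c ^ 3 ≤ 20 * N ^ 4 * q.d

end Pool.Agent.MP_2339ce_nt.DQ

end
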