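import Pool.Agent.MP_2339ce_nt.DQ.BD
import Pool.Agent.MP_2339ce_nt.DQ.TSIZE3
import Pool.Agent.MP_2339ce_nt.DQ.SpecN

/-! Project DQN: the linear form of a close pair does not vanish. -/

set_option autoImplicit false

noncomputable section

namespace Pool.Agent.MP_2339ce_nt.DQ

open PowerSeries Real Sgn

namespace NNZC

/-- the coefficientwise order -/
def Le (f g : ℝ⟦X⟧) : Prop := ∀ n, coeff n f ≤ coeff n g

theorem Le.mul {f g f' g' : ℝ⟦X⟧} (h : Le f g) (h' : Le f' g') (hf : NN f) (hf' : NN f') :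
    Le (f * f') (g * g') := fun n => by
  rw [coeff_mul, coeff_mul]
  exact Finset.sum_le_sum fun p _ => mul_le_mul (h _) (h' _) (hf' _) ((hf _).trans (h _))

theorem Le.pow {f g : ℝ⟦X⟧} (h : Le f g) (hf : NN f) (k : ℕ) : Le (f ^ k) (g ^ k) := by
  induction k with
  | zero => exact fun n => by simp
  | succ k ih => rw [pow_succ, pow_succ]; exact ih.mul h (hf.pow k) hf

theorem J_le {B W : ℝ} (hW : 0 < W) (h : W ≤ B) : Le (C (B / W) * J B) (J W) := fun n => by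
  have hB : 0 < B := hW.trans_le h
  rw [coeff_C_mul, J, J, coeff_mk, coeff_mk, pow_succ', pow_succ',
    show B / W * (B⁻¹ * B⁻¹ ^ n) = W⁻¹ * B⁻¹ ^ n by field_simp]
  gcongr

/-- the majorant -/
def Z (ρ k m : ℕ) (x A B : ℝ) : ℝ := ∑ p ∈ Finset.antidiagonal ρ,
  Ring.choose ((ρ : ℝ) + 1 / 2) p.1 * x ^ p.1 * coeff p.2 (J B ^ k * J A ^ m)

theorem fst_le {ρ : ℕ} {p : ℕ × ℕ} (hp : p ∈ Finset.antidiagonal ρ) : p.1 ≤ ρ :=
  Nat.le.intro (Finset.mem_antidiagonal.1 hp)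

theorem g_nn {ρ : ℕ} {x : ℝ} (hx : 0 ≤ x) {p : ℕ × ℕ} (hp : p ∈ Finset.antidiagonal ρ) :
    0 ≤ Ring.choose ((ρ : ℝ) + 1 / 2) p.1 * x ^ p.1 := by
  have h : (p.1 : ℝ) ≤ ρ := Nat.cast_le.2 (fst_le hp)
  exact mul_nonneg (choose_nn _ _ (by linarith)) (pow_nonneg hx _)

theorem up (ρ k m : ℕ) {x A B : ℝ} (hx : 0 ≤ x) (hA : 0 < A) (hB : 0 < B) :
    |rs ρ x 0 (-B) (-A) (ρ + 1) k m| ≤ Z ρ k m x A B := by
  rw [rs, Nat.add_sub_cancel, mul_assoc, coeff_mul, zero_sub, zero_sub, neg_neg, neg_neg]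
  refine (Finset.abs_sum_le_sum_abs _ _).trans (Finset.sum_le_sum fun p hp => le_of_eq ?_)
  have e : J B ^ k * J A ^ m = rescale (-1 : ℝ) (iv B ^ k * iv A ^ m) := by
    rw [map_mul, map_pow, map_pow, iv_res hB.ne', iv_res hA.ne']
  have n := ((J_nn hB).pow k).mul ((J_nn hA).pow m) p.2
  rw [abs_mul, gs, coeff_mk, zero_mul, add_zero, one_zpow, mul_one, abs_of_nonneg (g_nn hx hp),
    ← abs_of_nonneg n, e, coeff_rescale, abs_mul, abs_neg_one_pow, one_mul]

theorem low (ρ k m : ℕ) {x A B c : ℝ} (hx : 0 ≤ x) (hB : 0 < B) (hA : B < A) (h : A - B ≤ B)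
    (c0 : 0 ≤ c) (c1 : c ≤ 1 + -A * x) :
    c ^ ρ * (B / (A - B)) ^ k * Z ρ k m x A B ≤
      (-1) ^ (m + k) * rs ρ x (-A) 0 (-B) (ρ + 1) m k := by
  have hW : 0 < A - B := by linarith
  have A0 : 0 < A := by linarith
  have y1 : 1 + -A * x ≤ 1 := by nlinarith
  have e : (-1) ^ (m + k) * rs ρ x (-A) 0 (-B) (ρ + 1) m k =
      coeff ρ (gs ρ x (-A) * (J (A - B) ^ k * J A ^ m)) := by
    rw [rs, Nat.add_sub_cancel, sub_zero, show -A - -B = -(A - B) by ring, iv_neg A0.ne',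
      iv_neg hW.ne', ← coeff_C_mul, neg_pow (J A), neg_pow (J _), map_pow, map_neg, map_one]
    congr 1
    have a : ∀ n : ℕ, (-1 : ℝ⟦X⟧) ^ n * (-1) ^ n = 1 := fun n => by rw [← mul_pow]; simp
    linear_combination (gs ρ x (-A) * (J (A - B) ^ k * J A ^ m)) *
      ((-1 : ℝ⟦X⟧) ^ k * (-1) ^ k * a m + a k)
  have r0 : 0 ≤ B / (A - B) := by positivity
  have l := (((J_le hW h).pow ((NN.const r0).mul (J_nn hB)) k).mul (fun _ => le_rfl)
    (((NN.const r0).mul (J_nn hB)).pow k) ((J_nn A0).pow m))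
  rw [e, coeff_mul, Z, Finset.mul_sum]
  refine Finset.sum_le_sum fun p hp => ?_
  have l1 := l p.2
  rw [mul_pow, ← map_pow, mul_assoc, coeff_C_mul] at l1
  have n := ((J_nn hB).pow k).mul ((J_nn A0).pow m) p.2
  have l2 : c ^ ρ ≤ (1 + -A * x) ^ ((ρ : ℤ) - p.1) := by
    rw [← Nat.cast_sub (fst_le hp), zpow_natCast]
    exact (pow_le_pow_left₀ c0 c1 ρ).trans (pow_le_pow_of_le_one (c0.trans c1) y1 (Nat.sub_le _ _))
  have g := g_nn hx hp
  rw [gs, coeff_mk]
  refine le_trans (le_of_eq ?_) (mul_le_mul (mul_le_mul_of_nonneg_left l2 g) l1 (by positivity)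
    (mul_nonneg g ((pow_nonneg c0 ρ).trans l2)))
  ring

theorem sqrt_low {u v : ℝ} (hv : v ≤ 1) (h : u ≤ v) (hu : 0 ≤ u) :
    (v - u) / 2 ≤ √(1 + -u) - √(1 + -v) := by
  have a := abs_le.1 (TSIZE3.sqrt_le (u := -u) (by linarith))
  have b := abs_le.1 (TSIZE3.sqrt_le (u := -v) (by linarith))
  have c : √(1 + -v) ≤ √(1 + -u) := sqrt_le_sqrt (by linarith)
  have := sq_sqrt (show 0 ≤ 1 + -u by linarith)
  have := sq_sqrt (show 0 ≤ 1 + -v by linarith)
  nlinarith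

theorem fin {s S R T f0 fq fp t z b w r c : ℝ} (hs : |s| = 1) (hS : 0 < s * S) (hq : 0 < fq)
    (h0 : |f0 - fq| ≤ 5001 / 10000 * b) (hR : |R| ≤ z) (hp : w / 2 ≤ fq - fp)
    (ht : 9999 / 10000 ≤ t) (hT : c * r * z ≤ -s * T) (w0 : 0 ≤ w) (c0 : 998 / 1000 ≤ c)
    (hr : 10 / 9 * b ≤ w * r) (b0 : 0 ≤ b) (r0 : 0 ≤ r) :
    fq * S + (f0 - fq) * R + (fp - fq) * (t * T) ≠ 0 := by
  intro e
  have z0 : 0 ≤ z := (abs_nonneg _).trans hR
  have a1 : |s * ((f0 - fq) * R)| ≤ 5001 / 10000 * b * z := by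
    rw [abs_mul, hs, one_mul, abs_mul]
    exact mul_le_mul h0 hR (abs_nonneg _) (by positivity)
  have a2 : w / 2 * (9999 / 10000 * (998 / 1000 * r * z)) ≤ (fq - fp) * (t * (-s * T)) :=
    mul_le_mul hp (mul_le_mul ht (le_trans (by gcongr) hT) (by positivity) (by linarith))
      (by positivity) (by linarith)
  have a3 : 10 / 9 * b * z ≤ w * r * z := by gcongr
  have a4 := mul_pos hq hS
  have a5 := neg_abs_le (s * ((f0 - fq) * R))
  have a6 := mul_nonneg b0 z0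
  have a7 : fq * (s * S) + s * ((f0 - fq) * R) + (fq - fp) * (t * (-s * T)) = 0 := by
    linear_combination s * e
  linarith

end NNZC

open NNZC in
theorem nzc (h : S_MAIN) : S_NZC := by
  intro ρ k N p q d e k2 k1 hρ N0 p1 pq qd de big cl
  obtain ⟨j, rfl⟩ : ∃ j, k = j + 2 := ⟨k - 2, by omega⟩
  have p0 : 0 < p := by linarith
  have q0 : 0 < q := by linarith
  have d0 : 0 < d := by linarith
  have e0 : 0 < e := by linarith
  have x0 : 0 < 1 / d := by positivity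
  have lt : N / q < N / p := div_lt_div_of_pos_left N0 p0 pq
  have B0 : 0 < N / q := by positivity
  have sm : ∀ z : ℝ, d ≤ z → N / p / z ≤ 1 / 10000 := fun z hz => by
    rw [div_div, div_le_div_iff₀ (mul_pos p0 (d0.trans_le hz)) (by norm_num)]
    nlinarith
  have c9 : 10 * (N / p - N / q) ≤ 9 * (N / q) := by
    have : 10 * (N / p) ≤ 19 * (N / q) := by
      rw [← mul_div_assoc, ← mul_div_assoc, div_le_div_iff₀ p0 q0]
      nlinarith
    linarith
  have dq : N / d ≤ N / q := div_le_div_of_nonneg_left N0.le q0 qd.le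
  have d1 : 0 < N / d / e := by positivity
  rw [ww, SS, zero_mul, add_zero, sqrt_one, ← div_div, ← div_div, ← div_div]
  simp only [neg_div]
  generalize N / p = A at *
  generalize N / q = B at *
  have W0 : 0 < A - B := by linarith
  have s1 : A * (1 / d) ≤ 1 / 10000 := by simpa only [mul_one_div] using sm d le_rfl
  have s2 := sm e de
  have s3 : B * (1 / d) ≤ A * (1 / d) := by gcongr
  have s4 : B / e ≤ A / e := by gcongr
  have s5 : N / d / e ≤ B / e := by gcongr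
  have s6 : 0 < B * (1 / d) := by positivity
  obtain ⟨m1, -, m3, -⟩ := h ρ (ρ + 1) (j + 2) (ρ + 1) (ρ + (ρ + 1) + (j + 2)) (1 / 10000) (1 / d) 0
    (-B) (-A) ⟨x0, by linarith, by linarith, by norm_num, by norm_num,
      by rw [neg_mul, abs_neg, abs_of_pos s6]; linarith,
      by rw [neg_mul, abs_neg, abs_of_pos (by linarith)]; exact s1⟩
    (by omega) (by omega) (by omega) (by omega) (by omega)
  have m4 := lt_of_lt_of_le (by positivity) m3
  have es : (-1 : ℝ) ^ (ρ + 1 + (j + 2)) = -(-1) ^ (ρ + (ρ + 1) + (j + 2) + ρ + 1) := by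
    rw [show ρ + (ρ + 1) + (j + 2) + ρ + 1 = ρ + 1 + (j + 2) + 1 + 2 * ρ by ring, pow_add _ _ (2 * ρ),
      pow_mul, pow_succ _ (ρ + 1 + (j + 2))]
    simp
  have lo := low ρ (j + 2) (ρ + 1) (c := 9999 / 10000) x0.le B0 lt (by linarith) (by norm_num)
    (by linarith)
  rw [es] at lo
  have r1 : 10 / 9 ≤ B / (A - B) := by rw [le_div_iff₀ W0]; linarith
  have key := fin (f0 := √(1 + -(N / d / e))) (fq := √(1 + -(B / e))) (fp := √(1 + -(A / e)))
    (t := √(1 + -A * (1 / d))) (b := B / e) (w := A / e - B / e) (abs_neg_one_pow _) m4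
    (sqrt_pos.2 (by linarith)) ((TSIZE3.sqrt_sub (by linarith) (by linarith)).trans (by
      rw [neg_sub_neg, abs_of_nonneg (by linarith)]; linarith))
    (up ρ (j + 2) (ρ + 1) x0.le (by linarith) B0) (sqrt_low (by linarith) s4 (by linarith))
    (le_sqrt_of_sq_le (by linarith)) lo (by linarith)
    (le_trans (by norm_num) (pow_le_pow_of_le_one (by norm_num) (by norm_num) hρ)) (by
      have a : 1 ≤ (B / (A - B)) ^ j := one_le_pow₀ (by linarith)
      rw [show (A / e - B / e) * (B / (A - B)) ^ (j + 2) =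
        (B / (A - B)) ^ j * (B / (A - B)) * (B / e) by rw [pow_add, ← sub_div]; field_simp]
      have b : 10 / 9 ≤ (B / (A - B)) ^ j * (B / (A - B)) := by nlinarith
      gcongr) (by positivity) (by positivity)
  refine fun z => key ?_
  rw [SS, zero_mul, add_zero, sqrt_one]
  linear_combination z

end Pool.Agent.MP_2339ce_nt.DQ

end
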