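import Pool.Agent.MP_2339ce_nt.DQ.TSIZE3
import Pool.Agent.MP_2339ce_nt.DQ.SpecN

/-! Project DQN: the size of the linear form. -/

set_option autoImplicit false

noncomputable section

namespace Pool.Agent.MP_2339ce_nt.DQ

open Real

namespace NSIZEN

theorem smallN {N y : ℝ} (h0 : 0 < N) (hy : 10000 * N ≤ y) : N / y ≤ 1 / 10000 := by
  rw [div_le_div_iff₀ (by linarith) (by norm_num)]
  linarith

theorem etaN {ρ σ : ℕ} {u : ℝ} (h0 : 0 ≤ u) (h : u ≤ 1 / 10000) (hσ : ρ + 2 ≤ σ) :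
    5001 / 10000 * (1 + u) ^ (ρ + 1) ≤ 1 / 2 * (1001 / 1000) ^ σ := by
  have := TSIZE3.eta h0 h hσ
  linarith

theorem algN {ρ i j : ℕ} {N p q d e D b c κ C E C' E' : ℝ} (N0 : 0 < N) (p0 : 0 < p) (q0 : 0 < q)
    (d0 : 0 < d) (e0 : 0 < e) (D0 : 0 < D) :
    4 ^ ρ * d ^ ρ * N ^ (ρ + (i + 1) + (j + 2)) * D ^ (i + j + 2) / (p ^ (i + 1) * q ^ (j + 2)) *
      (1 * (b * (1 / d) ^ (ρ + (i + 1) + (j + 2)) * c) +
        κ * (N / (q * e)) * (C * E / ((N / q) ^ (ρ + j + 2) * (N * D / (p * q)) ^ (i + 1))) +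
        κ * (N * D / (p * q) / e) *
          (1 * (C' * E' / ((N * D / (p * q)) ^ (i + j + 2) * (N / q) ^ (ρ + 1))))) =
    d ^ ρ * (c * 4 ^ ρ * b * N ^ (ρ + (i + 1) + (j + 2)) * D ^ (i + j + 2) /
        (p ^ (i + 1) * q ^ (j + 2) * d ^ (ρ + (i + 1) + (j + 2))) +
      4 ^ ρ * N * D * q ^ (ρ + i) / e * (κ * E * C * D ^ j + κ * E' * C' * p ^ j)) := by
  simp only [div_pow, mul_pow, one_pow]
  field_simp
  ring

end NSIZEN

open TSIZE3 NSIZEN in
theorem sizeN (h1 : S_MAIN) (h2 : S_BND3) (h3 : S_BE) : S_SIZEN := by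
  intro ρ kp kq N p q d e hS k2 N0 p1 pq qd de big
  obtain ⟨i, rfl⟩ : ∃ i, kp = i + 1 := ⟨kp - 1, by have := hS.p1; omega⟩
  obtain ⟨j, rfl⟩ : ∃ j, kq = j + 2 := ⟨kq - 2, by omega⟩
  have hi : i ≤ ρ := by have := hS.p2; omega
  have p0 : 0 < p := by linarith
  have q0 : 0 < q := by linarith
  have d0 : 0 < d := by linarith
  have e0 : 0 < e := by linarith
  have D0 : 0 < q - p := by linarith
  have x0 : 0 < 1 / d := by positivity
  have ge : ∀ y z : ℝ, 1 ≤ y → d ≤ z → N / (y * z) ≤ 1 / 10000 := fun y z hy hz =>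
    smallN N0 ((big.trans hz).trans (le_mul_of_one_le_left (d0.le.trans hz) hy))
  have q1 : 1 ≤ q := by linarith
  have d1 : 1 ≤ d := by linarith
  have spd := ge p d p1 le_rfl
  have sqd := ge q d q1 le_rfl
  have spe := ge p e p1 de
  have sqe := ge q e q1 de
  have sde := ge d e d1 de
  have epd : -N / p * (1 / d) = -(N / (p * d)) := by field_simp
  have eqd : -N / q * (1 / d) = -(N / (q * d)) := by field_simp
  have ppd : 0 < N / (p * d) := by positivity
  have pqd : 0 < N / (q * d) := by positivity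
  have pqe : 0 < N / (q * e) := by positivity
  have pde : 0 < N / (d * e) := by positivity
  have lt3 : N / q < N / p := div_lt_div_of_pos_left N0 p0 pq
  have p3q : 0 < N / q := by positivity
  have eD : N / p - N / q = N * (q - p) / (p * q) := by field_simp
  have pD : 0 < N * (q - p) / (p * q) := by positivity
  have hm := main_abs h1 (ρ := ρ) (k := ρ + 1) (l := j + 2) (m := i + 1)
    (σ := ρ + (i + 1) + (j + 2)) (x := 1 / d) (α := 0) (β := -N / q) (γ := -N / p)
    ⟨x0, by rw [neg_div]; linarith, by rw [neg_div, neg_div]; linarith, by norm_num, by norm_num,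
      by rw [eqd, abs_neg, abs_of_pos pqd]; exact sqd,
      by rw [epd, abs_neg, abs_of_pos ppd]; exact spd⟩
    (by omega) (by omega) (by omega) (by omega) (by omega)
  have a1 : |0 - -N / q| = N / q := by rw [neg_div, zero_sub, neg_neg, abs_of_pos p3q]
  have a2 : |0 - -N / p| = N / p := by
    rw [neg_div, zero_sub, neg_neg, abs_of_pos (p3q.trans lt3)]
  have a3 : |-N / p - -N / q| = N * (q - p) / (p * q) := by
    rw [abs_sub_comm, neg_div, neg_div, neg_sub_neg, eD, abs_of_pos pD]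
  have a4 : |-N / p - 0| = N / p := by rw [abs_sub_comm, a2]
  have r0 := h2 ρ (ρ + 1) (j + 2) (i + 1) (1 / d) 0 (-N / q) (-N / p) (by omega) le_rfl (by omega)
    x0 (by norm_num) (by norm_num) (by rw [a1]; exact p3q) (by rw [a1, a2]; exact lt3)
  have rp := h2 ρ (i + 1) (j + 2) (ρ + 1) (1 / d) (-N / p) (-N / q) 0 (by omega) (by omega)
    (by omega) x0 (by rw [epd]; linarith) (by rw [epd]; linarith) (by rw [a3]; exact pD)
    (by rw [a3, a4]; linarith)
  rw [a1, a2, eD, show ρ + 1 + (j + 2) - 2 = ρ + j + 1 by omega, Nat.add_sub_cancel,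
    show ρ + 1 + (j + 2) - 1 = ρ + j + 2 by omega] at r0
  rw [a3, a4, show N / p - N * (q - p) / (p * q) = N / q by linarith, rs_comm,
    show i + 1 + (j + 2) - 2 = i + j + 1 by omega, Nat.add_sub_cancel,
    show i + 1 + (j + 2) - 1 = i + j + 2 by omega] at rp
  have f1 : |√(1 + -N / (d * e)) - √(1 + -N / (q * e))| ≤ 5001 / 10000 * (N / (q * e)) := by
    refine (sqrt_sub (by rw [neg_div]; linarith) (by rw [neg_div]; linarith)).trans ?_
    have : N / (d * e) ≤ N / (q * e) := by gcongr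
    rw [neg_div, neg_div, neg_sub_neg, abs_of_nonneg (by linarith)]
    linarith
  have f2 : |√(1 + -N / (p * e)) - √(1 + -N / (q * e))| ≤
      5001 / 10000 * (N * (q - p) / (p * q) / e) := by
    refine (sqrt_sub (by rw [neg_div]; linarith) (by rw [neg_div]; linarith)).trans (le_of_eq ?_)
    rw [← div_div, ← div_div, ← sub_div, abs_div _ e, abs_of_pos e0, a3]
  have ew : ww ρ (i + 1) (j + 2) p q d e (-N) (-N) (-N) = √(1 + -N / (q * e)) *
      SS ρ (1 / d) 0 (-N / q) (-N / p) (ρ + 1) (j + 2) (i + 1) 1 1 1 +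
      (√(1 + -N / (d * e)) - √(1 + -N / (q * e))) *
        rs ρ (1 / d) 0 (-N / q) (-N / p) (ρ + 1) (j + 2) (i + 1) +
      (√(1 + -N / (p * e)) - √(1 + -N / (q * e))) * (√(1 + -N / p * (1 / d)) *
        rs ρ (1 / d) (-N / p) 0 (-N / q) (i + 1) (ρ + 1) (j + 2)) := by
    rw [ww, SS, SS, zero_mul, add_zero, sqrt_one]
    ring
  have w1 := (abs_add_three _ _ _).trans (add_le_add (add_le_add
    ((abs_mul _ _).trans_le (mul_le_mul (sqrt_le (u := -N / (q * e)) (by rw [neg_div]; linarith))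
      hm (abs_nonneg _) zero_le_one))
    ((abs_mul _ _).trans_le (mul_le_mul f1 r0 (abs_nonneg _) (by positivity))))
    ((abs_mul _ _).trans_le (mul_le_mul f2 ((abs_mul _ _).trans_le (mul_le_mul
      (sqrt_le (u := -N / p * (1 / d)) (by rw [epd]; linarith)) rp (abs_nonneg _) zero_le_one))
      (abs_nonneg _) (by positivity))))
  rw [← ew] at w1
  have es : scN ρ (i + 1) (j + 2) N p q d = 4 ^ ρ * d ^ ρ * N ^ (ρ + (i + 1) + (j + 2)) *
      (q - p) ^ (i + j + 2) / (p ^ (i + 1) * q ^ (j + 2)) := by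
    rw [scN, show i + 1 + (j + 2) - 1 = i + j + 2 by omega]
  have s0 : 0 ≤ scN ρ (i + 1) (j + 2) N p q d := by rw [es]; positivity
  rw [abs_mul, abs_of_nonneg s0]
  refine (mul_le_mul_of_nonneg_left w1 s0).trans ?_
  rw [es, algN N0 p0 q0 d0 e0 D0, h3, muN, epN, show i + 1 + (j + 2) - 1 = i + j + 2 by omega,
    show ρ + (j + 2) - 1 = ρ + j + 1 by omega, show ρ + (i + 1) + (j + 2) - 3 = ρ + i + j by omega]
  push_cast
  refine mul_le_mul_of_nonneg_left (add_le_add le_rfl ?_) (by positivity)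
  have c1 : (((i + j + 1).choose i : ℕ) : ℝ) ≤ ((ρ + j + 1).choose ρ : ℕ) := by
    refine Nat.cast_le.2 ?_
    rw [add_assoc, add_assoc, Nat.choose_symm_add, Nat.choose_symm_add]
    exact Nat.choose_le_choose _ (by omega)
  have n1 := etaN (ρ := ρ) (σ := ρ + (i + 1) + (j + 2)) (u := 1 / d * (N / q)) (by positivity)
    (by rw [show 1 / d * (N / q) = N / (q * d) by field_simp]; exact sqd) (by omega)
  have n2 := etaN (ρ := ρ) (σ := ρ + (i + 1) + (j + 2)) (u := 1 / d * (N * (q - p) / (p * q)))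
    (by positivity) (by
      refine le_trans ?_ spd
      rw [show N / (p * d) = 1 / d * (N / p) by field_simp]
      exact mul_le_mul_of_nonneg_left (by linarith) x0.le) (by omega)
  have j1 : (q - p) ^ j ≤ q ^ j := pow_le_pow_left₀ D0.le (by linarith) j
  have j2 : p ^ j ≤ q ^ j := pow_le_pow_left₀ p0.le pq.le j
  have t1 := mul_le_mul (mul_le_mul_of_nonneg_right n1
    (Nat.cast_nonneg ((ρ + j + 1).choose ρ))) j1 (by positivity) (by positivity)
  have t2 := mul_le_mul (mul_le_mul n2 c1 (Nat.cast_nonneg _) (by positivity)) j2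
    (by positivity) (by positivity)
  refine (mul_le_mul_of_nonneg_left (add_le_add t1 t2) (by positivity)).trans (le_of_eq ?_)
  ring

end Pool.Agent.MP_2339ce_nt.DQ

end
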