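import Pool.Agent.MP_2339ce_nt.DQ.SpecN

/-! Project DQN, row ST: the first gap. -/

set_option autoImplicit false

namespace Pool.Agent.MP_2339ce_nt.DQ

theorem stN : S_ST := by
  intro N q h1 hb hc
  have hN : 0 < N := h1
  have hm := q.m0_pos hN
  have hP : 0 < q.P := Qd.m0_pos.pos_of_mul_pos_left' (q.P_sign hN.ne') hN
  have a0 := q.a0; have b0 := q.b0; have c0 := q.c0; have d0 := q.d0; have z0 := q.z0
  have s0 := q.s0; have x0 := q.x0; have cd := q.cd; have hz := q.hz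
  have e := q.e1
  have k1 : q.b * (2 * q.a * q.z) ≤ q.b * (q.P ^ 2 + N * q.r ^ 2) := by
    have k1 : 2 * q.a * q.b * q.z * 1 ≤ 2 * q.a * q.b * q.z * q.m0 := by gcongr
    have k2 : 0 ≤ q.a * q.Q ^ 2 := by positivity
    have k3 : 0 ≤ N * q.a * q.r ^ 2 := by positivity
    linarith
  have k2 := le_of_mul_le_mul_left k1 b0
  have k3 : N * q.r ^ 2 ≤ q.a * q.c := by
    have p1 : q.r ^ 2 ≤ q.a * q.b := by have := q.hr; linarith
    have p2 : N * q.r ^ 2 ≤ N * (q.a * q.b) := by gcongr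
    have p3 : q.a * (N * q.b) ≤ q.a * q.c := by gcongr
    linarith
  have k4 : q.c ≤ q.z := by
    have p1 : q.c * (q.c + 1) ≤ q.c * q.d := by gcongr; omega
    exact abs_le_of_sq_le_sq' (by linarith) z0 |>.2
  have k5 : q.a * q.z ≤ q.P ^ 2 := by
    have : q.a * q.c ≤ q.a * q.z := by gcongr
    linarith
  have k6 : q.P * q.z ≤ 2 * N * q.d := by
    have p1 := q.eP
    have p2 : 0 ≤ q.P * (q.s * q.x) := by positivity
    have p3 : q.s ^ 2 + q.a * (q.d - q.a) ≤ q.a * (2 * q.d) := by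
      have : q.a * q.c ≤ q.a * q.d := by gcongr
      have := q.hs
      nlinarith [mul_pos a0 a0]
    have p4 := mul_le_mul_of_nonneg_left p3 hN.le
    refine le_of_mul_le_mul_left ?_ a0
    linarith
  have k7 : q.a * q.z ^ 3 ≤ 4 * N ^ 2 * q.d ^ 2 := by
    calc q.a * q.z ^ 3 = q.a * q.z * q.z ^ 2 := by ring
      _ ≤ q.P ^ 2 * q.z ^ 2 := by gcongr
      _ = (q.P * q.z) ^ 2 := by ring
      _ ≤ (2 * N * q.d) ^ 2 := by gcongr
      _ = _ := by ring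
  have k8 : 9999 * (q.c * q.d) ≤ 10000 * q.z ^ 2 := by
    have : q.c * 1 ≤ q.c * q.d := by gcongr; omega
    linarith
  have k9 : q.d ^ 3 * (9999 ^ 3 * (q.a ^ 2 * q.c ^ 3)) ≤ q.d ^ 3 * (16 * 10000 ^ 3 * (N ^ 4 * q.d)) := by
    calc q.d ^ 3 * (9999 ^ 3 * (q.a ^ 2 * q.c ^ 3)) = q.a ^ 2 * (9999 * (q.c * q.d)) ^ 3 := by ring
      _ ≤ q.a ^ 2 * (10000 * q.z ^ 2) ^ 3 := by gcongr
      _ = 10000 ^ 3 * (q.a * q.z ^ 3) ^ 2 := by ring
      _ ≤ 10000 ^ 3 * (4 * N ^ 2 * q.d ^ 2) ^ 2 := by gcongr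
      _ = _ := by ring
  have k10 := le_of_mul_le_mul_left k9 (by positivity)
  have k11 : 0 ≤ N ^ 4 * q.d := by positivity
  linarith

end Pool.Agent.MP_2339ce_nt.DQ
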