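import Pool.Agent.MP_2339ce_nt.DQ.SpecN
import Pool.Agent.MP_2339ce_nt.DQ.TWIN
import Pool.Agent.MP_2339ce_nt.DQ.TTAIL

/-! Project DQN: the sharp windows, with `N` a parameter. -/

set_option autoImplicit false

namespace Pool.Agent.MP_2339ce_nt.DQ

open Real

namespace NWINN

theorem int_w (h1 : S_INTN) {ρ kp kq : ℕ} {N p q d e : ℤ} (a : Adm ρ kp kq) (c : CfN N p q d e) :
    ∃ i : ℤ, √((d : ℝ) * e) * (scN ρ kp kq N p q d * ww ρ kp kq p q d e (-N) (-N) (-N)) = i := by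
  have q0 : 0 < q := c.p0.trans c.pq
  have hd : 0 < d := q0.trans c.qd
  obtain ⟨⟨i1, e1⟩, ⟨i2, e2⟩, ⟨i3, e3⟩⟩ := h1 ρ kp kq N p q d a c.n1 c.p0 c.pq hd
  have p1 : (0 : ℝ) < p := by exact_mod_cast c.p0
  have q1 : (0 : ℝ) < q := by exact_mod_cast q0
  have d1 : (0 : ℝ) < d := by exact_mod_cast hd
  have e0 : (0 : ℝ) < e := by exact_mod_cast hd.trans_le c.de
  obtain ⟨z0, f0⟩ := DICH.sq_int c.sq
  obtain ⟨z1, f1⟩ := DICH.sq_int c.se
  obtain ⟨z2, f2⟩ := DICH.sq_int c.sd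
  obtain ⟨z3, f3⟩ := DICH.sq_int c.pe
  obtain ⟨z4, f4⟩ := DICH.sq_int c.pd
  push_cast at f0 f1 f2 f3 f4
  have g0 := DICH.one (n := -N) (mul_pos d1 e0)
  have g1 := DICH.two (n := -N) q1 d1 e0
  have g2 := DICH.two (n := -N) p1 d1 e0
  rw [f0] at g0
  rw [f1, f2] at g1
  rw [f3, f4] at g2
  refine ⟨z0 * i1 + z1 * z2 * i2 + z3 * z4 * i3, ?_⟩
  push_cast
  rw [← e1, ← e2, ← e3, ← g0, ww, SS, zero_mul, add_zero, sqrt_one]
  linear_combination
    (scN ρ kp kq N p q d * rs ρ (1 / d) (-N / q) 0 (-N / p) kq (ρ + 1) kp) * g1 +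
    (scN ρ kp kq N p q d * rs ρ (1 / d) (-N / p) 0 (-N / q) kp (ρ + 1) kq) * g2

theorem ch_le (i : ℕ) : (4 * i + 2).choose (2 * i + 1) ≤ 2 ^ (4 * i + 1) := by
  have h := Nat.choose_succ_le_two_pow (4 * i + 1) (2 * i + 1)
  exact h

theorem ep_le (i : ℕ) : epN (2 * i + 1) (2 * i + 2) (2 * i + 2) ≤ 9 * (258 : ℚ) ^ i := by
  have hc : (((2 * i + 1 + (2 * i + 2) - 1).choose (2 * i + 1) : ℕ) : ℚ) ≤ 2 ^ (4 * i + 1) := by
    rw [show 2 * i + 1 + (2 * i + 2) - 1 = 4 * i + 2 by omega]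
    exact_mod_cast ch_le i
  have h1 : ((1001 / 1000 : ℚ) ^ 6 * 4 ^ 2 * 2 ^ 4) ^ i ≤ 258 ^ i :=
    pow_le_pow_left₀ (by positivity) (by norm_num) i
  unfold epN
  calc _ ≤ (1001 / 1000 : ℚ) ^ (2 * i + 1 + (2 * i + 2) + (2 * i + 2)) * 4 ^ (2 * i + 1) *
        2 ^ (4 * i + 1) := by gcongr
    _ = ((1001 / 1000 : ℚ) ^ 5 * 8) * ((1001 / 1000 : ℚ) ^ 6 * 4 ^ 2 * 2 ^ 4) ^ i := by
        rw [show 2 * i + 1 + (2 * i + 2) + (2 * i + 2) = 6 * i + 5 by ring]
        simp only [pow_add, pow_mul, mul_pow]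
        ring
    _ ≤ 9 * 258 ^ i := mul_le_mul (by norm_num) h1 (by positivity) (by norm_num)

theorem mu_le (i : ℕ) : muN (2 * i + 1) (2 * i + 2) (2 * i + 2) ≤ 5 * (17 : ℚ) ^ i := by
  have hb := TTAIL.beQ_le (ρ := 2 * i + 1) (σ := 2 * i + 1 + (2 * i + 2) + (2 * i + 2)) (by omega)
  have h1 : ((1001 / 1000 : ℚ) ^ 6 * 4 ^ 2) ^ i ≤ 17 ^ i :=
    pow_le_pow_left₀ (by positivity) (by norm_num) i
  unfold muN
  calc _ ≤ (1001 / 1000 : ℚ) ^ (2 * i + 1 + (2 * i + 2) + (2 * i + 2)) * 4 ^ (2 * i + 1) * 1 := by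
        gcongr
    _ = ((1001 / 1000 : ℚ) ^ 5 * 4) * ((1001 / 1000 : ℚ) ^ 6 * 4 ^ 2) ^ i := by
        rw [show 2 * i + 1 + (2 * i + 2) + (2 * i + 2) = 6 * i + 5 by ring]
        simp only [pow_add, pow_mul, mul_pow]
        ring
    _ ≤ 5 * 17 ^ i := mul_le_mul (by norm_num) h1 (by positivity) (by norm_num)

end NWINN

theorem winN (h1 : S_INTN) (h2 : S_SIZEN) : S_WINN := by
  intro ρ kp kq m1 m2 N p q d e a c hw
  obtain ⟨i, hi⟩ := NWINN.int_w h1 a.toAdm c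
  have n0 : (0 : ℝ) < N := by exact_mod_cast (show 0 < N from c.n1)
  have p0 : (1 : ℝ) ≤ p := by exact_mod_cast c.p0
  have p1 : (0 : ℝ) < p := by linarith
  have pq : (p : ℝ) < q := by exact_mod_cast c.pq
  have qd : (q : ℝ) < d := by exact_mod_cast c.qd
  have de : (d : ℝ) ≤ e := by exact_mod_cast c.de
  have q1 : (0 : ℝ) < q := by linarith
  have d1 : (0 : ℝ) < d := by linarith
  have e0 : (0 : ℝ) < e := by linarith
  have δ0 : (0 : ℝ) < q - p := by linarith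
  have t0 : (0 : ℝ) < d * e := mul_pos d1 e0
  have r0 : 0 < √((d : ℝ) * e) := sqrt_pos.2 t0
  have s0 : scN ρ kp kq N p q d ≠ 0 := by
    unfold scN
    positivity
  have i0 : i ≠ 0 := by
    rintro rfl
    exact mul_ne_zero r0.ne' (mul_ne_zero s0 hw) (by simpa using hi)
  have i1 : (1 : ℝ) ≤ |(i : ℝ)| := by exact_mod_cast Int.one_le_abs i0
  rw [← hi, abs_mul, abs_of_pos r0] at i1
  have key := i1.trans (mul_le_mul_of_nonneg_left
    (h2 ρ kp kq N p q d e a.toAdm a.k2 n0 p0 pq qd de (by exact_mod_cast c.big)) r0.le)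
  have c1 : 4 * ((epN ρ kp kq : ℚ) : ℝ) ^ 2 ≤ 2 ^ m1 := by
    have := (Rat.cast_le (K := ℝ)).2 a.h1
    push_cast at this
    exact this
  have c2 : 4 * ((muN ρ kp kq : ℚ) : ℝ) ^ 2 ≤ 2 ^ m2 := by
    have := (Rat.cast_le (K := ℝ)).2 a.h2
    push_cast at this
    exact this
  generalize ((epN ρ kp kq : ℚ) : ℝ) = x at key c1
  generalize ((muN ρ kp kq : ℚ) : ℝ) = y at key c2
  obtain ⟨kp, rfl⟩ := Nat.exists_eq_add_of_le' a.p1
  obtain ⟨kq, rfl⟩ := Nat.exists_eq_add_of_le' a.k2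
  rw [show kp + 1 + (kq + 2) - 1 = kp + kq + 2 by omega,
    show ρ + (kp + 1) + (kq + 2) - 3 = ρ + kp + kq by omega] at key
  have l2 : ∀ m : ℤ, logb 2 ((2 : ℝ) ^ m) = m := fun m => by
    rw [← rpow_intCast, logb_rpow two_pos (by norm_num)]
  unfold DN lg
  by_cases hc : (1 / 2 : ℝ) ≤
      √((d : ℝ) * e) * (x * (d ^ ρ * N * (q - p) * q ^ (ρ + kp + kq)) / e)
  · left
    have := logb_le_logb_of_le one_lt_two (by positivity) (TWIN.sqr t0 e0 hc c1)
    rw [logb_mul (by positivity) (by positivity), logb_mul (by positivity) (by positivity),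
      logb_mul d1.ne' e0.ne', l2, logb_pow, logb_pow,
      logb_mul (by positivity) (by positivity), logb_mul (by positivity) δ0.ne',
      logb_mul (by positivity) n0.ne', logb_pow, logb_pow] at this
    push_cast at this ⊢
    linarith
  · right
    have hc' : (1 / 2 : ℝ) ≤ √((d : ℝ) * e) *
        (y * (d ^ ρ * N ^ (ρ + (kp + 1) + (kq + 2)) * (q - p) ^ (kp + kq + 2)) /
        (p ^ (kp + 1) * q ^ (kq + 2) * d ^ (ρ + (kp + 1) + (kq + 2)))) := by
      have e1 : ∀ r n n' u v w B D : ℝ, r * (D * (y * n * u / B + x * n' * v * w / e)) =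
          r * (y * (D * n * u) / B) + r * (x * (D * n' * v * w) / e) := by
        intros
        ring
      rw [e1] at key
      linarith
    have := logb_le_logb_of_le one_lt_two (by positivity) (TWIN.sqr t0 (by positivity) hc' c2)
    rw [logb_mul (by positivity) (by positivity), logb_mul (by positivity) (by positivity),
      logb_mul d1.ne' e0.ne', l2, logb_pow, logb_pow,
      logb_mul (by positivity) (by positivity), logb_mul (by positivity) (by positivity),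
      logb_mul (by positivity) (by positivity), logb_mul (by positivity) (by positivity),
      logb_pow, logb_pow, logb_pow, logb_pow, logb_pow, logb_pow] at this
    push_cast at this ⊢
    linarith

open NWINN in
theorem tailN : S_TAILN := by
  intro i
  refine ⟨⟨by omega, by omega, by omega, by omega⟩, by omega, ?_, ?_⟩
  · have h0 : 0 ≤ epN (2 * i + 1) (2 * i + 2) (2 * i + 2) := by unfold epN; positivity
    have h1 : ((258 : ℚ) ^ 2) ^ i ≤ (2 ^ 17) ^ i := pow_le_pow_left₀ (by positivity) (by norm_num) i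
    rw [show (17 * (i : ℤ) + 11) = ((17 * i + 11 : ℕ) : ℤ) by push_cast; rfl, zpow_natCast]
    calc _ ≤ 4 * (9 * (258 : ℚ) ^ i) ^ 2 := by have := ep_le i; gcongr
      _ = 324 * (258 ^ 2) ^ i := by rw [mul_pow, ← pow_mul, ← pow_mul, mul_comm i]; ring
      _ ≤ 2 ^ 11 * (2 ^ 17) ^ i := mul_le_mul (by norm_num) h1 (by positivity) (by norm_num)
      _ = _ := by rw [pow_add, pow_mul, mul_comm]
  · have h0 : 0 ≤ muN (2 * i + 1) (2 * i + 2) (2 * i + 2) := by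
      have := TTAIL.beQ_nn (2 * i + 1) (2 * i + 1 + (2 * i + 2) + (2 * i + 2))
      unfold muN; positivity
    have h1 : ((17 : ℚ) ^ 2) ^ i ≤ (2 ^ 9) ^ i := pow_le_pow_left₀ (by positivity) (by norm_num) i
    rw [show (9 * (i : ℤ) + 7) = ((9 * i + 7 : ℕ) : ℤ) by push_cast; rfl, zpow_natCast]
    calc _ ≤ 4 * (5 * (17 : ℚ) ^ i) ^ 2 := by have := mu_le i; gcongr
      _ = 100 * (17 ^ 2) ^ i := by rw [mul_pow, ← pow_mul, ← pow_mul, mul_comm i]; ring
      _ ≤ 2 ^ 7 * (2 ^ 9) ^ i := mul_le_mul (by norm_num) h1 (by positivity) (by norm_num)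
      _ = _ := by rw [pow_add, pow_mul, mul_comm]

end Pool.Agent.MP_2339ce_nt.DQ
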