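import Mathlib
import Pool.Agent.MP_2339ce_nt.DQ.Basic

/-! Project DQ, row Q5. -/

set_option autoImplicit false

namespace Pool.Agent.MP_2339ce_nt.DQ

namespace Q5

variable {N : ℤ}

/-- the two small terms of `e4` -/
theorem rest (q : Qd N) {K0 : ℤ} (hN : 1 ≤ |N|) (w : q.Win K0) (hm : q.m0 ≤ K0)
    (hg : |q.g| ≤ K0) (hp : K0 ≤ |q.P|) :
    |2 * N ^ 2 * q.r ^ 2 * (q.b - q.a) + q.b * q.m0 * (2 * N * q.P + q.g)| ≤
      q.b * |q.P| * (10 * |N| ^ 3 + K0 * (2 * |N| + 1)) := by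
  have ha := q.a0; have hb := q.b0; have hab := q.ab; have hbc := q.bc
  have hm1 := w.m; have hl := w.low
  have hp1 : 1 ≤ |q.P| := by omega
  have h1 : q.r ^ 2 ≤ 5 * |N| * |q.P| := by
    have e1 : q.a * q.b ≤ q.a * q.c := by gcongr
    have e2 : |N| * 1 ≤ |N| * |q.P| := by gcongr
    have := q.hr; have := neg_abs_le N
    linarith
  have h2 : |2 * N ^ 2 * q.r ^ 2 * (q.b - q.a)| ≤ 2 * |N| ^ 2 * (5 * |N| * |q.P|) * q.b := by
    have := sub_pos.2 hab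
    rw [abs_of_nonneg (by positivity), sq_abs]
    gcongr
    omega
  have h3 : |2 * N * q.P + q.g| ≤ 2 * |N| * |q.P| + |q.P| := by
    refine (abs_add_le _ _).trans ?_
    rw [abs_mul, abs_mul, abs_two]
    linarith
  have h4 : |q.b * q.m0 * (2 * N * q.P + q.g)| ≤ q.b * K0 * (2 * |N| * |q.P| + |q.P|) := by
    have : 0 < q.m0 := by omega
    have : 0 < K0 := by omega
    rw [abs_mul, abs_of_pos (by positivity : 0 < q.b * q.m0)]
    gcongr
  refine (abs_add_le _ _).trans ?_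
  linarith

theorem e4abs (q : Qd N) : 2 * q.b * |q.P| * |q.D| = |2 * q.b * q.P * q.D| := by
  have := q.b0
  rw [abs_mul, abs_mul, abs_of_pos (by positivity : 0 < 2 * q.b)]

theorem sqabs (q : Qd N) : |2 * N * q.a * q.Q ^ 2| = 2 * |N| * q.a * |q.Q| ^ 2 := by
  rw [abs_mul, abs_mul, abs_mul, abs_two, abs_of_pos q.a0, abs_pow]

end Q5

open Q5 in
theorem q5 : S_Q5 := by
  intro N hN K0
  have hn : 1 ≤ |N| := Int.one_le_abs (ne_zero_of_ns hN)
  obtain ⟨K1, hK1⟩ : ∃ K1, K1 = 10 * |N| ^ 3 + K0 * (2 * |N| + 1) := ⟨_, rfl⟩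
  obtain ⟨K3, hK3⟩ : ∃ K3, K3 = K0 * (16 * |N| ^ 2 * (2 * |N| + 1) + 4 * |N| * K0 ^ 2 + K0 ^ 2) :=
    ⟨_, rfl⟩
  refine ⟨8 * |N| * K0 + 16 * |N| * K0 ^ 2 + 2 * K0 * K1 + K3 + 8 * (2 * K3 + K1), ?_⟩
  intro q hc hb w hh hm hg hne
  have ha := q.a0; have hb0 := q.b0; have hc0 := q.c0; have hac := q.ac
  have hm1 := w.m; have hl := w.low; have hu := w.up
  have k0 : 0 < K0 := by omega
  have n0 : 0 < |N| := by omega
  have k1 : 0 < K1 := by rw [hK1]; positivity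
  have k3 : 0 < K3 := by rw [hK3]; positivity
  have t1 : 0 < 8 * |N| * K0 := by positivity
  have t2 : 0 < 16 * |N| * K0 ^ 2 := by positivity
  have t3 : 0 < 2 * K0 * K1 := by positivity
  have hca : q.c * 1 ≤ q.c * q.a := by gcongr; omega
  have hp : 2 * K0 ≤ |q.P| := by
    have : 4 * |N| * (2 * K0) ≤ 4 * |N| * |q.P| := by linarith
    exact le_of_mul_le_mul_left this (by positivity)
  have p0 : 0 < |q.P| := by omega
  have hr := rest q hn w hm hg (by omega)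
  rw [← hK1] at hr
  have hQ : q.Q = q.P - q.m0 := by unfold Qd.m0; ring
  have q1 : |q.Q| ≤ 2 * |q.P| := by
    have := abs_sub q.P q.m0
    rw [hQ, abs_of_pos (by omega : 0 < q.m0)] at *; omega
  have q2 : |q.P| ≤ 2 * |q.Q| := by
    have := abs_sub_abs_le_abs_sub q.P q.m0
    rw [hQ, abs_of_pos (by omega : 0 < q.m0)] at *; omega
  have d0 := abs_nonneg q.D
  have e4 := q.e4
  -- first bound on `D`
  have s1 : 2 * K0 * |q.D| ≤ q.a * q.c := by
    have a1 : 2 * q.b * |q.P| * |q.D| ≤ 2 * |N| * q.a * |q.Q| ^ 2 + q.b * |q.P| * K1 := by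
      rw [e4abs, e4, sub_sub]
      exact (abs_sub _ _).trans (by rw [sqabs]; linarith)
    have a2 : |q.Q| ^ 2 ≤ 4 * |q.P| * (K0 * q.a * q.c) := by
      have : |q.Q| ^ 2 ≤ (2 * |q.P|) ^ 2 := by gcongr
      have : 4 * |q.P| * |q.P| ≤ 4 * |q.P| * (K0 * q.a * q.c) := by gcongr
      linarith
    have a3 : 2 * |N| * q.a * |q.Q| ^ 2 ≤ 2 * |N| * q.a * (4 * |q.P| * (K0 * q.a * q.c)) := by
      gcongr
    have a4 : |q.P| * (2 * q.b * |q.D|) ≤ |q.P| * (8 * |N| * K0 * q.a ^ 2 * q.c + q.b * K1) := by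
      linarith
    have a5 := le_of_mul_le_mul_left a4 p0
    have a6 : 16 * |N| * K0 ^ 2 * q.a ≤ q.b := by
      refine le_trans ?_ hb
      gcongr; linarith
    have a7 : 16 * |N| * K0 ^ 2 * q.a * (q.a * q.c) ≤ q.b * (q.a * q.c) := by gcongr
    have a8 : q.b * (2 * K0 * K1) ≤ q.b * (q.a * q.c) :=
      mul_le_mul_of_nonneg_left (by linarith) hb0.le
    have a9 := mul_le_mul_of_nonneg_left a5 (by positivity : 0 ≤ 2 * K0)
    have : 2 * q.b * (2 * K0 * |q.D|) ≤ 2 * q.b * (q.a * q.c) := by linarith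
    exact le_of_mul_le_mul_left this (by positivity)
  have s2 : q.a * q.c ≤ 2 * |N * (q.m0 * q.P - q.a * q.c * N)| := by
    have b1 : 1 ≤ |4 * q.m0 ^ 2 - N ^ 2| := by
      refine Int.one_le_abs fun h => hne ?_
      have : (2 * q.m0) ^ 2 = |N| ^ 2 := by rw [sq_abs]; linarith
      exact (pow_left_inj₀ (by omega) n0.le two_ne_zero).1 this
    have b2 : q.a * q.c * (4 * q.m0 ^ 2 - N ^ 2) =
        N * (q.m0 * q.P - q.a * q.c * N) - q.m0 * q.D := by linarith [q.e6]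
    have b3 := abs_sub (N * (q.m0 * q.P - q.a * q.c * N)) (q.m0 * q.D)
    rw [← b2, abs_mul (q.a * q.c), abs_of_pos (by positivity : 0 < q.a * q.c), abs_mul q.m0,
      abs_of_pos (by omega : 0 < q.m0)] at b3
    have b4 : q.a * q.c * 1 ≤ q.a * q.c * |4 * q.m0 ^ 2 - N ^ 2| := by gcongr
    have b5 : q.m0 * |q.D| ≤ K0 * |q.D| := by gcongr
    linarith
  have a1 : (1 : ℤ) ≤ q.a ^ 2 := one_le_pow₀ ha
  have s3 : |q.D| ≤ K3 * q.a ^ 2 := by
    have c1 : |N * q.c + q.a ^ 2 * q.c - N * q.a| ≤ (2 * |N| + 1) * (q.a ^ 2 * q.c) := by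
      have u1 := abs_sub (N * q.c + q.a ^ 2 * q.c) (N * q.a)
      have u2 := abs_add_le (N * q.c) (q.a ^ 2 * q.c)
      rw [abs_mul N, abs_of_pos ha] at u1
      rw [abs_mul N, abs_of_pos hc0, abs_of_pos (by positivity : 0 < q.a ^ 2 * q.c)] at u2
      have u3 : |N| * (1 * q.c) ≤ |N| * (q.a ^ 2 * q.c) := by gcongr
      have u4 : |N| * q.a ≤ |N| * q.c := by gcongr
      linarith
    have c2 : |16 * q.a * N ^ 2 * (N * q.c + q.a ^ 2 * q.c - N * q.a)| ≤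
        16 * q.a * |N| ^ 2 * ((2 * |N| + 1) * (q.a ^ 2 * q.c)) := by
      rw [abs_mul, abs_of_nonneg (by positivity : 0 ≤ 16 * q.a * N ^ 2), sq_abs]
      gcongr
    have c3 : |4 * N * q.P * q.g| ≤ 4 * |N| * (K0 * q.a * (q.a ^ 2 * q.c)) * K0 := by
      rw [abs_mul, abs_mul, abs_mul, abs_of_pos (by norm_num : (0 : ℤ) < 4)]
      have : K0 * q.a * (1 * q.c) ≤ K0 * q.a * (q.a ^ 2 * q.c) := by gcongr
      gcongr
      linarith
    have c4 : |q.g ^ 2| ≤ K0 ^ 2 * (q.a * (q.a ^ 2 * q.c)) := by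
      have u1 : |q.g| ^ 2 ≤ K0 ^ 2 := by gcongr
      have u2 : 0 < q.a * (q.a ^ 2 * q.c) := by positivity
      have u3 : K0 ^ 2 * 1 ≤ K0 ^ 2 * (q.a * (q.a ^ 2 * q.c)) := by gcongr; omega
      rw [abs_pow]; linarith
    obtain ⟨E, hE⟩ : ∃ E, E = 16 * q.a * N ^ 2 * (N * q.c + q.a ^ 2 * q.c - N * q.a) -
      4 * N * q.P * q.g - q.g ^ 2 := ⟨_, rfl⟩
    have c5 : |E| ≤ (16 * |N| ^ 2 * (2 * |N| + 1) + 4 * |N| * K0 ^ 2 + K0 ^ 2) *
        (q.a * (q.a ^ 2 * q.c)) := by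
      rw [hE]
      have u1 := abs_sub (16 * q.a * N ^ 2 * (N * q.c + q.a ^ 2 * q.c - N * q.a) -
        4 * N * q.P * q.g) (q.g ^ 2)
      have u2 := abs_sub (16 * q.a * N ^ 2 * (N * q.c + q.a ^ 2 * q.c - N * q.a))
        (4 * N * q.P * q.g)
      linarith
    have c6 : 4 * q.D * (N * (q.m0 * q.P - q.a * q.c * N)) = q.m0 * E := by
      have := q.e5
      rw [hh, ← hE] at this
      linarith
    have c7 := congrArg abs c6
    rw [abs_mul, abs_mul, abs_mul q.m0, abs_of_pos (by norm_num : (0 : ℤ) < 4),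
      abs_of_pos (by omega : 0 < q.m0)] at c7
    have c8 : q.m0 * |E| ≤ K3 * (q.a * (q.a ^ 2 * q.c)) := by
      rw [hK3, mul_assoc]
      gcongr
    have c9 := mul_le_mul_of_nonneg_left s2 d0
    have c10 : 0 ≤ |q.D| * (q.a * q.c) := by positivity
    have : q.a * q.c * |q.D| ≤ q.a * q.c * (K3 * q.a ^ 2) := by linarith
    exact le_of_mul_le_mul_left this (by positivity)
  refine ⟨s3.trans (by gcongr; linarith), ?_⟩
  have f1 : 2 * |N| * q.a * |q.Q| ^ 2 ≤ 2 * q.b * |q.P| * |q.D| + q.b * |q.P| * K1 := by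
    have e : 2 * N * q.a * q.Q ^ 2 = 2 * q.b * q.P * q.D +
        (2 * N ^ 2 * q.r ^ 2 * (q.b - q.a) + q.b * q.m0 * (2 * N * q.P + q.g)) := by linarith
    rw [← sqabs, e, e4abs]
    exact (abs_add_le _ _).trans (by linarith)
  have f2 : |N| * q.a * |q.P| ^ 2 ≤ |N| * q.a * (2 * |q.Q|) ^ 2 := by gcongr
  have f3 : q.b * |q.P| * |q.D| ≤ q.b * |q.P| * (K3 * q.a ^ 2) := by gcongr
  have f4 : q.b * |q.P| * K1 * 1 ≤ q.b * |q.P| * K1 * q.a ^ 2 := by gcongr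
  have f5 : q.a * |q.P| * (|N| * |q.P|) ≤ q.a * |q.P| * (2 * (2 * K3 + K1) * q.b * q.a) := by
    linarith
  have f6 := le_of_mul_le_mul_left f5 (by positivity)
  have f7 : q.a * q.c ≤ q.a * (8 * (2 * K3 + K1) * q.b) := by linarith
  refine (le_of_mul_le_mul_left f7 ha).trans ?_
  gcongr
  linarith

end Pool.Agent.MP_2339ce_nt.DQ
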