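import Mathlib.RingTheory.PowerSeries.Inverse
import Pool.Agent.MP_2339ce_nt.DQ.Spec3

/-! Project DQ3: the sharp size of a residue. -/

set_option autoImplicit false

noncomputable section

namespace Pool.Agent.MP_2339ce_nt.DQ

open PowerSeries Finset

namespace TBND3

/-- the weighted sum of the first coefficients -/
def S (A : ℝ) (f : ℝ⟦X⟧) (n : ℕ) : ℝ := ∑ h ∈ range (n + 1), |coeff h f| * A ^ h

variable {A c V : ℝ} {f : ℝ⟦X⟧}

theorem S_zero : S A f 0 = |coeff 0 f| := by simp [S]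

theorem S_succ (n : ℕ) : S A f (n + 1) = S A f n + |coeff (n + 1) f| * A ^ (n + 1) :=
  sum_range_succ _ _

theorem S_mono (hA : 0 ≤ A) {n N : ℕ} (h : n ≤ N) : S A f n ≤ S A f N :=
  sum_le_sum_of_subset_of_nonneg (range_mono (Nat.succ_le_succ h)) fun _ _ _ => by positivity

theorem key (hc : c ≠ 0) (f : ℝ⟦X⟧) : |coeff 0 (f * iv c)| * |c| = |coeff 0 f| ∧
    ∀ h, |coeff (h + 1) (f * iv c)| * |c| ≤ |coeff (h + 1) f| + |coeff h (f * iv c)| := by
  have e : f * iv c * (C c + X) = f := by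
    rw [iv, mul_assoc, PowerSeries.inv_mul_cancel _ (by simpa using hc), mul_one]
  generalize f * iv c = g at e
  subst e
  refine ⟨by rw [mul_add, map_add, coeff_mul_C, coeff_zero_mul_X, add_zero, abs_mul], fun h => ?_⟩
  rw [mul_add, map_add, coeff_mul_C, coeff_succ_mul_X, ← abs_mul]
  have h4 := abs_sub (coeff (h + 1) g * c + coeff h g) (coeff h g)
  rwa [add_sub_cancel_right] at h4

theorem step (hA : 0 ≤ A) (hc : A < |c|) (f : ℝ⟦X⟧) (n : ℕ) :
    S A (f * iv c) n * (|c| - A) ≤ S A f n := by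
  obtain ⟨k0, k1⟩ := key (abs_pos.1 (hA.trans_lt hc)) f
  generalize f * iv c = g at k0 k1
  have h : S A g n * (|c| - A) + |coeff n g| * A ^ (n + 1) ≤ S A f n := by
    induction n with
    | zero =>
      rw [S_zero, S_zero, ← k0]
      exact le_of_eq (by ring)
    | succ n ih =>
      have := mul_le_mul_of_nonneg_right (k1 n) (pow_nonneg hA (n + 1))
      rw [S_succ, S_succ, pow_succ A (n + 1)]
      linarith
  have : 0 ≤ |coeff n g| * A ^ (n + 1) := by positivity
  linarith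

theorem steps (hA : 0 ≤ A) (hc : A < |c|) (f : ℝ⟦X⟧) (n m : ℕ) :
    S A (f * iv c ^ m) n * (|c| - A) ^ m ≤ S A f n := by
  induction m with
  | zero => simp
  | succ m ih =>
    rw [pow_succ, ← mul_assoc, pow_succ', ← mul_assoc]
    exact (mul_le_mul_of_nonneg_right (step hA hc _ n) (pow_nonneg (sub_pos.2 hc).le m)).trans ih

theorem last0 (hc : c ≠ 0) (f : ℝ⟦X⟧) (n : ℕ) :
    |coeff n (f * iv c)| * |c| ^ (n + 1) ≤ S |c| f n := by
  obtain ⟨k0, k1⟩ := key hc f
  induction n with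
  | zero => rw [S_zero, ← k0, zero_add, pow_one]
  | succ n ih =>
    have := mul_le_mul_of_nonneg_right (k1 n) (pow_nonneg (abs_nonneg c) (n + 1))
    rw [S_succ, pow_succ |c| (n + 1)]
    linarith

theorem last (hc : c ≠ 0) {N : ℕ} (hV : S |c| f N ≤ V) (j : ℕ) : ∀ n ≤ N,
    |coeff n (f * iv c ^ (j + 1))| * |c| ^ (n + j + 1) ≤ ((n + j).choose n : ℕ) * V := by
  induction j with
  | zero =>
    intro n hn
    rw [zero_add, pow_one, add_zero, Nat.choose_self, Nat.cast_one, one_mul]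
    exact (last0 hc f n).trans ((S_mono (abs_nonneg c) hn).trans hV)
  | succ j ih =>
    obtain ⟨k0, k1⟩ := key hc (f * iv c ^ (j + 1))
    rw [mul_assoc, ← pow_succ] at k0 k1
    intro n hn
    induction n with
    | zero =>
      have := ih 0 hn
      rw [← k0, Nat.choose_zero_right] at this
      rw [Nat.choose_zero_right]
      exact le_of_eq_of_le (by ring) this
    | succ n ih2 =>
      have h1 := ih _ hn
      have h2 := ih2 (Nat.le_of_succ_le hn)
      have h3 := mul_le_mul_of_nonneg_right (k1 n) (pow_nonneg (abs_nonneg c) (n + 1 + j + 1))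
      rw [show n + (j + 1) = n + 1 + j by ring] at h2
      rw [show n + 1 + (j + 1) = n + 1 + j + 1 by ring, Nat.choose_succ_succ', Nat.cast_add,
        pow_succ |c| (n + 1 + j + 1)]
      linarith

theorem ch (ρ h : ℕ) (hh : h ≤ ρ + 1) :
    |Ring.choose ((ρ : ℝ) + 1 / 2) h| ≤ ((ρ + 1).choose h : ℕ) := by
  induction h with
  | zero => simp
  | succ h ih =>
    have e := Ring.choose_smul_choose ((ρ : ℝ) + 1 / 2) (Nat.le_succ h)
    rw [Nat.succ_sub (le_refl h), Nat.sub_self, Ring.choose_one_right, Nat.choose_succ_self_right,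
      nsmul_eq_mul] at e
    replace e := congrArg abs e
    have h1 : (h : ℝ) ≤ ρ := by exact_mod_cast Nat.le_of_succ_le_succ hh
    rw [abs_mul, abs_mul, Nat.abs_cast, Nat.cast_succ,
      abs_of_nonneg (by linarith : 0 ≤ (ρ : ℝ) + 1 / 2 - h)] at e
    have e2 := congrArg (Nat.cast (R := ℝ)) (Nat.choose_succ_right_eq (ρ + 1) h)
    rw [Nat.cast_mul, Nat.cast_mul, Nat.cast_sub (Nat.le_of_succ_le hh), Nat.cast_succ,
      Nat.cast_succ] at e2
    refine le_of_mul_le_mul_left (a := (h : ℝ) + 1) ?_ (by positivity)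
    rw [e, mul_comm ((h : ℝ) + 1), e2]
    exact mul_le_mul (ih (Nat.le_of_succ_le hh)) (by linarith) (by linarith) (Nat.cast_nonneg _)

theorem first {ρ n : ℕ} {x α : ℝ} (hA : 0 ≤ A) (hn : n ≤ ρ) (hx : 0 < x) (h0 : 0 ≤ 1 + α * x)
    (h1 : α * x ≤ 0) : S A (gs ρ x α) n ≤ (1 + x * A) ^ (ρ + 1) := by
  rw [add_comm 1, add_pow]
  refine le_trans (sum_le_sum fun h hh => ?_) (sum_le_sum_of_subset_of_nonneg
    (range_mono (by omega : n + 1 ≤ ρ + 1 + 1)) fun _ _ _ => by positivity)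
  have hh' : h ≤ ρ := by have := mem_range.1 hh; omega
  rw [gs, coeff_mk, ← Nat.cast_sub hh', zpow_natCast, abs_mul, abs_mul, abs_pow, abs_pow,
    abs_of_pos hx, abs_of_nonneg h0, one_pow, mul_one]
  have b1 : (1 + α * x) ^ (ρ - h) ≤ 1 := pow_le_one₀ h0 (by linarith)
  have b2 := ch ρ h (hh'.trans (Nat.le_succ ρ))
  calc _ ≤ ((ρ + 1).choose h : ℕ) * x ^ h * 1 * A ^ h := by gcongr
    _ = _ := by ring

end TBND3

theorem bnd3 : S_BND3 := by
  intro ρ k l m x α β γ hk hρ hl hx h0 h1 hA hG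
  obtain ⟨n, rfl⟩ := Nat.exists_eq_add_of_le' hk
  obtain ⟨j, rfl⟩ := Nat.exists_eq_add_of_le' hl
  have hp := pow_pos (sub_pos.2 hG) m
  have h2 := (le_div_iff₀ hp).2 ((TBND3.steps hA.le hG (gs ρ x α) n m).trans
    (TBND3.first hA.le (Nat.le_of_succ_le_succ hρ) hx h0 h1))
  have h3 := TBND3.last (abs_pos.1 hA) h2 j n le_rfl
  rw [rs, mul_right_comm, Nat.add_sub_cancel, show n + 1 + (j + 1) - 2 = n + j by omega,
    show n + 1 + (j + 1) - 1 = n + j + 1 by omega, ← div_div, div_right_comm, mul_div_assoc]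
  exact (le_div_iff₀ (pow_pos hA _)).2 h3

end Pool.Agent.MP_2339ce_nt.DQ

end
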