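import Pool.Agent.MP_2339ce_nt.DQ.Srch

/-! Project DQ3: the search, part 1. -/

set_option autoImplicit false
set_option maxRecDepth 100000

namespace Pool.Agent.MP_2339ce_nt.DQ.SR

theorem run1 :
    pairs 0 343 20000 1 1 1 = true ∧
    pairs 344 703 20000 1 1 1 = true ∧
    pairs 704 1099 20000 1 1 1 = true ∧
    pairs 1100 1459 20000 1 1 1 = true ∧
    pairs 1460 1807 20000 1 1 1 = true ∧
    pairs 1808 2181 20000 1 1 1 = true ∧
    pairs 2182 2569 20000 1 1 1 = true ∧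
    pairs 2570 2901 20000 1 1 1 = true := by
  refine ⟨?_, ?_, ?_, ?_, ?_, ?_, ?_, ?_⟩ <;> decide +kernel

end Pool.Agent.MP_2339ce_nt.DQ.SR
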